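import Pool.Agent.H989.SB.FinS

/-!
The Gaussian law and the uniform law.
-/

set_option linter.unusedSectionVars false
set_option linter.unusedVariables false

open MeasureTheory ProbabilityTheory Finset Filter

namespace Pool.Agent.H989.SB

lemma lowD_of_dens {ν : Measure ℝ} [IsProbabilityMeasure ν] {g : ℝ → ℝ} {e δ ρ₀ : ℝ}
    (hν : ν = volume.withDensity fun t => ENNReal.ofReal (g t)) (hρ₀ : 0 ≤ ρ₀)
    (h : ∀ t, e - δ < t → t < e + δ → ρ₀ ≤ g t) : LowD ν e δ ρ₀ := by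
  intro a b ha hab hb
  have h1 : ENNReal.ofReal (ρ₀ * (b - a)) ≤ ν (Set.Ioo a b) := by
    rw [hν, withDensity_apply _ measurableSet_Ioo]
    calc ENNReal.ofReal (ρ₀ * (b - a)) = ENNReal.ofReal ρ₀ * volume (Set.Ioo a b) := by
          rw [Real.volume_Ioo, ENNReal.ofReal_mul hρ₀]
      _ = ∫⁻ t in Set.Ioo a b, ENNReal.ofReal ρ₀ := by rw [setLIntegral_const]
      _ ≤ _ := by
          refine setLIntegral_mono' measurableSet_Ioo fun t ht => ENNReal.ofReal_le_ofReal ?_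
          exact h t (lt_of_le_of_lt ha ht.1) (lt_of_lt_of_le ht.2 hb)
  have h2 : ρ₀ * (b - a) = (ENNReal.ofReal (ρ₀ * (b - a))).toReal := by
    rw [ENNReal.toReal_ofReal (mul_nonneg hρ₀ (by linarith))]
  rw [h2]
  exact ENNReal.toReal_mono (measure_ne_top _ _) h1

lemma pdf_anti {s t : ℝ} (h : |s| ≤ t) : gaussianPDFReal 0 1 t ≤ gaussianPDFReal 0 1 s := by
  unfold gaussianPDFReal
  have h1 : s ^ 2 ≤ t ^ 2 := by
    rw [← sq_abs s]
    have := abs_nonneg s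
    gcongr
  have h2 : -(t - 0) ^ 2 / (2 * ((1 : NNReal) : ℝ)) ≤ -(s - 0) ^ 2 / (2 * ((1 : NNReal) : ℝ)) := by
    simp only [NNReal.coe_one, sub_zero]
    linarith
  gcongr

lemma lowD_gauss {b δ : ℝ} (hδ : 0 < δ) {e : ℝ} (he : |e| ≤ b + δ) :
    LowD (gaussianReal 0 1) e δ (gaussianPDFReal 0 1 (b + 2 * δ)) := by
  refine lowD_of_dens (g := gaussianPDFReal 0 1) ?_ (gaussianPDFReal_nonneg _ _ _)
    fun t h1 h2 => pdf_anti ?_
  · rw [gaussianReal_of_var_ne_zero _ (by norm_num)]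
    rfl
  · rw [abs_le] at he ⊢
    constructor <;> linarith

lemma pdf_pos' (t : ℝ) : 0 < gaussianPDFReal 0 1 t := gaussianPDFReal_pos _ _ _ (by norm_num)

/-- the density at a slightly larger point -/
lemma pdf_shift {b ε : ℝ} (hb : 0 ≤ b) (hε : 0 < ε) (hε1 : ε < 1) :
    (1 - ε) * gaussianPDFReal 0 1 b
      ≤ (1 - ε / 2) * gaussianPDFReal 0 1 (b + 2 * (ε / (8 * (b + 1)))) := by
  obtain ⟨δ, hδ⟩ : ∃ δ, δ = ε / (8 * (b + 1)) := ⟨_, rfl⟩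
  rw [← hδ]
  have hδ0 : 0 < δ := by rw [hδ]; positivity
  have hδb : 8 * (b + 1) * δ = ε := by rw [hδ]; field_simp
  have hδ1 : δ ≤ 1 := by nlinarith
  have e1 : gaussianPDFReal 0 1 (b + 2 * δ)
      = gaussianPDFReal 0 1 b * Real.exp (-(2 * b * δ + 2 * δ ^ 2)) := by
    unfold gaussianPDFReal
    conv_rhs => rw [mul_assoc, ← Real.exp_add]
    simp only [NNReal.coe_one, sub_zero]
    have e2 : -(b + 2 * δ) ^ 2 / (2 * 1) = -b ^ 2 / (2 * 1) + -(2 * b * δ + 2 * δ ^ 2) := by ring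
    rw [e2]
  have h1 : 1 - (2 * b * δ + 2 * δ ^ 2) ≤ Real.exp (-(2 * b * δ + 2 * δ ^ 2)) := by
    have := Real.add_one_le_exp (-(2 * b * δ + 2 * δ ^ 2)); linarith
  have h2 : 2 * b * δ + 2 * δ ^ 2 ≤ ε / 4 := by nlinarith
  have h3 : 1 - ε ≤ (1 - ε / 2) * Real.exp (-(2 * b * δ + 2 * δ ^ 2)) := by
    have : (1 - ε / 2) * (1 - ε / 4) ≤ (1 - ε / 2) * Real.exp (-(2 * b * δ + 2 * δ ^ 2)) := by
      have : 0 < 1 - ε / 2 := by linarith
      gcongr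
      linarith
    nlinarith
  rw [e1]
  have h4 := pdf_pos' b
  nlinarith

/-- the Gaussian law -/
theorem sb_gauss {b ε : ℝ} (hb : 0 ≤ b) (hε : 0 < ε) (hε1 : ε < 1) (R : ℕ) :
    ∃ d₀ : ℕ, ∀ d : ℕ, d₀ ≤ d → ∀ σ : ℝ, 2 * (d : ℝ) ≤ |σ| →
      |σ| ≤ (1 - ε) * (8 * gaussianPDFReal 0 1 b) * (d * Real.log d) → ∀ a : Zd d,
      ∃ GG : Set (Zd d → ℝ), MeasurableSet GG ∧ 1 - ε ≤ (lawZ (gaussianReal 0 1) d).real GG ∧
        ∀ ω ∈ GG, ∀ (n : ℕ) (u : Fin n → L2 d) (E : Fin n → ℝ), Orthonormal ℂ u →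
          (∀ j x, anderson σ ω (u j) x = E j * u j x) → (∀ j, |E j| ≤ b * |σ|) →
          ∀ B : Finset (Zd d), (∀ y ∈ B, ∑ i, |y i| ≤ (R : ℤ)) →
          ∑ j, ∑ y ∈ B, ‖u j a‖ ^ 2 * ‖u j (a + y)‖ ^ 2 ≤ ε := by
  obtain ⟨δ, hδ⟩ : ∃ δ, δ = ε / (8 * (b + 1)) := ⟨_, rfl⟩
  have hδ0 : 0 < δ := by rw [hδ]; positivity
  have hsh := pdf_shift hb hε hε1
  rw [← hδ] at hsh
  obtain ⟨d₀, hd₀⟩ := sb_band (G := 1) (b := b) (δ := δ) (ρ₀ := gaussianPDFReal 0 1 (b + 2 * δ))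
    (ε := ε / 2) one_pos hb hδ0 (pdf_pos' _) (by positivity) (by linarith) R
  refine ⟨max d₀ 1, fun d hd σ h1 h2 a => ?_⟩
  have hd1 : 1 ≤ d := le_trans (le_max_right _ _) hd
  have hd0 : (1:ℝ) ≤ d := by exact_mod_cast hd1
  have hlog0 : 0 ≤ Real.log (d:ℝ) := Real.log_nonneg hd0
  have hlog : Real.log (d:ℝ) ≤ Real.log (2 * d) := Real.log_le_log (by linarith) (by linarith)
  obtain ⟨GG, hm, hP, hGG⟩ := hd₀ d (le_trans (le_max_left _ _) hd) (gaussianReal 0 1) law_gauss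
    (fun e he => lowD_gauss hδ0 he) σ h1 (by
      refine h2.trans ?_
      have hp := pdf_pos' (b + 2 * δ)
      calc (1 - ε) * (8 * gaussianPDFReal 0 1 b) * (d * Real.log d)
          = ((1 - ε) * gaussianPDFReal 0 1 b) * (8 * (d * Real.log d)) := by ring
        _ ≤ ((1 - ε / 2) * gaussianPDFReal 0 1 (b + 2 * δ)) * (8 * (d * Real.log (2 * d))) := by
            have h5 : 0 ≤ (1 - ε / 2) * gaussianPDFReal 0 1 (b + 2 * δ) :=
              mul_nonneg (by linarith) hp.le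
            gcongr
        _ = _ := by ring) a
  refine ⟨GG, hm, by linarith, fun ω hω n u E hu hev hE B hB => ?_⟩
  have := hGG ω hω n u E hu hev hE B hB
  linarith

end Pool.Agent.H989.SB
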