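import Pool.Agent.H989.SB.FinS3
import Pool.Agent.H989.SB.FinG

/-!
Superpolynomial spreading: final form, the counting of the concentrated eigenfunctions, the Gaussian law.
-/

set_option linter.unusedSectionVars false
set_option linter.unusedVariables false

open MeasureTheory ProbabilityTheory Finset Filter

namespace Pool.Agent.H989.SB

/-- the local statement -/
def Spr (ν : Measure ℝ) (d : ℕ) (σ : ℝ) (I : ℝ → Prop) (R A : ℕ) (ε : ℝ) : Prop :=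
  ∀ a : Zd d, ∃ GG : Set (Zd d → ℝ), MeasurableSet GG ∧ 1 - ε ≤ (lawZ ν d).real GG ∧
    ∀ ω ∈ GG, ∀ (ι : Type) [Fintype ι] (u : ι → L2 d) (E : ι → ℝ), Orthonormal ℂ u →
      (∀ j x, anderson σ ω (u j) x = E j * u j x) → (∀ j, I (E j)) →
      (∀ j, 1 ≤ (d : ℝ) ^ A * ∑ y ∈ bal d R, ‖u j (a + y)‖ ^ 2) →
      ∑ j, ‖u j a‖ ^ 2 ≤ ε

lemma FinG3_bessel {d : ℕ} {ι : Type} [Fintype ι] (u : ι → L2 d) (hu : Orthonormal ℂ u) (a : Zd d) :
    ∑ j, ‖u j a‖ ^ 2 ≤ 1 := by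
  classical
  have h := hu.sum_inner_products_le (lp.single 2 a (1:ℂ)) (s := univ)
  rw [lp.norm_single (by norm_num)] at h
  simp only [norm_one, one_pow] at h
  refine le_trans (le_of_eq ?_) h
  refine Finset.sum_congr rfl fun j _ => ?_
  rw [lp.inner_single_right]
  simp

/-- few bad sites -/
lemma FinG3_bad {d : ℕ} {P : Measure (Zd d → ℝ)} [IsProbabilityMeasure P] {ε : ℝ} (hε : 0 < ε)
    (hε1 : ε < 1) (GG : Zd d → Set (Zd d → ℝ)) (hm : ∀ a, MeasurableSet (GG a))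
    (hP : ∀ a, 1 - ε ^ 4 / 16 ≤ P.real (GG a)) (Λ : Finset (Zd d)) :
    ∃ G : Set (Zd d → ℝ), MeasurableSet G ∧ 1 - ε ≤ P.real G ∧
      ∀ ω ∈ G, ∑ a ∈ Λ, (GG a)ᶜ.indicator (fun _ => (1 : ℝ)) ω ≤ ε ^ 2 / 4 * Λ.card := by
  classical
  obtain ⟨X, hX⟩ : ∃ X : (Zd d → ℝ) → ℝ, X = fun ω => ∑ a ∈ Λ, (GG a)ᶜ.indicator (fun _ => (1 : ℝ)) ω :=
    ⟨_, rfl⟩
  have hXm : Measurable X := by
    rw [hX]
    exact Finset.measurable_sum _ fun a _ => measurable_const.indicator (hm a).compl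
  have hX0 : ∀ ω, 0 ≤ X ω := by
    intro ω
    rw [hX]
    exact Finset.sum_nonneg fun a _ => Set.indicator_nonneg (fun _ _ => zero_le_one) _
  have hint : ∀ a ∈ Λ, Integrable (fun ω => (GG a)ᶜ.indicator (fun _ => (1 : ℝ)) ω) P := fun a _ =>
    (integrable_const 1).indicator (hm a).compl
  have hEX : ∫ ω, X ω ∂P ≤ ε ^ 4 / 16 * Λ.card := by
    rw [hX]
    rw [integral_finsetSum _ hint]
    calc ∑ a ∈ Λ, ∫ ω, (GG a)ᶜ.indicator (fun _ => (1 : ℝ)) ω ∂P ≤ ∑ a ∈ Λ, ε ^ 4 / 16 := by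
          refine Finset.sum_le_sum fun a _ => ?_
          rw [integral_indicator_const _ (hm a).compl, smul_eq_mul, mul_one,
            probReal_compl_eq_one_sub (hm a)]
          linarith [hP a]
      _ = _ := by rw [Finset.sum_const, nsmul_eq_mul, mul_comm]
  rcases Λ.eq_empty_or_nonempty with h0 | h0
  · refine ⟨Set.univ, MeasurableSet.univ, ?_, fun ω _ => by simp [h0]⟩
    rw [probReal_univ]
    linarith
  · have hc : (0 : ℝ) < Λ.card := by exact_mod_cast h0.card_pos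
    refine ⟨{ω | X ω ≤ ε ^ 2 / 4 * Λ.card}, measurableSet_le hXm measurable_const, ?_, fun ω hω => ?_⟩
    · have h1 := mul_meas_ge_le_integral_of_nonneg (μ := P) (f := X)
        (Eventually.of_forall hX0) (by
          rw [hX]
          exact integrable_finsetSum _ hint) (ε ^ 2 / 4 * Λ.card)
      have h2 : P.real {ω | X ω ≤ ε ^ 2 / 4 * Λ.card}ᶜ ≤ P.real {ω | ε ^ 2 / 4 * Λ.card ≤ X ω} := by
        refine measureReal_mono fun ω hω => ?_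
        have : ¬ (X ω ≤ ε ^ 2 / 4 * Λ.card) := hω
        exact (not_le.1 this).le
      rw [probReal_compl_eq_one_sub (measurableSet_le hXm measurable_const)] at h2
      have h3 : P.real {ω | ε ^ 2 / 4 * Λ.card ≤ X ω} ≤ ε ^ 2 / 4 := by
        have h4 : ε ^ 2 / 4 * Λ.card * P.real {ω | ε ^ 2 / 4 * Λ.card ≤ X ω}
            ≤ ε ^ 2 / 4 * Λ.card * (ε ^ 2 / 4) := by
          refine (h1.trans hEX).trans (le_of_eq ?_)
          ring
        exact le_of_mul_le_mul_left h4 (by positivity)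
      have h5 : ε ^ 2 / 4 ≤ ε := by nlinarith
      linarith
    · have : X ω ≤ ε ^ 2 / 4 * Λ.card := hω
      rwa [hX] at this

/-- counting of the concentrated eigenfunctions -/
theorem Spr.count {ν : Measure ℝ} [IsProbabilityMeasure ν] {d : ℕ} (hd : 1 ≤ d) {σ : ℝ}
    {I : ℝ → Prop} {A : ℕ} {ε : ℝ} (hε : 0 < ε) (hε1 : ε < 1) (h : Spr ν d σ I 0 A (ε ^ 4 / 16))
    {N : ℝ} (hN : 2 * N ≤ ε * (d : ℝ) ^ A) (Λ : Finset (Zd d)) :
    ∃ GG : Set (Zd d → ℝ), MeasurableSet GG ∧ 1 - ε ≤ (lawZ ν d).real GG ∧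
      ∀ ω ∈ GG, ∀ (n : ℕ) (u : Fin n → L2 d) (E : Fin n → ℝ), Orthonormal ℂ u →
        (∀ j x, anderson σ ω (u j) x = E j * u j x) → (∀ j, I (E j)) →
        (∀ j, ∃ S : Finset (Zd d), S ⊆ Λ ∧ (S.card : ℝ) ≤ N ∧ ε ≤ ∑ x ∈ S, ‖u j x‖ ^ 2) →
        (n : ℝ) ≤ ε * Λ.card := by
  classical
  choose GG hm hP hGG using h
  obtain ⟨G, hG, hGP, hGb⟩ := FinG3_bad hε hε1 GG hm hP Λ
  refine ⟨G, hG, hGP, fun ω hω n u E hu hev hE hS => ?_⟩
  have hd0 : (0:ℝ) < d := by exact_mod_cast hd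
  have hdA : 0 < (d : ℝ) ^ A := by positivity
  obtain ⟨f, hf⟩ : ∃ f : Fin n → Zd d → ℝ,
      f = fun j x => if 1 ≤ (d : ℝ) ^ A * ‖u j x‖ ^ 2 then ‖u j x‖ ^ 2 else 0 := ⟨_, rfl⟩
  have hf0 : ∀ j x, 0 ≤ f j x := by
    intro j x
    rw [hf]
    dsimp only
    split_ifs <;> positivity
  have hf1 : ∀ j x, f j x ≤ ‖u j x‖ ^ 2 := by
    intro j x
    rw [hf]
    dsimp only
    split_ifs
    · exact le_rfl
    · positivity
  have hf2 : ∀ j x, ‖u j x‖ ^ 2 ≤ f j x + 1 / (d : ℝ) ^ A := by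
    intro j x
    rw [hf]
    dsimp only
    split_ifs with h1
    · have : 0 < 1 / (d : ℝ) ^ A := by positivity
      linarith
    · push Not at h1
      rw [zero_add, le_div_iff₀ hdA]
      linarith
  have h1 : ∀ j, ε / 2 ≤ ∑ x ∈ Λ, f j x := by
    intro j
    obtain ⟨S, hSΛ, hSc, hSε⟩ := hS j
    have e1 : ∑ x ∈ S, ‖u j x‖ ^ 2 ≤ ∑ x ∈ S, f j x + S.card * (1 / (d : ℝ) ^ A) := by
      calc ∑ x ∈ S, ‖u j x‖ ^ 2 ≤ ∑ x ∈ S, (f j x + 1 / (d : ℝ) ^ A) :=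
            Finset.sum_le_sum fun x _ => hf2 j x
        _ = _ := by rw [Finset.sum_add_distrib, Finset.sum_const, nsmul_eq_mul]
    have e2 : ∑ x ∈ S, f j x ≤ ∑ x ∈ Λ, f j x :=
      Finset.sum_le_sum_of_subset_of_nonneg hSΛ fun x _ _ => hf0 j x
    have e3 : (S.card : ℝ) * (1 / (d : ℝ) ^ A) ≤ ε / 2 := by
      rw [mul_one_div, div_le_iff₀ hdA]
      linarith
    linarith
  have h2 : ∀ x ∈ Λ, ∑ j, f j x ≤ ε ^ 4 / 16 + (GG x)ᶜ.indicator (fun _ => (1 : ℝ)) ω := by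
    intro x _
    by_cases hx : ω ∈ GG x
    · rw [Set.indicator_of_notMem (by simpa using hx), add_zero]
      have h3 := hGG x ω hx {j : Fin n // 1 ≤ (d : ℝ) ^ A * ‖u j x‖ ^ 2} (fun k => u k) (fun k => E k)
        (hu.comp _ Subtype.val_injective) (fun k y => hev _ y) (fun k => hE _) (fun k => by
          refine k.2.trans (mul_le_mul_of_nonneg_left ?_ hdA.le)
          have h4 : (0 : Zd d) ∈ bal d 0 := mem_bal.2 (by simp)
          have h5 := Finset.single_le_sum (s := bal d 0)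
            (f := fun y => ‖u (k : Fin n) (x + y)‖ ^ 2) (fun y _ => by positivity) h4
          simpa only [add_zero] using h5)
      refine le_trans (le_of_eq ?_) h3
      rw [hf]
      dsimp only
      rw [← Finset.sum_filter]
      exact (Finset.sum_subtype (Finset.univ.filter fun j => 1 ≤ (d : ℝ) ^ A * ‖u j x‖ ^ 2)
        (fun j => by simp) fun j => ‖u j x‖ ^ 2)
    · rw [Set.indicator_of_mem (by simpa using hx)]
      have h3 := FinG3_bessel u hu x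
      have h4 : ∑ j, f j x ≤ ∑ j, ‖u j x‖ ^ 2 := Finset.sum_le_sum fun j _ => hf1 j x
      have : 0 < ε ^ 4 / 16 := by positivity
      linarith
  have h3 : (n : ℝ) * (ε / 2) ≤ ∑ j : Fin n, ∑ x ∈ Λ, f j x := by
    calc (n : ℝ) * (ε / 2) = ∑ j : Fin n, ε / 2 := by
          rw [Finset.sum_const, Finset.card_univ, Fintype.card_fin, nsmul_eq_mul]
      _ ≤ _ := Finset.sum_le_sum fun j _ => h1 j
  rw [Finset.sum_comm] at h3
  have h4 : ∑ x ∈ Λ, ∑ j, f j x ≤ ε ^ 4 / 16 * Λ.card + ε ^ 2 / 4 * Λ.card := by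
    calc ∑ x ∈ Λ, ∑ j, f j x
        ≤ ∑ x ∈ Λ, (ε ^ 4 / 16 + (GG x)ᶜ.indicator (fun _ => (1 : ℝ)) ω) := Finset.sum_le_sum h2
      _ = ε ^ 4 / 16 * Λ.card + ∑ x ∈ Λ, (GG x)ᶜ.indicator (fun _ => (1 : ℝ)) ω := by
          rw [Finset.sum_add_distrib, Finset.sum_const, nsmul_eq_mul, mul_comm]
      _ ≤ _ := by linarith [hGb ω hω]
  have hc : (0 : ℝ) ≤ Λ.card := Nat.cast_nonneg _
  have h5 : ε ^ 4 / 16 * Λ.card ≤ ε ^ 2 / 4 * Λ.card := by
    refine mul_le_mul_of_nonneg_right ?_ hc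
    have : ε ^ 4 ≤ ε ^ 2 := pow_le_pow_of_le_one hε.le hε1.le (by norm_num)
    have : 0 < ε ^ 2 := by positivity
    linarith
  have h6 : (n : ℝ) * (ε / 2) ≤ ε * Λ.card * (ε / 2) := by nlinarith
  exact le_of_mul_le_mul_right h6 (by positivity)

/-- the radius and the exponent -/
lemma FinG3_reg {c₀ ε : ℝ} (hc₀ : 0 < c₀) (hε : 0 < ε) : ∃ c : ℝ, 0 < c ∧ ∃ d₁ : ℕ, ∀ d : ℕ, d₁ ≤ d →
    1 ≤ d ∧ ∃ R A : ℕ, ((R + A : ℕ) : ℝ) * Real.log (Real.log (2 * d)) ^ 2 ≤ c₀ * Real.log (2 * d) ∧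
      (∀ m : ℕ, (m : ℝ) ≤ c * Real.log d / Real.log (Real.log d) ^ 2 → m ≤ R) ∧
      2 * Real.exp (c * (Real.log d / Real.log (Real.log d)) ^ 2) ≤ ε * (d : ℝ) ^ A := by
  have ht : Tendsto (fun d : ℕ => Real.log (d : ℝ)) atTop atTop :=
    Real.tendsto_log_atTop.comp tendsto_natCast_atTop_atTop
  have hls := par_log_sq (c := c₀ / 32) (by positivity)
  have hl1 := Real.tendsto_log_atTop.eventually_ge_atTop 1
  have hall := (hls.and hl1).and (eventually_ge_atTop (1:ℝ))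
  obtain ⟨d₁, hd₁⟩ := eventually_atTop.1 ((ht.eventually hall).and
    (((eventually_ge_atTop 2).and (tendsto_natCast_atTop_atTop.eventually_ge_atTop (2 / ε)))))
  refine ⟨c₀ / 32, by positivity, d₁, fun d hd => ?_⟩
  obtain ⟨⟨⟨g1, g2⟩, g3⟩, g4, g5⟩ := hd₁ d hd
  have hd2 : (2:ℝ) ≤ d := by exact_mod_cast g4
  obtain ⟨l, hl⟩ : ∃ l, l = Real.log (d : ℝ) := ⟨_, rfl⟩
  obtain ⟨m, hm⟩ : ∃ m, m = Real.log l := ⟨_, rfl⟩
  rw [← hl] at g1 g2 g3 ⊢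
  rw [← hm] at g1 g2 ⊢
  have hm2 : 0 < m ^ 2 := by positivity
  obtain ⟨t, htt⟩ : ∃ t, t = c₀ / 32 * l / m ^ 2 := ⟨_, rfl⟩
  have ht0 : 0 ≤ t := by rw [htt]; positivity
  have hlog2 : Real.log (2 * (d:ℝ)) = Real.log 2 + l := by
    rw [hl, Real.log_mul (by norm_num) (by linarith)]
  have hlog20 : 0 < Real.log 2 := Real.log_pos (by norm_num)
  have hlog21 : Real.log 2 < 1 := by
    have := Real.log_two_lt_d9
    linarith
  have h1 : Real.log (2 * (d:ℝ)) ≤ 2 * l := by rw [hlog2]; linarith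
  have h2 : Real.log (Real.log (2 * (d:ℝ))) ≤ 2 * m := by
    calc Real.log (Real.log (2 * (d:ℝ))) ≤ Real.log (2 * l) :=
          Real.log_le_log (by rw [hlog2]; linarith) h1
      _ = Real.log 2 + m := by rw [Real.log_mul (by norm_num) (by linarith), hm]
      _ ≤ 2 * m := by linarith
  have h3 : 0 ≤ Real.log (Real.log (2 * (d:ℝ))) := Real.log_nonneg (by rw [hlog2]; linarith)
  have h4 : Real.log (Real.log (2 * (d:ℝ))) ^ 2 ≤ 4 * m ^ 2 := by nlinarith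
  refine ⟨by omega, ⌊t⌋₊, ⌈t⌉₊ + 1, ?_, fun k hk => ?_, ?_⟩
  · have e1 : ((⌊t⌋₊ : ℕ) : ℝ) ≤ t := Nat.floor_le ht0
    have e2 : ((⌈t⌉₊ : ℕ) : ℝ) < t + 1 := Nat.ceil_lt_add_one ht0
    push_cast
    have e3 : t * m ^ 2 = c₀ / 32 * l := by rw [htt]; field_simp
    have e4 : 0 ≤ Real.log (Real.log (2 * (d:ℝ))) ^ 2 := by positivity
    calc ((⌊t⌋₊ : ℝ) + ((⌈t⌉₊ : ℝ) + 1)) * Real.log (Real.log (2 * (d:ℝ))) ^ 2
        ≤ (2 * t + 2) * (4 * m ^ 2) := by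
          apply mul_le_mul _ h4 e4 (by linarith)
          linarith
      _ = 8 * (t * m ^ 2) + 8 * m ^ 2 := by ring
      _ ≤ 8 * (c₀ / 32 * l) + 8 * (c₀ / 32 * l) := by rw [e3]; linarith
      _ ≤ c₀ * l := by nlinarith
      _ ≤ c₀ * Real.log (2 * (d:ℝ)) := by
          rw [hlog2]
          nlinarith
  · rw [← htt] at hk
    exact Nat.le_floor hk
  · have e1 : t ≤ ((⌈t⌉₊ : ℕ) : ℝ) := Nat.le_ceil t
    have e2 : (d : ℝ) = Real.exp l := by rw [hl, Real.exp_log (by linarith)]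
    have e3 : (d : ℝ) ^ (⌈t⌉₊ + 1) = (d:ℝ) * Real.exp (⌈t⌉₊ * l) := by
      rw [pow_succ, mul_comm]
      congr 1
      conv_lhs => rw [e2]
      rw [← Real.exp_nat_mul]
    have e4 : c₀ / 32 * (l / m) ^ 2 = t * l := by rw [htt]; field_simp
    rw [e3, e4]
    have e5 : Real.exp (t * l) ≤ Real.exp (⌈t⌉₊ * l) := by
      apply Real.exp_le_exp.2
      exact mul_le_mul_of_nonneg_right e1 (by linarith)
    have e6 : 2 ≤ ε * d := by
      rw [div_le_iff₀ hε] at g5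
      linarith
    have e7 := Real.exp_pos (t * l)
    calc 2 * Real.exp (t * l) ≤ (ε * d) * Real.exp (⌈t⌉₊ * l) := by
          apply mul_le_mul e6 e5 e7.le (by positivity)
      _ = _ := by ring

/-- the final form -/
def Fin3 (ν : Measure ℝ) (d : ℕ) (σ : ℝ) (I : ℝ → Prop) (c ε : ℝ) : Prop :=
  (∀ a : Zd d, ∃ GG : Set (Zd d → ℝ), MeasurableSet GG ∧ 1 - ε ≤ (lawZ ν d).real GG ∧
    ∀ ω ∈ GG, ∀ (n : ℕ) (u : Fin n → L2 d) (E : Fin n → ℝ), Orthonormal ℂ u →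
      (∀ j x, anderson σ ω (u j) x = E j * u j x) → (∀ j, I (E j)) →
      (∀ j, ∃ B : Finset (Zd d),
        (∀ y ∈ B, ∑ i, |(y i : ℝ)| ≤ c * Real.log d / Real.log (Real.log d) ^ 2) ∧
        Real.exp (-(c * (Real.log d / Real.log (Real.log d)) ^ 2)) ≤ ∑ y ∈ B, ‖u j (a + y)‖ ^ 2) →
      ∑ j, ‖u j a‖ ^ 2 ≤ ε) ∧
  ∀ Λ : Finset (Zd d), ∃ GG : Set (Zd d → ℝ), MeasurableSet GG ∧ 1 - ε ≤ (lawZ ν d).real GG ∧
    ∀ ω ∈ GG, ∀ (n : ℕ) (u : Fin n → L2 d) (E : Fin n → ℝ), Orthonormal ℂ u →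
      (∀ j x, anderson σ ω (u j) x = E j * u j x) → (∀ j, I (E j)) →
      (∀ j, ∃ S : Finset (Zd d), S ⊆ Λ ∧
        (S.card : ℝ) ≤ Real.exp (c * (Real.log d / Real.log (Real.log d)) ^ 2) ∧
        ε ≤ ∑ x ∈ S, ‖u j x‖ ^ 2) →
      (n : ℝ) ≤ ε * Λ.card

/-- from the local statement to the final form -/
theorem fin3_of_spr {c₀ ε : ℝ} (hc₀ : 0 < c₀) (hε : 0 < ε) (hε1 : ε < 1) :
    ∃ c : ℝ, 0 < c ∧ ∃ d₁ : ℕ, ∀ d : ℕ, d₁ ≤ d → 1 ≤ d ∧ ∀ (ν : Measure ℝ) [IsProbabilityMeasure ν]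
      (σ : ℝ) (I : ℝ → Prop),
      (∀ R A : ℕ, ((R + A : ℕ) : ℝ) * Real.log (Real.log (2 * d)) ^ 2 ≤ c₀ * Real.log (2 * d) →
        Spr ν d σ I R A (ε ^ 4 / 16)) → Fin3 ν d σ I c ε := by
  obtain ⟨c, hc, d₁, hd₁⟩ := FinG3_reg hc₀ hε
  refine ⟨c, hc, d₁, fun d hd => ⟨(hd₁ d hd).1, fun ν _ σ I h => ?_⟩⟩
  obtain ⟨hd1, R, A, hRA, hR, hA⟩ := hd₁ d hd
  have hd0 : (0:ℝ) < d := by exact_mod_cast hd1
  have hdA : 0 < (d : ℝ) ^ A := by positivity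
  have hε' : ε ^ 4 / 16 ≤ ε := by
    have : ε ^ 4 ≤ ε ^ 1 := pow_le_pow_of_le_one hε.le hε1.le (by norm_num)
    rw [pow_one] at this
    linarith
  refine ⟨fun a => ?_, fun Λ => ?_⟩
  · obtain ⟨GG, hm, hP, hGG⟩ := h R A hRA a
    refine ⟨GG, hm, by linarith, fun ω hω n u E hu hev hE hB => ?_⟩
    refine (hGG ω hω (Fin n) u E hu hev hE fun j => ?_).trans hε'
    obtain ⟨B, hB1, hB2⟩ := hB j
    have h1 : B ⊆ bal d R := by
      intro y hy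
      rw [mem_bal]
      have h2 := hB1 y hy
      have h3 : ((∑ i, (y i).natAbs : ℕ) : ℝ) = ∑ i, |(y i : ℝ)| := by
        push_cast
        refine Finset.sum_congr rfl fun i _ => ?_
        rw [Nat.cast_natAbs, Int.cast_abs]
      rw [← h3] at h2
      have h4 := hR _ h2
      have h5 : ((∑ i, (y i).natAbs : ℕ) : ℤ) = ∑ i, |y i| := by
        push_cast
        rfl
      rw [← h5]
      exact_mod_cast h4
    have h2 : ∑ y ∈ B, ‖u j (a + y)‖ ^ 2 ≤ ∑ y ∈ bal d R, ‖u j (a + y)‖ ^ 2 :=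
      Finset.sum_le_sum_of_subset_of_nonneg h1 fun y _ _ => by positivity
    obtain ⟨s, hs⟩ : ∃ s, s = c * (Real.log d / Real.log (Real.log d)) ^ 2 := ⟨_, rfl⟩
    rw [← hs] at hA hB2
    have h3 : Real.exp s ≤ (d : ℝ) ^ A := by
      have : 0 < Real.exp s := Real.exp_pos s
      nlinarith
    calc (1:ℝ) = Real.exp s * Real.exp (-s) := by rw [← Real.exp_add]; simp
      _ ≤ (d : ℝ) ^ A * ∑ y ∈ bal d R, ‖u j (a + y)‖ ^ 2 :=
          mul_le_mul h3 (hB2.trans h2) (Real.exp_pos _).le hdA.le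
  · have hRA0 : ((0 + A : ℕ) : ℝ) * Real.log (Real.log (2 * d)) ^ 2 ≤ c₀ * Real.log (2 * d) := by
      refine le_trans (mul_le_mul_of_nonneg_right ?_ (by positivity)) hRA
      push_cast
      have : (0:ℝ) ≤ R := Nat.cast_nonneg R
      linarith
    exact (h 0 A hRA0).count hd1 hε hε1 hA Λ

/-- the Gaussian law -/
theorem sb_gauss3 {b ε : ℝ} (hb : 0 ≤ b) (hε : 0 < ε) (hε1 : ε < 1) :
    ∃ c : ℝ, 0 < c ∧ ∃ d₀ : ℕ, ∀ d : ℕ, d₀ ≤ d → ∀ σ : ℝ, 2 * (d : ℝ) ≤ |σ| →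
      |σ| ≤ (1 - ε) * (8 * gaussianPDFReal 0 1 b) * (d * Real.log d) →
      Fin3 (gaussianReal 0 1) d σ (fun E => |E| ≤ b * |σ|) c ε := by
  obtain ⟨δ, hδ⟩ : ∃ δ, δ = ε / (8 * (b + 1)) := ⟨_, rfl⟩
  have hδ0 : 0 < δ := by rw [hδ]; positivity
  have hsh := pdf_shift hb hε hε1
  rw [← hδ] at hsh
  have hε' : ε ^ 4 / 16 ≤ ε / 2 := by
    have : ε ^ 4 ≤ ε ^ 1 := pow_le_pow_of_le_one hε.le hε1.le (by norm_num)
    rw [pow_one] at this
    linarith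
  obtain ⟨c₀, hc₀, d₀, hd₀⟩ := sb_band3 (G := 1) (b := b) (δ := δ)
    (ρ₀ := gaussianPDFReal 0 1 (b + 2 * δ))
    (ε := ε ^ 4 / 16) one_pos hb hδ0 (pdf_pos' _) (by positivity) (by linarith)
  obtain ⟨c, hc, d₁, hd₁⟩ := fin3_of_spr (c₀ := c₀) hc₀ hε hε1
  refine ⟨c, hc, max d₀ d₁, fun d hd σ h1 h2 => ?_⟩
  obtain ⟨hd1, hfin⟩ := hd₁ d (le_trans (le_max_right _ _) hd)
  have hd0 : (1:ℝ) ≤ d := by exact_mod_cast hd1
  have hlog0 : 0 ≤ Real.log (d:ℝ) := Real.log_nonneg hd0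
  have hlog : Real.log (d:ℝ) ≤ Real.log (2 * d) := Real.log_le_log (by linarith) (by linarith)
  refine hfin _ σ _ fun R A hRA a => ?_
  exact hd₀ d (le_trans (le_max_left _ _) hd) R A hRA (gaussianReal 0 1) law_gauss
    (fun e he => lowD_gauss hδ0 he) σ h1 (by
      refine h2.trans ?_
      have hp := pdf_pos' (b + 2 * δ)
      calc (1 - ε) * (8 * gaussianPDFReal 0 1 b) * (d * Real.log d)
          = ((1 - ε) * gaussianPDFReal 0 1 b) * (8 * (d * Real.log d)) := by ring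
        _ ≤ ((1 - ε / 2) * gaussianPDFReal 0 1 (b + 2 * δ)) * (8 * (d * Real.log (2 * d))) := by
            have h5 : 0 ≤ (1 - ε / 2) * gaussianPDFReal 0 1 (b + 2 * δ) :=
              mul_nonneg (by linarith) hp.le
            gcongr
        _ ≤ ((1 - ε ^ 4 / 16) * gaussianPDFReal 0 1 (b + 2 * δ)) * (8 * (d * Real.log (2 * d))) := by
            have h6 : 0 ≤ 8 * ((d:ℝ) * Real.log (2 * d)) :=
              mul_nonneg (by norm_num) (mul_nonneg (by linarith) (hlog0.trans hlog))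
            gcongr
        _ = _ := by ring) a

end Pool.Agent.H989.SB
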