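import Pool.Agent.H989.SB.FinG

/-!
The uniform law.
-/

set_option linter.unusedSectionVars false
set_option linter.unusedVariables false

open MeasureTheory ProbabilityTheory Finset Filter

namespace Pool.Agent.H989.SB

/-- the uniform law on `[-1, 1]` -/
noncomputable abbrev unif1 : Measure ℝ := (2 : ENNReal)⁻¹ • volume.restrict (Set.Icc (-1 : ℝ) 1)

/-- the uniform law on `[-c, c]` -/
noncomputable abbrev unifc (c : ℝ) : Measure ℝ :=
  (ENNReal.ofReal (2 * c))⁻¹ • volume.restrict (Set.Icc (-c) c)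

lemma unif1_eq : unif1 = volume.withDensity
    fun t => ENNReal.ofReal ((Set.Icc (-1 : ℝ) 1).indicator (fun _ => (2 : ℝ)⁻¹) t) := by
  have h1 : (fun t => ENNReal.ofReal ((Set.Icc (-1 : ℝ) 1).indicator (fun _ => (2 : ℝ)⁻¹) t))
      = (Set.Icc (-1 : ℝ) 1).indicator (fun _ => (2 : ENNReal)⁻¹) := by
    funext t
    by_cases ht : t ∈ Set.Icc (-1 : ℝ) 1
    · rw [Set.indicator_of_mem ht, Set.indicator_of_mem ht, ENNReal.ofReal_inv_of_pos (by norm_num)]
      norm_num
    · rw [Set.indicator_of_notMem ht, Set.indicator_of_notMem ht, ENNReal.ofReal_zero]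
  rw [h1, withDensity_indicator measurableSet_Icc, withDensity_const]

lemma lowD_unif {b : ℝ} (hb1 : b < 1) {e : ℝ} (he : |e| ≤ b + (1 - b) / 3) :
    LowD unif1 e ((1 - b) / 3) 2⁻¹ := by
  have := (law_unif).prob
  refine lowD_of_dens (g := (Set.Icc (-1 : ℝ) 1).indicator (fun _ => (2 : ℝ)⁻¹)) unif1_eq
    (by norm_num) fun t h1 h2 => ?_
  have h3 := abs_le.1 he
  rw [Set.indicator_of_mem]
  rw [Set.mem_Icc]
  constructor <;> linarith

lemma map_unifc {c : ℝ} (hc : 0 < c) : (unifc c).map (fun t => -c⁻¹ * t) = unif1 := by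
  have hne : (-c⁻¹ : ℝ) ≠ 0 := by
    have : c⁻¹ ≠ 0 := inv_ne_zero hc.ne'
    exact neg_ne_zero.2 this
  have he : MeasurableEmbedding fun t : ℝ => -c⁻¹ * t :=
    (Homeomorph.mulLeft₀ _ hne).measurableEmbedding
  have hpre : (fun t : ℝ => -c⁻¹ * t) ⁻¹' (Set.Icc (-1 : ℝ) 1) = Set.Icc (-c) c := by
    ext t
    rw [Set.mem_preimage, Set.mem_Icc, Set.mem_Icc]
    have h1 : -1 ≤ -c⁻¹ * t ↔ t ≤ c := by
      rw [neg_mul, neg_le_neg_iff, inv_mul_le_iff₀ hc, mul_one]
    have h2 : -c⁻¹ * t ≤ 1 ↔ -c ≤ t := by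
      rw [neg_mul, ← mul_neg, inv_mul_le_iff₀ hc, mul_one]
      constructor <;> intro h <;> linarith
    rw [h1, h2]
    exact ⟨fun h => ⟨h.2, h.1⟩, fun h => ⟨h.2, h.1⟩⟩
  unfold unifc unif1
  rw [Measure.map_smul, ← hpre, ← he.restrict_map, Real.map_volume_mul_left hne,
    Measure.restrict_smul, smul_smul]
  congr 1
  rw [abs_inv, abs_neg, abs_inv, inv_inv, abs_of_pos hc]
  rw [ENNReal.ofReal_mul (by norm_num), ENNReal.mul_inv (by left; norm_num) (by left; norm_num),
    mul_assoc, ENNReal.inv_mul_cancel (by simpa using hc) ENNReal.ofReal_ne_top, mul_one]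
  norm_num

/-- the uniform law, in the normalization of a positive Laplacian and a potential in `[-c, c]` -/
theorem sb_unif {b ε : ℝ} (hb : 0 ≤ b) (hb1 : b < 1) (hε : 0 < ε) (hε1 : ε < 1) (R : ℕ) :
    ∃ d₀ : ℕ, ∀ d : ℕ, d₀ ≤ d → ∀ c : ℝ, 2 * (d : ℝ) ≤ c →
      c ≤ (1 - ε) * (4 * (d * Real.log d)) → ∀ a : Zd d,
      ∃ GG : Set (Zd d → ℝ), MeasurableSet GG ∧
        1 - ε ≤ (Measure.infinitePi fun _ : Zd d => unifc c).real GG ∧
        ∀ ω ∈ GG, ∀ (n : ℕ) (u : Fin n → L2 d) (E : Fin n → ℝ), Orthonormal ℂ u →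
          (∀ j x, -∑ i, ((u j (x + Pi.single i 1) - u j x) + (u j (x - Pi.single i 1) - u j x))
            + (ω x : ℂ) * u j x = E j * u j x) → (∀ j, |E j - 2 * d| ≤ b * c) →
          ∀ B : Finset (Zd d), (∀ y ∈ B, ∑ i, |y i| ≤ (R : ℤ)) →
          ∑ j, ∑ y ∈ B, ‖u j a‖ ^ 2 * ‖u j (a + y)‖ ^ 2 ≤ ε := by
  have hδ0 : 0 < (1 - b) / 3 := by linarith
  obtain ⟨d₀, hd₀⟩ := sb_band (G := 1) (b := b) (δ := (1 - b) / 3) (ρ₀ := 2⁻¹)
    (ε := ε) one_pos hb hδ0 (by norm_num) hε hε1 R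
  refine ⟨max d₀ 1, fun d hd c h1 h2 a => ?_⟩
  have hd1 : 1 ≤ d := le_trans (le_max_right _ _) hd
  have hd0 : (1:ℝ) ≤ d := by exact_mod_cast hd1
  have hc : 0 < c := by linarith
  have hlog0 : 0 ≤ Real.log (d:ℝ) := Real.log_nonneg hd0
  have hlog : Real.log (d:ℝ) ≤ Real.log (2 * d) := Real.log_le_log (by linarith) (by linarith)
  have hac : |c| = c := abs_of_pos hc
  obtain ⟨GG, hm, hP, hGG⟩ := hd₀ d (le_trans (le_max_left _ _) hd) unif1 law_unif
    (fun e he => lowD_unif hb1 he) c (by rw [hac]; exact h1) (by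
      rw [hac]
      refine h2.trans ?_
      have h5 : 0 ≤ 1 - ε := by linarith
      calc (1 - ε) * (4 * (d * Real.log d)) ≤ (1 - ε) * (4 * (d * Real.log (2 * d))) := by gcongr
        _ = _ := by ring) a
  have hms : Measurable fun (ω : Zd d → ℝ) (x : Zd d) => -c⁻¹ * ω x :=
    measurable_pi_lambda _ fun x => (measurable_pi_apply x).const_mul _
  have hprob1 : IsProbabilityMeasure unif1 := law_unif.prob
  have hprobc : IsProbabilityMeasure (unifc c) := by
    constructor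
    have : (unifc c).map (fun t => -c⁻¹ * t) Set.univ = unif1 Set.univ := by rw [map_unifc hc]
    rw [Measure.map_apply (by fun_prop) MeasurableSet.univ, Set.preimage_univ] at this
    rw [this]
    exact measure_univ
  refine ⟨(fun (ω : Zd d → ℝ) (x : Zd d) => -c⁻¹ * ω x) ⁻¹' GG, hms hm, ?_,
    fun ω hω n u E hu hev hE B hB => ?_⟩
  · have h3 : (Measure.infinitePi fun _ : Zd d => unifc c).map
        (fun (ω : Zd d → ℝ) (x : Zd d) => -c⁻¹ * ω x) = lawZ unif1 d := by
      have := Measure.infinitePi_map_pi (μ := fun _ : Zd d => unifc c)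
        (f := fun _ : Zd d => fun t : ℝ => -c⁻¹ * t) (fun _ => by fun_prop)
      rw [this]
      unfold lawZ
      congr 1
      funext x
      exact map_unifc hc
    rw [← h3] at hP
    rwa [map_measureReal_apply hms hm] at hP
  · refine hGG _ hω n u (fun j => 2 * d - E j) hu (fun j x => ?_) (fun j => ?_) B hB
    · have h4 := hev j x
      unfold anderson
      simp only [Finset.sum_add_distrib, Finset.sum_sub_distrib, Finset.sum_const,
        Finset.card_univ, Fintype.card_fin, nsmul_eq_mul] at h4 ⊢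
      have h5 : c * (-c⁻¹ * ω x) = -ω x := by field_simp
      rw [h5]
      push_cast
      linear_combination -h4
    · rw [hac]
      have := hE j
      rwa [abs_sub_comm] at this

end Pool.Agent.H989.SB
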