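import Pool.Agent.H989.SB.FinG3
import Pool.Agent.H989.SB.FinU

/-!
Superpolynomial spreading, the uniform law.
-/

set_option linter.unusedSectionVars false
set_option linter.unusedVariables false

open MeasureTheory ProbabilityTheory Finset Filter

namespace Pool.Agent.H989.SB

/-- change of the normalization -/
lemma FinU3_map {c : ℝ} (hc : 0 < c) {d : ℕ} {GG : Set (Zd d → ℝ)} (hm : MeasurableSet GG) {p : ℝ}
    (hP : p ≤ (lawZ unif1 d).real GG) :
    MeasurableSet ((fun (ω : Zd d → ℝ) (x : Zd d) => -c⁻¹ * ω x) ⁻¹' GG) ∧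
      p ≤ (Measure.infinitePi fun _ : Zd d => unifc c).real
        ((fun (ω : Zd d → ℝ) (x : Zd d) => -c⁻¹ * ω x) ⁻¹' GG) := by
  have hms : Measurable fun (ω : Zd d → ℝ) (x : Zd d) => -c⁻¹ * ω x :=
    measurable_pi_lambda _ fun x => (measurable_pi_apply x).const_mul _
  have hprob1 : IsProbabilityMeasure unif1 := law_unif.prob
  have hprobc : IsProbabilityMeasure (unifc c) := by
    constructor
    have : (unifc c).map (fun t => -c⁻¹ * t) Set.univ = unif1 Set.univ := by rw [map_unifc hc]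
    rw [Measure.map_apply (by fun_prop) MeasurableSet.univ, Set.preimage_univ] at this
    rw [this]
    exact measure_univ
  refine ⟨hms hm, ?_⟩
  have h3 : (Measure.infinitePi fun _ : Zd d => unifc c).map
      (fun (ω : Zd d → ℝ) (x : Zd d) => -c⁻¹ * ω x) = lawZ unif1 d := by
    have := Measure.infinitePi_map_pi (μ := fun _ : Zd d => unifc c)
      (f := fun _ : Zd d => fun t : ℝ => -c⁻¹ * t) (fun _ => by fun_prop)
    rw [this]
    unfold lawZ
    congr 1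
    funext x
    exact map_unifc hc
  rw [← h3] at hP
  rwa [map_measureReal_apply hms hm] at hP

lemma FinU3_ev {c : ℝ} (hc : 0 < c) {d : ℕ} {ω : Zd d → ℝ} {u : Zd d → ℂ} {E : ℝ} {x : Zd d}
    (h4 : -∑ i, ((u (x + Pi.single i 1) - u x) + (u (x - Pi.single i 1) - u x))
      + (ω x : ℂ) * u x = E * u x) :
    anderson c (fun x => -c⁻¹ * ω x) u x = ((2 * d - E : ℝ) : ℂ) * u x := by
  unfold anderson
  simp only [Finset.sum_add_distrib, Finset.sum_sub_distrib, Finset.sum_const,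
    Finset.card_univ, Fintype.card_fin, nsmul_eq_mul] at h4 ⊢
  have h5 : c * (-c⁻¹ * ω x) = -ω x := by field_simp
  rw [h5]
  push_cast
  linear_combination -h4

/-- the uniform law, in the normalization of a positive Laplacian and a potential in `[-c, c]` -/
theorem sb_unif3 {b ε : ℝ} (hb : 0 ≤ b) (hb1 : b < 1) (hε : 0 < ε) (hε1 : ε < 1) :
    ∃ κ : ℝ, 0 < κ ∧ ∃ d₀ : ℕ, ∀ d : ℕ, d₀ ≤ d → ∀ c : ℝ, 2 * (d : ℝ) ≤ c →
      c ≤ (1 - ε) * (4 * (d * Real.log d)) →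
      (∀ a : Zd d, ∃ GG : Set (Zd d → ℝ), MeasurableSet GG ∧
        1 - ε ≤ (Measure.infinitePi fun _ : Zd d => unifc c).real GG ∧
        ∀ ω ∈ GG, ∀ (n : ℕ) (u : Fin n → L2 d) (E : Fin n → ℝ), Orthonormal ℂ u →
          (∀ j x, -∑ i, ((u j (x + Pi.single i 1) - u j x) + (u j (x - Pi.single i 1) - u j x))
            + (ω x : ℂ) * u j x = E j * u j x) → (∀ j, |E j - 2 * d| ≤ b * c) →
          (∀ j, ∃ B : Finset (Zd d),
            (∀ y ∈ B, ∑ i, |(y i : ℝ)| ≤ κ * Real.log d / Real.log (Real.log d) ^ 2) ∧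
            Real.exp (-(κ * (Real.log d / Real.log (Real.log d)) ^ 2)) ≤ ∑ y ∈ B, ‖u j (a + y)‖ ^ 2) →
          ∑ j, ‖u j a‖ ^ 2 ≤ ε) ∧
      ∀ Λ : Finset (Zd d), ∃ GG : Set (Zd d → ℝ), MeasurableSet GG ∧
        1 - ε ≤ (Measure.infinitePi fun _ : Zd d => unifc c).real GG ∧
        ∀ ω ∈ GG, ∀ (n : ℕ) (u : Fin n → L2 d) (E : Fin n → ℝ), Orthonormal ℂ u →
          (∀ j x, -∑ i, ((u j (x + Pi.single i 1) - u j x) + (u j (x - Pi.single i 1) - u j x))
            + (ω x : ℂ) * u j x = E j * u j x) → (∀ j, |E j - 2 * d| ≤ b * c) →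
          (∀ j, ∃ S : Finset (Zd d), S ⊆ Λ ∧
            (S.card : ℝ) ≤ Real.exp (κ * (Real.log d / Real.log (Real.log d)) ^ 2) ∧
            ε ≤ ∑ x ∈ S, ‖u j x‖ ^ 2) →
          (n : ℝ) ≤ ε * Λ.card := by
  have hδ0 : 0 < (1 - b) / 3 := by linarith
  have hε' : ε ^ 4 / 16 ≤ ε := by
    have : ε ^ 4 ≤ ε ^ 1 := pow_le_pow_of_le_one hε.le hε1.le (by norm_num)
    rw [pow_one] at this
    linarith
  obtain ⟨c₀, hc₀, d₀, hd₀⟩ := sb_band3 (G := 1) (b := b) (δ := (1 - b) / 3) (ρ₀ := 2⁻¹)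
    (ε := ε ^ 4 / 16) one_pos hb hδ0 (by norm_num) (by positivity) (by linarith)
  obtain ⟨κ, hκ, d₁, hd₁⟩ := fin3_of_spr (c₀ := c₀) hc₀ hε hε1
  refine ⟨κ, hκ, max d₀ d₁, fun d hd c h1 h2 => ?_⟩
  obtain ⟨hd1, hfin⟩ := hd₁ d (le_trans (le_max_right _ _) hd)
  have hd0 : (1:ℝ) ≤ d := by exact_mod_cast hd1
  have hc : 0 < c := by linarith
  have hlog0 : 0 ≤ Real.log (d:ℝ) := Real.log_nonneg hd0
  have hlog : Real.log (d:ℝ) ≤ Real.log (2 * d) := Real.log_le_log (by linarith) (by linarith)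
  have hac : |c| = c := abs_of_pos hc
  have hprob1 : IsProbabilityMeasure unif1 := law_unif.prob
  have key : Fin3 unif1 d c (fun E => |E| ≤ b * |c|) κ ε := by
    refine hfin _ c _ fun R A hRA a => ?_
    exact hd₀ d (le_trans (le_max_left _ _) hd) R A hRA unif1 law_unif
      (fun e he => lowD_unif hb1 he) c (by rw [hac]; exact h1) (by
        rw [hac]
        refine h2.trans ?_
        have h6 : 0 ≤ 4 * ((d:ℝ) * Real.log (2 * d)) :=
          mul_nonneg (by norm_num) (mul_nonneg (by linarith) (hlog0.trans hlog))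
        have h5 : 0 ≤ 1 - ε := by linarith
        calc (1 - ε) * (4 * (d * Real.log d)) ≤ (1 - ε) * (4 * (d * Real.log (2 * d))) := by gcongr
          _ ≤ (1 - ε ^ 4 / 16) * (4 * (d * Real.log (2 * d))) := by gcongr
          _ = _ := by ring) a
  refine ⟨fun a => ?_, fun Λ => ?_⟩
  · obtain ⟨GG, hm, hP, hGG⟩ := key.1 a
    obtain ⟨hm', hP'⟩ := FinU3_map hc hm hP
    refine ⟨_, hm', hP', fun ω hω n u E hu hev hE hB => ?_⟩
    refine hGG _ hω n u (fun j => 2 * d - E j) hu (fun j x => FinU3_ev hc (hev j x)) (fun j => ?_) hB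
    show |2 * (d:ℝ) - E j| ≤ b * |c|
    rw [hac, abs_sub_comm]
    exact hE j
  · obtain ⟨GG, hm, hP, hGG⟩ := key.2 Λ
    obtain ⟨hm', hP'⟩ := FinU3_map hc hm hP
    refine ⟨_, hm', hP', fun ω hω n u E hu hev hE hB => ?_⟩
    refine hGG _ hω n u (fun j => 2 * d - E j) hu (fun j x => FinU3_ev hc (hev j x)) (fun j => ?_) hB
    show |2 * (d:ℝ) - E j| ≤ b * |c|
    rw [hac, abs_sub_comm]
    exact hE j

end Pool.Agent.H989.SB
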