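import Pool.Agent.H989.SB.Prb

/-!
Elimination of the sites of a path.
-/

set_option linter.unusedSectionVars false
set_option linter.unusedVariables false

open Finset Complex

namespace Pool.Agent.H989.SB

variable {V : Type*} [AddCommGroup V] [Fintype V] [DecidableEq V]

/-- `⟨φ_x, G^Λ φ_y⟩` -/
noncomputable def Qf (N Λ : Finset V) (v : V → ℝ) (z : ℂ) (x y : V) : ℂ :=
  nb N (sol N Λ v z (bx N y)) x

/-- the pivot at `x` -/
noncomputable def pv (N Λ : Finset V) (v : V → ℝ) (z : ℂ) (x : V) : ℂ :=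
  (v x : ℂ) - z - SE N Λ v z x

/-- the effective coupling of `x` to `y`, if `y` is the next site -/
noncomputable def cc (N Λ : Finset V) (v : V → ℝ) (z : ℂ) (x y : V) : ℂ :=
  bx N x y - Qf N (insert y Λ) v z x y

/-- `δ_x - G^Λ φ_x` -/
noncomputable def chi (N Λ : Finset V) (v : V → ℝ) (z : ℂ) (x : V) : V → ℂ :=
  Pi.single x 1 - sol N Λ v z (bx N x)

variable {N Λ : Finset V} {v : V → ℝ} {z : ℂ}

lemma bx_comm (hN : Steps N) (x y : V) : bx N x y = bx N y x := by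
  unfold bx
  have : x - y ∈ N ↔ y - x ∈ N := by
    constructor
    · intro h; have := hN.neg _ h; simpa using this
    · intro h; have := hN.neg _ h; simpa using this
  simp [this]

lemma bx_self (hN : Steps N) (x : V) : bx N x x = 0 := by simp [bx, hN.zero]

lemma Qf_comm (hN : Steps N) (hz : 0 < z.im) (x y : V) : Qf N Λ v z x y = Qf N Λ v z y x := by
  unfold Qf
  rw [nb_eq_dot _ _ hN, nb_eq_dot _ _ hN]
  exact IsSol.dot_comm hN (isSol_sol hN hz _) (isSol_sol hN hz _)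

lemma SE_eq (x : V) : SE N Λ v z x = Qf N (insert x Λ) v z x x := rfl

lemma pv_eq (x : V) : pv N Λ v z x = (v x : ℂ) - z - Qf N (insert x Λ) v z x x := rfl

lemma pv_ne (hN : Steps N) (hz : 0 < z.im) (x : V) : pv N Λ v z x ≠ 0 := den_ne_zero hN hz x

lemma sol_at (hN : Steps N) (hz : 0 < z.im) (x : V) {y : V} (hy : y ∉ Λ) :
    sol N Λ v z (bx N x) y = cc N Λ v z x y / pv N Λ v z y := by
  rw [sol_apply hN hz _ hy]
  unfold cc pv
  congr 2
  exact Qf_comm hN hz y x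

lemma chi_step (hN : Steps N) (hz : 0 < z.im) (x : V) {y : V} (hy : y ∉ Λ) :
    chi N Λ v z x = chi N (insert y Λ) v z x
      - (cc N Λ v z x y / pv N Λ v z y) • chi N (insert y Λ) v z y := by
  unfold chi
  rw [sol_remove hN hz (bx N x) hy, sol_at hN hz x hy]
  abel

lemma Qf_step (hN : Steps N) (hz : 0 < z.im) (x x' : V) {y : V} (hy : y ∉ Λ) :
    Qf N Λ v z x x' = Qf N (insert y Λ) v z x x'
      + cc N Λ v z x y * cc N Λ v z x' y / pv N Λ v z y := by
  have h1 : Qf N Λ v z x x' = nb N (sol N Λ v z (bx N x')) x := rfl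
  rw [h1, sol_remove hN hz (bx N x') hy, sol_at hN hz x' hy, nb_add, nb_smul, nb_sub, nb_single hN]
  have h2 : bx N y x - nb N (sol N (insert y Λ) v z (bx N y)) x = cc N Λ v z x y := by
    unfold cc; rw [bx_comm hN y x]; rfl
  rw [h2]
  unfold Qf
  ring

lemma sol_zero_of_mem (hN : Steps N) (hz : 0 < z.im) (b : V → ℂ) {x : V} (hx : x ∈ Λ) :
    sol N Λ v z b x = 0 := (isSol_sol hN hz b).1 x hx

lemma chi_self (hN : Steps N) (hz : 0 < z.im) {x : V} (hx : x ∈ Λ) : chi N Λ v z x x = 1 := by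
  unfold chi
  rw [Pi.sub_apply, sol_zero_of_mem hN hz _ hx]; simp

lemma chi_of_mem (hN : Steps N) (hz : 0 < z.im) {x y : V} (hy : y ∈ Λ) (hxy : y ≠ x) :
    chi N Λ v z x y = 0 := by
  unfold chi
  rw [Pi.sub_apply, sol_zero_of_mem hN hz _ hy, Pi.single_apply, if_neg hxy]; simp

lemma chi_off {x y : V} (hxy : y ≠ x) : chi N Λ v z x y = -sol N Λ v z (bx N x) y := by
  unfold chi
  rw [Pi.sub_apply, Pi.single_apply, if_neg hxy]; simp

lemma nsq_chi (hN : Steps N) (hz : 0 < z.im) {x : V} (hx : x ∈ Λ) :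
    nsq (chi N Λ v z x) = 1 + nsq (sol N Λ v z (bx N x)) := by
  unfold nsq
  rw [← Finset.add_sum_erase univ _ (mem_univ x),
    ← Finset.add_sum_erase univ (fun y => ‖sol N Λ v z (bx N x) y‖ ^ 2) (mem_univ x),
    chi_self hN hz hx, sol_zero_of_mem hN hz _ hx]
  have : ∑ y ∈ univ.erase x, ‖chi N Λ v z x y‖ ^ 2
      = ∑ y ∈ univ.erase x, ‖sol N Λ v z (bx N x) y‖ ^ 2 := by
    refine Finset.sum_congr rfl fun y hy => ?_
    rw [chi_off (Finset.ne_of_mem_erase hy), norm_neg]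
  rw [this]; simp

lemma one_le_nsq_chi (hN : Steps N) (hz : 0 < z.im) {x : V} (hx : x ∈ Λ) :
    1 ≤ nsq (chi N Λ v z x) := by
  rw [nsq_chi hN hz hx]; linarith [nsq_nonneg (sol N Λ v z (bx N x))]

lemma pv_im (hN : Steps N) (hz : 0 < z.im) (x : V) :
    (pv N Λ v z x).im = -(z.im * nsq (chi N (insert x Λ) v z x)) := by
  unfold pv
  rw [den_im hN hz, nsq_chi hN hz (by simp)]; ring

/-! ### removal of several sites -/

lemma multi (hN : Steps N) (hz : 0 < z.im) (b : V → ℂ) (Γ : Finset V) (hd : Disjoint Λ Γ) :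
    sol N Λ v z b = sol N (Λ ∪ Γ) v z b + ∑ g ∈ Γ, sol N Λ v z b g • chi N (Λ ∪ Γ) v z g := by
  induction Γ using Finset.induction_on with
  | empty => simp
  | insert g Γ hg ih =>
    have hd' : Disjoint Λ Γ := hd.mono_right (Finset.subset_insert _ _)
    have hgΛ : g ∉ Λ ∪ Γ := by
      rw [Finset.mem_union, not_or]
      exact ⟨fun h => (Finset.disjoint_left.1 hd h) (Finset.mem_insert_self _ _), hg⟩
    have h0 := ih hd'
    have h1 := sol_remove (v := v) hN hz b hgΛ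
    have e : Λ ∪ insert g Γ = insert g (Λ ∪ Γ) := Finset.union_insert _ _ _
    have h2 : ∀ h ∈ Γ, chi N (Λ ∪ Γ) v z h = chi N (insert g (Λ ∪ Γ)) v z h
        + chi N (Λ ∪ Γ) v z h g • chi N (insert g (Λ ∪ Γ)) v z g := by
      intro h hh
      have hne : g ≠ h := fun e => hg (by rw [e]; exact hh)
      rw [chi_off hne, sol_at hN hz h hgΛ, chi_step hN hz h hgΛ]
      rw [neg_smul]; abel
    have h3 : sol N Λ v z b g = sol N (Λ ∪ Γ) v z b g
        + ∑ h ∈ Γ, sol N Λ v z b h * chi N (Λ ∪ Γ) v z h g := by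
      conv_lhs => rw [h0]
      rw [Pi.add_apply, Finset.sum_apply]
      simp
    rw [e, Finset.sum_insert hg, h3]
    conv_lhs => rw [h0, h1]
    rw [Finset.sum_congr rfl fun h hh => by rw [h2 h hh]]
    simp only [smul_add, Finset.sum_add_distrib, add_smul, Finset.sum_smul, smul_smul]
    unfold chi
    abel

/-- the coefficient form for the vectors `chi` -/
lemma chi_multi (hN : Steps N) (hz : 0 < z.im) (x : V) (Γ : Finset V) (hd : Disjoint Λ Γ) :
    chi N Λ v z x = chi N (Λ ∪ Γ) v z x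
      - ∑ g ∈ Γ, sol N Λ v z (bx N x) g • chi N (Λ ∪ Γ) v z g := by
  have h := multi (v := v) hN hz (bx N x) Γ hd
  have h1 : chi N Λ v z x = Pi.single x 1 - sol N Λ v z (bx N x) := rfl
  have h2 : chi N (Λ ∪ Γ) v z x = Pi.single x 1 - sol N (Λ ∪ Γ) v z (bx N x) := rfl
  rw [h1, h2]
  calc (Pi.single x 1 : V → ℂ) - sol N Λ v z (bx N x)
      = Pi.single x 1 - (sol N (Λ ∪ Γ) v z (bx N x)
        + ∑ g ∈ Γ, sol N Λ v z (bx N x) g • chi N (Λ ∪ Γ) v z g) := by rw [← h]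
    _ = _ := by abel

lemma Qf_multi (hN : Steps N) (hz : 0 < z.im) (x y : V) (Γ : Finset V) (hd : Disjoint Λ Γ) :
    Qf N Λ v z x y = Qf N (Λ ∪ Γ) v z x y
      + ∑ g ∈ Γ, sol N Λ v z (bx N y) g * (bx N x g - Qf N (Λ ∪ Γ) v z x g) := by
  have h := multi (v := v) hN hz (bx N y) Γ hd
  have h1 : Qf N Λ v z x y = nb N (sol N (Λ ∪ Γ) v z (bx N y)
      + ∑ g ∈ Γ, sol N Λ v z (bx N y) g • chi N (Λ ∪ Γ) v z g) x := by rw [← h]; rfl
  rw [h1, nb_add]
  congr 1
  unfold nb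
  simp only [Finset.sum_apply, Pi.smul_apply, smul_eq_mul]
  rw [Finset.sum_comm]
  refine Finset.sum_congr rfl fun g _ => ?_
  rw [← Finset.mul_sum]
  congr 1
  have h2 := nb_single hN g x
  have h3 : nb N (chi N (Λ ∪ Γ) v z g) x = bx N x g - Qf N (Λ ∪ Γ) v z x g := by
    unfold chi
    rw [nb_sub, h2, bx_comm hN g x]; rfl
  exact h3

/-! ### paths -/

/-- the set of removed sites after all sites of the list are removed -/
def full : Finset V → List V → Finset V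
  | Λ, [] => Λ
  | Λ, x :: xs => full (insert x Λ) xs

lemma subset_full : ∀ (xs : List V) (Λ : Finset V), Λ ⊆ full Λ xs
  | [], Λ => Finset.Subset.refl _
  | x :: xs, Λ => (Finset.subset_insert _ _).trans (subset_full xs _)

lemma mem_full : ∀ (xs : List V) (Λ : Finset V) (y : V), y ∈ full Λ xs ↔ y ∈ Λ ∨ y ∈ xs
  | [], Λ, y => by simp [full]
  | x :: xs, Λ, y => by
    rw [full, mem_full xs, Finset.mem_insert, List.mem_cons]; tauto

/-- a path of sites starting at `o ∈ Λ` -/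
def IsPath (N : Finset V) (ds : V → V → ℕ) : Finset V → V → List V → Prop
  | _, _, [] => True
  | Λ, o, x :: xs => x ∉ Λ ∧ bx N o x = 1 ∧ ds o x = 1 ∧ (∀ y ∈ Λ, ds y x = ds y o + 1)
      ∧ (∀ y ∈ Λ, y ≠ o → bx N y x = 0) ∧ IsPath N ds (insert x Λ) x xs

/-- all pivots are at least `a` in absolute value -/
def PivGe (N : Finset V) (v : V → ℝ) (z : ℂ) (a : ℝ) : Finset V → List V → Prop
  | _, [] => True
  | Λ, x :: xs => a ≤ ‖pv N Λ v z x‖ ∧ PivGe N v z a (insert x Λ) xs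

/-- all pivots are at most `a` in absolute value -/
def PivLe (N : Finset V) (v : V → ℝ) (z : ℂ) (a : ℝ) : Finset V → List V → Prop
  | _, [] => True
  | Λ, x :: xs => ‖pv N Λ v z x‖ ≤ a ∧ PivLe N v z a (insert x Λ) xs

/-- the product of the absolute values of the first `k` pivots -/
noncomputable def prd (N : Finset V) (v : V → ℝ) (z : ℂ) : Finset V → List V → ℕ → ℝ
  | _, _, 0 => 1
  | _, [], _ + 1 => 1
  | Λ, x :: xs, k + 1 => ‖pv N Λ v z x‖ * prd N v z (insert x Λ) xs k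

/-- the a priori bounds for the matrix elements, with all the sites removed -/
structure TF (N : Finset V) (v : V → ℝ) (z : ℂ) (ds : V → V → ℕ) (W K : ℝ) (Λf : Finset V)
    (xs : List V) : Prop where
  off : ∀ x ∈ Λf, ∀ y ∈ xs, x ≠ y → ‖Qf N Λf v z x y‖ ≤ W * K⁻¹ ^ (max 1 (ds x y - 1))
  diag : ∀ y ∈ xs, ‖Qf N Λf v z y y‖ ≤ W

lemma TF.tail {ds : V → V → ℕ} {W K : ℝ} {Λf : Finset V} {x : V} {xs : List V}
    (h : TF N v z ds W K Λf (x :: xs)) : TF N v z ds W K Λf xs :=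
  ⟨fun a ha y hy => h.off a ha y (List.mem_cons_of_mem _ hy),
    fun y hy => h.diag y (List.mem_cons_of_mem _ hy)⟩

/-- properties of the distance -/
structure Dst (ds : V → V → ℕ) : Prop where
  zero : ∀ x, ds x x = 0
  pos : ∀ x y, x ≠ y → 1 ≤ ds x y

/-- conditions on the constants -/
structure Cst (K θ W : ℝ) : Prop where
  K1 : 4 ≤ K
  θ0 : 0 < θ
  W1 : 1 ≤ W
  h1 : W / K + 24 * W ^ 2 * θ ≤ 1 / 4

/-- the relative error -/
noncomputable def dl (K θ W : ℝ) : ℝ := W / K + 24 * W ^ 2 * θ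

lemma Cst.dl0 {K θ W : ℝ} (h : Cst K θ W) : 0 < dl K θ W := by
  have := h.K1; have := h.θ0; have := h.W1
  unfold dl; positivity

/-- bound for the couplings to the first site of the path, from the comparison of the matrix
elements after its removal -/
lemma cc_bd (hN : Steps N) (hz : 0 < z.im) {ds : V → V → ℕ} (hds : Dst ds) {K θ W : ℝ}
    (hc : Cst K θ W) {o x : V} {xs : List V} {Λf : Finset V} (hΛf : insert x Λ ⊆ Λf)
    (hp : IsPath N ds Λ o (x :: xs)) (ho : o ∈ Λ) (hT : TF N v z ds W K Λf (x :: xs))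
    (h : ∀ y ∈ insert x Λ, ∀ y' ∈ insert x Λ,
      ‖Qf N (insert x Λ) v z y y' - Qf N Λf v z y y'‖
        ≤ 8 * W ^ 2 * (K * θ) * K⁻¹ ^ (ds y x + ds y' x)) :
    (∀ y ∈ Λ, ‖cc N Λ v z y x‖ ≤ 2 * W * K⁻¹ ^ (ds y o)) ∧
    ‖cc N Λ v z o x - 1‖ ≤ W / K + 8 * W ^ 2 * θ ∧
    ‖Qf N (insert x Λ) v z x x‖ ≤ W + 8 * W ^ 2 * (K * θ) := by
  obtain ⟨hx, hox, hds1, hdy, hnb, -⟩ := hp
  have hK0 : 0 < K := by linarith [hc.K1]
  have hr0 : 0 < K⁻¹ := inv_pos.2 hK0
  have hW := hc.W1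
  have hθ := hc.θ0
  have hKr : K * K⁻¹ = 1 := mul_inv_cancel₀ hK0.ne'
  have hne : ∀ y ∈ Λ, y ≠ x := fun y hy e => hx (by rw [← e]; exact hy)
  have hQ : ∀ y ∈ Λ, ‖Qf N (insert x Λ) v z y x‖
      ≤ W * K⁻¹ ^ (max 1 (ds y x - 1)) + 8 * W ^ 2 * θ * K⁻¹ ^ (ds y o) := by
    intro y hy
    have h1 := h y (Finset.mem_insert_of_mem hy) x (Finset.mem_insert_self _ _)
    rw [hds.zero x, add_zero] at h1
    have h2 := hT.off y (hΛf (Finset.mem_insert_of_mem hy)) x (by simp) (hne y hy)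
    have h3 : 8 * W ^ 2 * (K * θ) * K⁻¹ ^ (ds y x) = 8 * W ^ 2 * θ * K⁻¹ ^ (ds y o) := by
      rw [hdy y hy, pow_succ K⁻¹]
      calc 8 * W ^ 2 * (K * θ) * (K⁻¹ ^ ds y o * K⁻¹)
          = 8 * W ^ 2 * θ * K⁻¹ ^ ds y o * (K * K⁻¹) := by ring
        _ = _ := by rw [hKr, mul_one]
    rw [h3] at h1
    calc ‖Qf N (insert x Λ) v z y x‖
        = ‖Qf N Λf v z y x + (Qf N (insert x Λ) v z y x - Qf N Λf v z y x)‖ := by
          congr 1; ring
      _ ≤ _ := (norm_add_le _ _).trans (add_le_add h2 h1)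
  have h1 := hc.h1
  have hdel : W / K + 8 * W ^ 2 * θ ≤ 1 / 4 := by nlinarith [mul_pos (pow_pos (by linarith : 0 < W) 2) hθ]
  have ho1 : ‖cc N Λ v z o x - 1‖ ≤ W / K + 8 * W ^ 2 * θ := by
    have e : cc N Λ v z o x - 1 = -Qf N (insert x Λ) v z o x := by
      unfold cc; rw [hox]; ring
    rw [e, norm_neg]
    refine (hQ o ho).trans (le_of_eq ?_)
    rw [hds1, hds.zero o]
    simp [div_eq_mul_inv]
  refine ⟨fun y hy => ?_, ho1, ?_⟩
  · by_cases hyo : y = o
    · subst hyo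
      rw [hds.zero, pow_zero, mul_one]
      have : ‖cc N Λ v z y x‖ ≤ 1 + (W / K + 8 * W ^ 2 * θ) := by
        calc ‖cc N Λ v z y x‖ = ‖1 + (cc N Λ v z y x - 1)‖ := by congr 1; ring
          _ ≤ ‖(1:ℂ)‖ + _ := norm_add_le _ _
          _ ≤ _ := by rw [norm_one]; gcongr
      linarith
    · have e : cc N Λ v z y x = -Qf N (insert x Λ) v z y x := by
        unfold cc; rw [hnb y hy hyo]; ring
      rw [e, norm_neg]
      refine (hQ y hy).trans ?_
      have hpos := hds.pos y o hyo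
      have : max 1 (ds y x - 1) = ds y o := by rw [hdy y hy]; omega
      rw [this]
      have h8 : 8 * W ^ 2 * θ ≤ W := by nlinarith [mul_pos (pow_pos (by linarith : 0 < W) 2) hθ, div_pos (by linarith : 0 < W) hK0]
      have : 0 < K⁻¹ ^ (ds y o) := by positivity
      nlinarith
  · have h1 := h x (Finset.mem_insert_self _ _) x (Finset.mem_insert_self _ _)
    rw [hds.zero x, add_zero, pow_zero, mul_one] at h1
    have h2 := hT.diag x (by simp)
    calc ‖Qf N (insert x Λ) v z x x‖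
        = ‖Qf N Λf v z x x + (Qf N (insert x Λ) v z x x - Qf N Λf v z x x)‖ := by
          congr 1; ring
      _ ≤ _ := (norm_add_le _ _).trans (add_le_add h2 h1)

/-- comparison of the matrix elements with and without the sites of the path -/
theorem C1 (hN : Steps N) (hz : 0 < z.im) {ds : V → V → ℕ} (hds : Dst ds) {K θ W : ℝ}
    (hc : Cst K θ W) : ∀ (xs : List V) (Λ : Finset V) (o : V), IsPath N ds Λ o xs → o ∈ Λ →
      TF N v z ds W K (full Λ xs) xs → PivGe N v z (K * θ)⁻¹ Λ xs →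
      ∀ y ∈ Λ, ∀ y' ∈ Λ, ‖Qf N Λ v z y y' - Qf N (full Λ xs) v z y y'‖
        ≤ 8 * W ^ 2 * (K * θ) * K⁻¹ ^ (ds y o + ds y' o)
  | [], Λ, o, _, _, _, _, y, hy, y', hy' => by
    have hK0 : 0 < K := by linarith [hc.K1]
    have := hc.θ0
    rw [full, sub_self, norm_zero]; positivity
  | x :: xs, Λ, o, hp, ho, hT, hP, y, hy, y', hy' => by
    have hK0 : 0 < K := by linarith [hc.K1]
    have hθ := hc.θ0
    have hW := hc.W1
    have hx : x ∉ Λ := hp.1
    have IH := C1 hN hz hds hc xs (insert x Λ) x hp.2.2.2.2.2 (Finset.mem_insert_self _ _)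
      hT.tail hP.2
    obtain ⟨hcc, -, -⟩ := cc_bd hN hz hds hc (subset_full xs _) hp ho hT IH
    rw [full, Qf_step hN hz y y' hx]
    have h1 := IH y (Finset.mem_insert_of_mem hy) y' (Finset.mem_insert_of_mem hy')
    have hdy : ds y x = ds y o + 1 := hp.2.2.2.1 y hy
    have hdy' : ds y' x = ds y' o + 1 := hp.2.2.2.1 y' hy'
    rw [hdy, hdy'] at h1
    have hpv : (K * θ)⁻¹ ≤ ‖pv N Λ v z x‖ := hP.1
    have hpv0 : 0 < ‖pv N Λ v z x‖ := lt_of_lt_of_le (by positivity) hpv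
    have h2 : ‖cc N Λ v z y x * cc N Λ v z y' x / pv N Λ v z x‖
        ≤ 4 * W ^ 2 * (K * θ) * K⁻¹ ^ (ds y o + ds y' o) := by
      rw [norm_div, norm_mul, div_le_iff₀ hpv0]
      have e1 : 1 ≤ (K * θ) * ‖pv N Λ v z x‖ := by
        rw [← mul_inv_cancel₀ (by positivity : K * θ ≠ 0)]
        gcongr
      calc ‖cc N Λ v z y x‖ * ‖cc N Λ v z y' x‖
          ≤ (2 * W * K⁻¹ ^ (ds y o)) * (2 * W * K⁻¹ ^ (ds y' o)) := by
            gcongr
            · exact hcc y hy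
            · exact hcc y' hy'
        _ = 4 * W ^ 2 * K⁻¹ ^ (ds y o + ds y' o) * 1 := by rw [pow_add]; ring
        _ ≤ 4 * W ^ 2 * K⁻¹ ^ (ds y o + ds y' o) * ((K * θ) * ‖pv N Λ v z x‖) := by
            gcongr
        _ = _ := by ring
    have h3 : K⁻¹ ^ (ds y o + 1 + (ds y' o + 1)) ≤ K⁻¹ ^ (ds y o + ds y' o) * (1 / 16) := by
      have : K⁻¹ ≤ 1 / 4 := by rw [one_div]; exact inv_anti₀ (by norm_num) hc.K1
      have e : ds y o + 1 + (ds y' o + 1) = (ds y o + ds y' o) + 2 := by ring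
      rw [e, pow_add]
      gcongr
      calc K⁻¹ ^ 2 ≤ (1 / 4) ^ 2 := by gcongr
        _ = 1 / 16 := by norm_num
    calc ‖Qf N (insert x Λ) v z y y' + cc N Λ v z y x * cc N Λ v z y' x / pv N Λ v z x
          - Qf N (full (insert x Λ) xs) v z y y'‖
        = ‖(Qf N (insert x Λ) v z y y' - Qf N (full (insert x Λ) xs) v z y y')
          + cc N Λ v z y x * cc N Λ v z y' x / pv N Λ v z x‖ := by congr 1; ring
      _ ≤ 8 * W ^ 2 * (K * θ) * K⁻¹ ^ (ds y o + 1 + (ds y' o + 1))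
          + 4 * W ^ 2 * (K * θ) * K⁻¹ ^ (ds y o + ds y' o) :=
          (norm_add_le _ _).trans (add_le_add h1 h2)
      _ ≤ 8 * W ^ 2 * (K * θ) * (K⁻¹ ^ (ds y o + ds y' o) * (1 / 16))
          + 4 * W ^ 2 * (K * θ) * K⁻¹ ^ (ds y o + ds y' o) := by gcongr
      _ ≤ 8 * W ^ 2 * (K * θ) * K⁻¹ ^ (ds y o + ds y' o) := by
          have : 0 < W ^ 2 * (K * θ) * K⁻¹ ^ (ds y o + ds y' o) := by positivity
          nlinarith

end Pool.Agent.H989.SB
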