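import Pool.Agent.H989.SB.Alg

/-!
Amplitudes along a path.
-/

set_option linter.unusedSectionVars false
set_option linter.unusedVariables false

open Finset Complex

namespace Pool.Agent.H989.SB

variable {V : Type*} [AddCommGroup V] [Fintype V] [DecidableEq V]
variable {N Λ : Finset V} {v : V → ℝ} {z : ℂ}


/-! ### auxiliary facts -/

lemma Amp_notMem {ds : V → V → ℕ} : ∀ (xs : List V) (Λ : Finset V) (o : V), IsPath N ds Λ o xs →
    ∀ y ∈ xs, y ∉ Λ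
  | [], _, _, _, y, hy => absurd hy (by simp)
  | x :: xs, Λ, o, hp, y, hy => by
    rcases List.mem_cons.1 hy with rfl | hy
    · exact hp.1
    · exact fun h => Amp_notMem xs (insert x Λ) x hp.2.2.2.2.2 y hy (Finset.mem_insert_of_mem h)

lemma Amp_prd_pos (hN : Steps N) (hz : 0 < z.im) : ∀ (xs : List V) (Λ : Finset V) (k : ℕ),
    0 < prd N v z Λ xs k
  | [], Λ, 0 => by simp [prd]
  | [], Λ, k + 1 => by simp [prd]
  | x :: xs, Λ, 0 => by simp [prd]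
  | x :: xs, Λ, k + 1 => by
    rw [prd]
    exact mul_pos (norm_pos_iff.2 (pv_ne hN hz x)) (Amp_prd_pos hN hz xs _ k)

lemma Amp_sol_step (hN : Steps N) (hz : 0 < z.im) (x : V) {x₁ y : V} (hx₁ : x₁ ∉ Λ)
    (hy : y ≠ x₁) : sol N Λ v z (bx N x) y = sol N (insert x₁ Λ) v z (bx N x) y
      - (cc N Λ v z x x₁ / pv N Λ v z x₁) * sol N (insert x₁ Λ) v z (bx N x₁) y := by
  rw [sol_remove hN hz (bx N x) hx₁, sol_at hN hz x hx₁, Pi.add_apply, Pi.smul_apply,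
    Pi.sub_apply, Pi.single_apply, if_neg hy, smul_eq_mul]
  ring

lemma Amp_num {K θ W q : ℝ} (hc : Cst K θ W) (hq : 0 ≤ q) (hqd : (q + 1) * dl K θ W ≤ 1 / 4) :
    (1 + (W / K + 8 * W ^ 2 * θ) + 8 * W * θ) * (1 + 2 * q * dl K θ W)
        ≤ 1 + 2 * (q + 1) * dl K θ W ∧
    1 - 2 * (q + 1) * dl K θ W ≤ (1 - (W / K + 8 * W ^ 2 * θ)) * (1 - 2 * q * dl K θ W)
      - 8 * W * θ * (1 + 2 * q * dl K θ W) ∧
    (8 * W * θ + 2 * W) * (1 + 2 * q * dl K θ W) ≤ 4 * W * (1 + 2 * (q + 1) * dl K θ W) ∧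
    W / K + 8 * W ^ 2 * θ ≤ 1 / 4 ∧ 1 / 2 ≤ 1 - 2 * q * dl K θ W := by
  have hK0 : 0 < K := by linarith [hc.K1]
  have hθ := hc.θ0
  have hW := hc.W1
  have hd := hc.dl0
  have h1 := hc.h1
  have hWK : 0 < W / K := by positivity
  have hWθ : 0 < W * θ := by positivity
  have hW2 : W * θ ≤ W ^ 2 * θ := by nlinarith
  have hε : 0 < W / K + 8 * W ^ 2 * θ := by positivity
  have hεδ : (W / K + 8 * W ^ 2 * θ) + 2 * (8 * W * θ) ≤ dl K θ W := by
    unfold dl; nlinarith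
  have hqδ : q * dl K θ W ≤ 1 / 4 := by nlinarith
  have hqδ0 : 0 ≤ q * dl K θ W := by positivity
  have hδ4 : dl K θ W ≤ 1 / 4 := h1
  have hθ1 : 8 * θ ≤ 2 := by nlinarith
  generalize hδ : dl K θ W = δ at *
  generalize hεe : W / K + 8 * W ^ 2 * θ = ε at *
  have hη : 0 < 8 * W * θ := by positivity
  generalize hηe : 8 * W * θ = η at *
  refine ⟨?_, ?_, ?_, by linarith, by linarith⟩
  · nlinarith [mul_nonneg hε.le (sub_nonneg.2 hqδ), mul_nonneg hη.le (sub_nonneg.2 hqδ)]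
  · nlinarith [mul_nonneg hε.le hqδ0, mul_nonneg hη.le (sub_nonneg.2 hqδ)]
  · have h8 : η ≤ 2 * W := by rw [← hηe]; nlinarith
    have hW0 : 0 < W := by linarith
    nlinarith [mul_nonneg hW0.le hqδ0, mul_nonneg (sub_nonneg.2 h8) hqδ0, mul_nonneg hW0.le hd.le]

lemma Amp_up {A B c b : ℂ} {P' E U t s : ℝ} (hb : b ≠ 0) (hP' : 0 < P') (hA : ‖A‖ ≤ U / P')
    (hB : ‖B‖ ≤ E * (U / (‖b‖ * P'))) (hc : ‖c‖ ≤ s) (hs : 0 ≤ s)
    (ht : (E + s) * U ≤ t) : ‖B - c / b * A‖ ≤ t / (‖b‖ * P') := by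
  have hb0 : 0 < ‖b‖ := norm_pos_iff.2 hb
  have h1 : ‖c / b * A‖ ≤ s * (U / (‖b‖ * P')) := by
    rw [norm_mul, norm_div]
    calc ‖c‖ / ‖b‖ * ‖A‖ ≤ s / ‖b‖ * (U / P') := by gcongr
      _ = s * (U / (‖b‖ * P')) := by field_simp
  calc ‖B - c / b * A‖ ≤ ‖B‖ + ‖c / b * A‖ := norm_sub_le _ _
    _ ≤ E * (U / (‖b‖ * P')) + s * (U / (‖b‖ * P')) := add_le_add hB h1
    _ = (E + s) * U / (‖b‖ * P') := by ring
    _ ≤ t / (‖b‖ * P') := by gcongr

lemma Amp_lo {A B c b : ℂ} {P' E U L t s : ℝ} (hb : b ≠ 0) (hP' : 0 < P') (hA : L / P' ≤ ‖A‖)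
    (hL : 0 ≤ L) (hB : ‖B‖ ≤ E * (U / (‖b‖ * P'))) (hc : s ≤ ‖c‖) (hs : 0 ≤ s)
    (ht : t ≤ s * L - E * U) : t / (‖b‖ * P') ≤ ‖B - c / b * A‖ := by
  have hb0 : 0 < ‖b‖ := norm_pos_iff.2 hb
  have h1 : s * (L / (‖b‖ * P')) ≤ ‖c / b * A‖ := by
    rw [norm_mul, norm_div]
    calc s * (L / (‖b‖ * P')) = s / ‖b‖ * (L / P') := by field_simp
      _ ≤ ‖c‖ / ‖b‖ * ‖A‖ := by gcongr
  have h2 : ‖c / b * A‖ - ‖B‖ ≤ ‖B - c / b * A‖ := by
    rw [norm_sub_rev]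
    exact norm_sub_norm_le _ _
  calc t / (‖b‖ * P') ≤ (s * L - E * U) / (‖b‖ * P') := by gcongr
    _ = s * (L / (‖b‖ * P')) - E * (U / (‖b‖ * P')) := by ring
    _ ≤ ‖c / b * A‖ - ‖B‖ := by linarith
    _ ≤ _ := h2

/-- Amplitudes at the sites of a path.  Write `r = K⁻¹`, `δ = dl K θ W = W/K + 24 W² θ`,
`P = prd N v z Λ xs (k+1)` (product of the absolute values of the first `k+1` pivots), `y` the `k`th
site of the path (counted from `0`), `a_x = sol N Λ v z (bx N x) y` (a complex number).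
Claim: `(1 - 2 (k+1) δ) / P ≤ |a_o| ≤ (1 + 2 (k+1) δ) / P` and
`|a_x| ≤ 4 W r^(ds x o) (1 + 2 (k+1) δ) / P` for the other `x ∈ Λ`.

Proof by induction on the list.  Let `x₁` be the head, `Λ' = insert x₁ Λ`, `b = pv N Λ v z x₁`,
`c_x = cc N Λ v z x x₁`.  By `C1` (for the tail) and `cc_bd`: `|c_x| ≤ 2 W r^(ds x o)` and
`|c_o - 1| ≤ W/K + 8 W² θ`.  `(Kθ)⁻¹ ≤ |b| ≤ 2Kθ`.
`k = 0`: `y = x₁`, `a_x = c_x / b` (`sol_at`), `P = |b|`.
`k + 1`: `y` is the `k`th site of the tail; with `a'_x = sol N Λ' v z (bx N x) y`,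
and from `sol_remove` and `sol_at`:
`a_x = a'_x + (c_x / b) (Pi.single x₁ 1 y - a'_{x₁}) = a'_x - (c_x / b) a'_{x₁}` since `y ≠ x₁`
(`y ∉ insert x₁ Λ`, see `IsPath`).  With `P' = P / |b|` and the induction hypothesis for `Λ'`, `x₁`:
`|a'_{x₁}| ≤ U / P'`, `|a'_x| ≤ 4 W r^(ds x o + 1) U / P'` for `x ∈ Λ` (`ds x x₁ = ds x o + 1`),
`U = 1 + 2 k' δ ≤ 3/2`.  As `|b| ≤ 2Kθ`: `|a'_x| ≤ 8 W θ r^(ds x o) U / P`.  So for `x ≠ o`:
`|a_x| ≤ (8 W θ + 2 W) r^(ds x o) U / P`, and for `o`: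
`|a_o| ≤ (8 W θ + 1 + W/K + 8 W² θ) U / P`, `|a_o| ≥ (1 - W/K - 8 W² θ) (1 - 2k'δ) / P - 8 W θ U / P`. -/
theorem amp (hN : Steps N) (hz : 0 < z.im) {ds : V → V → ℕ} (hds : Dst ds) {K θ W : ℝ}
    (hc : Cst K θ W) : ∀ (xs : List V) (Λ : Finset V) (o : V), IsPath N ds Λ o xs → o ∈ Λ →
      TF N v z ds W K (full Λ xs) xs → PivGe N v z (K * θ)⁻¹ Λ xs → PivLe N v z (2 * (K * θ)) Λ xs →
      xs.length * dl K θ W ≤ 1 / 4 →
      ∀ (k : ℕ) (y : V), xs[k]? = some y →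
        (1 - 2 * (k + 1) * dl K θ W) / prd N v z Λ xs (k + 1) ≤ ‖sol N Λ v z (bx N o) y‖ ∧
        ‖sol N Λ v z (bx N o) y‖ ≤ (1 + 2 * (k + 1) * dl K θ W) / prd N v z Λ xs (k + 1) ∧
        ∀ x ∈ Λ, x ≠ o → ‖sol N Λ v z (bx N x) y‖
          ≤ 4 * W * K⁻¹ ^ (ds x o) * ((1 + 2 * (k + 1) * dl K θ W) / prd N v z Λ xs (k + 1))
  | [], Λ, o, _, _, _, _, _, _, k, y, hy => by simp at hy
  | x₁ :: xs, Λ, o, hp, ho, hT, hG, hL, hlen, k, y, hy => by
    have hK0 : 0 < K := by linarith [hc.K1]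
    have hθ := hc.θ0
    have hW := hc.W1
    have hd := hc.dl0
    have hx₁ : x₁ ∉ Λ := hp.1
    have hC1 := C1 hN hz hds hc xs (insert x₁ Λ) x₁ hp.2.2.2.2.2 (Finset.mem_insert_self _ _)
      hT.tail hG.2
    obtain ⟨hcc, hco, -⟩ := cc_bd hN hz hds hc (subset_full xs _) hp ho hT hC1
    have hb : pv N Λ v z x₁ ≠ 0 := pv_ne hN hz x₁
    have hb0 : 0 < ‖pv N Λ v z x₁‖ := norm_pos_iff.2 hb
    have hbu : ‖pv N Λ v z x₁‖ ≤ 2 * (K * θ) := hL.1
    have hlen' : ((xs.length : ℝ) + 1) * dl K θ W ≤ 1 / 4 := by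
      rw [List.length_cons, Nat.cast_add, Nat.cast_one] at hlen
      exact hlen
    have hco1 : ‖cc N Λ v z o x₁‖ ≤ 1 + (W / K + 8 * W ^ 2 * θ) := by
      calc ‖cc N Λ v z o x₁‖ = ‖1 + (cc N Λ v z o x₁ - 1)‖ := by congr 1; ring
        _ ≤ ‖(1:ℂ)‖ + _ := norm_add_le _ _
        _ ≤ _ := by rw [norm_one]; gcongr
    have hco2 : 1 - (W / K + 8 * W ^ 2 * θ) ≤ ‖cc N Λ v z o x₁‖ := by
      have h1 : ‖(1:ℂ)‖ - ‖cc N Λ v z o x₁‖ ≤ ‖(1:ℂ) - cc N Λ v z o x₁‖ := norm_sub_norm_le _ _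
      rw [norm_one, norm_sub_rev] at h1
      linarith
    cases k with
    | zero =>
      have hyx : y = x₁ := by
        rw [List.getElem?_cons_zero] at hy
        exact (Option.some.inj hy).symm
      subst hyx
      have hlen0 : (0 : ℝ) ≤ xs.length := Nat.cast_nonneg _
      obtain ⟨n1, n2, n3, n4, n5⟩ := Amp_num hc (le_refl (0 : ℝ)) (by nlinarith)
      have hpr : prd N v z Λ (y :: xs) (0 + 1) = ‖pv N Λ v z y‖ := by
        rw [prd, prd, mul_one]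
      have hδε : W / K + 8 * W ^ 2 * θ ≤ dl K θ W := by
        unfold dl
        have : 0 < W ^ 2 * θ := by positivity
        linarith
      rw [hpr]
      simp only [Nat.cast_zero, zero_add, mul_one]
      refine ⟨?_, ?_, ?_⟩
      · rw [sol_at hN hz o hx₁, norm_div]
        gcongr
        linarith
      · rw [sol_at hN hz o hx₁, norm_div]
        gcongr
        linarith
      · intro x hx hxo
        rw [sol_at hN hz x hx₁, norm_div, ← mul_div_assoc]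
        gcongr
        refine (hcc x hx).trans ?_
        have : 0 < K⁻¹ ^ (ds x o) := by positivity
        have h0 : 0 < W * K⁻¹ ^ (ds x o) := by positivity
        nlinarith [mul_pos h0 hd]
    | succ k =>
      rw [List.getElem?_cons_succ] at hy
      have hyxs : y ∈ xs := List.mem_of_getElem? hy
      have hyΛ : y ∉ insert x₁ Λ := Amp_notMem xs (insert x₁ Λ) x₁ hp.2.2.2.2.2 y hyxs
      have hyx : y ≠ x₁ := fun e => hyΛ (by rw [e]; exact Finset.mem_insert_self _ _)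
      have hklt : k < xs.length := by
        rcases List.getElem?_eq_some_iff.1 hy with ⟨h, _⟩
        exact h
      have hk1 : ((k : ℝ) + 1) ≤ xs.length := by exact_mod_cast hklt
      obtain ⟨n1, n2, n3, n4, n5⟩ := Amp_num (q := (k : ℝ) + 1) hc (by positivity) (by
        refine le_trans ?_ hlen'
        gcongr)
      obtain ⟨i1, i2, i3⟩ := amp hN hz hds hc xs (insert x₁ Λ) x₁ hp.2.2.2.2.2
        (Finset.mem_insert_self _ _) hT.tail hG.2 hL.2 (by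
          refine le_trans ?_ hlen'
          gcongr
          linarith) k y hy
      have hP' := Amp_prd_pos (v := v) hN hz xs (insert x₁ Λ) (k + 1)
      have hpr : prd N v z Λ (x₁ :: xs) (k + 1 + 1)
          = ‖pv N Λ v z x₁‖ * prd N v z (insert x₁ Λ) xs (k + 1) := by
        rw [prd]
      have hU0 : 0 < 1 + 2 * ((k : ℝ) + 1) * dl K θ W := by positivity
      have hB : ∀ x ∈ Λ, ‖sol N (insert x₁ Λ) v z (bx N x) y‖ ≤ (8 * W * θ * K⁻¹ ^ (ds x o))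
          * ((1 + 2 * ((k : ℝ) + 1) * dl K θ W)
            / (‖pv N Λ v z x₁‖ * prd N v z (insert x₁ Λ) xs (k + 1))) := by
        intro x hx
        have hne : x ≠ x₁ := fun e => hx₁ (by rw [← e]; exact hx)
        have h1 := i3 x (Finset.mem_insert_of_mem hx) hne
        rw [hp.2.2.2.1 x hx] at h1
        refine h1.trans ?_
        have e1 : K⁻¹ * ‖pv N Λ v z x₁‖ ≤ 2 * θ := by
          calc K⁻¹ * ‖pv N Λ v z x₁‖ ≤ K⁻¹ * (2 * (K * θ)) := by gcongr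
            _ = 2 * θ := by field_simp
        calc 4 * W * K⁻¹ ^ (ds x o + 1) * ((1 + 2 * ((k : ℝ) + 1) * dl K θ W)
              / prd N v z (insert x₁ Λ) xs (k + 1))
            = 4 * W * K⁻¹ ^ (ds x o) * (K⁻¹ * ‖pv N Λ v z x₁‖)
              * ((1 + 2 * ((k : ℝ) + 1) * dl K θ W)
                / (‖pv N Λ v z x₁‖ * prd N v z (insert x₁ Λ) xs (k + 1))) := by
              rw [pow_succ]
              field_simp
          _ ≤ 4 * W * K⁻¹ ^ (ds x o) * (2 * θ)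
              * ((1 + 2 * ((k : ℝ) + 1) * dl K θ W)
                / (‖pv N Λ v z x₁‖ * prd N v z (insert x₁ Λ) xs (k + 1))) := by
              gcongr
          _ = _ := by ring
      rw [hpr]
      simp only [Nat.cast_add, Nat.cast_one]
      have hBo := hB o ho
      rw [hds.zero o, pow_zero, mul_one] at hBo
      refine ⟨?_, ?_, ?_⟩
      · rw [Amp_sol_step hN hz o hx₁ hyx]
        exact Amp_lo hb hP' i1 (by linarith) hBo hco2 (by linarith) n2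
      · rw [Amp_sol_step hN hz o hx₁ hyx]
        refine Amp_up hb hP' i2 hBo hco1 (by linarith [norm_nonneg (cc N Λ v z o x₁)]) ?_
        have e1 : 8 * W * θ + (1 + (W / K + 8 * W ^ 2 * θ))
          = 1 + (W / K + 8 * W ^ 2 * θ) + 8 * W * θ := by ring
        rw [e1]
        exact n1
      · intro x hx hxo
        rw [Amp_sol_step hN hz x hx₁ hyx, ← mul_div_assoc]
        refine Amp_up hb hP' i2 (hB x hx) (hcc x hx) (by positivity) ?_
        have hr : 0 < K⁻¹ ^ (ds x o) := by positivity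
        calc (8 * W * θ * K⁻¹ ^ (ds x o) + 2 * W * K⁻¹ ^ (ds x o))
              * (1 + 2 * ((k : ℝ) + 1) * dl K θ W)
            = K⁻¹ ^ (ds x o) * ((8 * W * θ + 2 * W) * (1 + 2 * ((k : ℝ) + 1) * dl K θ W)) := by
              ring
          _ ≤ K⁻¹ ^ (ds x o) * (4 * W * (1 + 2 * ((k : ℝ) + 1 + 1) * dl K θ W)) := by gcongr
          _ = _ := by ring

end Pool.Agent.H989.SB
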