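import Pool.Agent.H989.SB.One
import Pool.Agent.H989.Energy

/-!
Energy average on the torus, general single-site law.
-/

set_option linter.unusedSectionVars false
set_option linter.unusedVariables false

open MeasureTheory ProbabilityTheory Finset

namespace Pool.Agent.H989.SB

section En1gen

variable {V : Type*} [AddCommGroup V] [Fintype V] [DecidableEq V]
variable {N : Finset V} {σ : ℝ} {z : ℂ}

/-- `δ₀ - G^{(0)} φ₀`, general group -/
noncomputable def en1c (N : Finset V) (σ : ℝ) (z : ℂ) (ξ : V → ℝ) : V → ℂ :=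
  Pi.single 0 1 - sol N {0} (pot σ ξ) z (bx N 0)

lemma en1_ins : (insert (0 : V) (∅ : Finset V)) = {0} := by simp

lemma en1_c_zero (hN : Steps N) (hz : 0 < z.im) (ξ : V → ℝ) : en1c N σ z ξ 0 = 1 := by
  have h := (isSol_sol (v := pot σ ξ) (Λ := {0}) hN hz (bx N 0)).1 0 (by simp)
  unfold en1c
  rw [Pi.sub_apply, h, Pi.single_eq_same, sub_zero]

lemma en1_nsq_c (hN : Steps N) (hz : 0 < z.im) (ξ : V → ℝ) :
    nsq (en1c N σ z ξ) = 1 + nsq (sol N {0} (pot σ ξ) z (bx N 0)) := by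
  have h := (isSol_sol (v := pot σ ξ) (Λ := {0}) hN hz (bx N 0)).1 0 (by simp)
  unfold nsq
  rw [← Finset.add_sum_erase univ _ (mem_univ (0 : V)), en1_c_zero hN hz,
    ← Finset.add_sum_erase univ (fun x => ‖sol N {0} (pot σ ξ) z (bx N 0) x‖ ^ 2)
      (mem_univ (0 : V)), h]
  have h2 : ∑ x ∈ univ.erase (0 : V), ‖en1c N σ z ξ x‖ ^ 2
      = ∑ x ∈ univ.erase (0 : V), ‖sol N {0} (pot σ ξ) z (bx N 0) x‖ ^ 2 := by
    refine Finset.sum_congr rfl fun x hx => ?_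
    have hx0 := Finset.ne_of_mem_erase hx
    unfold en1c
    rw [Pi.sub_apply, Pi.single_eq_of_ne hx0, zero_sub, norm_neg]
  rw [h2]
  simp

/-- `β` -/
noncomputable def en1b (N : Finset V) (σ : ℝ) (z : ℂ) (ξ : V → ℝ) : ℝ :=
  z.im * nsq (en1c N σ z ξ)

lemma en1_b_eq (hN : Steps N) (hz : 0 < z.im) (ξ : V → ℝ) :
    en1b N σ z ξ = (z + SE N ∅ (pot σ ξ) z 0).im := by
  unfold en1b
  rw [en1_nsq_c hN hz, Complex.add_im, SE_im hN hz, en1_ins]
  ring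

lemma en1_nsq_ge (hN : Steps N) (hz : 0 < z.im) (ξ : V → ℝ) : 1 ≤ nsq (en1c N σ z ξ) := by
  rw [en1_nsq_c hN hz]
  linarith [nsq_nonneg (sol N {0} (pot σ ξ) z (bx N 0))]

lemma en1_b_pos (hN : Steps N) (hz : 0 < z.im) (ξ : V → ℝ) : 0 < en1b N σ z ξ := by
  unfold en1b
  have := en1_nsq_ge (σ := σ) hN hz ξ
  positivity

/-- `G(0,0)` -/
noncomputable def en1g (N : Finset V) (σ : ℝ) (z : ℂ) (ξ : V → ℝ) : ℂ :=
  sol N ∅ (pot σ ξ) z (Pi.single 0 1) 0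

lemma en1_g_eq (hN : Steps N) (hz : 0 < z.im) (ξ : V → ℝ) :
    en1g N σ z ξ = (den σ (z + SE N ∅ (pot σ ξ) z 0) (ξ 0))⁻¹ := by
  unfold en1g
  rw [sol_eq_tau hN hz _ (by simp), tau_single_self hN hz, one_mul]

lemma en1_sol_zero (hN : Steps N) (hz : 0 < z.im) {Λ : Finset V} {x : V} (hx : x ∈ Λ)
    (v : V → ℝ) : sol N Λ v z (Pi.single x 1) = 0 := by
  refine sol_eq hN hz ⟨fun _ _ => rfl, fun y hy => ?_⟩
  have hyx : y ≠ x := fun e => hy (by rw [e]; exact hx)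
  rw [Pi.single_apply, if_neg hyx]
  simp [nb]

/-- `G(·, 0) = G(0,0) c` -/
lemma en1_col0 (hN : Steps N) (hz : 0 < z.im) (ξ : V → ℝ) :
    sol N ∅ (pot σ ξ) z (Pi.single 0 1) = en1g N σ z ξ • en1c N σ z ξ := by
  have h := sol_remove (Λ := ∅) (v := pot σ ξ) hN hz (Pi.single (0 : V) 1) (x := 0) (by simp)
  rw [en1_ins, en1_sol_zero (Λ := {0}) hN hz (by simp), zero_add] at h
  exact h

lemma en1_colx (hN : Steps N) (hz : 0 < z.im) (ξ : V → ℝ) (x : V) :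
    sol N ∅ (pot σ ξ) z (Pi.single x 1) x = sol N {0} (pot σ ξ) z (Pi.single x 1) x
      + en1g N σ z ξ * en1c N σ z ξ x ^ 2 := by
  have h := sol_remove (Λ := ∅) (v := pot σ ξ) hN hz (Pi.single x 1) (x := 0) (by simp)
  rw [en1_ins] at h
  have h2 := congrFun h x
  rw [Pi.add_apply, Pi.smul_apply, smul_eq_mul] at h2
  have h3 : sol N ∅ (pot σ ξ) z (Pi.single x 1) 0 = en1g N σ z ξ * en1c N σ z ξ x := by
    rw [dot_single_sol hN hz, en1_col0 hN hz]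
    rfl
  rw [h3] at h2
  rw [h2]
  unfold en1c
  ring

/-- `Im G^{(0)}(x,x)` -/
noncomputable def en1h (N : Finset V) (σ : ℝ) (z : ℂ) (x : V) (ξ : V → ℝ) : ℝ :=
  z.im * nsq (sol N {0} (pot σ ξ) z (Pi.single x 1))

lemma en1_h_nonneg (hz : 0 < z.im) (x : V) (ξ : V → ℝ) : 0 ≤ en1h N σ z x ξ :=
  mul_nonneg hz.le (nsq_nonneg _)

/-- the pointwise bound -/
lemma en1_point (hN : Steps N) (hz : 0 < z.im) (ξ : V → ℝ) (x : V) :
    (z.im * nsq (sol N ∅ (pot σ ξ) z (Pi.single 0 1)))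
        * (z.im * nsq (sol N ∅ (pot σ ξ) z (Pi.single x 1)))
      ≤ ‖en1g N σ z ξ‖ ^ 2 * en1b N σ z ξ * en1h N σ z x ξ
        + ‖en1g N σ z ξ‖ ^ 3 * en1b N σ z ξ * ‖en1c N σ z ξ x‖ ^ 2 := by
  have h1 : z.im * nsq (sol N ∅ (pot σ ξ) z (Pi.single 0 1))
      = ‖en1g N σ z ξ‖ ^ 2 * en1b N σ z ξ := by
    rw [en1_col0 hN hz]
    unfold en1b nsq
    simp only [Pi.smul_apply, smul_eq_mul, norm_mul, mul_pow]
    rw [← Finset.mul_sum]
    ring
  have h2 : z.im * nsq (sol N ∅ (pot σ ξ) z (Pi.single x 1))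
      ≤ en1h N σ z x ξ + ‖en1g N σ z ξ‖ * ‖en1c N σ z ξ x‖ ^ 2 := by
    rw [← nsq_sol_single hN hz, en1_colx hN hz, Complex.add_im, nsq_sol_single hN hz]
    unfold en1h
    have : (en1g N σ z ξ * en1c N σ z ξ x ^ 2).im ≤ ‖en1g N σ z ξ‖ * ‖en1c N σ z ξ x‖ ^ 2 := by
      rw [← norm_pow, ← norm_mul]
      exact (le_abs_self _).trans (Complex.abs_im_le_norm _)
    linarith
  rw [h1]
  have h3 : 0 ≤ ‖en1g N σ z ξ‖ ^ 2 * en1b N σ z ξ :=
    mul_nonneg (sq_nonneg _) (en1_b_pos hN hz ξ).le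
  calc ‖en1g N σ z ξ‖ ^ 2 * en1b N σ z ξ
        * (z.im * nsq (sol N ∅ (pot σ ξ) z (Pi.single x 1)))
      ≤ ‖en1g N σ z ξ‖ ^ 2 * en1b N σ z ξ
        * (en1h N σ z x ξ + ‖en1g N σ z ξ‖ * ‖en1c N σ z ξ x‖ ^ 2) :=
        mul_le_mul_of_nonneg_left h2 h3
    _ = _ := by ring

/-! dependence on `ξ 0` -/

lemma en1_c_update (hN : Steps N) (hz : 0 < z.im) (ξ : V → ℝ) (t : ℝ) :
    en1c N σ z (Function.update ξ 0 t) = en1c N σ z ξ := by
  unfold en1c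
  rw [sol_update hN hz (by simp)]

lemma en1_b_update (hN : Steps N) (hz : 0 < z.im) (ξ : V → ℝ) (t : ℝ) :
    en1b N σ z (Function.update ξ 0 t) = en1b N σ z ξ := by
  unfold en1b
  rw [en1_c_update hN hz]

lemma en1_h_update (hN : Steps N) (hz : 0 < z.im) (x : V) (ξ : V → ℝ) (t : ℝ) :
    en1h N σ z x (Function.update ξ 0 t) = en1h N σ z x ξ := by
  unfold en1h
  rw [sol_update hN hz (by simp)]

lemma en1_g_update (hN : Steps N) (hz : 0 < z.im) (ξ : V → ℝ) (t : ℝ) :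
    en1g N σ z (Function.update ξ 0 t) = (den σ (z + SE N ∅ (pot σ ξ) z 0) t)⁻¹ := by
  rw [en1_g_eq hN hz, SE_update hN hz, Function.update_self]

/-! measurability -/

lemma en1_nice_g (hN : Steps N) (hz : 0 < z.im) : Nice (en1g N σ z) := nice_sol hN hz _ _

lemma en1_nice_c (hN : Steps N) (hz : 0 < z.im) (x : V) : Nice fun ξ => en1c N σ z ξ x :=
  (Nice.cconst _).csub (nice_sol hN hz _ _)

lemma en1_nice_nsqc (hN : Steps N) (hz : 0 < z.im) : Nice fun ξ => nsq (en1c N σ z ξ) := by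
  unfold nsq
  exact Nice.sum _ fun x _ => ((en1_nice_c hN hz x).norm).pow 2

lemma en1_nice_b (hN : Steps N) (hz : 0 < z.im) : Nice (en1b N σ z) :=
  (en1_nice_nsqc hN hz).const_mul _

lemma en1_nice_h (hN : Steps N) (hz : 0 < z.im) (x : V) : Nice (en1h N σ z x) :=
  (nice_nsq hN hz _).const_mul _

/-- the quotient -/
noncomputable def en1q (N : Finset V) (σ : ℝ) (z : ℂ) (x : V) (ξ : V → ℝ) : ℝ :=
  ‖en1c N σ z ξ x‖ ^ 2 / en1b N σ z ξ

lemma en1_q_nonneg (hN : Steps N) (hz : 0 < z.im) (x : V) (ξ : V → ℝ) : 0 ≤ en1q N σ z x ξ :=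
  div_nonneg (sq_nonneg _) (en1_b_pos hN hz ξ).le

lemma en1_c_le_nsq (ξ : V → ℝ) (x : V) : ‖en1c N σ z ξ x‖ ^ 2 ≤ nsq (en1c N σ z ξ) :=
  Finset.single_le_sum (f := fun x => ‖en1c N σ z ξ x‖ ^ 2) (fun _ _ => by positivity) (mem_univ x)

lemma en1_nice_q (hN : Steps N) (hz : 0 < z.im) (x : V) : Nice (en1q N σ z x) := by
  refine ⟨(((en1_nice_c hN hz x).norm).pow 2).1.div (en1_nice_b hN hz).1, 1 / z.im,
    fun ξ => ?_⟩
  rw [Real.norm_eq_abs, abs_of_nonneg (en1_q_nonneg hN hz x ξ)]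
  unfold en1q en1b
  have h1 := en1_nsq_ge (σ := σ) hN hz ξ
  have h2 := en1_c_le_nsq (N := N) (σ := σ) (z := z) ξ x
  rw [div_le_div_iff₀ (by positivity) hz]
  nlinarith

variable {ν : Measure ℝ} {G : ℝ}

lemma en1_G_nonneg (hν : Law ν G) : 0 ≤ G := by
  obtain ⟨g, _, h0, h1, _, _⟩ := hν.dens
  exact (h0 0).trans (h1 0)

/-- mean of `Im G^{(0)}(x,x)` -/
lemma en1_int_h (hN : Steps N) (hz : 0 < z.im) (hν : Law ν G) (hσ : 0 < σ) (x : V) :
    ∫ ξ, en1h N σ z x ξ ∂(PV ν V) ≤ Real.pi * G / σ := by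
  have := hν.prob
  have hG := en1_G_nonneg hν
  have hpi := Real.pi_pos
  by_cases hx : x = 0
  · subst hx
    have h0 : ∀ ξ, en1h N σ z 0 ξ = 0 := by
      intro ξ
      unfold en1h
      rw [en1_sol_zero hN hz (by simp)]
      simp [nsq]
    simp only [h0, integral_zero]
    positivity
  · have hx0 : x ∉ ({0} : Finset V) := by simpa using hx
    have h := E_le_of_resample ν x (F := en1h N σ z x) (Φ := fun _ => 1)
      (k := fun ξ t => (den σ (z + SE N {0} (pot σ ξ) z x) t)⁻¹.im) (c := Real.pi * G / σ)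
      (en1_nice_h hN hz x) (Nice.const 1) (fun _ => zero_le_one) (fun ξ t => ?_) (fun ξ => ?_)
    · simpa using h
    · unfold en1h
      rw [mul_one, ← nsq_sol_single hN hz, sol_eq_tau hN hz _ hx0,
        SE_update hN hz, tau_single_self hN hz, Function.update_self, one_mul]
    · have him : 0 < (z + SE N {0} (pot σ ξ) z x).im := by
        rw [Complex.add_im]; linarith [SE_im_nonneg (Λ := {0}) hN hz (pot σ ξ) x]
      simp only [im_inv_den]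
      rw [integral_const_mul]
      calc (z + SE N {0} (pot σ ξ) z x).im * ∫ t, (‖den σ (z + SE N {0} (pot σ ξ) z x) t‖ ^ 2)⁻¹ ∂ν
          ≤ (z + SE N {0} (pot σ ξ) z x).im
            * (Real.pi * G / (σ * (z + SE N {0} (pot σ ξ) z x).im)) :=
            mul_le_mul_of_nonneg_left (hν.int_inv_sq hσ him).2 him.le
        _ = _ := by field_simp

lemma en1_int_Q (hN : Steps N) (hz : 0 < z.im) (hν : Law ν G) (hσ : 0 < σ) (x : V) :
    ∫ ξ, ‖en1g N σ z ξ‖ ^ 2 * en1b N σ z ξ * en1h N σ z x ξ ∂(PV ν V)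
      ≤ Real.pi * G / σ * ∫ ξ, en1h N σ z x ξ ∂(PV ν V) := by
  have := hν.prob
  refine E_le_of_resample ν 0
    (k := fun ξ t => en1b N σ z ξ * (‖den σ (z + SE N ∅ (pot σ ξ) z 0) t‖ ^ 2)⁻¹)
    ((((en1_nice_g hN hz).norm.pow 2).mul (en1_nice_b hN hz)).mul (en1_nice_h hN hz x))
    (en1_nice_h hN hz x) (en1_h_nonneg hz x) (fun ξ t => ?_) (fun ξ => ?_)
  · rw [en1_g_update hN hz, en1_b_update hN hz, en1_h_update hN hz, norm_inv, inv_pow]
    ring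
  · have him : 0 < (z + SE N ∅ (pot σ ξ) z 0).im := by
      rw [← en1_b_eq hN hz]; exact en1_b_pos hN hz ξ
    rw [integral_const_mul]
    calc en1b N σ z ξ * ∫ t, (‖den σ (z + SE N ∅ (pot σ ξ) z 0) t‖ ^ 2)⁻¹ ∂ν
        ≤ en1b N σ z ξ * (Real.pi * G / (σ * (z + SE N ∅ (pot σ ξ) z 0).im)) :=
          mul_le_mul_of_nonneg_left (hν.int_inv_sq hσ him).2 (en1_b_pos hN hz ξ).le
      _ = _ := by rw [en1_b_eq hN hz]; field_simp

lemma en1_int_R (hN : Steps N) (hz : 0 < z.im) (hν : Law ν G) (hσ : 0 < σ) (x : V) :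
    ∫ ξ, ‖en1g N σ z ξ‖ ^ 3 * en1b N σ z ξ * ‖en1c N σ z ξ x‖ ^ 2 ∂(PV ν V)
      ≤ Real.pi * G / σ * ∫ ξ, en1q N σ z x ξ ∂(PV ν V) := by
  have := hν.prob
  refine E_le_of_resample ν 0
    (k := fun ξ t => en1b N σ z ξ ^ 2 * (‖den σ (z + SE N ∅ (pot σ ξ) z 0) t‖ ^ 3)⁻¹)
    ((((en1_nice_g hN hz).norm.pow 3).mul (en1_nice_b hN hz)).mul
      ((en1_nice_c hN hz x).norm.pow 2))
    (en1_nice_q hN hz x) (en1_q_nonneg hN hz x) (fun ξ t => ?_) (fun ξ => ?_)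
  · have hb := (en1_b_pos (σ := σ) hN hz ξ).ne'
    rw [en1_g_update hN hz, en1_b_update hN hz, en1_c_update hN hz, norm_inv, inv_pow]
    unfold en1q
    field_simp
  · have him : 0 < (z + SE N ∅ (pot σ ξ) z 0).im := by
      rw [← en1_b_eq hN hz]; exact en1_b_pos hN hz ξ
    rw [integral_const_mul]
    calc en1b N σ z ξ ^ 2 * ∫ t, (‖den σ (z + SE N ∅ (pot σ ξ) z 0) t‖ ^ 3)⁻¹ ∂ν
        ≤ en1b N σ z ξ ^ 2 * (Real.pi * G / (σ * (z + SE N ∅ (pot σ ξ) z 0).im ^ 2)) :=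
          mul_le_mul_of_nonneg_left (hν.int_inv_cube hσ him).2 (sq_nonneg _)
      _ = _ := by rw [en1_b_eq hN hz]; field_simp

lemma en1_nice_P (hN : Steps N) (hz : 0 < z.im) (x : V) :
    Nice fun ξ : V → ℝ => (z.im * nsq (sol N ∅ (pot σ ξ) z (Pi.single 0 1)))
        * (z.im * nsq (sol N ∅ (pot σ ξ) z (Pi.single x 1))) :=
  ((nice_nsq hN hz _).const_mul _).mul ((nice_nsq hN hz _).const_mul _)

lemma en1_int_P (hN : Steps N) (hz : 0 < z.im) (hν : Law ν G) (hσ : 0 < σ) (x : V) :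
    ∫ ξ, (z.im * nsq (sol N ∅ (pot σ ξ) z (Pi.single 0 1)))
        * (z.im * nsq (sol N ∅ (pot σ ξ) z (Pi.single x 1))) ∂(PV ν V)
      ≤ (Real.pi * G / σ) ^ 2 + Real.pi * G / σ * ∫ ξ, en1q N σ z x ξ ∂(PV ν V) := by
  have := hν.prob
  have hG := en1_G_nonneg hν
  have hpi := Real.pi_pos
  have nQ : Nice fun ξ => ‖en1g N σ z ξ‖ ^ 2 * en1b N σ z ξ * en1h N σ z x ξ :=
    (((en1_nice_g hN hz).norm.pow 2).mul (en1_nice_b hN hz)).mul (en1_nice_h hN hz x)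
  have nR : Nice fun ξ => ‖en1g N σ z ξ‖ ^ 3 * en1b N σ z ξ * ‖en1c N σ z ξ x‖ ^ 2 :=
    (((en1_nice_g hN hz).norm.pow 3).mul (en1_nice_b hN hz)).mul
      ((en1_nice_c hN hz x).norm.pow 2)
  calc ∫ ξ, (z.im * nsq (sol N ∅ (pot σ ξ) z (Pi.single 0 1)))
        * (z.im * nsq (sol N ∅ (pot σ ξ) z (Pi.single x 1))) ∂(PV ν V)
      ≤ ∫ ξ, (‖en1g N σ z ξ‖ ^ 2 * en1b N σ z ξ * en1h N σ z x ξ
        + ‖en1g N σ z ξ‖ ^ 3 * en1b N σ z ξ * ‖en1c N σ z ξ x‖ ^ 2) ∂(PV ν V) :=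
        integral_mono (en1_nice_P hN hz x).integrable (nQ.add nR).integrable
          fun ξ => en1_point hN hz ξ x
    _ = (∫ ξ, ‖en1g N σ z ξ‖ ^ 2 * en1b N σ z ξ * en1h N σ z x ξ ∂(PV ν V))
        + ∫ ξ, ‖en1g N σ z ξ‖ ^ 3 * en1b N σ z ξ * ‖en1c N σ z ξ x‖ ^ 2 ∂(PV ν V) :=
        integral_add nQ.integrable nR.integrable
    _ ≤ Real.pi * G / σ * (Real.pi * G / σ)
        + Real.pi * G / σ * ∫ ξ, en1q N σ z x ξ ∂(PV ν V) := by
        refine add_le_add ((en1_int_Q hN hz hν hσ x).trans ?_) (en1_int_R hN hz hν hσ x)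
        exact mul_le_mul_of_nonneg_left (en1_int_h hN hz hν hσ x) (by positivity)
    _ = _ := by ring

/-- the event -/
def en1A (N : Finset V) (σ : ℝ) (z : ℂ) (κ : ℝ) (B : Finset V) : Set (V → ℝ) :=
  {ξ | κ * nsq (en1c N σ z ξ) < ∑ x ∈ B, ‖en1c N σ z ξ x‖ ^ 2}

lemma en1_meas_A (hN : Steps N) (hz : 0 < z.im) (κ : ℝ) (B : Finset V) :
    MeasurableSet (en1A N σ z κ B) :=
  measurableSet_lt ((en1_nice_nsqc hN hz).const_mul κ).1
    (Nice.sum B fun x _ => (en1_nice_c hN hz x).norm.pow 2).1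

lemma en1_sum_q (hN : Steps N) (hz : 0 < z.im) {κ : ℝ} (hκ : 0 ≤ κ) (B : Finset V) (ξ : V → ℝ) :
    z.im * ∑ x ∈ B, en1q N σ z x ξ ≤ κ + ind (en1A N σ z κ B) ξ := by
  have h1 := en1_nsq_ge (σ := σ) hN hz ξ
  have h0 : 0 < nsq (en1c N σ z ξ) := by linarith
  have h2 : z.im * ∑ x ∈ B, en1q N σ z x ξ
      = (∑ x ∈ B, ‖en1c N σ z ξ x‖ ^ 2) / nsq (en1c N σ z ξ) := by
    unfold en1q en1b
    rw [← Finset.sum_div]
    field_simp
  rw [h2]
  by_cases hA : ξ ∈ en1A N σ z κ B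
  · rw [ind_of_mem hA]
    have h3 : ∑ x ∈ B, ‖en1c N σ z ξ x‖ ^ 2 ≤ nsq (en1c N σ z ξ) := by
      unfold nsq
      exact Finset.sum_le_sum_of_subset_of_nonneg (Finset.subset_univ _)
        fun _ _ _ => by positivity
    have h4 : (∑ x ∈ B, ‖en1c N σ z ξ x‖ ^ 2) / nsq (en1c N σ z ξ) ≤ 1 := by
      rw [div_le_one h0]; exact h3
    linarith
  · rw [ind_of_notMem hA, add_zero, div_le_iff₀ h0]
    exact not_lt.1 hA

/-- the average for a fixed energy -/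
lemma en1_fixed (hN : Steps N) (hz : 0 < z.im) (hν : Law ν G) (hσ : 0 < σ) {κ p : ℝ}
    (hκ : 0 ≤ κ) (B : Finset V) (hB : (PV ν V).real (en1A N σ z κ B) ≤ p) :
    ∫ ξ, z.im * ∑ x ∈ B, (z.im * nsq (sol N ∅ (pot σ ξ) z (Pi.single 0 1)))
        * (z.im * nsq (sol N ∅ (pot σ ξ) z (Pi.single x 1))) ∂(PV ν V)
      ≤ B.card * (Real.pi * G) ^ 2 * z.im / σ ^ 2 + Real.pi * G / σ * (κ + p) := by
  have := hν.prob
  have hG := en1_G_nonneg hν
  have hpi := Real.pi_pos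
  rw [integral_const_mul, integral_finsetSum _ fun x _ => (en1_nice_P hN hz x).integrable]
  have h1 : ∑ x ∈ B, ∫ ξ, (z.im * nsq (sol N ∅ (pot σ ξ) z (Pi.single 0 1)))
        * (z.im * nsq (sol N ∅ (pot σ ξ) z (Pi.single x 1))) ∂(PV ν V)
      ≤ ∑ x ∈ B, ((Real.pi * G / σ) ^ 2 + Real.pi * G / σ * ∫ ξ, en1q N σ z x ξ ∂(PV ν V)) :=
    Finset.sum_le_sum fun x _ => en1_int_P hN hz hν hσ x
  have h2 : z.im * ∑ x ∈ B, ∫ ξ, en1q N σ z x ξ ∂(PV ν V) ≤ κ + p := by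
    rw [← integral_finsetSum _ fun x _ => (en1_nice_q hN hz x).integrable, ← integral_const_mul]
    calc ∫ ξ, z.im * ∑ x ∈ B, en1q N σ z x ξ ∂(PV ν V)
        ≤ ∫ ξ, (κ + ind (en1A N σ z κ B) ξ) ∂(PV ν V) := by
          refine integral_mono ?_ ?_ fun ξ => en1_sum_q hN hz hκ B ξ
          · exact ((Nice.sum B fun x _ => en1_nice_q hN hz x).const_mul _).integrable
          · exact ((Nice.const κ).add (nice_ind1 (en1_meas_A hN hz κ B))).integrable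
      _ = κ + (PV ν V).real (en1A N σ z κ B) := by
          rw [integral_add (integrable_const _)
            (nice_ind1 (en1_meas_A hN hz κ B)).integrable, integral_ind _ (en1_meas_A hN hz κ B)]
          simp
      _ ≤ κ + p := by linarith
  have h3 : 0 ≤ Real.pi * G / σ := by positivity
  calc z.im * ∑ x ∈ B, ∫ ξ, (z.im * nsq (sol N ∅ (pot σ ξ) z (Pi.single 0 1)))
        * (z.im * nsq (sol N ∅ (pot σ ξ) z (Pi.single x 1))) ∂(PV ν V)
      ≤ z.im * ∑ x ∈ B, ((Real.pi * G / σ) ^ 2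
          + Real.pi * G / σ * ∫ ξ, en1q N σ z x ξ ∂(PV ν V)) :=
        mul_le_mul_of_nonneg_left h1 hz.le
    _ = B.card * (Real.pi * G) ^ 2 * z.im / σ ^ 2
        + Real.pi * G / σ * (z.im * ∑ x ∈ B, ∫ ξ, en1q N σ z x ξ ∂(PV ν V)) := by
        rw [Finset.sum_add_distrib, ← Finset.mul_sum, Finset.sum_const, nsmul_eq_mul]
        field_simp
    _ ≤ _ := by
        have := mul_le_mul_of_nonneg_left h2 h3
        linarith

end En1gen

variable {d L : ℕ} [NeZero L]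

/-- the vector `δ₀ - G^{(0)} φ₀`: then `G(·, 0) = ch / b` with
`b = σ ξ(0) - z - ⟨φ₀, G^{(0)} φ₀⟩`, `b` has imaginary part `- η * nsq ch`, and `ch` does not depend on
`ξ(0)` -/
noncomputable def ch (σ η E : ℝ) (ξ : Tor d L → ℝ) : Tor d L → ℂ :=
  Pi.single 0 1 - sol (ND L (univ : Finset (Fin d))) {0} (pot σ ξ) (en η E)
    (bx (ND L (univ : Finset (Fin d))) 0)

/-- Energy average.  `z = E + i η = en η E`.

Proof. Fix `E` in `[E₁, E₂]`; write `N = ND L univ`, `c(ξ) = ch σ η E ξ`, `β = η * nsq c ≥ η`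
(`c 0 = 1`), `b = σ ξ 0 - z - SE N ∅ (pot σ ξ) z 0`, `|Im b| = β` (`den_im`).  By `sol_remove`,
`sol_apply` (Pool.Agent.H989.Sol) and `IsSol.dot_comm`: `G(x,x) = G^{(0)}(x,x) + c(x)² / b` for
`x ≠ 0` and `G(0,0) = 1 / b`.  Also `Im G(x,x) = η nsq (G δ_x)` (`IsSol.im_dot` with `b = δ_x`), and
`Im G(0,0) = β / |b|²`.  Hence for all `x` (also for `x = 0`, with `Im G^{(0)}(0,0) = 0`)
`Im G(0,0) * Im G(x,x) ≤ (β / |b|²) Im G^{(0)}(x,x) + (β / |b|³) |c(x)|²`.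
Integrate over `ξ 0` (only `b` depends on it; `E_le_of_resample`, `Law.int_inv_sq`,
`Law.int_inv_cube`): at most `(π G / σ) Im G^{(0)}(x,x) + (π G / (σ β)) |c(x)|²`.
Integrate over the rest: `E Im G^{(0)}(x,x) ≤ π G / σ` (the same bound for the one site `x`; it is zero
for `x = 0`), and `η |c(x)|² / β = |c(x)|² / nsq c`; the sum over `x ∈ B` of these is at most `1`
always, and at most `κ` outside the event of `hB`.  Finally integrate over `E ∈ [E₁, E₂]` (Tonelli;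
joint measurability as in Pool.Agent.H989.Energy: `continuous_joint`, `continuous_joint_nsq`;
see also `E_im_sq` and the proof of `torus_bound` there). -/
theorem torus_energy (hL : 5 ≤ L) {ν : Measure ℝ} {G : ℝ} (hν : Law ν G) {σ η E₁ E₂ κ p : ℝ}
    (hσ : 0 < σ) (hη : 0 < η) (hE : E₁ ≤ E₂) (hκ : 0 ≤ κ) (hp : 0 ≤ p) (B : Finset (Tor d L))
    (hB : ∀ E ∈ Set.Icc E₁ E₂, (PV ν (Tor d L)).real
      {ξ | κ * nsq (ch σ η E ξ) < ∑ x ∈ B, ‖ch σ η E ξ x‖ ^ 2} ≤ p) :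
    ∫⁻ ξ, (∫⁻ E in Set.Icc E₁ E₂, ENNReal.ofReal (η * ∑ x ∈ B,
        (η * nsq (sol (ND L (univ : Finset (Fin d))) ∅ (pot σ ξ) (en η E) (Pi.single 0 1)))
        * (η * nsq (sol (ND L (univ : Finset (Fin d))) ∅ (pot σ ξ) (en η E) (Pi.single x 1)))))
        ∂(PV ν (Tor d L))
      ≤ ENNReal.ofReal ((E₂ - E₁) * (B.card * (Real.pi * G) ^ 2 * η / σ ^ 2
        + Real.pi * G / σ * (κ + p))) := by
  have := hν.prob
  set N := ND L (univ : Finset (Fin d)) with hN'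
  have hN : Steps N := steps_ND (by omega) _
  rw [← lintegral_lintegral_swap]
  · have b1 : ∀ E ∈ Set.Icc E₁ E₂,
        ∫⁻ ξ, ENNReal.ofReal (η * ∑ x ∈ B,
          (η * nsq (sol N ∅ (pot σ ξ) (en η E) (Pi.single 0 1)))
          * (η * nsq (sol N ∅ (pot σ ξ) (en η E) (Pi.single x 1)))) ∂(PV ν (Tor d L))
        ≤ ENNReal.ofReal (B.card * (Real.pi * G) ^ 2 * η / σ ^ 2
          + Real.pi * G / σ * (κ + p)) := by
      intro E hE'
      have hz : 0 < (en η E).im := hη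
      have nn : Nice fun ξ : Tor d L → ℝ => η * ∑ x ∈ B,
          (η * nsq (sol N ∅ (pot σ ξ) (en η E) (Pi.single 0 1)))
          * (η * nsq (sol N ∅ (pot σ ξ) (en η E) (Pi.single x 1))) :=
        (Nice.sum B fun x _ => en1_nice_P hN hz x).const_mul _
      rw [← ofReal_integral_eq_lintegral_ofReal nn.integrable
        (Filter.Eventually.of_forall fun ξ => mul_nonneg hη.le (Finset.sum_nonneg fun x _ =>
          mul_nonneg (mul_nonneg hη.le (nsq_nonneg _)) (mul_nonneg hη.le (nsq_nonneg _))))]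
      exact ENNReal.ofReal_le_ofReal (en1_fixed hN hz hν hσ hκ B (hB E hE'))
    refine (setLIntegral_mono' measurableSet_Icc b1).trans (le_of_eq ?_)
    rw [setLIntegral_const, Real.volume_Icc, mul_comm, ENNReal.ofReal_mul (by linarith)]
  · refine Measurable.aemeasurable (Measurable.ennreal_ofReal (Measurable.const_mul ?_ _))
    refine Finset.measurable_sum B fun x _ => ?_
    have h1 := (continuous_joint_nsq (Λ := ∅) (σ := σ) hN hη (Pi.single 0 1)).measurable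
    have h2 := (continuous_joint_nsq (Λ := ∅) (σ := σ) hN hη (Pi.single x 1)).measurable
    exact (h1.const_mul _).mul (h2.const_mul _)

end Pool.Agent.H989.SB
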