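import Pool.Agent.H989.SB.Defs
import Pool.Agent.H989.Inf2

/-!
From the tori to `ℤ^d`, general single-site law.
-/

set_option linter.unusedSectionVars false
set_option linter.unusedVariables false

open MeasureTheory ProbabilityTheory Finset

namespace Pool.Agent.H989.SB

/-- the law of the potential on `ℤ^d` -/
noncomputable abbrev lawZ (ν : Measure ℝ) (d : ℕ) : Measure (Zd d → ℝ) :=
  Measure.infinitePi fun _ : Zd d => ν

section En2
open Filter Topology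
open scoped ComplexConjugate ENNReal

variable {d : ℕ}

/-- the overlap with the resolvent column at a general site -/
lemma En2_overlap {L : ℕ} [NeZero L] (hL : 3 ≤ L) {σ : ℝ} {ω : Zd d → ℝ} {u : Zd d → ℂ} {E : ℝ}
    (a : Zd d) (h : ∀ x, anderson σ ω u x = E * u x) {z : ℂ} (hz : 0 < z.im) {g : Tor d L → ℂ}
    {x₀ : Tor d L}
    (hg : IsSol (ND L univ) ∅ (pot σ fun x => ω (lf L a x)) z (Pi.single x₀ 1) g) :
    ((E : ℂ) - z) * dot (fun x => conj (rst L a u x)) g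
      + dot (fun x => conj (dfc L a u x)) g = conj (u (lf L a x₀)) := by
  set U := rst L a u with hU
  set D := dfc L a u with hD
  set N := ND L (univ : Finset (Fin d)) with hN
  have hNs : Steps N := steps_ND hL _
  have e1 : conj (u (lf L a x₀)) = dot (fun x => conj (U x)) (Pi.single x₀ 1) := by
    rw [dot_symm, dot_single_left, hU]
    rfl
  have e2 : ∀ x, (Pi.single x₀ 1 : Tor d L → ℂ) x
      = ((pot σ (fun x => ω (lf L a x)) x : ℂ) - z) * g x + nb N g x := fun x =>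
    (hg.2 x (by simp)).symm
  have e3 : (Pi.single x₀ 1 : Tor d L → ℂ)
      = (fun x => ((pot σ (fun x => ω (lf L a x)) x : ℂ) - z) * g x) + nb N g := by
    funext x; rw [e2]; rfl
  have e4 : nb N (fun x => conj (U x)) = fun x => conj (nb N U x) := by
    funext x; unfold nb; rw [map_sum]
  rw [e1, e3, dot_add_right, dot_nb hNs, e4]
  unfold dot
  rw [Finset.mul_sum, ← Finset.sum_add_distrib, ← Finset.sum_add_distrib]
  refine Finset.sum_congr rfl fun x _ => ?_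
  have e5 := congrArg conj (eig_torus hL a h x)
  rw [← hU, ← hD, ← hN] at e5
  simp only [map_add, map_mul, Complex.conj_ofReal] at e5
  have e6 : ((pot σ (fun x => ω (lf L a x)) x : ℝ) : ℂ) = ((σ * ω (lf L a x) : ℝ) : ℂ) := rfl
  beta_reduce
  rw [e6]
  linear_combination (-g x) * e5

/-- the column of the resolvent -/
noncomputable def En2_g (L : ℕ) [NeZero L] (a : Zd d) (σ η : ℝ) (ω : Zd d → ℝ) (E : ℝ)
    (x₀ : Tor d L) : Tor d L → ℂ :=
  sol (ND L (univ : Finset (Fin d))) ∅ (pot σ fun x => ω (lf L a x)) (en η E) (Pi.single x₀ 1)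

/-- one overlap -/
lemma En2_one (L : ℕ) [NeZero L] (hL : 3 ≤ L) {σ : ℝ} {ω : Zd d → ℝ} (u : L2 d)
    {Ej : ℝ} (h : ∀ x, anderson σ ω u x = Ej * u x) (a : Zd d) {η ε : ℝ}
    (hη : 0 < η) (hε : 0 ≤ ε) (hD : nrm (dfc L a u) ≤ ε * η) (E : ℝ) (hE : |E - Ej| ≤ η)
    (x₀ : Tor d L) :
    (max 0 (‖u (lf L a x₀)‖ - ε)) ^ 2 ≤ 2 * η ^ 2 * ‖inner ℂ u (ext0 a (En2_g L a σ η ω E x₀))‖ ^ 2 := by
  have hz : 0 < (en η E).im := hη
  have hNs : Steps (ND L (univ : Finset (Fin d))) := steps_ND hL _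
  set g := En2_g L a σ η ω E x₀ with hg
  have hgs := isSol_sol (v := pot σ fun x => ω (lf L a x)) (Λ := ∅) hNs hz (Pi.single x₀ 1)
  change IsSol _ _ _ _ _ g at hgs
  have hgn : nrm g ≤ 1 / η := by
    have := nrm_sol_le (Λ := ∅) (v := pot σ fun x => ω (lf L a x)) hNs hz (Pi.single x₀ 1)
    rw [nrm_single_one] at this
    exact this
  have ov := En2_overlap hL a h hz hgs
  rw [← inner_ext0] at ov
  have c1 : ‖u (lf L a x₀)‖ - ε ≤ ‖(Ej : ℂ) - en η E‖ * ‖inner ℂ u (ext0 a g)‖ := by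
    have e1 : ‖u (lf L a x₀)‖ = ‖conj (u (lf L a x₀))‖ := (Complex.norm_conj _).symm
    have e2 : ‖dot (fun x => conj (dfc L a u x)) g‖ ≤ ε := by
      refine (norm_dot_le _ _).trans ?_
      have e3 : nrm (fun x => conj (dfc L a u x)) ≤ nrm (dfc L a u) :=
        nrm_mono fun x => by rw [Complex.norm_conj]
      calc nrm (fun x => conj (dfc L a u x)) * nrm g ≤ (ε * η) * (1 / η) := by
            have := nrm_nonneg g
            have := e3.trans hD
            gcongr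
        _ = ε := by field_simp
    rw [e1, ← ov, ← norm_mul]
    have := norm_add_le (((Ej : ℂ) - en η E) * inner ℂ u (ext0 a g))
      (dot (fun x => conj (dfc L a u x)) g)
    linarith
  have c2 : max 0 (‖u (lf L a x₀)‖ - ε) ≤ ‖(Ej : ℂ) - en η E‖ * ‖inner ℂ u (ext0 a g)‖ :=
    max_le (by positivity) c1
  have c3 : ‖(Ej : ℂ) - en η E‖ ^ 2 ≤ 2 * η ^ 2 := by
    rw [Complex.sq_norm, Complex.normSq_apply]
    simp only [Complex.sub_re, Complex.sub_im, Complex.ofReal_re, Complex.ofReal_im, en]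
    have : (E - Ej) ^ 2 ≤ η ^ 2 := by
      rw [← sq_abs]; exact pow_le_pow_left₀ (abs_nonneg _) hE 2
    nlinarith
  calc (max 0 (‖u (lf L a x₀)‖ - ε)) ^ 2
      ≤ (‖(Ej : ℂ) - en η E‖ * ‖inner ℂ u (ext0 a g)‖) ^ 2 :=
        pow_le_pow_left₀ (le_max_left _ _) c2 2
    _ = ‖(Ej : ℂ) - en η E‖ ^ 2 * ‖inner ℂ u (ext0 a g)‖ ^ 2 := by rw [mul_pow]
    _ ≤ _ := by gcongr

/-- Bessel -/
lemma En2_bessel (L : ℕ) [NeZero L] {ι : Type} [Fintype ι] (u : ι → L2 d)
    (hu : Orthonormal ℂ u) (a : Zd d) (g : Tor d L → ℂ) :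
    ∑ j, ‖inner ℂ (u j) (ext0 a g)‖ ^ 2 ≤ nsq g := by
  have := hu.sum_inner_products_le (ext0 a g) (s := univ)
  rw [norm_ext0] at this
  exact this

lemma En2_real {ι : Type} [Fintype ι] {η : ℝ} (hη : 0 < η) (t s : ι → ℝ) {T S : ℝ}
    (bt : ∑ j, t j ≤ T) (bs : ∑ j, s j ≤ S) (ht0 : ∀ j, 0 ≤ t j) (hs0 : ∀ j, 0 ≤ s j)
    (f : ι → ℝ) (h4 : ∀ j, f j ≤ η ^ 3 * (t j * s j)) :
    ∑ j, f j ≤ η * ((η * T) * (η * S)) := by
  have h5 : ∑ j, t j * s j ≤ (∑ j, t j) * ∑ j, s j := by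
    rw [Finset.sum_mul]
    refine Finset.sum_le_sum fun j _ => ?_
    exact mul_le_mul_of_nonneg_left
      (Finset.single_le_sum (f := s) (fun i _ => hs0 i) (mem_univ j)) (ht0 j)
  have n1 : 0 ≤ ∑ j, t j := Finset.sum_nonneg fun j _ => ht0 j
  have n2 : 0 ≤ ∑ j, s j := Finset.sum_nonneg fun j _ => hs0 j
  have n3 : 0 ≤ T := n1.trans bt
  have h6 : (∑ j, t j) * ∑ j, s j ≤ T * S := mul_le_mul bt bs n2 n3
  calc ∑ j, f j ≤ ∑ j, η ^ 3 * (t j * s j) := Finset.sum_le_sum fun j _ => h4 j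
    _ = η ^ 3 * ∑ j, t j * s j := by rw [Finset.mul_sum]
    _ ≤ η ^ 3 * (T * S) := mul_le_mul_of_nonneg_left (h5.trans h6) (by positivity)
    _ = _ := by ring

/-- the pointwise lower bound -/
lemma En2_ge (L : ℕ) [NeZero L] (hL : 3 ≤ L) {σ : ℝ} {ω : Zd d → ℝ} {ι : Type} [Fintype ι]
    (u : ι → L2 d) (hu : Orthonormal ℂ u)
    {Ej : ι → ℝ} (h : ∀ j x, anderson σ ω (u j) x = Ej j * u j x) (a : Zd d) {η ε : ℝ}
    (hη : 0 < η) (hε : 0 ≤ ε) (hD : ∀ j, nrm (dfc L a (u j)) ≤ ε * η) (B : Finset (Zd d))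
    (E : ℝ) :
    ∑ j, (if |E - Ej j| ≤ η then (∑ y ∈ B, (max 0 (‖u j a‖ - ε)) ^ 2 *
        (max 0 (‖u j (lf L a (red L y))‖ - ε)) ^ 2) / (4 * η) else 0)
      ≤ η * ∑ y ∈ B, (η * nsq (En2_g L a σ η ω E 0)) * (η * nsq (En2_g L a σ η ω E (red L y))) := by
  have key : ∀ y ∈ B, ∑ j, (if |E - Ej j| ≤ η then (max 0 (‖u j a‖ - ε)) ^ 2 *
        (max 0 (‖u j (lf L a (red L y))‖ - ε)) ^ 2 / (4 * η) else 0)
      ≤ η * ((η * nsq (En2_g L a σ η ω E 0)) * (η * nsq (En2_g L a σ η ω E (red L y)))) := by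
    intro y _
    set t : ι → ℝ := fun j => ‖inner ℂ (u j) (ext0 a (En2_g L a σ η ω E 0))‖ ^ 2 with ht
    set s : ι → ℝ := fun j => ‖inner ℂ (u j) (ext0 a (En2_g L a σ η ω E (red L y)))‖ ^ 2 with hs
    have ht0 : ∀ j, 0 ≤ t j := fun j => by positivity
    have hs0 : ∀ j, 0 ≤ s j := fun j => by positivity
    have bt : ∑ j, t j ≤ nsq (En2_g L a σ η ω E 0) := En2_bessel L u hu a _
    have bs : ∑ j, s j ≤ nsq (En2_g L a σ η ω E (red L y)) := En2_bessel L u hu a _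
    have h4 : ∀ j, (if |E - Ej j| ≤ η then (max 0 (‖u j a‖ - ε)) ^ 2 *
        (max 0 (‖u j (lf L a (red L y))‖ - ε)) ^ 2 / (4 * η) else 0) ≤ η ^ 3 * (t j * s j) := by
      intro j
      split_ifs with hj
      · have o1 := En2_one L hL (u j) (h j) a hη hε (hD j) E hj 0
        have o2 := En2_one L hL (u j) (h j) a hη hε (hD j) E hj (red L y)
        rw [lf_zero] at o1
        rw [div_le_iff₀ (by positivity)]
        calc (max 0 (‖u j a‖ - ε)) ^ 2 * (max 0 (‖u j (lf L a (red L y))‖ - ε)) ^ 2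
            ≤ (2 * η ^ 2 * t j) * (2 * η ^ 2 * s j) := by
              have := ht0 j
              exact mul_le_mul o1 o2 (by positivity) (by positivity)
          _ = η ^ 3 * (t j * s j) * (4 * η) := by ring
      · have := ht0 j
        have := hs0 j
        positivity
    exact En2_real hη t s bt bs ht0 hs0 _ h4
  calc _ = ∑ y ∈ B, ∑ j, (if |E - Ej j| ≤ η then (max 0 (‖u j a‖ - ε)) ^ 2 *
        (max 0 (‖u j (lf L a (red L y))‖ - ε)) ^ 2 / (4 * η) else 0) := by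
        rw [Finset.sum_comm]
        refine Finset.sum_congr rfl fun j _ => ?_
        split_ifs with hj
        · rw [Finset.sum_div]
        · simp
    _ ≤ ∑ y ∈ B, η * ((η * nsq (En2_g L a σ η ω E 0)) * (η * nsq (En2_g L a σ η ω E (red L y)))) :=
        Finset.sum_le_sum key
    _ = _ := by rw [Finset.mul_sum]

/-- the energy integral -/
noncomputable def En2_Y (L : ℕ) [NeZero L] (a : Zd d) (B : Finset (Zd d)) (σ η E₁ E₂ : ℝ)
    (ω : Zd d → ℝ) : ℝ≥0∞ :=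
  ∫⁻ E in Set.Icc E₁ E₂, ENNReal.ofReal (η * ∑ y ∈ B,
    (η * nsq (En2_g L a σ η ω E 0)) * (η * nsq (En2_g L a σ η ω E (red L y))))

lemma En2_Y_ge (L : ℕ) [NeZero L] (hL : 3 ≤ L) {σ η E₁ E₂ : ℝ} (hη : 0 < η)
    {ω : Zd d → ℝ} {ι : Type} [Fintype ι] (u : ι → L2 d) (hu : Orthonormal ℂ u)
    {Ej : ι → ℝ} (h : ∀ j x, anderson σ ω (u j) x = Ej j * u j x)
    (hE : ∀ j, E₁ + η ≤ Ej j ∧ Ej j ≤ E₂ - η) (a : Zd d) (B : Finset (Zd d)) {ε : ℝ}
    (hε : 0 ≤ ε) (hD : ∀ j, nrm (dfc L a (u j)) ≤ ε * η) :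
    ∑ j, ENNReal.ofReal ((∑ y ∈ B, (max 0 (‖u j a‖ - ε)) ^ 2 *
        (max 0 (‖u j (lf L a (red L y))‖ - ε)) ^ 2) / 2) ≤ En2_Y L a B σ η E₁ E₂ ω := by
  set S : ι → ℝ := fun j => ∑ y ∈ B, (max 0 (‖u j a‖ - ε)) ^ 2 *
        (max 0 (‖u j (lf L a (red L y))‖ - ε)) ^ 2 with hS
  have hS0 : ∀ j, 0 ≤ S j := fun j => Finset.sum_nonneg fun y _ => by positivity
  have hsub : ∀ j, Set.Icc (Ej j - η) (Ej j + η) ⊆ Set.Icc E₁ E₂ := by
    intro j x hx
    have := hE j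
    exact ⟨by linarith [hx.1], by linarith [hx.2]⟩
  calc ∑ j, ENNReal.ofReal (S j / 2)
      = ∑ j, ∫⁻ E in Set.Icc E₁ E₂, (Set.Icc (Ej j - η) (Ej j + η)).indicator
        (fun _ => ENNReal.ofReal (S j / (4 * η))) E := by
        refine Finset.sum_congr rfl fun j _ => ?_
        rw [lintegral_indicator measurableSet_Icc, Measure.restrict_restrict measurableSet_Icc,
          Set.inter_eq_left.2 (hsub j), setLIntegral_const, Real.volume_Icc,
          ← ENNReal.ofReal_mul (by have := hS0 j; positivity)]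
        congr 1
        field_simp
        ring
    _ = ∫⁻ E in Set.Icc E₁ E₂, ∑ j, (Set.Icc (Ej j - η) (Ej j + η)).indicator
        (fun _ => ENNReal.ofReal (S j / (4 * η))) E := by
        rw [lintegral_finsetSum]
        intro j _
        exact measurable_const.indicator measurableSet_Icc
    _ ≤ _ := by
        unfold En2_Y
        refine lintegral_mono fun E => ?_
        have key := En2_ge L hL u hu h a hη hε hD B E
        refine le_trans (le_of_eq ?_) (ENNReal.ofReal_le_ofReal key)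
        rw [ENNReal.ofReal_sum_of_nonneg]
        · refine Finset.sum_congr rfl fun j _ => ?_
          by_cases hj : |E - Ej j| ≤ η
          · rw [if_pos hj, Set.indicator_of_mem]
            have := abs_le.1 hj
            exact ⟨by linarith, by linarith⟩
          · rw [if_neg hj, Set.indicator_of_notMem]
            · simp
            · intro hm
              apply hj
              rw [abs_le]
              exact ⟨by linarith [hm.1], by linarith [hm.2]⟩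
        · intro j _
          have := hS0 j
          split_ifs
          · exact div_nonneg this (by positivity)
          · exact le_rfl

/-- the limit quantity -/
noncomputable def En2_YY (a : Zd d) (B : Finset (Zd d)) (σ η E₁ E₂ : ℝ) (L₀ : ℕ)
    (ω : Zd d → ℝ) : ℝ≥0∞ :=
  liminf (fun k : ℕ => En2_Y (k + (L₀ + 5)) a B σ η E₁ E₂ ω) atTop

lemma En2_YY_ge {σ η E₁ E₂ : ℝ} (hη : 0 < η) (L₀ : ℕ)
    {ω : Zd d → ℝ} {ι : Type} [Fintype ι] (u : ι → L2 d) (hu : Orthonormal ℂ u)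
    {Ej : ι → ℝ} (h : ∀ j x, anderson σ ω (u j) x = Ej j * u j x)
    (hE : ∀ j, E₁ + η ≤ Ej j ∧ Ej j ≤ E₂ - η) (a : Zd d) (B : Finset (Zd d)) :
    ENNReal.ofReal ((∑ j, ∑ y ∈ B, ‖u j a‖ ^ 2 * ‖u j (a + y)‖ ^ 2) / 2)
      ≤ En2_YY a B σ η E₁ E₂ L₀ ω := by
  obtain ⟨L₁, hL₁⟩ := exists_inside a (B.image fun y => a + y)
  have step : ∀ ε > 0, ∑ j, ENNReal.ofReal ((∑ y ∈ B, (max 0 (‖u j a‖ - ε)) ^ 2 *
        (max 0 (‖u j (a + y)‖ - ε)) ^ 2) / 2) ≤ En2_YY a B σ η E₁ E₂ L₀ ω := by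
    intro ε hε
    obtain ⟨L₂, hL₂⟩ := exists_L₀ u a (ε := ε * η) (by positivity)
    unfold En2_YY
    refine le_liminf_of_le (by isBoundedDefault) ?_
    filter_upwards [eventually_ge_atTop (L₁ + L₂)] with k hk
    refine le_trans (le_of_eq ?_) (En2_Y_ge (k + (L₀ + 5)) (by omega) hη u hu h hE a B hε.le
      (hL₂ (k + (L₀ + 5)) inferInstance (by omega)))
    refine Finset.sum_congr rfl fun j _ => ?_
    congr 2
    refine Finset.sum_congr rfl fun y hy => ?_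
    have e1 : lf (k + (L₀ + 5)) a (red (k + (L₀ + 5)) y) = a + y := by
      have e2 : (a + y) - a = y := by abel
      have e3 := lf_red (L := k + (L₀ + 5)) (a := a) (y := a + y) (fun i => by
        have := hL₁ (k + (L₀ + 5)) (by omega) (a + y) (Finset.mem_image_of_mem _ hy) i
        omega)
      rw [e2] at e3
      exact e3
    rw [e1]
  have hcont : Tendsto (fun ε : ℝ => ∑ j, ENNReal.ofReal ((∑ y ∈ B, (max 0 (‖u j a‖ - ε)) ^ 2 *
        (max 0 (‖u j (a + y)‖ - ε)) ^ 2) / 2))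
      (𝓝[>] 0) (𝓝 (∑ j, ENNReal.ofReal ((∑ y ∈ B, (max 0 (‖u j a‖ - 0)) ^ 2 *
        (max 0 (‖u j (a + y)‖ - 0)) ^ 2) / 2))) := by
    refine tendsto_finsetSum _ fun j _ => ?_
    refine (ENNReal.continuous_ofReal.tendsto _).comp ?_
    have : Continuous fun ε : ℝ => (∑ y ∈ B, (max 0 (‖u j a‖ - ε)) ^ 2 *
        (max 0 (‖u j (a + y)‖ - ε)) ^ 2) / 2 := by fun_prop
    exact (this.tendsto 0).mono_left nhdsWithin_le_nhds
  have hlim := le_of_tendsto hcont (by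
    filter_upwards [self_mem_nhdsWithin] with ε hε
    exact step ε hε)
  refine le_trans (le_of_eq ?_) hlim
  rw [Finset.sum_div, ENNReal.ofReal_sum_of_nonneg (fun j _ =>
    div_nonneg (Finset.sum_nonneg fun y _ => by positivity) (by norm_num))]
  refine Finset.sum_congr rfl fun j _ => ?_
  congr 2
  refine Finset.sum_congr rfl fun y _ => ?_
  rw [sub_zero, sub_zero, max_eq_right (norm_nonneg _), max_eq_right (norm_nonneg _)]

variable (ν : Measure ℝ) [IsProbabilityMeasure ν]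

lemma En2_map_lf (L : ℕ) [NeZero L] (a : Zd d) :
    (lawZ ν d).map (fun (ω : Zd d → ℝ) (x : Tor d L) => ω (lf L a x)) = PV ν (Tor d L) := by
  symm
  refine Measure.pi_eq fun s hs => ?_
  rw [Measure.map_apply (measurable_lf L a) (MeasurableSet.univ_pi hs)]
  have : (fun (ω : Zd d → ℝ) (x : Tor d L) => ω (lf L a x)) ⁻¹' (Set.univ.pi s)
      = Set.pi ((univ.image (lf L a) : Finset (Zd d)) : Set (Zd d))
        (fun y => s (red L (y - a))) := by
    ext ω
    simp only [Set.mem_preimage, Set.mem_pi, Finset.coe_image, coe_univ,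
      Set.image_univ, Set.mem_range, forall_exists_index, forall_apply_eq_imp_iff, red_lf,
      Set.mem_univ, forall_true_left]
  rw [this, Measure.infinitePi_pi _ (fun y _ => hs _)]
  rw [Finset.prod_image fun x _ y _ h => lf_inj a h]
  refine Finset.prod_congr rfl fun x _ => ?_
  rw [red_lf]

lemma En2_measurable_inner (L : ℕ) [NeZero L] (hL : 3 ≤ L) {σ η : ℝ} (hη : 0 < η)
    (B : Finset (Zd d)) :
    Measurable fun p : (Tor d L → ℝ) × ℝ => ENNReal.ofReal (η * ∑ y ∈ B,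
        (η * nsq (sol (ND L (univ : Finset (Fin d))) ∅ (pot σ p.1) (en η p.2) (Pi.single 0 1)))
        * (η * nsq (sol (ND L (univ : Finset (Fin d))) ∅ (pot σ p.1) (en η p.2)
            (Pi.single (red L y) 1)))) := by
  have h1 : ∀ x : Tor d L, Measurable fun p : (Tor d L → ℝ) × ℝ =>
      nsq (sol (ND L (univ : Finset (Fin d))) ∅ (pot σ p.1) (en η p.2) (Pi.single x 1)) := by
    intro x
    exact ((continuous_joint_nsq (Λ := ∅) (σ := σ)
      (steps_ND hL (univ : Finset (Fin d))) hη (Pi.single x 1)).comp continuous_swap).measurable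
  refine Measurable.ennreal_ofReal (Measurable.const_mul ?_ _)
  refine Finset.measurable_sum _ fun y _ => ?_
  exact ((h1 0).const_mul _).mul ((h1 (red L y)).const_mul _)

lemma En2_measurable_Y (L : ℕ) [NeZero L] (hL : 3 ≤ L) (a : Zd d) (B : Finset (Zd d))
    {σ η E₁ E₂ : ℝ} (hη : 0 < η) :
    Measurable (En2_Y L a B σ η E₁ E₂) := by
  have h1 := (En2_measurable_inner (d := d) L hL (σ := σ) hη B).lintegral_prod_right'
    (ν := volume.restrict (Set.Icc E₁ E₂))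
  exact h1.comp (measurable_lf L a)

lemma En2_lint_Y (L : ℕ) [NeZero L] (hL : 3 ≤ L) (B : Finset (Zd d)) {σ η E₁ E₂ : ℝ}
    (hη : 0 < η) {c : ℝ}
    (h : ∫⁻ ξ, (∫⁻ E in Set.Icc E₁ E₂, ENNReal.ofReal (η * ∑ y ∈ B,
        (η * nsq (sol (ND L (univ : Finset (Fin d))) ∅ (pot σ ξ) (en η E) (Pi.single 0 1)))
        * (η * nsq (sol (ND L (univ : Finset (Fin d))) ∅ (pot σ ξ) (en η E)
            (Pi.single (red L y) 1))))) ∂(PV ν (Tor d L)) ≤ ENNReal.ofReal c) (a : Zd d) :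
    ∫⁻ ω, En2_Y L a B σ η E₁ E₂ ω ∂(lawZ ν d) ≤ ENNReal.ofReal c := by
  have h1 := (En2_measurable_inner (d := d) L hL (σ := σ) hη B).lintegral_prod_right'
    (ν := volume.restrict (Set.Icc E₁ E₂))
  have h2 := lintegral_map (μ := lawZ ν d) h1 (measurable_lf L a)
  rw [En2_map_lf] at h2
  rw [h2] at h
  exact h

lemma En2_measurable_YY (a : Zd d) (B : Finset (Zd d)) {σ η E₁ E₂ : ℝ} (hη : 0 < η) (L₀ : ℕ) :
    Measurable (En2_YY a B σ η E₁ E₂ L₀) :=
  Measurable.liminf fun k => En2_measurable_Y (k + (L₀ + 5)) (by omega) a B hη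

end En2

/-- From the tori to `ℤ^d`.  Generalization of Pool.Agent.H989.Inf, Inf2 (there: `B = {0}`, Gaussian
law, energies in `[-Aσ, Aσ]`, `η = q ^ 16`).

Proof. For an orthonormal family `u_j` of eigenfunctions with energies `E_j ∈ [E₁ + η, E₂ - η]`,
`y ∈ B`, the torus of side `L` based at `a` (`lf L a`, potential `ω (lf L a x)`): with
`g_x = (H_L - z)⁻¹ δ_x`, `x = red L y`, the identity `overlap` of Inf (for `δ_x` instead of `δ_0`) gives
`(E_j - z) ⟨rst u_j, g_x⟩ + ⟨dfc u_j, g_x⟩ = conj (u_j (a + y))` (`lf L a (red L y) = a + y` for `L`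
large); by Bessel (`ext0`, `inner_ext0`) `Im G(x,x) = η nsq g_x ≥ η ∑_j |⟨rst u_j, g_x⟩|²`, and for
`|E - E_j| ≤ η`, `nrm (dfc u_j) ≤ ε η`: `|⟨rst u_j, g_x⟩| ≥ (|u_j (a + y)| - ε) / (√2 η)`.  Since
`Im G(0,0) * Im G(x,x) ≥ ∑_j (jth term for 0) (jth term for x)`,
`η ∑_{y ∈ B} Im G(0,0) Im G(x,x) ≥ ∑_j 1(|E - E_j| ≤ η) ∑_{y ∈ B} (|u_j a| - ε)₊² (|u_j (a+y)| - ε)₊²
/ (4 η)`; integrate over `E ∈ [E₁, E₂]`: at least `½ ∑_j ∑_{y ∈ B} (…)₊² (…)₊²` (compare `nsq_ge`,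
`YL_ge`).  Let `L → ∞` (`exists_L₀`, `YY_ge`): the liminf `Y(ω)` over `L` of the left side is at least
`½ ∑_j ∑_{y ∈ B} |u_j a|² |u_j (a + y)|²`, and by Fatou and `map_lf` (general law) its mean is at most
`c`; put `GG = {Y ≤ √c}` (compare `YY`, `lint_YY`, `measurable_YY` and `GG_prob`, `GG_bound` of
Pool.Agent.H989.Fin). -/
theorem inf_volume {d : ℕ} (ν : Measure ℝ) [IsProbabilityMeasure ν] {σ η E₁ E₂ : ℝ} (hη : 0 < η)
    (B : Finset (Zd d)) {c : ℝ} (hc : 0 < c) (L₀ : ℕ)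
    (h : ∀ (L : ℕ) [NeZero L], L₀ ≤ L → 5 ≤ L →
      ∫⁻ ξ, (∫⁻ E in Set.Icc E₁ E₂, ENNReal.ofReal (η * ∑ y ∈ B,
        (η * nsq (sol (ND L (univ : Finset (Fin d))) ∅ (pot σ ξ) (en η E) (Pi.single 0 1)))
        * (η * nsq (sol (ND L (univ : Finset (Fin d))) ∅ (pot σ ξ) (en η E)
            (Pi.single (red L y) 1))))) ∂(PV ν (Tor d L)) ≤ ENNReal.ofReal c)
    (a : Zd d) :
    ∃ GG : Set (Zd d → ℝ), MeasurableSet GG ∧ 1 - √c ≤ (lawZ ν d).real GG ∧
      ∀ ω ∈ GG, ∀ (n : ℕ) (u : Fin n → L2 d) (E : Fin n → ℝ), Orthonormal ℂ u →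
        (∀ j x, anderson σ ω (u j) x = E j * u j x) →
        (∀ j, E₁ + η ≤ E j ∧ E j ≤ E₂ - η) →
        ∑ j, ∑ y ∈ B, ‖u j a‖ ^ 2 * ‖u j (a + y)‖ ^ 2 ≤ 2 * √c := by
  have hsc : 0 < √c := Real.sqrt_pos.mpr hc
  set GG : Set (Zd d → ℝ) := {ω | En2_YY a B σ η E₁ E₂ L₀ ω ≤ ENNReal.ofReal (√c)} with hGG
  have hYm : Measurable (En2_YY (d := d) a B σ η E₁ E₂ L₀) := En2_measurable_YY a B hη L₀
  have hm : MeasurableSet GG := measurableSet_le hYm measurable_const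
  have hl : ∫⁻ ω, En2_YY a B σ η E₁ E₂ L₀ ω ∂(lawZ ν d) ≤ ENNReal.ofReal c := by
    unfold En2_YY
    refine (lintegral_liminf_le fun k =>
      En2_measurable_Y (k + (L₀ + 5)) (by omega) a B hη).trans ?_
    refine Filter.liminf_le_of_le (by isBoundedDefault) fun b hb => ?_
    obtain ⟨k, hk⟩ := hb.exists
    exact hk.trans (En2_lint_Y ν (k + (L₀ + 5)) (by omega) B hη
      (h (k + (L₀ + 5)) (by omega) (by omega)) a)
  refine ⟨GG, hm, ?_, ?_⟩
  · have hc1 : (lawZ ν d) GGᶜ ≤ ENNReal.ofReal (√c) := by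
      have h1 : ENNReal.ofReal (√c) * (lawZ ν d) GGᶜ ≤ ENNReal.ofReal c := by
        refine le_trans ?_ hl
        refine le_trans ?_ (mul_meas_ge_le_lintegral hYm (ENNReal.ofReal (√c)))
        gcongr
        intro ω hω
        have : ¬ (En2_YY a B σ η E₁ E₂ L₀ ω ≤ ENNReal.ofReal (√c)) := hω
        exact (not_le.1 this).le
      have h2 : (lawZ ν d) GGᶜ ≤ ENNReal.ofReal c / ENNReal.ofReal (√c) := by
        rw [ENNReal.le_div_iff_mul_le]
        · rw [mul_comm]; exact h1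
        · left; simp [hc]
        · left; exact ENNReal.ofReal_ne_top
      refine h2.trans (le_of_eq ?_)
      rw [← ENNReal.ofReal_div_of_pos hsc]
      congr 1
      rw [div_eq_iff hsc.ne']
      exact (Real.mul_self_sqrt hc.le).symm
    have h3 : (lawZ ν d).real GGᶜ ≤ √c := by
      rw [Measure.real]
      exact ENNReal.toReal_le_of_le_ofReal hsc.le hc1
    have h4 := probReal_compl_eq_one_sub (μ := lawZ ν d) hm
    linarith
  · intro ω hω n u E hu hE1 hE2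
    have h1 := (En2_YY_ge hη L₀ u hu hE1 hE2 a B).trans hω
    rw [ENNReal.ofReal_le_ofReal_iff hsc.le] at h1
    linarith

end Pool.Agent.H989.SB
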