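import Pool.Agent.H989.SB.Ind
import Pool.Agent.H989.SB.En1
import Pool.Agent.H989.SB.En2

/-!
Assembly: the list of the numerical conditions, the torus, the lattice.
-/

set_option linter.unusedSectionVars false
set_option linter.unusedVariables false

open MeasureTheory ProbabilityTheory Finset

namespace Pool.Agent.H989.SB

/-- the bound of `one_site` -/
noncomputable def mm (C σ η : ℝ) : ℝ := C * (1 + Real.log (σ / η)) / σ

/-- numerical conditions for the first moments -/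
structure ParM (C : ℝ) (d : ℕ) (σ η Θ Ψ β : ℝ) (a ρ R : ℕ) : Prop where
  hd : 0 < d
  η0 : 0 < η
  η1 : η ≤ 1
  Kσ : 2 * (d : ℝ) ≤ σ
  C0 : 0 < C
  r1 : R + (a + ρ + 1) ≤ d
  Θ1 : 1 ≤ Θ
  ΘK : Θ ≤ 2 * d
  Ψ1 : 1 ≤ Ψ
  β1 : 1 ≤ β
  r2 : mm C σ η * (2 * ((a + ρ + 1 : ℕ) + R) * (Θ / (2 * d))⁻¹ + 2 * d * (Θ / (2 * d))) ≤ 1 / 2
  r3 : mm C σ η * (2 * R * β + 2 * ((a + ρ + 1 : ℕ) + R) + 2 * d * β⁻¹) ≤ 1 / 2
  r4 : 2 * d * (η⁻¹ * (√((d - (a + ρ + 1)).choose R))⁻¹ * β ^ R) ≤ (Θ / (2 * d)) ^ ρ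
  r5 : mm C σ η * (2 * ρ * (Θ / (2 * d))⁻¹ + 2 * d * (Θ / (2 * d))) + 1 ≤ Ψ

/-- numerical conditions for the windows and the stages -/
structure ParW (e δ ρ₀ : ℝ) (d : ℕ) (σ η θ W q M Y₀ ρb bm X : ℝ) (n N a ρ J J₁ Rb : ℕ) (h₀ s : ℤ) :
    Prop where
  HW : ∀ z : ℂ, z.im = η → WinP z (2 * d) θ W q M Y₀ n J h₀ s
  ρ₀0 : 0 < ρ₀
  hwin : (W + 8 * W ^ 2 * (2 * d * θ)) + q ^ (J + 1) ≤ σ * δ / 2
  ρb0 : 0 < ρb
  ρb1 : ρb ≤ 1 / 4
  bm1 : 1 ≤ bm
  bm2 : 2 * d * θ ≤ bm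
  bm3 : 2 * ((|e| + δ) * σ + η + W + 8 * W ^ 2 * (2 * d * θ)) ≤ bm
  Y₀0 : 0 ≤ Y₀
  hn : n = 2 * N + 2
  hN : 0 < N
  h1 : 0 ≤ h₀
  h2 : h₀ ≤ J
  h3 : |s - h₀| ≤ J
  hKa : 2 * (a : ℝ) < 2 * d
  ha : 1 + (J₁ + 2) * n ≤ a
  hρ : (J₁ + 2) * n + 2 ≤ ρ
  hRb : Rb ≤ ρ
  X0 : 0 < X
  X1 : X ≤ (M ^ J₁) ^ 2
  X2 : X ≤ Y₀ * Fn (2 * d) ρb bm n ^ J₁

/-- On the torus, for one energy.
Proof. `TypH` (with `mom_of`, `one_site` in the form `hone`), `StH`, `box_small`; `ch σ η E ξ` is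
`chi (NN d L) {0} (pot σ ξ) (en η E) 0`. -/
theorem par_torus {G C e δ ρ₀ κ p : ℝ} {d : ℕ} {σ η Θ Ψ β θ W q M Y₀ ρb bm X : ℝ}
    {n N a ρ R J J₁ Rb : ℕ} {h₀ s : ℤ} (PM : ParM C d σ η Θ Ψ β a ρ R)
    (PW : ParW e δ ρ₀ d σ η θ W q M Y₀ ρb bm X n N a ρ J J₁ Rb h₀ s) (hκ : 0 < κ)
    (tot : J₁ * errS G σ (2 * d) Θ Ψ θ W ρ₀ ρb bm q n N a ρ J J₁ s
      + (2 * d + 1) ^ Rb * Ψ / √(κ * X) ≤ p)
    {ν : Measure ℝ} (hν : Law ν G) (hG : 0 < G) (hlow : LowD ν e δ ρ₀) {E : ℝ}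
    (hE : |E - σ * e| ≤ σ * δ / 2) (hone : OneSite ν σ (en η E) (mm C σ η) (mm C σ η))
    {L : ℕ} [NeZero L] (hL : 5 ≤ L) (B : Finset (Tor d L)) (hBc : B.card ≤ (2 * d + 1) ^ Rb)
    (hB : ∀ x ∈ B, wt x ≤ Rb) :
    (PV ν (Tor d L)).real {ξ | κ * nsq (ch σ η E ξ) < ∑ x ∈ B, ‖ch σ η E ξ x‖ ^ 2} ≤ p := by
  have hpr := hν.prob
  have hW := PW.HW (en η E) rfl
  have hη := PM.η0
  have hd1 : (1 : ℝ) ≤ d := by exact_mod_cast PM.hd
  have hσ2 : 2 ≤ σ := by linarith [PM.Kσ]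
  have hσ0 : 0 < σ := by linarith
  have hK0 : (0 : ℝ) < 2 * d := by linarith
  have hmm : 0 < mm C σ η := by
    have h1 : 0 ≤ Real.log (σ / η) := by
      apply Real.log_nonneg
      rw [one_le_div hη]
      linarith [PM.η1]
    have := PM.C0
    unfold mm
    positivity
  have hmom : Mom d L ν σ (en η E) Ψ Θ (2 * d) a ρ :=
    mom_of hL ν (K := 2 * d) (β := β) (m := mm C σ η) (D := mm C σ η) (R := R) hη hone hmm hmm rfl PM.r1
      (div_pos (by linarith [PM.Θ1]) hK0) ((div_le_one hK0).2 PM.ΘK) PM.β1 PM.r2 PM.r3 PM.r4 PM.r5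
  have HT : TypH d L ν G σ (en η E) (2 * d) Θ Ψ θ W n a ρ :=
    { hL := hL, law := hν, hG := hG, hz := hη, hK := rfl, hd := PM.hd, hΨ := PM.Ψ1, hΘ := PM.Θ1, hΘK := PM.ΘK,
      hW := hW.cst.W1, hθ := hW.cst.θ0, hσ := PM.Kσ, hn := hW.n1, mom := hmom }
  have hδ : 0 ≤ σ * δ / 2 := (abs_nonneg _).trans hE
  have hEa : |E| ≤ (|e| + δ) * σ := by
    have h1 : |E| ≤ |E - σ * e| + |σ * e| := by
      have := abs_add_le (E - σ * e) (σ * e)
      simpa using this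
    have h2 : |σ * e| = σ * |e| := by rw [abs_mul, abs_of_pos hσ0]
    nlinarith
  have S : StH d L ν G σ (en η E) (2 * d) Θ Ψ θ W n a ρ e δ ρ₀ ρb bm q M Y₀ (Y₀ * Fn (2 * d) ρb bm n) J h₀ s :=
    { H := HT
      HW := hW
      lowd := hlow
      ρ₀0 := PW.ρ₀0
      hwin := by
        have h1 := PW.hwin
        have h2 : q ^ ((J : ℤ) + 1) = q ^ (J + 1) := by
          rw [← zpow_natCast]
          congr 1
        rw [h2, en_re]
        linarith
      ρb0 := PW.ρb0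
      ρb1 := PW.ρb1
      bm1 := PW.bm1
      bm2 := PW.bm2
      bm3 := by
        have h1 := PW.bm3
        rw [en_re, en_im]
        linarith
      hY := le_rfl }
  have hb := box_small S PW.Y₀0 PW.hn PW.hN PW.h1 PW.h2 PW.h3 PW.hKa PW.ha PW.hρ PW.X0 hκ PW.X1 PW.X2 B
    (fun x hx => (hB x hx).trans PW.hRb)
  refine le_trans hb (le_trans ?_ tot)
  have hΨ0 : 0 ≤ Ψ := by linarith [PM.Ψ1]
  have h3 : (B.card : ℝ) ≤ (2 * d + 1) ^ Rb := by exact_mod_cast hBc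
  gcongr

/-- the steps and zero -/
def Asm_step (d : ℕ) (o : Option (Fin d × Bool)) : Zd d :=
  match o with
  | none => 0
  | some (i, b) => if b then Pi.single i 1 else Pi.single i (-1)

/-- the points reached in `R` steps -/
def Asm_ball (d : ℕ) : ℕ → Finset (Zd d)
  | 0 => {0}
  | R + 1 => (Asm_ball d R ×ˢ (univ : Finset (Option (Fin d × Bool)))).image (fun p => p.1 + Asm_step d p.2)

theorem Asm_card (d : ℕ) : ∀ R : ℕ, (Asm_ball d R).card ≤ (2 * d + 1) ^ R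
  | 0 => by simp [Asm_ball]
  | R + 1 => by
    unfold Asm_ball
    refine Finset.card_image_le.trans ?_
    rw [Finset.card_product, Finset.card_univ, Fintype.card_option, Fintype.card_prod, Fintype.card_fin,
      Fintype.card_bool, pow_succ, mul_comm d 2]
    exact Nat.mul_le_mul_right _ (Asm_card d R)

theorem Asm_mem {d : ℕ} : ∀ (R : ℕ) (y : Zd d), ∑ i, |y i| ≤ (R : ℤ) → y ∈ Asm_ball d R
  | 0, y, h => by
    have h0 : ∀ i, |y i| = 0 := by
      intro i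
      have h1 : |y i| ≤ ∑ j, |y j| := Finset.single_le_sum (fun j _ => abs_nonneg (y j)) (mem_univ i)
      have h2 := abs_nonneg (y i)
      push_cast at h
      omega
    have h3 : y = 0 := by
      funext i
      simpa using h0 i
    rw [h3]
    simp [Asm_ball]
  | R + 1, y, h => by
    unfold Asm_ball
    rw [Finset.mem_image]
    by_cases h0 : y = 0
    · refine ⟨(0, none), ?_, by simp [Asm_step, h0]⟩
      rw [Finset.mem_product]
      exact ⟨Asm_mem R 0 (by simp), mem_univ _⟩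
    · obtain ⟨i, hi⟩ : ∃ i, y i ≠ 0 := by
        by_contra hc
        push Not at hc
        exact h0 (funext hc)
      have key : ∀ u : ℤ, |y i - u| = |y i| - 1 → y - Pi.single i u ∈ Asm_ball d R := by
        intro u hu
        apply Asm_mem R
        have e1 : ∑ j, |(y - Pi.single i u : Zd d) j| = ∑ j, |y j| - 1 := by
          rw [← Finset.add_sum_erase _ _ (mem_univ i), ← Finset.add_sum_erase _ _ (mem_univ i)]
          have e2 : ∑ j ∈ univ.erase i, |(y - Pi.single i u : Zd d) j| = ∑ j ∈ univ.erase i, |y j| := by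
            refine Finset.sum_congr rfl fun j hj => ?_
            have hji : j ≠ i := Finset.ne_of_mem_erase hj
            simp [hji]
          rw [e2]
          have e3 : (y - Pi.single i u : Zd d) i = y i - u := by simp
          rw [e3, hu]
          ring
        rw [e1]
        push_cast at h
        omega
      rcases lt_or_gt_of_ne hi with hneg | hpos
      · have hm := key (-1) (by rw [abs_of_neg hneg, abs_of_nonpos (by omega)]; ring)
        refine ⟨(y - Pi.single i (-1), some (i, false)), ?_, ?_⟩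
        · rw [Finset.mem_product]
          exact ⟨hm, mem_univ _⟩
        · simp [Asm_step]
      · have hm := key 1 (by rw [abs_of_pos hpos, abs_of_nonneg (by omega)])
        refine ⟨(y - Pi.single i 1, some (i, true)), ?_, ?_⟩
        · rw [Finset.mem_product]
          exact ⟨hm, mem_univ _⟩
        · simp [Asm_step]

/-- number of the points of the `ℓ¹` ball.
Proof. Induction on `R`: a point of the ball of radius `R + 1` is a point of the ball of radius `R`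
plus one of the `2 d + 1` vectors `0, ± e_i`. -/
theorem card_ball {d : ℕ} (R : ℕ) (B : Finset (Zd d)) (hB : ∀ y ∈ B, ∑ i, |y i| ≤ (R : ℤ)) :
    B.card ≤ (2 * d + 1) ^ R := by
  refine le_trans (Finset.card_le_card (t := Asm_ball d R) ?_) (Asm_card d R)
  intro y hy
  exact Asm_mem R y (hB y hy)

theorem Asm_red_inj {d R L : ℕ} [NeZero L] (hL : 2 * R + 1 ≤ L) (B : Finset (Zd d))
    (hB : ∀ y ∈ B, ∑ i, |y i| ≤ (R : ℤ)) : Set.InjOn (red (d := d) L) B := by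
  intro x hx y hy hxy
  have hi : ∀ (z : Zd d), z ∈ B → ∀ i, |z i| ≤ (R : ℤ) := fun z hz i =>
    (Finset.single_le_sum (fun j _ => abs_nonneg (z j)) (mem_univ i)).trans (hB z hz)
  funext i
  have h1 : ((x i : ℤ) : ZMod L) = ((y i : ℤ) : ZMod L) := congrFun hxy i
  rw [ZMod.intCast_eq_intCast_iff_dvd_sub] at h1
  have h2 := abs_le.1 (hi x hx i)
  have h3 := abs_le.1 (hi y hy i)
  have h4 : y i - x i = 0 := by
    apply Int.eq_zero_of_abs_lt_dvd h1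
    rw [abs_lt]
    constructor <;> omega
  omega

theorem Asm_wt_le {d R L : ℕ} [NeZero L] (y : Zd d) (hy : ∑ i, |y i| ≤ (R : ℤ)) :
    wt (red (d := d) L y) ≤ R := by
  unfold wt
  have h1 : ∑ i, ((red (d := d) L y) i).valMinAbs.natAbs ≤ ∑ i, (y i).natAbs := by
    refine Finset.sum_le_sum fun i _ => ?_
    apply ZMod.natAbs_min_of_le_div_two L
    · rw [ZMod.coe_valMinAbs]
      rfl
    · exact ZMod.natAbs_valMinAbs_le _
  have h2 : ((∑ i, (y i).natAbs : ℕ) : ℤ) = ∑ i, |y i| := by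
    push_cast
    rfl
  omega

/-- From the tori to the lattice.
Proof. `inf_volume` with `L₀ = 2 R + 1`: `red L` is injective on `B` for `L ≥ L₀`, `B' = B.image (red L)`
has `wt x ≤ R` (`|valMinAbs (y : ZMod L)| ≤ |y|`), and `torus_energy` for `B'`. -/
theorem inf_main {d : ℕ} {ν : Measure ℝ} {G : ℝ} (hν : Law ν G) {σ η E₁ E₂ κ p : ℝ}
    (hσ : 0 < σ) (hη : 0 < η) (hE : E₁ ≤ E₂) (hκ : 0 ≤ κ) (hp : 0 ≤ p) {R : ℕ} (B : Finset (Zd d))
    (hBR : ∀ y ∈ B, ∑ i, |y i| ≤ (R : ℤ))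
    (h : ∀ (L : ℕ) [NeZero L], 5 ≤ L → ∀ E ∈ Set.Icc E₁ E₂, ∀ B' : Finset (Tor d L),
      B'.card ≤ (2 * d + 1) ^ R → (∀ x ∈ B', wt x ≤ R) →
      (PV ν (Tor d L)).real {ξ | κ * nsq (ch σ η E ξ) < ∑ x ∈ B', ‖ch σ η E ξ x‖ ^ 2} ≤ p)
    {c : ℝ} (hc0 : 0 < c)
    (hc : (E₂ - E₁) * ((2 * d + 1) ^ R * (Real.pi * G) ^ 2 * η / σ ^ 2
      + Real.pi * G / σ * (κ + p)) ≤ c) (a : Zd d) :
    ∃ GG : Set (Zd d → ℝ), MeasurableSet GG ∧ 1 - √c ≤ (lawZ ν d).real GG ∧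
      ∀ ω ∈ GG, ∀ (n : ℕ) (u : Fin n → L2 d) (E : Fin n → ℝ), Orthonormal ℂ u →
        (∀ j x, anderson σ ω (u j) x = E j * u j x) →
        (∀ j, E₁ + η ≤ E j ∧ E j ≤ E₂ - η) →
        ∑ j, ∑ y ∈ B, ‖u j a‖ ^ 2 * ‖u j (a + y)‖ ^ 2 ≤ 2 * √c := by
  have hpr := hν.prob
  refine inf_volume ν hη B hc0 (2 * R + 1) ?_ a
  intro L _ hL0 hL5
  have hinj := Asm_red_inj (L := L) hL0 B hBR
  have hcard : (B.image (red L)).card ≤ (2 * d + 1) ^ R := Finset.card_image_le.trans (card_ball R B hBR)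
  have hwt : ∀ x ∈ B.image (red L), wt x ≤ R := by
    intro x hx
    rw [Finset.mem_image] at hx
    obtain ⟨y, hy, rfl⟩ := hx
    exact Asm_wt_le (L := L) y (hBR y hy)
  have h1 := torus_energy hL5 hν hσ hη hE hκ hp (B.image (red L))
    (fun E hE' => h L hL5 E hE' (B.image (red L)) hcard hwt)
  have h2 : ∀ (ξ : Tor d L → ℝ) (E : ℝ), (∑ y ∈ B,
        (η * nsq (sol (ND L (univ : Finset (Fin d))) ∅ (pot σ ξ) (en η E) (Pi.single 0 1)))
        * (η * nsq (sol (ND L (univ : Finset (Fin d))) ∅ (pot σ ξ) (en η E)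
            (Pi.single (red L y) 1)))) = ∑ x ∈ B.image (red L),
        (η * nsq (sol (ND L (univ : Finset (Fin d))) ∅ (pot σ ξ) (en η E) (Pi.single 0 1)))
        * (η * nsq (sol (ND L (univ : Finset (Fin d))) ∅ (pot σ ξ) (en η E) (Pi.single x 1))) := by
    intro ξ E
    rw [Finset.sum_image hinj]
  simp_rw [h2]
  refine h1.trans (ENNReal.ofReal_le_ofReal (le_trans ?_ hc))
  have h3 : ((B.image (red L)).card : ℝ) ≤ (2 * d + 1) ^ R := by exact_mod_cast hcard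
  have h4 : 0 ≤ E₂ - E₁ := sub_nonneg.2 hE
  gcongr

end Pool.Agent.H989.SB
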