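import Pool.Agent.H989.SB.En3
import Pool.Agent.H989.SB.En2

/-!
From the tori to `ℤ^d`: spectral weight of the eigenfunctions with more than `2 θ` in `a + B`.
-/

set_option linter.unusedSectionVars false
set_option linter.unusedVariables false

open MeasureTheory ProbabilityTheory Finset

namespace Pool.Agent.H989.SB

section En4
open Filter Topology
open scoped ComplexConjugate ENNReal

variable {d : ℕ}

/-- the integrand along the torus at `a` -/
lemma En4_eq (L : ℕ) [NeZero L] (a : Zd d) (σ η θ : ℝ) (B : Finset (Tor d L)) (ω : Zd d → ℝ) (E : ℝ) :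
    fE σ η θ B (fun x => ω (lf L a x)) E = ENNReal.ofReal ((η * nsq (En2_g L a σ η ω E 0))
      * (if θ < ∑ x ∈ B, η * (η * nsq (En2_g L a σ η ω E x)) then 1 else 0)) := by
  unfold fE En2_g
  congr 2

/-- the pointwise lower bound -/
lemma En4_ge (L : ℕ) [NeZero L] (hL : 3 ≤ L) {σ : ℝ} {ω : Zd d → ℝ} {ι : Type} [Fintype ι]
    (u : ι → L2 d) (hu : Orthonormal ℂ u)
    {Ej : ι → ℝ} (h : ∀ j x, anderson σ ω (u j) x = Ej j * u j x) (a : Zd d) {η ε θ : ℝ}
    (hη : 0 < η) (hε : 0 ≤ ε) (hθ : 0 < θ) (hD : ∀ j, nrm (dfc L a (u j)) ≤ ε * η)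
    (B : Finset (Tor d L))
    (hB : ∀ j, 2 * θ < ∑ x ∈ B, (max 0 (‖u j (lf L a x)‖ - ε)) ^ 2) (E : ℝ) :
    ∑ j, (if |E - Ej j| ≤ η then (max 0 (‖u j a‖ - ε)) ^ 2 / (2 * η) else 0)
      ≤ (η * nsq (En2_g L a σ η ω E 0))
      * (if θ < ∑ x ∈ B, η * (η * nsq (En2_g L a σ η ω E x)) then 1 else 0) := by
  have hn0 : 0 ≤ η * nsq (En2_g L a σ η ω E 0) := mul_nonneg hη.le (nsq_nonneg _)
  by_cases hex : ∃ j, |E - Ej j| ≤ η
  · obtain ⟨j₀, hj₀⟩ := hex
    have hpos : θ < ∑ x ∈ B, η * (η * nsq (En2_g L a σ η ω E x)) := by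
      have h1 : ∀ x ∈ B, (max 0 (‖u j₀ (lf L a x)‖ - ε)) ^ 2
          ≤ 2 * (η * (η * nsq (En2_g L a σ η ω E x))) := by
        intro x _
        have o1 := En2_one L hL (u j₀) (h j₀) a hη hε (hD j₀) E hj₀ x
        have o2 : ‖inner ℂ (u j₀) (ext0 a (En2_g L a σ η ω E x))‖ ^ 2
            ≤ nsq (En2_g L a σ η ω E x) :=
          (Finset.single_le_sum (f := fun j => ‖inner ℂ (u j) (ext0 a (En2_g L a σ η ω E x))‖ ^ 2)
            (fun j _ => sq_nonneg _) (mem_univ j₀)).trans (En2_bessel L u hu a _)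
        calc (max 0 (‖u j₀ (lf L a x)‖ - ε)) ^ 2
            ≤ 2 * η ^ 2 * ‖inner ℂ (u j₀) (ext0 a (En2_g L a σ η ω E x))‖ ^ 2 := o1
          _ ≤ 2 * η ^ 2 * nsq (En2_g L a σ η ω E x) :=
              mul_le_mul_of_nonneg_left o2 (by positivity)
          _ = _ := by ring
      have h2 := (hB j₀).trans_le (Finset.sum_le_sum h1)
      rw [← Finset.mul_sum] at h2
      linarith
    rw [if_pos hpos, mul_one]
    have h3 : ∀ j, (if |E - Ej j| ≤ η then (max 0 (‖u j a‖ - ε)) ^ 2 / (2 * η) else 0)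
        ≤ η * ‖inner ℂ (u j) (ext0 a (En2_g L a σ η ω E 0))‖ ^ 2 := by
      intro j
      split_ifs with hj
      · have o1 := En2_one L hL (u j) (h j) a hη hε (hD j) E hj 0
        rw [lf_zero] at o1
        rw [div_le_iff₀ (by positivity)]
        calc (max 0 (‖u j a‖ - ε)) ^ 2
            ≤ 2 * η ^ 2 * ‖inner ℂ (u j) (ext0 a (En2_g L a σ η ω E 0))‖ ^ 2 := o1
          _ = _ := by ring
      · positivity
    refine (Finset.sum_le_sum fun j _ => h3 j).trans ?_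
    rw [← Finset.mul_sum]
    exact mul_le_mul_of_nonneg_left (En2_bessel L u hu a _) hη.le
  · push Not at hex
    rw [Finset.sum_eq_zero fun j _ => if_neg (not_le.2 (hex j))]
    refine mul_nonneg hn0 ?_
    split_ifs <;> norm_num

/-- the energy integral -/
noncomputable def En4_Y (L : ℕ) [NeZero L] (a : Zd d) (B : Finset (Zd d)) (σ η θ E₁ E₂ : ℝ)
    (ω : Zd d → ℝ) : ℝ≥0∞ :=
  ∫⁻ E in Set.Icc E₁ E₂, fE σ η θ (B.image (red L)) (fun x => ω (lf L a x)) E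

lemma En4_Y_ge (L : ℕ) [NeZero L] (hL : 3 ≤ L) {σ η θ E₁ E₂ : ℝ} (hη : 0 < η) (hθ : 0 < θ)
    {ω : Zd d → ℝ} {ι : Type} [Fintype ι] (u : ι → L2 d) (hu : Orthonormal ℂ u)
    {Ej : ι → ℝ} (h : ∀ j x, anderson σ ω (u j) x = Ej j * u j x)
    (hE : ∀ j, E₁ + η ≤ Ej j ∧ Ej j ≤ E₂ - η) (a : Zd d) (B : Finset (Zd d)) {ε : ℝ}
    (hε : 0 ≤ ε) (hD : ∀ j, nrm (dfc L a (u j)) ≤ ε * η)
    (hB : ∀ j, 2 * θ < ∑ x ∈ B.image (red L), (max 0 (‖u j (lf L a x)‖ - ε)) ^ 2) :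
    ∑ j, ENNReal.ofReal ((max 0 (‖u j a‖ - ε)) ^ 2) ≤ En4_Y L a B σ η θ E₁ E₂ ω := by
  set S : ι → ℝ := fun j => (max 0 (‖u j a‖ - ε)) ^ 2 with hS
  have hS0 : ∀ j, 0 ≤ S j := fun j => by positivity
  have hsub : ∀ j, Set.Icc (Ej j - η) (Ej j + η) ⊆ Set.Icc E₁ E₂ := by
    intro j x hx
    have := hE j
    exact ⟨by linarith [hx.1], by linarith [hx.2]⟩
  calc ∑ j, ENNReal.ofReal (S j)
      = ∑ j, ∫⁻ E in Set.Icc E₁ E₂, (Set.Icc (Ej j - η) (Ej j + η)).indicator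
        (fun _ => ENNReal.ofReal (S j / (2 * η))) E := by
        refine Finset.sum_congr rfl fun j _ => ?_
        rw [lintegral_indicator measurableSet_Icc, Measure.restrict_restrict measurableSet_Icc,
          Set.inter_eq_left.2 (hsub j), setLIntegral_const, Real.volume_Icc,
          ← ENNReal.ofReal_mul (by have := hS0 j; positivity)]
        congr 1
        field_simp
        ring
    _ = ∫⁻ E in Set.Icc E₁ E₂, ∑ j, (Set.Icc (Ej j - η) (Ej j + η)).indicator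
        (fun _ => ENNReal.ofReal (S j / (2 * η))) E := by
        rw [lintegral_finsetSum]
        intro j _
        exact measurable_const.indicator measurableSet_Icc
    _ ≤ _ := by
        unfold En4_Y
        refine lintegral_mono fun E => ?_
        have key := En4_ge L hL u hu h a hη hε hθ hD (B.image (red L)) hB E
        rw [En4_eq]
        refine le_trans (le_of_eq ?_) (ENNReal.ofReal_le_ofReal key)
        rw [ENNReal.ofReal_sum_of_nonneg]
        · refine Finset.sum_congr rfl fun j _ => ?_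
          by_cases hj : |E - Ej j| ≤ η
          · rw [if_pos hj, Set.indicator_of_mem]
            have := abs_le.1 hj
            exact ⟨by linarith, by linarith⟩
          · rw [if_neg hj, Set.indicator_of_notMem]
            · simp
            · intro hm
              apply hj
              rw [abs_le]
              exact ⟨by linarith [hm.1], by linarith [hm.2]⟩
        · intro j _
          have := hS0 j
          split_ifs
          · exact div_nonneg this (by positivity)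
          · exact le_rfl

/-- the limit quantity -/
noncomputable def En4_YY (a : Zd d) (B : Finset (Zd d)) (σ η θ E₁ E₂ : ℝ) (L₀ : ℕ)
    (ω : Zd d → ℝ) : ℝ≥0∞ :=
  liminf (fun k : ℕ => En4_Y (k + (L₀ + 5)) a B σ η θ E₁ E₂ ω) atTop

lemma En4_YY_ge {σ η θ E₁ E₂ : ℝ} (hη : 0 < η) (hθ : 0 < θ) (L₀ : ℕ)
    {ω : Zd d → ℝ} {ι : Type} [Fintype ι] (u : ι → L2 d) (hu : Orthonormal ℂ u)
    {Ej : ι → ℝ} (h : ∀ j x, anderson σ ω (u j) x = Ej j * u j x)
    (hE : ∀ j, E₁ + η ≤ Ej j ∧ Ej j ≤ E₂ - η) (a : Zd d) (B : Finset (Zd d))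
    (hB : ∀ j, 2 * θ < ∑ y ∈ B, ‖u j (a + y)‖ ^ 2) :
    ENNReal.ofReal (∑ j, ‖u j a‖ ^ 2) ≤ En4_YY a B σ η θ E₁ E₂ L₀ ω := by
  obtain ⟨L₁, hL₁⟩ := exists_inside a (B.image fun y => a + y)
  have hcB : ∀ j, ∀ᶠ ε : ℝ in 𝓝[>] 0,
      2 * θ < ∑ y ∈ B, (max 0 (‖u j (a + y)‖ - ε)) ^ 2 := by
    intro j
    have hc : Continuous fun ε : ℝ => ∑ y ∈ B, (max 0 (‖u j (a + y)‖ - ε)) ^ 2 := by fun_prop
    have h0 : 2 * θ < (fun ε : ℝ => ∑ y ∈ B, (max 0 (‖u j (a + y)‖ - ε)) ^ 2) 0 := by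
      simp only [sub_zero]
      simpa [max_eq_right (norm_nonneg _)] using hB j
    exact ((hc.tendsto 0).eventually (lt_mem_nhds h0)).filter_mono nhdsWithin_le_nhds
  have hcB' : ∀ᶠ ε : ℝ in 𝓝[>] 0, ∀ j, 2 * θ < ∑ y ∈ B, (max 0 (‖u j (a + y)‖ - ε)) ^ 2 :=
    eventually_all.2 hcB
  have step : ∀ ε > 0, (∀ j, 2 * θ < ∑ y ∈ B, (max 0 (‖u j (a + y)‖ - ε)) ^ 2) →
      ∑ j, ENNReal.ofReal ((max 0 (‖u j a‖ - ε)) ^ 2) ≤ En4_YY a B σ η θ E₁ E₂ L₀ ω := by
    intro ε hε hεB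
    obtain ⟨L₂, hL₂⟩ := exists_L₀ u a (ε := ε * η) (by positivity)
    unfold En4_YY
    refine le_liminf_of_le (by isBoundedDefault) ?_
    filter_upwards [eventually_ge_atTop (L₁ + L₂)] with k hk
    have e1 : ∀ y ∈ B, lf (k + (L₀ + 5)) a (red (k + (L₀ + 5)) y) = a + y := by
      intro y hy
      have e2 : (a + y) - a = y := by abel
      have e3 := lf_red (L := k + (L₀ + 5)) (a := a) (y := a + y) (fun i => by
        have := hL₁ (k + (L₀ + 5)) (by omega) (a + y) (Finset.mem_image_of_mem _ hy) i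
        omega)
      rw [e2] at e3
      exact e3
    have hinj : Set.InjOn (red (d := d) (k + (L₀ + 5))) B := by
      intro y hy y' hy' he
      have e4 := e1 y hy
      have e5 := e1 y' hy'
      rw [he, e5] at e4
      exact (add_left_cancel e4).symm
    refine En4_Y_ge (k + (L₀ + 5)) (by omega) hη hθ u hu h hE a B hε.le
      (hL₂ (k + (L₀ + 5)) inferInstance (by omega)) (fun j => ?_)
    rw [Finset.sum_image hinj]
    refine (hεB j).trans_le (le_of_eq ?_)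
    refine Finset.sum_congr rfl fun y hy => ?_
    rw [e1 y hy]
  have hcont : Tendsto (fun ε : ℝ => ∑ j, ENNReal.ofReal ((max 0 (‖u j a‖ - ε)) ^ 2))
      (𝓝[>] 0) (𝓝 (∑ j, ENNReal.ofReal ((max 0 (‖u j a‖ - 0)) ^ 2))) := by
    refine tendsto_finsetSum _ fun j _ => ?_
    refine (ENNReal.continuous_ofReal.tendsto _).comp ?_
    have : Continuous fun ε : ℝ => (max 0 (‖u j a‖ - ε)) ^ 2 := by fun_prop
    exact (this.tendsto 0).mono_left nhdsWithin_le_nhds
  have hlim := le_of_tendsto hcont (by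
    filter_upwards [self_mem_nhdsWithin, hcB'] with ε hε hεB
    exact step ε hε hεB)
  refine le_trans (le_of_eq ?_) hlim
  rw [ENNReal.ofReal_sum_of_nonneg (fun j _ => by positivity)]
  refine Finset.sum_congr rfl fun j _ => ?_
  congr 1
  rw [sub_zero, max_eq_right (norm_nonneg _)]

variable (ν : Measure ℝ) [IsProbabilityMeasure ν]

lemma En4_measurable_Y (L : ℕ) [NeZero L] (hL : 3 ≤ L) (a : Zd d) (B : Finset (Zd d))
    {σ η θ E₁ E₂ : ℝ} (hη : 0 < η) :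
    Measurable (En4_Y L a B σ η θ E₁ E₂) := by
  have h1 := (measurable_fE (d := d) hL (σ := σ) hη θ (B.image (red L))).lintegral_prod_right'
    (ν := volume.restrict (Set.Icc E₁ E₂))
  exact h1.comp (measurable_lf L a)

lemma En4_lint_Y (L : ℕ) [NeZero L] (hL : 3 ≤ L) (B : Finset (Zd d)) {σ η θ E₁ E₂ : ℝ}
    (hη : 0 < η) {c : ℝ}
    (h : ∫⁻ ξ, (∫⁻ E in Set.Icc E₁ E₂, fE σ η θ (B.image (red L)) ξ E) ∂(PV ν (Tor d L))
      ≤ ENNReal.ofReal c) (a : Zd d) :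
    ∫⁻ ω, En4_Y L a B σ η θ E₁ E₂ ω ∂(lawZ ν d) ≤ ENNReal.ofReal c := by
  have h1 := (measurable_fE (d := d) hL (σ := σ) hη θ (B.image (red L))).lintegral_prod_right'
    (ν := volume.restrict (Set.Icc E₁ E₂))
  have h2 := lintegral_map (μ := lawZ ν d) h1 (measurable_lf L a)
  rw [En2_map_lf] at h2
  rw [h2] at h
  exact h

lemma En4_measurable_YY (a : Zd d) (B : Finset (Zd d)) {σ η θ E₁ E₂ : ℝ} (hη : 0 < η) (L₀ : ℕ) :
    Measurable (En4_YY a B σ η θ E₁ E₂ L₀) :=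
  Measurable.liminf fun k => En4_measurable_Y (k + (L₀ + 5)) (by omega) a B hη

end En4

/-- From the tori to `ℤ^d`. -/
theorem inf_volume3 {d : ℕ} (ν : Measure ℝ) [IsProbabilityMeasure ν] {σ η θ E₁ E₂ : ℝ}
    (hη : 0 < η) (hθ : 0 < θ) (B : Finset (Zd d)) {c : ℝ} (hc : 0 < c) (L₀ : ℕ)
    (h : ∀ (L : ℕ) [NeZero L], L₀ ≤ L → 5 ≤ L →
      ∫⁻ ξ, (∫⁻ E in Set.Icc E₁ E₂, fE σ η θ (B.image (red L)) ξ E) ∂(PV ν (Tor d L))
        ≤ ENNReal.ofReal c)
    (a : Zd d) :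
    ∃ GG : Set (Zd d → ℝ), MeasurableSet GG ∧ 1 - √c ≤ (lawZ ν d).real GG ∧
      ∀ ω ∈ GG, ∀ (ι : Type) [Fintype ι] (u : ι → L2 d) (E : ι → ℝ), Orthonormal ℂ u →
        (∀ j x, anderson σ ω (u j) x = E j * u j x) →
        (∀ j, E₁ + η ≤ E j ∧ E j ≤ E₂ - η) →
        (∀ j, 2 * θ < ∑ y ∈ B, ‖u j (a + y)‖ ^ 2) →
        ∑ j, ‖u j a‖ ^ 2 ≤ √c := by
  have hsc : 0 < √c := Real.sqrt_pos.mpr hc
  set GG : Set (Zd d → ℝ) := {ω | En4_YY a B σ η θ E₁ E₂ L₀ ω ≤ ENNReal.ofReal (√c)} with hGG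
  have hYm : Measurable (En4_YY (d := d) a B σ η θ E₁ E₂ L₀) := En4_measurable_YY a B hη L₀
  have hm : MeasurableSet GG := measurableSet_le hYm measurable_const
  have hl : ∫⁻ ω, En4_YY a B σ η θ E₁ E₂ L₀ ω ∂(lawZ ν d) ≤ ENNReal.ofReal c := by
    unfold En4_YY
    refine (lintegral_liminf_le fun k =>
      En4_measurable_Y (k + (L₀ + 5)) (by omega) a B hη).trans ?_
    refine Filter.liminf_le_of_le (by isBoundedDefault) fun b hb => ?_
    obtain ⟨k, hk⟩ := hb.exists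
    exact hk.trans (En4_lint_Y ν (k + (L₀ + 5)) (by omega) B hη
      (h (k + (L₀ + 5)) (by omega) (by omega)) a)
  refine ⟨GG, hm, ?_, ?_⟩
  · have hc1 : (lawZ ν d) GGᶜ ≤ ENNReal.ofReal (√c) := by
      have h1 : ENNReal.ofReal (√c) * (lawZ ν d) GGᶜ ≤ ENNReal.ofReal c := by
        refine le_trans ?_ hl
        refine le_trans ?_ (mul_meas_ge_le_lintegral hYm (ENNReal.ofReal (√c)))
        gcongr
        intro ω hω
        have : ¬ (En4_YY a B σ η θ E₁ E₂ L₀ ω ≤ ENNReal.ofReal (√c)) := hω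
        exact (not_le.1 this).le
      have h2 : (lawZ ν d) GGᶜ ≤ ENNReal.ofReal c / ENNReal.ofReal (√c) := by
        rw [ENNReal.le_div_iff_mul_le]
        · rw [mul_comm]; exact h1
        · left; simp [hc]
        · left; exact ENNReal.ofReal_ne_top
      refine h2.trans (le_of_eq ?_)
      rw [← ENNReal.ofReal_div_of_pos hsc]
      congr 1
      rw [div_eq_iff hsc.ne']
      exact (Real.mul_self_sqrt hc.le).symm
    have h3 : (lawZ ν d).real GGᶜ ≤ √c := by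
      rw [Measure.real]
      exact ENNReal.toReal_le_of_le_ofReal hsc.le hc1
    have h4 := probReal_compl_eq_one_sub (μ := lawZ ν d) hm
    linarith
  · intro ω hω ι _ u E hu hE1 hE2 hB
    have h1 := (En4_YY_ge hη hθ L₀ u hu hE1 hE2 a B hB).trans hω
    rwa [ENNReal.ofReal_le_ofReal_iff hsc.le] at h1

end Pool.Agent.H989.SB
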