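import Pool.Agent.H989.SB.Asm
import Pool.Agent.H989.SB.En4

/-!
Assembly: the torus with a small threshold, the lattice.
-/

set_option linter.unusedSectionVars false
set_option linter.unusedVariables false

open MeasureTheory ProbabilityTheory Finset

namespace Pool.Agent.H989.SB

/-- On the torus, for one energy, a set `B` with at most `D` points in the ball of radius `Rb`. -/
theorem par_torus3 {G C e δ ρ₀ κ p D : ℝ} {d : ℕ} {σ η Θ Ψ β θ W q M Y₀ ρb bm X : ℝ}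
    {n N a ρ R J J₁ Rb : ℕ} {h₀ s : ℤ} (PM : ParM C d σ η Θ Ψ β a ρ R)
    (PW : ParW e δ ρ₀ d σ η θ W q M Y₀ ρb bm X n N a ρ J J₁ Rb h₀ s) (hκ : 0 < κ)
    (tot : J₁ * errS G σ (2 * d) Θ Ψ θ W ρ₀ ρb bm q n N a ρ J J₁ s
      + D * Ψ / √(κ * X) ≤ p)
    {ν : Measure ℝ} (hν : Law ν G) (hG : 0 < G) (hlow : LowD ν e δ ρ₀) {E : ℝ}
    (hE : |E - σ * e| ≤ σ * δ / 2) (hone : OneSite ν σ (en η E) (mm C σ η) (mm C σ η))
    {L : ℕ} [NeZero L] (hL : 5 ≤ L) (B : Finset (Tor d L)) (hBc : (B.card : ℝ) ≤ D)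
    (hB : ∀ x ∈ B, wt x ≤ Rb) :
    (PV ν (Tor d L)).real {ξ | κ * nsq (ch σ η E ξ) < ∑ x ∈ B, ‖ch σ η E ξ x‖ ^ 2} ≤ p := by
  have hpr := hν.prob
  have hW := PW.HW (en η E) rfl
  have hη := PM.η0
  have hd1 : (1 : ℝ) ≤ d := by exact_mod_cast PM.hd
  have hσ2 : 2 ≤ σ := by linarith [PM.Kσ]
  have hσ0 : 0 < σ := by linarith
  have hK0 : (0 : ℝ) < 2 * d := by linarith
  have hmm : 0 < mm C σ η := by
    have h1 : 0 ≤ Real.log (σ / η) := by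
      apply Real.log_nonneg
      rw [one_le_div hη]
      linarith [PM.η1]
    have := PM.C0
    unfold mm
    positivity
  have hmom : Mom d L ν σ (en η E) Ψ Θ (2 * d) a ρ :=
    mom_of hL ν (K := 2 * d) (β := β) (m := mm C σ η) (D := mm C σ η) (R := R) hη hone hmm hmm rfl PM.r1
      (div_pos (by linarith [PM.Θ1]) hK0) ((div_le_one hK0).2 PM.ΘK) PM.β1 PM.r2 PM.r3 PM.r4 PM.r5
  have HT : TypH d L ν G σ (en η E) (2 * d) Θ Ψ θ W n a ρ :=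
    { hL := hL, law := hν, hG := hG, hz := hη, hK := rfl, hd := PM.hd, hΨ := PM.Ψ1, hΘ := PM.Θ1, hΘK := PM.ΘK,
      hW := hW.cst.W1, hθ := hW.cst.θ0, hσ := PM.Kσ, hn := hW.n1, mom := hmom }
  have hδ : 0 ≤ σ * δ / 2 := (abs_nonneg _).trans hE
  have hEa : |E| ≤ (|e| + δ) * σ := by
    have h1 : |E| ≤ |E - σ * e| + |σ * e| := by
      have := abs_add_le (E - σ * e) (σ * e)
      simpa using this
    have h2 : |σ * e| = σ * |e| := by rw [abs_mul, abs_of_pos hσ0]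
    nlinarith
  have S : StH d L ν G σ (en η E) (2 * d) Θ Ψ θ W n a ρ e δ ρ₀ ρb bm q M Y₀ (Y₀ * Fn (2 * d) ρb bm n) J h₀ s :=
    { H := HT
      HW := hW
      lowd := hlow
      ρ₀0 := PW.ρ₀0
      hwin := by
        have h1 := PW.hwin
        have h2 : q ^ ((J : ℤ) + 1) = q ^ (J + 1) := by
          rw [← zpow_natCast]
          congr 1
        rw [h2, en_re]
        linarith
      ρb0 := PW.ρb0
      ρb1 := PW.ρb1
      bm1 := PW.bm1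
      bm2 := PW.bm2
      bm3 := by
        have h1 := PW.bm3
        rw [en_re, en_im]
        linarith
      hY := le_rfl }
  have hb := box_small S PW.Y₀0 PW.hn PW.hN PW.h1 PW.h2 PW.h3 PW.hKa PW.ha PW.hρ PW.X0 hκ PW.X1 PW.X2 B
    (fun x hx => (hB x hx).trans PW.hRb)
  refine le_trans hb (le_trans ?_ tot)
  have hΨ0 : 0 ≤ Ψ := by linarith [PM.Ψ1]
  gcongr

/-- From the tori to the lattice. -/
theorem inf_main3 {d : ℕ} {ν : Measure ℝ} {G : ℝ} (hν : Law ν G) {σ η E₁ E₂ θ p : ℝ}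
    (hσ : 0 < σ) (hη : 0 < η) (hE : E₁ ≤ E₂) (hθ : 0 < θ) (hp : 0 ≤ p) {R : ℕ} (B : Finset (Zd d))
    (hBR : ∀ y ∈ B, ∑ i, |y i| ≤ (R : ℤ))
    (h : ∀ (L : ℕ) [NeZero L], 5 ≤ L → ∀ E ∈ Set.Icc E₁ E₂, ∀ B' : Finset (Tor d L),
      B'.card ≤ (2 * d + 1) ^ R → (∀ x ∈ B', wt x ≤ R) →
      (PV ν (Tor d L)).real {ξ | θ / 2 * nsq (ch σ η E ξ) < ∑ x ∈ B', ‖ch σ η E ξ x‖ ^ 2} ≤ p)
    {c : ℝ} (hc0 : 0 < c)
    (hc : (E₂ - E₁) * (Real.pi * G / σ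
      * (p + 2 * (2 * d + 1) ^ R * η * (Real.pi * G / σ) / θ)) ≤ c) (a : Zd d) :
    ∃ GG : Set (Zd d → ℝ), MeasurableSet GG ∧ 1 - √c ≤ (lawZ ν d).real GG ∧
      ∀ ω ∈ GG, ∀ (ι : Type) [Fintype ι] (u : ι → L2 d) (E : ι → ℝ), Orthonormal ℂ u →
        (∀ j x, anderson σ ω (u j) x = E j * u j x) →
        (∀ j, E₁ + η ≤ E j ∧ E j ≤ E₂ - η) →
        (∀ j, 2 * θ < ∑ y ∈ B, ‖u j (a + y)‖ ^ 2) →
        ∑ j, ‖u j a‖ ^ 2 ≤ √c := by
  have hpr := hν.prob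
  refine inf_volume3 ν hη hθ B hc0 (2 * R + 1) ?_ a
  intro L _ hL0 hL5
  have hcard : (B.image (red L)).card ≤ (2 * d + 1) ^ R := Finset.card_image_le.trans (card_ball R B hBR)
  have hwt : ∀ x ∈ B.image (red L), wt x ≤ R := by
    intro x hx
    rw [Finset.mem_image] at hx
    obtain ⟨y, hy, rfl⟩ := hx
    exact Asm_wt_le (L := L) y (hBR y hy)
  have h1 := torus_energy3 hL5 hν hσ hη hE hθ hp (B.image (red L))
    (fun E hE' => h L hL5 E hE' (B.image (red L)) hcard hwt)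
  refine h1.trans (ENNReal.ofReal_le_ofReal (le_trans ?_ hc))
  have h3 : ((B.image (red L)).card : ℝ) ≤ (2 * d + 1) ^ R := by exact_mod_cast hcard
  have h4 : 0 ≤ E₂ - E₁ := sub_nonneg.2 hE
  have hG := en1_G_nonneg hν
  have hpi := Real.pi_pos
  gcongr

end Pool.Agent.H989.SB
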