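import Pool.Agent.H989.SB.Core

/-!
Geometry of the paths on the torus.
-/

set_option linter.unusedSectionVars false
set_option linter.unusedVariables false

open MeasureTheory ProbabilityTheory Finset

namespace Pool.Agent.H989.SB

variable {d L : ℕ} [NeZero L] {A : Finset (Fin d)} {o : Tor d L} {Λ : Finset (Tor d L)}
  {γ : List (St d)}

theorem dst_dsx (Λ : Finset (Tor d L)) (o : Tor d L) : Dst (dsx Λ o) := by
  refine ⟨fun x => ?_, fun x y hxy => ?_⟩
  · unfold dsx
    rw [if_pos rfl]
  · unfold dsx
    rw [if_neg hxy]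
    exact le_max_left _ _

/-- case distinction: `y = o`, `y ∈ Λ`, `y ∉ Λ` (then `hgt y = pos y`), and `pos x ≤ hgt x` -/
theorem hgt_le (Λ : Finset (Tor d L)) (o x y : Tor d L) :
    hgt Λ o y ≤ hgt Λ o x + dsx Λ o y x := by
  by_cases hyx : y = x
  · rw [hyx]
    exact Nat.le_add_right _ _
  · have hds : dsx Λ o y x = max 1 (pos Λ o y - pos Λ o x).natAbs := by
      unfold dsx
      rw [if_neg hyx]
    rw [hds]
    have h1 : 1 ≤ max 1 (pos Λ o y - pos Λ o x).natAbs := le_max_left _ _
    have h2 : (pos Λ o y - pos Λ o x).natAbs ≤ max 1 (pos Λ o y - pos Λ o x).natAbs :=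
      le_max_right _ _
    have hx : pos Λ o x ≤ (hgt Λ o x : ℤ) := by
      unfold pos hgt
      split_ifs <;> simp
    by_cases hy0 : y = o
    · have : hgt Λ o y = 0 := by
        unfold hgt
        rw [if_pos hy0]
      omega
    · by_cases hyΛ : y ∈ Λ
      · have : hgt Λ o y = 1 := by
          unfold hgt
          rw [if_neg hy0, if_pos hyΛ]
        omega
      · have e1 : hgt Λ o y = wt (y - o) := by
          unfold hgt
          rw [if_neg hy0, if_neg hyΛ]
        have e2 : pos Λ o y = (wt (y - o) : ℤ) := by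
          unfold pos
          rw [if_neg hy0, if_neg hyΛ]
        rw [e1]
        rw [e2] at h2
        rw [e2]
        omega

theorem val_nil (A : Finset (Fin d)) : Val A [] := by
  refine ⟨List.nodup_nil, fun s hs => ?_⟩
  exact absurd hs (List.not_mem_nil)

theorem Val.take (h : Val A γ) (k : ℕ) : Val A (γ.take k) := by
  refine ⟨?_, fun s hs => h.2 s (List.mem_of_mem_take hs)⟩
  rw [List.map_take]
  exact h.1.sublist (List.take_sublist _ _)

/-- a step outside `A`, then a path outside `A` and this step -/
theorem val_cons {s : St d} : Val A (s :: γ) ↔ s.1 ∉ A ∧ Val (insert s.1 A) γ := by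
  unfold Val
  rw [List.map_cons, List.nodup_cons]
  constructor
  · rintro ⟨⟨h1, h2⟩, h3⟩
    refine ⟨h3 s (List.mem_cons_self), h2, fun t ht => ?_⟩
    rw [Finset.mem_insert, not_or]
    refine ⟨fun he => h1 ?_, h3 t (List.mem_cons_of_mem _ ht)⟩
    rw [← he]
    exact List.mem_map_of_mem ht
  · rintro ⟨h1, h2, h3⟩
    refine ⟨⟨fun hm => ?_, h2⟩, fun t ht => ?_⟩
    · obtain ⟨t, ht, hts⟩ := List.mem_map.1 hm
      have := h3 t ht
      rw [Finset.mem_insert, not_or] at this
      exact this.1 hts
    · rcases List.mem_cons.1 ht with ht | ht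
      · rw [ht]
        exact h1
      · have := h3 t ht
        rw [Finset.mem_insert, not_or] at this
        exact this.2

theorem Val.cons (h : Val A γ) : Cons γ.toFinset := by
  intro s hs t ht hst
  rw [List.mem_toFinset] at hs ht
  exact List.inj_on_of_nodup_map h.1 hs ht hst

theorem Val.off (h : Val A γ) : Off A γ.toFinset := by
  intro s hs
  rw [List.mem_toFinset] at hs
  exact h.2 s hs

theorem Val.card (h : Val A γ) : γ.toFinset.card = γ.length := by
  exact List.toFinset_card_of_nodup (List.Nodup.of_map _ h.1)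

theorem ept_eq_vec (h : Val A γ) : ept o γ = o + vec γ.toFinset := by
  unfold ept vec
  rw [List.sum_toFinset _ (List.Nodup.of_map _ h.1)]

theorem ept_nil : ept o [] = o := by
  unfold ept
  rw [List.map_nil, List.sum_nil, add_zero]

theorem ept_cons (s : St d) : ept o (s :: γ) = ept (o + st s) γ := by
  unfold ept
  rw [List.map_cons, List.sum_cons, add_assoc]

theorem length_sites (o : Tor d L) (γ : List (St d)) : (sites o γ).length = γ.length := by
  induction γ generalizing o with
  | nil => rfl
  | cons s γ ih =>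
    show (_ :: sites (o + st s) γ).length = _
    rw [List.length_cons, List.length_cons, ih]

/-- the `k`th site (counted from `0`) is the end point of the first `k + 1` steps -/
theorem sites_get (o : Tor d L) (γ : List (St d)) (k : ℕ) (hk : k < γ.length) :
    (sites o γ)[k]? = some (ept o (γ.take (k + 1))) := by
  induction γ generalizing o k with
  | nil => exact absurd hk (Nat.not_lt_zero k)
  | cons s γ ih =>
    show ((o + st s) :: sites (o + st s) γ)[k]? = _
    cases k with
    | zero =>
      rw [List.getElem?_cons_zero, List.take_succ_cons, List.take_zero, ept_cons, ept_nil]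
    | succ k =>
      rw [List.length_cons] at hk
      rw [List.getElem?_cons_succ, ih (o + st s) k (by omega), List.take_succ_cons, ept_cons]

theorem mem_sites {x : Tor d L} :
    x ∈ sites o γ ↔ ∃ k, k < γ.length ∧ x = ept o (γ.take (k + 1)) := by
  rw [List.mem_iff_getElem?]
  constructor
  · rintro ⟨k, hk⟩
    have hlt : k < γ.length := by
      obtain ⟨h, _⟩ := List.getElem?_eq_some_iff.1 hk
      rw [length_sites] at h
      exact h
    refine ⟨k, hlt, ?_⟩
    rw [sites_get o γ k hlt] at hk
    exact (Option.some.inj hk).symm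
  · rintro ⟨k, hk, rfl⟩
    exact ⟨k, sites_get o γ k hk⟩

theorem sites_append (o : Tor d L) (γ γ' : List (St d)) :
    sites o (γ ++ γ') = sites o γ ++ sites (ept o γ) γ' := by
  induction γ generalizing o with
  | nil =>
    rw [List.nil_append, ept_nil]
    rfl
  | cons s γ ih =>
    rw [List.cons_append, ept_cons]
    show (o + st s) :: sites (o + st s) (γ ++ γ') = ((o + st s) :: sites (o + st s) γ) ++ _
    rw [ih (o + st s), List.cons_append]

theorem sites_take (o : Tor d L) (γ : List (St d)) (k : ℕ) :
    sites o (γ.take k) = (sites o γ).take k := by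
  induction γ generalizing o k with
  | nil =>
    rw [List.take_nil]
    show ([] : List (Tor d L)) = List.take k []
    rw [List.take_nil]
  | cons s γ ih =>
    cases k with
    | zero =>
      rw [List.take_zero, List.take_zero]
      rfl
    | succ k =>
      rw [List.take_succ_cons]
      show (o + st s) :: sites (o + st s) (γ.take k) =
        ((o + st s) :: sites (o + st s) γ).take (k + 1)
      rw [List.take_succ_cons, ih (o + st s) k]

theorem ept_mem_sites (h : γ ≠ []) : ept o γ ∈ sites o γ := by
  rw [mem_sites]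
  have h1 : 0 < γ.length := List.length_pos_iff.2 h
  refine ⟨γ.length - 1, by omega, ?_⟩
  have h2 : γ.length - 1 + 1 = γ.length := by omega
  rw [h2, List.take_length]

/-- distance to a site of `Λ` (`wt_vec_sub` with one of the sets empty) -/
theorem wt_ept_sub (hL : 5 ≤ L) (hΛ : Around A o Λ) {u : List (St d)} (hu : Val A u)
    {x : Tor d L} (hx : x ∈ Λ) : wt (ept o u - x) = wt (x - o) + u.length := by
  have ha : SupA A (o - x) := by
    intro i hi
    have h1 := hΛ.2 x hx i hi
    rw [Pi.sub_apply] at h1 ⊢
    rw [sub_eq_zero] at h1 ⊢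
    exact h1.symm
  have h1 := wt_vec_sub (T := (∅ : Finset (St d))) hL ha hu.cons
    (fun s hs => absurd hs (Finset.notMem_empty s)) hu.off
    (fun s hs => absurd hs (Finset.notMem_empty s))
  have h2 : (vec (∅ : Finset (St d)) : Tor d L) = 0 := by
    unfold vec
    rw [Finset.sum_empty]
  rw [h2, sub_zero, Finset.sdiff_empty, Finset.empty_sdiff, Finset.card_empty, add_zero,
    hu.card] at h1
  have h3 : ept o u - x = o - x + vec u.toFinset := by
    rw [ept_eq_vec hu]
    abel
  rw [h3, h1, ← neg_sub x o, wt_neg]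

/-- distance of two end points (`wt_vec_sub`) -/
theorem wt_ept_ept (hL : 5 ≤ L) {u u' : List (St d)} (hu : Val A u) (hu' : Val A u') :
    wt (ept o u - ept o u') = (u.toFinset \ u'.toFinset).card + (u'.toFinset \ u.toFinset).card := by
  have h1 := wt_vec_sub (A := A) (a := (0 : Tor d L)) hL (fun _ _ => rfl) hu.cons hu'.cons
    hu.off hu'.off
  rw [wt_zero, zero_add, zero_add] at h1
  have h3 : ept o u - ept o u' = (vec u.toFinset : Tor d L) - vec u'.toFinset := by
    rw [ept_eq_vec hu, ept_eq_vec hu']
    abel
  rw [h3, h1]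

theorem wt_ept (hL : 5 ≤ L) {u : List (St d)} (hu : Val A u) : wt (ept o u - o) = u.length := by
  have h1 := wt_ept_ept (o := o) hL hu (val_nil A)
  rw [ept_nil, List.toFinset_nil, Finset.sdiff_empty, Finset.empty_sdiff, Finset.card_empty,
    add_zero, hu.card] at h1
  exact h1

theorem ept_notMem (hL : 5 ≤ L) (hΛ : Around A o Λ) {u : List (St d)} (hu : Val A u)
    (h0 : u ≠ []) : ept o u ∉ Λ := by
  intro hmem
  have h1 := wt_ept_sub hL hΛ hu hmem
  rw [sub_self, wt_zero] at h1
  have h2 : 0 < u.length := List.length_pos_iff.2 h0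
  omega

theorem sites_notMem (hL : 5 ≤ L) (hΛ : Around A o Λ) (hγ : Val A γ) {x : Tor d L}
    (hx : x ∈ sites o γ) : x ∉ Λ := by
  obtain ⟨k, hk, rfl⟩ := mem_sites.1 hx
  apply ept_notMem hL hΛ (hγ.take (k + 1))
  intro h
  have h1 := congrArg List.length h
  rw [List.length_take, List.length_nil] at h1
  omega

theorem sites_nodup (hL : 5 ≤ L) (hγ : Val A γ) : (sites o γ).Nodup := by
  rw [List.nodup_iff_getElem?_ne_getElem?]
  intro i j hij hj h
  rw [length_sites] at hj
  rw [sites_get o γ i (by omega), sites_get o γ j hj] at h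
  have h1 : wt (ept o (γ.take (i + 1)) - o) = wt (ept o (γ.take (j + 1)) - o) := by
    rw [Option.some.inj h]
  rw [wt_ept hL (hγ.take _), wt_ept hL (hγ.take _), List.length_take, List.length_take] at h1
  omega

theorem wt_site (hL : 5 ≤ L) (hγ : Val A γ) {k : ℕ} {x : Tor d L}
    (hx : (sites o γ)[k]? = some x) : wt (x - o) = k + 1 := by
  have hlt : k < γ.length := by
    obtain ⟨h, _⟩ := List.getElem?_eq_some_iff.1 hx
    rw [length_sites] at h
    exact h
  rw [sites_get o γ k hlt] at hx
  rw [← Option.some.inj hx, wt_ept hL (hγ.take _), List.length_take]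
  omega

theorem hgt_site (hL : 5 ≤ L) (hΛ : Around A o Λ) (hγ : Val A γ) {k : ℕ} {x : Tor d L}
    (hx : (sites o γ)[k]? = some x) : hgt Λ o x = k + 1 := by
  have h1 := wt_site hL hγ hx
  have h2 : x ∉ Λ := sites_notMem hL hΛ hγ (List.mem_of_getElem? hx)
  have h3 : x ≠ o := by
    intro h
    rw [h, sub_self, wt_zero] at h1
    omega
  unfold hgt
  rw [if_neg h3, if_neg h2, h1]

/-- sums of steps are supported in the coordinates used -/
theorem path_sup (u : List (St d)) {i : Fin d} (hi : i ∉ dirs u) :
    ((u.map st).sum : Tor d L) i = 0 := by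
  induction u with
  | nil =>
    rw [List.map_nil, List.sum_nil]
    rfl
  | cons s u ih =>
    unfold dirs at hi ih
    rw [List.map_cons, List.toFinset_cons, Finset.mem_insert, not_or] at hi
    rw [List.map_cons, List.sum_cons, Pi.add_apply, ih hi.2, add_zero]
    unfold st
    split_ifs
    · rw [ei_apply, if_neg hi.1]
    · rw [Pi.neg_apply, ei_apply, if_neg hi.1, neg_zero]

theorem path_bx_zero (hL : 5 ≤ L) {x y : Tor d L} (h : 2 ≤ wt (x - y)) :
    bx (NN d L) x y = 0 := by
  unfold bx
  rw [if_neg]
  intro hm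
  have h1 := (wt_eq_one hL).2 hm
  omega

theorem path_bx_one (hL : 5 ≤ L) {x y : Tor d L} (h : wt (x - y) = 1) :
    bx (NN d L) x y = 1 := by
  unfold bx
  rw [if_pos]
  exact (wt_eq_one hL).1 h

/-- the main step for `isPath_sites` -/
theorem path_gen (hL : 5 ≤ L) (hΛ : Around A o Λ) (γ₂ : List (St d)) : ∀ γ₁ : List (St d),
    Val A (γ₁ ++ γ₂) →
    IsPath (NN d L) (dsx Λ o) (full Λ (sites o γ₁)) (ept o γ₁) (sites (ept o γ₁) γ₂) := by
  induction γ₂ with
  | nil => intro γ₁ _; trivial
  | cons s γ₃ ih =>
    intro γ₁ hv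
    have hv' : Val A ((γ₁ ++ [s]) ++ γ₃) := by
      rw [List.append_assoc, List.singleton_append]
      exact hv
    have hv1 : Val A γ₁ := by
      have h := hv.take γ₁.length
      rw [List.take_left] at h
      exact h
    have hv2 : Val A (γ₁ ++ [s]) := by
      have h := hv'.take (γ₁ ++ [s]).length
      rw [List.take_left] at h
      exact h
    have hx : ept o γ₁ + st s = ept o (γ₁ ++ [s]) := by
      unfold ept
      rw [List.map_append, List.sum_append, List.map_singleton, List.sum_singleton, add_assoc]
    have hne : γ₁ ++ [s] ≠ [] := by simp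
    have hlen : (γ₁ ++ [s]).length = γ₁.length + 1 := by
      rw [List.length_append, List.length_singleton]
    have hxo : wt (ept o (γ₁ ++ [s]) - o : Tor d L) = γ₁.length + 1 := by
      rw [wt_ept hL hv2, hlen]
    have hmo : wt (ept o γ₁ - o : Tor d L) = γ₁.length := wt_ept hL hv1
    have hxΛ : ept o (γ₁ ++ [s]) ∉ Λ := ept_notMem hL hΛ hv2 hne
    have hxne : ept o (γ₁ ++ [s]) ≠ o := by
      intro he
      rw [he, sub_self, wt_zero] at hxo
      omega
    have hposx : pos Λ o (ept o (γ₁ ++ [s])) = (γ₁.length : ℤ) + 1 := by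
      unfold pos
      rw [if_neg hxne, if_neg hxΛ, hxo]
      push_cast
      ring
    have hposm : pos Λ o (ept o γ₁) = (γ₁.length : ℤ) := by
      by_cases h0 : γ₁ = []
      · rw [h0, ept_nil]
        unfold pos
        rw [if_pos rfl]
        rfl
      · have h1 : ept o γ₁ ∉ Λ := ept_notMem hL hΛ hv1 h0
        have h2 : ept o γ₁ ≠ o := by
          intro he
          rw [he, sub_self, wt_zero] at hmo
          have := List.length_pos_iff.2 h0
          omega
        unfold pos
        rw [if_neg h2, if_neg h1, hmo]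
    -- the sites of `γ₁`
    have hsite : ∀ y ∈ sites o γ₁, y ≠ ept o γ₁ → ∃ k, k + 1 < γ₁.length ∧
        y = ept o (γ₁.take (k + 1)) := by
      intro y hy hyne
      obtain ⟨k, hk, rfl⟩ := mem_sites.1 hy
      refine ⟨k, ?_, rfl⟩
      by_contra hc
      apply hyne
      rw [List.take_of_length_le (by omega)]
    have hpos : ∀ y ∈ full Λ (sites o γ₁), y ≠ ept o γ₁ → pos Λ o y < (γ₁.length : ℤ) := by
      intro y hy hyne
      by_cases hyo : y = o
      · unfold pos
        rw [if_pos hyo]
        have h0 : γ₁ ≠ [] := by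
          intro h0
          apply hyne
          rw [h0, ept_nil, hyo]
        have := List.length_pos_iff.2 h0
        omega
      · by_cases hyΛ : y ∈ Λ
        · unfold pos
          rw [if_neg hyo, if_pos hyΛ]
          omega
        · rcases (mem_full _ _ _).1 hy with hy | hy
          · exact absurd hy hyΛ
          · obtain ⟨k, hk, rfl⟩ := hsite y hy hyne
            unfold pos
            rw [if_neg hyo, if_neg hyΛ, wt_ept hL (hv1.take _), List.length_take]
            have : min (k + 1) γ₁.length = k + 1 := by omega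
            rw [this]
            exact_mod_cast hk
    have hxfull : ept o (γ₁ ++ [s]) ∉ full Λ (sites o γ₁) := by
      intro hm
      rcases (mem_full _ _ _).1 hm with h | h
      · exact hxΛ h
      · obtain ⟨k, hk, he⟩ := mem_sites.1 h
        have h1 := hxo
        rw [he, wt_ept hL (hv1.take _), List.length_take] at h1
        omega
    have hone : wt (ept o γ₁ - ept o (γ₁ ++ [s]) : Tor d L) = 1 := by
      rw [← hx, wt_eq_one hL]
      have e : ept o γ₁ - (ept o γ₁ + st s) = -(st s : Tor d L) := by abel
      rw [e]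
      exact (steps_ND (by omega) _).neg _ (st_mem hL s)
    show IsPath (NN d L) (dsx Λ o) (full Λ (sites o γ₁)) (ept o γ₁)
      ((ept o γ₁ + st s) :: sites (ept o γ₁ + st s) γ₃)
    rw [hx]
    have hfull : insert (ept o (γ₁ ++ [s])) (full Λ (sites o γ₁)) =
        full Λ (sites o (γ₁ ++ [s])) := by
      ext y
      rw [Finset.mem_insert, mem_full, mem_full, sites_append, List.mem_append]
      have e : sites (ept o γ₁) [s] = [ept o (γ₁ ++ [s])] := by
        show [ept o γ₁ + st s] = _
        rw [hx]
      rw [e, List.mem_singleton]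
      tauto
    have hmem : ept o γ₁ ≠ ept o (γ₁ ++ [s]) := by
      intro he
      rw [he, sub_self, wt_zero] at hone
      omega
    refine ⟨hxfull, path_bx_one hL hone, ?_, ?_, ?_, ?_⟩
    · unfold dsx
      rw [if_neg hmem, hposx, hposm]
      have e : (γ₁.length : ℤ) - ((γ₁.length : ℤ) + 1) = -1 := by ring
      rw [e]
      rfl
    · intro y hy
      have hyx : y ≠ ept o (γ₁ ++ [s]) := fun h => hxfull (h ▸ hy)
      by_cases hym : y = ept o γ₁
      · rw [hym]
        unfold dsx
        rw [if_neg hmem, if_pos rfl, hposx, hposm]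
        have e : (γ₁.length : ℤ) - ((γ₁.length : ℤ) + 1) = -1 := by ring
        rw [e]
        rfl
      · have hp := hpos y hy hym
        unfold dsx
        rw [if_neg hyx, if_neg hym, hposx, hposm]
        omega
    · intro y hy hym
      apply path_bx_zero hL
      rcases (mem_full _ _ _).1 hy with hyΛ | hys
      · have h1 := wt_ept_sub hL hΛ hv2 hyΛ
        rw [← neg_sub y, wt_neg, hlen] at h1
        rw [h1]
        by_cases hyo : y = o
        · have h0 : γ₁ ≠ [] := by
            intro h0
            apply hym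
            rw [h0, ept_nil, hyo]
          have := List.length_pos_iff.2 h0
          omega
        · have h2 : wt (y - o) ≠ 0 := by
            intro h2
            rw [wt_eq_zero, sub_eq_zero] at h2
            exact hyo h2
          omega
      · obtain ⟨k, hk, rfl⟩ := hsite y hys hym
        rw [wt_ept_ept hL (hv1.take _) hv2]
        have h1 := Finset.le_card_sdiff (γ₁.take (k + 1)).toFinset (γ₁ ++ [s]).toFinset
        rw [(hv1.take _).card, hv2.card, hlen, List.length_take] at h1
        omega
    · rw [hfull]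
      exact ih (γ₁ ++ [s]) hv'

theorem around_full (hL : 5 ≤ L) (hΛ : Around A o Λ) (hγ : Val A γ) :
    Around (A ∪ dirs γ) o (full Λ (sites o γ)) := by
  refine ⟨(mem_full _ _ _).2 (Or.inl hΛ.1), ?_⟩
  intro y hy i hi
  rw [Finset.mem_union, not_or] at hi
  rcases (mem_full _ _ _).1 hy with hy | hy
  · exact hΛ.2 y hy i hi.1
  · obtain ⟨k, hk, rfl⟩ := mem_sites.1 hy
    have h1 : ept o (γ.take (k + 1)) - o = ((γ.take (k + 1)).map st).sum := by
      unfold ept
      abel
    rw [h1]
    apply path_sup
    intro hm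
    apply hi.2
    unfold dirs at hm ⊢
    rw [List.mem_toFinset] at hm ⊢
    rw [List.map_take] at hm
    exact List.mem_of_mem_take hm

theorem around_full_end (hL : 5 ≤ L) (hΛ : Around A o Λ) (hγ : Val A γ) :
    Around (A ∪ dirs γ) (ept o γ) (full Λ (sites o γ)) := by
  have h0 := around_full hL hΛ hγ
  have hend : ept o γ ∈ full Λ (sites o γ) := by
    rw [mem_full]
    by_cases h : γ = []
    · left
      rw [h, ept_nil]
      exact hΛ.1
    · right
      exact ept_mem_sites h
  refine ⟨hend, ?_⟩
  intro y hy i hi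
  have h1 := h0.2 y hy i hi
  have h2 := h0.2 _ hend i hi
  rw [Pi.sub_apply] at h1 h2 ⊢
  rw [sub_eq_zero] at h1 h2 ⊢
  rw [h1, h2]

theorem card_dirs (hγ : Val A γ) : (dirs γ).card = γ.length := by
  unfold dirs
  rw [List.toFinset_card_of_nodup hγ.1, List.length_map]

theorem card_full_sites (hL : 5 ≤ L) (hΛ : Around A o Λ) (hγ : Val A γ) :
    (full Λ (sites o γ)).card = Λ.card + γ.length := by
  have h1 : full Λ (sites o γ) = Λ ∪ (sites o γ).toFinset := by
    ext y
    rw [mem_full, Finset.mem_union, List.mem_toFinset]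
  rw [h1, Finset.card_union_of_disjoint, List.toFinset_card_of_nodup (sites_nodup hL hγ),
    length_sites]
  rw [Finset.disjoint_left]
  intro y hy hy'
  rw [List.mem_toFinset] at hy'
  exact sites_notMem hL hΛ hγ hy' hy

/-- the sites of the path form a path in the sense of `IsPath`, for the distance `dsx Λ o`.
Proof. Generalize: for `γ = γ₁ ++ γ₂`, `IsPath N (dsx Λ o) (full Λ (sites o γ₁)) (ept o γ₁)
(sites (ept o γ₁) γ₂)` by induction on `γ₂`.  The next site `x = ept o (γ₁ ++ [s])` has position
`pos Λ o x = #γ₁ + 1`; sites of `Λ` except `o` have position `-1`, `o` has `0`, and the `k`th site of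
`γ₁` has `k`, so that `dsx y x = dsx y (ept o γ₁) + 1` for all removed `y`; adjacent sites have
`wt (x - y) = 1` (`wt_eq_one`), and `wt (x - y) ≥ 2` for all removed `y` except the last one. -/
theorem isPath_sites (hL : 5 ≤ L) (hΛ : Around A o Λ) (hγ : Val A γ) :
    IsPath (NN d L) (dsx Λ o) Λ o (sites o γ) := by
  have h := path_gen hL hΛ γ [] (by rw [List.nil_append]; exact hγ)
  rw [ept_nil] at h
  exact h

/-- two paths without a common signed direction: the sites are not adjacent and not equal -/
theorem sites_disjoint (hL : 5 ≤ L) (hγ : Val A γ) {γ' : List (St d)} (hγ' : Val A γ')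
    (h : ∀ s ∈ γ', s ∉ γ) {x y : Tor d L} (hx : x ∈ sites o γ) (hy : y ∈ sites o γ') :
    x ≠ y ∧ bx (NN d L) x y = 0 := by
  obtain ⟨k, hk, rfl⟩ := mem_sites.1 hx
  obtain ⟨j, hj, rfl⟩ := mem_sites.1 hy
  have h1 := wt_ept_ept (o := o) hL (hγ.take (k + 1)) (hγ'.take (j + 1))
  have hd : Disjoint (γ.take (k + 1)).toFinset (γ'.take (j + 1)).toFinset := by
    rw [Finset.disjoint_left]
    intro s hs hs'
    rw [List.mem_toFinset] at hs hs'
    exact h s (List.mem_of_mem_take hs') (List.mem_of_mem_take hs)
  rw [Finset.sdiff_eq_self_of_disjoint hd, Finset.sdiff_eq_self_of_disjoint hd.symm,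
    (hγ.take _).card, (hγ'.take _).card, List.length_take, List.length_take] at h1
  have h2 : 2 ≤ wt (ept o (γ.take (k + 1)) - ept o (γ'.take (j + 1)) : Tor d L) := by
    rw [h1]
    omega
  refine ⟨?_, ?_⟩
  · intro he
    rw [he, sub_self, wt_zero] at h2
    omega
  · exact path_bx_zero hL h2

theorem path_mem_full {V : Type*} [DecidableEq V] : ∀ (xs : List V) (Λ : Finset V) (y : V),
    y ∈ full Λ xs ↔ y ∈ Λ ∨ y ∈ xs
  | [], Λ, y => by simp [full]
  | x :: xs, Λ, y => by
    rw [full, path_mem_full xs, Finset.mem_insert, List.mem_cons]; tauto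

theorem full_union {V : Type*} [DecidableEq V] (Λ : Finset V) (xs : List V) :
    full Λ xs = Λ ∪ xs.toFinset := by
  ext y
  rw [path_mem_full, Finset.mem_union, List.mem_toFinset]

theorem full_comm {V : Type*} [DecidableEq V] (Λ : Finset V) (xs ys : List V) :
    full (full Λ xs) ys = full (full Λ ys) xs := by
  ext y
  rw [path_mem_full, path_mem_full, path_mem_full, path_mem_full]
  tauto

end Pool.Agent.H989.SB
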