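import Pool.Agent.H989.SB.Cyc
import Pool.Agent.H989.SB.Path

/-!
Numbers of the lists of windows and of the paths.
-/

set_option linter.unusedSectionVars false
set_option linter.unusedVariables false

open Finset

namespace Pool.Agent.H989.SB

/-- the list of a bridge -/
def cnt_lst (N : ℕ) (h₀ s : ℤ) (b : Fin (2 * N) → ℤ) : List ℤ :=
  h₀ :: (List.ofFn b ++ [s - h₀])

theorem cnt_inj (N : ℕ) (h₀ s : ℤ) : Function.Injective (cnt_lst N h₀ s) := by
  intro b b' h
  unfold cnt_lst at h
  rw [List.cons.injEq] at h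
  exact List.ofFn_injective (List.append_cancel_right h.2)

theorem cnt_TW (J N : ℕ) {h₀ s : ℤ} (h1 : 0 ≤ h₀) (h2 : h₀ ≤ J) (h3 : |s - h₀| ≤ J)
    (b : Fin (2 * N) → ℤ) (hb : b ∈ bridges J (2 * N)) :
    TW (2 * N + 2) J h₀ s (cnt_lst N h₀ s b) := by
  unfold bridges at hb
  have hb' := (@Finset.mem_filter _ _ (_) _ _).1 hb
  rw [Fintype.mem_piFinset] at hb'
  obtain ⟨hb1, hb2, hb3⟩ := hb'
  unfold cnt_lst
  refine ⟨?_, ?_, ?_, ?_⟩
  · rw [List.length_cons, List.length_append, List.length_ofFn, List.length_singleton]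
  · intro j hj
    rw [List.mem_cons, List.mem_append, List.mem_singleton, List.mem_ofFn] at hj
    rcases hj with hj | ⟨i, hj⟩ | hj
    · rw [hj, abs_of_nonneg h1]
      exact h2
    · rw [← hj]
      have := mem_Icc.1 (hb1 i)
      exact abs_le.2 this
    · rw [hj]
      exact h3
  · intro k hk1 hk2
    obtain ⟨m, rfl⟩ : ∃ m, k = m + 1 := ⟨k - 1, by omega⟩
    rw [List.take_succ_cons, List.take_append_of_le_length (by rw [List.length_ofFn]; omega),
      List.sum_cons, List.sum_take_ofFn]
    have := hb3 m (mem_range.2 (by omega))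
    linarith
  · rw [List.sum_cons, List.sum_append, List.sum_ofFn, hb2, List.sum_singleton]
    ring

/-- The lists `h₀ :: b ++ [s - h₀]`, `b` a bridge (`List.ofFn`). -/
theorem exists_T (J N : ℕ) (hN : 0 < N) {h₀ s : ℤ} (h1 : 0 ≤ h₀) (h2 : h₀ ≤ J)
    (h3 : |s - h₀| ≤ J) :
    ∃ 𝒯 : Finset (List ℤ), (∀ τ ∈ 𝒯, TW (2 * N + 2) J h₀ s τ) ∧
      (2 * J + 1) ^ (2 * N) ≤ (2 * J * N + 1) * (2 * N) * 𝒯.card ∧
      𝒯.card ≤ (2 * J + 1) ^ (2 * N + 2) := by
  classical
  have hc : ((bridges J (2 * N)).image (cnt_lst N h₀ s)).card = (bridges J (2 * N)).card :=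
    card_image_of_injective _ (cnt_inj N h₀ s)
  refine ⟨(bridges J (2 * N)).image (cnt_lst N h₀ s), ?_, ?_, ?_⟩
  · intro τ hτ
    obtain ⟨b, hb, rfl⟩ := mem_image.1 hτ
    exact cnt_TW J N h1 h2 h3 b hb
  · rw [hc]
    exact card_bridges J N hN
  · rw [hc]
    have h4 : (bridges J (2 * N)).card ≤ (2 * J + 1) ^ (2 * N) := by
      unfold bridges
      refine (card_le_card (@Finset.filter_subset _ _ (_) _)).trans ?_
      rw [Fintype.card_piFinset_const, Int.card_Icc]
      apply le_of_eq
      congr 1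
      omega
    exact h4.trans (Nat.pow_le_pow_right (by omega) (by omega))

/-- Induction on `n`: the first step `s` has `2 (d - #A)` possibilities, the rest is admissible for
`insert s.1 A` (`val_cons`). -/
theorem exists_G {d : ℕ} (n : ℕ) (A : Finset (Fin d)) :
    ∃ 𝒢 : Finset (List (St d)), (∀ γ ∈ 𝒢, Val A γ ∧ γ.length = n) ∧
      (2 * (d - (A.card + n))) ^ n ≤ 𝒢.card ∧ 𝒢.card ≤ (2 * d) ^ n := by
  classical
  induction n generalizing A with
  | zero =>
    refine ⟨{[]}, ?_, ?_, ?_⟩
    · intro γ hγ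
      rw [mem_singleton] at hγ
      rw [hγ]
      exact ⟨val_nil A, rfl⟩
    · rw [pow_zero, card_singleton]
    · rw [pow_zero, card_singleton]
  | succ n ih =>
    choose G hG1 hG2 hG3 using ih
    obtain ⟨S, hS⟩ : ∃ S : Finset (St d), S = Aᶜ ×ˢ (univ : Finset Bool) := ⟨_, rfl⟩
    have hSc : S.card = 2 * (d - A.card) := by
      rw [hS, card_product, card_compl, Fintype.card_fin, card_univ, Fintype.card_bool, mul_comm]
    have hSm : ∀ s ∈ S, s.1 ∉ A := by
      intro s hs
      rw [hS, mem_product, mem_compl] at hs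
      exact hs.1
    have hcard : (S.biUnion fun s => (G (insert s.1 A)).image (List.cons s)).card =
        ∑ s ∈ S, (G (insert s.1 A)).card := by
      rw [card_biUnion]
      · refine sum_congr rfl fun s _ => card_image_of_injective _ List.cons_injective
      · intro s _ t _ hst
        rw [Function.onFun, disjoint_left]
        intro γ h1 h2
        obtain ⟨u, -, hu⟩ := mem_image.1 h1
        obtain ⟨v, -, hv⟩ := mem_image.1 h2
        rw [← hv, List.cons.injEq] at hu
        exact hst hu.1
    have hins : ∀ s ∈ S, (insert s.1 A).card = A.card + 1 := fun s hs =>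
      card_insert_of_notMem (hSm s hs)
    refine ⟨S.biUnion fun s => (G (insert s.1 A)).image (List.cons s), ?_, ?_, ?_⟩
    · intro γ hγ
      obtain ⟨s, hs, hγ⟩ := mem_biUnion.1 hγ
      obtain ⟨u, hu, rfl⟩ := mem_image.1 hγ
      obtain ⟨h1, h2⟩ := hG1 _ u hu
      exact ⟨val_cons.2 ⟨hSm s hs, h1⟩, by rw [List.length_cons, h2]⟩
    · rw [hcard]
      calc (2 * (d - (A.card + (n + 1)))) ^ (n + 1)
          = 2 * (d - (A.card + (n + 1))) * (2 * (d - (A.card + (n + 1)))) ^ n := by
            rw [pow_succ, mul_comm]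
        _ ≤ S.card * (2 * (d - (A.card + (n + 1)))) ^ n := by
            apply Nat.mul_le_mul_right
            rw [hSc]
            omega
        _ = ∑ s ∈ S, (2 * (d - (A.card + (n + 1)))) ^ n := by
            rw [sum_const, smul_eq_mul]
        _ ≤ ∑ s ∈ S, (G (insert s.1 A)).card := by
            refine sum_le_sum fun s hs => ?_
            have h1 := hG2 (insert s.1 A)
            rw [hins s hs] at h1
            have e : A.card + 1 + n = A.card + (n + 1) := by omega
            rw [e] at h1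
            exact h1
    · rw [hcard]
      calc ∑ s ∈ S, (G (insert s.1 A)).card ≤ ∑ s ∈ S, (2 * d) ^ n :=
            sum_le_sum fun s _ => hG3 _
        _ = S.card * (2 * d) ^ n := by rw [sum_const, smul_eq_mul]
        _ ≤ 2 * d * (2 * d) ^ n := by
            apply Nat.mul_le_mul_right
            rw [hSc]
            omega
        _ = (2 * d) ^ (n + 1) := by rw [pow_succ, mul_comm]

end Pool.Agent.H989.SB
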