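import Pool.Agent.H989.SB.Defs

/-!
Combinatorics of the graph norm `wt` on the torus `(ℤ/L)^d`.
-/

set_option linter.unusedSectionVars false
set_option linter.unusedVariables false

open MeasureTheory ProbabilityTheory Finset

namespace Pool.Agent.H989.SB

variable {d L : ℕ} [NeZero L]

/-- the norm of a coordinate -/
def geo_gv (a : ZMod L) : ℕ := a.valMinAbs.natAbs

theorem geo_gv_zero : geo_gv (0 : ZMod L) = 0 := by
  simp [geo_gv]

theorem geo_gv_neg (a : ZMod L) : geo_gv (-a) = geo_gv a := ZMod.natAbs_valMinAbs_neg a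

theorem geo_gv_eq_zero {a : ZMod L} : geo_gv a = 0 ↔ a = 0 := by
  unfold geo_gv
  rw [Int.natAbs_eq_zero, ZMod.valMinAbs_eq_zero]

theorem geo_gv_add_le (a b : ZMod L) : geo_gv (a + b) ≤ geo_gv a + geo_gv b :=
  (ZMod.natAbs_valMinAbs_add_le a b).trans (Int.natAbs_add_le _ _)

theorem geo_gv_natCast (hL : 5 ≤ L) {n : ℕ} (hn : n ≤ 2) : geo_gv ((n : ℕ) : ZMod L) = n := by
  unfold geo_gv
  rw [ZMod.valMinAbs_natAbs_eq_min, ZMod.val_natCast, Nat.mod_eq_of_lt (by omega)]
  omega

theorem geo_gv_one (hL : 5 ≤ L) : geo_gv (1 : ZMod L) = 1 := by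
  have := geo_gv_natCast (L := L) hL (n := 1) (by norm_num)
  simpa using this

theorem geo_gv_two (hL : 5 ≤ L) : geo_gv (1 + 1 : ZMod L) = 2 := by
  have := geo_gv_natCast (L := L) hL (n := 2) (by norm_num)
  have h : ((2 : ℕ) : ZMod L) = 1 + 1 := by push_cast; norm_num
  rwa [h] at this

theorem geo_gv_eq_one {a : ZMod L} (h : geo_gv a = 1) : a = 1 ∨ a = -1 := by
  unfold geo_gv at h
  have h2 := ZMod.coe_valMinAbs a
  rcases Int.natAbs_eq a.valMinAbs with h1 | h1
  · left
    rw [h1, h] at h2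
    rw [← h2]; simp
  · right
    rw [h1, h] at h2
    rw [← h2]; simp

theorem geo_wt_eq (x : Tor d L) : wt x = ∑ i, geo_gv (x i) := rfl

theorem geo_wt_split (x : Tor d L) (i : Fin d) : wt x = geo_gv (x i) + ∑ j ∈ univ.erase i, geo_gv (x j) := by
  rw [geo_wt_eq, Finset.add_sum_erase univ (fun j => geo_gv (x j)) (mem_univ i)]

theorem wt_zero : wt (0 : Tor d L) = 0 := by
  simp [wt]

theorem wt_neg (x : Tor d L) : wt (-x) = wt x := by
  rw [geo_wt_eq, geo_wt_eq]
  exact Finset.sum_congr rfl fun i _ => geo_gv_neg (x i)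

theorem wt_eq_zero {x : Tor d L} : wt x = 0 ↔ x = 0 := by
  rw [geo_wt_eq, Finset.sum_eq_zero_iff]
  constructor
  · intro h
    funext i
    exact geo_gv_eq_zero.1 (h i (mem_univ i))
  · rintro rfl i _
    exact geo_gv_zero

/-- `|a + b| ≤ |a| + |b|` for `ZMod.valMinAbs` coordinatewise -/
theorem wt_add_le (x y : Tor d L) : wt (x + y) ≤ wt x + wt y := by
  rw [geo_wt_eq, geo_wt_eq, geo_wt_eq, ← Finset.sum_add_distrib]
  exact Finset.sum_le_sum fun i _ => geo_gv_add_le (x i) (y i)

theorem wt_perm (π : Equiv.Perm (Fin d)) (x : Tor d L) : wt (permE π x) = wt x := by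
  rw [geo_wt_eq, geo_wt_eq]
  exact Equiv.sum_comp π fun i => geo_gv (x i)

theorem geo_wt_ei (hL : 5 ≤ L) (i : Fin d) : wt (ei i : Tor d L) = 1 := by
  have h : ∑ j ∈ univ.erase i, geo_gv ((ei i : Tor d L) j) = 0 :=
    Finset.sum_eq_zero fun j hj => by
      rw [ei_apply, if_neg (Finset.ne_of_mem_erase hj), geo_gv_zero]
  rw [geo_wt_split _ i, h, ei_apply, if_pos rfl, geo_gv_one hL]

theorem geo_wt_add_step (x s : Tor d L) (i : Fin d) (hs : ∀ j, j ≠ i → s j = 0) :
    wt (x + s) + geo_gv (x i) = wt x + geo_gv (x i + s i) := by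
  have h : ∑ j ∈ univ.erase i, geo_gv ((x + s) j) = ∑ j ∈ univ.erase i, geo_gv (x j) :=
    Finset.sum_congr rfl fun j hj => by
      rw [Pi.add_apply, hs j (Finset.ne_of_mem_erase hj), add_zero]
  rw [geo_wt_split (x + s) i, geo_wt_split x i, h, Pi.add_apply]
  ring

/-- unit vectors are the points of norm one -/
theorem wt_eq_one (hL : 5 ≤ L) {x : Tor d L} : wt x = 1 ↔ x ∈ ND L (univ : Finset (Fin d)) := by
  rw [mem_ND]
  constructor
  · intro h
    obtain ⟨i, hi⟩ : ∃ i, x i ≠ 0 := by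
      by_contra hc
      push Not at hc
      rw [wt_eq_zero.2 (funext hc)] at h
      exact absurd h (by norm_num)
    have h1 : geo_gv (x i) ≠ 0 := fun h2 => hi (geo_gv_eq_zero.1 h2)
    rw [geo_wt_split x i] at h
    have h2 : geo_gv (x i) = 1 := by omega
    have h3 : ∑ j ∈ univ.erase i, geo_gv (x j) = 0 := by omega
    rw [Finset.sum_eq_zero_iff] at h3
    refine ⟨i, mem_univ i, ?_⟩
    rcases geo_gv_eq_one h2 with h4 | h4
    · left
      funext j
      rw [ei_apply]
      by_cases hj : j = i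
      · rw [if_pos hj, hj, h4]
      · rw [if_neg hj]
        exact geo_gv_eq_zero.1 (h3 j (Finset.mem_erase.2 ⟨hj, mem_univ j⟩))
    · right
      funext j
      rw [Pi.neg_apply, ei_apply]
      by_cases hj : j = i
      · rw [if_pos hj, hj, h4]
      · rw [if_neg hj, neg_zero]
        exact geo_gv_eq_zero.1 (h3 j (Finset.mem_erase.2 ⟨hj, mem_univ j⟩))
  · rintro ⟨i, -, rfl | rfl⟩
    · exact geo_wt_ei hL i
    · rw [wt_neg]
      exact geo_wt_ei hL i

theorem st_mem (hL : 5 ≤ L) (s : St d) : (st s : Tor d L) ∈ ND L (univ : Finset (Fin d)) := by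
  rw [mem_ND]
  refine ⟨s.1, mem_univ _, ?_⟩
  unfold st
  split_ifs
  · exact Or.inl rfl
  · exact Or.inr rfl

/-- the part of a sum over signed directions in one coordinate -/
theorem geo_sum_coord {M : Type} [AddCommMonoid M] (U : Finset (St d)) (i : Fin d) (f : St d → M) :
    ∑ s ∈ U, (if s.1 = i then f s else 0) =
      (if (i, true) ∈ U then f (i, true) else 0) + (if (i, false) ∈ U then f (i, false) else 0) := by
  classical
  have h1 : ∑ s ∈ U, (if s.1 = i then f s else 0) =
      ∑ s : St d, if s ∈ U then (if s.1 = i then f s else 0) else 0 := by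
    rw [Finset.sum_ite_mem, Finset.univ_inter]
  rw [h1, Fintype.sum_prod_type, Finset.sum_eq_single i]
  · rw [Fintype.sum_bool]
    simp
  · intro j _ hj
    rw [Fintype.sum_bool]
    simp [hj]
  · intro h
    exact absurd (mem_univ i) h

theorem geo_vec_apply (U : Finset (St d)) (i : Fin d) : (vec U : Tor d L) i =
    (if (i, true) ∈ U then 1 else 0) + (if (i, false) ∈ U then -1 else 0) := by
  have h := geo_sum_coord U i (fun s => (if s.2 then 1 else -1 : ZMod L))
  simp only [if_true, Bool.false_eq_true, if_false] at h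
  rw [← h]
  unfold vec
  rw [Finset.sum_apply]
  refine Finset.sum_congr rfl fun s _ => ?_
  unfold st
  by_cases hs : s.1 = i
  · rw [if_pos hs]
    split_ifs
    · rw [ei_apply, if_pos hs.symm]
    · rw [Pi.neg_apply, ei_apply, if_pos hs.symm]
  · rw [if_neg hs]
    split_ifs
    · rw [ei_apply, if_neg (Ne.symm hs)]
    · rw [Pi.neg_apply, ei_apply, if_neg (Ne.symm hs), neg_zero]

theorem geo_card_coord (U : Finset (St d)) : U.card = ∑ i : Fin d,
    ((if (i, true) ∈ U then 1 else 0) + (if (i, false) ∈ U then 1 else 0)) := by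
  have h : ∀ i : Fin d, ((if (i, true) ∈ U then 1 else 0) + (if (i, false) ∈ U then 1 else 0)) =
      ∑ s ∈ U, (if s.1 = i then 1 else 0) := fun i => (geo_sum_coord U i (fun _ => 1)).symm
  rw [Finset.sum_congr rfl fun i _ => h i, Finset.sum_comm, Finset.card_eq_sum_ones]
  refine Finset.sum_congr rfl fun s _ => ?_
  simp

/-- distance of two sums of steps (coordinatewise computation) -/
theorem wt_vec_sub (hL : 5 ≤ L) {A : Finset (Fin d)} {a : Tor d L} (ha : SupA A a)
    {S T : Finset (St d)} (hS : Cons S) (hT : Cons T) (hSA : Off A S) (hTA : Off A T) :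
    wt (a + vec S - vec T) = wt a + (S \ T).card + (T \ S).card := by
  rw [geo_card_coord (S \ T), geo_card_coord (T \ S), geo_wt_eq, geo_wt_eq, ← Finset.sum_add_distrib,
    ← Finset.sum_add_distrib]
  refine Finset.sum_congr rfl fun i _ => ?_
  rw [Pi.sub_apply, Pi.add_apply, geo_vec_apply, geo_vec_apply]
  simp only [Finset.mem_sdiff]
  have h1 : (i, true) ∈ S → (i, false) ∉ S := fun h h' => by
    have := hS _ h _ h' rfl
    simp at this
  have h2 : (i, true) ∈ T → (i, false) ∉ T := fun h h' => by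
    have := hT _ h _ h' rfl
    simp at this
  have g1 := geo_gv_one (L := L) hL
  have g2 := geo_gv_two (L := L) hL
  have g0 := geo_gv_zero (L := L)
  have g3 : geo_gv (-1 : ZMod L) = 1 := by rw [geo_gv_neg]; exact g1
  have g4 : geo_gv (-1 - 1 : ZMod L) = 2 := by
    rw [show (-1 - 1 : ZMod L) = -(1 + 1) by ring, geo_gv_neg]; exact g2
  by_cases hi : i ∈ A
  · have c1 : (i, true) ∉ S := fun h => hSA _ h hi
    have c2 : (i, false) ∉ S := fun h => hSA _ h hi
    have c3 : (i, true) ∉ T := fun h => hTA _ h hi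
    have c4 : (i, false) ∉ T := fun h => hTA _ h hi
    simp [c1, c2, c3, c4]
  · have e1 : a i = 0 := ha i hi
    by_cases c1 : (i, true) ∈ S <;> by_cases c3 : (i, true) ∈ T
    · have c2 := h1 c1
      have c4 := h2 c3
      simp [c1, c2, c3, c4, e1, g0]
    · have c2 := h1 c1
      by_cases c4 : (i, false) ∈ T
      · simp [c1, c2, c3, c4, e1, g0, g2]
      · simp [c1, c2, c3, c4, e1, g0, g1]
    · have c4 := h2 c3
      by_cases c2 : (i, false) ∈ S
      · simp [c1, c2, c3, c4, e1, g0, g4]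
      · simp [c1, c2, c3, c4, e1, g0, g3]
    · by_cases c2 : (i, false) ∈ S <;> by_cases c4 : (i, false) ∈ T
      · simp [c1, c2, c3, c4, e1, g0]
      · simp [c1, c2, c3, c4, e1, g0, g3]
      · simp [c1, c2, c3, c4, e1, g0, g1]
      · simp [c1, c2, c3, c4, e1, g0]

/-- `vec` is injective on consistent sets -/
theorem vec_inj (hL : 5 ≤ L) {S T : Finset (St d)} (hS : Cons S) (hT : Cons T)
    (h : (vec S : Tor d L) = vec T) : S = T := by
  have h1 := wt_vec_sub (A := ∅) (a := (0 : Tor d L)) hL (fun _ _ => rfl) hS hT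
    (fun _ _ => Finset.notMem_empty _) (fun _ _ => Finset.notMem_empty _)
  rw [h, zero_add, sub_self, wt_zero] at h1
  have h2 : (S \ T).card = 0 := by omega
  have h3 : (T \ S).card = 0 := by omega
  rw [Finset.card_eq_zero, Finset.sdiff_eq_empty_iff_subset] at h2 h3
  exact Finset.Subset.antisymm h2 h3

theorem geo_sum_ND (hL : 5 ≤ L) (f : Tor d L → ℝ) :
    ∑ s ∈ ND L (univ : Finset (Fin d)), f s = ∑ i : Fin d, (f (ei i) + f (-ei i)) := by
  have hL' : 3 ≤ L := by omega
  unfold ND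
  rw [Finset.sum_union (disj_ND hL' _), Finset.sum_image fun a _ b _ h => ei_inj hL' h,
    Finset.sum_image fun a _ b _ h => ei_inj hL' (neg_injective h), ← Finset.sum_add_distrib]

theorem geo_mem_spt (x : Tor d L) (i : Fin d) : i ∈ spt x ↔ x i ≠ 0 := by
  simp [spt]

theorem geo_ei_off {i j : Fin d} (h : j ≠ i) : (ei i : Tor d L) j = 0 := by
  rw [ei_apply, if_neg h]

theorem geo_nei_off {i j : Fin d} (h : j ≠ i) : (-ei i : Tor d L) j = 0 := by
  rw [Pi.neg_apply, geo_ei_off h, neg_zero]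

theorem geo_ei_on (i : Fin d) : (ei i : Tor d L) i = 1 := by
  rw [ei_apply, if_pos rfl]

theorem geo_nei_on (i : Fin d) : (-ei i : Tor d L) i = -1 := by
  rw [Pi.neg_apply, geo_ei_on]

/-- a step in a zero coordinate -/
theorem geo_wt_step_zero (hL : 5 ≤ L) {x s : Tor d L} {i : Fin d} (hx : x i = 0)
    (hs : ∀ j, j ≠ i → s j = 0) (h1 : geo_gv (s i) = 1) : wt (x + s) = wt x + 1 := by
  have h := geo_wt_add_step x s i hs
  rw [hx, geo_gv_zero, zero_add, h1, add_zero] at h
  exact h

theorem geo_wt_step_ge {x s : Tor d L} (h : wt s = 1) : wt x ≤ wt (x + s) + 1 := by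
  have h1 := wt_add_le (x + s) (-s)
  rw [add_neg_cancel_right, wt_neg, h] at h1
  exact h1

theorem geo_pow_step {ω : ℝ} (h0 : 0 < ω) (h1 : ω ≤ 1) {m n : ℕ} (h : m ≤ n + 1) :
    ω ^ n ≤ ω ^ m * ω⁻¹ := by
  rw [← div_eq_mul_inv, le_div_iff₀ h0, ← pow_succ]
  exact pow_le_pow_of_le_one h0.le h1 h

/-- the sum of the weights over the neighbours: a step in a coordinate of `spt x` changes the norm by
at most one, all other steps increase it by exactly one -/
theorem sum_wt_le (hL : 5 ≤ L) (x : Tor d L) {ω : ℝ} (h0 : 0 < ω) (h1 : ω ≤ 1) :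
    ∑ s ∈ ND L (univ : Finset (Fin d)), ω ^ (wt (x + s))
      ≤ ω ^ (wt x) * (2 * (spt x).card * ω⁻¹ + 2 * d * ω) := by
  have hg1 := geo_gv_one (L := L) hL
  have hw := pow_pos h0 (wt x)
  rw [geo_sum_ND hL (fun s => ω ^ (wt (x + s)))]
  have hb : ∀ i ∈ (univ : Finset (Fin d)), ω ^ (wt (x + ei i)) + ω ^ (wt (x + -ei i)) ≤
      (if i ∈ spt x then ω ^ (wt x) * (2 * ω⁻¹) else 0) + ω ^ (wt x) * (2 * ω) := by
    intro i _
    by_cases hi : i ∈ spt x
    · rw [if_pos hi]
      have e1 : ω ^ (wt (x + ei i)) ≤ ω ^ (wt x) * ω⁻¹ :=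
        geo_pow_step h0 h1 (geo_wt_step_ge (geo_wt_ei hL i))
      have e2 : ω ^ (wt (x + -ei i)) ≤ ω ^ (wt x) * ω⁻¹ :=
        geo_pow_step h0 h1 (geo_wt_step_ge (by rw [wt_neg]; exact geo_wt_ei hL i))
      have e3 : 0 ≤ ω ^ (wt x) * (2 * ω) := by positivity
      linarith
    · rw [if_neg hi, zero_add]
      have hx : x i = 0 := by
        rw [geo_mem_spt, not_not] at hi
        exact hi
      rw [geo_wt_step_zero hL hx (fun j hj => geo_ei_off hj) (by rw [geo_ei_on]; exact hg1),
        geo_wt_step_zero hL hx (fun j hj => geo_nei_off hj) (by rw [geo_nei_on, geo_gv_neg]; exact hg1), pow_succ]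
      exact le_of_eq (by ring)
  refine (Finset.sum_le_sum hb).trans (le_of_eq ?_)
  rw [Finset.sum_add_distrib, Finset.sum_ite_mem, Finset.univ_inter, Finset.sum_const,
    Finset.sum_const, Finset.card_univ, Fintype.card_fin, nsmul_eq_mul, nsmul_eq_mul]
  ring

theorem geo_spt_add_off {x s : Tor d L} {i : Fin d} (hs : ∀ j, j ≠ i → s j = 0) {j : Fin d}
    (hj : j ≠ i) : j ∈ spt (x + s) ↔ j ∈ spt x := by
  rw [geo_mem_spt, geo_mem_spt, Pi.add_apply, hs j hj, add_zero]

/-- a step in a coordinate of `A` -/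
theorem geo_nA_step_mem {A : Finset (Fin d)} {x s : Tor d L} {i : Fin d}
    (hs : ∀ j, j ≠ i → s j = 0) (hi : i ∈ A) : nA A (x + s) = nA A x := by
  unfold nA
  congr 1
  ext j
  rw [Finset.mem_sdiff, Finset.mem_sdiff]
  by_cases hj : j = i
  · subst hj
    exact ⟨fun h => absurd hi h.2, fun h => absurd hi h.2⟩
  · rw [geo_spt_add_off hs hj]

theorem geo_nA_step_le {A : Finset (Fin d)} {x s : Tor d L} {i : Fin d}
    (hs : ∀ j, j ≠ i → s j = 0) : nA A (x + s) ≤ nA A x + 1 := by
  unfold nA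
  refine (Finset.card_le_card (t := insert i (spt x \ A)) ?_).trans (Finset.card_insert_le _ _)
  intro j hj
  rw [Finset.mem_sdiff] at hj
  rw [Finset.mem_insert, Finset.mem_sdiff]
  by_cases hji : j = i
  · exact Or.inl hji
  · right
    rwa [geo_spt_add_off hs hji] at hj

theorem geo_nA_step_ge {A : Finset (Fin d)} {x s : Tor d L} {i : Fin d}
    (hs : ∀ j, j ≠ i → s j = 0) : nA A x ≤ nA A (x + s) + 1 := by
  have h := geo_nA_step_le (A := A) (x := x + s) (s := -s) (i := i)
    (fun j hj => by rw [Pi.neg_apply, hs j hj, neg_zero])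
  rwa [add_neg_cancel_right] at h

/-- a step in a zero coordinate outside `A` -/
theorem geo_nA_step_zero {A : Finset (Fin d)} {x s : Tor d L} {i : Fin d}
    (hs : ∀ j, j ≠ i → s j = 0) (hi : i ∉ A) (hx : x i = 0) (h1 : s i ≠ 0) :
    nA A (x + s) = nA A x + 1 := by
  unfold nA
  have h2 : spt (x + s) \ A = insert i (spt x \ A) := by
    ext j
    rw [Finset.mem_sdiff, Finset.mem_insert, Finset.mem_sdiff]
    by_cases hji : j = i
    · subst hji
      refine ⟨fun _ => Or.inl rfl, fun _ => ⟨?_, hi⟩⟩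
      rw [geo_mem_spt, Pi.add_apply, hx, zero_add]
      exact h1
    · rw [geo_spt_add_off hs hji]
      exact ⟨fun h => Or.inr h, fun h => h.resolve_left hji⟩
  rw [h2, Finset.card_insert_of_notMem]
  intro h
  rw [Finset.mem_sdiff, geo_mem_spt] at h
  exact h.1 hx

theorem geo_step_off {s : Tor d L} (hs : s ∈ ND L (univ : Finset (Fin d))) :
    ∃ i, ∀ j, j ≠ i → s j = 0 := by
  rw [mem_ND] at hs
  obtain ⟨i, -, rfl | rfl⟩ := hs
  · exact ⟨i, fun j hj => geo_ei_off hj⟩
  · exact ⟨i, fun j hj => geo_nei_off hj⟩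

theorem nA_add_le (A : Finset (Fin d)) (x : Tor d L) {s : Tor d L}
    (hs : s ∈ ND L (univ : Finset (Fin d))) : nA A (x + s) ≤ nA A x + 1 := by
  obtain ⟨i, hi⟩ := geo_step_off hs
  exact geo_nA_step_le hi

/-- the same for the sum with exponents `R - nA A (x + s)`: at most `nA A x` of the coordinates can
be switched off -/
theorem sum_beta_le (hL : 5 ≤ L) (A : Finset (Fin d)) (R : ℕ) {x : Tor d L} (hx : nA A x < R)
    {β : ℝ} (h1 : 1 ≤ β) :
    ∑ s ∈ ND L (univ : Finset (Fin d)), β ^ (R - nA A (x + s))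
      ≤ β ^ (R - nA A x) * (2 * R * β + 2 * (A.card + R) + 2 * d * β⁻¹) := by
  have h0 : 0 < β := by linarith
  have hn1 : (1 : ZMod L) ≠ 0 := one_ne (by omega)
  have hn2 : (-1 : ZMod L) ≠ 0 := neg_ne_zero.2 hn1
  have hw := pow_pos h0 (R - nA A x)
  rw [geo_sum_ND hL (fun s => β ^ (R - nA A (x + s)))]
  have hA : ∀ s : Tor d L, ∀ i ∈ A, (∀ j, j ≠ i → s j = 0) →
      β ^ (R - nA A (x + s)) = β ^ (R - nA A x) := by
    intro s i hi hs
    rw [geo_nA_step_mem hs hi]
  have hB : ∀ s : Tor d L, ∀ i : Fin d, (∀ j, j ≠ i → s j = 0) →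
      β ^ (R - nA A (x + s)) ≤ β ^ (R - nA A x) * β := by
    intro s i hs
    rw [← pow_succ]
    have := geo_nA_step_ge (A := A) (x := x) hs
    exact pow_le_pow_right₀ h1 (by omega)
  have hC : ∀ s : Tor d L, ∀ i : Fin d, (∀ j, j ≠ i → s j = 0) → i ∉ A → x i = 0 → s i ≠ 0 →
      β ^ (R - nA A (x + s)) = β ^ (R - nA A x) * β⁻¹ := by
    intro s i hs hi hxi hsi
    rw [geo_nA_step_zero hs hi hxi hsi]
    obtain ⟨r, hr⟩ : ∃ r, R - nA A x = r + 1 := ⟨R - nA A x - 1, by omega⟩
    have hr2 : R - (nA A x + 1) = r := by omega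
    rw [hr2, hr, pow_succ, mul_assoc, mul_inv_cancel₀ h0.ne', mul_one]
  have hb : ∀ i ∈ (univ : Finset (Fin d)),
      β ^ (R - nA A (x + ei i)) + β ^ (R - nA A (x + -ei i)) ≤
      (if i ∈ A then β ^ (R - nA A x) * 2 else 0) +
      (if i ∈ spt x \ A then β ^ (R - nA A x) * (2 * β) else 0) +
        β ^ (R - nA A x) * (2 * β⁻¹) := by
    intro i _
    have hinv : 0 ≤ β ^ (R - nA A x) * (2 * β⁻¹) := by positivity
    by_cases hi : i ∈ A
    · have hi2 : i ∉ spt x \ A := fun h => (Finset.mem_sdiff.1 h).2 hi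
      rw [if_pos hi, if_neg hi2, hA _ i hi (fun j hj => geo_ei_off hj),
        hA _ i hi (fun j hj => geo_nei_off hj)]
      linarith
    · by_cases hi2 : i ∈ spt x
      · rw [if_neg hi, if_pos (Finset.mem_sdiff.2 ⟨hi2, hi⟩)]
        have e1 := hB (ei i) i (fun j hj => geo_ei_off hj)
        have e2 := hB (-ei i) i (fun j hj => geo_nei_off hj)
        linarith
      · have hi3 : i ∉ spt x \ A := fun h => hi2 (Finset.mem_sdiff.1 h).1
        have hxi : x i = 0 := by
          rw [geo_mem_spt, not_not] at hi2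
          exact hi2
        rw [if_neg hi, if_neg hi3,
          hC _ i (fun j hj => geo_ei_off hj) hi hxi (by rw [geo_ei_on]; exact hn1),
          hC _ i (fun j hj => geo_nei_off hj) hi hxi (by rw [geo_nei_on]; exact hn2)]
        exact le_of_eq (by ring)
  refine (Finset.sum_le_sum hb).trans ?_
  rw [Finset.sum_add_distrib, Finset.sum_add_distrib, Finset.sum_ite_mem, Finset.sum_ite_mem,
    Finset.univ_inter, Finset.univ_inter, Finset.sum_const, Finset.sum_const, Finset.sum_const,
    Finset.card_univ, Fintype.card_fin, nsmul_eq_mul, nsmul_eq_mul, nsmul_eq_mul]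
  have h2 : ((spt x \ A).card : ℝ) ≤ R := by
    have : (spt x \ A).card < R := hx
    exact_mod_cast this.le
  have h3 : ((spt x \ A).card : ℝ) * (β ^ (R - nA A x) * (2 * β)) ≤
      R * (β ^ (R - nA A x) * (2 * β)) := mul_le_mul_of_nonneg_right h2 (by positivity)
  have h4 : (0 : ℝ) ≤ β ^ (R - nA A x) * (2 * R) := by positivity
  calc (A.card : ℝ) * (β ^ (R - nA A x) * 2) +
        ((spt x \ A).card : ℝ) * (β ^ (R - nA A x) * (2 * β)) +
        d * (β ^ (R - nA A x) * (2 * β⁻¹))
      ≤ (A.card : ℝ) * (β ^ (R - nA A x) * 2) + R * (β ^ (R - nA A x) * (2 * β)) +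
        d * (β ^ (R - nA A x) * (2 * β⁻¹)) + β ^ (R - nA A x) * (2 * R) := by linarith
    _ = _ := by ring

theorem card_spt_le (A : Finset (Fin d)) (x : Tor d L) : (spt x).card ≤ A.card + nA A x := by
  unfold nA
  have h := Finset.card_le_card (show spt x ⊆ A ∪ (spt x \ A) from fun i hi => by
    rw [Finset.mem_union, Finset.mem_sdiff]
    by_cases h : i ∈ A
    · exact Or.inl h
    · exact Or.inr ⟨hi, h⟩)
  exact h.trans (Finset.card_union_le _ _)

/-- a permutation which fixes `A` and maps `T` onto `B` -/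
theorem geo_exists_perm_map (A T B : Finset (Fin d)) (hT : Disjoint A T) (hB : Disjoint A B)
    (hc : T.card = B.card) : ∃ π : Equiv.Perm (Fin d), (∀ i ∈ A, π i = i) ∧
      ∀ i, i ∈ T ↔ π i ∈ B := by
  classical
  obtain ⟨e⟩ : Nonempty ((T : Finset (Fin d)) ≃ (B : Finset (Fin d))) := by
    rw [← Fintype.card_eq, Fintype.card_coe, Fintype.card_coe]
    exact hc
  set f : Fin d → Fin d := fun i => if h : i ∈ T then (e ⟨i, h⟩ : Fin d) else i with hf
  have hfT : ∀ i (h : i ∈ T), f i = (e ⟨i, h⟩ : Fin d) := fun i h => by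
    rw [hf]
    simp only [dif_pos h]
  have hfA : ∀ i ∈ A, f i = i := fun i h => by
    rw [hf]
    simp only [dif_neg (Finset.disjoint_left.1 hT h)]
  have hinj : Set.InjOn f ((A ∪ T : Finset (Fin d)) : Set (Fin d)) := by
    intro i hi j hj hij
    rw [Finset.mem_coe, Finset.mem_union] at hi hj
    rcases hi with hi | hi <;> rcases hj with hj | hj
    · rwa [hfA i hi, hfA j hj] at hij
    · rw [hfA i hi, hfT j hj] at hij
      exact absurd (e ⟨j, hj⟩).2 (by rw [← hij]; exact Finset.disjoint_left.1 hB hi)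
    · rw [hfT i hi, hfA j hj] at hij
      exact absurd (e ⟨i, hi⟩).2 (by rw [hij]; exact Finset.disjoint_left.1 hB hj)
    · rw [hfT i hi, hfT j hj] at hij
      have := e.injective (Subtype.ext hij)
      exact congrArg Subtype.val this
  obtain ⟨g, hg⟩ := Finset.exists_equiv_extend_of_card_eq (α := Fin d) (β := Fin d)
    (t := (univ : Finset (Fin d))) (by rw [Finset.card_univ]) (s := A ∪ T) (f := f)
    (Finset.subset_univ _) hinj
  have hbij : Function.Bijective fun i => (g i : Fin d) := by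
    refine (Finite.injective_iff_bijective).1 ?_
    intro i j hij
    exact g.injective (Subtype.ext hij)
  refine ⟨Equiv.ofBijective _ hbij, fun i hi => ?_, fun i => ?_⟩
  · rw [Equiv.ofBijective_apply, hg i (Finset.mem_union_left _ hi), hfA i hi]
  · rw [Equiv.ofBijective_apply]
    constructor
    · intro hi
      rw [hg i (Finset.mem_union_right _ hi), hfT i hi]
      exact (e ⟨i, hi⟩).2
    · intro hi
      set j := e.symm ⟨(g i : Fin d), hi⟩ with hj
      have h1 : (g j : Fin d) = g i := by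
        rw [hg _ (Finset.mem_union_right _ j.2), hfT _ j.2]
        have : (⟨(j : Fin d), j.2⟩ : {x // x ∈ T}) = j := rfl
        rw [this, hj, Equiv.apply_symm_apply]
      have h2 : (j : Fin d) = i := g.injective (Subtype.ext h1)
      rw [← h2]
      exact j.2

/-- A point with exactly `R` nonzero coordinates outside `A` has at least `(d - #A).choose R`
different images under the permutations of the coordinates which fix all coordinates of `A`
(choose the set of nonzero coordinates outside `A`). -/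
theorem exists_perms (A : Finset (Fin d)) {x : Tor d L} {R : ℕ} (hx : nA A x = R) :
    ∃ P : Finset (Equiv.Perm (Fin d)), (∀ π ∈ P, ∀ i ∈ A, π i = i) ∧
      (∀ π ∈ P, ∀ π' ∈ P, permE π x = permE π' x → π = π') ∧ P.card = (d - A.card).choose R := by
  classical
  have hB : Disjoint A (spt x \ A) := Finset.disjoint_sdiff
  have hex : ∀ T : Finset (Fin d), T ∈ Finset.powersetCard R (univ \ A) →
      ∃ π : Equiv.Perm (Fin d), (∀ i ∈ A, π i = i) ∧ ∀ i, i ∈ T ↔ π i ∈ spt x \ A := by
    intro T hT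
    rw [Finset.mem_powersetCard] at hT
    refine geo_exists_perm_map A T (spt x \ A) ?_ hB ?_
    · exact Finset.disjoint_sdiff.mono_right hT.1
    · rw [hT.2, ← hx]
      rfl
  set Φ : Finset (Fin d) → Equiv.Perm (Fin d) := fun T =>
    if h : T ∈ Finset.powersetCard R (univ \ A) then (hex T h).choose else 1 with hΦ
  have hΦ1 : ∀ T ∈ Finset.powersetCard R (univ \ A), (∀ i ∈ A, Φ T i = i) ∧
      ∀ i, i ∈ T ↔ Φ T i ∈ spt x \ A := by
    intro T hT
    rw [hΦ]
    simp only [dif_pos hT]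
    exact (hex T hT).choose_spec
  have hset : ∀ T ∈ Finset.powersetCard R (univ \ A), T = spt (permE (Φ T) x) \ A := by
    intro T hT
    obtain ⟨h1, h2⟩ := hΦ1 T hT
    ext i
    rw [h2, Finset.mem_sdiff, Finset.mem_sdiff, geo_mem_spt, geo_mem_spt]
    refine and_congr Iff.rfl ?_
    constructor
    · intro h hi
      rw [h1 i hi] at h
      exact h hi
    · intro h hi
      have h3 : Φ T (Φ T i) = Φ T i := h1 _ hi
      have h4 := (Φ T).injective h3
      rw [h4] at hi
      exact h hi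
  refine ⟨(Finset.powersetCard R (univ \ A)).image Φ, ?_, ?_, ?_⟩
  · intro π hπ
    obtain ⟨T, hT, rfl⟩ := Finset.mem_image.1 hπ
    exact (hΦ1 T hT).1
  · intro π hπ π' hπ' h
    obtain ⟨T, hT, rfl⟩ := Finset.mem_image.1 hπ
    obtain ⟨T', hT', rfl⟩ := Finset.mem_image.1 hπ'
    rw [hset T hT, hset T' hT', h]
  · rw [Finset.card_image_of_injOn, Finset.card_powersetCard, Finset.card_sdiff_of_subset
      (Finset.subset_univ A), Finset.card_univ, Fintype.card_fin]
    intro T hT T' hT' h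
    rw [Finset.mem_coe] at hT hT'
    rw [hset T hT, hset T' hT', h]

end Pool.Agent.H989.SB
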