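import Pool.Agent.H989.SB.Defs
import Pool.Agent.H989.Spec

/-!
One-site integrals for laws with a density `g`, `g t ≤ G`, `t ^ 2 * g t ≤ G`.
-/

set_option linter.unusedSectionVars false
set_option linter.unusedVariables false

open MeasureTheory ProbabilityTheory Finset

namespace Pool.Agent.H989.SB

variable {ν : Measure ℝ} {G : ℝ}

/-- integrals against a measure with density `g`, if `g F ≤ H` -/
theorem one_dens_le {g : ℝ → ℝ} (hg : Measurable g) (hg0 : ∀ t, 0 ≤ g t)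
    (hν : ν = volume.withDensity (fun t => ENNReal.ofReal (g t))) {F H : ℝ → ℝ}
    (hF : AEStronglyMeasurable F volume) (hF0 : ∀ t, 0 ≤ F t) (hH : Integrable H)
    (h : ∀ t, g t * F t ≤ H t) : Integrable F ν ∧ ∫ t, F t ∂ν ≤ ∫ t, H t := by
  have hgm : Measurable (fun t => ENNReal.ofReal (g t)) := hg.ennreal_ofReal
  have hac : ν ≪ volume := by
    rw [hν]
    exact withDensity_absolutelyContinuous _ _
  have hFν : AEStronglyMeasurable F ν := hF.mono_ac hac
  have hH0 : ∀ t, 0 ≤ H t := fun t => (mul_nonneg (hg0 t) (hF0 t)).trans (h t)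
  have h1 : ∫⁻ t, ENNReal.ofReal (F t) ∂ν ≤ ∫⁻ t, ENNReal.ofReal (H t) := by
    rw [hν, lintegral_withDensity_eq_lintegral_mul₀ hgm.aemeasurable
      hF.aemeasurable.ennreal_ofReal]
    refine lintegral_mono fun t => ?_
    rw [Pi.mul_apply, ← ENNReal.ofReal_mul (hg0 t)]
    exact ENNReal.ofReal_le_ofReal (h t)
  have h2 : ∫⁻ t, ENNReal.ofReal (H t) = ENNReal.ofReal (∫ t, H t) :=
    (ofReal_integral_eq_lintegral_ofReal hH (Filter.Eventually.of_forall hH0)).symm
  have h3 : Integrable F ν := by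
    refine ⟨hFν, ?_⟩
    rw [hasFiniteIntegral_iff_ofReal (Filter.Eventually.of_forall hF0)]
    refine lt_of_le_of_lt h1 ?_
    rw [h2]
    exact ENNReal.ofReal_lt_top
  refine ⟨h3, ?_⟩
  have h4 : ENNReal.ofReal (∫ t, F t ∂ν) ≤ ENNReal.ofReal (∫ t, H t) := by
    rw [ofReal_integral_eq_lintegral_ofReal h3 (Filter.Eventually.of_forall hF0), ← h2]
    exact h1
  exact (ENNReal.ofReal_le_ofReal_iff (integral_nonneg hH0)).1 h4

/-- the density is integrable -/
theorem one_dens_int {g : ℝ → ℝ} (hg : Measurable g) (hg0 : ∀ t, 0 ≤ g t)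
    (hν : ν = volume.withDensity (fun t => ENNReal.ofReal (g t))) (hp : IsProbabilityMeasure ν) :
    Integrable g ∧ ∫ t, g t = 1 := by
  have h1 : ∫⁻ t, ENNReal.ofReal (g t) = 1 := by
    have h2 := hp.measure_univ
    rw [hν, withDensity_apply _ MeasurableSet.univ, Measure.restrict_univ] at h2
    exact h2
  have h3 : Integrable g := by
    refine ⟨hg.aestronglyMeasurable, ?_⟩
    rw [hasFiniteIntegral_iff_ofReal (Filter.Eventually.of_forall hg0), h1]
    exact ENNReal.one_lt_top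
  refine ⟨h3, ?_⟩
  have h4 := ofReal_integral_eq_lintegral_ofReal h3 (Filter.Eventually.of_forall hg0)
  rw [h1] at h4
  have h5 := (ENNReal.ofReal_eq_one).1 h4
  exact h5

/-- intervals.  Proof: density at most `G`. -/
theorem Law.Icc_le (h : Law ν G) {a b : ℝ} (hab : a ≤ b) : ν.real (Set.Icc a b) ≤ G * (b - a) := by
  obtain ⟨g, hg, hg0, hgG, -, hν⟩ := h.dens
  have hG : 0 ≤ G := (hg0 0).trans (hgG 0)
  have h1 : ν (Set.Icc a b) ≤ ENNReal.ofReal (G * (b - a)) := by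
    rw [hν, withDensity_apply _ measurableSet_Icc]
    calc ∫⁻ t in Set.Icc a b, ENNReal.ofReal (g t) ≤ ∫⁻ t in Set.Icc a b, ENNReal.ofReal G :=
          lintegral_mono fun t => ENNReal.ofReal_le_ofReal (hgG t)
      _ = ENNReal.ofReal (G * (b - a)) := by
          rw [setLIntegral_const, Real.volume_Icc, ENNReal.ofReal_mul hG]
  exact ENNReal.toReal_le_of_le_ofReal (mul_nonneg hG (by linarith)) h1

/-- integrals of nonnegative Lebesgue integrable functions.  Proof: density at most `G`. -/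
theorem Law.int_le (h : Law ν G) {f : ℝ → ℝ} (hf : Integrable f) (h0 : ∀ x, 0 ≤ f x) :
    Integrable f ν ∧ ∫ x, f x ∂ν ≤ G * ∫ x, f x := by
  obtain ⟨g, hg, hg0, hgG, -, hν⟩ := h.dens
  have h1 := one_dens_le hg hg0 hν hf.aestronglyMeasurable h0 (hf.const_mul G)
    fun t => mul_le_mul_of_nonneg_right (hgG t) (h0 t)
  rw [integral_const_mul] at h1
  exact h1

/-- second moment of `1/|σt - c|`.  Proof: `int_le` and the Cauchy integral
(`cauchy_integral` of Pool.Agent.H989.Gauss, `norm_den_sq`). -/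
theorem Law.int_inv_sq (h : Law ν G) {σ : ℝ} (hσ : 0 < σ) {c : ℂ} (hc : 0 < c.im) :
    Integrable (fun t => (‖den σ c t‖ ^ 2)⁻¹) ν ∧
      ∫ t, (‖den σ c t‖ ^ 2)⁻¹ ∂ν ≤ Real.pi * G / (σ * c.im) := by
  simp only [norm_den_sq]
  have h1 := h.int_le (cauchy_integrable hσ hc (r := c.re)) fun x => by positivity
  rw [cauchy_integral hσ hc] at h1
  refine ⟨h1.1, h1.2.trans (le_of_eq ?_)⟩
  ring

/-- third moment.  (The Lebesgue integral of `(y ^ 2 + b ^ 2) ^ (-3/2)` is `2 / b ^ 2`; the weaker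
constant `π` follows from `‖den‖ ≥ c.im` and the second moment.) -/
theorem Law.int_inv_cube (h : Law ν G) {σ : ℝ} (hσ : 0 < σ) {c : ℂ} (hc : 0 < c.im) :
    Integrable (fun t => (‖den σ c t‖ ^ 3)⁻¹) ν ∧
      ∫ t, (‖den σ c t‖ ^ 3)⁻¹ ∂ν ≤ Real.pi * G / (σ * c.im ^ 2) := by
  have h1 := h.int_inv_sq hσ hc
  have h2 : ∀ t, (‖den σ c t‖ ^ 3)⁻¹ ≤ c.im⁻¹ * (‖den σ c t‖ ^ 2)⁻¹ := by
    intro t
    have h3 := norm_den_pos σ hc t
    have h4 := im_le_norm_den σ hc.le t
    rw [← mul_inv]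
    apply inv_anti₀ (by positivity)
    rw [pow_succ' _ 2]
    exact mul_le_mul_of_nonneg_right h4 (by positivity)
  have h5 : Integrable (fun t => (‖den σ c t‖ ^ 3)⁻¹) ν := by
    refine Integrable.mono' (h1.1.const_mul c.im⁻¹) ?_ (Filter.Eventually.of_forall fun t => ?_)
    · exact (((continuous_den σ c).norm.pow 3).measurable.inv).aestronglyMeasurable
    · rw [Real.norm_eq_abs, abs_of_nonneg (by positivity)]
      exact h2 t
  refine ⟨h5, (integral_mono h5 (h1.1.const_mul c.im⁻¹) h2).trans ?_⟩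
  rw [integral_const_mul]
  calc c.im⁻¹ * ∫ t, (‖den σ c t‖ ^ 2)⁻¹ ∂ν ≤ c.im⁻¹ * (Real.pi * G / (σ * c.im)) := by
        gcongr
        exact h1.2
    _ = Real.pi * G / (σ * c.im ^ 2) := by field_simp

/-- bounded measurable functions are integrable -/
theorem one_integrable_inv (hp : IsProbabilityMeasure ν) (σ : ℝ) {c : ℂ} (hc : 0 < c.im) :
    Integrable (fun t => ‖den σ c t‖⁻¹) ν := by
  refine Integrable.of_bound (C := c.im⁻¹)
    ((continuous_den σ c).norm.measurable.inv).aestronglyMeasurable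
    (Filter.Eventually.of_forall fun t => ?_)
  rw [Real.norm_eq_abs, abs_of_nonneg (by positivity)]
  exact inv_anti₀ hc (im_le_norm_den σ hc.le t)

theorem one_integrable_ratio (hp : IsProbabilityMeasure ν) (σ : ℝ) (z : ℂ) {c : ℂ}
    (hc : 0 < c.im) : Integrable (fun t => ‖den σ z t‖ * ‖den σ c t‖⁻¹) ν := by
  refine Integrable.of_bound (C := 1 + ‖c - z‖ / c.im) ?_
    (Filter.Eventually.of_forall fun t => ?_)
  · exact (((continuous_den σ z).norm.measurable).mul
      ((continuous_den σ c).norm.measurable.inv)).aestronglyMeasurable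
  · rw [Real.norm_eq_abs, abs_of_nonneg (by positivity)]
    have a3 := norm_den_pos σ hc t
    have a4 : ‖den σ z t‖ ≤ ‖den σ c t‖ + ‖c - z‖ := by
      have : den σ z t = den σ c t + (c - z) := by unfold den; ring
      rw [this]; exact norm_add_le _ _
    rw [← div_eq_mul_inv, div_le_iff₀ a3]
    calc ‖den σ z t‖ ≤ ‖den σ c t‖ + ‖c - z‖ := a4
      _ ≤ ‖den σ c t‖ + ‖c - z‖ / c.im * ‖den σ c t‖ := by
          gcongr
          rw [div_mul_eq_mul_div, le_div_iff₀ hc]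
          gcongr
          exact im_le_norm_den σ hc.le t
      _ = _ := by ring

/-- the dyadic sum of Cauchy densities -/
noncomputable def one_S (σ η a : ℝ) (n : ℕ) (t : ℝ) : ℝ :=
  ∑ k ∈ Finset.range (n + 1), 4 * ((η * 2 ^ k) * ((σ * t - a) ^ 2 + (η * 2 ^ k) ^ 2)⁻¹)

theorem one_S_nonneg {σ η a : ℝ} (hη : 0 < η) (n : ℕ) (t : ℝ) : 0 ≤ one_S σ η a n t := by
  unfold one_S
  exact Finset.sum_nonneg fun k _ => by positivity

theorem one_S_int {σ η a : ℝ} (hσ : 0 < σ) (hη : 0 < η) (n : ℕ) :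
    Integrable (one_S σ η a n) ∧ ∫ t, one_S σ η a n t = 4 * Real.pi * (n + 1) / σ := by
  have h1 : ∀ k ∈ Finset.range (n + 1), Integrable fun t : ℝ =>
      4 * ((η * 2 ^ k) * ((σ * t - a) ^ 2 + (η * 2 ^ k) ^ 2)⁻¹) := fun k _ =>
    ((cauchy_integrable hσ (by positivity)).const_mul _).const_mul _
  constructor
  · exact integrable_finsetSum _ h1
  · unfold one_S
    rw [integral_finsetSum _ h1]
    have h2 : ∀ k ∈ Finset.range (n + 1), ∫ t : ℝ,
        4 * ((η * 2 ^ k) * ((σ * t - a) ^ 2 + (η * 2 ^ k) ^ 2)⁻¹) = 4 * Real.pi / σ := by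
      intro k _
      rw [integral_const_mul, integral_const_mul, cauchy_integral hσ (by positivity)]
      field_simp
    rw [Finset.sum_congr rfl h2, Finset.sum_const, Finset.card_range, nsmul_eq_mul]
    push_cast
    ring

theorem one_inv_le {σ η : ℝ} (hσ : 0 < σ) (hη : 0 < η) {n : ℕ} (hn : σ ≤ η * 2 ^ (n + 1)) {c : ℂ}
    (hc : η ≤ c.im) (t : ℝ) : ‖den σ c t‖⁻¹ ≤ one_S σ η c.re n t + σ⁻¹ := by
  have hc0 : 0 < c.im := hη.trans_le hc
  have h := inv_le_sum hσ hη hn (hc.trans (im_le_norm_den σ hc0.le t))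
  refine h.trans ?_
  unfold one_S
  refine add_le_add (Finset.sum_le_sum fun k _ => ?_) le_rfl
  refine mul_le_mul_of_nonneg_left (mul_le_mul_of_nonneg_left
    (inv_anti₀ (by positivity) ?_) (by positivity)) (by norm_num)
  rw [norm_den_sq]
  nlinarith [sq_nonneg c.im]

/-- `|a| * I₁`: the mean of `|t|/|σt - c|` -/
theorem one_abs (h : Law ν G) {σ η : ℝ} (hσ : 0 < σ) (hη : 0 < η) {n : ℕ}
    (hn : σ ≤ η * 2 ^ (n + 1)) {c : ℂ} (hc : η ≤ c.im) :
    Integrable (fun t => |t| * ‖den σ c t‖⁻¹) ν ∧ ∫ t, |t| * ‖den σ c t‖⁻¹ ∂ν ≤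
      (1 / 2 + G * (4 * Real.pi * (n + 1) + 2 * Real.pi)) / σ := by
  obtain ⟨g, hg, hg0, hgG, hgt, hν⟩ := h.dens
  have hG : 0 ≤ G := (hg0 0).trans (hgG 0)
  have hc0 : 0 < c.im := hη.trans_le hc
  obtain ⟨hgi, hg1⟩ := one_dens_int hg hg0 hν h.prob
  obtain ⟨hS1, hS2⟩ := one_S_int (a := c.re) hσ hη n
  have hC := cauchy_integrable (r := c.re) hσ hσ
  have hC' : Integrable (fun t => 2 * σ * ((σ * t - c.re) ^ 2 + σ ^ 2)⁻¹) := hC.const_mul _
  have hB : Integrable (fun t => one_S σ η c.re n t +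
      2 * σ * ((σ * t - c.re) ^ 2 + σ ^ 2)⁻¹) := hS1.add hC'
  have hH : Integrable (fun t => 1 / 2 * σ⁻¹ * g t + G * (one_S σ η c.re n t +
      2 * σ * ((σ * t - c.re) ^ 2 + σ ^ 2)⁻¹)) :=
    (hgi.const_mul _).add (hB.const_mul _)
  have hHi : ∫ t, (1 / 2 * σ⁻¹ * g t + G * (one_S σ η c.re n t +
      2 * σ * ((σ * t - c.re) ^ 2 + σ ^ 2)⁻¹)) =
      (1 / 2 + G * (4 * Real.pi * (n + 1) + 2 * Real.pi)) / σ := by
    rw [integral_add (hgi.const_mul (1 / 2 * σ⁻¹)) (hB.const_mul G),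
      integral_const_mul, integral_const_mul, integral_add hS1 hC', hS2,
      integral_const_mul, cauchy_integral hσ hσ, hg1]
    field_simp
  have hmain := one_dens_le hg hg0 hν (F := fun t => |t| * ‖den σ c t‖⁻¹)
    (H := fun t => 1 / 2 * σ⁻¹ * g t + G * (one_S σ η c.re n t +
      2 * σ * ((σ * t - c.re) ^ 2 + σ ^ 2)⁻¹))
    ((continuous_abs.measurable.mul
      ((continuous_den σ c).norm.measurable.inv)).aestronglyMeasurable)
    (fun t => by positivity) hH ?_
  · rw [hHi] at hmain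
    exact hmain
  · intro t
    have hS0 := one_S_nonneg (σ := σ) (a := c.re) hη n t
    have hD := norm_den_pos σ hc0 t
    have hDsq := norm_den_sq σ c t
    set D := ‖den σ c t‖ with hDdef
    have hinv : 0 < D⁻¹ := inv_pos.2 hD
    have hga : 0 ≤ 1 / 2 * σ⁻¹ * g t := mul_nonneg (by positivity) (hg0 t)
    have hQ : 0 < (σ * t - c.re) ^ 2 + σ ^ 2 := by positivity
    by_cases hlt : D < σ
    · have h1 : |t| * g t ≤ G := by
        have h2 : |t| ≤ (1 + t ^ 2) / 2 := by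
          have := sq_nonneg (|t| - 1)
          have h3 := sq_abs t
          nlinarith
        have h3 := hgG t
        have h4 := hgt t
        have h5 : |t| * g t ≤ (1 + t ^ 2) / 2 * g t := mul_le_mul_of_nonneg_right h2 (hg0 t)
        nlinarith
      have h2 := one_inv_le hσ hη hn hc t
      have h3 : σ⁻¹ ≤ 2 * σ * ((σ * t - c.re) ^ 2 + σ ^ 2)⁻¹ := by
        rw [inv_eq_one_div, div_le_iff₀ hσ]
        have h4 : (σ * t - c.re) ^ 2 ≤ σ ^ 2 := by
          have h5 : D ^ 2 ≤ σ ^ 2 := pow_le_pow_left₀ hD.le hlt.le 2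
          have h6 := sq_nonneg c.im
          linarith
        rw [mul_right_comm, ← div_eq_mul_inv, le_div_iff₀ hQ]
        nlinarith
      have h4 : D⁻¹ ≤ one_S σ η c.re n t + 2 * σ * ((σ * t - c.re) ^ 2 + σ ^ 2)⁻¹ := by
        linarith
      calc g t * (|t| * D⁻¹) = (|t| * g t) * D⁻¹ := by ring
        _ ≤ G * D⁻¹ := mul_le_mul_of_nonneg_right h1 hinv.le
        _ ≤ G * (one_S σ η c.re n t + 2 * σ * ((σ * t - c.re) ^ 2 + σ ^ 2)⁻¹) :=
            mul_le_mul_of_nonneg_left h4 hG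
        _ ≤ _ := by linarith
    · push Not at hlt
      have h1 : |t| * D⁻¹ ≤ 1 / 2 * (σ⁻¹ + σ * t ^ 2 * (D⁻¹) ^ 2) := by
        have h2 : 0 ≤ σ⁻¹ * (1 - σ * (|t| * D⁻¹)) ^ 2 := by positivity
        have h3 : σ⁻¹ * (1 - σ * (|t| * D⁻¹)) ^ 2 =
            σ⁻¹ - 2 * (|t| * D⁻¹) + σ * |t| ^ 2 * (D⁻¹) ^ 2 := by
          field_simp
          ring
        rw [h3, sq_abs] at h2
        linarith
      have h2 : (D⁻¹) ^ 2 ≤ 2 * ((σ * t - c.re) ^ 2 + σ ^ 2)⁻¹ := by
        rw [inv_pow, inv_eq_one_div, div_le_iff₀ (by positivity), mul_right_comm,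
          ← div_eq_mul_inv, le_div_iff₀ hQ]
        have h3 : σ ^ 2 ≤ D ^ 2 := pow_le_pow_left₀ hσ.le hlt 2
        have h4 := sq_nonneg c.im
        linarith
      calc g t * (|t| * D⁻¹) ≤ g t * (1 / 2 * (σ⁻¹ + σ * t ^ 2 * (D⁻¹) ^ 2)) :=
            mul_le_mul_of_nonneg_left h1 (hg0 t)
        _ = 1 / 2 * σ⁻¹ * g t + 1 / 2 * σ * (t ^ 2 * g t) * (D⁻¹) ^ 2 := by ring
        _ ≤ 1 / 2 * σ⁻¹ * g t + 1 / 2 * σ * G *
              (2 * ((σ * t - c.re) ^ 2 + σ ^ 2)⁻¹) := by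
            have h5 : 1 / 2 * σ * (t ^ 2 * g t) ≤ 1 / 2 * σ * G :=
              mul_le_mul_of_nonneg_left (hgt t) (by positivity)
            have h6 : 1 / 2 * σ * (t ^ 2 * g t) * (D⁻¹) ^ 2 ≤ 1 / 2 * σ * G * (D⁻¹) ^ 2 :=
              mul_le_mul_of_nonneg_right h5 (by positivity)
            have h7 : 1 / 2 * σ * G * (D⁻¹) ^ 2 ≤ 1 / 2 * σ * G *
              (2 * ((σ * t - c.re) ^ 2 + σ ^ 2)⁻¹) :=
              mul_le_mul_of_nonneg_left h2 (by positivity)
            linarith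
        _ ≤ _ := by
            have h8 : 0 ≤ G * one_S σ η c.re n t := mul_nonneg hG hS0
            have h9 : 0 ≤ G * (σ * ((σ * t - c.re) ^ 2 + σ ^ 2)⁻¹) := by positivity
            nlinarith

/-- the first moment: `q * I₁ ≤ …` for `q = σ`, `|c.re|`, `c.im` -/
theorem one_first (h : Law ν G) {σ η : ℝ} (hσ : 0 < σ) (hη : 0 < η) {n : ℕ}
    (hn : σ ≤ η * 2 ^ (n + 1)) {c : ℂ} (hc : η ≤ c.im) :
    max |c.re| (max c.im σ) * ∫ t, ‖den σ c t‖⁻¹ ∂ν ≤
      3 / 2 + G * (4 * Real.pi * (n + 1) + 2 * Real.pi) := by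
  have hp := h.prob
  have hG : 0 ≤ G := by
    obtain ⟨g, -, hg0, hgG, -, -⟩ := h.dens
    exact (hg0 0).trans (hgG 0)
  have hc0 : 0 < c.im := hη.trans_le hc
  have hint := one_integrable_inv hp σ hc0
  obtain ⟨hS1, hS2⟩ := one_S_int (a := c.re) hσ hη n
  obtain ⟨hA1, hA2⟩ := one_abs h hσ hη hn hc
  have hpi := Real.pi_pos
  have hI0 : 0 ≤ ∫ t, ‖den σ c t‖⁻¹ ∂ν := integral_nonneg fun t => by positivity
  have hn0 : (0 : ℝ) ≤ n := Nat.cast_nonneg n
  have e0 : 0 ≤ G * (4 * Real.pi * (n + 1) + 2 * Real.pi) := by positivity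
  have e1 : |c.re| * ∫ t, ‖den σ c t‖⁻¹ ∂ν ≤
      3 / 2 + G * (4 * Real.pi * (n + 1) + 2 * Real.pi) := by
    rw [← integral_const_mul]
    have h1 : ∀ t, |c.re| * ‖den σ c t‖⁻¹ ≤ 1 + σ * (|t| * ‖den σ c t‖⁻¹) := by
      intro t
      have hD := norm_den_pos σ hc0 t
      have h2 : |σ * t - c.re| ≤ ‖den σ c t‖ := by
        have := Complex.abs_re_le_norm (den σ c t)
        simpa [den] using this
      have h3 : |c.re| ≤ ‖den σ c t‖ + σ * |t| := by
        have h4 : c.re = -(σ * t - c.re) + σ * t := by ring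
        have h5 : |c.re| ≤ |-(σ * t - c.re)| + |σ * t| := by
          conv_lhs => rw [h4]
          exact abs_add_le _ _
        rw [abs_neg, abs_mul, abs_of_pos hσ] at h5
        linarith
      calc |c.re| * ‖den σ c t‖⁻¹ ≤ (‖den σ c t‖ + σ * |t|) * ‖den σ c t‖⁻¹ :=
            mul_le_mul_of_nonneg_right h3 (by positivity)
        _ = 1 + σ * (|t| * ‖den σ c t‖⁻¹) := by field_simp
    calc ∫ t, |c.re| * ‖den σ c t‖⁻¹ ∂ν ≤ ∫ t, (1 + σ * (|t| * ‖den σ c t‖⁻¹)) ∂ν :=
          integral_mono (hint.const_mul _) ((integrable_const _).add (hA1.const_mul _)) h1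
      _ = 1 + σ * ∫ t, |t| * ‖den σ c t‖⁻¹ ∂ν := by
          rw [integral_add (integrable_const _) (hA1.const_mul _), integral_const_mul]
          simp
      _ ≤ 1 + σ * ((1 / 2 + G * (4 * Real.pi * (n + 1) + 2 * Real.pi)) / σ) := by
          gcongr
      _ = _ := by
          rw [mul_div_cancel₀ _ hσ.ne']
          ring
  have e2 : c.im * ∫ t, ‖den σ c t‖⁻¹ ∂ν ≤
      3 / 2 + G * (4 * Real.pi * (n + 1) + 2 * Real.pi) := by
    have h1 : ∫ t, ‖den σ c t‖⁻¹ ∂ν ≤ ∫ t, c.im⁻¹ ∂ν :=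
      integral_mono hint (integrable_const _) fun t =>
        inv_anti₀ hc0 (im_le_norm_den σ hc0.le t)
    have h2 : ∫ t, c.im⁻¹ ∂ν = c.im⁻¹ := by simp
    rw [h2] at h1
    have h3 : c.im * ∫ t, ‖den σ c t‖⁻¹ ∂ν ≤ c.im * c.im⁻¹ :=
      mul_le_mul_of_nonneg_left h1 hc0.le
    rw [mul_inv_cancel₀ hc0.ne'] at h3
    linarith
  have e3 : σ * ∫ t, ‖den σ c t‖⁻¹ ∂ν ≤
      3 / 2 + G * (4 * Real.pi * (n + 1) + 2 * Real.pi) := by
    obtain ⟨h1, h2⟩ := h.int_le hS1 (one_S_nonneg hη n)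
    have h3 : ∫ t, ‖den σ c t‖⁻¹ ∂ν ≤ ∫ t, (one_S σ η c.re n t + σ⁻¹) ∂ν :=
      integral_mono hint (h1.add (integrable_const _)) (one_inv_le hσ hη hn hc)
    rw [integral_add h1 (integrable_const _)] at h3
    have h4 : ∫ t, σ⁻¹ ∂ν = σ⁻¹ := by simp
    rw [h4] at h3
    rw [hS2] at h2
    have h5 : σ * ∫ t, ‖den σ c t‖⁻¹ ∂ν ≤ σ * (G * (4 * Real.pi * (n + 1) / σ) + σ⁻¹) :=
      mul_le_mul_of_nonneg_left (by linarith) hσ.le
    have h6 : σ * (G * (4 * Real.pi * (n + 1) / σ) + σ⁻¹) = G * (4 * Real.pi * (n + 1)) + 1 := by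
      field_simp
    rw [h6] at h5
    nlinarith
  rcases max_cases |c.re| (max c.im σ) with ⟨h1, _⟩ | ⟨h1, _⟩
  · rw [h1]; exact e1
  · rw [h1]
    rcases max_cases c.im σ with ⟨h2, _⟩ | ⟨h2, _⟩
    · rw [h2]; exact e2
    · rw [h2]; exact e3

/-- the lower bound for the mean of `|σt - z|/|σt - c|` -/
theorem one_second (h : Law ν G) (hG : 0 < G) {σ η : ℝ} (hσ : 0 < σ) (hη : 0 < η) (E : ℝ) {c : ℂ}
    (hc : η ≤ c.im) :
    1 / 2 * (σ / (8 * G)) / ((8 * Real.pi * G + 2) * max |c.re| (max c.im σ)) ≤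
      ∫ t, ‖den σ (en η E) t‖ * ‖den σ c t‖⁻¹ ∂ν := by
  have hp := h.prob
  have hc0 : 0 < c.im := hη.trans_le hc
  have hint := one_integrable_ratio hp σ (en η E) hc0
  have hpi := Real.pi_pos
  set T : ℝ := 8 * Real.pi * G with hT
  have hT0 : 0 < T := by positivity
  set q : ℝ := max |c.re| (max c.im σ) with hq
  have hq1 : |c.re| ≤ q := le_max_left _ _
  have hq2 : c.im ≤ q := (le_max_left _ _).trans (le_max_right _ _)
  have hq3 : σ ≤ q := (le_max_right _ _).trans (le_max_right _ _)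
  have hq0 : 0 < q := hσ.trans_le hq3
  -- the bad sets
  set A : Set ℝ := {t | T < |t|} with hA
  have hAm : MeasurableSet A := measurableSet_lt measurable_const continuous_abs.measurable
  set B : Set ℝ := Set.Icc (E / σ - 1 / (8 * G)) (E / σ + 1 / (8 * G)) with hB
  have hB1 : ν.real B ≤ 1 / 4 := by
    have h1 := h.Icc_le (a := E / σ - 1 / (8 * G)) (b := E / σ + 1 / (8 * G)) (by
      have : 0 < 1 / (8 * G) := by positivity
      linarith)
    refine h1.trans (le_of_eq ?_)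
    field_simp
    ring
  have hA1 : ν.real A ≤ 1 / 4 := by
    obtain ⟨g, hg, hg0, hgG, hgt, hν⟩ := h.dens
    have h1 := one_dens_le hg hg0 hν (F := A.indicator fun _ => (1 : ℝ))
      (H := fun t => 2 * G * ((1 * t - 0) ^ 2 + T ^ 2)⁻¹)
      ((measurable_const.indicator hAm).aestronglyMeasurable)
      (fun t => Set.indicator_nonneg (fun _ _ => zero_le_one) t)
      ((cauchy_integrable one_pos hT0).const_mul _) (fun t => ?_)
    · have h2 := h1.2
      rw [integral_indicator_const _ hAm, integral_const_mul, cauchy_integral one_pos hT0] at h2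
      rw [smul_eq_mul, mul_one] at h2
      refine h2.trans (le_of_eq ?_)
      rw [hT]
      field_simp
      ring
    · by_cases ht : t ∈ A
      · rw [Set.indicator_of_mem ht, mul_one, one_mul, sub_zero]
        have h2 : T < |t| := ht
        have h3 : T ^ 2 ≤ t ^ 2 := by
          rw [← sq_abs t]
          exact pow_le_pow_left₀ hT0.le h2.le 2
        have h4 : 0 < t ^ 2 + T ^ 2 := by positivity
        rw [← div_eq_mul_inv, le_div_iff₀ h4]
        have h5 := hgt t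
        have h6 := hg0 t
        nlinarith
      · rw [Set.indicator_of_notMem ht, mul_zero]
        positivity
  have hAB : ν.real (A ∪ B) ≤ 1 / 2 := (measureReal_union_le _ _).trans (by linarith)
  have hABm : MeasurableSet (A ∪ B) := hAm.union measurableSet_Icc
  have hS : 1 / 2 ≤ ν.real (A ∪ B)ᶜ := by
    rw [probReal_compl_eq_one_sub hABm]
    linarith
  have hpt : ∀ t ∈ (A ∪ B)ᶜ, (σ / (8 * G)) / ((T + 2) * q) ≤
      ‖den σ (en η E) t‖ * ‖den σ c t‖⁻¹ := by
    intro t ht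
    have htA : |t| ≤ T := by
      by_contra hcon
      exact ht (Or.inl (not_le.1 hcon))
    have htB : σ / (8 * G) ≤ |σ * t - E| := by
      by_contra hcon
      push Not at hcon
      apply ht
      right
      rw [abs_lt] at hcon
      have e1 : σ / (8 * G) = σ * (1 / (8 * G)) := by ring
      have e2 : σ * (E / σ) = E := by field_simp
      rw [e1] at hcon
      constructor
      · by_contra h3
        push Not at h3
        have h4 := mul_lt_mul_of_pos_left h3 hσ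
        rw [mul_sub, e2] at h4
        linarith [hcon.1]
      · by_contra h3
        push Not at h3
        have h4 := mul_lt_mul_of_pos_left h3 hσ
        rw [mul_add, e2] at h4
        linarith [hcon.2]
    have h1 : |σ * t - E| ≤ ‖den σ (en η E) t‖ := by
      have := Complex.abs_re_le_norm (den σ (en η E) t)
      simpa [den, en_re] using this
    have hD := norm_den_pos σ hc0 t
    have h2 : ‖den σ c t‖ ≤ (T + 2) * q := by
      calc ‖den σ c t‖ ≤ ‖((σ * t : ℝ) : ℂ)‖ + ‖c‖ := norm_sub_le _ _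
        _ ≤ σ * T + (|c.re| + |c.im|) := by
            gcongr
            · rw [Complex.norm_real, Real.norm_eq_abs, abs_mul, abs_of_pos hσ]
              gcongr
            · exact Complex.norm_le_abs_re_add_abs_im c
        _ ≤ q * T + (q + q) := by
            rw [abs_of_pos hc0]
            gcongr
        _ = (T + 2) * q := by ring
    rw [div_eq_mul_inv]
    exact mul_le_mul (htB.trans h1) (inv_anti₀ hD h2) (by positivity) (norm_nonneg _)
  set κ : ℝ := (σ / (8 * G)) / ((T + 2) * q) with hκ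
  have hκ0 : 0 ≤ κ := by positivity
  calc 1 / 2 * (σ / (8 * G)) / ((T + 2) * q) = 1 / 2 * κ := by rw [hκ]; ring
    _ ≤ ν.real (A ∪ B)ᶜ * κ := mul_le_mul_of_nonneg_right hS hκ0
    _ = ∫ t in (A ∪ B)ᶜ, κ ∂ν := by rw [setIntegral_const, smul_eq_mul]
    _ ≤ ∫ t in (A ∪ B)ᶜ, ‖den σ (en η E) t‖ * ‖den σ c t‖⁻¹ ∂ν := by
        refine setIntegral_mono_on ?_ hint.integrableOn hABm.compl hpt
        exact integrableOn_const (by simp)
    _ ≤ _ := by
        refine setIntegral_le_integral hint (Filter.Eventually.of_forall fun t => ?_)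
        simp only [Pi.zero_apply]
        positivity

theorem one_exists_n {σ η : ℝ} (hη : 0 < η) (hησ : η ≤ σ) : ∃ n : ℕ, σ ≤ η * 2 ^ (n + 1) ∧
    (n : ℝ) + 1 ≤ 2 * (1 + Real.log (σ / η)) := by
  have hσ : 0 < σ := hη.trans_le hησ
  have h1 : 1 ≤ σ / η := (one_le_div hη).2 hησ
  obtain ⟨k, hk1, hk2⟩ := exists_nat_pow_near h1 (by norm_num : (1 : ℝ) < 2)
  refine ⟨k, ?_, ?_⟩
  · rw [div_lt_iff₀ hη] at hk2
    rw [mul_comm]
    exact hk2.le
  · have h2 : (k : ℝ) * Real.log 2 ≤ Real.log (σ / η) := by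
      rw [← Real.log_pow]
      exact Real.log_le_log (by positivity) hk1
    have h3 : (1 : ℝ) / 2 ≤ Real.log 2 := by
      have := Real.log_two_gt_d9
      linarith
    have h4 : (k : ℝ) * (1 / 2) ≤ k * Real.log 2 :=
      mul_le_mul_of_nonneg_left h3 (Nat.cast_nonneg k)
    linarith

/-- The one-site hypotheses at `z = E + i η` (`en η E`, `Pool.Agent.H989.Spec`), with constants which
depend only on `G`.

Proof.  Write `c = a + i b`, `b ≥ η`, `l = 1 + log (σ / η) ≥ 1`, `q = max |a| (max b σ)`.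
(1) `I₁ = ∫ 1/|σt - c| dν ≤ C₁ l / q`: if `b = q` use `|σt - c| ≥ b`.  Otherwise let
`r = max |a| σ / 2 = q / 2`.  On `|σt - a| > r` the integrand is at most `1/r`.  On `|σt - a| ≤ r`: if
`|a| ≤ σ`, the density is at most `G` and `∫_{|y| ≤ r} dy / √(y² + b²) ≤ 2 + 2 log (1 + r / b)` gives
`(G / σ) (2 + 2 log (1 + σ / η))`; if `|a| > σ`, then `|σt| ≥ |a|/2` there, so the density is at most
`4 G σ² / a²`, which gives `(4 G σ / a²) (2 + 2 log (1 + |a| / b))`, and with `x = σ / |a| ≤ 1`: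
`x log (1 + |a|/b) ≤ x log ((1/x) (1 + σ/b)) ≤ 1 + log (1 + σ/η)`.
(An alternative to the integral: dyadic sums as in `int_inv_le`, `inv_le_sum` of
Pool.Agent.H989.Gauss.)
(2) `I₂ = ∫ |σt - z|/|σt - c| dν ≥ c₂ σ / q`: let `T = 8 G` and `δ = 1 / (8 G)`.  The set
`{|t| ≤ T, |σt - E| ≥ δ σ}` has `ν`-measure at least `1/2`, since `ν {|t| > T} ≤ 2 G / T = 1/4` (from
`g t ≤ G / t²`) and `ν {|σt - E| < δσ} ≤ 2 G δ = 1/4`; on it `|σt - z| ≥ δσ` and
`|σt - c| ≤ Tσ + |a| + b ≤ (T + 2) q`.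
So `I₁ ≤ C l / σ * I₂` and `I₁ ≤ C l / σ`. Integrability: all integrands are bounded and continuous
(`|σt - z|/|σt - c| ≤ 1 + |c - z|/η`). -/
theorem one_site (G : ℝ) (hG : 0 < G) : ∃ C : ℝ, 1 ≤ C ∧ ∀ ν : Measure ℝ, Law ν G →
    ∀ σ η E : ℝ, 0 < η → η ≤ σ →
      OneSite ν σ (en η E) (C * (1 + Real.log (σ / η)) / σ) (C * (1 + Real.log (σ / η)) / σ) := by
  have hpi := Real.pi_pos
  set C₁ : ℝ := 3 / 2 + 10 * Real.pi * G with hC₁
  have hC₁0 : 0 < C₁ := by positivity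
  set c₂ : ℝ := 1 / 2 / (8 * G) / (8 * Real.pi * G + 2) with hc₂
  have hc₂0 : 0 < c₂ := by positivity
  refine ⟨max (max 1 C₁) (C₁ / c₂), (le_max_left _ _).trans (le_max_left _ _), ?_⟩
  intro ν hν σ η E hη hησ
  set C := max (max 1 C₁) (C₁ / c₂) with hC
  have hCC₁ : C₁ ≤ C := (le_max_right _ _).trans (le_max_left _ _)
  have hCc : C₁ / c₂ ≤ C := le_max_right _ _
  have hσ : 0 < σ := hη.trans_le hησ
  have hp := hν.prob
  set l : ℝ := 1 + Real.log (σ / η) with hl
  have hl1 : 1 ≤ l := by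
    have := Real.log_nonneg ((one_le_div hη).2 hησ)
    linarith
  obtain ⟨n, hn1, hn2⟩ := one_exists_n hη hησ
  have key : ∀ c : ℂ, η ≤ c.im →
      ∫ t, ‖den σ c t‖⁻¹ ∂ν ≤ C₁ * l / max |c.re| (max c.im σ) := by
    intro c hc
    have h1 := one_first hν hσ hη hn1 hc
    have hq0 : 0 < max |c.re| (max c.im σ) :=
      hσ.trans_le ((le_max_right _ _).trans (le_max_right _ _))
    rw [le_div_iff₀ hq0, mul_comm]
    refine h1.trans ?_
    have h2 : G * (4 * Real.pi * (n + 1) + 2 * Real.pi) ≤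
        G * (4 * Real.pi * (2 * l) + 2 * Real.pi * l) := by
      apply mul_le_mul_of_nonneg_left _ hG.le
      apply add_le_add
      · exact mul_le_mul_of_nonneg_left hn2 (by positivity)
      · exact le_mul_of_one_le_right (by positivity) hl1
    have h3 : (3 : ℝ) / 2 ≤ 3 / 2 * l := by linarith
    calc 3 / 2 + G * (4 * Real.pi * (n + 1) + 2 * Real.pi)
        ≤ 3 / 2 * l + G * (4 * Real.pi * (2 * l) + 2 * Real.pi * l) := add_le_add h3 h2
      _ = C₁ * l := by rw [hC₁]; ring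
  refine ⟨fun c hc => ?_, fun c hc => ?_, fun c hc => ?_, fun c hc => ?_⟩
  · exact one_integrable_inv hp σ (hη.trans_le hc)
  · exact one_integrable_ratio hp σ (en η E) (hη.trans_le hc)
  · have hc' : η ≤ c.im := hc
    refine (key c hc').trans ?_
    have hq3 : σ ≤ max |c.re| (max c.im σ) := (le_max_right _ _).trans (le_max_right _ _)
    gcongr
  · have hc' : η ≤ c.im := hc
    have h1 := key c hc'
    have h2 := one_second hν hG hσ hη E hc'
    set q := max |c.re| (max c.im σ) with hq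
    have hq3 : σ ≤ q := (le_max_right _ _).trans (le_max_right _ _)
    have hq0 : 0 < q := hσ.trans_le hq3
    have h3 : 1 / 2 * (σ / (8 * G)) / ((8 * Real.pi * G + 2) * q) = c₂ * (σ / q) := by
      rw [hc₂]
      field_simp
    rw [h3] at h2
    have h4 : C₁ * l / q = (C₁ / c₂ * l / σ) * (c₂ * (σ / q)) := by
      field_simp
    calc ∫ t, ‖den σ c t‖⁻¹ ∂ν ≤ C₁ * l / q := h1
      _ = (C₁ / c₂ * l / σ) * (c₂ * (σ / q)) := h4
      _ ≤ (C * l / σ) * ∫ t, ‖den σ (en η E) t‖ * ‖den σ c t‖⁻¹ ∂ν := by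
          apply mul_le_mul _ h2 (by positivity) (by positivity)
          gcongr

/-- the standard Gaussian law (`pdf_le` in Pool.Agent.H989.Gauss; `t² exp (-t²/2) ≤ 1`) -/
theorem law_gauss : Law (gaussianReal 0 1) 1 := by
  refine ⟨inferInstance, gaussianPDFReal 0 1, measurable_pdf, pdf_nonneg,
    fun t => (pdf_le t).trans (by norm_num), fun t => ?_, ?_⟩
  · rw [gaussianPDFReal_def]
    simp only [NNReal.coe_one, mul_one, sub_zero]
    have h2 : (2 : ℝ) ≤ √(2 * Real.pi) := by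
      apply Real.le_sqrt_of_sq_le
      nlinarith [Real.pi_gt_three]
    have h3 : (√(2 * Real.pi))⁻¹ ≤ 1 / 2 := by
      rw [one_div]; exact inv_anti₀ (by norm_num) h2
    have h4 : t ^ 2 * Real.exp (-t ^ 2 / 2) ≤ 2 := by
      have h5 := Real.add_one_le_exp (t ^ 2 / 2)
      have h6 : Real.exp (-t ^ 2 / 2) * Real.exp (t ^ 2 / 2) = 1 := by
        rw [← Real.exp_add]
        simp [neg_div]
      have h7 : 0 < Real.exp (-t ^ 2 / 2) := Real.exp_pos _
      nlinarith
    have h8 : 0 ≤ t ^ 2 * Real.exp (-t ^ 2 / 2) := by positivity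
    calc t ^ 2 * ((√(2 * Real.pi))⁻¹ * Real.exp (-t ^ 2 / 2))
        = (√(2 * Real.pi))⁻¹ * (t ^ 2 * Real.exp (-t ^ 2 / 2)) := by ring
      _ ≤ 1 / 2 * (t ^ 2 * Real.exp (-t ^ 2 / 2)) := mul_le_mul_of_nonneg_right h3 h8
      _ ≤ 1 := by linarith
  · rw [gaussianReal_of_var_ne_zero _ (by norm_num)]
    rfl

/-- the uniform law on `[-1, 1]` -/
theorem law_unif : Law ((2 : ENNReal)⁻¹ • volume.restrict (Set.Icc (-1 : ℝ) 1)) 1 := by
  refine ⟨⟨?_⟩, (Set.Icc (-1 : ℝ) 1).indicator (fun _ => 1 / 2),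
    measurable_const.indicator measurableSet_Icc,
    fun t => Set.indicator_nonneg (fun _ _ => by norm_num) t, fun t => ?_, fun t => ?_, ?_⟩
  · rw [Measure.smul_apply, Measure.restrict_apply MeasurableSet.univ, Set.univ_inter,
      Real.volume_Icc, smul_eq_mul]
    have h1 : ENNReal.ofReal (1 - -1) = 2 := by
      norm_num
    rw [h1]
    exact ENNReal.inv_mul_cancel (by norm_num) (by norm_num)
  · by_cases ht : t ∈ Set.Icc (-1 : ℝ) 1
    · rw [Set.indicator_of_mem ht]; norm_num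
    · rw [Set.indicator_of_notMem ht]; norm_num
  · by_cases ht : t ∈ Set.Icc (-1 : ℝ) 1
    · rw [Set.indicator_of_mem ht]
      have h1 := ht.1
      have h2 := ht.2
      nlinarith
    · rw [Set.indicator_of_notMem ht]; norm_num
  · have h1 : (fun t => ENNReal.ofReal ((Set.Icc (-1 : ℝ) 1).indicator (fun _ => (1 : ℝ) / 2) t)) =
        (Set.Icc (-1 : ℝ) 1).indicator (fun _ => (2 : ENNReal)⁻¹) := by
      funext t
      by_cases ht : t ∈ Set.Icc (-1 : ℝ) 1
      · rw [Set.indicator_of_mem ht, Set.indicator_of_mem ht, one_div,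
          ENNReal.ofReal_inv_of_pos (by norm_num)]
        norm_num
      · rw [Set.indicator_of_notMem ht, Set.indicator_of_notMem ht, ENNReal.ofReal_zero]
    rw [h1, withDensity_indicator measurableSet_Icc, withDensity_const]

end Pool.Agent.H989.SB
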