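import Pool.Agent.H989.SB.Amp
import Pool.Agent.H989.SB.Geo
import Pool.Agent.H989.SB.One

/-!
Definitions for the multi-stage argument: paths on the torus, windows, typical events.
-/

set_option linter.unusedSectionVars false
set_option linter.unusedVariables false

open MeasureTheory ProbabilityTheory Finset

namespace Pool.Agent.H989.SB

variable {d L : ℕ} [NeZero L]

/-- all steps of the torus -/
abbrev NN (d L : ℕ) [NeZero L] : Finset (Tor d L) := ND L (univ : Finset (Fin d))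

/-- the sites of the path with the steps `γ` which starts at `o` (`o` itself is not in the list) -/
def sites (o : Tor d L) : List (St d) → List (Tor d L)
  | [] => []
  | s :: γ => (o + st s) :: sites (o + st s) γ

/-- the end point of the path with the steps `γ` which starts at `o` -/
def ept (o : Tor d L) (γ : List (St d)) : Tor d L := o + (γ.map st).sum

/-- admissible lists of steps: different coordinates, none of them in `A` -/
def Val (A : Finset (Fin d)) (γ : List (St d)) : Prop :=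
  (γ.map Prod.fst).Nodup ∧ ∀ s ∈ γ, s.1 ∉ A

/-- the coordinates used by `γ` -/
def dirs (γ : List (St d)) : Finset (Fin d) := (γ.map Prod.fst).toFinset

/-- all of `Λ` is at `o` up to vectors supported in `A`, and `o ∈ Λ` -/
def Around (A : Finset (Fin d)) (o : Tor d L) (Λ : Finset (Tor d L)) : Prop :=
  o ∈ Λ ∧ ∀ y ∈ Λ, SupA A (y - o)

/-- height: `0` at `o`, `1` at the other sites of `Λ`, `|x - o|` elsewhere -/
def hgt (Λ : Finset (Tor d L)) (o x : Tor d L) : ℕ :=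
  if x = o then 0 else if x ∈ Λ then 1 else wt (x - o)

/-- position: `-1` at the sites of `Λ` except `o`, `|x - o|` elsewhere -/
def pos (Λ : Finset (Tor d L)) (o x : Tor d L) : ℤ :=
  if x = o then 0 else if x ∈ Λ then -1 else (wt (x - o) : ℤ)

/-- the distance used for the path from `o` and the sources `Λ` -/
def dsx (Λ : Finset (Tor d L)) (o x y : Tor d L) : ℕ :=
  if x = y then 0 else max 1 (pos Λ o x - pos Λ o y).natAbs

/-- the real parts of the pivots are in the given sets -/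
def InW {V : Type*} [AddCommGroup V] [Fintype V] [DecidableEq V] (N : Finset V) (v : V → ℝ) (z : ℂ) :
    Finset V → List V → List (Set ℝ) → Prop
  | _, [], _ => True
  | _, _ :: _, [] => True
  | Λ, x :: xs, w :: ws => (pv N Λ v z x).re ∈ w ∧ InW N v z (insert x Λ) xs ws

/-- window -/
def win (q : ℝ) (j : ℤ) : Set ℝ := {t | q ^ j ≤ |t| ∧ |t| < q ^ (j + 1)}

/-- enlarged window -/
def winp (q : ℝ) (j : ℤ) : Set ℝ := {t | q ^ (j - 1) ≤ |t| ∧ |t| < q ^ (j + 2)}

/-- admissible window exponents: at most `J` in absolute value, the partial sums of length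
`1, …, n - 1` are at least `h₀`, the sum is `s` -/
structure TW (n : ℕ) (J h₀ s : ℤ) (τ : List ℤ) : Prop where
  len : τ.length = n
  le : ∀ j ∈ τ, |j| ≤ J
  part : ∀ k : ℕ, 1 ≤ k → k < n → h₀ ≤ (τ.take k).sum
  tot : τ.sum = s

section events
variable (n : ℕ) (σ : ℝ) (z : ℂ) (K W θ : ℝ)

/-- the typical event of the path `γ` from `o`, for the removed sites `Λ` -/
structure Tp (A : Finset (Fin d)) (Λ : Finset (Tor d L)) (o : Tor d L) (γ : List (St d))
    (ξ : Tor d L → ℝ) : Prop where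
  tf : TF (NN d L) (pot σ ξ) z (dsx Λ o) W K (full Λ (sites o γ)) (sites o γ)
  ta : ∀ u : List (St d), Val A u → u ≠ [] → u.length ≤ n → (∀ s ∈ u, s ∉ γ) →
    ∀ x ∈ full Λ (sites o γ),
      ‖sol (NN d L) (full Λ (sites o γ)) (pot σ ξ) z (bx (NN d L) x) (ept o u)‖
        ≤ W * K⁻¹ ^ (hgt Λ o x)
  tb : ∀ u : List (St d), Val A u → u.length = n → (∃ s ∈ u, s ∈ γ) → ept o u ≠ ept o γ →
    ‖sol (NN d L) (full Λ (sites o γ)) (pot σ ξ) z (bx (NN d L) o) (ept o u)‖ ≤ W * K⁻¹ ∧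
    ‖sol (NN d L) (full Λ (sites o γ)) (pot σ ξ) z (bx (NN d L) (ept o γ)) (ept o u)‖ ≤ W * K⁻¹ ∧
    ∀ x ∈ sites o γ,
      ‖sol (NN d L) (full Λ (sites o γ)) (pot σ ξ) z (bx (NN d L) x) (ept o u)‖ ≤ W
  cube : ∀ u : List (St d), Val A u → (∀ s ∈ u, s ∈ γ) → ept o u ∉ full Λ (sites o γ) →
    5 * (K * θ) < |σ * ξ (ept o u) - z.re|
  pre : ∀ u : List (St d), Val A u → u.length = n → (∀ s ∈ u, s ∉ γ) → ∀ k : ℕ, k < n →
    (∀ x ∈ full Λ (sites o γ),
      ‖sol (NN d L) (full (full Λ (sites o γ)) (sites o (u.take k))) (pot σ ξ) z (bx (NN d L) x)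
        (ept o (u.take (k + 1)))‖ ≤ W * K⁻¹ ^ (hgt Λ o x)) ∧
    (∀ x ∈ sites o γ,
      ‖Qf (NN d L) (insert (ept o (u.take (k + 1)))
          (full (full Λ (sites o γ)) (sites o (u.take k)))) (pot σ ξ) z x
        (ept o (u.take (k + 1)))‖ ≤ W * K * K⁻¹ ^ (hgt Λ o x))

/-- a resonance at a site reached by `j * n` steps -/
def Res (M : ℝ) (j : ℕ) (A : Finset (Fin d)) (Λ : Finset (Tor d L)) (o : Tor d L)
    (ξ : Tor d L → ℝ) : Prop :=
  ∃ U : Finset (St d), Cons U ∧ Off A U ∧ U.card = j * n ∧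
    M ^ j ≤ ‖chi (NN d L) Λ (pot σ ξ) z o (o + vec U)‖ ∧
    ∀ x ∈ Λ, ‖chi (NN d L) Λ (pot σ ξ) z x (o + vec U)‖
      ≤ ‖chi (NN d L) Λ (pot σ ξ) z o (o + vec U)‖

/-- the event of stage `j` -/
def Wj (M Y : ℝ) (j : ℕ) (A : Finset (Fin d)) (Λ : Finset (Tor d L)) (o : Tor d L)
    (ξ : Tor d L → ℝ) : Prop :=
  Res n σ z M j A Λ o ξ ∨ Y ≤ nsq (chi (NN d L) Λ (pot σ ξ) z o)

/-- no large norm at the sites of the path -/
def Sg (Y : ℝ) (Λ : Finset (Tor d L)) (o : Tor d L) (γ : List (St d)) (ξ : Tor d L → ℝ) : Prop :=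
  ∀ x ∈ o :: sites o γ, nsq (chi (NN d L) (full Λ (sites o γ)) (pot σ ξ) z x) < Y

/-- the deep event of two paths -/
def Deep (j : ℕ) (A : Finset (Fin d)) (Λ : Finset (Tor d L)) (o : Tor d L) (γ γ' : List (St d))
    (ξ : Tor d L → ℝ) : Prop :=
  ∀ U : Finset (St d), Cons U → Off (A ∪ dirs γ') U → U.card = j * n → ∀ x ∈ sites o γ,
    ‖chi (NN d L) (full (full Λ (sites o γ)) (sites o γ')) (pot σ ξ) z x (ept o γ' + vec U)‖ ≤ K⁻¹

end events

/-- first moment bounds: `ρ` is the range of distances, `a` bounds the number of coordinates -/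
def Mom (d L : ℕ) [NeZero L] (ν : Measure ℝ) (σ : ℝ) (z : ℂ) (Ψ Θ K : ℝ) (a ρ : ℕ) : Prop :=
  ∀ (A : Finset (Fin d)) (o : Tor d L) (Λ : Finset (Tor d L)), A.card ≤ a → Around A o Λ →
    ∀ x ∈ Λ, ∀ w : Tor d L, wt (w - x) ≤ ρ →
      ∫ ξ, ‖sol (NN d L) Λ (pot σ ξ) z (bx (NN d L) x) w‖ ∂(PV ν (Tor d L))
        ≤ Ψ * (Θ / K) ^ (wt (w - x))

end Pool.Agent.H989.SB
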