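import Mathlib

/-!
Counting integer sequences with sum zero and nonnegative partial sums (cycle lemma).
-/

set_option linter.unusedVariables false

open Finset

namespace Pool.Agent.H989.SB

open scoped Classical in
/-- sequences of length `n` with entries in `[-J, J]`, sum zero and nonnegative partial sums -/
noncomputable def bridges (J n : ℕ) : Finset (Fin n → ℤ) :=
  (Fintype.piFinset fun _ : Fin n => Finset.Icc (-(J : ℤ)) J).filter fun f =>
    ∑ i, f i = 0 ∧ ∀ k ∈ Finset.range (n + 1),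
      0 ≤ ∑ i ∈ univ.filter (fun i : Fin n => (i : ℕ) < k), f i

/-- the periodic extension -/
def cycF {n : ℕ} (hn : 0 < n) (f : Fin n → ℤ) (j : ℕ) : ℤ := f ⟨j % n, Nat.mod_lt _ hn⟩

theorem cycF_per {n : ℕ} (hn : 0 < n) (f : Fin n → ℤ) : Function.Periodic (cycF hn f) n := by
  intro j
  unfold cycF
  simp only [Nat.add_mod_right]

theorem cycF_fin {n : ℕ} (hn : 0 < n) (f : Fin n → ℤ) (i : Fin n) : cycF hn f i = f i := by
  unfold cycF
  simp only [Nat.mod_eq_of_lt i.isLt]

theorem cyc_sum (G : ℕ → ℤ) {n k : ℕ} (hk : k ≤ n) :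
    ∑ i ∈ univ.filter (fun i : Fin n => (i : ℕ) < k), G i = ∑ i ∈ range k, G i := by
  rw [sum_filter, Fin.sum_univ_eq_sum_range (fun i : ℕ => if i < k then G i else 0), ← sum_filter]
  apply sum_congr _ (fun _ _ => rfl)
  ext i
  rw [mem_filter, mem_range, mem_range]
  omega

theorem cyc_sum_univ (G : ℕ → ℤ) (n : ℕ) : ∑ i : Fin n, G i = ∑ i ∈ range n, G i :=
  Fin.sum_univ_eq_sum_range G n

theorem cycP_per {n : ℕ} (hn : 0 < n) (f : Fin n → ℤ) (hf : ∑ i, f i = 0) :
    Function.Periodic (fun k : ℕ => ∑ j ∈ range k, cycF hn f j) n := by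
  intro k
  change ∑ j ∈ range (k + n), cycF hn f j = ∑ j ∈ range k, cycF hn f j
  rw [add_comm k n, sum_range_add]
  have h1 : ∑ j ∈ range n, cycF hn f j = 0 := by
    rw [← cyc_sum_univ]
    simp only [cycF_fin]
    exact hf
  rw [h1, zero_add]
  apply sum_congr rfl
  intro j _
  rw [add_comm n j]
  exact cycF_per hn f j

/-- the rotation -/
def cycR {n : ℕ} (hn : 0 < n) (f : Fin n → ℤ) (m : ℕ) (i : Fin n) : ℤ := cycF hn f (m + i)

theorem cycR_F {n : ℕ} (hn : 0 < n) (f : Fin n → ℤ) (m j : ℕ) :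
    cycF hn (cycR hn f m) j = cycF hn f (m + j) := by
  unfold cycR
  have h1 : cycF hn (fun i : Fin n => cycF hn f (m + i)) j = cycF hn f (m + j % n) := rfl
  rw [h1]
  unfold cycF
  simp only [Nat.add_mod_mod]

theorem cycR_inj {n : ℕ} (hn : 0 < n) (f g : Fin n → ℤ) (m : ℕ) (hm : m < n)
    (h : cycR hn f m = cycR hn g m) : f = g := by
  funext i
  rw [← cycF_fin hn f i, ← cycF_fin hn g i, ← cycF_per hn f i, ← cycF_per hn g i]
  have e : (i : ℕ) + n = m + (i + n - m) := by omega
  rw [e, ← cycR_F, ← cycR_F, h]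

theorem cyc_exists {n : ℕ} (hn : 0 < n) (f : Fin n → ℤ) (hf : ∑ i, f i = 0) :
    ∃ m < n, (∑ i, cycR hn f m i = 0) ∧ ∀ k ∈ Finset.range (n + 1),
      0 ≤ ∑ i ∈ univ.filter (fun i : Fin n => (i : ℕ) < k), cycR hn f m i := by
  obtain ⟨m, hm, hmin⟩ := Finset.exists_min_image (range n)
    (fun k : ℕ => ∑ j ∈ range k, cycF hn f j) ⟨0, mem_range.2 hn⟩
  have hper := cycP_per hn f hf
  have hall : ∀ k : ℕ, ∑ j ∈ range m, cycF hn f j ≤ ∑ j ∈ range k, cycF hn f j := by
    intro k
    have h1 := hmin (k % n) (mem_range.2 (Nat.mod_lt _ hn))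
    have h2 := hper.map_mod_nat k
    change ∑ j ∈ range (k % n), cycF hn f j = ∑ j ∈ range k, cycF hn f j at h2
    rw [← h2]
    exact h1
  have hsum : ∀ k ≤ n, ∑ i ∈ univ.filter (fun i : Fin n => (i : ℕ) < k), cycR hn f m i =
      ∑ j ∈ range (m + k), cycF hn f j - ∑ j ∈ range m, cycF hn f j := by
    intro k hk
    unfold cycR
    rw [cyc_sum (fun i : ℕ => cycF hn f (m + i)) hk, sum_range_add]
    ring
  refine ⟨m, mem_range.1 hm, ?_, ?_⟩
  · have h1 := hsum n le_rfl
    have h2 : univ.filter (fun i : Fin n => (i : ℕ) < n) = univ := by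
      apply filter_true_of_mem
      intro i _
      exact i.isLt
    rw [h2] at h1
    rw [h1]
    have h3 := hper m
    change ∑ j ∈ range (m + n), cycF hn f j = ∑ j ∈ range m, cycF hn f j at h3
    rw [h3, sub_self]
  · intro k hk
    rw [mem_range] at hk
    rw [hsum k (by omega)]
    have := hall (m + k)
    linarith

open scoped Classical in
/-- sequences with sum zero -/
noncomputable def cycZ (J n : ℕ) : Finset (Fin n → ℤ) :=
  (Fintype.piFinset fun _ : Fin n => Finset.Icc (-(J : ℤ)) J).filter fun f => ∑ i, f i = 0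

open scoped Classical in
theorem cyc_lemma (J n : ℕ) (hn : 0 < n) : (cycZ J n).card ≤ n * (bridges J n).card := by
  have hex : ∀ f : Fin n → ℤ, ∃ m < n, ∑ i, f i = 0 → (∑ i, cycR hn f m i = 0) ∧
      ∀ k ∈ Finset.range (n + 1), 0 ≤ ∑ i ∈ univ.filter (fun i : Fin n => (i : ℕ) < k),
        cycR hn f m i := by
    intro f
    by_cases hf : ∑ i, f i = 0
    · obtain ⟨m, hm, h⟩ := cyc_exists hn f hf
      exact ⟨m, hm, fun _ => h⟩
    · exact ⟨0, hn, fun h => absurd h hf⟩
  choose μ hμ hμ2 using hex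
  have h1 : (cycZ J n).card ≤ (range n ×ˢ bridges J n).card := by
    apply card_le_card_of_injOn (fun f => (μ f, cycR hn f (μ f)))
    · intro f hf
      rw [mem_coe, cycZ, mem_filter, Fintype.mem_piFinset] at hf
      obtain ⟨h2, h3⟩ := hμ2 f hf.2
      rw [mem_coe, mem_product]
      refine ⟨mem_range.2 (hμ f), ?_⟩
      exact (@Finset.mem_filter _ _ (_) _ _).2 ⟨Fintype.mem_piFinset.2 fun i => hf.1 _, h2, h3⟩
    · intro f hf g hg hfg
      rw [Prod.mk.injEq] at hfg
      obtain ⟨h2, h3⟩ := hfg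
      have h4 : μ f = μ g := h2
      rw [← h4] at h3
      exact cycR_inj hn f g (μ f) (hμ f) h3
  rw [card_product, card_range] at h1
  exact h1

open scoped Classical in
theorem cyc_pairs (J N : ℕ) : ((2 * J + 1) ^ N) ^ 2 ≤ (2 * J * N + 1) * (cycZ J (N + N)).card := by
  obtain ⟨A, hA⟩ : ∃ A, A = Fintype.piFinset fun _ : Fin N => Finset.Icc (-(J : ℤ)) J := ⟨_, rfl⟩
  have hAc : A.card = (2 * J + 1) ^ N := by
    rw [hA, Fintype.card_piFinset_const, Int.card_Icc]
    congr 1
    omega
  obtain ⟨T, hT⟩ : ∃ T, T = Finset.Icc (-((J * N : ℕ) : ℤ)) ((J * N : ℕ) : ℤ) := ⟨_, rfl⟩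
  have hTc : T.card = 2 * J * N + 1 := by
    rw [hT, Int.card_Icc]
    have : 2 * J * N = J * N + J * N := by ring
    omega
  have hAT : ∀ a ∈ A, ∑ i, a i ∈ T := by
    intro a ha
    rw [hA, Fintype.mem_piFinset] at ha
    rw [hT, mem_Icc]
    constructor
    · have h1 : ∑ i : Fin N, (-(J : ℤ)) ≤ ∑ i, a i := sum_le_sum fun i _ => (mem_Icc.1 (ha i)).1
      rw [sum_const, card_univ, Fintype.card_fin, nsmul_eq_mul] at h1
      push_cast
      linarith
    · have h1 : ∑ i, a i ≤ ∑ i : Fin N, (J : ℤ) := sum_le_sum fun i _ => (mem_Icc.1 (ha i)).2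
      rw [sum_const, card_univ, Fintype.card_fin, nsmul_eq_mul] at h1
      push_cast
      linarith
  have h1 : A.card = ∑ t ∈ T, (A.filter fun a => ∑ i, a i = t).card :=
    card_eq_sum_card_fiberwise hAT
  have h2 : ((A ×ˢ A).filter fun p => ∑ i, p.1 i = ∑ i, p.2 i).card =
      ∑ t ∈ T, (A.filter fun a => ∑ i, a i = t).card ^ 2 := by
    rw [card_eq_sum_card_fiberwise (t := T) (f := fun p : (Fin N → ℤ) × (Fin N → ℤ) => ∑ i, p.1 i)]
    · apply sum_congr rfl
      intro t _
      rw [sq, ← card_product]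
      congr 1
      ext p
      simp only [mem_filter, mem_product]
      constructor
      · rintro ⟨⟨⟨h3, h4⟩, h5⟩, h6⟩
        exact ⟨⟨h3, h6⟩, h4, h5 ▸ h6⟩
      · rintro ⟨⟨h3, h6⟩, h4, h5⟩
        exact ⟨⟨⟨h3, h4⟩, h6.trans h5.symm⟩, h6⟩
    · intro p hp
      rw [mem_coe, mem_filter, mem_product] at hp
      exact hAT _ hp.1.1
  have h3 : ((A ×ˢ A).filter fun p => ∑ i, p.1 i = ∑ i, p.2 i).card ≤ (cycZ J (N + N)).card := by
    apply card_le_card_of_injOn (fun p => Fin.append p.1 (fun i => - p.2 i))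
    · intro p hp
      rw [mem_coe, mem_filter, mem_product, hA, Fintype.mem_piFinset, Fintype.mem_piFinset] at hp
      obtain ⟨⟨h4, h5⟩, h6⟩ := hp
      rw [mem_coe, cycZ, mem_filter, Fintype.mem_piFinset]
      constructor
      · intro i
        change Fin.append p.1 (fun i => - p.2 i) i ∈ Icc (-(J : ℤ)) J
        refine Fin.addCases (fun i => ?_) (fun i => ?_) i
        · rw [Fin.append_left]
          exact h4 i
        · rw [Fin.append_right]
          have := mem_Icc.1 (h5 i)
          rw [mem_Icc]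
          constructor <;> linarith [this.1, this.2]
      · rw [Fin.sum_univ_add]
        simp only [Fin.append_left, Fin.append_right]
        rw [sum_neg_distrib, h6, add_neg_cancel]
    · intro p _ q _ hpq
      have hpq' : Fin.append p.1 (fun i => - p.2 i) = Fin.append q.1 (fun i => - q.2 i) := hpq
      have h4 : p.1 = q.1 := by
        funext i
        have := congrFun hpq' (Fin.castAdd N i)
        rwa [Fin.append_left, Fin.append_left] at this
      have h5 : p.2 = q.2 := by
        funext i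
        have := congrFun hpq' (Fin.natAdd N i)
        rw [Fin.append_right, Fin.append_right] at this
        exact neg_injective this
      exact Prod.ext h4 h5
  have h4 : A.card ^ 2 ≤ T.card * ∑ t ∈ T, (A.filter fun a => ∑ i, a i = t).card ^ 2 := by
    rw [h1]
    exact sq_sum_le_card_mul_sum_sq
  rw [← h2, hTc, hAc] at h4
  exact h4.trans (Nat.mul_le_mul_left _ h3)

/-- Lower bound for the number of bridges.
Proof. (1) The pairs `(a, b)` of sequences of length `N` with entries in `[-J, J]` and `∑ a = ∑ b` are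
at least `((2J+1)^N)^2 / (2JN+1)` by Cauchy-Schwarz (the sum takes at most `2JN+1` values); `(a, -b)`
is a sequence of length `2N` with sum zero.
(2) Cycle lemma: every sequence of length `n = 2N` with sum zero has a rotation with nonnegative
partial sums (start after an index where the partial sum is minimal), so that the number of all
sequences with sum zero is at most `n` times the number of bridges. -/
theorem card_bridges (J N : ℕ) (hN : 0 < N) :
    (2 * J + 1) ^ (2 * N) ≤ (2 * J * N + 1) * (2 * N) * (bridges J (2 * N)).card := by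
  have h1 := cyc_pairs J N
  have h2 := cyc_lemma J (N + N) (by omega)
  rw [two_mul N, pow_add, ← sq]
  calc ((2 * J + 1) ^ N) ^ 2 ≤ (2 * J * N + 1) * (cycZ J (N + N)).card := h1
    _ ≤ (2 * J * N + 1) * ((N + N) * (bridges J (N + N)).card) := Nat.mul_le_mul_left _ h2
    _ = (2 * J * N + 1) * (N + N) * (bridges J (N + N)).card := by ring

end Pool.Agent.H989.SB
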