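import Pool.Agent.H989.Torus

/-!
Expectations over an i.i.d. potential of a general law on a finite abelian group.
-/

set_option linter.unusedSectionVars false
set_option linter.unusedVariables false

open MeasureTheory ProbabilityTheory Finset

namespace Pool.Agent.H989.SB

variable {V : Type*} [AddCommGroup V] [Fintype V] [DecidableEq V]

/-- the law of the potential, single-site law `ν` -/
noncomputable abbrev PV (ν : Measure ℝ) (V : Type*) [Fintype V] : Measure (V → ℝ) :=
  Measure.pi fun _ : V => ν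

variable (ν : Measure ℝ) [IsProbabilityMeasure ν]

/-! ### resampling of one coordinate -/

lemma measurePreserving_update (x : V) :
    MeasurePreserving (fun p : (V → ℝ) × ℝ => Function.update p.1 x p.2) ((PV ν V).prod ν) (PV ν V) := by
  have hm : Measurable (fun p : (V → ℝ) × ℝ => Function.update p.1 x p.2) := by
    refine measurable_pi_lambda _ fun y => ?_
    by_cases hy : y = x
    · subst hy; simpa using measurable_snd
    · simp only [Function.update_of_ne hy]
      exact (measurable_pi_apply y).comp measurable_fst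
  refine ⟨hm, ?_⟩
  symm
  refine Measure.pi_eq fun s hs => ?_
  rw [Measure.map_apply hm (MeasurableSet.univ_pi hs)]
  have : (fun p : (V → ℝ) × ℝ => Function.update p.1 x p.2) ⁻¹' (Set.univ.pi s)
      = (Set.univ.pi (Function.update s x Set.univ)) ×ˢ s x := by
    ext p
    simp only [Set.mem_preimage, Set.mem_univ_pi, Set.mem_prod]
    constructor
    · intro h
      refine ⟨fun y => ?_, by simpa using h x⟩
      by_cases hy : y = x
      · subst hy; simp
      · have := h y; simpa [Function.update_of_ne hy] using this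
    · rintro ⟨h1, h2⟩ y
      by_cases hy : y = x
      · subst hy; simpa using h2
      · have := h1 y; simpa [Function.update_of_ne hy] using this
  rw [this, Measure.prod_prod, Measure.pi_pi]
  rw [← Finset.mul_prod_erase univ _ (mem_univ x), ← Finset.mul_prod_erase univ (fun i => ν (s i))
    (mem_univ x)]
  have h1 : ∏ i ∈ univ.erase x, ν (Function.update s x Set.univ i) = ∏ i ∈ univ.erase x, ν (s i) :=
    Finset.prod_congr rfl fun i hi => by
      rw [Function.update_of_ne (Finset.ne_of_mem_erase hi)]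
  rw [h1]
  simp [mul_comm]

lemma measurable_update' (x : V) (t : ℝ) : Measurable fun ξ : V → ℝ => Function.update ξ x t := by
  refine measurable_pi_lambda _ fun y => ?_
  by_cases hy : y = x
  · subst hy; simp
  · simp only [Function.update_of_ne hy]
    exact measurable_pi_apply y

lemma integral_resample (x : V) {F : (V → ℝ) → ℝ} (hF : Nice F) :
    ∫ ξ, F ξ ∂(PV ν V) = ∫ ξ, ∫ t, F (Function.update ξ x t) ∂ν ∂(PV ν V) := by
  have h := measurePreserving_update ν (V := V) x
  have h1 := integral_map (μ := (PV ν V).prod ν) h.measurable.aemeasurable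
    (f := F) hF.1.aestronglyMeasurable
  rw [h.map_eq] at h1
  rw [h1, integral_prod]
  exact (hF.comp h.measurable).integrable

lemma nice_inner (x : V) {F : (V → ℝ) → ℝ} (hF : Nice F) :
    Nice fun ξ : V → ℝ => ∫ t, F (Function.update ξ x t) ∂ν := by
  have h := measurePreserving_update ν (V := V) x
  obtain ⟨h1, C, hC⟩ := hF
  refine ⟨?_, C, fun ξ => ?_⟩
  · exact (h1.comp h.measurable).stronglyMeasurable.integral_prod_right'.measurable
  · refine (norm_integral_le_of_norm_le_const (C := C)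
      (Filter.Eventually.of_forall fun t => hC _)).trans ?_
    simp

/-- upper bound by integration over one coordinate -/
lemma E_le_of_resample (x : V) {F Φ : (V → ℝ) → ℝ} {k : (V → ℝ) → ℝ → ℝ} {c : ℝ}
    (hF : Nice F) (hΦ : Nice Φ) (h0 : ∀ ξ, 0 ≤ Φ ξ)
    (hk : ∀ ξ t, F (Function.update ξ x t) = k ξ t * Φ ξ) (hc : ∀ ξ, ∫ t, k ξ t ∂ν ≤ c) :
    ∫ ξ, F ξ ∂(PV ν V) ≤ c * ∫ ξ, Φ ξ ∂(PV ν V) := by
  rw [integral_resample ν x hF, ← integral_const_mul]
  refine integral_mono (nice_inner ν x hF).integrable (hΦ.const_mul c).integrable fun ξ => ?_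
  simp only [hk]
  rw [integral_mul_const]
  exact mul_le_mul_of_nonneg_right (hc ξ) (h0 ξ)

/-- lower bound by integration over one coordinate -/
lemma E_ge_of_resample (x : V) {F Φ : (V → ℝ) → ℝ} {k : (V → ℝ) → ℝ → ℝ} {c : ℝ}
    (hF : Nice F) (hΦ : Nice Φ) (h0 : ∀ ξ, 0 ≤ Φ ξ)
    (hk : ∀ ξ t, F (Function.update ξ x t) = k ξ t * Φ ξ) (hc : ∀ ξ, c ≤ ∫ t, k ξ t ∂ν) :
    c * ∫ ξ, Φ ξ ∂(PV ν V) ≤ ∫ ξ, F ξ ∂(PV ν V) := by
  rw [integral_resample ν x hF, ← integral_const_mul]
  refine integral_mono (hΦ.const_mul c).integrable (nice_inner ν x hF).integrable fun ξ => ?_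
  simp only [hk]
  rw [integral_mul_const]
  exact mul_le_mul_of_nonneg_right (hc ξ) (h0 ξ)

/-! ### symmetries -/

lemma measurePreserving_comp (φ : V ≃ V) :
    MeasurePreserving (fun (ξ : V → ℝ) x => ξ (φ x)) (PV ν V) (PV ν V) := by
  have hm : Measurable (fun (ξ : V → ℝ) x => ξ (φ x)) :=
    measurable_pi_lambda _ fun y => measurable_pi_apply _
  refine ⟨hm, ?_⟩
  symm
  refine Measure.pi_eq fun s hs => ?_
  rw [Measure.map_apply hm (MeasurableSet.univ_pi hs)]
  have : (fun (ξ : V → ℝ) x => ξ (φ x)) ⁻¹' (Set.univ.pi s)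
      = Set.univ.pi (fun y => s (φ.symm y)) := by
    ext ξ
    simp only [Set.mem_preimage, Set.mem_univ_pi]
    constructor
    · intro h y; have := h (φ.symm y); simpa using this
    · intro h y; have := h (φ y); simpa using this
  rw [this, Measure.pi_pi]
  exact Equiv.prod_comp φ.symm (fun y => ν (s y))

lemma integral_comp_equiv (φ : V ≃ V) {F : (V → ℝ) → ℝ} (hF : Nice F) :
    ∫ ξ, F (fun x => ξ (φ x)) ∂(PV ν V) = ∫ ξ, F ξ ∂(PV ν V) := by
  have h := measurePreserving_comp ν (V := V) φ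
  have h1 := integral_map (μ := PV ν V) h.measurable.aemeasurable
    (f := F) hF.1.aestronglyMeasurable
  rw [h.map_eq] at h1
  exact h1.symm


/-! ### events and one coordinate -/

lemma nice_ind {α : Type*} [MeasurableSpace α] {S : Set α} (hS : MeasurableSet S) (c : ℝ) :
    Nice (S.indicator fun _ => c) := by
  refine ⟨measurable_const.indicator hS, |c|, fun ξ => ?_⟩
  by_cases h : ξ ∈ S
  · rw [Set.indicator_of_mem h, Real.norm_eq_abs]
  · rw [Set.indicator_of_notMem h]; simp

/-- indicator -/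
noncomputable def ind {α : Type*} (S : Set α) : α → ℝ := S.indicator fun _ => 1

section ind
variable {α : Type*} [MeasurableSpace α] {S T : Set α}

lemma ind_nonneg (S : Set α) (x : α) : 0 ≤ ind S x := Set.indicator_nonneg (fun _ _ => by norm_num) x

lemma ind_le_one (S : Set α) (x : α) : ind S x ≤ 1 :=
  Set.indicator_le_self' (fun _ _ => by norm_num) x

lemma ind_of_mem {x : α} (h : x ∈ S) : ind S x = 1 := Set.indicator_of_mem h _

lemma ind_of_notMem {x : α} (h : x ∉ S) : ind S x = 0 := Set.indicator_of_notMem h _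

lemma nice_ind1 (hS : MeasurableSet S) : Nice (ind S) := nice_ind hS 1

lemma integral_ind (μ : Measure α) (hS : MeasurableSet S) : ∫ x, ind S x ∂μ = μ.real S := by
  unfold ind
  rw [integral_indicator hS, setIntegral_const, smul_eq_mul, mul_one]

lemma ind_mono {x : α} (h : x ∈ S → x ∈ T) : ind S x ≤ ind T x := by
  by_cases hx : x ∈ S
  · rw [ind_of_mem hx, ind_of_mem (h hx)]
  · rw [ind_of_notMem hx]; exact ind_nonneg _ _

end ind

/-- one more event, depending on the coordinate `x`: upper bound -/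
lemma peel_le (x : V) {D : Set (V → ℝ)} {Φ : (V → ℝ) → ℝ} {c : ℝ} (hD : MeasurableSet D)
    (hΦ : Nice Φ) (h0 : ∀ ξ, 0 ≤ Φ ξ) (hx : ∀ ξ t, Φ (Function.update ξ x t) = Φ ξ)
    (hc : ∀ ξ, 0 < Φ ξ → ν.real {t | Function.update ξ x t ∈ D} ≤ c) :
    ∫ ξ, ind D ξ * Φ ξ ∂(PV ν V) ≤ c * ∫ ξ, Φ ξ ∂(PV ν V) := by
  have hF : Nice fun ξ => ind D ξ * Φ ξ := (nice_ind1 hD).mul hΦ
  rw [integral_resample ν x hF, ← integral_const_mul]
  refine integral_mono (nice_inner ν x hF).integrable (hΦ.const_mul c).integrable fun ξ => ?_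
  simp only [hx]
  rw [integral_mul_const]
  rcases (h0 ξ).eq_or_lt with h | h
  · rw [← h]; simp
  · refine mul_le_mul_of_nonneg_right ?_ (h0 ξ)
    have hm : MeasurableSet {t | Function.update ξ x t ∈ D} := by
      have : Measurable fun t => Function.update ξ x t := measurable_update ξ
      exact this hD
    refine le_trans (le_of_eq ?_) (hc ξ h)
    rw [← integral_ind ν hm]
    rfl

/-- one more event, depending on the coordinate `x`: lower bound -/
lemma peel_ge (x : V) {D : Set (V → ℝ)} {Φ : (V → ℝ) → ℝ} {c : ℝ} (hD : MeasurableSet D)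
    (hΦ : Nice Φ) (h0 : ∀ ξ, 0 ≤ Φ ξ) (hx : ∀ ξ t, Φ (Function.update ξ x t) = Φ ξ)
    (hc : ∀ ξ, 0 < Φ ξ → c ≤ ν.real {t | Function.update ξ x t ∈ D}) :
    c * ∫ ξ, Φ ξ ∂(PV ν V) ≤ ∫ ξ, ind D ξ * Φ ξ ∂(PV ν V) := by
  have hF : Nice fun ξ => ind D ξ * Φ ξ := (nice_ind1 hD).mul hΦ
  rw [integral_resample ν x hF, ← integral_const_mul]
  refine integral_mono (hΦ.const_mul c).integrable (nice_inner ν x hF).integrable fun ξ => ?_
  simp only [hx]
  rw [integral_mul_const]
  rcases (h0 ξ).eq_or_lt with h | h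
  · rw [← h]; simp
  · refine mul_le_mul_of_nonneg_right ?_ (h0 ξ)
    have hm : MeasurableSet {t | Function.update ξ x t ∈ D} := by
      have : Measurable fun t => Function.update ξ x t := measurable_update ξ
      exact this hD
    refine (hc ξ h).trans (le_of_eq ?_)
    rw [← integral_ind ν hm]
    rfl

/-! ### resampling of a set of coordinates -/

/-- the potential `ξ'` on `S`, `ξ` off `S` -/
def mix (S : Finset V) (ξ ξ' : V → ℝ) : V → ℝ := fun x => if x ∈ S then ξ' x else ξ x

lemma measurable_mix (S : Finset V) : Measurable fun p : (V → ℝ) × (V → ℝ) => mix S p.1 p.2 := by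
  refine measurable_pi_lambda _ fun x => ?_
  unfold mix
  by_cases hx : x ∈ S
  · simp only [hx, if_true]; exact (measurable_pi_apply x).comp measurable_snd
  · simp only [hx, if_false]; exact (measurable_pi_apply x).comp measurable_fst

lemma measurePreserving_mix (S : Finset V) :
    MeasurePreserving (fun p : (V → ℝ) × (V → ℝ) => mix S p.1 p.2)
      ((PV ν V).prod (PV ν V)) (PV ν V) := by
  refine ⟨measurable_mix S, ?_⟩
  symm
  refine Measure.pi_eq fun s hs => ?_
  rw [Measure.map_apply (measurable_mix S) (MeasurableSet.univ_pi hs)]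
  have : (fun p : (V → ℝ) × (V → ℝ) => mix S p.1 p.2) ⁻¹' (Set.univ.pi s)
      = (Set.univ.pi fun x => if x ∈ S then Set.univ else s x)
        ×ˢ (Set.univ.pi fun x => if x ∈ S then s x else Set.univ) := by
    ext p
    simp only [Set.mem_preimage, Set.mem_univ_pi, Set.mem_prod, mix]
    constructor
    · intro h
      refine ⟨fun y => ?_, fun y => ?_⟩
      · by_cases hy : y ∈ S
        · simp [hy]
        · have := h y; simpa [hy] using this
      · by_cases hy : y ∈ S
        · have := h y; simpa [hy] using this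
        · simp [hy]
    · rintro ⟨h1, h2⟩ y
      by_cases hy : y ∈ S
      · have := h2 y; simpa [hy] using this
      · have := h1 y; simpa [hy] using this
  rw [this, Measure.prod_prod, Measure.pi_pi, Measure.pi_pi, ← Finset.prod_mul_distrib]
  refine Finset.prod_congr rfl fun x _ => ?_
  by_cases hx : x ∈ S
  · simp [hx]
  · simp [hx]

/-- average over the coordinates in `S` -/
noncomputable def Rs (S : Finset V) (f : (V → ℝ) → ℝ) (ξ : V → ℝ) : ℝ :=
  ∫ ξ', f (mix S ξ ξ') ∂(PV ν V)

lemma nice_Rs (S : Finset V) {f : (V → ℝ) → ℝ} (hf : Nice f) : Nice (Rs ν S f) := by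
  obtain ⟨h1, C, hC⟩ := hf
  refine ⟨?_, C, fun ξ => ?_⟩
  · exact (h1.comp (measurable_mix S)).stronglyMeasurable.integral_prod_right'.measurable
  · refine (norm_integral_le_of_norm_le_const (C := C)
      (Filter.Eventually.of_forall fun t => hC _)).trans ?_
    simp

lemma mix_mix (S : Finset V) (ξ ξ' ξ'' : V → ℝ) : mix S (mix S ξ ξ') ξ'' = mix S ξ ξ'' := by
  funext x; unfold mix; split_ifs <;> rfl

lemma Rs_mix (S : Finset V) (f : (V → ℝ) → ℝ) (ξ ξ' : V → ℝ) :
    Rs ν S f (mix S ξ ξ') = Rs ν S f ξ := by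
  unfold Rs; simp only [mix_mix]

lemma mix_update (S : Finset V) {x : V} (hx : x ∈ S) (ξ ξ' : V → ℝ) (t : ℝ) :
    mix S (Function.update ξ x t) ξ' = mix S ξ ξ' := by
  funext y; unfold mix
  by_cases hy : y ∈ S
  · simp [hy]
  · have : y ≠ x := fun e => hy (by rw [e]; exact hx)
    simp [hy, Function.update_of_ne this]

lemma Rs_update (S : Finset V) {x : V} (hx : x ∈ S) (f : (V → ℝ) → ℝ) (ξ : V → ℝ) (t : ℝ) :
    Rs ν S f (Function.update ξ x t) = Rs ν S f ξ := by
  unfold Rs; simp only [mix_update S hx]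

lemma Rs_nonneg (S : Finset V) {f : (V → ℝ) → ℝ} (h0 : ∀ ξ, 0 ≤ f ξ) (ξ : V → ℝ) :
    0 ≤ Rs ν S f ξ := integral_nonneg fun _ => h0 _

lemma Rs_le_one (S : Finset V) {f : (V → ℝ) → ℝ} (h0 : ∀ ξ, 0 ≤ f ξ) (h1 : ∀ ξ, f ξ ≤ 1)
    (ξ : V → ℝ) : Rs ν S f ξ ≤ 1 := by
  have : ‖Rs ν S f ξ‖ ≤ 1 := by
    refine (norm_integral_le_of_norm_le_const (C := 1)
      (Filter.Eventually.of_forall fun t => ?_)).trans ?_
    · rw [Real.norm_eq_abs, abs_of_nonneg (h0 _)]; exact h1 _
    · simp
  exact (le_abs_self _).trans this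

lemma nice_mix_left {f : (V → ℝ) → ℝ} (hf : Nice f) (S : Finset V) (ξ : V → ℝ) :
    Nice fun ξ' : V → ℝ => f (mix S ξ ξ') := by
  refine hf.comp ?_
  exact (measurable_mix S).comp (measurable_const.prodMk measurable_id)

lemma Rs_mono (S : Finset V) {f g : (V → ℝ) → ℝ} (hf : Nice f) (hg : Nice g) (ξ : V → ℝ)
    (h : ∀ ξ', f (mix S ξ ξ') ≤ g (mix S ξ ξ')) : Rs ν S f ξ ≤ Rs ν S g ξ :=
  integral_mono (nice_mix_left hf S ξ).integrable (nice_mix_left hg S ξ).integrable h

/-- averaging does not change expectations against functions off `S` -/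
lemma integral_mul_Rs (S : Finset V) {f h : (V → ℝ) → ℝ} (hf : Nice f) (hh : Nice h)
    (hS : ∀ ξ ξ', h (mix S ξ ξ') = h ξ) :
    ∫ ξ, h ξ * Rs ν S f ξ ∂(PV ν V) = ∫ ξ, h ξ * f ξ ∂(PV ν V) := by
  have hp := measurePreserving_mix ν (V := V) S
  have h1 := integral_map (μ := (PV ν V).prod (PV ν V)) hp.measurable.aemeasurable
    (f := fun ξ => h ξ * f ξ) (hh.mul hf).1.aestronglyMeasurable
  rw [hp.map_eq] at h1
  rw [h1, integral_prod]
  · refine integral_congr_ae (Filter.Eventually.of_forall fun ξ => ?_)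
    simp only [hS]
    rw [integral_const_mul]
    rfl
  · exact ((hh.mul hf).comp hp.measurable).integrable

lemma integral_Rs (S : Finset V) {f : (V → ℝ) → ℝ} (hf : Nice f) :
    ∫ ξ, Rs ν S f ξ ∂(PV ν V) = ∫ ξ, f ξ ∂(PV ν V) := by
  have := integral_mul_Rs ν S hf (Nice.const 1) fun _ _ => rfl
  simpa using this

lemma markov {f : (V → ℝ) → ℝ} (hf : Nice f) (h0 : ∀ ξ, 0 ≤ f ξ) {a : ℝ} (ha : 0 < a) :
    (PV ν V).real {ξ | a ≤ f ξ} ≤ (∫ ξ, f ξ ∂(PV ν V)) / a := by
  rw [le_div_iff₀ ha, mul_comm]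
  exact mul_meas_ge_le_integral_of_nonneg (Filter.Eventually.of_forall h0) hf.integrable a

end Pool.Agent.H989.SB
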