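import Pool.Agent.H989.SB.Geo
import Pool.Agent.H989.SB.Prb

/-!
Decay of the mean Green function at a complex energy.
-/

set_option linter.unusedSectionVars false
set_option linter.unusedVariables false

open MeasureTheory ProbabilityTheory Finset

namespace Pool.Agent.H989.SB

variable {d L : ℕ} [NeZero L]

/-- the solutions are nice functions of the potential (continuous and bounded by `‖b‖ / Im z`;
compare `nice_sol` in Pool.Agent.H989.Est, which is already stated for functions of `ξ` only and can be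
used directly) -/
theorem nice_norm_sol {V : Type*} [AddCommGroup V] [Fintype V] [DecidableEq V] {N Λ : Finset V}
    {σ : ℝ} {z : ℂ} (hN : Steps N) (hz : 0 < z.im) (b : V → ℂ) (y : V) :
    Nice fun ξ : V → ℝ => ‖sol N Λ (pot σ ξ) z b y‖ := (nice_sol hN hz b y).norm

/-- Cauchy-Schwarz -/
theorem dec_sq_le {V : Type*} [AddCommGroup V] [Fintype V] [DecidableEq V] (ν : Measure ℝ)
    [IsProbabilityMeasure ν] {f : (V → ℝ) → ℝ} (hf : Nice f) :
    (∫ ξ, f ξ ∂(PV ν V)) ^ 2 ≤ ∫ ξ, f ξ ^ 2 ∂(PV ν V) := by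
  set m := ∫ ξ, f ξ ∂(PV ν V) with hm
  have h : 0 ≤ ∫ ξ, (f ξ - m) ^ 2 ∂(PV ν V) := integral_nonneg fun _ => sq_nonneg _
  have h2 : ∫ ξ, (f ξ - m) ^ 2 ∂(PV ν V) = ∫ ξ, f ξ ^ 2 ∂(PV ν V) - m ^ 2 := by
    have : ∀ ξ, (f ξ - m) ^ 2 = f ξ ^ 2 - (2 * m) * f ξ + m ^ 2 := fun ξ => by ring
    simp only [this]
    rw [integral_add (((hf.pow 2).sub (hf.const_mul _)).integrable) (integrable_const _),
      integral_sub (hf.pow 2).integrable (hf.const_mul _).integrable, integral_const_mul,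
      integral_const, ← hm]
    simp; ring
  linarith

theorem le_of_sq_le_sq {a b : ℝ} (h : a ^ 2 ≤ b ^ 2) (hb : 0 ≤ b) : a ≤ b :=
  (abs_le_of_sq_le_sq' h hb).2

/-- One-site decoupling: for `w ∉ Λ`, `w ≠ x`,
`E |G(x,w)| ≤ D ∑_s E |G(x,w+s)|`, where `G(x,·) = sol N Λ (pot σ ξ) z (Pi.single x 1)`.
Proof. As a function of `ξ w`, `G(w) = t / (σ ξ_w - c)` with `t`, `c` independent of `ξ w` and
`z.im ≤ c.im` (`sol_eq_tau` of Pool.Agent.H989.Est or `sol_apply`; `c = z + SE N Λ v z w`, `SE_im`), so by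
`OneSite.h2` (integrate over `ξ w` first, `integral_resample`)
`E |G(w)| ≤ D E |σ ξ_w - z| |G(w)|`, and `(σ ξ_w - z) G(w) = - ∑_s G(w + s)` by the equation
(`isSol_sol`). -/
theorem dec_step {V : Type*} [AddCommGroup V] [Fintype V] [DecidableEq V] {N Λ : Finset V}
    (ν : Measure ℝ) [IsProbabilityMeasure ν] {σ m D : ℝ} {z : ℂ} (hN : Steps N) (hz : 0 < z.im)
    (h1 : OneSite ν σ z m D) (x : V) {w : V} (hw : w ∉ Λ) (hwx : w ≠ x) (hD : 0 ≤ D) :
    ∫ ξ, ‖sol N Λ (pot σ ξ) z (Pi.single x 1) w‖ ∂(PV ν V)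
      ≤ D * ∑ s ∈ N, ∫ ξ, ‖sol N Λ (pot σ ξ) z (Pi.single x 1) (w + s)‖ ∂(PV ν V) := by
  have hF : Nice fun ξ : V → ℝ => ‖sol N Λ (pot σ ξ) z (Pi.single x 1) w‖ :=
    nice_norm_sol hN hz _ _
  have hH : Nice fun ξ : V → ℝ => ‖nb N (sol N Λ (pot σ ξ) z (Pi.single x 1)) w‖ :=
    (nice_nb hN hz N _ _).norm
  have hFu : ∀ (ξ : V → ℝ) (t : ℝ),
      ‖sol N Λ (pot σ (Function.update ξ w t)) z (Pi.single x 1) w‖
        = ‖den σ (z + SE N Λ (pot σ ξ) z w) t‖⁻¹ * ‖tau N Λ (pot σ ξ) z (Pi.single x 1) w‖ := by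
    intro ξ t
    rw [norm_sol_eq hN hz _ hw, SE_update hN hz, tau_update hN hz, Function.update_self]
  have hHu : ∀ (ξ : V → ℝ) (t : ℝ),
      ‖nb N (sol N Λ (pot σ (Function.update ξ w t)) z (Pi.single x 1)) w‖
        = (‖den σ z t‖ * ‖den σ (z + SE N Λ (pot σ ξ) z w) t‖⁻¹)
          * ‖tau N Λ (pot σ ξ) z (Pi.single x 1) w‖ := by
    intro ξ t
    have h := residual_eq (σ := σ) (Λ := Λ) hN hz (Pi.single x (1 : ℂ)) hw (Function.update ξ w t)
    have hb : (Pi.single x (1 : ℂ) : V → ℂ) w = 0 := Pi.single_eq_of_ne hwx _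
    rw [hb, zero_sub, Function.update_self] at h
    rw [← norm_neg, h, norm_mul, hFu, mul_assoc]
  have him : ∀ ξ : V → ℝ, z.im ≤ (z + SE N Λ (pot σ ξ) z w).im := by
    intro ξ
    rw [Complex.add_im]
    linarith [SE_im_nonneg (Λ := Λ) hN hz (pot σ ξ) w]
  have h2 : ∫ ξ, ‖sol N Λ (pot σ ξ) z (Pi.single x 1) w‖ ∂(PV ν V)
      ≤ D * ∫ ξ, ‖nb N (sol N Λ (pot σ ξ) z (Pi.single x 1)) w‖ ∂(PV ν V) := by
    rw [integral_resample ν w hF, integral_resample ν w hH, ← integral_const_mul]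
    refine integral_mono (nice_inner ν w hF).integrable
      ((nice_inner ν w hH).const_mul D).integrable fun ξ => ?_
    simp only [hFu, hHu]
    rw [integral_mul_const, integral_mul_const, ← mul_assoc]
    exact mul_le_mul_of_nonneg_right (h1.h2 _ (him ξ)) (norm_nonneg _)
  refine h2.trans (mul_le_mul_of_nonneg_left ?_ hD)
  rw [← integral_finsetSum _ fun s _ =>
    (nice_norm_sol (N := N) (Λ := Λ) (σ := σ) hN hz (Pi.single x 1) (w + s)).integrable]
  refine integral_mono hH.integrable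
    (Nice.sum N fun s _ =>
      nice_norm_sol (N := N) (Λ := Λ) (σ := σ) hN hz (Pi.single x 1) (w + s)).integrable
    fun ξ => ?_
  unfold nb
  exact norm_sum_le _ _

/-- `E |G(x,x)| ≤ m` -/
theorem dec_diag {V : Type*} [AddCommGroup V] [Fintype V] [DecidableEq V] {N Λ : Finset V}
    (ν : Measure ℝ) [IsProbabilityMeasure ν] {σ m D : ℝ} {z : ℂ} (hN : Steps N) (hz : 0 < z.im)
    (h1 : OneSite ν σ z m D) (x : V) (hm : 0 ≤ m) :
    ∫ ξ, ‖sol N Λ (pot σ ξ) z (Pi.single x 1) x‖ ∂(PV ν V) ≤ m := by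
  by_cases hx : x ∈ Λ
  · have h0 : ∀ ξ : V → ℝ, ‖sol N Λ (pot σ ξ) z (Pi.single x 1) x‖ = 0 := fun ξ => by
      rw [(isSol_sol (v := pot σ ξ) (Λ := Λ) hN hz (Pi.single x 1)).1 x hx, norm_zero]
    simp only [h0]
    simpa using hm
  · have h := E_le_of_resample ν x
      (F := fun ξ => ‖sol N Λ (pot σ ξ) z (Pi.single x 1) x‖) (Φ := fun _ => 1)
      (k := fun ξ t => ‖den σ (z + SE N Λ (pot σ ξ) z x) t‖⁻¹) (c := m)
      (nice_norm_sol hN hz _ _) (Nice.const 1) (fun _ => zero_le_one) (fun ξ t => ?_)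
      (fun ξ => ?_)
    · simpa using h
    · rw [norm_sol_eq hN hz _ hx, SE_update hN hz, tau_update hN hz, tau_single_self hN hz,
        Function.update_self, norm_one]
    · refine h1.h1 _ ?_
      rw [Complex.add_im]
      linarith [SE_im_nonneg (Λ := Λ) hN hz (pot σ ξ) x]

/-- Far away sites.  `Λ - o` and `x - o` are supported in the coordinates `A`, and `w - o` has exactly
`R` nonzero coordinates outside `A`.
Proof. `E |G(x,w)| ≤ (E |G(x,w)|²)^(1/2)`.  For a permutation `π` of the coordinates which fixes the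
elements of `A`, the map `y ↦ o + permE π (y - o)` is an automorphism of the graph which fixes `x` and
preserves `Λ`; so `E |G(x, w)|²` is the same for all images of `w` (`sol_comp`, `integral_comp_equiv`,
see also `nb_permE`, `E_perm` in Pool.Agent.H989.Torus), of which there are at least
`(d - #A).choose R` different ones (`exists_perms`), while `∑_w |G(x,w)|² ≤ (Im z)⁻²`
(`IsSol.nsq_le`, the norm of `Pi.single x 1` is one). -/
theorem dec_far (hL : 5 ≤ L) (ν : Measure ℝ) [IsProbabilityMeasure ν] {σ : ℝ} {z : ℂ}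
    (hz : 0 < z.im) (A : Finset (Fin d)) (o x w : Tor d L) {Λ : Finset (Tor d L)}
    (hΛ : ∀ y ∈ Λ, SupA A (y - o)) (hx : SupA A (x - o)) {R : ℕ} (hR : nA A (w - o) = R)
    (hRd : R + A.card ≤ d) :
    ∫ ξ, ‖sol (ND L (univ : Finset (Fin d))) Λ (pot σ ξ) z (Pi.single x 1) w‖ ∂(PV ν (Tor d L))
      ≤ (z.im)⁻¹ * (√((d - A.card).choose R))⁻¹ := by
  have hL3 : 3 ≤ L := by omega
  have hN := steps_ND (d := d) hL3 (univ : Finset (Fin d))
  obtain ⟨P, hPA, hPinj, hPcard⟩ := exists_perms A hR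
  set b : Tor d L → ℂ := Pi.single x 1 with hb
  have hG : ∀ y : Tor d L, Nice fun ξ : Tor d L → ℝ =>
      ‖sol (ND L (univ : Finset (Fin d))) Λ (pot σ ξ) z b y‖ := fun y => nice_norm_sol hN hz b y
  -- the automorphisms
  let φ : Equiv.Perm (Fin d) → (Tor d L ≃ Tor d L) := fun π =>
    ((Equiv.addRight (-o)).trans (permE π)).trans (Equiv.addRight o)
  have hφ : ∀ π y, φ π y = permE π (y - o) + o := fun π y => by
    simp [φ, sub_eq_add_neg]
  have hfix : ∀ π ∈ P, ∀ y : Tor d L, SupA A (y - o) → φ π y = y := by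
    intro π hπ y hy
    rw [hφ]
    have : permE π (y - o) = y - o := by
      funext i
      change (y - o) (π i) = (y - o) i
      by_cases hi : i ∈ A
      · rw [hPA π hπ i hi]
      · have hi' : π i ∉ A := by
          intro hc
          have h3 := hPA π hπ (π i) hc
          have h4 := π.injective h3
          rw [h4] at hc
          exact hi hc
        rw [hy _ hi, hy _ hi']
    rw [this]; abel
  have hsymm : ∀ π ∈ P, ∫ ξ, ‖sol (ND L (univ : Finset (Fin d))) Λ (pot σ ξ) z b (φ π w)‖ ^ 2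
        ∂(PV ν (Tor d L))
      = ∫ ξ, ‖sol (ND L (univ : Finset (Fin d))) Λ (pot σ ξ) z b w‖ ^ 2 ∂(PV ν (Tor d L)) := by
    intro π hπ
    rw [← integral_comp_equiv ν (φ π) ((hG w).pow 2)]
    refine integral_congr_ae (Filter.Eventually.of_forall fun ξ => ?_)
    simp only
    have hnb : ∀ (f : Tor d L → ℂ) y,
        nb (ND L (univ : Finset (Fin d))) (fun y => f (φ π y)) y
          = nb (ND L (univ : Finset (Fin d))) f (φ π y) := by
      intro f y
      have h3 := nb_permE (d := d) hL3 π (D := univ) (D' := univ) (by simp)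
        (fun y => f (y + o)) (y - o)
      have h4 : nb (ND L (univ : Finset (Fin d))) (fun y => f (y + o)) (permE π (y - o))
          = nb (ND L (univ : Finset (Fin d))) f (φ π y) := by
        rw [hφ]
        exact nb_comp_add _ o f _
      rw [← h4, ← h3]
      unfold nb
      refine Finset.sum_congr rfl fun n _ => ?_
      beta_reduce
      rw [hφ]
      congr 3
      abel
    have hΛ' : ∀ y, y ∈ Λ ↔ φ π y ∈ Λ := by
      intro y
      constructor
      · intro hy
        rw [hfix π hπ y (hΛ y hy)]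
        exact hy
      · intro hy
        have h3 := hfix π hπ _ (hΛ _ hy)
        have h4 := (φ π).injective h3
        rw [h4] at hy
        exact hy
    have h5 := sol_comp (v := pot σ ξ) (Λ := Λ) (Λ' := Λ) hN hN hz b (φ π) hnb hΛ' w
    rw [← h5]
    congr 3
    funext y
    rw [hb]
    have hxx := hfix π hπ x hx
    rw [Pi.single_apply, Pi.single_apply]
    have h6 : y = x ↔ φ π y = x := by
      constructor
      · intro h; rw [h, hxx]
      · intro h; exact (φ π).injective (h.trans hxx.symm)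
    by_cases h7 : y = x
    · rw [if_pos h7, if_pos (h6.1 h7)]
    · rw [if_neg h7, if_neg (fun h => h7 (h6.2 h))]
  have hinj : Set.InjOn (fun π => φ π w) (P : Set (Equiv.Perm (Fin d))) := by
    intro π hπ π' hπ' h
    simp only [hφ] at h
    exact hPinj π hπ π' hπ' (add_right_cancel h)
  set E2 := ∫ ξ, ‖sol (ND L (univ : Finset (Fin d))) Λ (pot σ ξ) z b w‖ ^ 2
    ∂(PV ν (Tor d L)) with hE2
  have hsum : (P.card : ℝ) * E2 ≤ (z.im ^ 2)⁻¹ := by
    have h3 : (P.card : ℝ) * E2 = ∫ ξ, ∑ π ∈ P,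
        ‖sol (ND L (univ : Finset (Fin d))) Λ (pot σ ξ) z b (φ π w)‖ ^ 2
          ∂(PV ν (Tor d L)) := by
      rw [integral_finsetSum _ fun π _ => ((hG (φ π w)).pow 2).integrable]
      rw [Finset.sum_congr rfl hsymm, Finset.sum_const, nsmul_eq_mul]
    rw [h3]
    have h4 : ∫ ξ, ∑ π ∈ P,
        ‖sol (ND L (univ : Finset (Fin d))) Λ (pot σ ξ) z b (φ π w)‖ ^ 2
          ∂(PV ν (Tor d L)) ≤ ∫ ξ, (z.im ^ 2)⁻¹ ∂(PV ν (Tor d L)) := by
      refine integral_mono (Nice.sum P fun π _ => (hG (φ π w)).pow 2).integrable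
        (integrable_const _) fun ξ => ?_
      simp only
      have h5 : ∑ π ∈ P, ‖sol (ND L (univ : Finset (Fin d))) Λ (pot σ ξ) z b (φ π w)‖ ^ 2
          ≤ nsq (sol (ND L (univ : Finset (Fin d))) Λ (pot σ ξ) z b) := by
        rw [← Finset.sum_image (f := fun y =>
          ‖sol (ND L (univ : Finset (Fin d))) Λ (pot σ ξ) z b y‖ ^ 2)
          (g := fun π => φ π w) hinj]
        unfold nsq
        exact Finset.sum_le_univ_sum_of_nonneg fun _ => by positivity
      have h6 := (isSol_sol (v := pot σ ξ) (Λ := Λ) hN hz b).nsq_le hN hz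
      have h7 : nsq b = 1 := by
        unfold nsq
        rw [hb]
        rw [Finset.sum_eq_single x]
        · simp
        · intro y _ hy; simp [Pi.single_eq_of_ne hy]
        · intro h; exact absurd (mem_univ x) h
      rw [h7] at h6
      refine h5.trans ?_
      rw [← one_div, le_div_iff₀ (by positivity), mul_comm]
      exact h6
    refine h4.trans ?_
    rw [integral_const]
    simp
  have hcpos : (0 : ℝ) < ((d - A.card).choose R : ℕ) := by
    have : 0 < (d - A.card).choose R := Nat.choose_pos (by omega)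
    exact_mod_cast this
  rw [hPcard] at hsum
  have hE1 : (∫ ξ, ‖sol (ND L (univ : Finset (Fin d))) Λ (pot σ ξ) z b w‖
      ∂(PV ν (Tor d L))) ^ 2 ≤ E2 := dec_sq_le ν (hG w)
  have hE0 : 0 ≤ ∫ ξ, ‖sol (ND L (univ : Finset (Fin d))) Λ (pot σ ξ) z b w‖
      ∂(PV ν (Tor d L)) := integral_nonneg fun _ => norm_nonneg _
  have hfin : (∫ ξ, ‖sol (ND L (univ : Finset (Fin d))) Λ (pot σ ξ) z b w‖
      ∂(PV ν (Tor d L))) ^ 2 ≤ ((z.im)⁻¹ * (√((d - A.card).choose R : ℕ))⁻¹) ^ 2 := by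
    refine hE1.trans ?_
    rw [mul_pow, inv_pow, inv_pow, Real.sq_sqrt hcpos.le, ← div_eq_mul_inv, le_div_iff₀ hcpos,
      mul_comm]
    exact hsum
  exact le_of_sq_le_sq hfin (by positivity)

/-- Decay of the mean Green function.
Proof. Let `f w = E |G(x,w)|`, `Φ w = m ω^(wt (w - x)) + ε β^(R - nA A (w - o))`,
`ε = (Im z)⁻¹ / √choose`.  On `{w : nA A (w - o) < R}` one has `D ∑_s Φ(w + s) ≤ (1/2) Φ w` by
`sum_wt_le` (with `card_spt_le`; `w - x` has the same coordinates outside `A` as `w - o`) and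
`sum_beta_le`, `hω`, `hβ`.  Let `ρ = max f/Φ` over `{w : nA A (w - o) ≤ R}` (a finite set; `Φ > 0` if
`m > 0` or `ε > 0`), attained at `w`; suppose `ρ > 1`.  Then `w ∉ Λ` (`f = 0` there), `w ≠ x` (`dec_diag`),
`nA A (w - o) < R` (`dec_far`), so that `f w ≤ D ∑_s f (w + s) ≤ D ρ ∑_s Φ (w + s) ≤ (ρ/2) Φ w`
(`dec_step`; the neighbours are still in the set by `nA_add_le`), a contradiction. -/
theorem decay (hL : 5 ≤ L) (ν : Measure ℝ) [IsProbabilityMeasure ν] {σ m D : ℝ} {z : ℂ}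
    (hz : 0 < z.im) (h1 : OneSite ν σ z m D) (hm : 0 < m) (hD : 0 < D)
    (A : Finset (Fin d)) (o x : Tor d L) {Λ : Finset (Tor d L)}
    (hΛ : ∀ y ∈ Λ, SupA A (y - o)) (hx : SupA A (x - o)) {R : ℕ} (hRd : R + A.card ≤ d)
    {ω β : ℝ} (hω0 : 0 < ω) (hω1 : ω ≤ 1) (hβ1 : 1 ≤ β)
    (hω : D * (2 * (A.card + R) * ω⁻¹ + 2 * d * ω) ≤ 1 / 2)
    (hβ : D * (2 * R * β + 2 * (A.card + R) + 2 * d * β⁻¹) ≤ 1 / 2) {w : Tor d L}
    (hw : nA A (w - o) ≤ R) :
    ∫ ξ, ‖sol (ND L (univ : Finset (Fin d))) Λ (pot σ ξ) z (Pi.single x 1) w‖ ∂(PV ν (Tor d L))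
      ≤ m * ω ^ (wt (w - x))
        + (z.im)⁻¹ * (√((d - A.card).choose R))⁻¹ * β ^ (R - nA A (w - o)) := by
  classical
  have hL3 : 3 ≤ L := by omega
  have hN := steps_ND (d := d) hL3 (univ : Finset (Fin d))
  set ε : ℝ := (z.im)⁻¹ * (√((d - A.card).choose R))⁻¹ with hε
  have hε0 : 0 ≤ ε := by positivity
  set f : Tor d L → ℝ := fun w =>
    ∫ ξ, ‖sol (ND L (univ : Finset (Fin d))) Λ (pot σ ξ) z (Pi.single x 1) w‖ ∂(PV ν (Tor d L))
    with hf
  set Φ : Tor d L → ℝ := fun w => m * ω ^ (wt (w - x)) + ε * β ^ (R - nA A (w - o)) with hΦ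
  have hβ0 : 0 < β := by linarith
  have hΦ0 : ∀ w, 0 < Φ w := fun w => by
    have h3 : 0 < m * ω ^ (wt (w - x)) := by positivity
    have h4 : 0 ≤ ε * β ^ (R - nA A (w - o)) := by positivity
    exact add_pos_of_pos_of_nonneg h3 h4
  change f w ≤ Φ w
  by_contra hcon
  push Not at hcon
  let S : Finset (Tor d L) := univ.filter fun y => nA A (y - o) ≤ R
  have hwS : w ∈ S := by simp [S, hw]
  obtain ⟨y, hyS, hymax⟩ := Finset.exists_max_image S (fun y => f y / Φ y) ⟨w, hwS⟩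
  set ρ := f y / Φ y with hρ
  have hρ1 : 1 < ρ := by
    have h3 : 1 < f w / Φ w := by rw [lt_div_iff₀ (hΦ0 w), one_mul]; exact hcon
    exact h3.trans_le (hymax w hwS)
  have hfy : f y = ρ * Φ y := by rw [hρ, div_mul_cancel₀ _ (hΦ0 y).ne']
  have hall : ∀ y' ∈ S, f y' ≤ ρ * Φ y' := by
    intro y' hy'
    have h3 := hymax y' hy'
    rwa [div_le_iff₀ (hΦ0 y')] at h3
  have hgt : Φ y < f y := by
    rw [hfy]
    nlinarith [hΦ0 y]
  have hyR : nA A (y - o) ≤ R := (Finset.mem_filter.1 hyS).2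
  have hyΛ : y ∉ Λ := by
    intro hc
    have h0 : ∀ ξ : Tor d L → ℝ, ‖sol (ND L (univ : Finset (Fin d))) Λ (pot σ ξ) z
        (Pi.single x 1) y‖ = 0 := fun ξ => by
      rw [(isSol_sol (v := pot σ ξ) (Λ := Λ) hN hz (Pi.single x 1)).1 y hc, norm_zero]
    have h3 : f y = 0 := by
      simp only [hf, h0]
      simp
    rw [h3] at hgt
    exact absurd (hΦ0 y) (not_lt.2 hgt.le)
  have hyx : y ≠ x := by
    intro hc
    have h3 : f y ≤ m := by
      rw [hc]
      exact dec_diag ν hN hz h1 x hm.le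
    have h4 : m ≤ Φ y := by
      simp only [hΦ]
      rw [hc, sub_self, wt_zero, pow_zero, mul_one]
      have : 0 ≤ ε * β ^ (R - nA A (x - o)) := by positivity
      linarith
    linarith
  have hylt : nA A (y - o) < R := by
    refine lt_of_le_of_ne hyR fun hc => ?_
    have h3 : f y ≤ ε := dec_far hL ν hz A o x y hΛ hx hc hRd
    have h4 : ε ≤ Φ y := by
      simp only [hΦ]
      rw [hc, Nat.sub_self, pow_zero, mul_one]
      have : 0 ≤ m * ω ^ (wt (y - x)) := by positivity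
      linarith
    linarith
  have hstep : f y ≤ D * ∑ s ∈ ND L (univ : Finset (Fin d)), f (y + s) :=
    dec_step ν hN hz h1 x hyΛ hyx hD.le
  have hnb : ∀ s ∈ ND L (univ : Finset (Fin d)), f (y + s) ≤ ρ * Φ (y + s) := by
    intro s hs
    refine hall _ ?_
    simp only [S, Finset.mem_filter, mem_univ, true_and]
    have h3 := nA_add_le A (y - o) hs
    have h4 : y + s - o = y - o + s := by abel
    rw [h4]
    omega
  have hsumΦ : D * ∑ s ∈ ND L (univ : Finset (Fin d)), Φ (y + s) ≤ (1 / 2) * Φ y := by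
    have e1 : ∑ s ∈ ND L (univ : Finset (Fin d)), Φ (y + s)
        = m * ∑ s ∈ ND L (univ : Finset (Fin d)), ω ^ (wt (y - x + s))
          + ε * ∑ s ∈ ND L (univ : Finset (Fin d)), β ^ (R - nA A (y - o + s)) := by
      rw [Finset.mul_sum, Finset.mul_sum, ← Finset.sum_add_distrib]
      refine Finset.sum_congr rfl fun s _ => ?_
      have e2 : y + s - x = y - x + s := by abel
      have e3 : y + s - o = y - o + s := by abel
      simp only [hΦ, e2, e3]
    have hnx : nA A (y - x) = nA A (y - o) := by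
      unfold nA
      congr 1
      ext i
      simp only [spt, Finset.mem_sdiff, Finset.mem_filter, mem_univ, true_and]
      constructor
      · rintro ⟨h3, h4⟩
        refine ⟨fun h5 => h3 ?_, h4⟩
        have h6 := hx i h4
        have h7 : (y - x) i = (y - o) i - (x - o) i := by
          simp only [Pi.sub_apply]; ring
        rw [h7, h5, h6, sub_zero]
      · rintro ⟨h3, h4⟩
        refine ⟨fun h5 => h3 ?_, h4⟩
        have h6 := hx i h4
        have h7 : (y - o) i = (y - x) i + (x - o) i := by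
          simp only [Pi.sub_apply]; ring
        rw [h7, h5, h6, add_zero]
    have hspt : ((spt (y - x)).card : ℝ) ≤ A.card + R := by
      have h3 := card_spt_le A (y - x)
      rw [hnx] at h3
      have h4 : (spt (y - x)).card ≤ A.card + R := by omega
      exact_mod_cast h4
    have h3 : D * ∑ s ∈ ND L (univ : Finset (Fin d)), ω ^ (wt (y - x + s))
        ≤ (1 / 2) * ω ^ (wt (y - x)) := by
      have h4 := sum_wt_le hL (y - x) hω0 hω1
      have h5 : D * (2 * (spt (y - x)).card * ω⁻¹ + 2 * d * ω) ≤ 1 / 2 := by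
        refine le_trans (mul_le_mul_of_nonneg_left ?_ hD.le) hω
        gcongr
      calc D * ∑ s ∈ ND L (univ : Finset (Fin d)), ω ^ (wt (y - x + s))
          ≤ D * (ω ^ (wt (y - x)) * (2 * (spt (y - x)).card * ω⁻¹ + 2 * d * ω)) :=
            mul_le_mul_of_nonneg_left h4 hD.le
        _ = (D * (2 * (spt (y - x)).card * ω⁻¹ + 2 * d * ω)) * ω ^ (wt (y - x)) := by ring
        _ ≤ (1 / 2) * ω ^ (wt (y - x)) := mul_le_mul_of_nonneg_right h5 (by positivity)
    have h6 : D * ∑ s ∈ ND L (univ : Finset (Fin d)), β ^ (R - nA A (y - o + s))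
        ≤ (1 / 2) * β ^ (R - nA A (y - o)) := by
      have h4 := sum_beta_le hL A R hylt hβ1
      calc D * ∑ s ∈ ND L (univ : Finset (Fin d)), β ^ (R - nA A (y - o + s))
          ≤ D * (β ^ (R - nA A (y - o)) * (2 * R * β + 2 * (A.card + R) + 2 * d * β⁻¹)) :=
            mul_le_mul_of_nonneg_left h4 hD.le
        _ = (D * (2 * R * β + 2 * (A.card + R) + 2 * d * β⁻¹)) * β ^ (R - nA A (y - o)) := by ring
        _ ≤ (1 / 2) * β ^ (R - nA A (y - o)) := mul_le_mul_of_nonneg_right hβ (by positivity)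
    rw [e1]
    have h7 : (1 / 2) * Φ y = m * ((1 / 2) * ω ^ (wt (y - x)))
        + ε * ((1 / 2) * β ^ (R - nA A (y - o))) := by
      simp only [hΦ]; ring
    rw [h7, mul_add]
    have h8 := mul_le_mul_of_nonneg_left h3 hm.le
    have h9 := mul_le_mul_of_nonneg_left h6 hε0
    nlinarith
  have h10 : f y ≤ ρ * ((1 / 2) * Φ y) := by
    calc f y ≤ D * ∑ s ∈ ND L (univ : Finset (Fin d)), f (y + s) := hstep
      _ ≤ D * ∑ s ∈ ND L (univ : Finset (Fin d)), ρ * Φ (y + s) :=
          mul_le_mul_of_nonneg_left (Finset.sum_le_sum hnb) hD.le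
      _ = ρ * (D * ∑ s ∈ ND L (univ : Finset (Fin d)), Φ (y + s)) := by
          rw [← Finset.mul_sum]; ring
      _ ≤ ρ * ((1 / 2) * Φ y) := mul_le_mul_of_nonneg_left hsumΦ (by linarith)
  rw [hfy] at h10
  have h11 : 0 < ρ * Φ y := mul_pos (by linarith) (hΦ0 y)
  nlinarith

end Pool.Agent.H989.SB
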