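import Pool.Agent.H989.SB.Prb

/-!
Definitions: signed directions, weight, one-site hypotheses.
-/

set_option linter.unusedSectionVars false
set_option linter.unusedVariables false

open MeasureTheory ProbabilityTheory Finset

namespace Pool.Agent.H989.SB

variable {d L : ℕ} [NeZero L]

/-- signed directions -/
abbrev St (d : ℕ) := Fin d × Bool

/-- the unit step of a signed direction -/
def st (s : St d) : Tor d L := if s.2 then ei s.1 else -ei s.1

/-- the graph norm on the torus -/
def wt (x : Tor d L) : ℕ := ∑ i, (x i).valMinAbs.natAbs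

/-- the coordinates in which `x` is not zero -/
def spt (x : Tor d L) : Finset (Fin d) := univ.filter fun i => x i ≠ 0

/-- the sum of the steps in `S` -/
def vec (S : Finset (St d)) : Tor d L := ∑ s ∈ S, st s

/-- different signed directions of `S` use different coordinates -/
def Cons (S : Finset (St d)) : Prop := ∀ s ∈ S, ∀ t ∈ S, s.1 = t.1 → s = t

/-- `x` is supported in the coordinates `A` -/
def SupA (A : Finset (Fin d)) (x : Tor d L) : Prop := ∀ i, i ∉ A → x i = 0

/-- `S` does not use the coordinates `A` -/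
def Off (A : Finset (Fin d)) (S : Finset (St d)) : Prop := ∀ s ∈ S, s.1 ∉ A

/-- the number of coordinates outside `A` in which `w - o` is not zero -/
def nA (A : Finset (Fin d)) (x : Tor d L) : ℕ := (spt x \ A).card

/-- a law on the line with a density `g`, `g t ≤ G`, `t ^ 2 * g t ≤ G` -/
structure Law (ν : Measure ℝ) (G : ℝ) : Prop where
  prob : IsProbabilityMeasure ν
  dens : ∃ g : ℝ → ℝ, Measurable g ∧ (∀ t, 0 ≤ g t) ∧ (∀ t, g t ≤ G) ∧ (∀ t, t ^ 2 * g t ≤ G) ∧
    ν = volume.withDensity (fun t => ENNReal.ofReal (g t))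

/-- one-site bounds at the complex energy `z`: `m` bounds the mean of `1/|σt - c|`, and `D` is the
decoupling constant -/
structure OneSite (ν : Measure ℝ) (σ : ℝ) (z : ℂ) (m D : ℝ) : Prop where
  int : ∀ c : ℂ, z.im ≤ c.im → Integrable (fun t => ‖den σ c t‖⁻¹) ν
  int2 : ∀ c : ℂ, z.im ≤ c.im → Integrable (fun t => ‖den σ z t‖ * ‖den σ c t‖⁻¹) ν
  h1 : ∀ c : ℂ, z.im ≤ c.im → ∫ t, ‖den σ c t‖⁻¹ ∂ν ≤ m
  h2 : ∀ c : ℂ, z.im ≤ c.im →
    ∫ t, ‖den σ c t‖⁻¹ ∂ν ≤ D * ∫ t, ‖den σ z t‖ * ‖den σ c t‖⁻¹ ∂ν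

end Pool.Agent.H989.SB
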