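import Pool.Agent.H989.SB.Win
import Pool.Agent.H989.SB.Path

/-!
Deterministic consequences of the windows: sizes of the pivots, amplitudes along the path, growth of
a resonance.
-/

set_option linter.unusedSectionVars false
set_option linter.unusedVariables false

open Finset Complex

namespace Pool.Agent.H989.SB

variable {V : Type*} [AddCommGroup V] [Fintype V] [DecidableEq V]
variable {N Λ : Finset V} {v : V → ℝ} {z : ℂ}

/-- conditions on the constants and the windows -/
structure WinP (z : ℂ) (K θ W q M Y : ℝ) (n : ℕ) (J h₀ s : ℤ) : Prop where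
  cst : Cst K θ W
  cst2 : Cst K θ (2 * n * W)
  h48 : 2 * n * (24 * (2 * n * W) ^ 2 * θ) ≤ 1
  n1 : 1 ≤ n
  q1 : 1 < q
  q2 : q ≤ 2
  lo : (K * θ)⁻¹ ≤ q ^ (-J - 1)
  hi : q ^ (J + 2) ≤ K * θ
  dl : n * dl K θ W ≤ 1 / 4
  M2 : 2 ≤ M
  hs : 8 * M ≤ q ^ (-s - 3 * n)
  hh : 6 * n * W * q ^ (n - h₀) ≤ 1
  hM : 6 * n * W * q ^ (n - s) ≤ K
  hKW : W ≤ K * θ
  him : z.im * K ^ (2 * n) * Y ≤ (q - 1) * q ^ (-J - 1)
  hp : 4 * n * W ^ 2 / K ≤ (q - 1) * q ^ (-J - 1)

/-- the pivots are in the given ranges -/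
def PivIn (N : Finset V) (v : V → ℝ) (z : ℂ) (q : ℝ) : Finset V → List V → List ℤ → Prop
  | _, [], _ => True
  | _, _ :: _, [] => False
  | Λ, x :: xs, j :: τ => q ^ (j - 1) ≤ ‖pv N Λ v z x‖ ∧ ‖pv N Λ v z x‖ ≤ q ^ (j + 3)
      ∧ PivIn N v z q (insert x Λ) xs τ

theorem prd_bd {q : ℝ} (hq : 1 < q) : ∀ (xs : List V) (Λ : Finset V) (τ : List ℤ),
    PivIn N v z q Λ xs τ → ∀ k : ℕ, k ≤ xs.length →
      q ^ ((τ.take k).sum - k) ≤ prd N v z Λ xs k ∧ prd N v z Λ xs k ≤ q ^ ((τ.take k).sum + 3 * k) := by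
  have hq0 : 0 < q := by linarith
  intro xs
  induction xs with
  | nil =>
    intro Λ τ _ k hk
    have hk0 : k = 0 := by simpa using hk
    subst hk0
    simp [prd]
  | cons x xs ih =>
    intro Λ τ hτ k hk
    cases τ with
    | nil => exact absurd hτ (by simp [PivIn])
    | cons j τ =>
      obtain ⟨h1, h2, h3⟩ := hτ
      cases k with
      | zero => simp [prd]
      | succ k =>
        rw [List.length_cons] at hk
        obtain ⟨i1, i2⟩ := ih (insert x Λ) τ h3 k (by omega)
        rw [prd, List.take_succ_cons, List.sum_cons]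
        have hp : 0 ≤ prd N v z (insert x Λ) xs k := le_trans (by positivity) i1
        constructor
        · have e : j + (τ.take k).sum - ((k + 1 : ℕ) : ℤ) = (j - 1) + ((τ.take k).sum - k) := by
            push_cast; ring
          rw [e, zpow_add₀ hq0.ne']
          gcongr
        · have e : j + (τ.take k).sum + 3 * ((k + 1 : ℕ) : ℤ)
              = (j + 3) + ((τ.take k).sum + 3 * k) := by
            push_cast; ring
          rw [e, zpow_add₀ hq0.ne']
          gcongr

/-- the real parts of the pivots give the lower bound -/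
theorem pivGe_of {q a : ℝ} (hq : 1 < q) {J : ℤ} (ha : a ≤ q ^ (-J - 1)) :
    ∀ (xs : List V) (Λ : Finset V) (τ : List ℤ), τ.length = xs.length → (∀ j ∈ τ, |j| ≤ J) →
      InW N v z Λ xs (τ.map (winp q)) → PivGe N v z a Λ xs := by
  intro xs
  induction xs with
  | nil => intro Λ τ _ _ _; trivial
  | cons x xs ih =>
    intro Λ τ hl hJ hw
    cases τ with
    | nil => simp at hl
    | cons j τ =>
      rw [List.map_cons] at hw
      obtain ⟨h1, h2⟩ := hw
      have hj := hJ j (by simp)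
      refine ⟨?_, ih (insert x Λ) τ (by simpa using hl)
        (fun i hi => hJ i (List.mem_cons_of_mem _ hi)) h2⟩
      calc a ≤ q ^ (-J - 1) := ha
        _ ≤ q ^ (j - 1) := by
            apply zpow_le_zpow_right₀ hq.le
            have := (abs_le.1 hj).1
            omega
        _ ≤ |(pv N Λ v z x).re| := h1.1
        _ ≤ ‖pv N Λ v z x‖ := Complex.abs_re_le_norm _

/-- Norms of the vectors `chi` at the intermediate levels, by `chi_step`:
`nrm (chi Λ x) ≤ nrm (chi (insert x₁ Λ) x) + |c/b| nrm (chi (insert x₁ Λ) x₁)` with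
`|c/b| ≤ 2 W K θ` (`cc_bd`, `C1` for the tail, `PivGe`), and `1 + 2 W K θ ≤ K` by `Cst` (Minkowski for
`nsq`, see Sol/Spec files, or expand `(a+b)² ≤ (1+t)a² + (1+1/t)b²`, or use `‖·‖` on `EuclideanSpace`).
Induction on the list.  Second part: the imaginary parts (`pv_im`). -/
theorem im_small (hN : Steps N) (hz : 0 < z.im) {ds : V → V → ℕ} (hds : Dst ds) {K θ W Y : ℝ}
    (hc : Cst K θ W) : ∀ (xs : List V) (Λ : Finset V) (o : V), IsPath N ds Λ o xs → o ∈ Λ →
      TF N v z ds W K (full Λ xs) xs → PivGe N v z (K * θ)⁻¹ Λ xs →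
      (∀ x ∈ xs, nsq (chi N (full Λ xs) v z x) ≤ Y) →
      (∀ x ∈ Λ, nsq (chi N (full Λ xs) v z x) ≤ Y → nsq (chi N Λ v z x) ≤ K ^ (2 * xs.length) * Y) ∧
      ∀ (xs₁ : List V) (x : V) (xs₂ : List V), xs = xs₁ ++ x :: xs₂ →
        |(pv N (full Λ xs₁) v z x).im| ≤ z.im * K ^ (2 * xs.length) * Y := by
  have hK4 := hc.K1
  have hK0 : 0 < K := by linarith
  have hθ := hc.θ0
  have hW := hc.W1
  intro xs
  induction xs with
  | nil =>
    intro Λ o _ _ _ _ _
    refine ⟨fun x _ h => ?_, fun xs₁ x xs₂ h => ?_⟩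
    · simpa [full] using h
    · simp at h
  | cons x₁ xs ih =>
    intro Λ o hp ho hT hP hY
    have hx₁ : x₁ ∉ Λ := hp.1
    obtain ⟨iA, iB⟩ := ih (insert x₁ Λ) x₁ hp.2.2.2.2.2 (Finset.mem_insert_self _ _) hT.tail hP.2
      (fun x hx => hY x (List.mem_cons_of_mem _ hx))
    have hC1 := C1 hN hz hds hc xs (insert x₁ Λ) x₁ hp.2.2.2.2.2 (Finset.mem_insert_self _ _)
      hT.tail hP.2
    obtain ⟨hcc, -, -⟩ := cc_bd hN hz hds hc (subset_full xs _) hp ho hT hC1
    have hY1 : nsq (chi N (full Λ (x₁ :: xs)) v z x₁) ≤ Y := hY x₁ (by simp)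
    have hY0 : 0 ≤ Y := le_trans (nsq_nonneg _) hY1
    have hx₁b := iA x₁ (Finset.mem_insert_self _ _) hY1
    have hK1 : 1 ≤ K := by linarith
    have hmono : K ^ (2 * xs.length) * Y ≤ K ^ (2 * (x₁ :: xs).length) * Y := by
      apply mul_le_mul_of_nonneg_right _ hY0
      apply pow_le_pow_right₀ hK1
      rw [List.length_cons]
      omega
    refine ⟨fun x hx hxY => ?_, fun xs₁ x xs₂ he => ?_⟩
    · have hxb := iA x (Finset.mem_insert_of_mem hx) hxY
      set Q : ℝ := K ^ (2 * xs.length) * Y with hQ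
      have hQ0 : 0 ≤ Q := by positivity
      have h1 : nrm (chi N (insert x₁ Λ) v z x) ≤ √Q := by
        rw [nrm_eq_sqrt]
        exact Real.sqrt_le_sqrt hxb
      have h2 : nrm (chi N (insert x₁ Λ) v z x₁) ≤ √Q := by
        rw [nrm_eq_sqrt]
        exact Real.sqrt_le_sqrt hx₁b
      have hcx : ‖cc N Λ v z x x₁‖ ≤ 2 * W := by
        refine (hcc x hx).trans ?_
        have h3 : K⁻¹ ^ (ds x o) ≤ 1 := pow_le_one₀ (by positivity) (inv_le_one_of_one_le₀ hK1)
        calc 2 * W * K⁻¹ ^ (ds x o) ≤ 2 * W * 1 := by gcongr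
          _ = 2 * W := mul_one _
      have hpv : (K * θ)⁻¹ ≤ ‖pv N Λ v z x₁‖ := hP.1
      have hpv0 : 0 < ‖pv N Λ v z x₁‖ := lt_of_lt_of_le (by positivity) hpv
      have hquot : ‖cc N Λ v z x x₁ / pv N Λ v z x₁‖ ≤ 2 * W * (K * θ) := by
        rw [norm_div, div_le_iff₀ hpv0]
        have e1 : 1 ≤ (K * θ) * ‖pv N Λ v z x₁‖ := by
          rw [← mul_inv_cancel₀ (by positivity : K * θ ≠ 0)]
          gcongr
        calc ‖cc N Λ v z x x₁‖ ≤ 2 * W * 1 := by linarith
          _ ≤ 2 * W * ((K * θ) * ‖pv N Λ v z x₁‖) := by gcongr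
          _ = _ := by ring
      have hfac : 1 + 2 * W * (K * θ) ≤ K := by
        have h4 := hc.h1
        have h5 : 0 < W / K := by positivity
        have h6 : W * θ ≤ W ^ 2 * θ := by
          have h8 := mul_nonneg (sub_nonneg.2 hW) (mul_nonneg (by linarith : (0:ℝ) ≤ W) hθ.le)
          nlinarith
        have h7 : W * θ ≤ 1 / 96 := by linarith
        have h8 := mul_le_mul_of_nonneg_left h7 hK0.le
        nlinarith
      have h3 : nrm (chi N Λ v z x) ≤ K * √Q := by
        rw [chi_step hN hz x hx₁]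
        calc nrm (chi N (insert x₁ Λ) v z x
              - (cc N Λ v z x x₁ / pv N Λ v z x₁) • chi N (insert x₁ Λ) v z x₁)
            ≤ nrm (chi N (insert x₁ Λ) v z x)
              + nrm ((cc N Λ v z x x₁ / pv N Λ v z x₁) • chi N (insert x₁ Λ) v z x₁) :=
              nrm_sub_le _ _
          _ ≤ √Q + 2 * W * (K * θ) * √Q := by
              rw [nrm_smul]
              have := nrm_nonneg (chi N (insert x₁ Λ) v z x₁)
              gcongr
          _ = (1 + 2 * W * (K * θ)) * √Q := by ring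
          _ ≤ K * √Q := by gcongr
      rw [← nrm_sq]
      calc nrm (chi N Λ v z x) ^ 2 ≤ (K * √Q) ^ 2 :=
            pow_le_pow_left₀ (nrm_nonneg _) h3 2
        _ = K ^ 2 * Q := by rw [mul_pow, Real.sq_sqrt hQ0]
        _ = K ^ (2 * (x₁ :: xs).length) * Y := by
            rw [hQ, List.length_cons, mul_add, mul_one, pow_add]
            ring
    · cases xs₁ with
      | nil =>
        rw [List.nil_append, List.cons.injEq] at he
        obtain ⟨rfl, rfl⟩ := he
        show |(pv N Λ v z x₁).im| ≤ _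
        rw [pv_im hN hz, abs_neg, abs_of_nonneg (mul_nonneg hz.le (nsq_nonneg _)), mul_assoc]
        exact mul_le_mul_of_nonneg_left (hx₁b.trans hmono) hz.le
      | cons y xs₁ =>
        rw [List.cons_append, List.cons.injEq] at he
        obtain ⟨rfl, he⟩ := he
        refine (iB xs₁ x xs₂ he).trans ?_
        rw [mul_assoc, mul_assoc]
        exact mul_le_mul_of_nonneg_left hmono hz.le

/-- the list form of the bounds for the pivots -/
lemma Det_piv_aux {q K θ : ℝ} {J : ℤ} (hq : 1 < q) (hq2 : q ≤ 2) (hi : q ^ (J + 2) ≤ K * θ) :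
    ∀ (xs : List V) (Λ : Finset V) (τ : List ℤ), τ.length = xs.length → (∀ j ∈ τ, |j| ≤ J) →
      InW N v z Λ xs (τ.map (winp q)) →
      (∀ (xs₁ : List V) (x : V) (xs₂ : List V), xs = xs₁ ++ x :: xs₂ →
        |(pv N (full Λ xs₁) v z x).im| ≤ (q - 1) * q ^ (-J - 1)) →
      PivLe N v z (2 * (K * θ)) Λ xs ∧ PivIn N v z q Λ xs τ := by
  have hq0 : 0 < q := by linarith
  intro xs
  induction xs with
  | nil => intro Λ τ _ _ _ _; exact ⟨trivial, trivial⟩
  | cons x xs ih =>
    intro Λ τ hl hJ hw him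
    cases τ with
    | nil => simp at hl
    | cons j τ =>
      rw [List.map_cons] at hw
      obtain ⟨h1, h2⟩ := hw
      have hj := hJ j (by simp)
      obtain ⟨hj1, hj2⟩ := abs_le.1 hj
      have hJ0 : 0 ≤ J := (abs_nonneg j).trans hj
      obtain ⟨i1, i2⟩ := ih (insert x Λ) τ (by simpa using hl)
        (fun i hi => hJ i (List.mem_cons_of_mem _ hi)) h2 (fun xs₁ y xs₂ he => by
          have := him (x :: xs₁) y xs₂ (by rw [he]; rfl)
          exact this)
      have h3 : |(pv N Λ v z x).im| ≤ (q - 1) * q ^ (-J - 1) := him [] x xs rfl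
      have h4 : ‖pv N Λ v z x‖ ≤ |(pv N Λ v z x).re| + |(pv N Λ v z x).im| :=
        Complex.norm_le_abs_re_add_abs_im _
      have h5 : q ^ (-J - 1) ≤ q ^ (j + 2) := zpow_le_zpow_right₀ hq.le (by omega)
      have h6 : q ^ (-J - 1) ≤ q ^ (J + 2) := zpow_le_zpow_right₀ hq.le (by omega)
      have h7 : q ^ (j + 2) ≤ q ^ (J + 2) := zpow_le_zpow_right₀ hq.le (by omega)
      have h8 : q ^ (j - 1) ≤ |(pv N Λ v z x).re| := h1.1
      have h9 : |(pv N Λ v z x).re| < q ^ (j + 2) := h1.2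
      have hpos : 0 < q ^ (-J - 1) := by positivity
      refine ⟨⟨?_, i1⟩, ⟨?_, ?_, i2⟩⟩
      · nlinarith
      · exact h8.trans (Complex.abs_re_le_norm _)
      · have e : q ^ (j + 3) = q * q ^ (j + 2) := by
          rw [show j + 3 = 1 + (j + 2) by ring, zpow_add₀ hq0.ne', zpow_one]
        rw [e]
        nlinarith

section path
variable {ds : V → V → ℕ} {K θ W q M Y : ℝ} {n : ℕ} {J h₀ s : ℤ} {o : V} {xs : List V} {τ : List ℤ}

/-- Proof: `pivGe_of`, `im_small` (with `WinP.him`): the imaginary part is at most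
`(q - 1) q^(-J-1) ≤ (q - 1) q^(j + 2)`, so `|pv| ≤ q^(j+2) + (q-1) q^(j+2) = q^(j+3)`; and
`|pv| ≤ q^(J+2) + (q-1) q^(-J-1) ≤ 2 K θ` (note `q^(-J-1) ≤ q^(J+2)`: if the list is empty there is
nothing to prove, otherwise `0 ≤ |j| ≤ J`). -/
theorem good_piv (hN : Steps N) (hz : 0 < z.im) (hds : Dst ds) (H : WinP z K θ W q M Y n J h₀ s)
    (hp : IsPath N ds Λ o xs) (ho : o ∈ Λ) (hT : TF N v z ds W K (full Λ xs) xs)
    (hn : xs.length = n) (hτ : TW n J h₀ s τ) (hw : InW N v z Λ xs (τ.map (winp q)))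
    (hS : ∀ x ∈ o :: xs, nsq (chi N (full Λ xs) v z x) < Y) :
    PivGe N v z (K * θ)⁻¹ Λ xs ∧ PivLe N v z (2 * (K * θ)) Λ xs ∧ PivIn N v z q Λ xs τ := by
  have hl : τ.length = xs.length := hτ.len.trans hn.symm
  have hG : PivGe N v z (K * θ)⁻¹ Λ xs := pivGe_of H.q1 H.lo xs Λ τ hl hτ.le hw
  refine ⟨hG, ?_⟩
  obtain ⟨-, hB⟩ := im_small hN hz hds H.cst xs Λ o hp ho hT hG
    (fun x hx => (hS x (List.mem_cons_of_mem _ hx)).le)
  apply Det_piv_aux H.q1 H.q2 H.hi xs Λ τ hl hτ.le hw
  intro xs₁ x xs₂ he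
  refine (hB xs₁ x xs₂ he).trans ?_
  rw [hn]
  exact H.him

/-- Proof: `amp`, `good_piv`, `prd_bd`: `1 ± 2 (k+1) dl` is between `1/2` and `3/2`;
`prd (k+1) ≥ q^(h₀ - n)` for `k + 1 < n`, `q^(s - n) ≤ prd n ≤ q^(s + 3n)`. For the last part
`4 W K⁻¹^(ds x o) * (3/2) / prd ≤ 6 W K⁻¹ max (q^(n-h₀)) (q^(n-s))` and `WinP.hh`, `WinP.hM`. -/
theorem good_amp (hN : Steps N) (hz : 0 < z.im) (hds : Dst ds) (H : WinP z K θ W q M Y n J h₀ s)
    (hp : IsPath N ds Λ o xs) (ho : o ∈ Λ) (hT : TF N v z ds W K (full Λ xs) xs)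
    (hn : xs.length = n) (hτ : TW n J h₀ s τ) (hw : InW N v z Λ xs (τ.map (winp q)))
    (hS : ∀ x ∈ o :: xs, nsq (chi N (full Λ xs) v z x) < Y) :
    (∀ (k : ℕ) (y : V), xs[k]? = some y → k + 1 < n →
      ‖sol N Λ v z (bx N o) y‖ ≤ 3 / 2 * q ^ (n - h₀)) ∧
    (∀ y : V, xs[n - 1]? = some y → 4 * M ≤ ‖sol N Λ v z (bx N o) y‖ ∧
      ‖sol N Λ v z (bx N o) y‖ ≤ 3 / 2 * q ^ (n - s)) ∧
    ∀ x ∈ Λ, x ≠ o → ∀ y ∈ xs, n * ‖sol N Λ v z (bx N x) y‖ ≤ 1 := by
  obtain ⟨hG, hL, hI⟩ := good_piv hN hz hds H hp ho hT hn hτ hw hS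
  have hq1 := H.q1
  have hq0 : 0 < q := by linarith
  have hK4 := H.cst.K1
  have hK0 : 0 < K := by linarith
  have hθ := H.cst.θ0
  have hW := H.cst.W1
  have hd := H.cst.dl0
  have hn1 := H.n1
  have hdl := H.dl
  have hamp := amp hN hz hds H.cst xs Λ o hp ho hT hG hL (by rw [hn]; exact hdl)
  have hprd := prd_bd (v := v) (N := N) (z := z) hq1 xs Λ τ hI
  have hpos : ∀ k, 0 < prd N v z Λ xs k := fun k => Amp_prd_pos hN hz xs Λ k
  have hdk : ∀ k : ℕ, k < n → 2 * ((k : ℝ) + 1) * dl K θ W ≤ 1 / 2 := by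
    intro k hk
    have h1 : (k : ℝ) + 1 ≤ n := by exact_mod_cast hk
    nlinarith
  -- lower bounds for the products
  have hlo1 : ∀ k : ℕ, k + 1 < n → q ^ (h₀ - (n : ℤ)) ≤ prd N v z Λ xs (k + 1) := by
    intro k hk
    refine le_trans ?_ (hprd (k + 1) (by omega)).1
    apply zpow_le_zpow_right₀ hq1.le
    have h1 := hτ.part (k + 1) (by omega) hk
    push_cast
    omega
  have hlo2 : q ^ (s - (n : ℤ)) ≤ prd N v z Λ xs n := by
    refine le_trans ?_ (hprd n (by omega)).1
    rw [List.take_of_length_le (by rw [hτ.len]), hτ.tot]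
  have hup2 : prd N v z Λ xs n ≤ q ^ (s + 3 * (n : ℤ)) := by
    refine le_trans (hprd n (by omega)).2 ?_
    rw [List.take_of_length_le (by rw [hτ.len]), hτ.tot]
  have hinv : ∀ (a b : ℤ) (P : ℝ), 0 < P → q ^ (a - b) ≤ P → P⁻¹ ≤ q ^ (b - a) := by
    intro a b P hP hle
    have h1 : P⁻¹ ≤ (q ^ (a - b))⁻¹ := inv_anti₀ (by positivity) hle
    rw [← zpow_neg, neg_sub] at h1
    exact h1
  refine ⟨?_, ?_, ?_⟩
  · intro k y hy hk
    obtain ⟨-, h2, -⟩ := hamp k y hy
    have h3 := hinv _ _ _ (hpos (k + 1)) (hlo1 k hk)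
    have h4 := hdk k (by omega)
    refine h2.trans ?_
    rw [div_eq_mul_inv]
    have h5 : 0 < (prd N v z Λ xs (k + 1))⁻¹ := inv_pos.2 (hpos _)
    gcongr
    linarith
  · intro y hy
    obtain ⟨h1, h2, -⟩ := hamp (n - 1) y hy
    have hn' : n - 1 + 1 = n := by omega
    have h4 := hdk (n - 1) (by omega)
    rw [hn'] at h1 h2
    have h5 : 0 < (prd N v z Λ xs n)⁻¹ := inv_pos.2 (hpos _)
    constructor
    · refine le_trans ?_ h1
      have h6 : q ^ (-s - 3 * (n : ℤ)) ≤ (prd N v z Λ xs n)⁻¹ := by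
        have e : -s - 3 * (n : ℤ) = -(s + 3 * (n : ℤ)) := by ring
        rw [e, zpow_neg]
        exact inv_anti₀ (hpos _) hup2
      have h7 := H.hs
      rw [div_eq_mul_inv]
      have h8 : (1 : ℝ) / 2 ≤ 1 - 2 * (((n - 1 : ℕ) : ℝ) + 1) * dl K θ W := by linarith
      calc 4 * M = 1 / 2 * (8 * M) := by ring
        _ ≤ 1 / 2 * (prd N v z Λ xs n)⁻¹ := by linarith
        _ ≤ (1 - 2 * (((n - 1 : ℕ) : ℝ) + 1) * dl K θ W) * (prd N v z Λ xs n)⁻¹ := by gcongr
    · refine h2.trans ?_
      rw [div_eq_mul_inv]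
      have h3 := hinv _ _ _ (hpos n) hlo2
      gcongr
      linarith
  · intro x hx hxo y hy
    obtain ⟨k, hk⟩ := List.mem_iff_getElem?.1 hy
    have hklt : k < n := by
      obtain ⟨h, _⟩ := List.getElem?_eq_some_iff.1 hk
      omega
    obtain ⟨-, -, h3⟩ := hamp k y hk
    have h4 := h3 x hx hxo
    have h5 := hdk k hklt
    have hds1 : 1 ≤ ds x o := hds.pos x o hxo
    have hr : K⁻¹ ^ (ds x o) ≤ K⁻¹ := by
      calc K⁻¹ ^ (ds x o) ≤ K⁻¹ ^ 1 :=
            pow_le_pow_of_le_one (by positivity) (inv_le_one_of_one_le₀ (by linarith)) hds1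
        _ = K⁻¹ := pow_one _
    have h5' : 0 < (prd N v z Λ xs (k + 1))⁻¹ := inv_pos.2 (hpos _)
    have hdn : 0 ≤ 2 * ((k : ℝ) + 1) * dl K θ W := by positivity
    have h6 : ‖sol N Λ v z (bx N x) y‖ ≤ 6 * W * K⁻¹ * (prd N v z Λ xs (k + 1))⁻¹ := by
      refine h4.trans ?_
      rw [div_eq_mul_inv]
      calc 4 * W * K⁻¹ ^ (ds x o) * ((1 + 2 * ((k : ℝ) + 1) * dl K θ W)
              * (prd N v z Λ xs (k + 1))⁻¹)
          ≤ 4 * W * K⁻¹ * ((3 / 2) * (prd N v z Λ xs (k + 1))⁻¹) := by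
            gcongr
            linarith
        _ = 6 * W * K⁻¹ * (prd N v z Λ xs (k + 1))⁻¹ := by ring
    have hn0 : (0 : ℝ) ≤ n := Nat.cast_nonneg _
    by_cases hk1 : k + 1 < n
    · have h7 := hinv _ _ _ (hpos (k + 1)) (hlo1 k hk1)
      have h8 := H.hh
      have hKi : K⁻¹ ≤ 1 := inv_le_one_of_one_le₀ (by linarith)
      calc n * ‖sol N Λ v z (bx N x) y‖
          ≤ n * (6 * W * K⁻¹ * q ^ ((n : ℤ) - h₀)) := by
            gcongr
            refine h6.trans ?_
            gcongr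
        _ = (6 * n * W * q ^ ((n : ℤ) - h₀)) * K⁻¹ := by ring
        _ ≤ 1 * 1 := by
            apply mul_le_mul h8 hKi (by positivity) (by norm_num)
        _ = 1 := by norm_num
    · have hkn : k + 1 = n := by omega
      rw [hkn] at h6
      have h7 := hinv _ _ _ (hpos n) hlo2
      have h8 := H.hM
      calc n * ‖sol N Λ v z (bx N x) y‖
          ≤ n * (6 * W * K⁻¹ * q ^ ((n : ℤ) - s)) := by
            gcongr
            refine h6.trans ?_
            gcongr
        _ = (6 * n * W * q ^ ((n : ℤ) - s)) * K⁻¹ := by ring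
        _ ≤ K * K⁻¹ := by gcongr
        _ = 1 := mul_inv_cancel₀ hK0.ne'

/-- Growth of a resonance.
Proof.  `chi_multi` with `Γ = xs.toFinset` (`full_union`): with `D = ‖chi (full Λ xs) xl y‖` and
`good_amp`: `‖chi Λ o y‖ ≥ 4 M D - 2 D - n (3/2) q^(n-h₀) 2 D ≥ 2 M D` (`WinP.hh`, `1 ≤ W`), and for
`x ≠ o`: `‖chi Λ x y‖ ≤ 2 D + 2 D ≤ 2 M D`. (`xs.Nodup` follows from `IsPath`.) -/
theorem step_up (hN : Steps N) (hz : 0 < z.im) (hds : Dst ds) (H : WinP z K θ W q M Y n J h₀ s)
    (hp : IsPath N ds Λ o xs) (ho : o ∈ Λ) (hT : TF N v z ds W K (full Λ xs) xs)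
    (hn : xs.length = n) (hτ : TW n J h₀ s τ) (hw : InW N v z Λ xs (τ.map (winp q)))
    (hS : ∀ x ∈ o :: xs, nsq (chi N (full Λ xs) v z x) < Y) {xl y : V} (hl : xs[n - 1]? = some xl)
    (hD : ∀ x ∈ full Λ xs, ‖chi N (full Λ xs) v z x y‖ ≤ 2 * ‖chi N (full Λ xs) v z xl y‖) :
    2 * M * ‖chi N (full Λ xs) v z xl y‖ ≤ ‖chi N Λ v z o y‖ ∧
    ∀ x ∈ Λ, ‖chi N Λ v z x y‖ ≤ ‖chi N Λ v z o y‖ := by
  obtain ⟨hA1, hA2, hA3⟩ := good_amp hN hz hds H hp ho hT hn hτ hw hS
  have hq1 := H.q1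
  have hq0 : 0 < q := by linarith
  have hW := H.cst.W1
  have hM := H.M2
  have hn1 := H.n1
  have hdis : Disjoint Λ xs.toFinset := by
    rw [Finset.disjoint_right]
    intro y hy
    rw [List.mem_toFinset] at hy
    exact Amp_notMem xs Λ o hp y hy
  have hfu : full Λ xs = Λ ∪ xs.toFinset := full_union Λ xs
  set D : ℝ := ‖chi N (full Λ xs) v z xl y‖ with hDdef
  have hD0 : 0 ≤ D := norm_nonneg _
  have hxl : xl ∈ xs := List.mem_of_getElem? hl
  have hcard : (xs.toFinset.card : ℝ) ≤ n := by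
    have h1 : xs.toFinset.card ≤ xs.length := List.toFinset_card_le xs
    rw [hn] at h1
    exact_mod_cast h1
  have hmemf : ∀ g ∈ xs.toFinset, g ∈ full Λ xs := by
    intro g hg
    rw [hfu]
    exact Finset.mem_union_right _ hg
  have hexp : ∀ x, chi N Λ v z x y = chi N (full Λ xs) v z x y
      - ∑ g ∈ xs.toFinset, sol N Λ v z (bx N x) g * chi N (full Λ xs) v z g y := by
    intro x
    have h := chi_multi (v := v) hN hz x xs.toFinset hdis
    rw [← hfu] at h
    rw [h, Pi.sub_apply, Finset.sum_apply]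
    rfl
  have hmain : 2 * M * D ≤ ‖chi N Λ v z o y‖ := by
    rw [hexp o, ← Finset.add_sum_erase _ _ (List.mem_toFinset.2 hxl)]
    have h1 : ‖chi N (full Λ xs) v z o y‖ ≤ 2 * D := by
      apply hD
      rw [hfu]
      exact Finset.mem_union_left _ ho
    have h2 : 4 * M * D ≤ ‖sol N Λ v z (bx N o) xl * chi N (full Λ xs) v z xl y‖ := by
      rw [norm_mul]
      exact mul_le_mul_of_nonneg_right (hA2 xl hl).1 hD0
    have h3 : ‖∑ g ∈ xs.toFinset.erase xl, sol N Λ v z (bx N o) g
        * chi N (full Λ xs) v z g y‖ ≤ D / 2 := by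
      calc ‖∑ g ∈ xs.toFinset.erase xl, sol N Λ v z (bx N o) g * chi N (full Λ xs) v z g y‖
          ≤ ∑ g ∈ xs.toFinset.erase xl, (3 / 2 * q ^ ((n : ℤ) - h₀)) * (2 * D) := by
            refine (norm_sum_le _ _).trans (Finset.sum_le_sum fun g hg => ?_)
            rw [norm_mul]
            have hgx : g ≠ xl := Finset.ne_of_mem_erase hg
            have hg' := Finset.mem_of_mem_erase hg
            have hgm := List.mem_toFinset.1 hg'
            obtain ⟨k, hk⟩ := List.mem_iff_getElem?.1 hgm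
            have hklt : k < n := by
              obtain ⟨h, _⟩ := List.getElem?_eq_some_iff.1 hk
              omega
            have hk1 : k + 1 < n := by
              by_contra hc
              have : k = n - 1 := by omega
              rw [this, hl] at hk
              exact hgx (Option.some.inj hk).symm
            have h4 := hA1 k g hk hk1
            have h5 := hD g (hmemf g hg')
            gcongr
        _ = ((xs.toFinset.erase xl).card : ℝ) * ((3 / 2 * q ^ ((n : ℤ) - h₀)) * (2 * D)) := by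
            rw [Finset.sum_const, nsmul_eq_mul]
        _ ≤ n * ((3 / 2 * q ^ ((n : ℤ) - h₀)) * (2 * D)) := by
            have h6 : ((xs.toFinset.erase xl).card : ℝ) ≤ xs.toFinset.card := by
              exact_mod_cast Finset.card_le_card (Finset.erase_subset _ _)
            have := h6.trans hcard
            gcongr
        _ = (6 * n * 1 * q ^ ((n : ℤ) - h₀)) * (D / 2) := by ring
        _ ≤ (6 * n * W * q ^ ((n : ℤ) - h₀)) * (D / 2) := by gcongr
        _ ≤ 1 * (D / 2) := by
            have := H.hh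
            gcongr
        _ = D / 2 := one_mul _
    set a := chi N (full Λ xs) v z o y
    set b := sol N Λ v z (bx N o) xl * chi N (full Λ xs) v z xl y
    set c := ∑ g ∈ xs.toFinset.erase xl, sol N Λ v z (bx N o) g * chi N (full Λ xs) v z g y
    have h7 : ‖b‖ ≤ ‖a - (b + c)‖ + ‖a‖ + ‖c‖ := by
      calc ‖b‖ = ‖-(a - (b + c)) + a - c‖ := by congr 1; ring
        _ ≤ ‖-(a - (b + c)) + a‖ + ‖c‖ := norm_sub_le _ _
        _ ≤ ‖-(a - (b + c))‖ + ‖a‖ + ‖c‖ := by
            have := norm_add_le (-(a - (b + c))) a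
            linarith
        _ = _ := by rw [norm_neg]
    nlinarith
  refine ⟨hmain, fun x hx => ?_⟩
  by_cases hxo : x = o
  · rw [hxo]
  · refine le_trans ?_ hmain
    rw [hexp x]
    have h1 : ‖chi N (full Λ xs) v z x y‖ ≤ 2 * D := by
      apply hD
      rw [hfu]
      exact Finset.mem_union_left _ hx
    have hnpos : (0 : ℝ) < n := by exact_mod_cast hn1
    have h2 : ‖∑ g ∈ xs.toFinset, sol N Λ v z (bx N x) g * chi N (full Λ xs) v z g y‖
        ≤ 2 * D := by
      calc ‖∑ g ∈ xs.toFinset, sol N Λ v z (bx N x) g * chi N (full Λ xs) v z g y‖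
          ≤ ∑ g ∈ xs.toFinset, (1 / (n : ℝ)) * (2 * D) := by
            refine (norm_sum_le _ _).trans (Finset.sum_le_sum fun g hg => ?_)
            rw [norm_mul]
            have h4 := hA3 x hx hxo g (List.mem_toFinset.1 hg)
            have h5 := hD g (hmemf g hg)
            have h6 : ‖sol N Λ v z (bx N x) g‖ ≤ 1 / (n : ℝ) := by
              rw [le_div_iff₀ hnpos, mul_comm]
              exact h4
            gcongr
        _ = (xs.toFinset.card : ℝ) * ((1 / (n : ℝ)) * (2 * D)) := by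
            rw [Finset.sum_const, nsmul_eq_mul]
        _ ≤ n * ((1 / (n : ℝ)) * (2 * D)) := by gcongr
        _ = 2 * D := by field_simp
    have h3 := norm_sub_le (chi N (full Λ xs) v z x y)
      (∑ g ∈ xs.toFinset, sol N Λ v z (bx N x) g * chi N (full Λ xs) v z g y)
    nlinarith

/-- The potential on a good path is small.
Proof by induction on the list.  `v x - Re z = Re pv + Re SE` and `SE N Λ v z x = Qf N (insert x Λ) v z x x`.
If `x` is the last site this is at most `W` (`TF.diag`).  Otherwise, `x'` the next site: `Qf_step`,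
`‖cc (insert x Λ) x x' - 1‖ ≤ W/K + 8 W² θ ≤ 1/4` (`cc_bd`), `|pv x'| ≥ (Kθ)⁻¹`, and `C1` for the tail:
`|SE| ≤ W + 25/16 K θ + 8 W² θ K⁻¹ ≤ W + 2 K θ` (`8 W² θ K⁻¹ ≤ 1/48 ≤ 7/16 K θ`, `1 ≤ W ≤ K θ`).
So `|v x - Re z| ≤ K θ + W + 2 K θ ≤ 4 K θ`. -/
theorem site_small (hN : Steps N) (hz : 0 < z.im) (hds : Dst ds) (hc : Cst K θ W)
    (hKW : W ≤ K * θ) (hq : 1 < q) (lo : (K * θ)⁻¹ ≤ q ^ (-J - 1)) (hi : q ^ (J + 2) ≤ K * θ) :
    ∀ (xs : List V) (Λ : Finset V) (o : V) (τ : List ℤ), IsPath N ds Λ o xs → o ∈ Λ →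
      TF N v z ds W K (full Λ xs) xs → τ.length = xs.length → (∀ j ∈ τ, |j| ≤ J) →
      InW N v z Λ xs (τ.map (winp q)) → ∀ x ∈ xs, |v x - z.re| ≤ 4 * (K * θ) := by
  have hK4 := hc.K1
  have hK0 : 0 < K := by linarith
  have hθ := hc.θ0
  have hW := hc.W1
  intro xs
  induction xs with
  | nil => intro Λ o τ _ _ _ _ _ _ x hx; simp at hx
  | cons x₁ xs ih =>
    intro Λ o τ hp ho hT hl hJ hw x hx
    cases τ with
    | nil => simp at hl
    | cons j τ =>
      have hG := pivGe_of hq lo (x₁ :: xs) Λ (j :: τ) hl hJ hw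
      rw [List.map_cons] at hw
      obtain ⟨h1, h2⟩ := hw
      have hj := hJ j (by simp)
      rcases List.mem_cons.1 hx with rfl | hx
      · -- the first site
        have hre : |(pv N Λ v z x).re| ≤ K * θ := by
          refine h1.2.le.trans (le_trans ?_ hi)
          apply zpow_le_zpow_right₀ hq.le
          have := (abs_le.1 hj).2
          omega
        have hdiag : ‖Qf N (full Λ (x :: xs)) v z x x‖ ≤ W := hT.diag x (by simp)
        have hSE : ‖Qf N (insert x Λ) v z x x‖ ≤ W + 2 * (K * θ) := by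
          cases xs with
          | nil =>
            have h3 : ‖Qf N (insert x Λ) v z x x‖ ≤ W := hdiag
            have : 0 < K * θ := by positivity
            linarith
          | cons x' xs =>
            have hp' := hp.2.2.2.2.2
            have hx' : x' ∉ insert x Λ := hp'.1
            have hC1 := C1 hN hz hds hc xs (insert x' (insert x Λ)) x' hp'.2.2.2.2.2
              (Finset.mem_insert_self _ _) hT.tail.tail hG.2.2
            obtain ⟨-, hco, -⟩ := cc_bd hN hz hds hc (subset_full xs _) hp'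
              (Finset.mem_insert_self _ _) hT.tail hC1
            have h3 := hC1 x (Finset.mem_insert_of_mem (Finset.mem_insert_self _ _)) x
              (Finset.mem_insert_of_mem (Finset.mem_insert_self _ _))
            rw [hp'.2.2.1] at h3
            rw [Qf_step hN hz x x hx']
            have hε : W / K + 8 * W ^ 2 * θ ≤ 1 / 4 := by
              have := hc.h1
              have : 0 < W ^ 2 * θ := by positivity
              linarith
            have hcn : ‖cc N (insert x Λ) v z x x'‖ ≤ 5 / 4 := by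
              calc ‖cc N (insert x Λ) v z x x'‖ = ‖1 + (cc N (insert x Λ) v z x x' - 1)‖ := by
                    congr 1; ring
                _ ≤ ‖(1:ℂ)‖ + ‖cc N (insert x Λ) v z x x' - 1‖ := norm_add_le _ _
                _ ≤ 5 / 4 := by rw [norm_one]; linarith
            have hpv : (K * θ)⁻¹ ≤ ‖pv N (insert x Λ) v z x'‖ := hG.2.1
            have hpv0 : 0 < ‖pv N (insert x Λ) v z x'‖ := lt_of_lt_of_le (by positivity) hpv
            have h4 : ‖cc N (insert x Λ) v z x x' * cc N (insert x Λ) v z x x'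
                / pv N (insert x Λ) v z x'‖ ≤ 25 / 16 * (K * θ) := by
              rw [norm_div, norm_mul, div_le_iff₀ hpv0]
              have e1 : 1 ≤ (K * θ) * ‖pv N (insert x Λ) v z x'‖ := by
                rw [← mul_inv_cancel₀ (by positivity : K * θ ≠ 0)]
                gcongr
              calc ‖cc N (insert x Λ) v z x x'‖ * ‖cc N (insert x Λ) v z x x'‖
                  ≤ (5 / 4) * (5 / 4) := by gcongr
                _ = 25 / 16 * 1 := by norm_num
                _ ≤ 25 / 16 * ((K * θ) * ‖pv N (insert x Λ) v z x'‖) := by gcongr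
                _ = _ := by ring
            have h5 : 8 * W ^ 2 * (K * θ) * K⁻¹ ^ (1 + 1) ≤ 7 / 16 * (K * θ) := by
              have e : 8 * W ^ 2 * (K * θ) * K⁻¹ ^ (1 + 1) = 8 * (W ^ 2 * θ) * K⁻¹ := by
                calc 8 * W ^ 2 * (K * θ) * K⁻¹ ^ (1 + 1)
                    = 8 * (W ^ 2 * θ) * K⁻¹ * (K * K⁻¹) := by ring
                  _ = _ := by rw [mul_inv_cancel₀ hK0.ne', mul_one]
              rw [e]
              have h6 : W ^ 2 * θ ≤ 1 / 96 := by
                have := hc.h1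
                have : 0 < W / K := by positivity
                linarith
              have h7 : K⁻¹ ≤ 1 / 4 := by
                rw [one_div]
                exact inv_anti₀ (by norm_num) hK4
              have h8 : 1 ≤ K * θ := hW.trans hKW
              have h9 : 0 < W ^ 2 * θ := by positivity
              have h10 : 0 < K⁻¹ := by positivity
              calc 8 * (W ^ 2 * θ) * K⁻¹ ≤ 8 * (1 / 96) * (1 / 4) := by gcongr
                _ ≤ 7 / 16 * (K * θ) := by linarith
            have hdiag' : ‖Qf N (full (insert x' (insert x Λ)) xs) v z x x‖ ≤ W := hdiag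
            calc ‖Qf N (insert x' (insert x Λ)) v z x x
                  + cc N (insert x Λ) v z x x' * cc N (insert x Λ) v z x x'
                    / pv N (insert x Λ) v z x'‖
                = ‖Qf N (full (insert x' (insert x Λ)) xs) v z x x
                  + (Qf N (insert x' (insert x Λ)) v z x x
                    - Qf N (full (insert x' (insert x Λ)) xs) v z x x)
                  + cc N (insert x Λ) v z x x' * cc N (insert x Λ) v z x x'
                    / pv N (insert x Λ) v z x'‖ := by congr 1; ring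
              _ ≤ ‖Qf N (full (insert x' (insert x Λ)) xs) v z x x‖
                  + ‖Qf N (insert x' (insert x Λ)) v z x x
                    - Qf N (full (insert x' (insert x Λ)) xs) v z x x‖
                  + ‖cc N (insert x Λ) v z x x' * cc N (insert x Λ) v z x x'
                    / pv N (insert x Λ) v z x'‖ := norm_add₃_le
              _ ≤ W + 2 * (K * θ) := by linarith
        have he : v x - z.re = (pv N Λ v z x).re + (Qf N (insert x Λ) v z x x).re := by
          rw [pv_eq]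
          simp
        rw [he]
        have h6 := abs_add_le (pv N Λ v z x).re (Qf N (insert x Λ) v z x x).re
        have h7 := Complex.abs_re_le_norm (Qf N (insert x Λ) v z x x)
        linarith
      · exact ih (insert x₁ Λ) x₁ τ hp.2.2.2.2.2 (Finset.mem_insert_self _ _) hT.tail
          (by simpa using hl) (fun i hi => hJ i (List.mem_cons_of_mem _ hi)) h2 x hx

end path

/-- monotonicity of the windows -/
theorem inW_mono : ∀ (xs : List V) (Λ : Finset V) (ws ws' : List (Set ℝ)),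
    List.Forall₂ (fun w w' => w ⊆ w') ws ws' → InW N v z Λ xs ws → InW N v z Λ xs ws' := by
  intro xs
  induction xs with
  | nil => intro Λ ws ws' _ _; trivial
  | cons x xs ih =>
    intro Λ ws ws' h hw
    cases h with
    | nil => trivial
    | cons h1 h2 => exact ⟨h1 hw.1, ih (insert x Λ) _ _ h2 hw.2⟩

lemma Det_win_subset {q : ℝ} (hq : 1 < q) (j : ℤ) : win q j ⊆ winp q j := by
  intro t ht
  exact ⟨le_trans (zpow_le_zpow_right₀ hq.le (by omega)) ht.1,
    lt_of_lt_of_le ht.2 (zpow_le_zpow_right₀ hq.le (by omega))⟩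

theorem inW_win_winp {q : ℝ} (hq : 1 < q) (xs : List V) (Λ : Finset V) (τ : List ℤ)
    (h : InW N v z Λ xs (τ.map (win q))) : InW N v z Λ xs (τ.map (winp q)) := by
  refine inW_mono xs Λ _ _ ?_ h
  rw [List.forall₂_map_left_iff, List.forall₂_map_right_iff, List.forall₂_same]
  exact fun j _ => Det_win_subset hq j

end Pool.Agent.H989.SB
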