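import Pool.Agent.H989.SB.En1

/-!
Energy average on the torus, spectral weight at `0` of the energies with more than `θ` of mass in `B`.
-/

set_option linter.unusedSectionVars false
set_option linter.unusedVariables false

open MeasureTheory ProbabilityTheory Finset
open scoped ENNReal

namespace Pool.Agent.H989.SB

section En3gen

variable {V : Type*} [AddCommGroup V] [Fintype V] [DecidableEq V]
variable {N : Finset V} {σ : ℝ} {z : ℂ} {ν : Measure ℝ} {G : ℝ}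

/-- the event that the box carries more than `θ` -/
def en3S (N : Finset V) (σ : ℝ) (z : ℂ) (θ : ℝ) (B : Finset V) : Set (V → ℝ) :=
  {ξ | θ < ∑ x ∈ B, z.im * (z.im * nsq (sol N ∅ (pot σ ξ) z (Pi.single x 1)))}

/-- the event of the rest -/
def en3D (N : Finset V) (σ : ℝ) (z : ℂ) (θ : ℝ) (B : Finset V) : Set (V → ℝ) :=
  {ξ | θ / 2 ≤ z.im * ∑ x ∈ B, en1h N σ z x ξ}

lemma en3_ind_congr {α : Type*} [MeasurableSpace α] {S : Set α} {x y : α} (h : x ∈ S ↔ y ∈ S) : ind S x = ind S y := by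
  by_cases hy : y ∈ S
  · rw [ind_of_mem hy, ind_of_mem (h.2 hy)]
  · rw [ind_of_notMem hy, ind_of_notMem fun hx => hy (h.1 hx)]

lemma en3_meas_S (hN : Steps N) (hz : 0 < z.im) (θ : ℝ) (B : Finset V) :
    MeasurableSet (en3S N σ z θ B) :=
  measurableSet_lt measurable_const
    (Nice.sum B fun x _ => ((nice_nsq hN hz (Pi.single x 1)).const_mul z.im).const_mul z.im).1

lemma en3_nice_sumh (hN : Steps N) (hz : 0 < z.im) (B : Finset V) :
    Nice fun ξ : V → ℝ => z.im * ∑ x ∈ B, en1h N σ z x ξ :=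
  (Nice.sum B fun x _ => en1_nice_h hN hz x).const_mul _

lemma en3_meas_D (hN : Steps N) (hz : 0 < z.im) (θ : ℝ) (B : Finset V) :
    MeasurableSet (en3D N σ z θ B) :=
  measurableSet_le measurable_const (en3_nice_sumh hN hz B).1

/-- `Im G(0,0)` -/
lemma en3_G0 (hN : Steps N) (hz : 0 < z.im) (ξ : V → ℝ) :
    z.im * nsq (sol N ∅ (pot σ ξ) z (Pi.single 0 1)) = ‖en1g N σ z ξ‖ ^ 2 * en1b N σ z ξ := by
  rw [en1_col0 hN hz]
  unfold en1b nsq
  simp only [Pi.smul_apply, smul_eq_mul, norm_mul, mul_pow]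
  rw [← Finset.mul_sum]
  ring

/-- `Im G(x,x)` -/
lemma en3_Gx (hN : Steps N) (hz : 0 < z.im) (ξ : V → ℝ) (x : V) :
    z.im * nsq (sol N ∅ (pot σ ξ) z (Pi.single x 1))
      ≤ en1h N σ z x ξ + ‖en1g N σ z ξ‖ * ‖en1c N σ z ξ x‖ ^ 2 := by
  rw [← nsq_sol_single hN hz, en1_colx hN hz, Complex.add_im, nsq_sol_single hN hz]
  unfold en1h
  have : (en1g N σ z ξ * en1c N σ z ξ x ^ 2).im ≤ ‖en1g N σ z ξ‖ * ‖en1c N σ z ξ x‖ ^ 2 := by
    rw [← norm_pow, ← norm_mul]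
    exact (le_abs_self _).trans (Complex.abs_im_le_norm _)
  linarith

lemma en3_g_le (hN : Steps N) (hz : 0 < z.im) (ξ : V → ℝ) :
    ‖en1g N σ z ξ‖ * en1b N σ z ξ ≤ 1 := by
  have hb := en1_b_pos (σ := σ) hN hz ξ
  have h1 : ‖den σ (z + SE N ∅ (pot σ ξ) z 0) (ξ 0)‖ ≥ en1b N σ z ξ := by
    have h2 := Complex.abs_im_le_norm (den σ (z + SE N ∅ (pot σ ξ) z 0) (ξ 0))
    have h3 : |(den σ (z + SE N ∅ (pot σ ξ) z 0) (ξ 0)).im| = en1b N σ z ξ := by
      have h5 : (den σ (z + SE N ∅ (pot σ ξ) z 0) (ξ 0)).im = - en1b N σ z ξ := by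
        rw [en1_b_eq hN hz]
        simp [den]
      rw [h5, abs_neg, abs_of_pos hb]
    linarith
  rw [en1_g_eq hN hz, norm_inv]
  have h4 : 0 < ‖den σ (z + SE N ∅ (pot σ ξ) z 0) (ξ 0)‖ := lt_of_lt_of_le hb h1
  rw [inv_mul_le_iff₀ h4, mul_one]
  exact h1

lemma en3_incl (hN : Steps N) (hz : 0 < z.im) (θ : ℝ) (B : Finset V) (ξ : V → ℝ)
    (h : ξ ∈ en3S N σ z θ B) : ξ ∈ en1A N σ z (θ / 2) B ∨ ξ ∈ en3D N σ z θ B := by
  by_contra hc
  push Not at hc
  obtain ⟨h1, h2⟩ := hc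
  have h1' : ∑ x ∈ B, ‖en1c N σ z ξ x‖ ^ 2 ≤ θ / 2 * nsq (en1c N σ z ξ) := not_lt.1 h1
  have h2' : z.im * ∑ x ∈ B, en1h N σ z x ξ < θ / 2 := not_le.1 h2
  have h3 : θ < ∑ x ∈ B, z.im * (z.im * nsq (sol N ∅ (pot σ ξ) z (Pi.single x 1))) := h
  have h4 : ∑ x ∈ B, z.im * (z.im * nsq (sol N ∅ (pot σ ξ) z (Pi.single x 1)))
      ≤ z.im * ∑ x ∈ B, en1h N σ z x ξ
        + z.im * (‖en1g N σ z ξ‖ * ∑ x ∈ B, ‖en1c N σ z ξ x‖ ^ 2) := by
    rw [← Finset.mul_sum, ← mul_add, Finset.mul_sum (s := B) (a := ‖en1g N σ z ξ‖),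
      ← Finset.sum_add_distrib]
    exact mul_le_mul_of_nonneg_left (Finset.sum_le_sum fun x _ => en3_Gx hN hz ξ x) hz.le
  have h5 : z.im * (‖en1g N σ z ξ‖ * ∑ x ∈ B, ‖en1c N σ z ξ x‖ ^ 2) ≤ θ / 2 := by
    have e1 := en3_g_le (σ := σ) hN hz ξ
    have e2 : ‖en1g N σ z ξ‖ * ∑ x ∈ B, ‖en1c N σ z ξ x‖ ^ 2
        ≤ ‖en1g N σ z ξ‖ * (θ / 2 * nsq (en1c N σ z ξ)) :=
      mul_le_mul_of_nonneg_left h1' (norm_nonneg _)
    have hθ : 0 ≤ θ / 2 := by
      have e5 := en1_nsq_ge (σ := σ) hN hz ξ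
      have e6 : 0 ≤ ∑ x ∈ B, ‖en1c N σ z ξ x‖ ^ 2 := Finset.sum_nonneg fun x _ => by positivity
      by_contra hneg
      have : θ / 2 * nsq (en1c N σ z ξ) < 0 := mul_neg_of_neg_of_pos (not_le.1 hneg) (by linarith)
      linarith
    calc z.im * (‖en1g N σ z ξ‖ * ∑ x ∈ B, ‖en1c N σ z ξ x‖ ^ 2)
        ≤ z.im * (‖en1g N σ z ξ‖ * (θ / 2 * nsq (en1c N σ z ξ))) :=
          mul_le_mul_of_nonneg_left e2 hz.le
      _ = θ / 2 * (‖en1g N σ z ξ‖ * en1b N σ z ξ) := by unfold en1b; ring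
      _ ≤ θ / 2 * 1 := mul_le_mul_of_nonneg_left e1 hθ
      _ = θ / 2 := mul_one _
  linarith

/-- The average for a fixed energy.
Proof. `Im G(0,0) = |g|² β`, the two events of `en3_incl` do not depend on `ξ 0`. -/
lemma en3_fixed (hN : Steps N) (hz : 0 < z.im) (hν : Law ν G) (hσ : 0 < σ) {θ p : ℝ}
    (hθ : 0 < θ) (B : Finset V) (hB : (PV ν V).real (en1A N σ z (θ / 2) B) ≤ p) :
    ∫ ξ, (z.im * nsq (sol N ∅ (pot σ ξ) z (Pi.single 0 1))) * ind (en3S N σ z θ B) ξ ∂(PV ν V)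
      ≤ Real.pi * G / σ * (p + 2 * B.card * z.im * (Real.pi * G / σ) / θ) := by
  have := hν.prob
  have hG := en1_G_nonneg hν
  have hpi := Real.pi_pos
  have mA := en1_meas_A (σ := σ) hN hz (θ / 2) B
  have mD := en3_meas_D (σ := σ) hN hz θ B
  have mS := en3_meas_S (σ := σ) hN hz θ B
  have nΦ : Nice fun ξ => ind (en1A N σ z (θ / 2) B) ξ + ind (en3D N σ z θ B) ξ :=
    (nice_ind1 mA).add (nice_ind1 mD)
  have hΦ0 : ∀ ξ, 0 ≤ ind (en1A N σ z (θ / 2) B) ξ + ind (en3D N σ z θ B) ξ := fun ξ =>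
    add_nonneg (ind_nonneg _ _) (ind_nonneg _ _)
  have nF : Nice fun ξ => ‖en1g N σ z ξ‖ ^ 2 * en1b N σ z ξ
      * (ind (en1A N σ z (θ / 2) B) ξ + ind (en3D N σ z θ B) ξ) :=
    (((en1_nice_g hN hz).norm.pow 2).mul (en1_nice_b hN hz)).mul nΦ
  have nL : Nice fun ξ => (z.im * nsq (sol N ∅ (pot σ ξ) z (Pi.single 0 1)))
      * ind (en3S N σ z θ B) ξ := ((nice_nsq hN hz _).const_mul _).mul (nice_ind1 mS)
  have h1 : ∫ ξ, (z.im * nsq (sol N ∅ (pot σ ξ) z (Pi.single 0 1)))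
        * ind (en3S N σ z θ B) ξ ∂(PV ν V)
      ≤ ∫ ξ, ‖en1g N σ z ξ‖ ^ 2 * en1b N σ z ξ
        * (ind (en1A N σ z (θ / 2) B) ξ + ind (en3D N σ z θ B) ξ) ∂(PV ν V) := by
    refine integral_mono nL.integrable nF.integrable fun ξ => ?_
    show (z.im * nsq (sol N ∅ (pot σ ξ) z (Pi.single 0 1))) * ind (en3S N σ z θ B) ξ
      ≤ ‖en1g N σ z ξ‖ ^ 2 * en1b N σ z ξ
        * (ind (en1A N σ z (θ / 2) B) ξ + ind (en3D N σ z θ B) ξ)
    rw [en3_G0 hN hz]
    refine mul_le_mul_of_nonneg_left ?_ (mul_nonneg (sq_nonneg _) (en1_b_pos hN hz ξ).le)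
    by_cases hS : ξ ∈ en3S N σ z θ B
    · rw [ind_of_mem hS]
      rcases en3_incl hN hz θ B ξ hS with h | h
      · rw [ind_of_mem h]; linarith [ind_nonneg (en3D N σ z θ B) ξ]
      · rw [ind_of_mem h]; linarith [ind_nonneg (en1A N σ z (θ / 2) B) ξ]
    · rw [ind_of_notMem hS]
      exact hΦ0 ξ
  have h2 : ∫ ξ, ‖en1g N σ z ξ‖ ^ 2 * en1b N σ z ξ
        * (ind (en1A N σ z (θ / 2) B) ξ + ind (en3D N σ z θ B) ξ) ∂(PV ν V)
      ≤ Real.pi * G / σ
        * ∫ ξ, (ind (en1A N σ z (θ / 2) B) ξ + ind (en3D N σ z θ B) ξ) ∂(PV ν V) := by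
    refine E_le_of_resample ν 0
      (k := fun ξ t => en1b N σ z ξ * (‖den σ (z + SE N ∅ (pot σ ξ) z 0) t‖ ^ 2)⁻¹)
      nF nΦ hΦ0 (fun ξ t => ?_) (fun ξ => ?_)
    · have e1 : Function.update ξ 0 t ∈ en1A N σ z (θ / 2) B ↔ ξ ∈ en1A N σ z (θ / 2) B := by
        unfold en1A
        simp only [Set.mem_ofPred_eq, en1_c_update hN hz]
      have e2 : Function.update ξ 0 t ∈ en3D N σ z θ B ↔ ξ ∈ en3D N σ z θ B := by
        unfold en3D
        simp only [Set.mem_ofPred_eq, en1_h_update hN hz]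
      have e3 : ind (en1A N σ z (θ / 2) B) (Function.update ξ 0 t)
          = ind (en1A N σ z (θ / 2) B) ξ :=
        en3_ind_congr e1
      have e4 : ind (en3D N σ z θ B) (Function.update ξ 0 t) = ind (en3D N σ z θ B) ξ :=
        en3_ind_congr e2
      rw [e3, e4, en1_g_update hN hz, en1_b_update hN hz, norm_inv, inv_pow]
      ring
    · have him : 0 < (z + SE N ∅ (pot σ ξ) z 0).im := by
        rw [← en1_b_eq hN hz]; exact en1_b_pos hN hz ξ
      rw [integral_const_mul]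
      calc en1b N σ z ξ * ∫ t, (‖den σ (z + SE N ∅ (pot σ ξ) z 0) t‖ ^ 2)⁻¹ ∂ν
          ≤ en1b N σ z ξ * (Real.pi * G / (σ * (z + SE N ∅ (pot σ ξ) z 0).im)) :=
            mul_le_mul_of_nonneg_left (hν.int_inv_sq hσ him).2 (en1_b_pos hN hz ξ).le
        _ = _ := by rw [en1_b_eq hN hz]; field_simp
  have h3 : (PV ν V).real (en3D N σ z θ B) ≤ 2 * B.card * z.im * (Real.pi * G / σ) / θ := by
    have e1 : θ / 2 * (PV ν V).real (en3D N σ z θ B)
        ≤ ∫ ξ, z.im * ∑ x ∈ B, en1h N σ z x ξ ∂(PV ν V) := by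
      rw [← integral_ind _ mD, ← integral_const_mul]
      refine integral_mono ((nice_ind1 mD).const_mul _).integrable
        (en3_nice_sumh hN hz B).integrable fun ξ => ?_
      show θ / 2 * ind (en3D N σ z θ B) ξ ≤ z.im * ∑ x ∈ B, en1h N σ z x ξ
      by_cases h : ξ ∈ en3D N σ z θ B
      · rw [ind_of_mem h, mul_one]; exact h
      · rw [ind_of_notMem h, mul_zero]
        exact mul_nonneg hz.le (Finset.sum_nonneg fun x _ => en1_h_nonneg hz x ξ)
    have e2 : ∫ ξ, z.im * ∑ x ∈ B, en1h N σ z x ξ ∂(PV ν V)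
        ≤ z.im * (B.card * (Real.pi * G / σ)) := by
      rw [integral_const_mul, integral_finsetSum _ fun x _ => (en1_nice_h hN hz x).integrable]
      refine mul_le_mul_of_nonneg_left ?_ hz.le
      refine (Finset.sum_le_sum fun x _ => en1_int_h hN hz hν hσ x).trans (le_of_eq ?_)
      rw [Finset.sum_const, nsmul_eq_mul]
    rw [le_div_iff₀ hθ]
    have := e1.trans e2
    nlinarith
  have h4 : ∫ ξ, (ind (en1A N σ z (θ / 2) B) ξ + ind (en3D N σ z θ B) ξ) ∂(PV ν V)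
      ≤ p + 2 * B.card * z.im * (Real.pi * G / σ) / θ := by
    rw [integral_add (nice_ind1 mA).integrable (nice_ind1 mD).integrable,
      integral_ind _ mA, integral_ind _ mD]
    linarith
  exact h1.trans (h2.trans (mul_le_mul_of_nonneg_left h4 (by positivity)))

end En3gen

variable {d L : ℕ} [NeZero L]

/-- the spectral weight at `0` of the energies with more than `θ` in `B` -/
noncomputable def fE (σ η θ : ℝ) (B : Finset (Tor d L)) (ξ : Tor d L → ℝ) (E : ℝ) : ℝ≥0∞ :=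
  ENNReal.ofReal ((η * nsq (sol (ND L (univ : Finset (Fin d))) ∅ (pot σ ξ) (en η E) (Pi.single 0 1)))
    * ind {p : (Tor d L → ℝ) × ℝ | θ < ∑ x ∈ B, η * (η * nsq (sol (ND L (univ : Finset (Fin d))) ∅
        (pot σ p.1) (en η p.2) (Pi.single x 1)))} (ξ, E))

lemma measurable_fE (hL : 3 ≤ L) {σ η : ℝ} (hη : 0 < η) (θ : ℝ) (B : Finset (Tor d L)) :
    Measurable fun p : (Tor d L → ℝ) × ℝ => fE σ η θ B p.1 p.2 := by
  have h1 : ∀ x : Tor d L, Measurable fun p : (Tor d L → ℝ) × ℝ =>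
      nsq (sol (ND L (univ : Finset (Fin d))) ∅ (pot σ p.1) (en η p.2) (Pi.single x 1)) := by
    intro x
    exact ((continuous_joint_nsq (Λ := ∅) (σ := σ)
      (steps_ND hL (univ : Finset (Fin d))) hη (Pi.single x 1)).comp continuous_swap).measurable
  unfold fE
  refine Measurable.ennreal_ofReal (((h1 0).const_mul _).mul ?_)
  refine measurable_const.indicator ?_
  exact measurableSet_lt measurable_const (Finset.measurable_sum B fun x _ =>
    ((h1 x).const_mul _).const_mul _)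

/-- Energy average. -/
theorem torus_energy3 (hL : 5 ≤ L) {ν : Measure ℝ} {G : ℝ} (hν : Law ν G) {σ η E₁ E₂ θ p : ℝ}
    (hσ : 0 < σ) (hη : 0 < η) (hE : E₁ ≤ E₂) (hθ : 0 < θ) (hp : 0 ≤ p) (B : Finset (Tor d L))
    (hB : ∀ E ∈ Set.Icc E₁ E₂, (PV ν (Tor d L)).real
      {ξ | θ / 2 * nsq (ch σ η E ξ) < ∑ x ∈ B, ‖ch σ η E ξ x‖ ^ 2} ≤ p) :
    ∫⁻ ξ, (∫⁻ E in Set.Icc E₁ E₂, fE σ η θ B ξ E) ∂(PV ν (Tor d L))
      ≤ ENNReal.ofReal ((E₂ - E₁) * (Real.pi * G / σ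
        * (p + 2 * B.card * η * (Real.pi * G / σ) / θ))) := by
  have := hν.prob
  have hG := en1_G_nonneg hν
  have hpi := Real.pi_pos
  have hN : Steps (ND L (univ : Finset (Fin d))) := steps_ND (by omega) _
  rw [← lintegral_lintegral_swap]
  · have b1 : ∀ E ∈ Set.Icc E₁ E₂,
        ∫⁻ ξ, fE σ η θ B ξ E ∂(PV ν (Tor d L))
        ≤ ENNReal.ofReal (Real.pi * G / σ
        * (p + 2 * B.card * η * (Real.pi * G / σ) / θ)) := by
      intro E hE'
      have hz : 0 < (en η E).im := hη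
      have nn : Nice fun ξ : Tor d L → ℝ => ((en η E).im
          * nsq (sol (ND L (univ : Finset (Fin d))) ∅ (pot σ ξ) (en η E) (Pi.single 0 1)))
          * ind (en3S (ND L (univ : Finset (Fin d))) σ (en η E) θ B) ξ :=
        ((nice_nsq hN hz _).const_mul _).mul (nice_ind1 (en3_meas_S hN hz θ B))
      have e1 : ∀ ξ : Tor d L → ℝ, fE σ η θ B ξ E = ENNReal.ofReal (((en η E).im
          * nsq (sol (ND L (univ : Finset (Fin d))) ∅ (pot σ ξ) (en η E) (Pi.single 0 1)))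
          * ind (en3S (ND L (univ : Finset (Fin d))) σ (en η E) θ B) ξ) := fun ξ => rfl
      simp_rw [e1]
      rw [← ofReal_integral_eq_lintegral_ofReal nn.integrable
        (Filter.Eventually.of_forall fun ξ => mul_nonneg (mul_nonneg hη.le (nsq_nonneg _))
          (ind_nonneg _ _))]
      exact ENNReal.ofReal_le_ofReal (en3_fixed hN hz hν hσ hθ B (hB E hE'))
    refine (setLIntegral_mono' measurableSet_Icc b1).trans (le_of_eq ?_)
    rw [setLIntegral_const, Real.volume_Icc, mul_comm, ← ENNReal.ofReal_mul (by linarith)]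
  · exact ((measurable_fE (σ := σ) (by omega) hη θ B).comp measurable_swap).aemeasurable

end Pool.Agent.H989.SB
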