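import Pool.Agent.H989.SB.ParB1

/-!
The conditions for the windows.
-/

set_option linter.unusedSectionVars false
set_option linter.unusedVariables false

open Filter

namespace Pool.Agent.H989.SB

variable {ε : ℝ} {Rb : ℕ}

theorem ParB_exp_ge_lin (A B : ℝ) {c : ℝ} (hc : 0 < c) :
    ∀ᶠ x : ℝ in atTop, A * x + B < Real.exp (c * x) := by
  have h1 : Tendsto (fun x : ℝ => c * x) atTop atTop := tendsto_id.const_mul_atTop hc
  have h2 : ∀ᶠ y : ℝ in atTop, (A / c) * y + B < Real.exp y := by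
    have h3 : Tendsto (fun y : ℝ => Real.exp y / y ^ 1) atTop atTop :=
      Real.tendsto_exp_div_pow_atTop 1
    filter_upwards [h3.eventually_gt_atTop (|A / c| + |B|), eventually_ge_atTop 1] with y hy hy1
    have hy0 : 0 < y := by linarith
    rw [pow_one, lt_div_iff₀ hy0] at hy
    have h4 : A / c * y ≤ |A / c| * y := mul_le_mul_of_nonneg_right (le_abs_self _) hy0.le
    have h5 : B ≤ |B| * y := by
      have h6 := le_abs_self B
      have h7 := abs_nonneg B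
      nlinarith
    nlinarith
  filter_upwards [h1.eventually h2] with x hx
  have h4 : A / c * (c * x) = A * x := by
    field_simp
  rwa [h4] at hx

theorem ParB_exp_small {c δ : ℝ} (hc : 0 < c) (hδ : 0 < δ) :
    ∀ᶠ x : ℝ in atTop, Real.exp (-(c * x)) ≤ δ := by
  filter_upwards [ParB_exp_ge_lin 0 δ⁻¹ hc] with x hx
  rw [Real.exp_neg, inv_le_comm₀ (Real.exp_pos _) hδ]
  linarith

theorem ParB_log_q (hε : 0 < ε) (hε1 : ε < 1) :
    0 < Real.log (pq ε) ∧ Real.log (pq ε) ≤ 1 := by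
  have h1 : 1 < pq ε := by unfold pq; linarith
  refine ⟨Real.log_pos h1, ?_⟩
  have h2 := Real.log_le_sub_one_of_pos (show 0 < pq ε by linarith)
  unfold pq at h2 ⊢
  linarith

theorem ParB_log_mu (hε : 0 < ε) (hε1 : ε < 1) :
    0 < Real.log (pmu ε) ∧ Real.log (pmu ε) ≤ 1 := by
  have h1 : 1 < pmu ε := by unfold pmu; linarith
  refine ⟨Real.log_pos h1, ?_⟩
  have h2 := Real.log_le_sub_one_of_pos (show 0 < pmu ε by linarith)
  unfold pmu at h2 ⊢
  linarith

/-- lower bound of the factor of the norms -/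
theorem ParB_Fn {x : ℝ} (hx : 0 ≤ x) (n : ℕ) :
    Real.exp (-(2 * (n * (5 / 2 * x + 2) + x))) ≤ Fn (Real.exp x) (pρ x) (pbm x) n := by
  have h1 : Real.exp (-(5 / 2 * x + 1)) ≤ pρ x / (2 * pbm x) := by
    unfold pρ pbm
    rw [le_div_iff₀ (by positivity)]
    have h2 : Real.exp (-(5 / 2 * x + 1)) * (2 * Real.exp (3 / 2 * x)) =
        Real.exp (-x) * (2 * Real.exp (-1)) := by
      have h3 : Real.exp (-(5 / 2 * x + 1)) * Real.exp (3 / 2 * x) =
          Real.exp (-x) * Real.exp (-1) := by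
        rw [← Real.exp_add, ← Real.exp_add]
        congr 1
        ring
      linear_combination 2 * h3
    rw [h2]
    have h4 : 2 * Real.exp (-1) ≤ 1 := by
      rw [Real.exp_neg]
      have h5 : (2 : ℝ) ≤ Real.exp 1 := by
        have := Real.add_one_le_exp (1 : ℝ)
        linarith
      have h6 : 0 < Real.exp 1 := Real.exp_pos 1
      rw [← div_eq_mul_inv, div_le_one h6]
      exact h5
    have h7 := Real.exp_pos (-x)
    nlinarith
  have h2 : 1 + n * Real.exp x ≤ Real.exp (n + x) := by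
    rw [Real.exp_add]
    have h3 : (n : ℝ) + 1 ≤ Real.exp n := Real.add_one_le_exp _
    have h4 : 1 ≤ Real.exp x := Real.one_le_exp hx
    have h5 : (0 : ℝ) ≤ n := Nat.cast_nonneg n
    nlinarith
  have h3 : Real.exp (-(n * (5 / 2 * x + 2) + x)) ≤
      (pρ x / (2 * pbm x)) ^ n / (1 + n * Real.exp x) := by
    have h4 : 0 < 1 + n * Real.exp x := by positivity
    rw [le_div_iff₀ h4]
    calc Real.exp (-(n * (5 / 2 * x + 2) + x)) * (1 + n * Real.exp x)
        ≤ Real.exp (-(n * (5 / 2 * x + 2) + x)) * Real.exp (n + x) :=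
          mul_le_mul_of_nonneg_left h2 (Real.exp_pos _).le
      _ = Real.exp (-(5 / 2 * x + 1)) ^ n := by
          rw [← Real.exp_add, ← Real.exp_nat_mul]
          congr 1
          ring
      _ ≤ (pρ x / (2 * pbm x)) ^ n := by
          exact pow_le_pow_left₀ (Real.exp_pos _).le h1 n
  have h5 : Real.exp (-(2 * (n * (5 / 2 * x + 2) + x))) =
      Real.exp (-(n * (5 / 2 * x + 2) + x)) ^ 2 := by
    rw [← Real.exp_nat_mul]
    congr 1
    push_cast
    ring
  rw [h5]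
  unfold Fn
  exact pow_le_pow_left₀ (Real.exp_pos _).le h3 2

/-- Proof. `parB1`; the other conditions are asymptotics of the same kind: `bm = exp (3x/2)`,
`σ ≤ Cs exp x * x`; `|s - h₀| ≤ J`: `h₀ = ⌊J/2⌋`, `-s = O(n)`, `J ≥ c x`; `(J₁+2) n ≤ pC2 x + 3 n`
(`pJ1_bd`); `X1`: `pJ1_bd`; `X2`: `-log Fn ≤ 2 (n (5x/2 + 1) + x + n)`, times `J₁`, is `O(x²)`. -/
theorem parB (hε : 0 < ε) (hε1 : ε < 1) {e δ ρ₀ Cs : ℝ} (hδ : 0 < δ) (hρ₀ : 0 < ρ₀) (hCs : 0 < Cs) :
    ∀ᶠ x : ℝ in atTop, ∀ d : ℕ, 2 * (d : ℝ) = Real.exp x → ∀ σ : ℝ, 2 * (d : ℝ) ≤ σ →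
      σ ≤ Cs * (2 * d) * x →
      ParW e δ ρ₀ d σ (pη x) (pθ ε x) (pW ε x) (pq ε) (pM ε Rb x) (pY x) (pρ x) (pbm x) (pX Rb x)
        (pn ε Rb x) (pN ε Rb x) (pa ε Rb x) (pa ε Rb x) (pJ ε x) (pJ1 ε Rb x) Rb (ph ε x)
        (ps ε Rb x) := by
  obtain ⟨hq0, hq1⟩ := ParB_log_q hε hε1
  obtain ⟨hm0, hm1⟩ := ParB_log_mu hε hε1
  have hC2 : 0 ≤ pC2 ε Rb := by unfold pC2; positivity
  filter_upwards [parB1 (ε := ε) (Rb := Rb) hε hε1,
    ParB_exp_small (c := 3 * ε / 32) (δ := δ / 20) (by positivity) (by positivity),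
    ParB_exp_small (c := 1) (δ := 1 / 4) one_pos (by norm_num),
    ParB_exp_ge_lin (2 * ((|e| + δ) * Cs)) 20 (c := 1 / 2) (by norm_num),
    ParB_exp_ge_lin (2 * (pC2 ε Rb + 1)) 2 (c := 1) one_pos,
    pn_small (ε := ε) (Rb := Rb) hε (c := 1 / 16) (by norm_num),
    pJ_bd hε hε1, eventually_ge_atTop (100 : ℝ), eventually_ge_atTop (Rb : ℝ),
    eventually_ge_atTop (2 * (2 * Rb + 1 + 11 * (pC2 ε Rb + 1)))] with
    x hB1 hs1 hs2 hs3 hs4 hn hJ hx100 hxR hxC
  intro d hd σ hσ1 hσ2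
  have hx0 : 0 < x := by linarith
  obtain ⟨hJ1, hJ2⟩ := hJ
  obtain ⟨hP1, hP2⟩ := pJ1_bd (Rb := Rb) hε x hx0
  have hn1 : (1 : ℝ) ≤ pn ε Rb x := by
    have h : 1 ≤ pn ε Rb x := by unfold pn; omega
    exact_mod_cast h
  have hd0 : 0 < Real.exp x := Real.exp_pos x
  have hcast : (2 * (d : ℝ)) = Real.exp x := hd
  have hσe : Real.exp x ≤ σ := by rw [← hd]; exact hσ1
  have hσ2' : σ ≤ Cs * Real.exp x * x := by rw [← hd]; exact hσ2
  have hKθ : Real.exp x * pθ ε x = Real.exp ((1 - ε / 8) * x) := by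
    unfold pθ
    rw [← Real.exp_add]
    congr 1
    ring
  have hW2 : pW ε x ^ 2 * (Real.exp x * pθ ε x) = Real.exp ((1 - 3 * ε / 32) * x) := by
    rw [hKθ]
    unfold pW
    rw [← Real.exp_nat_mul, ← Real.exp_add]
    congr 1
    push_cast
    ring
  have hqJ : pq ε ^ (pJ ε x + 1) ≤ Real.exp ((1 - 3 * ε / 32) * x) := by
    have h1 : (0 : ℝ) < pq ε := by unfold pq; positivity
    rw [← Real.exp_log h1, ← Real.exp_nat_mul]
    apply Real.exp_le_exp.2
    push_cast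
    have h2 : ((pJ ε x : ℝ) + 1) * Real.log (pq ε) ≤ ((pJ ε x : ℝ) + 3) * Real.log (pq ε) :=
      mul_le_mul_of_nonneg_right (by linarith) hq0.le
    nlinarith
  have hWle : pW ε x ≤ Real.exp ((1 - 3 * ε / 32) * x) := by
    unfold pW
    apply Real.exp_le_exp.2
    nlinarith
  have hs1' : Real.exp ((1 - 3 * ε / 32) * x) ≤ Real.exp x * (δ / 20) := by
    have h1 : Real.exp ((1 - 3 * ε / 32) * x) = Real.exp x * Real.exp (-(3 * ε / 32 * x)) := by
      rw [← Real.exp_add]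
      congr 1
      ring
    rw [h1]
    exact mul_le_mul_of_nonneg_left hs1 hd0.le
  have hle : Real.exp ((1 - 3 * ε / 32) * x) ≤ Real.exp x := by
    apply Real.exp_le_exp.2
    nlinarith
  have ha1 : (pC2 ε Rb + 1) * x ≤ (pa ε Rb x : ℝ) := Nat.le_ceil _
  have ha2 : (pa ε Rb x : ℝ) < (pC2 ε Rb + 1) * x + 1 :=
    Nat.ceil_lt_add_one (by positivity)
  have hJ1n : ((pJ1 ε Rb x : ℝ) + 2) * pn ε Rb x ≤ pC2 ε Rb * x + 3 * pn ε Rb x := by
    nlinarith
  have hJ1n' : (pn ε Rb x : ℝ) * pJ1 ε Rb x ≤ (pC2 ε Rb + 1) * x := by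
    linarith
  have hs_eq : ((-ps ε Rb x : ℤ) : ℝ) ≤ (pJ ε x : ℝ) / 2 ∧ ps ε Rb x ≤ 0 := by
    have hM1 : 1 ≤ pM ε Rb x := by
      unfold pM
      exact one_le_pow₀ (by unfold pmu; linarith)
    have hlM : Real.log (8 * pM ε Rb x) = Real.log 8 + pn ε Rb x * Real.log (pmu ε) := by
      rw [Real.log_mul (by norm_num) (by linarith)]
      unfold pM
      rw [Real.log_pow]
    have hl8 : Real.log 8 ≤ 7 := by
      have := Real.log_le_sub_one_of_pos (show (0 : ℝ) < 8 by norm_num)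
      linarith
    have hl80 : 0 ≤ Real.log 8 := Real.log_nonneg (by norm_num)
    have hy0 : 0 ≤ 3 * (pn ε Rb x : ℝ) + Real.log (8 * pM ε Rb x) / Real.log (pq ε) := by
      rw [hlM]
      have h1 : 0 ≤ (pn ε Rb x : ℝ) * Real.log (pmu ε) := by positivity
      positivity
    constructor
    · have h1 : ((-ps ε Rb x : ℤ) : ℝ) =
          (⌈3 * (pn ε Rb x : ℝ) + Real.log (8 * pM ε Rb x) / Real.log (pq ε)⌉ : ℤ) := by
        unfold ps
        rw [neg_neg]
      rw [h1]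
      have h2 := Int.ceil_lt_add_one (3 * (pn ε Rb x : ℝ) + Real.log (8 * pM ε Rb x) / Real.log (pq ε))
      refine h2.le.trans ?_
      rw [hlM]
      have h3 : (Real.log 8 + pn ε Rb x * Real.log (pmu ε)) / Real.log (pq ε) ≤
          (pJ ε x : ℝ) / 2 - 1 - 3 * (pn ε Rb x : ℝ) := by
        rw [div_le_iff₀ hq0]
        have h4 : (pn ε Rb x : ℝ) * Real.log (pmu ε) ≤ pn ε Rb x := by
          nlinarith
        have h5 : (pn ε Rb x : ℝ) * Real.log (pq ε) ≤ pn ε Rb x := by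
          nlinarith
        nlinarith
      linarith
    · unfold ps
      rw [neg_nonpos]
      exact Int.ceil_nonneg hy0
  refine
    { HW := ?_, ρ₀0 := hρ₀, hwin := ?_, ρb0 := ?_, ρb1 := ?_, bm1 := ?_, bm2 := ?_, bm3 := ?_,
      Y₀0 := ?_, hn := ?_, hN := ?_, h1 := ?_, h2 := ?_, h3 := ?_, hKa := ?_, ha := ?_, hρ := ?_,
      hRb := ?_, X0 := ?_, X1 := ?_, X2 := ?_ }
  · intro z hz
    rw [hd]
    exact hB1 z hz
  · rw [hd, mul_assoc 8, hW2]
    nlinarith
  · unfold pρ; positivity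
  · unfold pρ
    rw [one_mul] at hs2
    exact hs2
  · unfold pbm
    exact Real.one_le_exp (by positivity)
  · rw [hd, hKθ]
    unfold pbm
    apply Real.exp_le_exp.2
    nlinarith
  · rw [hd, mul_assoc 8, hW2]
    have h1 : pη x ≤ Real.exp x := by
      unfold pη
      apply Real.exp_le_exp.2
      have : 0 < x ^ 3 := by positivity
      linarith
    have h2 : (|e| + δ) * σ ≤ (|e| + δ) * (Cs * Real.exp x * x) :=
      mul_le_mul_of_nonneg_left hσ2' (by positivity)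
    have h3 : pbm x = Real.exp x * Real.exp (1 / 2 * x) := by
      unfold pbm
      rw [← Real.exp_add]
      congr 1
      ring
    rw [h3]
    have h4 : Real.exp x * (2 * ((|e| + δ) * Cs) * x + 20) ≤
        Real.exp x * Real.exp (1 / 2 * x) :=
      mul_le_mul_of_nonneg_left hs3.le hd0.le
    nlinarith
  · unfold pY; positivity
  · rfl
  · unfold pN; omega
  · unfold ph; positivity
  · unfold ph
    exact_mod_cast Nat.div_le_self _ _
  · have h1 : (0 : ℤ) ≤ ph ε x := by unfold ph; positivity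
    have h2 : ((ph ε x : ℤ) : ℝ) ≤ (pJ ε x : ℝ) / 2 := by
      unfold ph
      have h3 : ((pJ ε x / 2 : ℕ) : ℝ) ≤ (pJ ε x : ℝ) / (2 : ℕ) := Nat.cast_div_le
      push_cast at h3 ⊢
      exact h3
    have h3 : |ps ε Rb x - ph ε x| = -ps ε Rb x + ph ε x := by
      rw [abs_of_nonpos (by linarith [hs_eq.2])]
      ring
    rw [h3]
    have h4 : ((-ps ε Rb x + ph ε x : ℤ) : ℝ) ≤ ((pJ ε x : ℤ) : ℝ) := by
      have h5 := hs_eq.1
      rw [Int.cast_add]
      rw [Int.cast_natCast]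
      linarith
    exact_mod_cast h4
  · rw [hd]
    rw [one_mul] at hs4
    linarith
  · have h1 : ((1 + (pJ1 ε Rb x + 2) * pn ε Rb x : ℕ) : ℝ) ≤ (pa ε Rb x : ℝ) := by
      push_cast
      linarith
    exact_mod_cast h1
  · have h1 : (((pJ1 ε Rb x + 2) * pn ε Rb x + 2 : ℕ) : ℝ) ≤ (pa ε Rb x : ℝ) := by
      push_cast
      linarith
    exact_mod_cast h1
  · have h1 : (Rb : ℝ) ≤ (pa ε Rb x : ℝ) := by
      have h2 : 0 ≤ pC2 ε Rb * x := by positivity
      linarith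
    exact_mod_cast h1
  · unfold pX; positivity
  · have hmu : (0 : ℝ) < pmu ε := by unfold pmu; positivity
    have h1 : (pM ε Rb x ^ pJ1 ε Rb x) ^ 2 =
        Real.exp (2 * (pn ε Rb x * pJ1 ε Rb x) * Real.log (pmu ε)) := by
      unfold pM
      rw [← pow_mul, ← pow_mul]
      have h2 : pmu ε = Real.exp (Real.log (pmu ε)) := (Real.exp_log hmu).symm
      rw [h2, ← Real.exp_nat_mul, Real.log_exp]
      congr 1
      push_cast
      ring
    rw [h1]
    unfold pX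
    exact Real.exp_le_exp.2 hP1
  · rw [hd]
    have h1 := ParB_Fn hx0.le (pn ε Rb x)
    have h2 : Real.exp (-(2 * (pn ε Rb x * (5 / 2 * x + 2) + x))) ^ pJ1 ε Rb x ≤
        Fn (Real.exp x) (pρ x) (pbm x) (pn ε Rb x) ^ pJ1 ε Rb x :=
      pow_le_pow_left₀ (Real.exp_pos _).le h1 _
    rw [← Real.exp_nat_mul] at h2
    have h3 : pX Rb x ≤ pY x * Real.exp ((pJ1 ε Rb x : ℝ) *
        (-(2 * (pn ε Rb x * (5 / 2 * x + 2) + x)))) := by
      unfold pX pY
      rw [← Real.exp_add]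
      apply Real.exp_le_exp.2
      have hJ0 : (0 : ℝ) ≤ pJ1 ε Rb x := Nat.cast_nonneg _
      have h4 : (pJ1 ε Rb x : ℝ) ≤ (pC2 ε Rb + 1) * x := by
        refine le_trans ?_ hJ1n'
        nlinarith
      have h5 : (pJ1 ε Rb x : ℝ) * (2 * (pn ε Rb x * (5 / 2 * x + 2) + x)) ≤
          11 * (pC2 ε Rb + 1) * x ^ 2 := by
        have h6 : (pJ1 ε Rb x : ℝ) * (2 * (pn ε Rb x * (5 / 2 * x + 2) + x)) =
            2 * (5 / 2 * x + 2) * (pn ε Rb x * pJ1 ε Rb x) + 2 * x * pJ1 ε Rb x := by ring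
        rw [h6]
        have h7 : 2 * (5 / 2 * x + 2) * ((pn ε Rb x : ℝ) * pJ1 ε Rb x) ≤
            2 * (5 / 2 * x + 2) * ((pC2 ε Rb + 1) * x) :=
          mul_le_mul_of_nonneg_left hJ1n' (by positivity)
        have h8 : 2 * x * (pJ1 ε Rb x : ℝ) ≤ 2 * x * ((pC2 ε Rb + 1) * x) :=
          mul_le_mul_of_nonneg_left h4 (by positivity)
        have h9 : 0 ≤ (pC2 ε Rb + 1) * x := by positivity
        nlinarith
      have h6 : (2 * (Rb : ℝ) + 1) * x ≤ (2 * (Rb : ℝ) + 1) * x ^ 2 := by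
        apply mul_le_mul_of_nonneg_left _ (by positivity)
        nlinarith
      have h7 : (2 * (Rb : ℝ) + 1 + 11 * (pC2 ε Rb + 1)) * x ^ 2 ≤ x / 2 * x ^ 2 :=
        mul_le_mul_of_nonneg_right (by linarith) (by positivity)
      nlinarith
    refine h3.trans (mul_le_mul_of_nonneg_left h2 ?_)
    unfold pY
    positivity

end Pool.Agent.H989.SB
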