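import Pool.Agent.H989.SB.Par

/-!
The expected number of good paths.
-/

set_option linter.unusedSectionVars false
set_option linter.unusedVariables false

open Filter

namespace Pool.Agent.H989.SB

variable {ε : ℝ} {Rb : ℕ}

theorem ParC2_qcube (hε : 0 < ε) (hε1 : ε < 1) : pq ε ^ 3 ≤ pmu ε := by
  unfold pq pmu
  have h2 : ε ^ 2 ≤ ε := by nlinarith
  have h3 : ε ^ 3 ≤ ε := by nlinarith [mul_pos hε hε, mul_nonneg hε.le (mul_pos hε hε).le]
  nlinarith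

theorem ParC2_growth (hε : 0 < ε) (hε1 : ε < 1) :
    (1 + ε / 8) * pmu ε ^ 2 ≤ 1 + ε / 2 := by
  unfold pmu
  have h2 : ε ^ 2 ≤ ε := by nlinarith
  have h3 : ε ^ 3 ≤ ε := by nlinarith [mul_pos hε hε, mul_nonneg hε.le (mul_pos hε hε).le]
  nlinarith

theorem ParC2_pow (hε : 0 < ε) (hε1 : ε < 1) {x : ℝ} (hx : 0 < x) :
    1 / (8 * pq ε * (pmu ε ^ pn ε Rb x) ^ 2) ≤ pq ε ^ (ps ε Rb x) := by
  have hq0 : 0 < pq ε := by unfold pq; linarith
  have hmu0 : 0 < pmu ε := by unfold pmu; linarith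
  have h := (ps_bd (ε := ε) (Rb := Rb) hε x hx).2
  have h1 : pq ε ^ (3 * (pn ε Rb x : ℤ)) ≤ pmu ε ^ pn ε Rb x := by
    have e : pq ε ^ (3 * (pn ε Rb x : ℤ)) = (pq ε ^ 3) ^ pn ε Rb x := by
      rw [zpow_mul, zpow_natCast]
      rfl
    rw [e]
    exact pow_le_pow_left₀ (by positivity) (ParC2_qcube hε hε1) _
  have h2 : pq ε ^ (-ps ε Rb x - 3 * (pn ε Rb x : ℤ)) * pq ε ^ (3 * (pn ε Rb x : ℤ)) ≤
      8 * pq ε * (pmu ε ^ pn ε Rb x) ^ 2 := by
    calc pq ε ^ (-ps ε Rb x - 3 * (pn ε Rb x : ℤ)) * pq ε ^ (3 * (pn ε Rb x : ℤ)) ≤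
        (8 * pM ε Rb x * pq ε) * pmu ε ^ pn ε Rb x :=
          mul_le_mul h h1 (by positivity) (by unfold pM; positivity)
      _ = 8 * pq ε * (pmu ε ^ pn ε Rb x) ^ 2 := by unfold pM; ring
  rw [← zpow_add₀ hq0.ne'] at h2
  have e2 : -ps ε Rb x - 3 * (pn ε Rb x : ℤ) + 3 * (pn ε Rb x : ℤ) = -ps ε Rb x := by ring
  rw [e2, zpow_neg] at h2
  have h3 : 0 < pq ε ^ (ps ε Rb x) := zpow_pos hq0 _
  rw [div_le_iff₀ (by positivity)]
  have h4 := mul_le_mul_of_nonneg_left h2 h3.le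
  rw [mul_inv_cancel₀ h3.ne'] at h4
  exact h4

/-- Lower bound for the expected number of good paths: this is the place where the sharp constant
enters.
Proof. With `r = (K - 2a) (2J+1) 2 ρ₀ (q-1) / σ`, `K = exp x`, the left side is
`r^n q^s / ((2J+1)² (2JN+1) (2N))`.  As `(2J+1) (q-1) ≥ 2 ((1-ε/8) x / log q - 4) (q-1) ≥
2 (1-ε/8) x - 8` (`pJ_bd`; `q - 1 ≥ log q`, `q - 1 ≤ 1`) and `σ ≤ (1-ε) 4 ρ₀ K x`,
`r ≥ (1 - 2a/K) ((1 - ε/8) - 4/x) / (1-ε) ≥ (1 - ε/4)/(1-ε) ≥ 1 + ε/2` for large `x`.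
`q^s ≥ q^(-3n-1) / (8 M)` (`ps_bd`), `M = (1+ε/16)^n`, `q³ ≤ 1 + ε/16`, and
`(1+ε/2) / (1+ε/16)² ≥ 1 + ε/8`.  So the left side is at least
`(1+ε/8)^n / (8 q (2J+1)² (2JN+1) (2N))`; the denominator is at most `x⁴ * C ≤ x⁵`, and
`(1+ε/8)^n ≥ x^8` because `n ≥ 2 pC1 log x ≥ 8 log x / log (1+ε/8)`. -/
theorem Z_large (hε : 0 < ε) (hε1 : ε < 1) {ρ₀ : ℝ} (hρ₀ : 0 < ρ₀) :
    ∀ᶠ x : ℝ in atTop, ∀ σ : ℝ, Real.exp x ≤ σ → σ ≤ (1 - ε) * (4 * ρ₀) * Real.exp x * x →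
      x ^ 3 ≤ (Real.exp x - 2 * pa ε Rb x) ^ pn ε Rb x
        * ((2 * pJ ε x + 1) ^ (2 * pN ε Rb x) / ((2 * pJ ε x * pN ε Rb x + 1) * (2 * pN ε Rb x)))
        * pw ρ₀ (pq ε) σ (pn ε Rb x) (ps ε Rb x) := by
  have hq1 : 1 < pq ε := by unfold pq; linarith
  have hq0 : 0 < pq ε := by linarith
  have hq2 : pq ε - 1 ≤ 1 := by unfold pq; linarith
  have hL : 0 < Real.log (pq ε) := Real.log_pos hq1
  have hLq : Real.log (pq ε) ≤ pq ε - 1 := Real.log_le_sub_one_of_pos hq0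
  have hmu1 : 1 < pmu ε := by unfold pmu; linarith
  have hmu0 : 0 < pmu ε := by linarith
  have hLmu : 0 < Real.log (pmu ε) := Real.log_pos hmu1
  have hL8 : 0 < Real.log (1 + ε / 8) := Real.log_pos (by linarith)
  have hpC2 : 0 ≤ pC2 ε Rb := by unfold pC2; positivity
  obtain ⟨C, hC⟩ : ∃ C : ℝ, C = 2 / Real.log (pq ε) + 1 := ⟨_, rfl⟩
  have hC0 : 0 < C := by rw [hC]; positivity
  obtain ⟨D, hD⟩ : ∃ D : ℝ, D = 8 * pq ε * C ^ 3 := ⟨_, rfl⟩
  have hD0 : 0 < D := by rw [hD]; positivity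
  have hc : 0 < 1 / (D + 1) := by positivity
  filter_upwards [pn_ge (Rb := Rb) hε, pn_small (Rb := Rb) hε hc, pJ_bd hε hε1,
    eventually_ge_atTop 1, eventually_ge_atTop ((2 * (pC2 ε Rb + 1) + 2) * 32 / ε),
    eventually_ge_atTop (56 / ε)] with x h1 h2 h3 h4 h5 h6
  intro σ hσ1 hσ2
  have hx0 : 0 < x := by linarith
  have hK0 : 0 < Real.exp x := Real.exp_pos x
  have hσ0 : 0 < σ := hK0.trans_le hσ1
  have hnN : pn ε Rb x = 2 * pN ε Rb x + 2 := rfl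
  have hN1 : (1 : ℝ) ≤ (pN ε Rb x : ℝ) := by
    have : 1 ≤ pN ε Rb x := by unfold pN; omega
    exact_mod_cast this
  have hnR : (pn ε Rb x : ℝ) = 2 * (pN ε Rb x : ℝ) + 2 := by rw [hnN]; push_cast; ring
  have hJ0 : (0 : ℝ) ≤ (pJ ε x : ℝ) := Nat.cast_nonneg _
  have hps := ParC2_pow (Rb := Rb) hε hε1 hx0
  -- the number `a` is small
  have ha : 2 * (pa ε Rb x : ℝ) ≤ ε / 16 * Real.exp x := by
    have k1 : (pa ε Rb x : ℝ) < (pC2 ε Rb + 1) * x + 1 := by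
      unfold pa
      exact Nat.ceil_lt_add_one (by positivity)
    have k2 := Real.quadratic_le_exp_of_nonneg hx0.le
    rw [div_le_iff₀ hε] at h5
    have k3 : (2 * (pC2 ε Rb + 1) + 2) * 32 * x ≤ x * ε * x :=
      mul_le_mul_of_nonneg_right h5 hx0.le
    have k4 : ε / 16 * (1 + x + x ^ 2 / 2) ≤ ε / 16 * Real.exp x :=
      mul_le_mul_of_nonneg_left k2 (by positivity)
    have k5 : 0 ≤ ε * x := by positivity
    nlinarith
  generalize (pa ε Rb x : ℝ) = a at ha ⊢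
  -- the number of the windows
  have hJq : 2 * (1 - 3 * ε / 16) * x ≤ (2 * (pJ ε x : ℝ) + 1) * (pq ε - 1) := by
    have k1 := h3.2
    have k2 : ((pJ ε x : ℝ) + 4) * Real.log (pq ε) ≤ ((pJ ε x : ℝ) + 4) * (pq ε - 1) :=
      mul_le_mul_of_nonneg_left hLq (by linarith)
    rw [div_le_iff₀ hε] at h6
    nlinarith
  have hJle : 2 * (pJ ε x : ℝ) + 1 ≤ C * x := by
    have k1 : (pJ ε x : ℝ) * Real.log (pq ε) ≤ x := by
      have k2 := h3.1
      have k3 : 0 ≤ ε * x := by positivity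
      nlinarith
    have k4 : (pJ ε x : ℝ) ≤ x / Real.log (pq ε) := by
      rw [le_div_iff₀ hL]
      exact k1
    rw [hC]
    have k5 : (2 / Real.log (pq ε) + 1) * x = 2 * (x / Real.log (pq ε)) + x := by ring
    rw [k5]
    linarith
  generalize hJ : (pJ ε x : ℝ) = J at hJ0 hJq hJle h3 ⊢
  generalize hq : pq ε = q at *
  generalize hs : q ^ (ps ε Rb x) = Q at *
  generalize hN : (pN ε Rb x : ℝ) = N at *
  -- the ratio
  obtain ⟨r, hr⟩ : ∃ r : ℝ, r = (Real.exp x - 2 * a) * (2 * J + 1) * (2 * ρ₀ * (q - 1) / σ) :=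
    ⟨_, rfl⟩
  have hr1 : 1 + ε / 2 ≤ r := by
    have k0 : r = (Real.exp x - 2 * a) * ((2 * J + 1) * (q - 1)) * (2 * ρ₀) / σ := by
      rw [hr]; ring
    rw [k0, le_div_iff₀ hσ0]
    have k1 : (1 - ε / 16) * Real.exp x ≤ Real.exp x - 2 * a := by linarith
    have k2 : (1 - ε / 16) * Real.exp x * (2 * (1 - 3 * ε / 16) * x) ≤
        (Real.exp x - 2 * a) * ((2 * J + 1) * (q - 1)) :=
      mul_le_mul k1 hJq (by
        have : 0 ≤ 1 - 3 * ε / 16 := by linarith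
        positivity) (le_trans (by
        have : 0 ≤ 1 - ε / 16 := by linarith
        positivity) k1)
    have k3 := mul_le_mul_of_nonneg_right k2 (by positivity : 0 ≤ 2 * ρ₀)
    have k4 := mul_le_mul_of_nonneg_left hσ2 (by linarith : 0 ≤ 1 + ε / 2)
    refine k4.trans (le_trans ?_ k3)
    have k5 : (1 + ε / 2) * ((1 - ε) * (4 * ρ₀) * Real.exp x * x) =
        ((1 + ε / 2) * (1 - ε)) * (4 * ρ₀ * Real.exp x * x) := by ring
    have k6 : (1 - ε / 16) * Real.exp x * (2 * (1 - 3 * ε / 16) * x) * (2 * ρ₀) =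
        ((1 - ε / 16) * (1 - 3 * ε / 16)) * (4 * ρ₀ * Real.exp x * x) := by ring
    rw [k5, k6]
    refine mul_le_mul_of_nonneg_right ?_ (by positivity)
    nlinarith [mul_pos hε hε]
  have hr0 : 0 < r := by linarith
  have hJ1 : 0 < 2 * J + 1 := by linarith
  -- the power
  have hpow : x ^ 8 ≤ (1 + ε / 8) ^ pn ε Rb x := by
    have k1 : 8 * Real.log x ≤ pn ε Rb x * Real.log (1 + ε / 8) := by
      have k2 : 4 / Real.log (1 + ε / 8) ≤ pC1 ε Rb := by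
        unfold pC1
        linarith
      have k3 : 0 ≤ Real.log x := Real.log_nonneg h4
      have k4 : 2 * (4 / Real.log (1 + ε / 8)) * Real.log x ≤ 2 * pC1 ε Rb * Real.log x :=
        mul_le_mul_of_nonneg_right (by linarith) k3
      have k5 := mul_le_mul_of_nonneg_right (k4.trans h1) hL8.le
      have k6 : 2 * (4 / Real.log (1 + ε / 8)) * Real.log x * Real.log (1 + ε / 8) =
          8 * Real.log x := by
        have hne := hL8.ne'
        generalize Real.log (1 + ε / 8) = l at hne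
        calc 2 * (4 / l) * Real.log x * l = 8 * Real.log x * (l / l) := by ring
          _ = 8 * Real.log x := by rw [div_self hne, mul_one]
      rw [k6] at k5
      exact k5
    have k7 : x ^ 8 = Real.exp (8 * Real.log x) := by
      rw [mul_comm, Real.exp_mul, Real.exp_log hx0]
      norm_num
    have k8 : (1 + ε / 8) ^ pn ε Rb x = Real.exp (pn ε Rb x * Real.log (1 + ε / 8)) := by
      rw [mul_comm, Real.exp_mul, Real.exp_log (by positivity), Real.rpow_natCast]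
    rw [k7, k8]
    exact Real.exp_le_exp.2 k1
  have hrn : (1 + ε / 8) ^ pn ε Rb x * (pmu ε ^ pn ε Rb x) ^ 2 ≤ r ^ pn ε Rb x := by
    have k1 : (1 + ε / 8) ^ pn ε Rb x * (pmu ε ^ pn ε Rb x) ^ 2 =
        ((1 + ε / 8) * pmu ε ^ 2) ^ pn ε Rb x := by
      rw [mul_pow]
      ring
    rw [k1]
    exact pow_le_pow_left₀ (by positivity) ((ParC2_growth hε hε1).trans hr1) _
  -- the denominator
  have hden : 8 * q * ((2 * J + 1) ^ 2 * ((2 * J * N + 1) * (2 * N))) ≤ x ^ 5 := by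
    have k1 : 2 * J * N + 1 ≤ (2 * J + 1) * (2 * N) := by nlinarith [mul_nonneg hJ0 (by linarith : 0 ≤ N)]
    have k2 : 2 * N ≤ 1 / (D + 1) * x := by linarith
    have k3 : (2 * J + 1) ^ 2 * ((2 * J * N + 1) * (2 * N)) ≤ (2 * J + 1) ^ 3 * (2 * N) ^ 2 := by
      calc (2 * J + 1) ^ 2 * ((2 * J * N + 1) * (2 * N)) ≤
          (2 * J + 1) ^ 2 * (((2 * J + 1) * (2 * N)) * (2 * N)) :=
            mul_le_mul_of_nonneg_left (mul_le_mul_of_nonneg_right k1 (by linarith))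
              (by positivity)
        _ = (2 * J + 1) ^ 3 * (2 * N) ^ 2 := by ring
    have k4 : (2 * J + 1) ^ 3 * (2 * N) ^ 2 ≤ (C * x) ^ 3 * (1 / (D + 1) * x) ^ 2 :=
      mul_le_mul (pow_le_pow_left₀ hJ1.le hJle 3) (pow_le_pow_left₀ (by linarith) k2 2)
        (by positivity) (by positivity)
    have k5 : 8 * q * ((C * x) ^ 3 * (1 / (D + 1) * x) ^ 2) = D / (D + 1) ^ 2 * x ^ 5 := by
      rw [hD]
      field_simp
    have k6 : D / (D + 1) ^ 2 ≤ 1 := by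
      rw [div_le_one (by positivity)]
      nlinarith
    calc 8 * q * ((2 * J + 1) ^ 2 * ((2 * J * N + 1) * (2 * N))) ≤
        8 * q * ((C * x) ^ 3 * (1 / (D + 1) * x) ^ 2) :=
          mul_le_mul_of_nonneg_left (k3.trans k4) (by positivity)
      _ = D / (D + 1) ^ 2 * x ^ 5 := k5
      _ ≤ 1 * x ^ 5 := mul_le_mul_of_nonneg_right k6 (by positivity)
      _ = x ^ 5 := one_mul _
  have hN0 : 0 < N := by linarith
  have hden0 : 0 < (2 * J + 1) ^ 2 * ((2 * J * N + 1) * (2 * N)) := by positivity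
  -- conclusion
  have hQ : (1 + ε / 8) ^ pn ε Rb x / (8 * q) ≤ r ^ pn ε Rb x * Q := by
    have hmun : 0 < pmu ε ^ pn ε Rb x := by positivity
    calc (1 + ε / 8) ^ pn ε Rb x / (8 * q) =
        ((1 + ε / 8) ^ pn ε Rb x * (pmu ε ^ pn ε Rb x) ^ 2) *
          (1 / (8 * q * (pmu ε ^ pn ε Rb x) ^ 2)) := by
            field_simp
      _ ≤ r ^ pn ε Rb x * Q := mul_le_mul hrn hps (by positivity) (by positivity)
  have e1 : (Real.exp x - 2 * a) ^ pn ε Rb x *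
      ((2 * J + 1) ^ (2 * pN ε Rb x) / ((2 * J * N + 1) * (2 * N))) *
      pw ρ₀ q σ (pn ε Rb x) (ps ε Rb x) =
      (r ^ pn ε Rb x * Q) / ((2 * J + 1) ^ 2 * ((2 * J * N + 1) * (2 * N))) := by
    unfold pw
    rw [hs, hr, mul_pow, mul_pow]
    have e2 : (2 * J + 1) ^ pn ε Rb x = (2 * J + 1) ^ (2 * pN ε Rb x) * (2 * J + 1) ^ 2 := by
      rw [hnN, pow_add]
    rw [e2]
    generalize (2 * J + 1) ^ (2 * pN ε Rb x) = A
    generalize (2 * ρ₀ * (q - 1) / σ) ^ pn ε Rb x = B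
    field_simp
  rw [e1, le_div_iff₀ hden0]
  refine le_trans ?_ hQ
  rw [le_div_iff₀ (by positivity)]
  calc x ^ 3 * ((2 * J + 1) ^ 2 * ((2 * J * N + 1) * (2 * N))) * (8 * q) =
      x ^ 3 * (8 * q * ((2 * J + 1) ^ 2 * ((2 * J * N + 1) * (2 * N)))) := by ring
    _ ≤ x ^ 3 * x ^ 5 := mul_le_mul_of_nonneg_left hden (by positivity)
    _ = x ^ 8 := by ring
    _ ≤ (1 + ε / 8) ^ pn ε Rb x := hpow

end Pool.Agent.H989.SB
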