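import Pool.Agent.H989.SB.ParC1
import Pool.Agent.H989.SB.ParC2

/-!
The total error.
-/

set_option linter.unusedSectionVars false
set_option linter.unusedVariables false

open Filter

namespace Pool.Agent.H989.SB

variable {ε : ℝ} {Rb : ℕ}

theorem ParC_pq_one (hε : 0 < ε) : 1 < pq ε := by
  unfold pq
  linarith

theorem ParC_pmu_one (hε : 0 < ε) : 1 < pmu ε := by
  unfold pmu
  linarith

theorem ParC_ps_nonpos (hε : 0 < ε) (x : ℝ) : pq ε ^ ps ε Rb x ≤ 1 := by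
  have hq := ParC_pq_one hε
  have hlq : 0 < Real.log (pq ε) := Real.log_pos hq
  have hM : 1 ≤ pM ε Rb x := one_le_pow₀ (ParC_pmu_one hε).le
  have hlM : 0 ≤ Real.log (8 * pM ε Rb x) := Real.log_nonneg (by linarith)
  have h1 : 0 ≤ 3 * (pn ε Rb x : ℝ) + Real.log (8 * pM ε Rb x) / Real.log (pq ε) := by
    have : 0 ≤ (pn ε Rb x : ℝ) := Nat.cast_nonneg _
    have := div_nonneg hlM hlq.le
    positivity
  have h2 : ps ε Rb x ≤ 0 := by
    unfold ps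
    have := Int.ceil_nonneg h1
    omega
  exact zpow_le_one_of_nonpos₀ hq.le h2

/-- `K^n (2J+1)^n pp ≤ (A x)^n`. -/
theorem ParC_Z (hε : 0 < ε) (hε1 : ε < 1) {G : ℝ} (hG : 0 < G) :
    ∃ A : ℝ, 0 < A ∧ ∀ᶠ x : ℝ in atTop, ∀ σ : ℝ, Real.exp x ≤ σ →
      0 ≤ Real.exp x ^ pn ε Rb x * (2 * (pJ ε x : ℝ) + 1) ^ pn ε Rb x
        * pp G (pq ε) σ (pn ε Rb x) (ps ε Rb x) ∧
      Real.exp x ^ pn ε Rb x * (2 * (pJ ε x : ℝ) + 1) ^ pn ε Rb x
        * pp G (pq ε) σ (pn ε Rb x) (ps ε Rb x) ≤ (A * x) ^ pn ε Rb x := by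
  have hq := ParC_pq_one hε
  have hq0 : 0 < pq ε := by linarith
  have hlq : 0 < Real.log (pq ε) := Real.log_pos hq
  refine ⟨(2 / Real.log (pq ε) + 1) * (2 * G * pq ε ^ 2), by positivity, ?_⟩
  filter_upwards [pJ_bd hε hε1, eventually_ge_atTop 1] with x hJ hx σ hσ
  have hK : 0 < Real.exp x := Real.exp_pos x
  have hσ0 : 0 < σ := lt_of_lt_of_le hK hσ
  set n := pn ε Rb x with hn
  have hJ1 : (pJ ε x : ℝ) ≤ x / Real.log (pq ε) := by
    rw [le_div_iff₀ hlq]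
    nlinarith [hJ.1]
  have hJ2 : 2 * (pJ ε x : ℝ) + 1 ≤ (2 / Real.log (pq ε) + 1) * x := by
    have : (2 / Real.log (pq ε) + 1) * x = 2 * (x / Real.log (pq ε)) + x := by ring
    rw [this]
    linarith
  have hJ0 : 0 ≤ 2 * (pJ ε x : ℝ) + 1 := by positivity
  have hqs : pq ε ^ ps ε Rb x ≤ 1 := ParC_ps_nonpos hε x
  have hqs0 : 0 < pq ε ^ ps ε Rb x := zpow_pos hq0 _
  have e1 : Real.exp x ^ n * (2 * (pJ ε x : ℝ) + 1) ^ n * pp G (pq ε) σ n (ps ε Rb x) =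
      ((2 * (pJ ε x : ℝ) + 1) * (2 * G * pq ε ^ 2) * (Real.exp x / σ)) ^ n
        * pq ε ^ ps ε Rb x := by
    unfold pp
    rw [← mul_assoc, ← mul_pow, ← mul_pow]
    congr 2
    field_simp
  rw [e1]
  refine ⟨by positivity, ?_⟩
  have e2 : ((2 * (pJ ε x : ℝ) + 1) * (2 * G * pq ε ^ 2) * (Real.exp x / σ)) ^ n ≤
      ((2 / Real.log (pq ε) + 1) * (2 * G * pq ε ^ 2) * x) ^ n := by
    refine pow_le_pow_left₀ (by positivity) ?_ n
    have e3 : Real.exp x / σ ≤ 1 := (div_le_one hσ0).2 hσ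
    have e4 : (2 * (pJ ε x : ℝ) + 1) * (2 * G * pq ε ^ 2) * (Real.exp x / σ) ≤
        (2 * (pJ ε x : ℝ) + 1) * (2 * G * pq ε ^ 2) * 1 :=
      mul_le_mul_of_nonneg_left e3 (by positivity)
    have e5 : (2 * (pJ ε x : ℝ) + 1) * (2 * G * pq ε ^ 2) ≤
        (2 / Real.log (pq ε) + 1) * x * (2 * G * pq ε ^ 2) :=
      mul_le_mul_of_nonneg_right hJ2 (by positivity)
    linarith
  calc ((2 * (pJ ε x : ℝ) + 1) * (2 * G * pq ε ^ 2) * (Real.exp x / σ)) ^ n * pq ε ^ ps ε Rb x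
      ≤ ((2 * (pJ ε x : ℝ) + 1) * (2 * G * pq ε ^ 2) * (Real.exp x / σ)) ^ n * 1 :=
        mul_le_mul_of_nonneg_left hqs (by positivity)
    _ = ((2 * (pJ ε x : ℝ) + 1) * (2 * G * pq ε ^ 2) * (Real.exp x / σ)) ^ n := mul_one _
    _ ≤ _ := e2

/-- The bound for `errS`. -/
theorem ParC_err (hε : 0 < ε) (hε1 : ε < 1) {G ρ₀ : ℝ} (hG : 0 < G) (hρ₀ : 0 < ρ₀) :
    ∀ᶠ x : ℝ in atTop, ∀ σ : ℝ, Real.exp x ≤ σ →
      σ ≤ (1 - ε) * (4 * ρ₀) * Real.exp x * x →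
      errS G σ (Real.exp x) (x ^ 6) 2 (pθ ε x) (pW ε x) ρ₀ (pρ x) (pbm x) (pq ε)
          (pn ε Rb x) (pN ε Rb x) (pa ε Rb x) (pa ε Rb x) (pJ ε x) (pJ1 ε Rb x) (ps ε Rb x)
        ≤ 2 * Real.exp (-(ε / 128 * x)) + 4 / x ^ 3 := by
  obtain ⟨A, hA, hZ⟩ := ParC_Z (Rb := Rb) hε hε1 hG
  have hCs : 0 < (1 - ε) * (4 * ρ₀) := by
    have : 0 < 1 - ε := by linarith
    positivity
  filter_upwards [hZ, pT_small (Rb := Rb) hε hε1 hG, pm_small (Rb := Rb) hε hε1 hG hCs,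
    pD_small (Rb := Rb) hε hε1, Z_large (Rb := Rb) hε hε1 hρ₀,
    master (Rb := Rb) hε A hA (c := ε / 512) (by positivity),
    pn_small (Rb := Rb) hε (c := 1 / 2) (by norm_num), eventually_ge_atTop 1]
    with x hZx hT hm hD hL hM hn hx σ hσ hσ2
  obtain ⟨z0, z1⟩ := hZx σ hσ
  have hm' := hm σ hσ hσ2
  have hL' := hL σ hσ hσ2
  unfold errS
  set Z := Real.exp x ^ pn ε Rb x * (2 * (pJ ε x : ℝ) + 1) ^ pn ε Rb x
        * pp G (pq ε) σ (pn ε Rb x) (ps ε Rb x) with hZdef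
  set D := (Real.exp x - 2 * pa ε Rb x) ^ pn ε Rb x
        * ((2 * pJ ε x + 1) ^ (2 * pN ε Rb x) / ((2 * pJ ε x * pN ε Rb x + 1) * (2 * pN ε Rb x)))
        * pw ρ₀ (pq ε) σ (pn ε Rb x) (ps ε Rb x) with hDdef
  set T := pT G (Real.exp x) (x ^ 6) 2 (pθ ε x) (pW ε x) (pn ε Rb x) (pa ε Rb x)
      (pa ε Rb x) with hTdef
  set m := pm G σ (Real.exp x) (pθ ε x) (pρ x) (pbm x) (pn ε Rb x) with hmdef
  set d := pD (Real.exp x) (x ^ 6) 2 (pn ε Rb x) (pJ1 ε Rb x) with hddef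
  set u := Real.exp (-(ε / 128 * x)) with hu
  have hu0 : 0 < u := Real.exp_pos _
  have h4 : Real.exp (-(1 / 4 * x)) ≤ u := by
    rw [hu]
    apply Real.exp_le_exp.2
    nlinarith
  have hρb : 2 * (pn ε Rb x : ℝ) * pρ x ≤ u := by
    have h5 : x ≤ Real.exp (x / 2) := by
      have h6 : Real.exp (x / 2) = Real.exp (x / 4) ^ 2 := by
        rw [← Real.exp_nat_mul]
        congr 1
        push_cast
        ring
      have h7 := Real.add_one_le_exp (x / 4)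
      rw [h6]
      have h8 : (x / 4 + 1) ^ 2 ≤ Real.exp (x / 4) ^ 2 := pow_le_pow_left₀ (by positivity) h7 2
      nlinarith [sq_nonneg (1 - x / 4)]
    have h6 : 2 * (pn ε Rb x : ℝ) ≤ Real.exp (x / 2) := by linarith
    calc 2 * (pn ε Rb x : ℝ) * pρ x ≤ Real.exp (x / 2) * pρ x :=
          mul_le_mul_of_nonneg_right h6 (Real.exp_pos _).le
      _ = Real.exp (x / 2 + -x) := by rw [pρ, ← Real.exp_add]
      _ ≤ u := by
          rw [hu]
          apply Real.exp_le_exp.2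
          nlinarith
  have hZ2 : Z ^ 2 ≤ Real.exp (ε / 256 * x) := by
    have h5 : Z ≤ Real.exp (ε / 512 * x) := z1.trans hM
    have h6 : Z ^ 2 ≤ Real.exp (ε / 512 * x) ^ 2 := pow_le_pow_left₀ z0 h5 2
    refine h6.trans (le_of_eq ?_)
    rw [← Real.exp_nat_mul]
    congr 1
    push_cast
    ring
  have hx3 : 0 < x ^ 3 := by positivity
  have hDpos : 0 < D := lt_of_lt_of_le hx3 hL'
  have hS : T + d + 2 * (pn ε Rb x : ℝ) * pρ x ≤ 3 * u := by linarith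
  have hnum : 1 + Z ^ 2 * (T + d + 2 * (pn ε Rb x : ℝ) * pρ x) ≤ 4 := by
    have h5 : Z ^ 2 * (T + d + 2 * (pn ε Rb x : ℝ) * pρ x) ≤ Real.exp (ε / 256 * x) * (3 * u) := by
      calc Z ^ 2 * (T + d + 2 * (pn ε Rb x : ℝ) * pρ x) ≤ Z ^ 2 * (3 * u) :=
            mul_le_mul_of_nonneg_left hS (by positivity)
        _ ≤ _ := mul_le_mul_of_nonneg_right hZ2 (by positivity)
    have h6 : Real.exp (ε / 256 * x) * (3 * u) ≤ 3 := by
      have h7 : Real.exp (ε / 256 * x) * u ≤ 1 := by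
        rw [hu, ← Real.exp_add]
        apply Real.exp_le_one_iff.2
        nlinarith
      nlinarith
    linarith
  have hfrac : (1 + Z ^ 2 * (T + d + 2 * (pn ε Rb x : ℝ) * pρ x)) / D ≤ 4 / x ^ 3 := by
    rw [div_le_div_iff₀ hDpos hx3]
    nlinarith
  have := hfrac
  linarith

/-- Proof. `J₁ ≤ x`; `errS ≤ exp (-c x) + (1 + (..)² exp (-c' x)) / x³`, where
`K^n (2J+1)^n pp ≤ ((2J+1) 2 G q²)^n ≤ (A x)^n` (`σ ≥ K`, `q^s ≤ 1`), `master`. -/
theorem parC (hε : 0 < ε) (hε1 : ε < 1) {G ρ₀ p κ : ℝ} (hG : 0 < G) (hρ₀ : 0 < ρ₀) (hp : 0 < p)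
    (hκ : 0 < κ) :
    ∀ᶠ x : ℝ in atTop, ∀ d : ℕ, 2 * (d : ℝ) = Real.exp x → ∀ σ : ℝ, 2 * (d : ℝ) ≤ σ →
      σ ≤ (1 - ε) * (4 * ρ₀) * (2 * d) * x →
      pJ1 ε Rb x * errS G σ (2 * d) (x ^ 6) 2 (pθ ε x) (pW ε x) ρ₀ (pρ x) (pbm x) (pq ε)
          (pn ε Rb x) (pN ε Rb x) (pa ε Rb x) (pa ε Rb x) (pJ ε x) (pJ1 ε Rb x) (ps ε Rb x)
        + (2 * d + 1) ^ Rb * 2 / √(κ * pX Rb x) ≤ p := by
  set C' : ℝ := pC2 ε Rb + 1 with hC'
  have hC2 : 0 < pC2 ε Rb := by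
    unfold pC2
    have := Real.log_pos (ParC_pmu_one hε)
    positivity
  have hC'0 : 0 < C' := by linarith
  set D : ℝ := 4 * C' / (ε / 128) ^ 2 + 4 * C' + 2 ^ (Rb + 1) / √κ * 2 with hD
  have hD0 : 0 < D := by
    have : 0 < √κ := Real.sqrt_pos.2 hκ
    positivity
  filter_upwards [ParC_err (Rb := Rb) hε hε1 hG hρ₀, eventually_ge_atTop 1,
    eventually_ge_atTop (D / p)] with x herr hx hxD d hd σ hσ hσ2
  have hx0 : 0 < x := by linarith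
  rw [hd] at hσ hσ2 ⊢
  have he := herr σ hσ hσ2
  -- the number of the stages
  have hn2 : (1 : ℝ) ≤ pn ε Rb x := by
    have : 1 ≤ pn ε Rb x := by unfold pn; omega
    exact_mod_cast this
  have hJ1 : (pJ1 ε Rb x : ℝ) ≤ C' * x := by
    have h1 := (pJ1_bd (Rb := Rb) hε x hx0).2
    have h2 : (pn ε Rb x : ℝ) * pJ1 ε Rb x ≤ pn ε Rb x * (C' * x) := by
      rw [hC']
      nlinarith [mul_pos hC2 hx0, mul_le_mul_of_nonneg_left hx (by positivity :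
        (0 : ℝ) ≤ (pn ε Rb x : ℝ)), mul_le_mul_of_nonneg_right hn2 (mul_pos hC2 hx0).le]
    exact le_of_mul_le_mul_left h2 (by linarith)
  have hJ0 : (0 : ℝ) ≤ pJ1 ε Rb x := Nat.cast_nonneg _
  have hB0 : 0 ≤ 2 * Real.exp (-(ε / 128 * x)) + 4 / x ^ 3 := by positivity
  have h1 : pJ1 ε Rb x * errS G σ (Real.exp x) (x ^ 6) 2 (pθ ε x) (pW ε x) ρ₀ (pρ x) (pbm x)
      (pq ε) (pn ε Rb x) (pN ε Rb x) (pa ε Rb x) (pa ε Rb x) (pJ ε x) (pJ1 ε Rb x) (ps ε Rb x)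
      ≤ C' * x * (2 * Real.exp (-(ε / 128 * x)) + 4 / x ^ 3) :=
    (mul_le_mul_of_nonneg_left he hJ0).trans (mul_le_mul_of_nonneg_right hJ1 hB0)
  have h2 : x * Real.exp (-(ε / 128 * x)) ≤ 2 / (ε / 128) ^ 2 / x := by
    have hy : 0 < ε / 128 * x := by positivity
    have h3 := Real.quadratic_le_exp_of_nonneg hy.le
    have h4 : (ε / 128 * x) ^ 2 / 2 ≤ Real.exp (ε / 128 * x) := by linarith
    rw [Real.exp_neg, ← div_eq_mul_inv, div_div, div_le_div_iff₀ (Real.exp_pos _) (by positivity)]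
    nlinarith
  have h3 : x * (4 / x ^ 3) ≤ 4 / x := by
    rw [mul_div_assoc', div_le_div_iff₀ (by positivity) hx0]
    nlinarith [pow_pos hx0 3, mul_le_mul_of_nonneg_left hx (by positivity : (0 : ℝ) ≤ x ^ 2)]
  have h4 : (Real.exp x + 1) ^ Rb * 2 / √(κ * pX Rb x) ≤ 2 ^ (Rb + 1) / √κ * (2 / x) := by
    have hsκ : 0 < √κ := Real.sqrt_pos.2 hκ
    have h5 : √(κ * pX Rb x) = √κ * (Real.exp (Rb * x) * Real.exp (x / 2)) := by
      rw [Real.sqrt_mul hκ.le]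
      congr 1
      rw [pX, ← Real.exp_add, Real.sqrt_eq_iff_mul_self_eq (Real.exp_pos _).le (Real.exp_pos _).le,
        ← Real.exp_add]
      congr 1
      ring
    have h6 : (Real.exp x + 1) ^ Rb ≤ 2 ^ Rb * Real.exp (Rb * x) := by
      have h7 : Real.exp x + 1 ≤ 2 * Real.exp x := by
        have := Real.add_one_le_exp x
        linarith
      calc (Real.exp x + 1) ^ Rb ≤ (2 * Real.exp x) ^ Rb :=
            pow_le_pow_left₀ (by positivity) h7 Rb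
        _ = 2 ^ Rb * Real.exp (Rb * x) := by
            rw [mul_pow, Real.exp_nat_mul]
    have h8 : x / 2 ≤ Real.exp (x / 2) := by
      have := Real.add_one_le_exp (x / 2)
      linarith
    rw [h5, div_le_iff₀ (by positivity)]
    have h9 : 1 ≤ (2 / x) * Real.exp (x / 2) := by
      rw [div_mul_eq_mul_div, le_div_iff₀ hx0]
      linarith
    calc (Real.exp x + 1) ^ Rb * 2 ≤ 2 ^ Rb * Real.exp (Rb * x) * 2 :=
          mul_le_mul_of_nonneg_right h6 (by norm_num)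
      _ = 2 ^ (Rb + 1) * Real.exp (Rb * x) * 1 := by ring
      _ ≤ 2 ^ (Rb + 1) * Real.exp (Rb * x) * ((2 / x) * Real.exp (x / 2)) :=
          mul_le_mul_of_nonneg_left h9 (by positivity)
      _ = 2 ^ (Rb + 1) / √κ * (2 / x) * (√κ * (Real.exp (Rb * x) * Real.exp (x / 2))) := by
          field_simp
  have h5 : C' * x * (2 * Real.exp (-(ε / 128 * x)) + 4 / x ^ 3) ≤
      2 * C' * (2 / (ε / 128) ^ 2 / x) + C' * (4 / x) := by
    have e1 : C' * x * (2 * Real.exp (-(ε / 128 * x)) + 4 / x ^ 3) =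
        2 * C' * (x * Real.exp (-(ε / 128 * x))) + C' * (x * (4 / x ^ 3)) := by ring
    rw [e1]
    have e2 := mul_le_mul_of_nonneg_left h2 (by positivity : (0 : ℝ) ≤ 2 * C')
    have e3 := mul_le_mul_of_nonneg_left h3 hC'0.le
    linarith
  have h6 : 2 * C' * (2 / (ε / 128) ^ 2 / x) + C' * (4 / x) + 2 ^ (Rb + 1) / √κ * (2 / x) =
      D / x := by
    rw [hD]
    field_simp
    ring
  have h7 : D / x ≤ p := by
    rw [div_le_iff₀ hx0]
    rw [div_le_iff₀ hp] at hxD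
    linarith
  linarith

end Pool.Agent.H989.SB
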