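import Pool.Agent.H989.SB.ParA
import Pool.Agent.H989.SB.ParB
import Pool.Agent.H989.SB.ParC
import Pool.Agent.H989.Fin

/-!
Final theorems.
-/

set_option linter.unusedSectionVars false
set_option linter.unusedVariables false

open MeasureTheory ProbabilityTheory Finset Filter

namespace Pool.Agent.H989.SB

lemma ParW.mono_e {e e₀ δ ρ₀ : ℝ} {d : ℕ} {σ η θ W q M Y₀ ρb bm X : ℝ}
    {n N a ρ J J₁ Rb : ℕ} {h₀ s : ℤ}
    (P : ParW e₀ δ ρ₀ d σ η θ W q M Y₀ ρb bm X n N a ρ J J₁ Rb h₀ s) (hσ : 0 ≤ σ)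
    (he : |e| ≤ |e₀|) : ParW e δ ρ₀ d σ η θ W q M Y₀ ρb bm X n N a ρ J J₁ Rb h₀ s :=
  { P with
    bm3 := by
      refine le_trans ?_ P.bm3
      have : |e| * σ ≤ |e₀| * σ := by gcongr
      nlinarith }

lemma eta_small (Rb : ℕ) (A : ℝ) {c : ℝ} (hc : 0 < c) :
    ∀ᶠ x : ℝ in atTop, (2 * Real.exp x) ^ Rb * (A * pη x) ≤ c := by
  have h1 : Tendsto (fun x : ℝ => Real.exp (-x)) atTop (nhds 0) :=
    Real.tendsto_exp_neg_atTop_nhds_zero
  have h2 : Tendsto (fun x : ℝ => 2 ^ Rb * |A| * Real.exp (-x)) atTop (nhds (2 ^ Rb * |A| * 0)) :=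
    h1.const_mul _
  rw [mul_zero] at h2
  have h3 := h2.eventually (ge_mem_nhds hc)
  filter_upwards [h3, eventually_ge_atTop ((Rb : ℝ) + 1)] with x hx hx1
  have hx1' : 1 ≤ x := by
    have : (0:ℝ) ≤ Rb := Nat.cast_nonneg _
    linarith
  refine le_trans ?_ hx
  have e1 : (2 * Real.exp x) ^ Rb = 2 ^ Rb * Real.exp (Rb * x) := by
    rw [mul_pow, ← Real.exp_nat_mul]
  have e2 : A * pη x ≤ |A| * pη x := by
    have : 0 < pη x := Real.exp_pos _
    gcongr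
    exact le_abs_self A
  calc (2 * Real.exp x) ^ Rb * (A * pη x) ≤ (2 * Real.exp x) ^ Rb * (|A| * pη x) := by
        gcongr
    _ = 2 ^ Rb * |A| * (Real.exp (Rb * x) * pη x) := by rw [e1]; ring
    _ = 2 ^ Rb * |A| * Real.exp (Rb * x + -x ^ 3) := by unfold pη; rw [← Real.exp_add]
    _ ≤ 2 ^ Rb * |A| * Real.exp (-x) := by
        gcongr
        have : (Rb : ℝ) + 1 ≤ x ^ 2 := by nlinarith
        nlinarith

/-- one window of energies, general law -/
theorem sb_window {G δ ρ₀ e₀ ε : ℝ} (hG : 0 < G) (hδ : 0 < δ) (hρ₀ : 0 < ρ₀) (hε : 0 < ε)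
    (hε1 : ε < 1) (Rb : ℕ) : ∃ d₀ : ℕ, ∀ d : ℕ, d₀ ≤ d → ∀ ν : Measure ℝ, Law ν G →
      ∀ e : ℝ, |e| ≤ |e₀| → LowD ν e δ ρ₀ → ∀ σ : ℝ, 2 * (d : ℝ) ≤ σ →
      σ ≤ (1 - ε) * (4 * ρ₀) * (2 * d) * Real.log (2 * d) →
      ∀ B : Finset (Zd d), (∀ y ∈ B, ∑ i, |y i| ≤ (Rb : ℤ)) → ∀ a : Zd d,
      ∃ GG : Set (Zd d → ℝ), MeasurableSet GG ∧ 1 - ε ≤ (lawZ ν d).real GG ∧
        ∀ ω ∈ GG, ∀ (n : ℕ) (u : Fin n → L2 d) (E : Fin n → ℝ), Orthonormal ℂ u →
          (∀ j x, anderson σ ω (u j) x = E j * u j x) → (∀ j, |E j - σ * e| ≤ σ * δ / 4) →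
          ∑ j, ∑ y ∈ B, ‖u j a‖ ^ 2 * ‖u j (a + y)‖ ^ 2 ≤ ε := by
  obtain ⟨C, hC1, hC⟩ := one_site G hG
  have hC0 : 0 < C := by linarith
  obtain ⟨p, hp⟩ : ∃ p : ℝ, p = ε ^ 2 / (16 * (Real.pi * G) * δ) := ⟨_, rfl⟩
  have hπ := Real.pi_pos
  have hp0 : 0 < p := by rw [hp]; positivity
  have hA := parA (ε := ε) (Rb := Rb) hε hε1 hC0 (Cs := (1 - ε) * (4 * ρ₀))
    (by have : 0 < 1 - ε := by linarith
        positivity)
  have hB := parB (ε := ε) (Rb := Rb) hε hε1 (e := e₀) hδ hρ₀ (Cs := (1 - ε) * (4 * ρ₀))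
    (by have : 0 < 1 - ε := by linarith
        positivity)
  have hCC := parC (ε := ε) (Rb := Rb) hε hε1 hG hρ₀ hp0 hp0
  have hη := eta_small Rb (δ * (Real.pi * G) ^ 2) (c := ε ^ 2 / 8) (by positivity)
  have hall := ((hA.and hB).and (hCC.and hη)).and (eventually_ge_atTop (4 / δ + 1))
  have ht : Tendsto (fun d : ℕ => Real.log (2 * (d : ℝ))) atTop atTop :=
    Real.tendsto_log_atTop.comp (Tendsto.const_mul_atTop (by norm_num) tendsto_natCast_atTop_atTop)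
  obtain ⟨d₀, hd₀⟩ := eventually_atTop.1 ((ht.eventually hall).and (eventually_ge_atTop 1))
  refine ⟨d₀, fun d hd ν hν e he hlow σ hσ1 hσ2 B hBR a => ?_⟩
  obtain ⟨⟨⟨⟨gA, gB⟩, gC, gη⟩, gx⟩, hd1⟩ := hd₀ d hd
  have hd0 : (0:ℝ) < d := by exact_mod_cast hd1
  have hx : 2 * (d : ℝ) = Real.exp (Real.log (2 * d)) := (Real.exp_log (by positivity)).symm
  obtain ⟨x, hxx⟩ : ∃ x, x = Real.log (2 * (d : ℝ)) := ⟨_, rfl⟩
  simp only [← hxx] at gA gB gC gη gx hx hσ2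
  have hσ0 : 0 < σ := lt_of_lt_of_le (by positivity) hσ1
  have PM := gA d hx σ hσ1 hσ2
  have PW := (gB d hx σ hσ1 hσ2).mono_e hσ0.le he
  have tot := gC d hx σ hσ1 hσ2
  have hη0 : 0 < pη x := PM.η0
  have hxe : x ≤ Real.exp x := by linarith [Real.add_one_le_exp x]
  have hσδ : 1 ≤ σ * δ / 4 := by
    have h1 : 4 / δ + 1 ≤ σ := by linarith
    have h2 : 4 / δ ≤ σ := by linarith
    rw [div_le_iff₀ hδ] at h2
    linarith
  have hησ : pη x ≤ σ := PM.η1.trans (by linarith [show (1:ℝ) ≤ d by exact_mod_cast hd1])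
  have key := inf_main (d := d) hν (σ := σ) (η := pη x) (E₁ := σ * e - σ * δ / 2)
    (E₂ := σ * e + σ * δ / 2) (κ := p) (p := p) hσ0 hη0 (by nlinarith) hp0.le hp0.le B hBR
    (fun L _ hL E hE B' hB'c hB' => par_torus PM PW hp0 tot hν hG hlow
      (by rw [abs_le]; constructor <;> linarith [hE.1, hE.2])
      (hC ν hν σ (pη x) E hη0 hησ) hL B' hB'c hB')
    (c := (ε / 2) ^ 2) (by positivity) ?_ a
  · obtain ⟨GG, hm, hP, hGG⟩ := key
    rw [Real.sqrt_sq (by positivity)] at hP hGG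
    refine ⟨GG, hm, by linarith, fun ω hω n u E hu hev hE => ?_⟩
    have := hGG ω hω n u E hu hev (fun j => ?_)
    · linarith
    · have := abs_le.1 (hE j)
      have := PM.η1
      constructor <;> linarith
  · have e1 : (σ * e + σ * δ / 2 - (σ * e - σ * δ / 2)) = σ * δ := by ring
    rw [e1]
    have e2 : σ * δ * ((2 * (d:ℝ) + 1) ^ Rb * (Real.pi * G) ^ 2 * pη x / σ ^ 2
        + Real.pi * G / σ * (p + p))
        = (2 * (d:ℝ) + 1) ^ Rb * ((δ * (Real.pi * G) ^ 2) * pη x) / σ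
          + 2 * (Real.pi * G) * δ * p := by
      field_simp
      ring
    rw [e2]
    have e3 : 2 * (Real.pi * G) * δ * p = ε ^ 2 / 8 := by
      rw [hp]; field_simp; ring
    rw [e3]
    have hσ1' : 1 ≤ σ := by linarith [show (1:ℝ) ≤ d by exact_mod_cast hd1]
    have e4 : (2 * (d:ℝ) + 1) ^ Rb * ((δ * (Real.pi * G) ^ 2) * pη x) / σ ≤ ε ^ 2 / 8 := by
      refine (div_le_self (by positivity) hσ1').trans (le_trans ?_ gη)
      have : 2 * (d:ℝ) + 1 ≤ 2 * Real.exp x := by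
        rw [← hx]; linarith [show (1:ℝ) ≤ d by exact_mod_cast hd1]
      gcongr
    nlinarith

/-- the `ℓ¹` ball -/
noncomputable def bal (d R : ℕ) : Finset (Zd d) :=
  (Fintype.piFinset fun _ : Fin d => Finset.Icc (-(R : ℤ)) R).filter fun y => ∑ i, |y i| ≤ (R : ℤ)

lemma mem_bal {d R : ℕ} {y : Zd d} : y ∈ bal d R ↔ ∑ i, |y i| ≤ (R : ℤ) := by
  unfold bal
  rw [Finset.mem_filter, Fintype.mem_piFinset]
  refine ⟨fun h => h.2, fun h => ⟨fun i => ?_, h⟩⟩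
  have h1 : |y i| ≤ ∑ i, |y i| :=
    Finset.single_le_sum (f := fun i => |y i|) (fun i _ => abs_nonneg _) (Finset.mem_univ i)
  rw [Finset.mem_Icc]
  exact abs_le.1 (h1.trans h)

/-- a band of energies, general law -/
theorem sb_band {G b δ ρ₀ ε : ℝ} (hG : 0 < G) (hb : 0 ≤ b) (hδ : 0 < δ) (hρ₀ : 0 < ρ₀)
    (hε : 0 < ε) (hε1 : ε < 1) (R : ℕ) : ∃ d₀ : ℕ, ∀ d : ℕ, d₀ ≤ d → ∀ ν : Measure ℝ, Law ν G →
      (∀ e : ℝ, |e| ≤ b + δ → LowD ν e δ ρ₀) → ∀ σ : ℝ, 2 * (d : ℝ) ≤ |σ| →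
      |σ| ≤ (1 - ε) * (4 * ρ₀) * (2 * d) * Real.log (2 * d) → ∀ a : Zd d,
      ∃ GG : Set (Zd d → ℝ), MeasurableSet GG ∧ 1 - ε ≤ (lawZ ν d).real GG ∧
        ∀ ω ∈ GG, ∀ (n : ℕ) (u : Fin n → L2 d) (E : Fin n → ℝ), Orthonormal ℂ u →
          (∀ j x, anderson σ ω (u j) x = E j * u j x) → (∀ j, |E j| ≤ b * |σ|) →
          ∀ B : Finset (Zd d), (∀ y ∈ B, ∑ i, |y i| ≤ (R : ℤ)) →
          ∑ j, ∑ y ∈ B, ‖u j a‖ ^ 2 * ‖u j (a + y)‖ ^ 2 ≤ ε := by
  classical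
  -- the windows
  obtain ⟨m, hm⟩ : ∃ m : ℕ, m = ⌈4 * b / δ⌉₊ := ⟨_, rfl⟩
  have hm1 : 4 * b / δ ≤ m := by rw [hm]; exact Nat.le_ceil _
  have hm2 : (m : ℝ) < 4 * b / δ + 1 := by rw [hm]; exact Nat.ceil_lt_add_one (by positivity)
  obtain ⟨I, hI⟩ : ∃ I : Finset ℤ, I = Finset.Icc (-(m : ℤ)) m := ⟨_, rfl⟩
  have hIc : I.card = 2 * m + 1 := by rw [hI, Int.card_Icc]; omega
  obtain ⟨ε', hε'⟩ : ∃ ε' : ℝ, ε' = ε / (2 * m + 1) := ⟨_, rfl⟩
  have h2m : (1:ℝ) ≤ 2 * m + 1 := by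
    have : (0:ℝ) ≤ m := Nat.cast_nonneg m
    linarith
  have hε'0 : 0 < ε' := by rw [hε']; positivity
  have hε'1 : ε' ≤ ε := by rw [hε']; exact div_le_self hε.le h2m
  obtain ⟨d₀, hd₀⟩ := sb_window (e₀ := b + δ) hG hδ hρ₀ hε'0 (hε'1.trans_lt hε1) R
  refine ⟨max d₀ 1, fun d hd ν hν hlow σ hσ1 hσ2 a => ?_⟩
  have hd1 : 1 ≤ d := le_trans (le_max_right _ _) hd
  have hd0 : (0:ℝ) < d := by exact_mod_cast hd1
  have hσ0 : 0 < |σ| := lt_of_lt_of_le (by positivity) hσ1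
  have hlog : 0 ≤ Real.log (2 * (d:ℝ)) := Real.log_nonneg (by
    have : (1:ℝ) ≤ d := by exact_mod_cast hd1
    linarith)
  have hσ3 : |σ| ≤ (1 - ε') * (4 * ρ₀) * (2 * d) * Real.log (2 * d) := by
    refine hσ2.trans ?_
    gcongr
  have hbδ : |b + δ| = b + δ := abs_of_pos (by linarith)
  have he : ∀ i ∈ I, |(i : ℝ) * (δ / 4)| ≤ b + δ := by
    intro i hi
    rw [hI, Finset.mem_Icc] at hi
    have h1 : |(i:ℝ)| ≤ m := by
      rw [abs_le]; exact ⟨by exact_mod_cast hi.1, by exact_mod_cast hi.2⟩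
    rw [abs_mul, abs_of_pos (by positivity : 0 < δ / 4)]
    calc |(i:ℝ)| * (δ / 4) ≤ (4 * b / δ + 1) * (δ / 4) := by gcongr; linarith
      _ = b + δ / 4 := by field_simp
      _ ≤ b + δ := by linarith
  choose! GG hGm hGP hGG using fun i (hi : i ∈ I) => hd₀ d (le_trans (le_max_left _ _) hd) ν hν
    ((i : ℝ) * (δ / 4)) (by rw [hbδ]; exact he i hi) (hlow _ (he i hi)) |σ| hσ1 hσ3
    (bal d R) (fun y hy => mem_bal.1 hy) a
  have hprob := hν.prob
  refine ⟨⋂ i ∈ I, GG i, Finset.measurableSet_biInter I fun i hi => hGm i hi, ?_, ?_⟩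
  · have h1 : (lawZ ν d).real (⋂ i ∈ I, GG i)ᶜ ≤ ∑ i ∈ I, (lawZ ν d).real (GG i)ᶜ := by
      rw [Set.compl_iInter₂]
      exact measureReal_biUnion_finset_le _ _
    have h2 : ∀ i ∈ I, (lawZ ν d).real (GG i)ᶜ ≤ ε' := by
      intro i hi
      rw [probReal_compl_eq_one_sub (hGm i hi)]
      linarith [hGP i hi]
    have h3 : ∑ i ∈ I, (lawZ ν d).real (GG i)ᶜ ≤ ε := by
      refine (Finset.sum_le_sum h2).trans ?_
      rw [Finset.sum_const, hIc, nsmul_eq_mul, hε']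
      push_cast
      rw [mul_div_cancel₀ _ (by positivity)]
    have h4 := probReal_compl_eq_one_sub (μ := lawZ ν d)
      (Finset.measurableSet_biInter I fun i hi => hGm i hi)
    linarith
  · -- reduction to positive coupling
    have key : ∀ ω ∈ ⋂ i ∈ I, GG i, ∀ (n : ℕ) (u : Fin n → L2 d) (E : Fin n → ℝ),
        Orthonormal ℂ u → (∀ j x, anderson |σ| ω (u j) x = E j * u j x) →
        (∀ j, |E j| ≤ b * |σ|) → ∀ B : Finset (Zd d), (∀ y ∈ B, ∑ i, |y i| ≤ (R : ℤ)) →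
        ∑ j, ∑ y ∈ B, ‖u j a‖ ^ 2 * ‖u j (a + y)‖ ^ 2 ≤ ε := by
      intro ω hω n u E hu hev hE B hB
      rw [Set.mem_iInter₂] at hω
      have hBb : B ⊆ bal d R := fun y hy => mem_bal.2 (hB y hy)
      have hf : ∀ j, ∑ y ∈ B, ‖u j a‖ ^ 2 * ‖u j (a + y)‖ ^ 2
          ≤ ∑ y ∈ bal d R, ‖u j a‖ ^ 2 * ‖u j (a + y)‖ ^ 2 := fun j =>
        Finset.sum_le_sum_of_subset_of_nonneg hBb fun y _ _ => by positivity
      refine (Finset.sum_le_sum fun j _ => hf j).trans ?_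
      -- the window of an energy
      have hw : ∀ j, ∃ i ∈ I, |E j - |σ| * ((i : ℝ) * (δ / 4))| ≤ |σ| * δ / 4 := by
        intro j
        obtain ⟨t, ht⟩ : ∃ t : ℝ, t = 4 * E j / (|σ| * δ) := ⟨_, rfl⟩
        have hEt : E j = |σ| * (δ / 4) * t := by rw [ht]; field_simp
        have ht1 : |t| ≤ m := by
          refine le_trans ?_ hm1
          rw [ht, abs_div, abs_mul, abs_of_pos (by positivity : (0:ℝ) < |σ| * δ),
            abs_of_pos (by norm_num : (0:ℝ) < 4), div_le_div_iff₀ (by positivity) hδ]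
          have := hE j
          nlinarith [mul_le_mul_of_nonneg_right this hδ.le]
        refine ⟨round t, ?_, ?_⟩
        · rw [hI, Finset.mem_Icc]
          have h1 := abs_sub_round t
          have h2 := abs_le.1 h1
          have h3 := abs_le.1 ht1
          constructor
          · have : (-(m:ℝ) : ℝ) < round t + 1 := by linarith
            have : (-(m:ℤ) : ℤ) < round t + 1 := by exact_mod_cast this
            omega
          · have : (round t : ℝ) < m + 1 := by linarith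
            have : (round t : ℤ) < m + 1 := by exact_mod_cast this
            omega
        · have e1 : E j - |σ| * ((round t : ℝ) * (δ / 4)) = |σ| * (δ / 4) * (t - round t) := by
            rw [hEt]; ring
          rw [e1, abs_mul, abs_of_pos (by positivity : (0:ℝ) < |σ| * (δ / 4))]
          have h1 := abs_sub_round t
          have h2 : 0 < |σ| * (δ / 4) := by positivity
          nlinarith
      choose w hwI hwE using hw
      have h1 : ∑ j, ∑ y ∈ bal d R, ‖u j a‖ ^ 2 * ‖u j (a + y)‖ ^ 2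
          = ∑ i ∈ I, ∑ j ∈ Finset.univ.filter (fun j => w j = i),
            ∑ y ∈ bal d R, ‖u j a‖ ^ 2 * ‖u j (a + y)‖ ^ 2 :=
        (Finset.sum_fiberwise_of_maps_to (fun j _ => hwI j) _).symm
      rw [h1]
      have h2 : ∀ i ∈ I, ∑ j ∈ Finset.univ.filter (fun j => w j = i),
            ∑ y ∈ bal d R, ‖u j a‖ ^ 2 * ‖u j (a + y)‖ ^ 2 ≤ ε' := by
        intro i hi
        obtain ⟨S, hS⟩ : ∃ S : Finset (Fin n), S = Finset.univ.filter (fun j => w j = i) := ⟨_, rfl⟩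
        rw [← hS]
        obtain ⟨f⟩ : Nonempty (Fin S.card ≃ S) := ⟨S.equivFin.symm⟩
        have h3 := hGG i hi ω (hω i hi) S.card (fun k => u (f k)) (fun k => E (f k))
          (hu.comp (fun k => ((f k : S) : Fin n)) (Subtype.val_injective.comp f.injective))
          (fun k x => hev _ x) (fun k => by
            have h4' : ∀ j ∈ S, w j = i := by
              intro j hj
              rw [hS, Finset.mem_filter] at hj
              exact hj.2
            have h4 : w (f k : S) = i := h4' _ (f k).2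
            have h5 := hwE (f k : S)
            rw [h4] at h5
            exact h5)
        refine le_trans (le_of_eq ?_) h3
        rw [← Finset.sum_coe_sort]
        exact (Equiv.sum_comp f (fun j : S => ∑ y ∈ bal d R, ‖u j a‖ ^ 2 * ‖u j (a + y)‖ ^ 2)).symm
      refine (Finset.sum_le_sum h2).trans ?_
      rw [Finset.sum_const, hIc, nsmul_eq_mul, hε']
      push_cast
      rw [mul_div_cancel₀ _ (by positivity)]
    intro ω hω n u E hu hev hE B hB
    rcases abs_choice σ with hs | hs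
    · rw [hs] at key hE
      exact key ω hω n u E hu hev hE B hB
    · have h1 : ∀ j x, anderson |σ| ω (flip (u j)) x = ((-E j : ℝ) : ℂ) * flip (u j) x := by
        intro j x
        rw [hs]
        exact anderson_flip (hev j) x
      have := key ω hω n (fun j => flip (u j)) (fun j => -E j) (orthonormal_flip u hu) h1
        (fun j => by rw [abs_neg]; exact hE j) B hB
      simpa only [flip_apply, norm_mul, norm_sg, one_mul] using this

end Pool.Agent.H989.SB
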