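import Pool.Agent.H989.SB.ParRB1
import Pool.Agent.H989.SB.ParB

/-!
The conditions for the windows, uniformly in the radius.
-/

set_option linter.unusedSectionVars false
set_option linter.unusedVariables false

open Filter

namespace Pool.Agent.H989.SB

variable {ε : ℝ}

/-- Uniform version of `parB` (ParB.lean).
Proof. Copy the proof of `parB`: `parB1` -> `parRB1` (statement in ParRB1.lean, may be `sorry` there),
`master` -> `ue_master`, `pn_small` -> `ue_pn`, `pJ1_bd` as it is; facts without `Rb` by `UE.of_ev`; the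
facts which contain `pC2 ε Rb` or `Rb` follow from `ue_C2_small`, `ue_C2_cube`, `ue_R_small`: `ha`,
`hρ`: `(J₁ + 2) n + 2 ≤ pC2 x + 3 n + 2 ≤ (pC2 + 1) x`; `hRb`: `Rb ≤ pC2 x` or directly; `hKa`:
`2 a ≤ 2 ((pC2 + 1) x + 1) < exp x` with `pC2 ≤ x`; `X2`: `exp ((2 Rb + 1) x) ≤ Y₀ * Fn ^ J₁` with
`Y₀ = exp (x³ / 2)`, `ParB_Fn`, `J₁ n ≤ pC2 x + n`, `J₁ ≤ J₁ n`, so that one needs
`2 (pC2 x + n) (5/2 x + 3) + (2 Rb + 1) x ≤ x³ / 2`, from `ue_C2_cube`, `ue_pn`, `ue_R_small`. -/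
theorem parRB (hε : 0 < ε) (hε1 : ε < 1) {e δ ρ₀ Cs : ℝ} (hδ : 0 < δ) (hρ₀ : 0 < ρ₀) (hCs : 0 < Cs) :
    UE fun Rb x => ∀ d : ℕ, 2 * (d : ℝ) = Real.exp x → ∀ σ : ℝ, 2 * (d : ℝ) ≤ σ →
      σ ≤ Cs * (2 * d) * x →
      ParW e δ ρ₀ d σ (pη x) (pθ ε x) (pW ε x) (pq ε) (pM ε Rb x) (pY x) (pρ x) (pbm x) (pX Rb x)
        (pn ε Rb x) (pN ε Rb x) (pa ε Rb x) (pa ε Rb x) (pJ ε x) (pJ1 ε Rb x) Rb (ph ε x)
        (ps ε Rb x) := by
  obtain ⟨hq0, hq1⟩ := ParB_log_q hε hε1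
  obtain ⟨hm0, hm1⟩ := ParB_log_mu hε hε1
  refine (((((((((parRB1 hε hε1).and
    (UE.of_ev (ParB_exp_small (c := 3 * ε / 32) (δ := δ / 20) (by positivity) (by positivity)))).and
    (UE.of_ev (ParB_exp_small (c := 1) (δ := 1 / 4) one_pos (by norm_num)))).and
    (UE.of_ev (ParB_exp_ge_lin (2 * ((|e| + δ) * Cs)) 20 (c := 1 / 2) (by norm_num)))).and
    (ue_C2_small hε (c := 1 / 100) (by norm_num))).and
    (ue_pn hε (c := 1 / 16) (by norm_num))).and
    (UE.of_ev (pJ_bd hε hε1))).and (ue_ge 100)).and (ue_R_small (c := 1 / 100) (by norm_num))).mono ?_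
  rintro Rb x ⟨⟨⟨⟨⟨⟨⟨⟨hB1, hs1⟩, hs2⟩, hs3⟩, hCx⟩, hn⟩, hJ⟩, hx100⟩, hRs⟩
  have hC2 : 0 ≤ pC2 ε Rb := (par_pC2_pos hε).le
  have hs4 : 2 * (pC2 ε Rb + 1) * x + 2 < Real.exp (1 * x) := by
    rw [one_mul]
    have h1 := Real.pow_div_factorial_le_exp x (by linarith) 3
    have h2 : x ^ 3 / (Nat.factorial 3 : ℕ) = x * x ^ 2 / 6 := by
      have : ((Nat.factorial 3 : ℕ) : ℝ) = 6 := by norm_num [Nat.factorial]
      rw [this]
      ring
    rw [h2] at h1
    have h3 : 100 * x ^ 2 ≤ x * x ^ 2 := mul_le_mul_of_nonneg_right hx100 (sq_nonneg x)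
    nlinarith
  have hxR : (Rb : ℝ) ≤ x := by linarith
  have hxC : 2 * (2 * (Rb : ℝ) + 1 + 11 * (pC2 ε Rb + 1)) ≤ x := by linarith
  intro d hd σ hσ1 hσ2
  have hx0 : 0 < x := by linarith
  obtain ⟨hJ1, hJ2⟩ := hJ
  obtain ⟨hP1, hP2⟩ := pJ1_bd (Rb := Rb) hε x hx0
  have hn1 : (1 : ℝ) ≤ pn ε Rb x := by
    have h : 1 ≤ pn ε Rb x := by unfold pn; omega
    exact_mod_cast h
  have hd0 : 0 < Real.exp x := Real.exp_pos x
  have hcast : (2 * (d : ℝ)) = Real.exp x := hd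
  have hσe : Real.exp x ≤ σ := by rw [← hd]; exact hσ1
  have hσ2' : σ ≤ Cs * Real.exp x * x := by rw [← hd]; exact hσ2
  have hKθ : Real.exp x * pθ ε x = Real.exp ((1 - ε / 8) * x) := by
    unfold pθ
    rw [← Real.exp_add]
    congr 1
    ring
  have hW2 : pW ε x ^ 2 * (Real.exp x * pθ ε x) = Real.exp ((1 - 3 * ε / 32) * x) := by
    rw [hKθ]
    unfold pW
    rw [← Real.exp_nat_mul, ← Real.exp_add]
    congr 1
    push_cast
    ring
  have hqJ : pq ε ^ (pJ ε x + 1) ≤ Real.exp ((1 - 3 * ε / 32) * x) := by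
    have h1 : (0 : ℝ) < pq ε := by unfold pq; positivity
    rw [← Real.exp_log h1, ← Real.exp_nat_mul]
    apply Real.exp_le_exp.2
    push_cast
    have h2 : ((pJ ε x : ℝ) + 1) * Real.log (pq ε) ≤ ((pJ ε x : ℝ) + 3) * Real.log (pq ε) :=
      mul_le_mul_of_nonneg_right (by linarith) hq0.le
    nlinarith
  have hWle : pW ε x ≤ Real.exp ((1 - 3 * ε / 32) * x) := by
    unfold pW
    apply Real.exp_le_exp.2
    nlinarith
  have hs1' : Real.exp ((1 - 3 * ε / 32) * x) ≤ Real.exp x * (δ / 20) := by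
    have h1 : Real.exp ((1 - 3 * ε / 32) * x) = Real.exp x * Real.exp (-(3 * ε / 32 * x)) := by
      rw [← Real.exp_add]
      congr 1
      ring
    rw [h1]
    exact mul_le_mul_of_nonneg_left hs1 hd0.le
  have hle : Real.exp ((1 - 3 * ε / 32) * x) ≤ Real.exp x := by
    apply Real.exp_le_exp.2
    nlinarith
  have ha1 : (pC2 ε Rb + 1) * x ≤ (pa ε Rb x : ℝ) := Nat.le_ceil _
  have ha2 : (pa ε Rb x : ℝ) < (pC2 ε Rb + 1) * x + 1 :=
    Nat.ceil_lt_add_one (by positivity)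
  have hJ1n : ((pJ1 ε Rb x : ℝ) + 2) * pn ε Rb x ≤ pC2 ε Rb * x + 3 * pn ε Rb x := by
    nlinarith
  have hJ1n' : (pn ε Rb x : ℝ) * pJ1 ε Rb x ≤ (pC2 ε Rb + 1) * x := by
    linarith
  have hs_eq : ((-ps ε Rb x : ℤ) : ℝ) ≤ (pJ ε x : ℝ) / 2 ∧ ps ε Rb x ≤ 0 := by
    have hM1 : 1 ≤ pM ε Rb x := by
      unfold pM
      exact one_le_pow₀ (by unfold pmu; linarith)
    have hlM : Real.log (8 * pM ε Rb x) = Real.log 8 + pn ε Rb x * Real.log (pmu ε) := by
      rw [Real.log_mul (by norm_num) (by linarith)]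
      unfold pM
      rw [Real.log_pow]
    have hl8 : Real.log 8 ≤ 7 := by
      have := Real.log_le_sub_one_of_pos (show (0 : ℝ) < 8 by norm_num)
      linarith
    have hl80 : 0 ≤ Real.log 8 := Real.log_nonneg (by norm_num)
    have hy0 : 0 ≤ 3 * (pn ε Rb x : ℝ) + Real.log (8 * pM ε Rb x) / Real.log (pq ε) := by
      rw [hlM]
      have h1 : 0 ≤ (pn ε Rb x : ℝ) * Real.log (pmu ε) := by positivity
      positivity
    constructor
    · have h1 : ((-ps ε Rb x : ℤ) : ℝ) =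
          (⌈3 * (pn ε Rb x : ℝ) + Real.log (8 * pM ε Rb x) / Real.log (pq ε)⌉ : ℤ) := by
        unfold ps
        rw [neg_neg]
      rw [h1]
      have h2 := Int.ceil_lt_add_one (3 * (pn ε Rb x : ℝ) + Real.log (8 * pM ε Rb x) / Real.log (pq ε))
      refine h2.le.trans ?_
      rw [hlM]
      have h3 : (Real.log 8 + pn ε Rb x * Real.log (pmu ε)) / Real.log (pq ε) ≤
          (pJ ε x : ℝ) / 2 - 1 - 3 * (pn ε Rb x : ℝ) := by
        rw [div_le_iff₀ hq0]
        have h4 : (pn ε Rb x : ℝ) * Real.log (pmu ε) ≤ pn ε Rb x := by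
          nlinarith
        have h5 : (pn ε Rb x : ℝ) * Real.log (pq ε) ≤ pn ε Rb x := by
          nlinarith
        nlinarith
      linarith
    · unfold ps
      rw [neg_nonpos]
      exact Int.ceil_nonneg hy0
  refine
    { HW := ?_, ρ₀0 := hρ₀, hwin := ?_, ρb0 := ?_, ρb1 := ?_, bm1 := ?_, bm2 := ?_, bm3 := ?_,
      Y₀0 := ?_, hn := ?_, hN := ?_, h1 := ?_, h2 := ?_, h3 := ?_, hKa := ?_, ha := ?_, hρ := ?_,
      hRb := ?_, X0 := ?_, X1 := ?_, X2 := ?_ }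
  · intro z hz
    rw [hd]
    exact hB1 z hz
  · rw [hd, mul_assoc 8, hW2]
    nlinarith
  · unfold pρ; positivity
  · unfold pρ
    rw [one_mul] at hs2
    exact hs2
  · unfold pbm
    exact Real.one_le_exp (by positivity)
  · rw [hd, hKθ]
    unfold pbm
    apply Real.exp_le_exp.2
    nlinarith
  · rw [hd, mul_assoc 8, hW2]
    have h1 : pη x ≤ Real.exp x := by
      unfold pη
      apply Real.exp_le_exp.2
      have : 0 < x ^ 3 := by positivity
      linarith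
    have h2 : (|e| + δ) * σ ≤ (|e| + δ) * (Cs * Real.exp x * x) :=
      mul_le_mul_of_nonneg_left hσ2' (by positivity)
    have h3 : pbm x = Real.exp x * Real.exp (1 / 2 * x) := by
      unfold pbm
      rw [← Real.exp_add]
      congr 1
      ring
    rw [h3]
    have h4 : Real.exp x * (2 * ((|e| + δ) * Cs) * x + 20) ≤
        Real.exp x * Real.exp (1 / 2 * x) :=
      mul_le_mul_of_nonneg_left hs3.le hd0.le
    nlinarith
  · unfold pY; positivity
  · rfl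
  · unfold pN; omega
  · unfold ph; positivity
  · unfold ph
    exact_mod_cast Nat.div_le_self _ _
  · have h1 : (0 : ℤ) ≤ ph ε x := by unfold ph; positivity
    have h2 : ((ph ε x : ℤ) : ℝ) ≤ (pJ ε x : ℝ) / 2 := by
      unfold ph
      have h3 : ((pJ ε x / 2 : ℕ) : ℝ) ≤ (pJ ε x : ℝ) / (2 : ℕ) := Nat.cast_div_le
      push_cast at h3 ⊢
      exact h3
    have h3 : |ps ε Rb x - ph ε x| = -ps ε Rb x + ph ε x := by
      rw [abs_of_nonpos (by linarith [hs_eq.2])]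
      ring
    rw [h3]
    have h4 : ((-ps ε Rb x + ph ε x : ℤ) : ℝ) ≤ ((pJ ε x : ℤ) : ℝ) := by
      have h5 := hs_eq.1
      rw [Int.cast_add]
      rw [Int.cast_natCast]
      linarith
    exact_mod_cast h4
  · rw [hd]
    rw [one_mul] at hs4
    linarith
  · have h1 : ((1 + (pJ1 ε Rb x + 2) * pn ε Rb x : ℕ) : ℝ) ≤ (pa ε Rb x : ℝ) := by
      push_cast
      linarith
    exact_mod_cast h1
  · have h1 : (((pJ1 ε Rb x + 2) * pn ε Rb x + 2 : ℕ) : ℝ) ≤ (pa ε Rb x : ℝ) := by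
      push_cast
      linarith
    exact_mod_cast h1
  · have h1 : (Rb : ℝ) ≤ (pa ε Rb x : ℝ) := by
      have h2 : 0 ≤ pC2 ε Rb * x := by positivity
      linarith
    exact_mod_cast h1
  · unfold pX; positivity
  · have hmu : (0 : ℝ) < pmu ε := by unfold pmu; positivity
    have h1 : (pM ε Rb x ^ pJ1 ε Rb x) ^ 2 =
        Real.exp (2 * (pn ε Rb x * pJ1 ε Rb x) * Real.log (pmu ε)) := by
      unfold pM
      rw [← pow_mul, ← pow_mul]
      have h2 : pmu ε = Real.exp (Real.log (pmu ε)) := (Real.exp_log hmu).symm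
      rw [h2, ← Real.exp_nat_mul, Real.log_exp]
      congr 1
      push_cast
      ring
    rw [h1]
    unfold pX
    exact Real.exp_le_exp.2 hP1
  · rw [hd]
    have h1 := ParB_Fn hx0.le (pn ε Rb x)
    have h2 : Real.exp (-(2 * (pn ε Rb x * (5 / 2 * x + 2) + x))) ^ pJ1 ε Rb x ≤
        Fn (Real.exp x) (pρ x) (pbm x) (pn ε Rb x) ^ pJ1 ε Rb x :=
      pow_le_pow_left₀ (Real.exp_pos _).le h1 _
    rw [← Real.exp_nat_mul] at h2
    have h3 : pX Rb x ≤ pY x * Real.exp ((pJ1 ε Rb x : ℝ) *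
        (-(2 * (pn ε Rb x * (5 / 2 * x + 2) + x)))) := by
      unfold pX pY
      rw [← Real.exp_add]
      apply Real.exp_le_exp.2
      have hJ0 : (0 : ℝ) ≤ pJ1 ε Rb x := Nat.cast_nonneg _
      have h4 : (pJ1 ε Rb x : ℝ) ≤ (pC2 ε Rb + 1) * x := by
        refine le_trans ?_ hJ1n'
        nlinarith
      have h5 : (pJ1 ε Rb x : ℝ) * (2 * (pn ε Rb x * (5 / 2 * x + 2) + x)) ≤
          11 * (pC2 ε Rb + 1) * x ^ 2 := by
        have h6 : (pJ1 ε Rb x : ℝ) * (2 * (pn ε Rb x * (5 / 2 * x + 2) + x)) =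
            2 * (5 / 2 * x + 2) * (pn ε Rb x * pJ1 ε Rb x) + 2 * x * pJ1 ε Rb x := by ring
        rw [h6]
        have h7 : 2 * (5 / 2 * x + 2) * ((pn ε Rb x : ℝ) * pJ1 ε Rb x) ≤
            2 * (5 / 2 * x + 2) * ((pC2 ε Rb + 1) * x) :=
          mul_le_mul_of_nonneg_left hJ1n' (by positivity)
        have h8 : 2 * x * (pJ1 ε Rb x : ℝ) ≤ 2 * x * ((pC2 ε Rb + 1) * x) :=
          mul_le_mul_of_nonneg_left h4 (by positivity)
        have h9 : 0 ≤ (pC2 ε Rb + 1) * x := by positivity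
        nlinarith
      have h6 : (2 * (Rb : ℝ) + 1) * x ≤ (2 * (Rb : ℝ) + 1) * x ^ 2 := by
        apply mul_le_mul_of_nonneg_left _ (by positivity)
        nlinarith
      have h7 : (2 * (Rb : ℝ) + 1 + 11 * (pC2 ε Rb + 1)) * x ^ 2 ≤ x / 2 * x ^ 2 :=
        mul_le_mul_of_nonneg_right (by linarith) (by positivity)
      nlinarith
    refine h3.trans (mul_le_mul_of_nonneg_left h2 ?_)
    unfold pY
    positivity

end Pool.Agent.H989.SB
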