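import Pool.Agent.H989.SB.ParRC1
import Pool.Agent.H989.SB.ParRC2
import Pool.Agent.H989.SB.ParC

/-!
The total error, uniformly in the radius.
-/

set_option linter.unusedSectionVars false
set_option linter.unusedVariables false

open Filter

namespace Pool.Agent.H989.SB

variable {ε : ℝ}

/-- Uniform version of `ParC_Z` (ParC.lean); here `pJ ≤ const * x`, so one constant `A` works for all `Rb`. -/
theorem ParRC_Z (hε : 0 < ε) (hε1 : ε < 1) {G : ℝ} (hG : 0 < G) :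
    ∃ A : ℝ, 0 < A ∧ UE fun Rb x => ∀ σ : ℝ, Real.exp x ≤ σ →
      0 ≤ Real.exp x ^ pn ε Rb x * (2 * (pJ ε x : ℝ) + 1) ^ pn ε Rb x
        * pp G (pq ε) σ (pn ε Rb x) (ps ε Rb x) ∧
      Real.exp x ^ pn ε Rb x * (2 * (pJ ε x : ℝ) + 1) ^ pn ε Rb x
        * pp G (pq ε) σ (pn ε Rb x) (ps ε Rb x) ≤ (A * x) ^ pn ε Rb x := by
  have hq := ParC_pq_one hε
  have hq0 : 0 < pq ε := by linarith
  have hlq : 0 < Real.log (pq ε) := Real.log_pos hq
  refine ⟨(2 / Real.log (pq ε) + 1) * (2 * G * pq ε ^ 2), by positivity, UE.of_all ?_⟩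
  filter_upwards [pJ_bd hε hε1, eventually_ge_atTop 1] with x hJ hx Rb σ hσ
  have hK : 0 < Real.exp x := Real.exp_pos x
  have hσ0 : 0 < σ := lt_of_lt_of_le hK hσ
  set n := pn ε Rb x with hn
  have hJ1 : (pJ ε x : ℝ) ≤ x / Real.log (pq ε) := by
    rw [le_div_iff₀ hlq]
    nlinarith [hJ.1]
  have hJ2 : 2 * (pJ ε x : ℝ) + 1 ≤ (2 / Real.log (pq ε) + 1) * x := by
    have : (2 / Real.log (pq ε) + 1) * x = 2 * (x / Real.log (pq ε)) + x := by ring
    rw [this]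
    linarith
  have hJ0 : 0 ≤ 2 * (pJ ε x : ℝ) + 1 := by positivity
  have hqs : pq ε ^ ps ε Rb x ≤ 1 := ParC_ps_nonpos hε x
  have hqs0 : 0 < pq ε ^ ps ε Rb x := zpow_pos hq0 _
  have e1 : Real.exp x ^ n * (2 * (pJ ε x : ℝ) + 1) ^ n * pp G (pq ε) σ n (ps ε Rb x) =
      ((2 * (pJ ε x : ℝ) + 1) * (2 * G * pq ε ^ 2) * (Real.exp x / σ)) ^ n
        * pq ε ^ ps ε Rb x := by
    unfold pp
    rw [← mul_assoc, ← mul_pow, ← mul_pow]
    congr 2
    field_simp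
  rw [e1]
  refine ⟨by positivity, ?_⟩
  have e2 : ((2 * (pJ ε x : ℝ) + 1) * (2 * G * pq ε ^ 2) * (Real.exp x / σ)) ^ n ≤
      ((2 / Real.log (pq ε) + 1) * (2 * G * pq ε ^ 2) * x) ^ n := by
    refine pow_le_pow_left₀ (by positivity) ?_ n
    have e3 : Real.exp x / σ ≤ 1 := (div_le_one hσ0).2 hσ
    have e4 : (2 * (pJ ε x : ℝ) + 1) * (2 * G * pq ε ^ 2) * (Real.exp x / σ) ≤
        (2 * (pJ ε x : ℝ) + 1) * (2 * G * pq ε ^ 2) * 1 :=
      mul_le_mul_of_nonneg_left e3 (by positivity)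
    have e5 : (2 * (pJ ε x : ℝ) + 1) * (2 * G * pq ε ^ 2) ≤
        (2 / Real.log (pq ε) + 1) * x * (2 * G * pq ε ^ 2) :=
      mul_le_mul_of_nonneg_right hJ2 (by positivity)
    linarith
  calc ((2 * (pJ ε x : ℝ) + 1) * (2 * G * pq ε ^ 2) * (Real.exp x / σ)) ^ n * pq ε ^ ps ε Rb x
      ≤ ((2 * (pJ ε x : ℝ) + 1) * (2 * G * pq ε ^ 2) * (Real.exp x / σ)) ^ n * 1 :=
        mul_le_mul_of_nonneg_left hqs (by positivity)
    _ = ((2 * (pJ ε x : ℝ) + 1) * (2 * G * pq ε ^ 2) * (Real.exp x / σ)) ^ n := mul_one _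
    _ ≤ _ := e2

/-- Uniform version of `ParC_err` (ParC.lean). -/
theorem ParRC_err (hε : 0 < ε) (hε1 : ε < 1) {G ρ₀ : ℝ} (hG : 0 < G) (hρ₀ : 0 < ρ₀) :
    UE fun Rb x => ∀ σ : ℝ, Real.exp x ≤ σ →
      σ ≤ (1 - ε) * (4 * ρ₀) * Real.exp x * x →
      errS G σ (Real.exp x) (x ^ 6) 2 (pθ ε x) (pW ε x) ρ₀ (pρ x) (pbm x) (pq ε)
          (pn ε Rb x) (pN ε Rb x) (pa ε Rb x) (pa ε Rb x) (pJ ε x) (pJ1 ε Rb x) (ps ε Rb x)
        ≤ 2 * Real.exp (-(ε / 128 * x)) + 4 / x ^ 3 := by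
  obtain ⟨A, hA, hZ⟩ := ParRC_Z hε hε1 hG
  have hCs : 0 < (1 - ε) * (4 * ρ₀) := by
    have : 0 < 1 - ε := by linarith
    positivity
  refine (((((((hZ.and (pRT_small hε hε1 hG)).and (pRm_small hε hε1 hG hCs)).and
    (pRD_small hε hε1)).and (ZR_large hε hε1 hρ₀)).and
    (ue_master hε A hA (c := ε / 512) (by positivity))).and
    (ue_pn hε (c := 1 / 2) (by norm_num))).and (ue_ge 1)).mono ?_
  rintro Rb x ⟨⟨⟨⟨⟨⟨⟨hZx, hT⟩, hm⟩, hD⟩, hL⟩, hM⟩, hn⟩, hx⟩ σ hσ hσ2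
  obtain ⟨z0, z1⟩ := hZx σ hσ
  have hm' := hm σ hσ hσ2
  have hL' := hL σ hσ hσ2
  unfold errS
  set Z := Real.exp x ^ pn ε Rb x * (2 * (pJ ε x : ℝ) + 1) ^ pn ε Rb x
        * pp G (pq ε) σ (pn ε Rb x) (ps ε Rb x) with hZdef
  set D := (Real.exp x - 2 * pa ε Rb x) ^ pn ε Rb x
        * ((2 * pJ ε x + 1) ^ (2 * pN ε Rb x) / ((2 * pJ ε x * pN ε Rb x + 1) * (2 * pN ε Rb x)))
        * pw ρ₀ (pq ε) σ (pn ε Rb x) (ps ε Rb x) with hDdef
  set T := pT G (Real.exp x) (x ^ 6) 2 (pθ ε x) (pW ε x) (pn ε Rb x) (pa ε Rb x)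
      (pa ε Rb x) with hTdef
  set m := pm G σ (Real.exp x) (pθ ε x) (pρ x) (pbm x) (pn ε Rb x) with hmdef
  set d := pD (Real.exp x) (x ^ 6) 2 (pn ε Rb x) (pJ1 ε Rb x) with hddef
  set u := Real.exp (-(ε / 128 * x)) with hu
  have hu0 : 0 < u := Real.exp_pos _
  have h4 : Real.exp (-(1 / 4 * x)) ≤ u := by
    rw [hu]
    apply Real.exp_le_exp.2
    nlinarith
  have hρb : 2 * (pn ε Rb x : ℝ) * pρ x ≤ u := by
    have h5 : x ≤ Real.exp (x / 2) := by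
      have h6 : Real.exp (x / 2) = Real.exp (x / 4) ^ 2 := by
        rw [← Real.exp_nat_mul]
        congr 1
        push_cast
        ring
      have h7 := Real.add_one_le_exp (x / 4)
      rw [h6]
      have h8 : (x / 4 + 1) ^ 2 ≤ Real.exp (x / 4) ^ 2 := pow_le_pow_left₀ (by positivity) h7 2
      nlinarith [sq_nonneg (1 - x / 4)]
    have h6 : 2 * (pn ε Rb x : ℝ) ≤ Real.exp (x / 2) := by linarith
    calc 2 * (pn ε Rb x : ℝ) * pρ x ≤ Real.exp (x / 2) * pρ x :=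
          mul_le_mul_of_nonneg_right h6 (Real.exp_pos _).le
      _ = Real.exp (x / 2 + -x) := by rw [pρ, ← Real.exp_add]
      _ ≤ u := by
          rw [hu]
          apply Real.exp_le_exp.2
          nlinarith
  have hZ2 : Z ^ 2 ≤ Real.exp (ε / 256 * x) := by
    have h5 : Z ≤ Real.exp (ε / 512 * x) := z1.trans hM
    have h6 : Z ^ 2 ≤ Real.exp (ε / 512 * x) ^ 2 := pow_le_pow_left₀ z0 h5 2
    refine h6.trans (le_of_eq ?_)
    rw [← Real.exp_nat_mul]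
    congr 1
    push_cast
    ring
  have hx3 : 0 < x ^ 3 := by positivity
  have hDpos : 0 < D := lt_of_lt_of_le hx3 hL'
  have hS : T + d + 2 * (pn ε Rb x : ℝ) * pρ x ≤ 3 * u := by linarith
  have hnum : 1 + Z ^ 2 * (T + d + 2 * (pn ε Rb x : ℝ) * pρ x) ≤ 4 := by
    have h5 : Z ^ 2 * (T + d + 2 * (pn ε Rb x : ℝ) * pρ x) ≤ Real.exp (ε / 256 * x) * (3 * u) := by
      calc Z ^ 2 * (T + d + 2 * (pn ε Rb x : ℝ) * pρ x) ≤ Z ^ 2 * (3 * u) :=
            mul_le_mul_of_nonneg_left hS (by positivity)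
        _ ≤ _ := mul_le_mul_of_nonneg_right hZ2 (by positivity)
    have h6 : Real.exp (ε / 256 * x) * (3 * u) ≤ 3 := by
      have h7 : Real.exp (ε / 256 * x) * u ≤ 1 := by
        rw [hu, ← Real.exp_add]
        apply Real.exp_le_one_iff.2
        nlinarith
      nlinarith
    linarith
  have hfrac : (1 + Z ^ 2 * (T + d + 2 * (pn ε Rb x : ℝ) * pρ x)) / D ≤ 4 / x ^ 3 := by
    rw [div_le_div_iff₀ hDpos hx3]
    nlinarith
  have := hfrac
  linarith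

/-- Uniform version of `parC` (ParC.lean).
Proof. Copy the proofs of ParC.lean; `Z_large`, `pT_small`, `pm_small`, `pD_small` -> `ZR_large`,
`pRT_small`, `pRm_small`, `pRD_small` (statements in ParRC1.lean, ParRC2.lean, may be `sorry` there),
`master` -> `ue_master`, `pn_small` -> `ue_pn`.  Number of the stages: `pJ1 ≤ x` for all `Rb`
(`pJ1 = ⌈pC2 x / n⌉`, `n ≥ 2 pC1 log x ≥ 6 pC2 log x`).  The last term:
`(2 d + 1) ^ Rb = (exp x + 1) ^ Rb ≤ exp (Rb x) * (1 + exp (-x)) ^ Rb ≤ exp (Rb x) * exp (Rb exp (-x))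
≤ 3 exp (Rb x)` with `Rb ≤ x ≤ exp x` (`ue_R_small`), and `√(κ pX) = √κ exp ((Rb + 1/2) x)`, so it is at
most `(6 / √κ) exp (- x / 2)`. -/
theorem parRC (hε : 0 < ε) (hε1 : ε < 1) {G ρ₀ p κ : ℝ} (hG : 0 < G) (hρ₀ : 0 < ρ₀) (hp : 0 < p)
    (hκ : 0 < κ) :
    UE fun Rb x => ∀ d : ℕ, 2 * (d : ℝ) = Real.exp x → ∀ σ : ℝ, 2 * (d : ℝ) ≤ σ →
      σ ≤ (1 - ε) * (4 * ρ₀) * (2 * d) * x →
      pJ1 ε Rb x * errS G σ (2 * d) (x ^ 6) 2 (pθ ε x) (pW ε x) ρ₀ (pρ x) (pbm x) (pq ε)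
          (pn ε Rb x) (pN ε Rb x) (pa ε Rb x) (pa ε Rb x) (pJ ε x) (pJ1 ε Rb x) (ps ε Rb x)
        + (2 * d + 1) ^ Rb * 2 / √(κ * pX Rb x) ≤ p := by
  set D : ℝ := 4 / (ε / 128) ^ 2 + 4 + 12 / √κ with hD
  have hsκ : 0 < √κ := Real.sqrt_pos.2 hκ
  have hD0 : 0 < D := by positivity
  refine (((((ParRC_err hε hε1 hG hρ₀).and (ue_ge 2)).and (ue_ge (D / p))).and
    (ue_R_small (c := 1) one_pos)).and ((ue_pn_ge hε).and (ue_log_ge 1))).mono ?_
  rintro Rb x ⟨⟨⟨⟨herr, hx2⟩, hxD⟩, hRx⟩, hnl, hlog⟩ d hd σ hσ hσ2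
  have hx : 1 ≤ x := by linarith
  have hx0 : 0 < x := by linarith
  rw [hd] at hσ hσ2 ⊢
  have he := herr σ hσ hσ2
  -- the number of the stages
  have hC2 : 0 < pC2 ε Rb := par_pC2_pos hε
  have hn2 : (1 : ℝ) ≤ pn ε Rb x := by
    have : 1 ≤ pn ε Rb x := by unfold pn; omega
    exact_mod_cast this
  have hnC : 6 * pC2 ε Rb ≤ (pn ε Rb x : ℝ) := by
    have hL8 : 0 < Real.log (1 + ε / 8) := Real.log_pos (by linarith)
    have e1 : 3 * pC2 ε Rb ≤ pC1 ε Rb := by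
      have : 0 < 4 / Real.log (1 + ε / 8) := by positivity
      unfold pC1
      linarith
    have e2 : pC1 ε Rb ≤ pC1 ε Rb * Real.log x := by
      have := (par_pC1_pos (ε := ε) (Rb := Rb) hε).le
      nlinarith
    linarith
  have hJ1 : (pJ1 ε Rb x : ℝ) ≤ x := by
    have h1 := (pJ1_bd (Rb := Rb) hε x hx0).2
    have h2 : (pn ε Rb x : ℝ) * pJ1 ε Rb x ≤ pn ε Rb x * x := by
      have e1 : pC2 ε Rb * x ≤ pn ε Rb x * (x / 6) := by nlinarith
      nlinarith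
    exact le_of_mul_le_mul_left h2 (by linarith)
  have hJ0 : (0 : ℝ) ≤ pJ1 ε Rb x := Nat.cast_nonneg _
  have hB0 : 0 ≤ 2 * Real.exp (-(ε / 128 * x)) + 4 / x ^ 3 := by positivity
  have h1 : pJ1 ε Rb x * errS G σ (Real.exp x) (x ^ 6) 2 (pθ ε x) (pW ε x) ρ₀ (pρ x) (pbm x)
      (pq ε) (pn ε Rb x) (pN ε Rb x) (pa ε Rb x) (pa ε Rb x) (pJ ε x) (pJ1 ε Rb x) (ps ε Rb x)
      ≤ x * (2 * Real.exp (-(ε / 128 * x)) + 4 / x ^ 3) :=
    (mul_le_mul_of_nonneg_left he hJ0).trans (mul_le_mul_of_nonneg_right hJ1 hB0)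
  have h2 : x * Real.exp (-(ε / 128 * x)) ≤ 2 / (ε / 128) ^ 2 / x := by
    have hy : 0 < ε / 128 * x := by positivity
    have h3 := Real.quadratic_le_exp_of_nonneg hy.le
    have h4 : (ε / 128 * x) ^ 2 / 2 ≤ Real.exp (ε / 128 * x) := by linarith
    rw [Real.exp_neg, ← div_eq_mul_inv, div_div, div_le_div_iff₀ (Real.exp_pos _) (by positivity)]
    nlinarith
  have h3 : x * (4 / x ^ 3) ≤ 4 / x := by
    rw [mul_div_assoc', div_le_div_iff₀ (by positivity) hx0]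
    nlinarith [pow_pos hx0 3, mul_le_mul_of_nonneg_left hx (by positivity : (0 : ℝ) ≤ x ^ 2)]
  have h4 : (Real.exp x + 1) ^ Rb * 2 / √(κ * pX Rb x) ≤ 12 / √κ / x := by
    have h5 : √(κ * pX Rb x) = √κ * (Real.exp (Rb * x) * Real.exp (x / 2)) := by
      rw [Real.sqrt_mul hκ.le]
      congr 1
      rw [pX, ← Real.exp_add, Real.sqrt_eq_iff_mul_self_eq (Real.exp_pos _).le (Real.exp_pos _).le,
        ← Real.exp_add]
      congr 1
      ring
    have h6 : (Real.exp x + 1) ^ Rb ≤ 3 * Real.exp (Rb * x) := by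
      have h7 : Real.exp x + 1 ≤ Real.exp (x + Real.exp (-x)) := by
        have e1 := Real.add_one_le_exp (Real.exp (-x))
        have e2 : Real.exp x * Real.exp (-x) = 1 := by
          rw [← Real.exp_add, add_neg_cancel, Real.exp_zero]
        rw [Real.exp_add]
        nlinarith [Real.exp_pos x]
      have h8 : (Rb : ℝ) * Real.exp (-x) ≤ 1 := by
        have e1 := Real.add_one_le_exp x
        rw [Real.exp_neg, ← div_eq_mul_inv, div_le_one (Real.exp_pos x)]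
        linarith
      calc (Real.exp x + 1) ^ Rb ≤ Real.exp (x + Real.exp (-x)) ^ Rb :=
            pow_le_pow_left₀ (by positivity) h7 Rb
        _ = Real.exp (Rb * Real.exp (-x)) * Real.exp (Rb * x) := by
            rw [← Real.exp_nat_mul, ← Real.exp_add]
            congr 1
            ring
        _ ≤ 3 * Real.exp (Rb * x) := by
            refine mul_le_mul_of_nonneg_right ?_ (Real.exp_pos _).le
            exact (Real.exp_le_exp.2 h8).trans Real.exp_one_lt_three.le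
    have h8 : x / 2 ≤ Real.exp (x / 2) := by
      have := Real.add_one_le_exp (x / 2)
      linarith
    rw [h5, div_le_iff₀ (by positivity)]
    have h9 : 1 ≤ (2 / x) * Real.exp (x / 2) := by
      rw [div_mul_eq_mul_div, le_div_iff₀ hx0]
      linarith
    calc (Real.exp x + 1) ^ Rb * 2 ≤ 3 * Real.exp (Rb * x) * 2 :=
          mul_le_mul_of_nonneg_right h6 (by norm_num)
      _ = 6 * Real.exp (Rb * x) * 1 := by ring
      _ ≤ 6 * Real.exp (Rb * x) * ((2 / x) * Real.exp (x / 2)) :=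
          mul_le_mul_of_nonneg_left h9 (by positivity)
      _ = 12 / √κ / x * (√κ * (Real.exp (Rb * x) * Real.exp (x / 2))) := by
          field_simp
          ring
  have h5 : x * (2 * Real.exp (-(ε / 128 * x)) + 4 / x ^ 3) ≤
      2 * (2 / (ε / 128) ^ 2 / x) + 4 / x := by
    have e1 : x * (2 * Real.exp (-(ε / 128 * x)) + 4 / x ^ 3) =
        2 * (x * Real.exp (-(ε / 128 * x))) + x * (4 / x ^ 3) := by ring
    rw [e1]
    linarith
  have h6 : 2 * (2 / (ε / 128) ^ 2 / x) + 4 / x + 12 / √κ / x = D / x := by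
    rw [hD]
    field_simp
    ring
  have h7 : D / x ≤ p := by
    rw [div_le_iff₀ hx0]
    rw [div_le_iff₀ hp] at hxD
    linarith
  linarith

end Pool.Agent.H989.SB
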