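import Pool.Agent.H989.SB.ParRA
import Pool.Agent.H989.SB.ParRB
import Pool.Agent.H989.SB.ParRC
import Pool.Agent.H989.SB.Asm3
import Pool.Agent.H989.SB.FinS

/-!
Final theorems, superpolynomial spreading.
-/

set_option linter.unusedSectionVars false
set_option linter.unusedVariables false

open MeasureTheory ProbabilityTheory Finset Filter

namespace Pool.Agent.H989.SB

lemma FinS3_sqrt {d : ℝ} (hd : 1 ≤ d) (R A : ℕ) {X : ℝ} (hX : 0 < X) :
    (2 * d + 1) ^ R * 2 / √(1 / (4 * d ^ A) / 2 * X) ≤ (2 * d + 1) ^ (R + A + 1) * 2 / √(1 * X) := by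
  have hdA : 0 < d ^ A := by positivity
  have h1 : √X ≤ (2 * d + 1) ^ (A + 1) * √(1 / (4 * d ^ A) / 2 * X) := by
    rw [← Real.sqrt_sq (by positivity : (0:ℝ) ≤ (2 * d + 1) ^ (A + 1)), ← Real.sqrt_mul (by positivity)]
    apply Real.sqrt_le_sqrt
    have h2 : d ^ A ≤ (2 * d + 1) ^ A := by gcongr; linarith
    have h3 : 1 ≤ (2 * d + 1) ^ A := one_le_pow₀ (by linarith)
    have h4 : 8 * d ^ A ≤ ((2 * d + 1) ^ (A + 1)) ^ 2 := by
      have e : ((2 * d + 1) ^ (A + 1)) ^ 2 = (2 * d + 1) ^ A * (2 * d + 1) ^ A * (2 * d + 1) ^ 2 := by ring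
      rw [e]
      have h5 : 8 ≤ (2 * d + 1) ^ 2 := by nlinarith
      calc 8 * d ^ A ≤ (2 * d + 1) ^ 2 * (2 * d + 1) ^ A := by gcongr
        _ = 1 * ((2 * d + 1) ^ 2 * (2 * d + 1) ^ A) := by ring
        _ ≤ (2 * d + 1) ^ A * ((2 * d + 1) ^ 2 * (2 * d + 1) ^ A) := by gcongr
        _ = _ := by ring
    rw [← mul_assoc]
    have h6 : 1 ≤ ((2 * d + 1) ^ (A + 1)) ^ 2 * (1 / (4 * d ^ A) / 2) := by
      rw [div_div, ← mul_div_assoc, mul_one, le_div_iff₀ (by positivity)]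
      linarith
    nlinarith
  have h7 : 0 < √(1 / (4 * d ^ A) / 2 * X) := Real.sqrt_pos.2 (by positivity)
  have h8 : 0 < √X := Real.sqrt_pos.2 hX
  rw [one_mul, div_le_div_iff₀ h7 h8]
  calc (2 * d + 1) ^ R * 2 * √X
      ≤ (2 * d + 1) ^ R * 2 * ((2 * d + 1) ^ (A + 1) * √(1 / (4 * d ^ A) / 2 * X)) := by gcongr
    _ = _ := by ring

/-- one window of energies, general law -/
theorem sb_window3 {G δ ρ₀ e₀ ε : ℝ} (hG : 0 < G) (hδ : 0 < δ) (hρ₀ : 0 < ρ₀) (hε : 0 < ε)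
    (hε1 : ε < 1) : ∃ c₀ : ℝ, 0 < c₀ ∧ ∃ d₀ : ℕ, ∀ d : ℕ, d₀ ≤ d → ∀ R A : ℕ,
      ((R + A : ℕ) : ℝ) * Real.log (Real.log (2 * d)) ^ 2 ≤ c₀ * Real.log (2 * d) →
      ∀ ν : Measure ℝ, Law ν G →
      ∀ e : ℝ, |e| ≤ |e₀| → LowD ν e δ ρ₀ → ∀ σ : ℝ, 2 * (d : ℝ) ≤ σ →
      σ ≤ (1 - ε) * (4 * ρ₀) * (2 * d) * Real.log (2 * d) →
      ∀ a : Zd d,
      ∃ GG : Set (Zd d → ℝ), MeasurableSet GG ∧ 1 - ε ≤ (lawZ ν d).real GG ∧
        ∀ ω ∈ GG, ∀ (ι : Type) [Fintype ι] (u : ι → L2 d) (E : ι → ℝ), Orthonormal ℂ u →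
          (∀ j x, anderson σ ω (u j) x = E j * u j x) → (∀ j, |E j - σ * e| ≤ σ * δ / 4) →
          (∀ j, 1 ≤ (d : ℝ) ^ A * ∑ y ∈ bal d R, ‖u j (a + y)‖ ^ 2) →
          ∑ j, ‖u j a‖ ^ 2 ≤ ε := by
  obtain ⟨C, hC1, hC⟩ := one_site G hG
  have hC0 : 0 < C := by linarith
  obtain ⟨p, hp⟩ : ∃ p : ℝ, p = ε ^ 2 / (2 * (Real.pi * G) * δ) := ⟨_, rfl⟩
  have hπ := Real.pi_pos
  have hp0 : 0 < p := by rw [hp]; positivity
  have hCs : 0 < (1 - ε) * (4 * ρ₀) := by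
    have : 0 < 1 - ε := by linarith
    positivity
  have hA := parRA (ε := ε) hε hε1 hC0 (Cs := (1 - ε) * (4 * ρ₀)) hCs
  have hB := parRB (ε := ε) hε hε1 (e := e₀) hδ hρ₀ (Cs := (1 - ε) * (4 * ρ₀)) hCs
  have hCC := parRC (ε := ε) hε hε1 hG hρ₀ hp0 (κ := 1) one_pos
  have hη := ue_eta (8 * δ * (Real.pi * G) ^ 2) (c := ε ^ 2 / 2) (by positivity)
  obtain ⟨c₁, hc₁, hev⟩ := ((hA.and hB).and (hCC.and hη)).and (ue_ge (4 / δ + 1))
  have hls := par_log_sq (c := c₁ / 2) (by positivity)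
  have hall := hev.and hls
  have ht : Tendsto (fun d : ℕ => Real.log (2 * (d : ℝ))) atTop atTop :=
    Real.tendsto_log_atTop.comp (Tendsto.const_mul_atTop (by norm_num) tendsto_natCast_atTop_atTop)
  obtain ⟨d₀, hd₀⟩ := eventually_atTop.1 ((ht.eventually hall).and (eventually_ge_atTop 1))
  refine ⟨c₁ / 2, by positivity, d₀, fun d hd R A hRA ν hν e he hlow σ hσ1 hσ2 a => ?_⟩
  obtain ⟨⟨hev', hls'⟩, hd1⟩ := hd₀ d hd
  have hRb : ((R + A + 1 : ℕ) : ℝ) * Real.log (Real.log (2 * d)) ^ 2 ≤ c₁ * Real.log (2 * d) := by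
    push_cast at hRA ⊢
    linarith
  obtain ⟨⟨⟨gA, gB⟩, gC, gη⟩, gx⟩ := hev' (R + A + 1) hRb
  have hd1' : (1:ℝ) ≤ d := by exact_mod_cast hd1
  have hd0 : (0:ℝ) < d := by linarith
  have hx : 2 * (d : ℝ) = Real.exp (Real.log (2 * d)) := (Real.exp_log (by positivity)).symm
  obtain ⟨x, hxx⟩ : ∃ x, x = Real.log (2 * (d : ℝ)) := ⟨_, rfl⟩
  simp only [← hxx] at gA gB gC gη gx hx hσ2
  have hσ0 : 0 < σ := lt_of_lt_of_le (by positivity) hσ1
  have PM := gA d hx σ hσ1 hσ2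
  have PW := (gB d hx σ hσ1 hσ2).mono_e hσ0.le he
  have tot := gC d hx σ hσ1 hσ2
  have hη0 : 0 < pη x := PM.η0
  have hxe : x ≤ Real.exp x := by linarith [Real.add_one_le_exp x]
  have hσδ : 1 ≤ σ * δ / 4 := by
    have h1 : 4 / δ + 1 ≤ σ := by linarith
    have h2 : 4 / δ ≤ σ := by linarith
    rw [div_le_iff₀ hδ] at h2
    linarith
  have hησ : pη x ≤ σ := PM.η1.trans (by linarith)
  obtain ⟨θ, hθ⟩ : ∃ θ : ℝ, θ = 1 / (4 * (d : ℝ) ^ A) := ⟨_, rfl⟩
  have hdA : 0 < (d : ℝ) ^ A := by positivity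
  have hθ0 : 0 < θ := by rw [hθ]; positivity
  have key := inf_main3 (d := d) hν (σ := σ) (η := pη x) (E₁ := σ * e - σ * δ / 2)
    (E₂ := σ * e + σ * δ / 2) (θ := θ) (p := p) hσ0 hη0 (by nlinarith) hθ0 hp0.le
    (R := R) (bal d R) (fun y hy => mem_bal.1 hy)
    (fun L _ hL E hE B' hB'c hB' => par_torus3 (D := (2 * d + 1) ^ R) PM PW (by positivity) (by
        refine le_trans ?_ tot
        have := FinS3_sqrt hd1' R A (X := pX (R + A + 1) x) PW.X0
        rw [hθ]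
        linarith) hν hG hlow
      (by rw [abs_le]; constructor <;> linarith [hE.1, hE.2])
      (hC ν hν σ (pη x) E hη0 hησ) hL B' (by exact_mod_cast hB'c)
        (fun y hy => (hB' y hy).trans (by omega)))
    (c := ε ^ 2) (by positivity) ?_ a
  · obtain ⟨GG, hm, hP, hGG⟩ := key
    rw [Real.sqrt_sq (by positivity)] at hP hGG
    refine ⟨GG, hm, hP, fun ω hω ι _ u E hu hev hE hmass => ?_⟩
    refine hGG ω hω ι u E hu hev (fun j => ?_) (fun j => ?_)
    · have := abs_le.1 (hE j)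
      have := PM.η1
      constructor <;> linarith
    · have h1 := hmass j
      have h2 : 1 / (d : ℝ) ^ A ≤ ∑ y ∈ bal d R, ‖u j (a + y)‖ ^ 2 := by
        rw [div_le_iff₀ hdA]
        linarith
      have h3 : 2 * θ < 1 / (d : ℝ) ^ A := by
        rw [hθ, mul_one_div, div_lt_div_iff₀ (by positivity) hdA]
        linarith
      linarith
  · have e1 : (σ * e + σ * δ / 2 - (σ * e - σ * δ / 2)) = σ * δ := by ring
    rw [e1]
    have e2 : σ * δ * (Real.pi * G / σ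
        * (p + 2 * (2 * (d:ℝ) + 1) ^ R * pη x * (Real.pi * G / σ) / θ))
        = (Real.pi * G) * δ * p
          + (2 * (d:ℝ) + 1) ^ R * (d : ℝ) ^ A * ((8 * δ * (Real.pi * G) ^ 2) * pη x) / σ := by
      rw [hθ]
      field_simp
      ring
    rw [e2]
    have e3 : (Real.pi * G) * δ * p = ε ^ 2 / 2 := by
      rw [hp]; field_simp
    rw [e3]
    have hσ1' : 1 ≤ σ := by linarith
    have e4 : (2 * (d:ℝ) + 1) ^ R * (d : ℝ) ^ A * ((8 * δ * (Real.pi * G) ^ 2) * pη x) / σ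
        ≤ ε ^ 2 / 2 := by
      refine (div_le_self (by positivity) hσ1').trans (le_trans ?_ gη)
      have h5 : 2 * (d:ℝ) + 1 ≤ 2 * Real.exp x := by
        rw [← hx]; linarith
      have h6 : (d:ℝ) ≤ 2 * Real.exp x := by linarith
      have h7 : (2 * (d:ℝ) + 1) ^ R * (d : ℝ) ^ A ≤ (2 * Real.exp x) ^ (R + A + 1) := by
        calc (2 * (d:ℝ) + 1) ^ R * (d : ℝ) ^ A ≤ (2 * Real.exp x) ^ R * (2 * Real.exp x) ^ A := by
              gcongr
          _ = (2 * Real.exp x) ^ (R + A) := by rw [pow_add]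
          _ ≤ _ := pow_le_pow_right₀ (by linarith) (by omega)
      gcongr
    linarith

/-- a band of energies, general law -/
theorem sb_band3 {G b δ ρ₀ ε : ℝ} (hG : 0 < G) (hb : 0 ≤ b) (hδ : 0 < δ) (hρ₀ : 0 < ρ₀)
    (hε : 0 < ε) (hε1 : ε < 1) : ∃ c₀ : ℝ, 0 < c₀ ∧ ∃ d₀ : ℕ, ∀ d : ℕ, d₀ ≤ d → ∀ R A : ℕ,
      ((R + A : ℕ) : ℝ) * Real.log (Real.log (2 * d)) ^ 2 ≤ c₀ * Real.log (2 * d) →
      ∀ ν : Measure ℝ, Law ν G →
      (∀ e : ℝ, |e| ≤ b + δ → LowD ν e δ ρ₀) → ∀ σ : ℝ, 2 * (d : ℝ) ≤ |σ| →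
      |σ| ≤ (1 - ε) * (4 * ρ₀) * (2 * d) * Real.log (2 * d) → ∀ a : Zd d,
      ∃ GG : Set (Zd d → ℝ), MeasurableSet GG ∧ 1 - ε ≤ (lawZ ν d).real GG ∧
        ∀ ω ∈ GG, ∀ (ι : Type) [Fintype ι] (u : ι → L2 d) (E : ι → ℝ), Orthonormal ℂ u →
          (∀ j x, anderson σ ω (u j) x = E j * u j x) → (∀ j, |E j| ≤ b * |σ|) →
          (∀ j, 1 ≤ (d : ℝ) ^ A * ∑ y ∈ bal d R, ‖u j (a + y)‖ ^ 2) →
          ∑ j, ‖u j a‖ ^ 2 ≤ ε := by
  classical
  -- the windows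
  obtain ⟨m, hm⟩ : ∃ m : ℕ, m = ⌈4 * b / δ⌉₊ := ⟨_, rfl⟩
  have hm1 : 4 * b / δ ≤ m := by rw [hm]; exact Nat.le_ceil _
  have hm2 : (m : ℝ) < 4 * b / δ + 1 := by rw [hm]; exact Nat.ceil_lt_add_one (by positivity)
  obtain ⟨I, hI⟩ : ∃ I : Finset ℤ, I = Finset.Icc (-(m : ℤ)) m := ⟨_, rfl⟩
  have hIc : I.card = 2 * m + 1 := by rw [hI, Int.card_Icc]; omega
  obtain ⟨ε', hε'⟩ : ∃ ε' : ℝ, ε' = ε / (2 * m + 1) := ⟨_, rfl⟩
  have h2m : (1:ℝ) ≤ 2 * m + 1 := by
    have : (0:ℝ) ≤ m := Nat.cast_nonneg m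
    linarith
  have hε'0 : 0 < ε' := by rw [hε']; positivity
  have hε'1 : ε' ≤ ε := by rw [hε']; exact div_le_self hε.le h2m
  obtain ⟨c₀, hc₀, d₀, hd₀⟩ := sb_window3 (e₀ := b + δ) hG hδ hρ₀ hε'0 (hε'1.trans_lt hε1)
  refine ⟨c₀, hc₀, max d₀ 1, fun d hd R A hRA ν hν hlow σ hσ1 hσ2 a => ?_⟩
  have hd1 : 1 ≤ d := le_trans (le_max_right _ _) hd
  have hd0 : (0:ℝ) < d := by exact_mod_cast hd1
  have hσ0 : 0 < |σ| := lt_of_lt_of_le (by positivity) hσ1
  have hlog : 0 ≤ Real.log (2 * (d:ℝ)) := Real.log_nonneg (by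
    have : (1:ℝ) ≤ d := by exact_mod_cast hd1
    linarith)
  have hσ3 : |σ| ≤ (1 - ε') * (4 * ρ₀) * (2 * d) * Real.log (2 * d) := by
    refine hσ2.trans ?_
    gcongr
  have hbδ : |b + δ| = b + δ := abs_of_pos (by linarith)
  have he : ∀ i ∈ I, |(i : ℝ) * (δ / 4)| ≤ b + δ := by
    intro i hi
    rw [hI, Finset.mem_Icc] at hi
    have h1 : |(i:ℝ)| ≤ m := by
      rw [abs_le]; exact ⟨by exact_mod_cast hi.1, by exact_mod_cast hi.2⟩
    rw [abs_mul, abs_of_pos (by positivity : 0 < δ / 4)]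
    calc |(i:ℝ)| * (δ / 4) ≤ (4 * b / δ + 1) * (δ / 4) := by gcongr; linarith
      _ = b + δ / 4 := by field_simp
      _ ≤ b + δ := by linarith
  choose! GG hGm hGP hGG using fun i (hi : i ∈ I) => hd₀ d (le_trans (le_max_left _ _) hd) R A hRA ν hν
    ((i : ℝ) * (δ / 4)) (by rw [hbδ]; exact he i hi) (hlow _ (he i hi)) |σ| hσ1 hσ3 a
  have hprob := hν.prob
  refine ⟨⋂ i ∈ I, GG i, Finset.measurableSet_biInter I fun i hi => hGm i hi, ?_, ?_⟩
  · have h1 : (lawZ ν d).real (⋂ i ∈ I, GG i)ᶜ ≤ ∑ i ∈ I, (lawZ ν d).real (GG i)ᶜ := by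
      rw [Set.compl_iInter₂]
      exact measureReal_biUnion_finset_le _ _
    have h2 : ∀ i ∈ I, (lawZ ν d).real (GG i)ᶜ ≤ ε' := by
      intro i hi
      rw [probReal_compl_eq_one_sub (hGm i hi)]
      linarith [hGP i hi]
    have h3 : ∑ i ∈ I, (lawZ ν d).real (GG i)ᶜ ≤ ε := by
      refine (Finset.sum_le_sum h2).trans ?_
      rw [Finset.sum_const, hIc, nsmul_eq_mul, hε']
      push_cast
      rw [mul_div_cancel₀ _ (by positivity)]
    have h4 := probReal_compl_eq_one_sub (μ := lawZ ν d)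
      (Finset.measurableSet_biInter I fun i hi => hGm i hi)
    linarith
  · -- reduction to positive coupling
    have key : ∀ ω ∈ ⋂ i ∈ I, GG i, ∀ (ι : Type) [Fintype ι] (u : ι → L2 d) (E : ι → ℝ),
        Orthonormal ℂ u → (∀ j x, anderson |σ| ω (u j) x = E j * u j x) →
        (∀ j, |E j| ≤ b * |σ|) →
        (∀ j, 1 ≤ (d : ℝ) ^ A * ∑ y ∈ bal d R, ‖u j (a + y)‖ ^ 2) →
        ∑ j, ‖u j a‖ ^ 2 ≤ ε := by
      intro ω hω ι _ u E hu hev hE hmass
      rw [Set.mem_iInter₂] at hω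
      -- the window of an energy
      have hw : ∀ j, ∃ i ∈ I, |E j - |σ| * ((i : ℝ) * (δ / 4))| ≤ |σ| * δ / 4 := by
        intro j
        obtain ⟨t, ht⟩ : ∃ t : ℝ, t = 4 * E j / (|σ| * δ) := ⟨_, rfl⟩
        have hEt : E j = |σ| * (δ / 4) * t := by rw [ht]; field_simp
        have ht1 : |t| ≤ m := by
          refine le_trans ?_ hm1
          rw [ht, abs_div, abs_mul, abs_of_pos (by positivity : (0:ℝ) < |σ| * δ),
            abs_of_pos (by norm_num : (0:ℝ) < 4), div_le_div_iff₀ (by positivity) hδ]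
          have := hE j
          nlinarith [mul_le_mul_of_nonneg_right this hδ.le]
        refine ⟨round t, ?_, ?_⟩
        · rw [hI, Finset.mem_Icc]
          have h1 := abs_sub_round t
          have h2 := abs_le.1 h1
          have h3 := abs_le.1 ht1
          constructor
          · have : (-(m:ℝ) : ℝ) < round t + 1 := by linarith
            have : (-(m:ℤ) : ℤ) < round t + 1 := by exact_mod_cast this
            omega
          · have : (round t : ℝ) < m + 1 := by linarith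
            have : (round t : ℤ) < m + 1 := by exact_mod_cast this
            omega
        · have e1 : E j - |σ| * ((round t : ℝ) * (δ / 4)) = |σ| * (δ / 4) * (t - round t) := by
            rw [hEt]; ring
          rw [e1, abs_mul, abs_of_pos (by positivity : (0:ℝ) < |σ| * (δ / 4))]
          have h1 := abs_sub_round t
          have h2 : 0 < |σ| * (δ / 4) := by positivity
          nlinarith
      choose w hwI hwE using hw
      have h1 : ∑ j, ‖u j a‖ ^ 2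
          = ∑ i ∈ I, ∑ j ∈ Finset.univ.filter (fun j => w j = i), ‖u j a‖ ^ 2 :=
        (Finset.sum_fiberwise_of_maps_to (fun j _ => hwI j) _).symm
      rw [h1]
      have h2 : ∀ i ∈ I, ∑ j ∈ Finset.univ.filter (fun j => w j = i), ‖u j a‖ ^ 2 ≤ ε' := by
        intro i hi
        have h3 := hGG i hi ω (hω i hi) {j : ι // w j = i} (fun k => u k) (fun k => E k)
          (hu.comp _ Subtype.val_injective) (fun k x => hev _ x) (fun k => by
            have h5 := hwE (k : ι)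
            rw [k.2] at h5
            exact h5) (fun k => hmass k)
        refine le_trans (le_of_eq ?_) h3
        exact (Finset.sum_subtype (Finset.univ.filter fun j => w j = i) (fun j => by simp)
          fun j => ‖u j a‖ ^ 2)
      refine (Finset.sum_le_sum h2).trans ?_
      rw [Finset.sum_const, hIc, nsmul_eq_mul, hε']
      push_cast
      rw [mul_div_cancel₀ _ (by positivity)]
    intro ω hω ι _ u E hu hev hE hmass
    rcases abs_choice σ with hs | hs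
    · rw [hs] at key hE
      exact key ω hω ι u E hu hev hE hmass
    · have h1 : ∀ j x, anderson |σ| ω (flip (u j)) x = ((-E j : ℝ) : ℂ) * flip (u j) x := by
        intro j x
        rw [hs]
        exact anderson_flip (hev j) x
      have := key ω hω ι (fun j => flip (u j)) (fun j => -E j) (orthonormal_flip u hu) h1
        (fun j => by rw [abs_neg]; exact hE j) (by
          simpa only [flip_apply, norm_mul, norm_sg, one_mul] using hmass)
      simpa only [flip_apply, norm_mul, norm_sg, one_mul] using this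

end Pool.Agent.H989.SB
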