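import Pool.Agent.H989.SB.StgC
import Pool.Agent.H989.SB.Cnt

/-!
Induction over the stages.
-/

set_option linter.unusedSectionVars false
set_option linter.unusedVariables false

open MeasureTheory ProbabilityTheory Finset

namespace Pool.Agent.H989.SB

/-- the factor of the norms in one stage -/
noncomputable def Fn (K ρb bm : ℝ) (n : ℕ) : ℝ := ((ρb / (2 * bm)) ^ n / (1 + n * K)) ^ 2

/-- the error of one stage; `J₁` is the number of the stages -/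
noncomputable def errS (G σ K Θ Ψ θ W ρ₀ ρb bm q : ℝ) (n N a ρ J J₁ : ℕ) (s : ℤ) : ℝ :=
  pT G K Θ Ψ θ W n a ρ + pm G σ K θ ρb bm n
    + (1 + (K ^ n * (2 * J + 1) ^ n * pp G q σ n s) ^ 2
        * (pT G K Θ Ψ θ W n a ρ + pD K Θ Ψ n J₁ + 2 * n * ρb))
      / ((K - 2 * a) ^ n * ((2 * J + 1) ^ (2 * N) / ((2 * J * N + 1) * (2 * N))) * pw ρ₀ q σ n s)

variable {d L : ℕ} [NeZero L] {ν : Measure ℝ} {G σ : ℝ} {z : ℂ} {K Θ Ψ θ W : ℝ} {n N a ρ : ℕ}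
  {e δ ρ₀ ρb bm q M Y₀ : ℝ} {J J₁ : ℕ} {h₀ s : ℤ}

/-- `0 ≤ Fn ≤ 1` -/
theorem Fn_bd (hK : 0 ≤ K) (h0 : 0 < ρb) (h1 : ρb ≤ 1 / 4) (hb : 1 ≤ bm) (n : ℕ) :
    0 < Fn K ρb bm n ∧ Fn K ρb bm n ≤ 1 := by
  have hb0 : 0 < 2 * bm := by linarith
  have h2 : 0 < ρb / (2 * bm) := div_pos h0 hb0
  have h3 : ρb / (2 * bm) ≤ 1 := by
    rw [div_le_one hb0]; linarith
  have h4 : 0 < (ρb / (2 * bm)) ^ n := pow_pos h2 n
  have h5 : (ρb / (2 * bm)) ^ n ≤ 1 := pow_le_one₀ h2.le h3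
  have hnK : 0 ≤ (n : ℝ) * K := mul_nonneg (Nat.cast_nonneg n) hK
  have h6 : 0 < 1 + (n : ℝ) * K := by linarith
  have h7 : 0 < (ρb / (2 * bm)) ^ n / (1 + n * K) := div_pos h4 h6
  have h8 : (ρb / (2 * bm)) ^ n / (1 + n * K) ≤ 1 := by
    rw [div_le_one h6]; linarith
  unfold Fn
  exact ⟨pow_pos h7 2, pow_le_one₀ h7.le h8⟩

/-- the hypotheses of a stage for smaller norms (`WinP.him`) -/
theorem StH.mono (S : StH d L ν G σ z K Θ Ψ θ W n a ρ e δ ρ₀ ρb bm q M Y₀ (Y₀ * Fn K ρb bm n) J h₀ s)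
    (hY₀ : 0 ≤ Y₀) (j : ℕ) :
    StH d L ν G σ z K Θ Ψ θ W n a ρ e δ ρ₀ ρb bm q M (Y₀ * Fn K ρb bm n ^ j)
      (Y₀ * Fn K ρb bm n ^ (j + 1)) J h₀ s := by
  have hK0 : 0 ≤ K := le_trans (le_trans zero_le_one S.H.hΘ) S.H.hΘK
  obtain ⟨f0, f1⟩ := Fn_bd hK0 S.ρb0 S.ρb1 S.bm1 n
  have hle : Y₀ * Fn K ρb bm n ^ j ≤ Y₀ :=
    mul_le_of_le_one_right hY₀ (pow_le_one₀ f0.le f1)
  have hz := S.H.hz
  have hW := S.HW
  refine ⟨S.H, ⟨hW.cst, hW.cst2, hW.h48, hW.n1, hW.q1, hW.q2, hW.lo, hW.hi, hW.dl, hW.M2, hW.hs,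
    hW.hh, hW.hM, hW.hKW, ?_, hW.hp⟩, S.lowd, S.ρ₀0, S.hwin, S.ρb0, S.ρb1, S.bm1, S.bm2, S.bm3, ?_⟩
  · refine le_trans ?_ hW.him
    exact mul_le_mul_of_nonneg_left hle (mul_nonneg hz.le (pow_nonneg hK0 _))
  · refine le_of_eq ?_
    rw [pow_succ, ← mul_assoc]
    rfl

/-- stage zero: the set `U = ∅`, `chi Λ o o = 1` (`chi_self`) and `chi Λ x o = 0` for the other
`x ∈ Λ` (`chi_of_mem`) -/
theorem stage_zero (hL : 5 ≤ L) (hz : 0 < z.im) {A : Finset (Fin d)} {Λ : Finset (Tor d L)}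
    {o : Tor d L} (hΛ : Around A o Λ) {Y : ℝ} (ξ : Tor d L → ℝ) :
    Wj n σ z M Y 0 A Λ o ξ := by
  have hN : Steps (NN d L) := steps_ND (le_trans (by norm_num) hL) _
  have hv : o + vec (∅ : Finset (St d)) = o := by
    unfold vec
    rw [Finset.sum_empty, add_zero]
  have h1 : chi (NN d L) Λ (pot σ ξ) z o o = 1 := chi_self hN hz hΛ.1
  left
  refine ⟨∅, fun s hs => absurd hs (Finset.notMem_empty s), fun s hs => absurd hs (Finset.notMem_empty s),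
    by rw [Finset.card_empty, Nat.zero_mul], ?_, ?_⟩
  · rw [hv, h1, pow_zero, norm_one]
  · intro x hx
    rw [hv, h1, norm_one]
    by_cases hxo : x = o
    · rw [hxo, h1, norm_one]
    · rw [chi_of_mem hN hz hΛ.1 (fun h => hxo h.symm), norm_zero]
      exact zero_le_one

/-- the last term of `stage` is increasing in the number of the pairs in the numerator, decreasing in
the denominator -/
theorem Ind_frac {Z Zu Zl P P' Q p : ℝ} (hZ : 0 < Z) (h1 : Z ≤ Zu) (h2 : Zl ≤ Z) (h3 : 0 < Zl)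
    (hp : 0 ≤ p) (hP : 0 ≤ P) (hPP : P ≤ P') (hQ : 0 < Q) :
    (1 + (Z * p) ^ 2 * P) / (Z * Q) ≤ (1 + (Zu * p) ^ 2 * P') / (Zl * Q) := by
  have h4 : 0 ≤ Z * p := mul_nonneg hZ.le hp
  have h5 : Z * p ≤ Zu * p := mul_le_mul_of_nonneg_right h1 hp
  have h6 : (Z * p) ^ 2 ≤ (Zu * p) ^ 2 := pow_le_pow_left₀ h4 h5 2
  have h7 : (Z * p) ^ 2 * P ≤ (Zu * p) ^ 2 * P' := mul_le_mul h6 hPP hP (sq_nonneg _)
  have h8 : 0 ≤ (Z * p) ^ 2 * P := mul_nonneg (sq_nonneg _) hP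
  exact div_le_div₀ (by linarith) (by linarith) (mul_pos h3 hQ)
    (mul_le_mul_of_nonneg_right h2 hQ.le)

/-- the failure of the typical event: nonnegative -/
theorem Ind_pT (H : TypH d L ν G σ z K Θ Ψ θ W n a ρ) : 0 ≤ pT G K Θ Ψ θ W n a ρ := by
  have h1 := H.hΨ
  have h2 := H.hΘ
  have h3 := H.hW
  have h4 := H.hθ
  have h5 := H.hG
  unfold pT Bn
  positivity

/-- the deep event: nonnegative and increasing -/
theorem Ind_pD (H : TypH d L ν G σ z K Θ Ψ θ W n a ρ) {i j : ℕ} (hij : i ≤ j) :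
    0 ≤ pD K Θ Ψ n i ∧ pD K Θ Ψ n i ≤ pD K Θ Ψ n j := by
  have h1 := H.hΨ
  have h2 := H.hΘ
  have h3 := H.hΘK
  have hK0 : 0 < K := by linarith
  have hΘ0 : 0 < Θ := by linarith
  have hΨ0 : 0 < Ψ := by linarith
  unfold pD
  refine ⟨by positivity, ?_⟩
  have h4 : Θ ^ ((i + 2) * n) ≤ Θ ^ ((j + 2) * n) :=
    pow_le_pow_right₀ h2 (Nat.mul_le_mul_right n (by omega))
  have h5 : 0 ≤ ((n : ℝ) + 1) ^ 2 * 2 ^ n * Ψ := by positivity
  exact div_le_div_of_nonneg_right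
    (mul_le_mul_of_nonneg_right (mul_le_mul_of_nonneg_left h4 h5) hK0.le) (pow_pos hK0 n).le

/-- the error of one stage, lower bound -/
theorem Ind_err (S : StH d L ν G σ z K Θ Ψ θ W n a ρ e δ ρ₀ ρb bm q M Y₀ (Y₀ * Fn K ρb bm n) J h₀ s)
    (hn : n = 2 * N + 2) (hN : 0 < N) (hKa : 2 * (a : ℝ) < K) {j : ℕ} (hj : j ≤ J₁)
    {A : Finset (Fin d)} (hA : A.card + n ≤ a) {g t : ℕ}
    (hg1 : (2 * (d - (A.card + n))) ^ n ≤ g) (hg2 : g ≤ (2 * d) ^ n)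
    (ht1 : (2 * J + 1) ^ (2 * N) ≤ (2 * J * N + 1) * (2 * N) * t)
    (ht2 : t ≤ (2 * J + 1) ^ (2 * N + 2)) :
    0 < (g : ℝ) * t ∧
    pT G K Θ Ψ θ W n a ρ + pm G σ K θ ρb bm n
        + (1 + ((g : ℝ) * t * pp G q σ n s) ^ 2
            * (pT G K Θ Ψ θ W n a ρ + pD K Θ Ψ n j + 2 * n * ρb))
          / ((g : ℝ) * t * pw ρ₀ q σ n s)
      ≤ errS G σ K Θ Ψ θ W ρ₀ ρb bm q n N a ρ J J₁ s := by
  have hK : K = 2 * (d : ℝ) := S.H.hK
  have hK0 : 0 < K := lt_of_le_of_lt (by positivity) hKa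
  have hσ0 : 0 < σ := lt_of_lt_of_le hK0 S.H.hσ
  have hq := S.HW.q1
  have hq0 : 0 < q := by linarith
  have hq1 : 0 < q - 1 := by linarith
  have hG := S.H.hG
  have hρ₀ := S.ρ₀0
  have hρb := S.ρb0
  -- the number of the paths
  have had : a ≤ d := by
    have : (a : ℝ) < d := by rw [hK] at hKa; linarith
    exact_mod_cast this.le
  have hg3 : (K - 2 * a) ^ n ≤ (g : ℝ) := by
    have e1 : ((2 * (d - (A.card + n)) : ℕ) : ℝ) = 2 * ((d : ℝ) - (A.card + n)) := by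
      rw [Nat.cast_mul, Nat.cast_sub (hA.trans had)]
      push_cast
      ring
    have e2 : K - 2 * a ≤ ((2 * (d - (A.card + n)) : ℕ) : ℝ) := by
      rw [e1, hK]
      have : ((A.card : ℝ) + n) ≤ a := by exact_mod_cast hA
      linarith
    calc (K - 2 * a) ^ n ≤ ((2 * (d - (A.card + n)) : ℕ) : ℝ) ^ n :=
          pow_le_pow_left₀ (by linarith) e2 n
      _ = (((2 * (d - (A.card + n))) ^ n : ℕ) : ℝ) := by rw [Nat.cast_pow]
      _ ≤ g := by exact_mod_cast hg1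
  have hg4 : (g : ℝ) ≤ K ^ n := by
    calc (g : ℝ) ≤ (((2 * d) ^ n : ℕ) : ℝ) := by exact_mod_cast hg2
      _ = K ^ n := by rw [Nat.cast_pow, hK]; push_cast; rfl
  have hNN : (0 : ℝ) < (2 * J * N + 1) * (2 * N) := by
    have : (0 : ℝ) < N := by exact_mod_cast hN
    positivity
  have ht3 : ((2 * (J : ℝ) + 1) ^ (2 * N) / ((2 * J * N + 1) * (2 * N))) ≤ (t : ℝ) := by
    rw [div_le_iff₀ hNN, mul_comm (t : ℝ)]
    exact_mod_cast ht1
  have ht4 : (t : ℝ) ≤ (2 * (J : ℝ) + 1) ^ n := by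
    rw [hn]
    exact_mod_cast ht2
  have ht5 : 0 < ((2 * (J : ℝ) + 1) ^ (2 * N) / ((2 * J * N + 1) * (2 * N))) :=
    div_pos (by positivity) hNN
  have hg5 : 0 < (K - 2 * a) ^ n := pow_pos (by linarith) n
  have hgt : 0 < (g : ℝ) * t := mul_pos (hg5.trans_le hg3) (ht5.trans_le ht3)
  refine ⟨hgt, ?_⟩
  have hP := Ind_pT S.H
  obtain ⟨hD0, hD1⟩ := Ind_pD S.H hj
  have hnb : 0 ≤ 2 * (n : ℝ) * ρb := by positivity
  have hpp : 0 ≤ pp G q σ n s := by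
    unfold pp
    positivity
  have hpw : 0 < pw ρ₀ q σ n s := by
    unfold pw
    have : 0 < 2 * ρ₀ * (q - 1) / σ := by positivity
    positivity
  have hfr := Ind_frac (P := pT G K Θ Ψ θ W n a ρ + pD K Θ Ψ n j + 2 * n * ρb)
    (P' := pT G K Θ Ψ θ W n a ρ + pD K Θ Ψ n J₁ + 2 * n * ρb) hgt
    (mul_le_mul hg4 ht4 (Nat.cast_nonneg t) (pow_nonneg hK0.le n))
    (mul_le_mul hg3 ht3 ht5.le (Nat.cast_nonneg g)) (mul_pos hg5 ht5) hpp
    (by linarith) (by linarith) hpw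
  unfold errS
  linarith

/-- Induction over the stages.
Proof. Induction on `j`; `j = 0`: `stage_zero`.  Step: `exists_G`, `exists_T` (`n = 2 N + 2`), `stage`
with `StH.mono`, `u = j * err`; for `γ ∈ 𝒢` the induction hypothesis applies to `A ∪ dirs γ`,
`full Λ (sites o γ)`, `ept o γ` (`around_full_end`, `card_dirs`, `card_full_sites`; the distances of
the points of `full Λ (sites o γ)` to `ept o γ` are at most `wt (x - o) + n`, or at most `n`).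
The last term of `stage` is increasing in `Z = #𝒢 #𝒯` in the numerator, where
`Z ≤ K^n (2J+1)^n`, and `Z ≥ (K - 2a)^n (2J+1)^(2N) / ((2JN+1)(2N))`; `pD` is increasing in `j`. -/
theorem stages [IsProbabilityMeasure ν]
    (S : StH d L ν G σ z K Θ Ψ θ W n a ρ e δ ρ₀ ρb bm q M Y₀ (Y₀ * Fn K ρb bm n) J h₀ s)
    (hY₀ : 0 ≤ Y₀) (hn : n = 2 * N + 2) (hN : 0 < N) (h1 : 0 ≤ h₀) (h2 : h₀ ≤ J)
    (h3 : |s - h₀| ≤ J) (hKa : 2 * (a : ℝ) < K) :
    ∀ j : ℕ, j ≤ J₁ → ∀ (A : Finset (Fin d)) (Λ : Finset (Tor d L)) (o : Tor d L),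
      Around A o Λ → A.card + (j + 2) * n ≤ a → Λ.card + (j + 2) * n ≤ a →
      (∀ x ∈ Λ, wt (x - o) + (j + 2) * n + 2 ≤ ρ) →
      (PV ν (Tor d L)).real {ξ | ¬ Wj n σ z M (Y₀ * Fn K ρb bm n ^ j) j A Λ o ξ}
        ≤ j * errS G σ K Θ Ψ θ W ρ₀ ρb bm q n N a ρ J J₁ s := by
  intro j
  have hL := S.H.hL
  induction j with
  | zero =>
    intro _ A Λ o hΛ _ _ _
    have h0 : {ξ : Tor d L → ℝ | ¬ Wj n σ z M (Y₀ * Fn K ρb bm n ^ 0) 0 A Λ o ξ} = ∅ := by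
      ext ξ
      rw [Set.mem_ofPred_eq]
      exact ⟨fun h => absurd (stage_zero hL S.H.hz hΛ ξ) h, fun h => absurd h (Set.notMem_empty ξ)⟩
    rw [h0, measureReal_empty, Nat.cast_zero, zero_mul]
  | succ j ih =>
    intro hj A Λ o hΛ hA hc hρ
    have hm : (j + 1 + 2) * n = (j + 2) * n + n := by ring
    have hm2 : (j + 2) * n = j * n + 2 * n := by ring
    have h0 := hρ o hΛ.1
    rw [sub_self, wt_zero] at h0
    obtain ⟨𝒢, g0, g1, g2⟩ := exists_G n A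
    obtain ⟨𝒯, t0, t1, t2⟩ := exists_T J N hN h1 h2 h3
    rw [← hn] at t0
    obtain ⟨hpos, herr⟩ := Ind_err S hn hN hKa (Nat.le_of_succ_le hj) (by omega) g1 g2 t1 t2
    have hst := stage (StH.mono S hY₀ j) (by omega) hΛ (by omega)
      (fun x hx => by have := hρ x hx; omega) j (by omega) 𝒢 g0 𝒯 t0
      (u := j * errS G σ K Θ Ψ θ W ρ₀ ρb bm q n N a ρ J J₁ s)
      (fun γ hγ => by
        obtain ⟨v, lv⟩ := g0 γ hγ
        refine ih (Nat.le_of_succ_le hj) _ _ _ (around_full_end hL hΛ v) ?_ ?_ ?_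
        · have h4 := Finset.card_union_le A (dirs γ)
          rw [card_dirs v, lv] at h4
          omega
        · rw [card_full_sites hL hΛ v, lv]
          omega
        · intro x hx
          rcases (mem_full _ _ _).1 hx with hx | hx
          · have h4 := wt_ept_sub hL hΛ v hx
            rw [← wt_neg, neg_sub, h4, lv]
            have := hρ x hx
            omega
          · obtain ⟨k, hk, rfl⟩ := mem_sites.1 hx
            rw [wt_ept_ept hL (v.take (k + 1)) v]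
            have e1 : (γ.take (k + 1)).toFinset ⊆ γ.toFinset := by
              intro s hs
              rw [List.mem_toFinset] at hs ⊢
              exact List.mem_of_mem_take hs
            rw [Finset.sdiff_eq_empty_iff_subset.2 e1, Finset.card_empty, zero_add]
            have e2 := Finset.card_le_card (Finset.sdiff_subset (s := γ.toFinset)
              (t := (γ.take (k + 1)).toFinset))
            rw [v.card, lv] at e2
            omega)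
      hpos
    have e1 : (PV ν (Tor d L)).real
        {ξ | ¬ Wj n σ z M (Y₀ * Fn K ρb bm n ^ (j + 1)) (j + 1) A Λ o ξ}
        = (PV ν (Tor d L)).real (Bd σ z M (Y₀ * Fn K ρb bm n ^ (j + 1)) n (j + 1) A Λ o) := rfl
    rw [e1, Nat.cast_succ, add_mul, one_mul]
    linarith

theorem Ind_around : Around (∅ : Finset (Fin d)) (0 : Tor d L) {0} := by
  refine ⟨Finset.mem_singleton_self _, fun y hy i _ => ?_⟩
  rw [Finset.mem_singleton] at hy
  rw [hy, sub_zero, Pi.zero_apply]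

/-- Consequence for the norm: in both cases of `Wj` with `Λ = {0}`
(`nsq (chi {0} 0) ≥ ‖chi {0} 0 y‖ ^ 2`). -/
theorem nsq_large [IsProbabilityMeasure ν]
    (S : StH d L ν G σ z K Θ Ψ θ W n a ρ e δ ρ₀ ρb bm q M Y₀ (Y₀ * Fn K ρb bm n) J h₀ s)
    (hY₀ : 0 ≤ Y₀) (hn : n = 2 * N + 2) (hN : 0 < N) (h1 : 0 ≤ h₀) (h2 : h₀ ≤ J)
    (h3 : |s - h₀| ≤ J) (hKa : 2 * (a : ℝ) < K) (ha : 1 + (J₁ + 2) * n ≤ a)
    (hρ : (J₁ + 2) * n + 2 ≤ ρ) {X : ℝ} (hX1 : X ≤ (M ^ J₁) ^ 2) (hX2 : X ≤ Y₀ * Fn K ρb bm n ^ J₁) :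
    (PV ν (Tor d L)).real {ξ | nsq (chi (NN d L) {0} (pot σ ξ) z 0) < X}
        ≤ J₁ * errS G σ K Θ Ψ θ W ρ₀ ρb bm q n N a ρ J J₁ s := by
  refine le_trans ?_ (stages S hY₀ hn hN h1 h2 h3 hKa J₁ le_rfl ∅ {0} 0 Ind_around ?_ ?_ ?_)
  · refine measureReal_mono ?_
    intro ξ hξ hW
    rw [Set.mem_ofPred_eq] at hξ
    rcases hW with ⟨U, _, _, _, hU, _⟩ | hW
    · have h4 : ‖chi (NN d L) {0} (pot σ ξ) z 0 (0 + vec U)‖ ^ 2
          ≤ nsq (chi (NN d L) {0} (pot σ ξ) z 0) := by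
        unfold nsq
        exact Finset.single_le_sum (f := fun y => ‖chi (NN d L) {0} (pot σ ξ) z 0 y‖ ^ 2)
          (fun y _ => sq_nonneg _) (Finset.mem_univ _)
      have hM := S.HW.M2
      have h5 := pow_le_pow_left₀ (pow_nonneg (by linarith) J₁) hU 2
      linarith
    · linarith
  · rw [Finset.card_empty]
    omega
  · rw [Finset.card_singleton]
    exact ha
  · intro x hx
    rw [Finset.mem_singleton] at hx
    rw [hx, sub_zero, wt_zero]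
    omega

/-- first moment of `chi` at one site -/
theorem Ind_mom [IsProbabilityMeasure ν] (H : TypH d L ν G σ z K Θ Ψ θ W n a ρ) {x : Tor d L}
    (hx : wt x ≤ ρ) :
    ∫ ξ, ‖chi (NN d L) {0} (pot σ ξ) z 0 x‖ ∂(PV ν (Tor d L)) ≤ Ψ := by
  have hN : Steps (NN d L) := steps_ND (le_trans (by norm_num) H.hL) _
  by_cases h0 : x = 0
  · have h1 : ∀ ξ : Tor d L → ℝ, ‖chi (NN d L) {0} (pot σ ξ) z 0 x‖ = 1 := by
      intro ξ
      rw [h0, chi_self hN H.hz (Finset.mem_singleton_self _), norm_one]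
    simp only [h1]
    rw [integral_const, probReal_univ, one_smul]
    exact H.hΨ
  · have h1 : ∀ ξ : Tor d L → ℝ, ‖chi (NN d L) {0} (pot σ ξ) z 0 x‖
        = ‖sol (NN d L) {0} (pot σ ξ) z (bx (NN d L) 0) x‖ := by
      intro ξ
      rw [chi_off h0, norm_neg]
    simp only [h1]
    have h2 := H.mom ∅ 0 {0} (by rw [Finset.card_empty]; exact Nat.zero_le _) Ind_around 0
      (Finset.mem_singleton_self _) x (by rw [sub_zero]; exact hx)
    refine h2.trans ?_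
    have hΨ := H.hΨ
    have hΘ := H.hΘ
    have hK := H.hΘK
    have hK0 : 0 < K := by linarith
    have h3 : (Θ / K) ^ wt (x - 0) ≤ 1 :=
      pow_le_one₀ (div_nonneg (by linarith) hK0.le) (by rw [div_le_one hK0]; exact hK)
    exact mul_le_of_le_one_right (by linarith) h3

/-- The box contains a small part of the norm.
Proof. If `κ nsq < ∑_{x ∈ B} ‖chi x‖²` then `nsq < X` or `√(κ X) ≤ ∑_{x ∈ B} ‖chi x‖`
(`∑ ‖·‖² ≤ (∑ ‖·‖)²`); `E ‖chi {0} 0 x‖ ≤ Ψ` for each `x ∈ B` (`Mom` with `A = ∅`, `Λ = {0}`,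
`(Θ/K)^wt ≤ 1`; `x = 0`: the value is one), Markov. -/
theorem box_small [IsProbabilityMeasure ν]
    (S : StH d L ν G σ z K Θ Ψ θ W n a ρ e δ ρ₀ ρb bm q M Y₀ (Y₀ * Fn K ρb bm n) J h₀ s)
    (hY₀ : 0 ≤ Y₀) (hn : n = 2 * N + 2) (hN : 0 < N) (h1 : 0 ≤ h₀) (h2 : h₀ ≤ J)
    (h3 : |s - h₀| ≤ J) (hKa : 2 * (a : ℝ) < K) (ha : 1 + (J₁ + 2) * n ≤ a)
    (hρ : (J₁ + 2) * n + 2 ≤ ρ) {X κ : ℝ} (hX : 0 < X) (hκ : 0 < κ)
    (hX1 : X ≤ (M ^ J₁) ^ 2) (hX2 : X ≤ Y₀ * Fn K ρb bm n ^ J₁)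
    (B : Finset (Tor d L)) (hB : ∀ x ∈ B, wt x ≤ ρ) :
    (PV ν (Tor d L)).real {ξ | κ * nsq (chi (NN d L) {0} (pot σ ξ) z 0)
        < ∑ x ∈ B, ‖chi (NN d L) {0} (pot σ ξ) z 0 x‖ ^ 2}
        ≤ J₁ * errS G σ K Θ Ψ θ W ρ₀ ρb bm q n N a ρ J J₁ s + B.card * Ψ / √(κ * X) := by
  have hNs : Steps (NN d L) := steps_ND (le_trans (by norm_num) S.H.hL) _
  have hz := S.H.hz
  have hnl := nsq_large S hY₀ hn hN h1 h2 h3 hKa ha hρ hX1 hX2
  have hκX : 0 < κ * X := mul_pos hκ hX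
  have hni : ∀ x : Tor d L, Nice fun ξ : Tor d L → ℝ => ‖chi (NN d L) {0} (pot σ ξ) z 0 x‖ := by
    intro x
    by_cases h0 : x = 0
    · have h4 : (fun ξ : Tor d L → ℝ => ‖chi (NN d L) {0} (pot σ ξ) z 0 x‖) = fun _ => 1 := by
        funext ξ
        rw [h0, chi_self hNs hz (Finset.mem_singleton_self _), norm_one]
      rw [h4]
      exact Nice.const 1
    · have h4 : (fun ξ : Tor d L → ℝ => ‖chi (NN d L) {0} (pot σ ξ) z 0 x‖)
          = fun ξ => ‖sol (NN d L) {0} (pot σ ξ) z (bx (NN d L) 0) x‖ := by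
        funext ξ
        rw [chi_off h0, norm_neg]
      rw [h4]
      exact (nice_sol hNs hz _ x).norm
  have hnf : Nice fun ξ : Tor d L → ℝ => ∑ x ∈ B, ‖chi (NN d L) {0} (pot σ ξ) z 0 x‖ :=
    Nice.sum _ fun x _ => hni x
  have hmk := markov ν hnf (fun ξ => Finset.sum_nonneg fun x _ => norm_nonneg _)
    (Real.sqrt_pos.2 hκX)
  have hE : ∫ ξ, ∑ x ∈ B, ‖chi (NN d L) {0} (pot σ ξ) z 0 x‖ ∂(PV ν (Tor d L)) ≤ B.card * Ψ := by
    rw [integral_finsetSum _ fun x _ => (hni x).integrable]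
    refine (Finset.sum_le_sum fun x hx => Ind_mom S.H (hB x hx)).trans (le_of_eq ?_)
    rw [Finset.sum_const, nsmul_eq_mul]
  have hsub : {ξ : Tor d L → ℝ | κ * nsq (chi (NN d L) {0} (pot σ ξ) z 0)
        < ∑ x ∈ B, ‖chi (NN d L) {0} (pot σ ξ) z 0 x‖ ^ 2}
      ⊆ {ξ | nsq (chi (NN d L) {0} (pot σ ξ) z 0) < X}
        ∪ {ξ | √(κ * X) ≤ ∑ x ∈ B, ‖chi (NN d L) {0} (pot σ ξ) z 0 x‖} := by
    intro ξ hξ
    rw [Set.mem_ofPred_eq] at hξ
    by_cases h4 : nsq (chi (NN d L) {0} (pot σ ξ) z 0) < X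
    · left
      exact h4
    · right
      rw [Set.mem_ofPred_eq]
      have h5 : κ * X ≤ κ * nsq (chi (NN d L) {0} (pot σ ξ) z 0) :=
        mul_le_mul_of_nonneg_left (not_lt.1 h4) hκ.le
      have h6 : ∑ x ∈ B, ‖chi (NN d L) {0} (pot σ ξ) z 0 x‖ ^ 2
          ≤ (∑ x ∈ B, ‖chi (NN d L) {0} (pot σ ξ) z 0 x‖) ^ 2 :=
        Finset.sum_sq_le_sq_sum_of_nonneg fun x _ => norm_nonneg _
      exact Real.sqrt_le_iff.2 ⟨Finset.sum_nonneg fun x _ => norm_nonneg _, by linarith⟩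
  refine (measureReal_mono hsub).trans ((measureReal_union_le _ _).trans (add_le_add hnl ?_))
  exact hmk.trans (div_le_div_of_nonneg_right hE (Real.sqrt_nonneg _))

end Pool.Agent.H989.SB
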