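import Pool.Agent.H989.SB.TypH

/-!
Probability of the bounds for the matrix elements.
-/

set_option linter.unusedSectionVars false
set_option linter.unusedVariables false

open MeasureTheory ProbabilityTheory Finset

namespace Pool.Agent.H989.SB

variable {d L : ℕ} [NeZero L] {ν : Measure ℝ} {G σ : ℝ} {z : ℂ} {K Θ Ψ θ W : ℝ} {n a ρ : ℕ}
  {A : Finset (Fin d)} {Λ : Finset (Tor d L)} {o : Tor d L} {γ : List (St d)}

/-- comparison of the exponents -/
theorem typA_pow {Θ K : ℝ} (hΘ : 1 ≤ Θ) (hΘK : Θ ≤ K) {n D e : ℕ} (hD : D ≤ n + 1)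
    (he : e = 0 ∨ 2 ≤ D) :
    Θ ^ (D + e + 1) * K⁻¹ ^ (max 1 (D + e - 1)) ≤ Θ ^ (n + 2) * K⁻¹ ^ (max 1 (D - 1)) := by
  have hK : 0 < K := by linarith
  have hKi : 0 ≤ K⁻¹ := (inv_pos.2 hK).le
  rcases he with rfl | he
  · rw [add_zero]
    exact mul_le_mul_of_nonneg_right (pow_le_pow_right₀ hΘ (by omega)) (pow_nonneg hKi _)
  · have e1 : max 1 (D + e - 1) = (D - 1) + e := by omega
    have e2 : max 1 (D - 1) = D - 1 := by omega
    have e3 : D + e + 1 = (D + 1) + e := by omega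
    rw [e1, e2, e3, pow_add Θ, pow_add K⁻¹]
    have h1 : (Θ * K⁻¹) ^ e ≤ 1 := by
      apply pow_le_one₀ (by positivity)
      rw [← div_eq_mul_inv, div_le_one hK]
      exact hΘK
    have h2 : Θ ^ (D + 1) ≤ Θ ^ (n + 2) := pow_le_pow_right₀ hΘ (by omega)
    have h3 : 0 ≤ K⁻¹ ^ (D - 1) := pow_nonneg hKi _
    have h4 : 0 ≤ Θ ^ (n + 2) := by positivity
    calc Θ ^ (D + 1) * Θ ^ e * (K⁻¹ ^ (D - 1) * K⁻¹ ^ e)
        = Θ ^ (D + 1) * K⁻¹ ^ (D - 1) * (Θ * K⁻¹) ^ e := by rw [mul_pow]; ring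
      _ ≤ Θ ^ (D + 1) * K⁻¹ ^ (D - 1) * 1 :=
          mul_le_mul_of_nonneg_left h1 (mul_nonneg (by positivity) h3)
      _ = Θ ^ (D + 1) * K⁻¹ ^ (D - 1) := mul_one _
      _ ≤ Θ ^ (n + 2) * K⁻¹ ^ (D - 1) := mul_le_mul_of_nonneg_right h2 h3

/-- distance of two sites of the path -/
theorem typA_take (hL : 5 ≤ L) (hγ : Val A γ) {k l : ℕ} (hk : k ≤ γ.length) (hl : l ≤ γ.length) :
    wt (ept o (γ.take k) - ept o (γ.take l) : Tor d L) = (k - l) + (l - k) := by
  rw [wt_ept_ept hL (hγ.take k) (hγ.take l)]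
  have hc : ∀ m, m ≤ γ.length → (γ.take m).toFinset.card = m := by
    intro m hm
    rw [(hγ.take m).card, List.length_take]
    omega
  have hs : ∀ i j : ℕ, i ≤ j → (γ.take i).toFinset ⊆ (γ.take j).toFinset := by
    intro i j hij s hs
    rw [List.mem_toFinset] at hs ⊢
    exact (List.take_subset_take_left γ hij) hs
  have h1 : ∀ i j : ℕ, i ≤ γ.length → j ≤ γ.length →
      ((γ.take i).toFinset \ (γ.take j).toFinset).card = i - j := by
    intro i j hi hj
    rcases le_total i j with h | h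
    · rw [Finset.sdiff_eq_empty_iff_subset.2 (hs i j h), Finset.card_empty]
      omega
    · rw [Finset.card_sdiff_of_subset (hs j i h), hc i hi, hc j hj]
  rw [h1 k l hk hl, h1 l k hl hk]

/-- the distances -/
theorem typA_geo (hL : 5 ≤ L) (P : PathH n a ρ A Λ o γ) {x y : Tor d L}
    (hx : x ∈ full Λ (sites o γ)) (hy : y ∈ sites o γ) (hxy : x ≠ y) :
    ∃ e : ℕ, wt (y - x) = dsx Λ o x y + e ∧ (e = 0 ∨ 2 ≤ dsx Λ o x y) ∧ dsx Λ o x y ≤ n + 1 ∧
      wt (y - x) + 1 ≤ ρ := by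
  have hlen := P.len
  have hoΛ : o ∈ Λ := P.hΛ.1
  have hρ0 := P.hρ o hoΛ
  obtain ⟨k, hk, rfl⟩ := mem_sites.1 hy
  have hpos : ∀ j, j < γ.length → pos Λ o (ept o (γ.take (j + 1))) = ((j + 1 : ℕ) : ℤ) := by
    intro j hj
    have hne : γ.take (j + 1) ≠ [] := by
      intro h
      have := congrArg List.length h
      rw [List.length_take, List.length_nil] at this
      omega
    have h1 : ept o (γ.take (j + 1)) ∉ Λ := ept_notMem hL P.hΛ (P.hγ.take _) hne
    have h2 : ept o (γ.take (j + 1)) ≠ o := fun h => h1 (by rw [h]; exact hoΛ)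
    unfold pos
    rw [if_neg h2, if_neg h1, wt_ept hL (P.hγ.take _), List.length_take]
    congr 1
    omega
  have hds : ∀ x : Tor d L, x ≠ ept o (γ.take (k + 1)) →
      dsx Λ o x (ept o (γ.take (k + 1))) = max 1 (pos Λ o x - ((k + 1 : ℕ) : ℤ)).natAbs := by
    intro x hx
    unfold dsx
    rw [if_neg hx, hpos k hk]
  have hd := hds x hxy
  rcases (mem_full _ _ _).1 hx with hxΛ | hxS
  · have hw : wt (ept o (γ.take (k + 1)) - x) = wt (x - o) + (k + 1) := by
      rw [wt_ept_sub hL P.hΛ (P.hγ.take _) hxΛ, List.length_take]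
      congr 1
      omega
    have hρx := P.hρ x hxΛ
    by_cases hxo : x = o
    · have hp : pos Λ o x = 0 := by
        unfold pos
        rw [if_pos hxo]
      rw [hp] at hd
      have hd' : dsx Λ o x (ept o (γ.take (k + 1))) = k + 1 := by omega
      have hw0 : wt (x - o) = 0 := by rw [hxo, sub_self]; exact wt_zero
      refine ⟨0, ?_, Or.inl rfl, ?_, ?_⟩ <;> omega
    · have hp : pos Λ o x = -1 := by
        unfold pos
        rw [if_neg hxo, if_pos hxΛ]
      rw [hp] at hd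
      have hd' : dsx Λ o x (ept o (γ.take (k + 1))) = k + 2 := by omega
      have hw1 : wt (x - o) ≠ 0 := by
        intro h
        exact hxo (sub_eq_zero.1 (wt_eq_zero.1 h))
      refine ⟨wt (x - o) - 1, ?_, Or.inr ?_, ?_, ?_⟩ <;> omega
  · obtain ⟨l, hl, rfl⟩ := mem_sites.1 hxS
    have hkl : k ≠ l := by
      rintro rfl
      exact hxy rfl
    have hw := typA_take (o := o) hL P.hγ (k := k + 1) (l := l + 1) (by omega) (by omega)
    rw [hpos l hl] at hd
    have hwo : wt (o - o) = 0 := by rw [sub_self]; exact wt_zero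
    refine ⟨0, ?_, Or.inl rfl, ?_, ?_⟩ <;> omega

/-- Proof. Measurability: finitely many conditions on norms of the nice functions `Qf` (sums of
`nice_sol`).  Probability: union bound over `y ∈ sites o γ`, `x ∈ full Λ (sites o γ)` (at most
`(Λ.card + n) n ≤ a n` pairs) and Markov's inequality (`markov` of SB/Prb), with `mom_Q_off`,
`mom_Q_diag` for the removed sites `full Λ (sites o γ)` (`around_full`; note `Qf x y = Qf y x`,
`Qf_comm`).
For `x = o` or `x` a site of the path, `dsx Λ o x y = wt (x - y)` (a difference of the numbers of the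
sites), and `E|Qf| ≤ 4 ρ Ψ Θ^(n+1) K⁻¹^(max 1 (dsx - 1))`.
For `x ∈ Λ`, `x ≠ o`, `y` the `l`th site (`l ≥ 1`): `dsx Λ o x y = l + 1`, `max 1 (dsx - 1) = l`,
`wt (y - x) = wt (x - o) + l` (`wt_ept_sub`), so that
`E|Qf| ≤ 4 ρ Ψ Θ^(l + 2) (Θ/K)^(wt (x-o) - 1) K⁻¹^l ≤ 4 ρ Ψ Θ^(n+2) K⁻¹^l`. -/
theorem typ_tf [IsProbabilityMeasure ν] (H : TypH d L ν G σ z K Θ Ψ θ W n a ρ)
    (P : PathH n a ρ A Λ o γ) :
    MeasurableSet {ξ : Tor d L → ℝ | TF (NN d L) (pot σ ξ) z (dsx Λ o) W K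
      (full Λ (sites o γ)) (sites o γ)} ∧
    (PV ν (Tor d L)).real {ξ | ¬ TF (NN d L) (pot σ ξ) z (dsx Λ o) W K
      (full Λ (sites o γ)) (sites o γ)} ≤ 10 * Bn n a ρ Ψ Θ / W := by
  have hL := H.hL
  have hN : Steps (NN d L) := steps_ND (by omega) _
  have hz := H.hz
  have hK0 : 0 < K := lt_of_lt_of_le (by linarith [H.hΘ]) H.hΘK
  have hW0 : 0 < W := by linarith [H.hW]
  have hρ0 := P.hρ o P.hΛ.1
  have hn := H.hn
  have hρ2 : 2 ≤ ρ := by omega
  have hdc : (dirs γ).card = n := by rw [card_dirs P.hγ, P.len]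
  have hAa : (A ∪ dirs γ).card ≤ a := by
    have h1 := Finset.card_union_le A (dirs γ)
    have h2 := P.hA
    omega
  have har := around_full hL P.hΛ P.hγ
  have hcard : (full Λ (sites o γ)).card ≤ a := by
    rw [card_full_sites hL P.hΛ P.hγ, P.len]
    have := P.hc
    omega
  have hScard : (sites o γ).toFinset.card ≤ n := by
    refine (List.toFinset_card_le _).trans ?_
    rw [length_sites, P.len]
  obtain ⟨c, hc⟩ : ∃ c : Tor d L → Tor d L → ℝ, c = fun x y =>
    if x = y then W else W * K⁻¹ ^ (max 1 (dsx Λ o x y - 1)) := ⟨_, rfl⟩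
  obtain ⟨f, hf⟩ : ∃ f : Tor d L → Tor d L → (Tor d L → ℝ) → ℝ, f = fun x y ξ =>
    ‖Qf (NN d L) (full Λ (sites o γ)) (pot σ ξ) z x y‖ := ⟨_, rfl⟩
  have hc0 : ∀ x y, 0 < c x y := by
    intro x y
    rw [hc]
    show 0 < if x = y then W else W * K⁻¹ ^ (max 1 (dsx Λ o x y - 1))
    split_ifs
    · exact hW0
    · positivity
  have hnice : ∀ x y, Nice (f x y) := by
    intro x y
    rw [hf]
    unfold Qf nb
    exact (Nice.csum _ fun i _ => nice_sol hN hz _ _).norm
  -- the event as a finite list of conditions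
  have hTF : ∀ ξ, TF (NN d L) (pot σ ξ) z (dsx Λ o) W K (full Λ (sites o γ)) (sites o γ) ↔
      ∀ y ∈ (sites o γ).toFinset, ∀ x ∈ full Λ (sites o γ), f x y ξ ≤ c x y := by
    intro ξ
    rw [hf, hc]
    constructor
    · intro h y hy x hx
      rw [List.mem_toFinset] at hy
      show ‖Qf (NN d L) (full Λ (sites o γ)) (pot σ ξ) z x y‖ ≤
        if x = y then W else W * K⁻¹ ^ (max 1 (dsx Λ o x y - 1))
      by_cases hxy : x = y
      · subst hxy
        rw [if_pos rfl]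
        exact h.diag _ hy
      · rw [if_neg hxy]
        exact h.off x hx y hy hxy
    · intro h
      constructor
      · intro x hx y hy hxy
        have h1 := h y (List.mem_toFinset.2 hy) x hx
        simp only [if_neg hxy] at h1
        exact h1
      · intro y hy
        have h1 := h y (List.mem_toFinset.2 hy) y ((mem_full _ _ _).2 (Or.inr hy))
        simp only [if_true] at h1
        exact h1
  -- the moments
  have hΨ0 : 0 ≤ Ψ := by linarith [H.hΨ]
  obtain ⟨B, hB⟩ : ∃ B : ℝ, B = 4 * ρ * Ψ * Θ ^ (n + 2) := ⟨_, rfl⟩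
  have hρr : (1 : ℝ) ≤ ρ := by exact_mod_cast (by omega : 1 ≤ ρ)
  have hmom : ∀ y ∈ (sites o γ).toFinset, ∀ x ∈ full Λ (sites o γ),
      (∫ ξ, f x y ξ ∂(PV ν (Tor d L))) / c x y ≤ B / W := by
    intro y hy x hx
    rw [List.mem_toFinset] at hy
    have hyf : y ∈ full Λ (sites o γ) := (mem_full _ _ _).2 (Or.inr hy)
    rw [div_le_div_iff₀ (hc0 x y) hW0]
    rw [hf, hc]
    show (∫ ξ, ‖Qf (NN d L) (full Λ (sites o γ)) (pot σ ξ) z x y‖ ∂(PV ν (Tor d L))) * W ≤
      B * if x = y then W else W * K⁻¹ ^ (max 1 (dsx Λ o x y - 1))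
    by_cases hxy : x = y
    · subst hxy
      rw [if_pos rfl]
      refine mul_le_mul_of_nonneg_right ?_ hW0.le
      refine (mom_Q_diag hL hz H.hK H.hd hΨ0 hρ2 H.mom hAa har hyf).trans ?_
      rw [hB]
      have h1 : Θ ≤ Θ ^ (n + 2) := le_self_pow₀ H.hΘ (by omega)
      have h2 : 0 ≤ Θ ^ (n + 2) := by linarith [H.hΘ]
      calc Ψ * Θ ≤ Ψ * Θ ^ (n + 2) := mul_le_mul_of_nonneg_left h1 hΨ0
        _ = 1 * (Ψ * Θ ^ (n + 2)) := by ring
        _ ≤ (4 * ρ) * (Ψ * Θ ^ (n + 2)) :=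
            mul_le_mul_of_nonneg_right (by linarith) (mul_nonneg hΨ0 h2)
        _ = 4 * ρ * Ψ * Θ ^ (n + 2) := by ring
    · rw [if_neg hxy]
      obtain ⟨e, hw, he, hD, hwρ⟩ := typA_geo hL P hx hy hxy
      have h1 := mom_Q_off hL hz H.hK hΨ0 H.hΘ H.hΘK hρ2 H.mom hAa har hx hyf hxy hwρ
      have h2 : ∫ ξ, ‖Qf (NN d L) (full Λ (sites o γ)) (pot σ ξ) z x y‖ ∂(PV ν (Tor d L)) ≤
          B * K⁻¹ ^ (max 1 (dsx Λ o x y - 1)) := by
        have h3 : ∀ ξ : Tor d L → ℝ, Qf (NN d L) (full Λ (sites o γ)) (pot σ ξ) z x y =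
            Qf (NN d L) (full Λ (sites o γ)) (pot σ ξ) z y x := fun ξ => Qf_comm hN hz x y
        simp only [h3]
        refine h1.trans ?_
        rw [hw, hB]
        have h4 := typA_pow H.hΘ H.hΘK hD he
        calc 4 * ρ * Ψ * Θ ^ (dsx Λ o x y + e + 1) * K⁻¹ ^ (max 1 (dsx Λ o x y + e - 1))
            = 4 * ρ * Ψ *
              (Θ ^ (dsx Λ o x y + e + 1) * K⁻¹ ^ (max 1 (dsx Λ o x y + e - 1))) := by ring
          _ ≤ 4 * ρ * Ψ * (Θ ^ (n + 2) * K⁻¹ ^ (max 1 (dsx Λ o x y - 1))) :=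
              mul_le_mul_of_nonneg_left h4 (by positivity)
          _ = 4 * ρ * Ψ * Θ ^ (n + 2) * K⁻¹ ^ (max 1 (dsx Λ o x y - 1)) := by ring
      calc (∫ ξ, ‖Qf (NN d L) (full Λ (sites o γ)) (pot σ ξ) z x y‖ ∂(PV ν (Tor d L))) * W
          ≤ B * K⁻¹ ^ (max 1 (dsx Λ o x y - 1)) * W := mul_le_mul_of_nonneg_right h2 hW0.le
        _ = B * (W * K⁻¹ ^ (max 1 (dsx Λ o x y - 1))) := by ring
  have hB0 : 0 ≤ B := by
    rw [hB]
    have := H.hΘ
    positivity
  constructor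
  · have h1 : {ξ : Tor d L → ℝ | TF (NN d L) (pot σ ξ) z (dsx Λ o) W K
        (full Λ (sites o γ)) (sites o γ)} =
        ⋂ y ∈ (sites o γ).toFinset, ⋂ x ∈ full Λ (sites o γ), {ξ | f x y ξ ≤ c x y} := by
      ext ξ
      rw [Set.mem_ofPred_eq, hTF ξ]
      simp only [Set.mem_iInter, Set.mem_ofPred_eq]
    rw [h1]
    exact Finset.measurableSet_biInter _ fun y _ => Finset.measurableSet_biInter _ fun x _ =>
      measurableSet_le (hnice x y).1 measurable_const
  · have h1 : {ξ : Tor d L → ℝ | ¬ TF (NN d L) (pot σ ξ) z (dsx Λ o) W K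
        (full Λ (sites o γ)) (sites o γ)} ⊆
        ⋃ y ∈ (sites o γ).toFinset, ⋃ x ∈ full Λ (sites o γ), {ξ | c x y ≤ f x y ξ} := by
      intro ξ hξ
      rw [Set.mem_ofPred_eq, hTF ξ] at hξ
      push Not at hξ
      obtain ⟨y, hy, x, hx, h⟩ := hξ
      simp only [Set.mem_iUnion]
      exact ⟨y, hy, x, hx, h.le⟩
    calc (PV ν (Tor d L)).real {ξ | ¬ TF (NN d L) (pot σ ξ) z (dsx Λ o) W K
          (full Λ (sites o γ)) (sites o γ)}
        ≤ (PV ν (Tor d L)).real (⋃ y ∈ (sites o γ).toFinset, ⋃ x ∈ full Λ (sites o γ),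
            {ξ | c x y ≤ f x y ξ}) := measureReal_mono h1 (measure_ne_top _ _)
      _ ≤ ∑ y ∈ (sites o γ).toFinset, (PV ν (Tor d L)).real (⋃ x ∈ full Λ (sites o γ),
            {ξ | c x y ≤ f x y ξ}) := measureReal_biUnion_finset_le _ _
      _ ≤ ∑ y ∈ (sites o γ).toFinset, ∑ x ∈ full Λ (sites o γ),
            (PV ν (Tor d L)).real {ξ | c x y ≤ f x y ξ} :=
          Finset.sum_le_sum fun y _ => measureReal_biUnion_finset_le _ _
      _ ≤ ∑ y ∈ (sites o γ).toFinset, ∑ x ∈ full Λ (sites o γ), B / W := by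
          refine Finset.sum_le_sum fun y hy => Finset.sum_le_sum fun x hx => ?_
          refine (markov ν (hnice x y) (fun ξ => ?_) (hc0 x y)).trans (hmom y hy x hx)
          rw [hf]
          exact norm_nonneg _
      _ = ((sites o γ).toFinset.card : ℝ) * (((full Λ (sites o γ)).card : ℝ) * (B / W)) := by
          rw [Finset.sum_const, Finset.sum_const, nsmul_eq_mul, nsmul_eq_mul]
      _ ≤ (n : ℝ) * ((a : ℝ) * (B / W)) := by
          have h2 : ((sites o γ).toFinset.card : ℝ) ≤ n := by exact_mod_cast hScard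
          have h3 : ((full Λ (sites o γ)).card : ℝ) ≤ a := by exact_mod_cast hcard
          have h4 : 0 ≤ B / W := div_nonneg hB0 hW0.le
          exact mul_le_mul h2 (mul_le_mul_of_nonneg_right h3 h4) (by positivity) (by positivity)
      _ = (n * a * B) / W := by ring
      _ ≤ 10 * Bn n a ρ Ψ Θ / W := by
          refine div_le_div_of_nonneg_right ?_ hW0.le
          rw [hB]
          unfold Bn
          have hn1 : (1 : ℝ) ≤ n := by exact_mod_cast hn
          have hΘ1 := H.hΘ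
          have h5 : (n : ℝ) ≤ (4 * n) ^ (2 * n + 4) :=
            le_trans (by linarith) (le_self_pow₀ (by linarith) (by omega))
          have h6 : Θ ^ (n + 2) ≤ Θ ^ (2 * n + 4) := pow_le_pow_right₀ hΘ1 (by omega)
          have h7 : (n : ℝ) * Θ ^ (n + 2) ≤ (4 * n * Θ) ^ (2 * n + 4) := by
            rw [mul_pow]
            exact mul_le_mul h5 h6 (by positivity) (by positivity)
          have h8 : 0 ≤ (ρ : ℝ) * a * Ψ := by positivity
          calc (n : ℝ) * a * (4 * ρ * Ψ * Θ ^ (n + 2))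
              = 4 * ((ρ * a * Ψ) * (n * Θ ^ (n + 2))) := by ring
            _ ≤ 4 * ((ρ * a * Ψ) * (4 * n * Θ) ^ (2 * n + 4)) := by
                have := mul_le_mul_of_nonneg_left h7 h8
                linarith
            _ ≤ 10 * (ρ * a * Ψ * (4 * n * Θ) ^ (2 * n + 4)) := by
                have : 0 ≤ (ρ * a * Ψ) * (4 * n * Θ) ^ (2 * n + 4) := by positivity
                linarith

end Pool.Agent.H989.SB
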