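import Pool.Agent.H989.SB.TypH

/-!
Probability of the amplitude bounds at sites without common steps.
-/

set_option linter.unusedSectionVars false
set_option linter.unusedVariables false

open MeasureTheory ProbabilityTheory Finset

namespace Pool.Agent.H989.SB

variable {d L : ℕ} [NeZero L] {ν : Measure ℝ} {G σ : ℝ} {z : ℂ} {K Θ Ψ θ W : ℝ} {n a ρ : ℕ}
  {A : Finset (Fin d)} {Λ : Finset (Tor d L)} {o : Tor d L} {γ : List (St d)}

/-- the condition `Tp.ta` -/
def TaC (n : ℕ) (σ : ℝ) (z : ℂ) (K W : ℝ) (A : Finset (Fin d)) (Λ : Finset (Tor d L))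
    (o : Tor d L) (γ : List (St d)) (ξ : Tor d L → ℝ) : Prop :=
  ∀ u : List (St d), Val A u → u ≠ [] → u.length ≤ n → (∀ s ∈ u, s ∉ γ) →
    ∀ x ∈ full Λ (sites o γ),
      ‖sol (NN d L) (full Λ (sites o γ)) (pot σ ξ) z (bx (NN d L) x) (ept o u)‖
        ≤ W * K⁻¹ ^ (hgt Λ o x)

/-- Markov's inequality for one amplitude -/
theorem TypB_one [IsProbabilityMeasure ν] (H : TypH d L ν G σ z K Θ Ψ θ W n a ρ)
    (P : PathH n a ρ A Λ o γ) {x w : Tor d L} (hx : x ∈ full Λ (sites o γ)) {h l : ℕ}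
    (h1 : h + l ≤ wt (w - x)) (h2 : wt (w - x) ≤ ρ) (h3 : h + l ≤ 2 * n) :
    (PV ν (Tor d L)).real {ξ | W * K⁻¹ ^ h <
      ‖sol (NN d L) (full Λ (sites o γ)) (pot σ ξ) z (bx (NN d L) x) w‖}
      ≤ Ψ * Θ ^ (2 * n) * K⁻¹ ^ l / W := by
  have hN : Steps (NN d L) := steps_ND (by linarith [H.hL]) _
  have hΘ0 : 0 < Θ := lt_of_lt_of_le one_pos H.hΘ
  have hK0 : 0 < K := lt_of_lt_of_le hΘ0 H.hΘK
  have hW0 : 0 < W := lt_of_lt_of_le one_pos H.hW
  have hΨ0 : 0 < Ψ := lt_of_lt_of_le one_pos H.hΨ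
  have hnice : Nice fun ξ : Tor d L → ℝ =>
      ‖sol (NN d L) (full Λ (sites o γ)) (pot σ ξ) z (bx (NN d L) x) w‖ :=
    (nice_sol hN H.hz (bx (NN d L) x) w).norm
  have hpos : 0 < W * K⁻¹ ^ h := by positivity
  have hcard : (A ∪ dirs γ).card ≤ a := by
    refine (Finset.card_union_le _ _).trans ?_
    rw [card_dirs P.hγ, P.len]
    have := P.hA
    omega
  have hmom := H.mom (A ∪ dirs γ) o (full Λ (sites o γ)) hcard
    (around_full H.hL P.hΛ P.hγ) x hx w h2
  have hq0 : 0 < Θ / K := by positivity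
  have hq1 : Θ / K ≤ 1 := by rw [div_le_one hK0]; exact H.hΘK
  calc (PV ν (Tor d L)).real {ξ | W * K⁻¹ ^ h <
        ‖sol (NN d L) (full Λ (sites o γ)) (pot σ ξ) z (bx (NN d L) x) w‖}
      ≤ (PV ν (Tor d L)).real {ξ | W * K⁻¹ ^ h ≤
        ‖sol (NN d L) (full Λ (sites o γ)) (pot σ ξ) z (bx (NN d L) x) w‖} :=
        measureReal_mono (fun ξ hξ => by
          rw [Set.mem_ofPred_eq] at hξ ⊢; exact hξ.le) (measure_ne_top _ _)
    _ ≤ (∫ ξ, ‖sol (NN d L) (full Λ (sites o γ)) (pot σ ξ) z (bx (NN d L) x) w‖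
          ∂(PV ν (Tor d L))) / (W * K⁻¹ ^ h) :=
        markov ν hnice (fun ξ => norm_nonneg _) hpos
    _ ≤ (Ψ * (Θ / K) ^ (h + l)) / (W * K⁻¹ ^ h) := by
        apply div_le_div_of_nonneg_right _ hpos.le
        refine hmom.trans ?_
        exact mul_le_mul_of_nonneg_left (pow_le_pow_of_le_one hq0.le hq1 h1) hΨ0.le
    _ = Ψ * Θ ^ (h + l) * K⁻¹ ^ l / W := by
        rw [div_pow, pow_add K, inv_pow, inv_pow]
        field_simp
    _ ≤ Ψ * Θ ^ (2 * n) * K⁻¹ ^ l / W := by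
        apply div_le_div_of_nonneg_right _ hW0.le
        apply mul_le_mul_of_nonneg_right _ (by positivity)
        exact mul_le_mul_of_nonneg_left (pow_le_pow_right₀ H.hΘ h3) hΨ0.le

/-- distances from the sites to the end point of a path without common steps -/
theorem TypB_wt (H : TypH d L ν G σ z K Θ Ψ θ W n a ρ) (P : PathH n a ρ A Λ o γ)
    {x : Tor d L} (hx : x ∈ full Λ (sites o γ)) {u : List (St d)} (hu : Val A u)
    (hul : u.length ≤ n) (hd : ∀ s ∈ u, s ∉ γ) :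
    hgt Λ o x + u.length ≤ wt (ept o u - x) ∧ wt (ept o u - x) ≤ ρ ∧
      hgt Λ o x + u.length ≤ 2 * n := by
  have hn := H.hn
  rcases (mem_full _ _ _).1 hx with hxΛ | hxs
  · rw [wt_ept_sub H.hL P.hΛ hu hxΛ]
    have h1 := P.hρ x hxΛ
    have h2 : hgt Λ o x ≤ wt (x - o) ∧ hgt Λ o x ≤ 1 := by
      unfold hgt
      by_cases hxo : x = o
      · rw [if_pos hxo]; exact ⟨Nat.zero_le _, Nat.zero_le _⟩
      · rw [if_neg hxo, if_pos hxΛ]
        refine ⟨?_, le_refl _⟩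
        rw [Nat.one_le_iff_ne_zero]
        intro h0
        exact hxo (sub_eq_zero.1 (wt_eq_zero.1 h0))
    omega
  · obtain ⟨k, hk, hxk⟩ := mem_sites.1 hxs
    have hget := sites_get o γ k hk
    rw [← hxk] at hget
    rw [hgt_site H.hL P.hΛ P.hγ hget, hxk, wt_ept_ept H.hL hu (P.hγ.take (k + 1))]
    have hdis : Disjoint u.toFinset (γ.take (k + 1)).toFinset := by
      rw [Finset.disjoint_left]
      intro s hs hs'
      rw [List.mem_toFinset] at hs hs'
      exact hd s hs (List.mem_of_mem_take hs')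
    rw [Finset.sdiff_eq_self_of_disjoint hdis, Finset.sdiff_eq_self_of_disjoint hdis.symm,
      hu.card, (P.hγ.take (k + 1)).card, List.length_take]
    have h1 := P.hρ o P.hΛ.1
    have h2 := P.len
    rw [sub_self, wt_zero] at h1
    omega

theorem TypB_meas [IsProbabilityMeasure ν] (H : TypH d L ν G σ z K Θ Ψ θ W n a ρ) :
    MeasurableSet {ξ : Tor d L → ℝ | TaC n σ z K W A Λ o γ ξ} := by
  have hN : Steps (NN d L) := steps_ND (by linarith [H.hL]) _
  unfold TaC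
  simp only [Set.ofPred_forall]
  refine MeasurableSet.iInter fun u => MeasurableSet.iInter fun _ => MeasurableSet.iInter fun _ =>
    MeasurableSet.iInter fun _ => MeasurableSet.iInter fun _ => MeasurableSet.iInter fun x =>
    MeasurableSet.iInter fun _ => ?_
  exact measurableSet_le ((nice_sol hN H.hz (bx (NN d L) x) (ept o u)).norm.1) measurable_const

/-- Proof. Measurability: countably many (lists) measurable conditions (`nice_sol`).
Probability: union bound over the lists `u` of length `l`, `1 ≤ l ≤ n` (at most `(2 d)^l = K^l` lists),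
and over `x` (at most `Λ.card + n ≤ a`), Markov's inequality (`markov` of SB/Prb) and
`Mom` for the removed sites `full Λ (sites o γ)` (`around_full`).
With `w = ept o u`: for `x ∈ Λ`, `wt (w - x) = wt (x - o) + l ≥ hgt x + l` (`wt_ept_sub`; `hgt x ≤ 1`);
for `x` the `k`th site (`k ≥ 1`) of `γ`, `wt (w - x) = k + l = hgt x + l` (`wt_ept_ept`, no common
steps).  So `E |sol (bx x) w| ≤ Ψ (Θ/K)^(hgt x + l)`, and the probability of one condition to fail
is at most `Ψ Θ^(2n) K⁻¹^l / W`. -/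
theorem typ_ta [IsProbabilityMeasure ν] (H : TypH d L ν G σ z K Θ Ψ θ W n a ρ)
    (P : PathH n a ρ A Λ o γ) :
    MeasurableSet {ξ : Tor d L → ℝ | TaC n σ z K W A Λ o γ ξ} ∧
    (PV ν (Tor d L)).real {ξ | ¬ TaC n σ z K W A Λ o γ ξ} ≤ 10 * Bn n a ρ Ψ Θ / W := by
  refine ⟨TypB_meas H, ?_⟩
  have hΘ0 : 0 < Θ := lt_of_lt_of_le one_pos H.hΘ
  have hK0 : 0 < K := lt_of_lt_of_le hΘ0 H.hΘK
  have hW0 : 0 < W := lt_of_lt_of_le one_pos H.hW
  have hΨ0 : 0 < Ψ := lt_of_lt_of_le one_pos H.hΨ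
  -- the bad events
  obtain ⟨B, hB⟩ : ∃ B : List (St d) → Tor d L → Set (Tor d L → ℝ), B = fun u x =>
    {ξ | (Val A u ∧ ∀ s ∈ u, s ∉ γ) ∧ W * K⁻¹ ^ (hgt Λ o x) <
      ‖sol (NN d L) (full Λ (sites o γ)) (pot σ ξ) z (bx (NN d L) x) (ept o u)‖} := ⟨_, rfl⟩
  have hBle : ∀ l ∈ Finset.Icc 1 n, ∀ f : Fin l → St d, ∀ x ∈ full Λ (sites o γ),
      (PV ν (Tor d L)).real (B (List.ofFn f) x) ≤ Ψ * Θ ^ (2 * n) * K⁻¹ ^ l / W := by
    intro l hl f x hx
    rw [Finset.mem_Icc] at hl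
    have hlen : (List.ofFn f).length = l := List.length_ofFn
    by_cases hv : Val A (List.ofFn f) ∧ ∀ s ∈ List.ofFn f, s ∉ γ
    · obtain ⟨h1, h2, h3⟩ := TypB_wt H P hx hv.1 (by rw [hlen]; exact hl.2) hv.2
      rw [hlen] at h1 h3
      refine le_trans (measureReal_mono ?_ (measure_ne_top _ _)) (TypB_one H P hx h1 h2 h3)
      intro ξ hξ
      rw [hB] at hξ
      exact hξ.2
    · have : B (List.ofFn f) x = ∅ := by
        rw [hB]
        ext ξ
        simp only [Set.mem_ofPred_eq, Set.mem_empty_iff_false, iff_false]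
        intro h
        exact hv h.1
      rw [this, measureReal_empty]
      positivity
  have hsub : {ξ : Tor d L → ℝ | ¬ TaC n σ z K W A Λ o γ ξ} ⊆
      ⋃ l ∈ Finset.Icc 1 n, ⋃ f ∈ (univ : Finset (Fin l → St d)),
        ⋃ x ∈ full Λ (sites o γ), B (List.ofFn f) x := by
    intro ξ hξ
    rw [Set.mem_ofPred_eq] at hξ
    unfold TaC at hξ
    push Not at hξ
    obtain ⟨u, hu1, hu2, hu3, hu4, x, hx, hu5⟩ := hξ
    simp only [Set.mem_iUnion]
    refine ⟨u.length, ?_, fun i => u.get i, Finset.mem_univ _, x, hx, ?_⟩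
    · rw [Finset.mem_Icc]
      exact ⟨List.length_pos_iff.2 hu2, hu3⟩
    · rw [hB, List.ofFn_get]
      exact ⟨⟨hu1, hu4⟩, hu5⟩
  have hcardfull : ((full Λ (sites o γ)).card : ℝ) ≤ a := by
    rw [card_full_sites H.hL P.hΛ P.hγ, P.len]
    have := P.hc
    have h : Λ.card + n ≤ a := by omega
    exact_mod_cast h
  have hterm : ∀ l ∈ Finset.Icc 1 n, (PV ν (Tor d L)).real
      (⋃ f ∈ (univ : Finset (Fin l → St d)), ⋃ x ∈ full Λ (sites o γ), B (List.ofFn f) x) ≤
        a * (Ψ * Θ ^ (2 * n) / W) := by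
    intro l hl
    calc (PV ν (Tor d L)).real
          (⋃ f ∈ (univ : Finset (Fin l → St d)), ⋃ x ∈ full Λ (sites o γ), B (List.ofFn f) x)
        ≤ ∑ f ∈ (univ : Finset (Fin l → St d)), (PV ν (Tor d L)).real
            (⋃ x ∈ full Λ (sites o γ), B (List.ofFn f) x) := measureReal_biUnion_finset_le _ _
      _ ≤ ∑ f ∈ (univ : Finset (Fin l → St d)), ∑ x ∈ full Λ (sites o γ),
            (PV ν (Tor d L)).real (B (List.ofFn f) x) :=
          Finset.sum_le_sum fun f _ => measureReal_biUnion_finset_le _ _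
      _ ≤ ∑ f ∈ (univ : Finset (Fin l → St d)), ∑ x ∈ full Λ (sites o γ),
            Ψ * Θ ^ (2 * n) * K⁻¹ ^ l / W :=
          Finset.sum_le_sum fun f _ => Finset.sum_le_sum fun x hx => hBle l hl f x hx
      _ = K ^ l * ((full Λ (sites o γ)).card * (Ψ * Θ ^ (2 * n) * K⁻¹ ^ l / W)) := by
          rw [Finset.sum_const, Finset.sum_const, Finset.card_univ, Fintype.card_fun,
            Fintype.card_prod, Fintype.card_fin, Fintype.card_fin, Fintype.card_bool, nsmul_eq_mul,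
            nsmul_eq_mul, H.hK]
          push_cast
          ring
      _ = (full Λ (sites o γ)).card * (Ψ * Θ ^ (2 * n) / W) := by
          have : K ^ l * K⁻¹ ^ l = 1 := by
            rw [← mul_pow, mul_inv_cancel₀ hK0.ne', one_pow]
          linear_combination ((full Λ (sites o γ)).card * (Ψ * Θ ^ (2 * n) / W)) * this
      _ ≤ a * (Ψ * Θ ^ (2 * n) / W) :=
          mul_le_mul_of_nonneg_right hcardfull (by positivity)
  have hρ1 : (1:ℝ) ≤ ρ := by
    have h1 := P.hρ o P.hΛ.1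
    have h : 1 ≤ ρ := by omega
    exact_mod_cast h
  have hn1 : (1:ℝ) ≤ n := by exact_mod_cast H.hn
  calc (PV ν (Tor d L)).real {ξ | ¬ TaC n σ z K W A Λ o γ ξ}
      ≤ (PV ν (Tor d L)).real (⋃ l ∈ Finset.Icc 1 n, ⋃ f ∈ (univ : Finset (Fin l → St d)),
        ⋃ x ∈ full Λ (sites o γ), B (List.ofFn f) x) := measureReal_mono hsub (measure_ne_top _ _)
    _ ≤ ∑ l ∈ Finset.Icc 1 n, (PV ν (Tor d L)).real (⋃ f ∈ (univ : Finset (Fin l → St d)),
        ⋃ x ∈ full Λ (sites o γ), B (List.ofFn f) x) := measureReal_biUnion_finset_le _ _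
    _ ≤ ∑ l ∈ Finset.Icc 1 n, a * (Ψ * Θ ^ (2 * n) / W) := Finset.sum_le_sum hterm
    _ = n * (a * (Ψ * Θ ^ (2 * n) / W)) := by
        rw [Finset.sum_const, Nat.card_Icc, nsmul_eq_mul]
        simp
    _ ≤ 10 * Bn n a ρ Ψ Θ / W := by
        unfold Bn
        have e1 : (n:ℝ) ≤ (4 * n) ^ (2 * n + 4) := by
          calc (n:ℝ) ≤ (4 * n) ^ 1 := by rw [pow_one]; linarith
            _ ≤ (4 * n) ^ (2 * n + 4) := pow_le_pow_right₀ (by linarith) (by omega)
        have e2 : Θ ^ (2 * n) ≤ Θ ^ (2 * n + 4) := pow_le_pow_right₀ H.hΘ (by omega)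
        have e3 : (n:ℝ) * Θ ^ (2 * n) ≤ (4 * n * Θ) ^ (2 * n + 4) := by
          rw [mul_pow]
          exact mul_le_mul e1 e2 (by positivity) (by positivity)
        have e4 : (0:ℝ) ≤ a * Ψ := by positivity
        calc (n:ℝ) * (a * (Ψ * Θ ^ (2 * n) / W)) = (a * Ψ) * (n * Θ ^ (2 * n)) / W := by ring
          _ ≤ (a * Ψ) * (4 * n * Θ) ^ (2 * n + 4) / W := by
              apply div_le_div_of_nonneg_right _ hW0.le
              exact mul_le_mul_of_nonneg_left e3 e4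
          _ ≤ 10 * (ρ * a * Ψ * (4 * n * Θ) ^ (2 * n + 4)) / W := by
              apply div_le_div_of_nonneg_right _ hW0.le
              have e5 : (0:ℝ) ≤ (a * Ψ) * (4 * n * Θ) ^ (2 * n + 4) := by positivity
              nlinarith

end Pool.Agent.H989.SB
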