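import Pool.Agent.H989.SB.TypH

/-!
Probability of the amplitude bounds at end points with common steps.
-/

set_option linter.unusedSectionVars false
set_option linter.unusedVariables false

open MeasureTheory ProbabilityTheory Finset

namespace Pool.Agent.H989.SB

variable {d L : ℕ} [NeZero L] {ν : Measure ℝ} {G σ : ℝ} {z : ℂ} {K Θ Ψ θ W : ℝ} {n a ρ : ℕ}
  {A : Finset (Fin d)} {Λ : Finset (Tor d L)} {o : Tor d L} {γ : List (St d)}

/-- the condition `Tp.tb` -/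
def TbC (n : ℕ) (σ : ℝ) (z : ℂ) (K W : ℝ) (A : Finset (Fin d)) (Λ : Finset (Tor d L))
    (o : Tor d L) (γ : List (St d)) (ξ : Tor d L → ℝ) : Prop :=
  ∀ u : List (St d), Val A u → u.length = n → (∃ s ∈ u, s ∈ γ) → ept o u ≠ ept o γ →
    ‖sol (NN d L) (full Λ (sites o γ)) (pot σ ξ) z (bx (NN d L) o) (ept o u)‖ ≤ W * K⁻¹ ∧
    ‖sol (NN d L) (full Λ (sites o γ)) (pot σ ξ) z (bx (NN d L) (ept o γ)) (ept o u)‖ ≤ W * K⁻¹ ∧
    ∀ x ∈ sites o γ,
      ‖sol (NN d L) (full Λ (sites o γ)) (pot σ ξ) z (bx (NN d L) x) (ept o u)‖ ≤ W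

/-! ### counting -/

/-- the weight of a step -/
noncomputable def TypC_c (K : ℝ) (γ : List (St d)) (s : St d) : ℝ := if s ∈ γ then 1 else K⁻¹

theorem TypC_c_nonneg (hK : 0 < K) (γ : List (St d)) (s : St d) : 0 ≤ TypC_c K γ s := by
  unfold TypC_c
  split_ifs
  · exact zero_le_one
  · exact (inv_pos.2 hK).le

theorem TypC_sum_c (hK : K = 2 * d) (hK0 : 0 < K) (γ : List (St d)) :
    ∑ s : St d, TypC_c K γ s ≤ γ.length + 1 := by
  classical
  have h1 : ∀ s : St d, TypC_c K γ s ≤ (if s ∈ γ.toFinset then 1 else 0) + K⁻¹ := by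
    intro s
    unfold TypC_c
    have h0 : 0 < K⁻¹ := inv_pos.2 hK0
    by_cases h : s ∈ γ
    · rw [if_pos h, if_pos (List.mem_toFinset.2 h)]
      linarith
    · rw [if_neg h, if_neg (fun h' => h (List.mem_toFinset.1 h'))]
      linarith
  calc ∑ s : St d, TypC_c K γ s ≤ ∑ s : St d, ((if s ∈ γ.toFinset then 1 else 0) + K⁻¹) :=
        Finset.sum_le_sum fun s _ => h1 s
    _ = (γ.toFinset.card : ℝ) + (Fintype.card (St d) : ℝ) * K⁻¹ := by
        rw [Finset.sum_add_distrib, Finset.sum_const, Finset.card_univ, nsmul_eq_mul,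
          Finset.sum_ite_mem, Finset.univ_inter, Finset.sum_const, nsmul_eq_mul, mul_one]
    _ = (γ.toFinset.card : ℝ) + 1 := by
        have h2 : (Fintype.card (St d) : ℝ) = K := by
          rw [Fintype.card_prod, Fintype.card_fin, Fintype.card_bool, hK]
          push_cast
          ring
        rw [h2, mul_inv_cancel₀ hK0.ne']
    _ ≤ γ.length + 1 := by
        have : (γ.toFinset.card : ℝ) ≤ γ.length := by exact_mod_cast List.toFinset_card_le γ
        linarith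

theorem TypC_sum (hK : K = 2 * d) (hK0 : 0 < K) (γ : List (St d)) (n : ℕ) (hγ : γ.length = n) :
    ∑ f : Fin n → St d, ∏ i, TypC_c K γ (f i) ≤ ((n : ℝ) + 1) ^ n := by
  rw [← Fintype.sum_pow]
  refine pow_le_pow_left₀ (Finset.sum_nonneg fun s _ => TypC_c_nonneg hK0 γ s) ?_ n
  have := TypC_sum_c hK hK0 γ
  rw [hγ] at this
  exact this

theorem TypC_prod (γ : List (St d)) {u : List (St d)} (hu : Val A u) :
    (u.map (TypC_c K γ)).prod = K⁻¹ ^ (u.toFinset \ γ.toFinset).card := by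
  classical
  have hn : u.Nodup := List.Nodup.of_map _ hu.1
  rw [← List.prod_toFinset (TypC_c K γ) hn]
  unfold TypC_c
  rw [Finset.prod_ite, Finset.prod_const_one, one_mul, Finset.prod_const]
  congr 2
  ext s
  simp only [Finset.mem_filter, Finset.mem_sdiff, List.mem_toFinset]

theorem TypC_pow {Θ K : ℝ} (hΘ : 1 ≤ Θ) (hK : 1 ≤ K) {q e n : ℕ} (h1 : q ≤ e) (h2 : e ≤ 2 * n) :
    (Θ / K) ^ e ≤ Θ ^ (2 * n) * K⁻¹ ^ q := by
  have hK0 : 0 < K := by linarith
  rw [div_eq_mul_inv, mul_pow]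
  refine mul_le_mul (pow_le_pow_right₀ hΘ h2) ?_ (by positivity) (by positivity)
  exact pow_le_pow_of_le_one (inv_pos.2 hK0).le (inv_le_one_of_one_le₀ hK) h1

theorem TypC_pow' {Θ K : ℝ} (hΘ : 1 ≤ Θ) (hK : 1 ≤ K) {q e n : ℕ} (h1 : q + 1 ≤ e)
    (h2 : e ≤ 2 * n) : (Θ / K) ^ e * K ≤ Θ ^ (2 * n) * K⁻¹ ^ q := by
  have hK0 : 0 < K := by linarith
  have h := mul_le_mul_of_nonneg_right (TypC_pow hΘ hK h1 h2) hK0.le
  refine h.trans (le_of_eq ?_)
  rw [pow_succ]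
  field_simp

theorem TypC_num {n a ρ : ℕ} {Ψ Θ : ℝ} (hn : 1 ≤ n) (ha : 1 ≤ a) (hρ : 1 ≤ ρ) (hΨ : 1 ≤ Ψ)
    (hΘ : 1 ≤ Θ) :
    ((n : ℝ) + 2) * (Ψ * Θ ^ (2 * n)) * ((n : ℝ) + 1) ^ n ≤ 10 * Bn n a ρ Ψ Θ := by
  have hn' : (1 : ℝ) ≤ n := by exact_mod_cast hn
  have ha' : (1 : ℝ) ≤ a := by exact_mod_cast ha
  have hρ' : (1 : ℝ) ≤ ρ := by exact_mod_cast hρ
  have h4 : (1 : ℝ) ≤ 4 * n := by linarith
  have e1 : ((n : ℝ) + 2) * ((n : ℝ) + 1) ^ n ≤ (4 * n) ^ (2 * n + 4) := by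
    calc ((n : ℝ) + 2) * ((n : ℝ) + 1) ^ n ≤ (4 * n) * (4 * n) ^ n :=
          mul_le_mul (by linarith) (pow_le_pow_left₀ (by linarith) (by linarith) n) (by positivity)
            (by positivity)
      _ = (4 * (n : ℝ)) ^ (n + 1) := by rw [pow_succ]; ring
      _ ≤ _ := pow_le_pow_right₀ h4 (by omega)
  have e2 : Θ ^ (2 * n) ≤ Θ ^ (2 * n + 4) := pow_le_pow_right₀ hΘ (by omega)
  have e3 : (((n : ℝ) + 2) * ((n : ℝ) + 1) ^ n) * Θ ^ (2 * n) ≤ (4 * n * Θ) ^ (2 * n + 4) := by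
    rw [mul_pow (4 * (n : ℝ))]
    exact mul_le_mul e1 e2 (by positivity) (by positivity)
  have e4 : 1 ≤ 10 * ((ρ : ℝ) * a) := by nlinarith
  have hX : 0 ≤ (4 * (n : ℝ) * Θ) ^ (2 * n + 4) := by positivity
  unfold Bn
  calc ((n : ℝ) + 2) * (Ψ * Θ ^ (2 * n)) * ((n : ℝ) + 1) ^ n
      = Ψ * ((((n : ℝ) + 2) * ((n : ℝ) + 1) ^ n) * Θ ^ (2 * n)) := by ring
    _ ≤ Ψ * (4 * n * Θ) ^ (2 * n + 4) := mul_le_mul_of_nonneg_left e3 (by linarith)
    _ ≤ (10 * ((ρ : ℝ) * a)) * (Ψ * (4 * n * Θ) ^ (2 * n + 4)) := by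
        refine le_mul_of_one_le_left (by positivity) e4
    _ = _ := by ring

/-! ### one list -/

/-- the bounds for one list -/
def TypC_E (n : ℕ) (σ : ℝ) (z : ℂ) (K W : ℝ) (Λ : Finset (Tor d L))
    (o : Tor d L) (γ : List (St d)) (u : List (St d)) (ξ : Tor d L → ℝ) : Prop :=
  ‖sol (NN d L) (full Λ (sites o γ)) (pot σ ξ) z (bx (NN d L) o) (ept o u)‖ ≤ W * K⁻¹ ∧
    ‖sol (NN d L) (full Λ (sites o γ)) (pot σ ξ) z (bx (NN d L) (ept o γ)) (ept o u)‖ ≤ W * K⁻¹ ∧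
    ∀ x ∈ sites o γ,
      ‖sol (NN d L) (full Λ (sites o γ)) (pot σ ξ) z (bx (NN d L) x) (ept o u)‖ ≤ W

theorem TypC_meas (hL : 5 ≤ L) (hz : 0 < z.im) (n : ℕ) (σ K W : ℝ) (Λ : Finset (Tor d L))
    (o : Tor d L) (γ u : List (St d)) :
    MeasurableSet {ξ : Tor d L → ℝ | TypC_E n σ z K W Λ o γ u ξ} := by
  have hN : Steps (NN d L) := steps_ND (by omega) _
  have hm : ∀ (x w : Tor d L) (c : ℝ), MeasurableSet {ξ : Tor d L → ℝ |
      ‖sol (NN d L) (full Λ (sites o γ)) (pot σ ξ) z (bx (NN d L) x) w‖ ≤ c} := fun x w c =>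
    measurableSet_le (nice_sol hN hz (bx (NN d L) x) w).norm.1 measurable_const
  have e : {ξ : Tor d L → ℝ | TypC_E n σ z K W Λ o γ u ξ} =
      {ξ : Tor d L → ℝ | ‖sol (NN d L) (full Λ (sites o γ)) (pot σ ξ) z (bx (NN d L) o) (ept o u)‖
        ≤ W * K⁻¹} ∩ ({ξ : Tor d L → ℝ | ‖sol (NN d L) (full Λ (sites o γ)) (pot σ ξ) z
          (bx (NN d L) (ept o γ)) (ept o u)‖ ≤ W * K⁻¹} ∩
        ⋂ x ∈ (sites o γ).toFinset, {ξ : Tor d L → ℝ | ‖sol (NN d L) (full Λ (sites o γ)) (pot σ ξ)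
          z (bx (NN d L) x) (ept o u)‖ ≤ W}) := by
    ext ξ
    simp only [TypC_E, Set.mem_ofPred_eq, Set.mem_inter_iff, Set.mem_iInter, List.mem_toFinset]
  rw [e]
  exact (hm _ _ _).inter ((hm _ _ _).inter
    (Finset.measurableSet_biInter _ fun x _ => hm _ _ _))

theorem TypC_one [IsProbabilityMeasure ν] (H : TypH d L ν G σ z K Θ Ψ θ W n a ρ)
    (P : PathH n a ρ A Λ o γ) {u : List (St d)} (hu : Val A u) (hun : u.length = n)
    (hc : ∃ s ∈ u, s ∈ γ) (hne : ept o u ≠ ept o γ) :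
    (PV ν (Tor d L)).real {ξ | ¬ TypC_E n σ z K W Λ o γ u ξ} ≤
      ((n : ℝ) + 2) * (Ψ * Θ ^ (2 * n)) / W * (u.map (TypC_c K γ)).prod := by
  classical
  have hL := H.hL
  have hz := H.hz
  have hN : Steps (NN d L) := steps_ND (by omega) _
  have hd1 : (1 : ℝ) ≤ d := by exact_mod_cast H.hd
  have hK1 : 1 ≤ K := by rw [H.hK]; linarith
  have hK0 : 0 < K := by linarith
  have hW0 : 0 < W := by linarith [H.hW]
  have hΨ0 : 0 < Ψ := by linarith [H.hΨ]
  have hΘ0 : 0 < Θ := by linarith [H.hΘ]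
  have hg := P.hγ
  -- the sets of steps
  have cu : u.toFinset.card = n := by rw [hu.card, hun]
  have cg : γ.toFinset.card = n := by rw [hg.card, P.len]
  obtain ⟨q, hq⟩ : ∃ q, q = (u.toFinset \ γ.toFinset).card := ⟨_, rfl⟩
  have i1 := Finset.card_sdiff_add_card_inter u.toFinset γ.toFinset
  have i2 := Finset.card_sdiff_add_card_inter γ.toFinset u.toFinset
  rw [Finset.inter_comm] at i2
  have hq2 : (γ.toFinset \ u.toFinset).card = q := by omega
  have hinter : 1 ≤ (u.toFinset ∩ γ.toFinset).card := by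
    obtain ⟨s, hs1, hs2⟩ := hc
    exact Finset.card_pos.2 ⟨s, by simp [hs1, hs2]⟩
  have hqn : q + 1 ≤ n := by omega
  have hq1 : 1 ≤ q := by
    by_contra hcon
    have h0 : q = 0 := by omega
    rw [hq, Finset.card_eq_zero, Finset.sdiff_eq_empty_iff_subset] at h0
    have h3 : u.toFinset = γ.toFinset := Finset.eq_of_subset_of_card_le h0 (by omega)
    apply hne
    rw [ept_eq_vec hu, ept_eq_vec hg, h3]
  rw [TypC_prod γ hu, ← hq]
  -- the removed sites
  have hA' : (A ∪ dirs γ).card ≤ a := by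
    have h1 := Finset.card_union_le A (dirs γ)
    rw [card_dirs hg, P.len] at h1
    have := P.hA
    omega
  have hAr := around_full hL P.hΛ hg
  have hoΛ : o ∈ full Λ (sites o γ) := subset_full _ _ P.hΛ.1
  have hsΛ : ∀ x ∈ sites o γ, x ∈ full Λ (sites o γ) := fun x hx => (mem_full _ _ _).2 (Or.inr hx)
  have hρ := P.hρ o P.hΛ.1
  have hmom : ∀ x ∈ full Λ (sites o γ), ∀ e : ℕ, wt (ept o u - x) = e → e ≤ 2 * n →
      ∫ ξ, ‖sol (NN d L) (full Λ (sites o γ)) (pot σ ξ) z (bx (NN d L) x) (ept o u)‖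
        ∂(PV ν (Tor d L)) ≤ Ψ * (Θ / K) ^ e := by
    intro x hx e he he2
    have h := H.mom (A ∪ dirs γ) o (full Λ (sites o γ)) hA' hAr x hx (ept o u) (by omega)
    rw [he] at h
    exact h
  have hmk : ∀ (x : Tor d L) (c : ℝ), 0 < c →
      (PV ν (Tor d L)).real {ξ | c ≤ ‖sol (NN d L) (full Λ (sites o γ)) (pot σ ξ) z
        (bx (NN d L) x) (ept o u)‖} ≤
      (∫ ξ, ‖sol (NN d L) (full Λ (sites o γ)) (pot σ ξ) z (bx (NN d L) x) (ept o u)‖
        ∂(PV ν (Tor d L))) / c := fun x c hc0 =>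
    markov ν (nice_sol hN hz (bx (NN d L) x) (ept o u)).norm (fun ξ => norm_nonneg _) hc0
  have hWK : 0 < W * K⁻¹ := by positivity
  -- the constant
  obtain ⟨B, hB⟩ : ∃ B : ℝ, B = Ψ * Θ ^ (2 * n) / W * K⁻¹ ^ q := ⟨_, rfl⟩
  have b1 : ∀ x ∈ full Λ (sites o γ), ∀ e : ℕ, wt (ept o u - x) = e → q + 1 ≤ e → e ≤ 2 * n →
      (PV ν (Tor d L)).real {ξ | W * K⁻¹ ≤ ‖sol (NN d L) (full Λ (sites o γ)) (pot σ ξ) z
        (bx (NN d L) x) (ept o u)‖} ≤ B := by
    intro x hx e he h1 h2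
    refine (hmk x _ hWK).trans ?_
    rw [div_le_iff₀ hWK]
    refine (hmom x hx e he h2).trans ?_
    have h3 := TypC_pow' (n := n) H.hΘ hK1 h1 h2
    have h4 : B * (W * K⁻¹) = Ψ * (Θ ^ (2 * n) * K⁻¹ ^ q) * K⁻¹ := by
      rw [hB]
      field_simp
    have h5 : Ψ * (Θ / K) ^ e = Ψ * ((Θ / K) ^ e * K) * K⁻¹ := by
      field_simp
    rw [h4, h5]
    gcongr
  have b2 : ∀ x ∈ sites o γ,
      (PV ν (Tor d L)).real {ξ | W ≤ ‖sol (NN d L) (full Λ (sites o γ)) (pot σ ξ) z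
        (bx (NN d L) x) (ept o u)‖} ≤ B := by
    intro x hx
    refine (hmk x _ hW0).trans ?_
    rw [div_le_iff₀ hW0]
    obtain ⟨k, hk, hxk⟩ := mem_sites.1 hx
    have hv : Val A (γ.take (k + 1)) := hg.take _
    have hw := wt_ept_ept (o := o) hL hu hv
    rw [← hxk] at hw
    have hsub : (γ.take (k + 1)).toFinset ⊆ γ.toFinset := by
      intro s hs
      rw [List.mem_toFinset] at hs ⊢
      exact List.mem_of_mem_take hs
    have h6 : q ≤ (u.toFinset \ (γ.take (k + 1)).toFinset).card := by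
      rw [hq]
      exact Finset.card_le_card (Finset.sdiff_subset_sdiff (Finset.Subset.refl _) hsub)
    have h7 : (u.toFinset \ (γ.take (k + 1)).toFinset).card ≤ n := by
      rw [← cu]
      exact Finset.card_le_card Finset.sdiff_subset
    have h8 : ((γ.take (k + 1)).toFinset \ u.toFinset).card ≤ n := by
      rw [← cg]
      exact Finset.card_le_card (Finset.sdiff_subset.trans hsub)
    refine (hmom x (hsΛ x hx) _ hw (by omega)).trans ?_
    have h3 := TypC_pow (n := n) H.hΘ hK1 (q := q)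
      (e := (u.toFinset \ (γ.take (k + 1)).toFinset).card +
        ((γ.take (k + 1)).toFinset \ u.toFinset).card) (by omega) (by omega)
    have h4 : B * W = Ψ * (Θ ^ (2 * n) * K⁻¹ ^ q) := by
      rw [hB]
      field_simp
    rw [h4]
    gcongr
  have hγ0 : γ ≠ [] := by
    intro h
    have := P.len
    rw [h, List.length_nil] at this
    have := H.hn
    omega
  have c1 := b1 o hoΛ n (by rw [wt_ept hL hu, hun]) hqn (by omega)
  have c2 := b1 (ept o γ) (hsΛ _ (ept_mem_sites hγ0)) (q + q)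
    (by rw [wt_ept_ept hL hu hg, ← hq, hq2]) (by omega) (by omega)
  have hsub : {ξ : Tor d L → ℝ | ¬ TypC_E n σ z K W Λ o γ u ξ} ⊆
      {ξ | W * K⁻¹ ≤ ‖sol (NN d L) (full Λ (sites o γ)) (pot σ ξ) z
        (bx (NN d L) o) (ept o u)‖} ∪
      ({ξ | W * K⁻¹ ≤ ‖sol (NN d L) (full Λ (sites o γ)) (pot σ ξ) z
        (bx (NN d L) (ept o γ)) (ept o u)‖} ∪
      ⋃ x ∈ (sites o γ).toFinset, {ξ | W ≤ ‖sol (NN d L) (full Λ (sites o γ)) (pot σ ξ) z
        (bx (NN d L) x) (ept o u)‖}) := by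
    intro ξ hξ
    simp only [Set.mem_ofPred_eq] at hξ
    by_contra hcon
    simp only [Set.mem_union, Set.mem_ofPred_eq, Set.mem_iUnion, List.mem_toFinset, not_or,
      not_le, not_exists] at hcon
    apply hξ
    exact ⟨hcon.1.le, hcon.2.1.le, fun x hx => (hcon.2.2 x hx).le⟩
  have c3 : (PV ν (Tor d L)).real (⋃ x ∈ (sites o γ).toFinset,
      {ξ | W ≤ ‖sol (NN d L) (full Λ (sites o γ)) (pot σ ξ) z
        (bx (NN d L) x) (ept o u)‖}) ≤ n * B := by
    refine (measureReal_biUnion_finset_le _ _).trans ?_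
    have hB0 : 0 ≤ B := by rw [hB]; positivity
    calc _ ≤ ∑ x ∈ (sites o γ).toFinset, B :=
          Finset.sum_le_sum fun x hx => b2 x (List.mem_toFinset.1 hx)
      _ = ((sites o γ).toFinset.card : ℝ) * B := by rw [Finset.sum_const, nsmul_eq_mul]
      _ ≤ n * B := by
          have h9 := List.toFinset_card_le (sites o γ)
          rw [length_sites, P.len] at h9
          have h10 : ((sites o γ).toFinset.card : ℝ) ≤ n := by exact_mod_cast h9
          exact mul_le_mul_of_nonneg_right h10 hB0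
  refine (measureReal_mono hsub).trans ((measureReal_union_le _ _).trans ?_)
  have c4 := measureReal_union_le (μ := PV ν (Tor d L))
    {ξ | W * K⁻¹ ≤ ‖sol (NN d L) (full Λ (sites o γ)) (pot σ ξ) z
        (bx (NN d L) (ept o γ)) (ept o u)‖}
    (⋃ x ∈ (sites o γ).toFinset, {ξ | W ≤ ‖sol (NN d L) (full Λ (sites o γ)) (pot σ ξ) z
        (bx (NN d L) x) (ept o u)‖})
  have e : ((n : ℝ) + 2) * (Ψ * Θ ^ (2 * n)) / W * K⁻¹ ^ q = ((n : ℝ) + 2) * B := by
    rw [hB]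
    ring
  rw [e]
  linarith

/-- Proof. Measurability: countably many (lists) measurable conditions (`nice_sol`).
Probability: union bound and Markov's inequality (`markov` of SB/Prb), `Mom` for the removed sites
`full Λ (sites o γ)` (`around_full`).
The number of lists `u` of length `n` which have exactly `p` entries in `γ` is at most
`n.choose p * n^p * K^(n - p)` (`K = 2 d` is the number of signed directions).  For such a `u`, with
`w = ept o u` and `x_k` the `k`th site of `γ` (`x_0 = o`): `wt (w - x_k) = k + n - 2 p_k`, where `p_k` is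
the number of the first `k` steps of `γ` which belong to `u` (`wt_ept_ept`), `p_k ≤ p`, `p_k ≤ k`.
`k = 0`: failure probability at most `Ψ (Θ/K)^n K / W`, and `p ≥ 1`; `k = n` (`p_n = p`, and `p < n`
because `ept o u ≠ ept o γ`): `Ψ (Θ/K)^(2n-2p) K / W`; `1 ≤ k`: `Ψ (Θ/K)^(k+n-2p_k) / W`,
multiplied with `K^(n-p)` the power of `K` is at most one in all cases.  So the sum is at most
`(n + 2) (n + 1) 2^n n^n Ψ Θ^(2n) / W`. -/
theorem typ_tb [IsProbabilityMeasure ν] (H : TypH d L ν G σ z K Θ Ψ θ W n a ρ)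
    (P : PathH n a ρ A Λ o γ) :
    MeasurableSet {ξ : Tor d L → ℝ | TbC n σ z K W A Λ o γ ξ} ∧
    (PV ν (Tor d L)).real {ξ | ¬ TbC n σ z K W A Λ o γ ξ} ≤ 10 * Bn n a ρ Ψ Θ / W := by
  classical
  have hd1 : (1 : ℝ) ≤ d := by exact_mod_cast H.hd
  have hK1 : 1 ≤ K := by rw [H.hK]; linarith
  have hK0 : 0 < K := by linarith
  have hW0 : 0 < W := by linarith [H.hW]
  have hΨ0 : 0 < Ψ := by linarith [H.hΨ]
  have hΘ0 : 0 < Θ := by linarith [H.hΘ]
  -- the condition on the lists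
  let C : List (St d) → Prop := fun u => Val A u ∧ u.length = n ∧ (∃ s ∈ u, s ∈ γ) ∧
    ept o u ≠ ept o γ
  have hTb : ∀ ξ, TbC n σ z K W A Λ o γ ξ ↔ ∀ u, C u → TypC_E n σ z K W Λ o γ u ξ := by
    intro ξ
    constructor
    · intro h u hu
      exact h u hu.1 hu.2.1 hu.2.2.1 hu.2.2.2
    · intro h u h1 h2 h3 h4
      exact h u ⟨h1, h2, h3, h4⟩
  have hm : ∀ u, MeasurableSet {ξ : Tor d L → ℝ | TypC_E n σ z K W Λ o γ u ξ} := fun u =>
    TypC_meas H.hL H.hz n σ K W Λ o γ u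
  constructor
  · have e : {ξ : Tor d L → ℝ | TbC n σ z K W A Λ o γ ξ} =
        ⋂ u : List (St d), {ξ | C u → TypC_E n σ z K W Λ o γ u ξ} := by
      ext ξ
      rw [Set.mem_iInter]
      exact hTb ξ
    rw [e]
    refine MeasurableSet.iInter fun u => ?_
    by_cases hu : C u
    · have e2 : {ξ : Tor d L → ℝ | C u → TypC_E n σ z K W Λ o γ u ξ} =
          {ξ : Tor d L → ℝ | TypC_E n σ z K W Λ o γ u ξ} := by
        ext ξ
        exact ⟨fun h => h hu, fun h _ => h⟩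
      rw [e2]
      exact hm u
    · have e2 : {ξ : Tor d L → ℝ | C u → TypC_E n σ z K W Λ o γ u ξ} = Set.univ := by
        ext ξ
        exact ⟨fun _ => trivial, fun _ h => absurd h hu⟩
      rw [e2]
      exact MeasurableSet.univ
  · have hsub : {ξ : Tor d L → ℝ | ¬ TbC n σ z K W A Λ o γ ξ} ⊆
        ⋃ f ∈ (univ : Finset (Fin n → St d)),
          {ξ | C (List.ofFn f) ∧ ¬ TypC_E n σ z K W Λ o γ (List.ofFn f) ξ} := by
      intro ξ hξ
      have hξ' : ¬ ∀ u, C u → TypC_E n σ z K W Λ o γ u ξ := fun h => hξ ((hTb ξ).2 h)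
      push Not at hξ'
      obtain ⟨u, hu, hnu⟩ := hξ'
      obtain ⟨f, rfl⟩ : ∃ f : Fin n → St d, List.ofFn f = u := by
        obtain rfl := hu.2.1
        exact ⟨u.get, List.ofFn_get u⟩
      simp only [Set.mem_iUnion]
      exact ⟨f, mem_univ _, hu, hnu⟩
    have hone : ∀ f : Fin n → St d, (PV ν (Tor d L)).real
        {ξ | C (List.ofFn f) ∧ ¬ TypC_E n σ z K W Λ o γ (List.ofFn f) ξ} ≤
        ((n : ℝ) + 2) * (Ψ * Θ ^ (2 * n)) / W * ∏ i, TypC_c K γ (f i) := by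
      intro f
      have hprod : ((List.ofFn f).map (TypC_c K γ)).prod = ∏ i, TypC_c K γ (f i) := by
        rw [List.map_ofFn, List.prod_ofFn]
        rfl
      by_cases hu : C (List.ofFn f)
      · rw [← hprod]
        refine le_trans (measureReal_mono fun ξ hξ => ?_)
          (TypC_one H P hu.1 hu.2.1 hu.2.2.1 hu.2.2.2)
        exact hξ.2
      · have e2 : {ξ : Tor d L → ℝ | C (List.ofFn f) ∧
            ¬ TypC_E n σ z K W Λ o γ (List.ofFn f) ξ} = ∅ := by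
          ext ξ
          exact ⟨fun h => hu h.1, fun h => h.elim⟩
        rw [e2, measureReal_empty]
        have : 0 ≤ ∏ i, TypC_c K γ (f i) :=
          Finset.prod_nonneg fun i _ => TypC_c_nonneg hK0 γ _
        positivity
    have hρ := P.hρ o P.hΛ.1
    have ha : 1 ≤ a := by
      have := P.hA
      have := H.hn
      omega
    calc (PV ν (Tor d L)).real {ξ | ¬ TbC n σ z K W A Λ o γ ξ}
        ≤ (PV ν (Tor d L)).real (⋃ f ∈ (univ : Finset (Fin n → St d)),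
          {ξ | C (List.ofFn f) ∧ ¬ TypC_E n σ z K W Λ o γ (List.ofFn f) ξ}) :=
          measureReal_mono hsub (measure_ne_top (PV ν (Tor d L)) _)
      _ ≤ ∑ f : Fin n → St d, (PV ν (Tor d L)).real
          {ξ | C (List.ofFn f) ∧ ¬ TypC_E n σ z K W Λ o γ (List.ofFn f) ξ} :=
          measureReal_biUnion_finset_le _ _
      _ ≤ ∑ f : Fin n → St d, ((n : ℝ) + 2) * (Ψ * Θ ^ (2 * n)) / W * ∏ i, TypC_c K γ (f i) :=
          Finset.sum_le_sum fun f _ => hone f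
      _ = ((n : ℝ) + 2) * (Ψ * Θ ^ (2 * n)) / W *
          ∑ f : Fin n → St d, ∏ i, TypC_c K γ (f i) := by rw [Finset.mul_sum]
      _ ≤ ((n : ℝ) + 2) * (Ψ * Θ ^ (2 * n)) / W * ((n : ℝ) + 1) ^ n :=
          mul_le_mul_of_nonneg_left (TypC_sum H.hK hK0 γ n P.len) (by positivity)
      _ = ((n : ℝ) + 2) * (Ψ * Θ ^ (2 * n)) * ((n : ℝ) + 1) ^ n / W := by ring
      _ ≤ 10 * Bn n a ρ Ψ Θ / W := by
          have := TypC_num (n := n) (a := a) (ρ := ρ) H.hn ha (by omega) H.hΨ H.hΘ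
          gcongr

end Pool.Agent.H989.SB
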