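import Pool.Agent.H989.SB.TypH

/-!
Probability that the potential on the cube of a path is not small.
-/

set_option linter.unusedSectionVars false
set_option linter.unusedVariables false

open MeasureTheory ProbabilityTheory Finset

namespace Pool.Agent.H989.SB

variable {d L : ℕ} [NeZero L] {ν : Measure ℝ} {G σ : ℝ} {z : ℂ} {K Θ Ψ θ W : ℝ} {n a ρ : ℕ}
  {A : Finset (Fin d)} {Λ : Finset (Tor d L)} {o : Tor d L} {γ : List (St d)}

/-- the condition `Tp.cube` -/
def CubeC (σ : ℝ) (z : ℂ) (K θ : ℝ) (A : Finset (Fin d)) (Λ : Finset (Tor d L))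
    (o : Tor d L) (γ : List (St d)) (ξ : Tor d L → ℝ) : Prop :=
  ∀ u : List (St d), Val A u → (∀ s ∈ u, s ∈ γ) → ept o u ∉ full Λ (sites o γ) →
    5 * (K * θ) < |σ * ξ (ept o u) - z.re|

section TypDaux

/-- the coordinate `ξ w` has the law `ν` -/
lemma TypD_eval [IsProbabilityMeasure ν] (w : Tor d L) {S : Set ℝ} (hS : MeasurableSet S) :
    (PV ν (Tor d L)).real {ξ | ξ w ∈ S} = ν.real S := by
  have h := (measurePreserving_eval (fun _ : Tor d L => ν) w).measure_preimage hS.nullMeasurableSet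
  rw [Measure.real, Measure.real, ← h]
  rfl

/-- one site -/
lemma TypD_one [IsProbabilityMeasure ν] (hlaw : Law ν G) (hG : 0 < G) (hK : 0 < K) (hθ : 0 < θ)
    (hσ : K ≤ σ) (w : Tor d L) :
    (PV ν (Tor d L)).real {ξ | |σ * ξ w - z.re| ≤ 5 * (K * θ)} ≤ 10 * G * θ := by
  have hσ0 : 0 < σ := lt_of_lt_of_le hK hσ
  have hset : {ξ : Tor d L → ℝ | |σ * ξ w - z.re| ≤ 5 * (K * θ)}
      ⊆ {ξ | ξ w ∈ Set.Icc ((z.re - 5 * (K * θ)) / σ) ((z.re + 5 * (K * θ)) / σ)} := by
    intro ξ hξ
    have hξ' : |σ * ξ w - z.re| ≤ 5 * (K * θ) := hξ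
    have h := abs_le.1 hξ'
    refine ⟨?_, ?_⟩
    · rw [div_le_iff₀ hσ0]
      linarith [h.1, mul_comm σ (ξ w)]
    · rw [le_div_iff₀ hσ0]
      linarith [h.2, mul_comm σ (ξ w)]
  have hKθ : 0 < K * θ := mul_pos hK hθ
  have hle : (z.re - 5 * (K * θ)) / σ ≤ (z.re + 5 * (K * θ)) / σ := by
    apply div_le_div_of_nonneg_right _ hσ0.le
    linarith
  calc (PV ν (Tor d L)).real {ξ | |σ * ξ w - z.re| ≤ 5 * (K * θ)}
      ≤ (PV ν (Tor d L)).real
          {ξ | ξ w ∈ Set.Icc ((z.re - 5 * (K * θ)) / σ) ((z.re + 5 * (K * θ)) / σ)} :=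
        measureReal_mono hset
    _ = ν.real (Set.Icc ((z.re - 5 * (K * θ)) / σ) ((z.re + 5 * (K * θ)) / σ)) :=
        TypD_eval w measurableSet_Icc
    _ ≤ G * ((z.re + 5 * (K * θ)) / σ - (z.re - 5 * (K * θ)) / σ) := hlaw.Icc_le hle
    _ = G * (10 * θ * (K / σ)) := by
        field_simp
        ring
    _ ≤ G * (10 * θ * 1) := by
        apply mul_le_mul_of_nonneg_left _ hG.le
        apply mul_le_mul_of_nonneg_left _ (by positivity)
        rw [div_le_one hσ0]
        exact hσ
    _ = 10 * G * θ := by ring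

/-- the finite set of lists of length at most `n` with entries in `γ` -/
def TypD_F (n : ℕ) (γ : List (St d)) : Finset (List (St d)) :=
  (Finset.range (n + 1) ×ˢ Fintype.piFinset (fun _ : Fin n => γ.toFinset)).image
    (fun p => (List.ofFn p.2).take p.1)

lemma TypD_mem (hγ : γ.length = n) (hn : 1 ≤ n) {u : List (St d)} (hu : u.length ≤ n)
    (h : ∀ s ∈ u, s ∈ γ) : u ∈ TypD_F n γ := by
  have hne : γ ≠ [] := by
    intro h0
    rw [h0] at hγ
    simp at hγ
    omega
  unfold TypD_F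
  rw [Finset.mem_image]
  refine ⟨(u.length, fun i : Fin n => if h : (i : ℕ) < u.length then u[(i : ℕ)] else γ.head hne), ?_, ?_⟩
  · rw [Finset.mem_product]
    refine ⟨?_, ?_⟩
    · simp only [Finset.mem_range]
      omega
    · rw [Fintype.mem_piFinset]
      intro i
      simp only [List.mem_toFinset]
      split_ifs with hi
      · exact h _ (List.getElem_mem hi)
      · exact List.head_mem hne
  · apply List.ext_getElem
    · simp only [List.length_take, List.length_ofFn]
      omega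
    · intro i h1 h2
      simp only [List.getElem_take, List.getElem_ofFn]
      rw [dif_pos h2]

lemma TypD_card (hγ : γ.length = n) (hn : 1 ≤ n) :
    ((TypD_F n γ).card : ℝ) ≤ (2 * n) ^ (n + 1) := by
  have h1 : (TypD_F n γ).card ≤ (n + 1) * n ^ n := by
    unfold TypD_F
    refine Finset.card_image_le.trans ?_
    rw [Finset.card_product, Finset.card_range, Fintype.card_piFinset]
    simp only [Finset.prod_const, Finset.card_univ, Fintype.card_fin]
    apply Nat.mul_le_mul_left
    apply Nat.pow_le_pow_left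
    rw [← hγ]
    exact List.toFinset_card_le γ
  have h2 : (n + 1) * n ^ n ≤ (2 * n) ^ (n + 1) := by
    rw [pow_succ, mul_comm]
    apply Nat.mul_le_mul
    · exact Nat.pow_le_pow_left (by omega) n
    · omega
  have h3 : (TypD_F n γ).card ≤ (2 * n) ^ (n + 1) := h1.trans h2
  exact_mod_cast h3

/-- length of a duplicate free list with entries in `γ` -/
lemma TypD_len (hγ : γ.length = n) {u : List (St d)} (hu : Val A u) (h : ∀ s ∈ u, s ∈ γ) :
    u.length ≤ n := by
  have h1 : u.Nodup := List.Nodup.of_map _ hu.1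
  have h2 : u.toFinset ⊆ γ.toFinset := by
    intro s hs
    rw [List.mem_toFinset] at hs ⊢
    exact h s hs
  calc u.length = u.toFinset.card := (List.toFinset_card_of_nodup h1).symm
    _ ≤ γ.toFinset.card := Finset.card_le_card h2
    _ ≤ γ.length := List.toFinset_card_le γ
    _ = n := hγ

end TypDaux

/-- Proof. The lists `u` are duplicate free (`Val`) with entries in `γ`, so of length at most `n`, and
there are at most `∑_{l ≤ n} n^l ≤ (2n)^(n+1)` of them; for each of them the probability of failure is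
`ν {t | |σ t - Re z| ≤ 5 K θ} ≤ G * 10 K θ / σ ≤ 10 G θ` (`Law.Icc_le`; the coordinate `ξ w` has the
law `ν`: `measurePreserving_eval` for `Measure.pi`). -/
theorem typ_cube [IsProbabilityMeasure ν] (H : TypH d L ν G σ z K Θ Ψ θ W n a ρ)
    (P : PathH n a ρ A Λ o γ) :
    MeasurableSet {ξ : Tor d L → ℝ | CubeC σ z K θ A Λ o γ ξ} ∧
    (PV ν (Tor d L)).real {ξ | ¬ CubeC σ z K θ A Λ o γ ξ} ≤ 10 * G * (2 * n) ^ (n + 1) * θ := by
  classical
  have hK : 0 < K := by
    rw [H.hK]
    have := H.hd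
    positivity
  refine ⟨?_, ?_⟩
  · have hset : {ξ : Tor d L → ℝ | CubeC σ z K θ A Λ o γ ξ}
        = ⋂ (u : List (St d)) (_ : Val A u) (_ : ∀ s ∈ u, s ∈ γ)
            (_ : ept o u ∉ full Λ (sites o γ)),
            {ξ | 5 * (K * θ) < |σ * ξ (ept o u) - z.re|} := by
      ext ξ
      simp only [Set.mem_iInter, Set.mem_ofPred_eq, CubeC]
    rw [hset]
    refine MeasurableSet.iInter fun u => MeasurableSet.iInter fun _ => MeasurableSet.iInter fun _ =>
      MeasurableSet.iInter fun _ => ?_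
    apply measurableSet_lt measurable_const
    have h1 : Measurable fun ξ : Tor d L → ℝ => ξ (ept o u) := measurable_pi_apply (ept o u)
    have h2 : Measurable fun ξ : Tor d L → ℝ => σ * ξ (ept o u) - z.re :=
      (h1.const_mul σ).sub_const z.re
    exact h2.abs
  · have hsub : {ξ : Tor d L → ℝ | ¬ CubeC σ z K θ A Λ o γ ξ}
        ⊆ ⋃ u ∈ TypD_F n γ, {ξ | |σ * ξ (ept o u) - z.re| ≤ 5 * (K * θ)} := by
      intro ξ hξ
      simp only [Set.mem_ofPred_eq, CubeC, not_forall] at hξ
      obtain ⟨u, hu, h1, _, h3⟩ := hξ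
      simp only [Set.mem_iUnion, Set.mem_ofPred_eq]
      exact ⟨u, TypD_mem P.len H.hn (TypD_len P.len hu h1) h1, not_lt.1 h3⟩
    calc (PV ν (Tor d L)).real {ξ | ¬ CubeC σ z K θ A Λ o γ ξ}
        ≤ (PV ν (Tor d L)).real (⋃ u ∈ TypD_F n γ, {ξ | |σ * ξ (ept o u) - z.re| ≤ 5 * (K * θ)}) :=
          measureReal_mono hsub (measure_ne_top _ _)
      _ ≤ ∑ u ∈ TypD_F n γ, (PV ν (Tor d L)).real {ξ | |σ * ξ (ept o u) - z.re| ≤ 5 * (K * θ)} :=
          measureReal_biUnion_finset_le _ _
      _ ≤ ∑ u ∈ TypD_F n γ, 10 * G * θ :=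
          Finset.sum_le_sum fun u _ => TypD_one H.law H.hG hK H.hθ H.hσ _
      _ = ((TypD_F n γ).card : ℝ) * (10 * G * θ) := by
          rw [Finset.sum_const, nsmul_eq_mul]
      _ ≤ (2 * n) ^ (n + 1) * (10 * G * θ) := by
          apply mul_le_mul_of_nonneg_right (TypD_card P.len H.hn)
          have := H.hG
          have := H.hθ
          positivity
      _ = 10 * G * (2 * n) ^ (n + 1) * θ := by ring

end Pool.Agent.H989.SB
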