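import Pool.Agent.H989.SB.TypH

/-!
Probability of the amplitude bounds along other paths.
-/

set_option linter.unusedSectionVars false
set_option linter.unusedVariables false

open MeasureTheory ProbabilityTheory Finset

namespace Pool.Agent.H989.SB

variable {d L : ℕ} [NeZero L] {ν : Measure ℝ} {G σ : ℝ} {z : ℂ} {K Θ Ψ θ W : ℝ} {n a ρ : ℕ}
  {A : Finset (Fin d)} {Λ : Finset (Tor d L)} {o : Tor d L} {γ : List (St d)}

/-- the condition `Tp.pre` -/
def PreC (n : ℕ) (σ : ℝ) (z : ℂ) (K W : ℝ) (A : Finset (Fin d)) (Λ : Finset (Tor d L))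
    (o : Tor d L) (γ : List (St d)) (ξ : Tor d L → ℝ) : Prop :=
  ∀ u : List (St d), Val A u → u.length = n → (∀ s ∈ u, s ∉ γ) → ∀ k : ℕ, k < n →
    (∀ x ∈ full Λ (sites o γ),
      ‖sol (NN d L) (full (full Λ (sites o γ)) (sites o (u.take k))) (pot σ ξ) z (bx (NN d L) x)
        (ept o (u.take (k + 1)))‖ ≤ W * K⁻¹ ^ (hgt Λ o x)) ∧
    (∀ x ∈ sites o γ,
      ‖Qf (NN d L) (insert (ept o (u.take (k + 1)))
          (full (full Λ (sites o γ)) (sites o (u.take k)))) (pot σ ξ) z x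
        (ept o (u.take (k + 1)))‖ ≤ W * K * K⁻¹ ^ (hgt Λ o x))

theorem typE_union {α ι : Type*} [MeasurableSpace α] (μ : Measure α) [IsFiniteMeasure μ]
    (s : Finset ι) (E : ι → Set α) {S : Set α} (h : ∀ ξ ∈ S, ∃ i ∈ s, ξ ∈ E i) :
    μ.real S ≤ ∑ i ∈ s, μ.real (E i) := by
  refine (measureReal_mono (s₂ := ⋃ i ∈ s, E i) (fun ξ hξ => ?_) (measure_ne_top _ _)).trans
    (measureReal_biUnion_finset_le s E)
  obtain ⟨i, hi, hi2⟩ := h ξ hξ
  exact Set.mem_biUnion hi hi2

theorem typE_markov [IsProbabilityMeasure ν] {f : (Tor d L → ℝ) → ℝ} (hf : Nice f)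
    (h0 : ∀ ξ, 0 ≤ f ξ) {q C : ℝ} (hW : 0 < W) (hq : 0 < q)
    (hint : ∫ ξ, f ξ ∂(PV ν (Tor d L)) ≤ C * q) :
    (PV ν (Tor d L)).real {ξ | ¬ f ξ ≤ W * q} ≤ C / W := by
  have h1 : (PV ν (Tor d L)).real {ξ | ¬ f ξ ≤ W * q} ≤
      (PV ν (Tor d L)).real {ξ | W * q ≤ f ξ} :=
    measureReal_mono fun ξ hξ => (not_le.1 hξ).le
  have h2 := markov ν hf h0 (a := W * q) (mul_pos hW hq)
  refine (h1.trans h2).trans ?_
  rw [div_le_div_iff₀ (mul_pos hW hq) hW]
  calc (∫ ξ, f ξ ∂(PV ν (Tor d L))) * W ≤ C * q * W := mul_le_mul_of_nonneg_right hint hW.le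
    _ = C * (W * q) := by ring

theorem typE_supA_mono {A B : Finset (Fin d)} (h : A ⊆ B) {x : Tor d L} (hx : SupA A x) :
    SupA B x := fun i hi => hx i fun h' => hi (h h')

theorem typE_around (hL : 5 ≤ L) (hΛ : Around A o Λ) (hγ : Val A γ) {u : List (St d)}
    (hu : Val A u) {Λ' : Finset (Tor d L)} (ho : o ∈ Λ')
    (h : ∀ y ∈ Λ', y ∈ full Λ (sites o γ) ∨ y ∈ sites o u) :
    Around (A ∪ dirs γ ∪ dirs u) o Λ' := by
  refine ⟨ho, fun y hy => ?_⟩
  rcases h y hy with h1 | h1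
  · exact typE_supA_mono Finset.subset_union_left ((around_full hL hΛ hγ).2 y h1)
  · refine typE_supA_mono ?_ ((around_full hL hΛ hu).2 y ((mem_full _ _ _).2 (Or.inr h1)))
    exact Finset.union_subset_union_left Finset.subset_union_left

theorem typE_card (hγ : Val A γ) {u : List (St d)} (hu : Val A u)
    (ha : A.card + 2 * n ≤ a) (h1 : γ.length = n) (h2 : u.length ≤ n) :
    (A ∪ dirs γ ∪ dirs u).card ≤ a := by
  have h3 := Finset.card_union_le (A ∪ dirs γ) (dirs u)
  have h4 := Finset.card_union_le A (dirs γ)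
  rw [card_dirs hu] at h3
  rw [card_dirs hγ] at h4
  omega

/-- distance of the end point from the sites of the path -/
theorem typE_wt_site (hL : 5 ≤ L) (hγ : Val A γ) {u : List (St d)} (hu : Val A u)
    (hd : ∀ s ∈ u, s ∉ γ) {j : ℕ} (hj : j < γ.length) :
    wt (ept o u - ept o (γ.take (j + 1))) = u.length + (j + 1) := by
  have hg := hγ.take (j + 1)
  rw [wt_ept_ept hL hu hg]
  have hdis : Disjoint u.toFinset (γ.take (j + 1)).toFinset := by
    rw [Finset.disjoint_left]
    intro s hs hs2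
    rw [List.mem_toFinset] at hs hs2
    exact hd s hs (List.mem_of_mem_take hs2)
  rw [Finset.sdiff_eq_self_of_disjoint hdis, Finset.sdiff_eq_self_of_disjoint hdis.symm, hu.card,
    hg.card, List.length_take]
  omega

theorem typE_hgt_le (Λ : Finset (Tor d L)) (o : Tor d L) {x : Tor d L} (hx : x ∈ Λ) :
    hgt Λ o x ≤ 1 ∧ hgt Λ o x ≤ wt (x - o) := by
  unfold hgt
  by_cases h : x = o
  · simp [h]
  · simp only [h, hx, if_false, if_true]
    refine ⟨le_rfl, ?_⟩
    rw [Nat.one_le_iff_ne_zero]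
    intro h2
    exact h (sub_eq_zero.1 (wt_eq_zero.1 h2))

/-- the distance from the removed sites, and the height -/
theorem typE_dist (hL : 5 ≤ L) (P : PathH n a ρ A Λ o γ) (hn : 1 ≤ n) {u : List (St d)}
    (hu : Val A u) (hd : ∀ s ∈ u, s ∉ γ) (hun : u.length ≤ n) {x : Tor d L}
    (hx : x ∈ full Λ (sites o γ)) :
    hgt Λ o x + u.length ≤ wt (ept o u - x) ∧ hgt Λ o x ≤ n ∧ wt (ept o u - x) ≤ ρ := by
  rcases (mem_full _ _ _).1 hx with h | h
  · have h1 := typE_hgt_le Λ o h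
    have h2 := wt_ept_sub hL P.hΛ hu h
    have h3 := P.hρ x h
    refine ⟨?_, by omega, ?_⟩
    · rw [h2]; omega
    · rw [h2]; omega
  · obtain ⟨j, hj, rfl⟩ := mem_sites.1 h
    have h1 := hgt_site hL P.hΛ P.hγ (sites_get o γ j hj)
    have h2 := typE_wt_site (o := o) hL P.hγ hu hd hj
    have h3 := P.hρ o P.hΛ.1
    have h4 := P.len
    refine ⟨?_, ?_, ?_⟩
    · rw [h1, h2]; omega
    · rw [h1]; omega
    · rw [h2]; omega

theorem typE_o_mem (hΛ : Around A o Λ) (xs ys : List (Tor d L)) : o ∈ full (full Λ xs) ys :=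
  subset_full _ _ (subset_full _ _ hΛ.1)

theorem typE_p1 [IsProbabilityMeasure ν] (H : TypH d L ν G σ z K Θ Ψ θ W n a ρ)
    (P : PathH n a ρ A Λ o γ) {u : List (St d)} (hu : Val A u) (hd : ∀ s ∈ u, s ∉ γ) {k : ℕ}
    (hk : k < n) (huk : u.length = k + 1) {x : Tor d L} (hx : x ∈ full Λ (sites o γ)) :
    (PV ν (Tor d L)).real {ξ | ¬ ‖sol (NN d L) (full (full Λ (sites o γ)) (sites o (u.take k)))
        (pot σ ξ) z (bx (NN d L) x) (ept o u)‖ ≤ W * K⁻¹ ^ (hgt Λ o x)} ≤
      Ψ * Θ ^ (2 * n) * K⁻¹ ^ (k + 1) / W := by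
  have hN : Steps (NN d L) := steps_ND (by have := H.hL; omega) _
  have hd0 : (0 : ℝ) < d := Nat.cast_pos.2 H.hd
  have hK : 0 < K := by rw [H.hK]; positivity
  have hΘ0 : 0 < Θ := lt_of_lt_of_le one_pos H.hΘ
  have hΨ0 : 0 < Ψ := lt_of_lt_of_le one_pos H.hΨ
  obtain ⟨h1, h2, h3⟩ := typE_dist H.hL P H.hn hu hd (by omega) hx
  have har : Around (A ∪ dirs γ ∪ dirs u) o (full (full Λ (sites o γ)) (sites o (u.take k))) := by
    refine typE_around H.hL P.hΛ P.hγ hu (typE_o_mem P.hΛ _ _) fun y hy => ?_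
    rcases (mem_full _ _ _).1 hy with h | h
    · exact Or.inl h
    · right
      rw [sites_take] at h
      exact List.mem_of_mem_take h
  have hm := H.mom _ o _ (typE_card P.hγ hu P.hA P.len (by omega)) har x
    (subset_full _ _ hx) (ept o u) h3
  refine typE_markov (nice_sol hN H.hz _ _).norm (fun _ => norm_nonneg _)
    (lt_of_lt_of_le one_pos H.hW) (by positivity) (hm.trans ?_)
  have h4 : (Θ / K) ^ wt (ept o u - x) ≤ (Θ / K) ^ (hgt Λ o x + (k + 1)) := by
    refine pow_le_pow_of_le_one (by positivity) ?_ (by omega)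
    rw [div_le_one hK]
    exact H.hΘK
  have h5 : Θ ^ (hgt Λ o x + (k + 1)) ≤ Θ ^ (2 * n) := pow_le_pow_right₀ H.hΘ (by omega)
  calc Ψ * (Θ / K) ^ wt (ept o u - x) ≤ Ψ * (Θ / K) ^ (hgt Λ o x + (k + 1)) :=
        mul_le_mul_of_nonneg_left h4 hΨ0.le
    _ = Ψ * Θ ^ (hgt Λ o x + (k + 1)) * K⁻¹ ^ (k + 1) * K⁻¹ ^ hgt Λ o x := by
        rw [div_eq_mul_inv, mul_pow, pow_add K⁻¹]
        ring
    _ ≤ Ψ * Θ ^ (2 * n) * K⁻¹ ^ (k + 1) * K⁻¹ ^ hgt Λ o x := by gcongr

theorem typE_p2 [IsProbabilityMeasure ν] (H : TypH d L ν G σ z K Θ Ψ θ W n a ρ)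
    (P : PathH n a ρ A Λ o γ) {u : List (St d)} (hu : Val A u) (hd : ∀ s ∈ u, s ∉ γ) {k : ℕ}
    (hk : k < n) (huk : u.length = k + 1) {x : Tor d L} (hx : x ∈ sites o γ) :
    (PV ν (Tor d L)).real {ξ | ¬ ‖Qf (NN d L) (insert (ept o u)
          (full (full Λ (sites o γ)) (sites o (u.take k)))) (pot σ ξ) z x (ept o u)‖
        ≤ W * K * K⁻¹ ^ (hgt Λ o x)} ≤
      4 * ρ * Ψ * Θ ^ (2 * n + 1) * K⁻¹ ^ (k + 1) / W := by
  have hN : Steps (NN d L) := steps_ND (by have := H.hL; omega) _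
  have hd0 : (0 : ℝ) < d := Nat.cast_pos.2 H.hd
  have hK : 0 < K := by rw [H.hK]; positivity
  have hΘ0 : 0 < Θ := lt_of_lt_of_le one_pos H.hΘ
  have hΨ0 : 0 < Ψ := lt_of_lt_of_le one_pos H.hΨ
  have hρ := P.hρ o P.hΛ.1
  have hn := H.hn
  have hlen := P.len
  obtain ⟨j, hj, rfl⟩ := mem_sites.1 hx
  have hh := hgt_site H.hL P.hΛ P.hγ (sites_get o γ j hj)
  have hwt : wt (ept o (γ.take (j + 1)) - ept o u) = j + k + 2 := by
    rw [← neg_sub, wt_neg, typE_wt_site (o := o) H.hL P.hγ hu hd hj]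
    omega
  have hne : ept o u ≠ ept o (γ.take (j + 1)) := by
    intro h
    rw [h, sub_self, wt_zero] at hwt
    omega
  have har : Around (A ∪ dirs γ ∪ dirs u) o
      (insert (ept o u) (full (full Λ (sites o γ)) (sites o (u.take k)))) := by
    refine typE_around H.hL P.hΛ P.hγ hu (Finset.mem_insert_of_mem (typE_o_mem P.hΛ _ _))
      fun y hy => ?_
    rcases Finset.mem_insert.1 hy with h | h
    · right
      rw [h]
      refine ept_mem_sites fun h0 => ?_
      rw [h0] at huk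
      simp at huk
    · rcases (mem_full _ _ _).1 h with h | h
      · exact Or.inl h
      · right
        rw [sites_take] at h
        exact List.mem_of_mem_take h
  have hm := mom_Q_off H.hL H.hz H.hK hΨ0.le H.hΘ H.hΘK (ρ := ρ) (by omega) H.mom
    (typE_card P.hγ hu P.hA P.len (by omega)) har (Finset.mem_insert_self _ _)
    (y := ept o (γ.take (j + 1))) (Finset.mem_insert_of_mem
      (subset_full _ _ ((mem_full _ _ _).2 (Or.inr hx)))) hne (by rw [hwt]; omega)
  have hnice : Nice fun ξ : Tor d L → ℝ => ‖Qf (NN d L) (insert (ept o u)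
      (full (full Λ (sites o γ)) (sites o (u.take k)))) (pot σ ξ) z (ept o (γ.take (j + 1)))
        (ept o u)‖ := (nice_nb hN H.hz _ _ _).norm
  have hmain : (PV ν (Tor d L)).real {ξ | ¬ ‖Qf (NN d L) (insert (ept o u)
          (full (full Λ (sites o γ)) (sites o (u.take k)))) (pot σ ξ) z (ept o (γ.take (j + 1)))
          (ept o u)‖ ≤ W * (K * K⁻¹ ^ (hgt Λ o (ept o (γ.take (j + 1)))))} ≤
      4 * ρ * Ψ * Θ ^ (2 * n + 1) * K⁻¹ ^ (k + 1) / W := by
    refine typE_markov hnice (fun _ => norm_nonneg _)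
      (lt_of_lt_of_le one_pos H.hW) (by positivity) (hm.trans ?_)
    rw [hwt, hh]
    have h1 : max 1 (j + k + 2 - 1) = (k + 1) + j := by omega
    have h2 : K * K⁻¹ ^ (j + 1) = K⁻¹ ^ j := by
      rw [pow_succ, ← mul_assoc, mul_comm K, mul_assoc, mul_inv_cancel₀ hK.ne', mul_one]
    rw [h1, h2, pow_add K⁻¹, ← mul_assoc]
    have h3 : Θ ^ (j + k + 2 + 1) ≤ Θ ^ (2 * n + 1) := pow_le_pow_right₀ H.hΘ (by omega)
    have h4 : 4 * ρ * Ψ * Θ ^ (j + k + 2 + 1) ≤ 4 * ρ * Ψ * Θ ^ (2 * n + 1) :=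
      mul_le_mul_of_nonneg_left h3 (by positivity)
    exact mul_le_mul_of_nonneg_right (mul_le_mul_of_nonneg_right h4 (by positivity))
      (by positivity)
  rw [← mul_assoc] at hmain
  exact hmain

/-- Proof. Measurability: countably many (lists) measurable conditions (`nice_sol`).
Probability: for fixed `k` the conditions depend only on `u' = u.take (k + 1)`, a list of length
`k + 1` without entries in `γ`, of which there are at most `K^(k+1)` (`K = 2 d`); union bound over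
`u'` and `x`, Markov's inequality (`markov` of SB/Prb), `Mom` and `mom_Q_off` for the removed sites
`full (full Λ (sites o γ)) (sites o (u.take k))`, and with `w = ept o u'` inserted for the second
condition; these are around `o` with the coordinates `A ∪ dirs γ ∪ dirs u'`, at most `a`
(compare `around_full`; all sites are `o` plus a vector supported in these coordinates).
With `w = ept o u'`: `wt (w - x) ≥ hgt x + (k + 1)` for all `x ∈ full Λ (sites o γ)` as in `typ_ta`, so
the first condition fails with probability at most `Ψ Θ^(2n) K⁻¹^(k+1) / W` for one `u'`, `x`.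
For `x` the `j`th site of `γ`: `wt (w - x) = j + k + 1 ≥ 2`, `E |Qf| ≤ 4 ρ Ψ Θ^(2n+2) K⁻¹^(j + k)`
(`hgt x = j`), so the second one fails with probability at most `4 ρ Ψ Θ^(2n+2) K⁻¹^(k+1) / W`. -/
theorem typ_pre [IsProbabilityMeasure ν] (H : TypH d L ν G σ z K Θ Ψ θ W n a ρ)
    (P : PathH n a ρ A Λ o γ) :
    MeasurableSet {ξ : Tor d L → ℝ | PreC n σ z K W A Λ o γ ξ} ∧
    (PV ν (Tor d L)).real {ξ | ¬ PreC n σ z K W A Λ o γ ξ} ≤ 10 * Bn n a ρ Ψ Θ / W := by
  classical
  have hN : Steps (NN d L) := steps_ND (by have := H.hL; omega) _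
  have hd0 : (0 : ℝ) < d := Nat.cast_pos.2 H.hd
  have hK : 0 < K := by rw [H.hK]; positivity
  have hΘ0 : 0 < Θ := lt_of_lt_of_le one_pos H.hΘ
  have hΨ0 : 0 < Ψ := lt_of_lt_of_le one_pos H.hΨ
  have hW0 : 0 < W := lt_of_lt_of_le one_pos H.hW
  constructor
  · unfold PreC
    simp only [Set.ofPred_forall, Set.ofPred_and]
    refine MeasurableSet.iInter fun u => MeasurableSet.iInter fun _ => MeasurableSet.iInter fun _ =>
      MeasurableSet.iInter fun _ => MeasurableSet.iInter fun k => MeasurableSet.iInter fun _ =>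
      MeasurableSet.inter ?_ ?_
    · refine MeasurableSet.iInter fun x => MeasurableSet.iInter fun _ => ?_
      exact measurableSet_le (nice_sol hN H.hz _ _).norm.1 measurable_const
    · refine MeasurableSet.iInter fun x => MeasurableSet.iInter fun _ => ?_
      exact measurableSet_le (nice_nb hN H.hz _ _ _).norm.1 measurable_const
  · set c1 : ℝ := Ψ * Θ ^ (2 * n) / W with hc1
    set c2 : ℝ := 4 * ρ * Ψ * Θ ^ (2 * n + 1) / W with hc2
    -- the event for one list
    let E : (k : ℕ) → List (St d) → Set (Tor d L → ℝ) := fun k u =>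
      {ξ | Val A u ∧ (∀ s ∈ u, s ∉ γ) ∧
        ((∃ x ∈ full Λ (sites o γ),
          ¬ ‖sol (NN d L) (full (full Λ (sites o γ)) (sites o (u.take k)))
            (pot σ ξ) z (bx (NN d L) x) (ept o u)‖ ≤ W * K⁻¹ ^ (hgt Λ o x)) ∨
        ∃ x ∈ (sites o γ).toFinset, ¬ ‖Qf (NN d L) (insert (ept o u)
          (full (full Λ (sites o γ)) (sites o (u.take k)))) (pot σ ξ) z x (ept o u)‖
        ≤ W * K * K⁻¹ ^ (hgt Λ o x))}
    have hE : ∀ k < n, ∀ u : List (St d), u.length = k + 1 →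
        (PV ν (Tor d L)).real (E k u) ≤ (a * c1 + a * c2) * K⁻¹ ^ (k + 1) := by
      intro k hk u huk
      by_cases hu : Val A u ∧ ∀ s ∈ u, s ∉ γ
      · have h1 : (PV ν (Tor d L)).real (E k u) ≤
            (PV ν (Tor d L)).real {ξ | ∃ x ∈ full Λ (sites o γ),
              ¬ ‖sol (NN d L) (full (full Λ (sites o γ)) (sites o (u.take k)))
                (pot σ ξ) z (bx (NN d L) x) (ept o u)‖ ≤ W * K⁻¹ ^ (hgt Λ o x)} +
            (PV ν (Tor d L)).real {ξ | ∃ x ∈ (sites o γ).toFinset,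
              ¬ ‖Qf (NN d L) (insert (ept o u)
                (full (full Λ (sites o γ)) (sites o (u.take k)))) (pot σ ξ) z x (ept o u)‖
                ≤ W * K * K⁻¹ ^ (hgt Λ o x)} :=
          (measureReal_mono fun ξ hξ => hξ.2.2).trans (measureReal_union_le _ _)
        have h2 := typE_union (PV ν (Tor d L)) (full Λ (sites o γ)) (fun x =>
          {ξ | ¬ ‖sol (NN d L) (full (full Λ (sites o γ)) (sites o (u.take k)))
                (pot σ ξ) z (bx (NN d L) x) (ept o u)‖ ≤ W * K⁻¹ ^ (hgt Λ o x)})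
          (S := {ξ | ∃ x ∈ full Λ (sites o γ),
              ¬ ‖sol (NN d L) (full (full Λ (sites o γ)) (sites o (u.take k)))
                (pot σ ξ) z (bx (NN d L) x) (ept o u)‖ ≤ W * K⁻¹ ^ (hgt Λ o x)})
          (fun ξ hξ => hξ)
        have h3 := typE_union (PV ν (Tor d L)) (sites o γ).toFinset (fun x =>
          {ξ | ¬ ‖Qf (NN d L) (insert (ept o u)
                (full (full Λ (sites o γ)) (sites o (u.take k)))) (pot σ ξ) z x (ept o u)‖
                ≤ W * K * K⁻¹ ^ (hgt Λ o x)})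
          (S := {ξ | ∃ x ∈ (sites o γ).toFinset,
              ¬ ‖Qf (NN d L) (insert (ept o u)
                (full (full Λ (sites o γ)) (sites o (u.take k)))) (pot σ ξ) z x (ept o u)‖
                ≤ W * K * K⁻¹ ^ (hgt Λ o x)})
          (fun ξ hξ => hξ)
        have h4 := Finset.sum_le_card_nsmul _ _ _ fun x hx =>
          typE_p1 H P hu.1 hu.2 hk huk (x := x) hx
        have h5 := Finset.sum_le_card_nsmul (sites o γ).toFinset _ _ fun x hx =>
          typE_p2 H P hu.1 hu.2 hk huk (x := x) (List.mem_toFinset.1 hx)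
        rw [nsmul_eq_mul] at h4 h5
        have h6 : ((full Λ (sites o γ)).card : ℝ) ≤ a := by
          have h7 := card_full_sites H.hL P.hΛ P.hγ
          have h8 := P.hc
          have h9 := P.len
          rw [Nat.cast_le, h7]
          omega
        have h7 : ((sites o γ).toFinset.card : ℝ) ≤ a := by
          have h7 := List.toFinset_card_le (sites o γ)
          rw [length_sites] at h7
          have h8 := P.hc
          have h9 := P.len
          rw [Nat.cast_le]
          omega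
        have h8 : ((full Λ (sites o γ)).card : ℝ) * (Ψ * Θ ^ (2 * n) * K⁻¹ ^ (k + 1) / W) ≤
            a * (Ψ * Θ ^ (2 * n) * K⁻¹ ^ (k + 1) / W) :=
          mul_le_mul_of_nonneg_right h6 (by positivity)
        have h9 : ((sites o γ).toFinset.card : ℝ) *
            (4 * ρ * Ψ * Θ ^ (2 * n + 1) * K⁻¹ ^ (k + 1) / W) ≤
            a * (4 * ρ * Ψ * Θ ^ (2 * n + 1) * K⁻¹ ^ (k + 1) / W) :=
          mul_le_mul_of_nonneg_right h7 (by positivity)
        calc (PV ν (Tor d L)).real (E k u) ≤ a * (Ψ * Θ ^ (2 * n) * K⁻¹ ^ (k + 1) / W) +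
              a * (4 * ρ * Ψ * Θ ^ (2 * n + 1) * K⁻¹ ^ (k + 1) / W) :=
              h1.trans (add_le_add (h2.trans (h4.trans h8)) (h3.trans (h5.trans h9)))
          _ = (a * c1 + a * c2) * K⁻¹ ^ (k + 1) := by rw [hc1, hc2]; ring
      · have : E k u = ∅ := by
          refine Set.eq_empty_iff_forall_notMem.2 fun ξ hξ => hu ⟨hξ.1, hξ.2.1⟩
        rw [this, measureReal_empty]
        positivity
    -- the union over the lists
    have hk : ∀ k ∈ Finset.range n, (PV ν (Tor d L)).real {ξ | ∃ u : List (St d),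
        u.length = k + 1 ∧ ξ ∈ E k u} ≤ a * c1 + a * c2 := by
      intro k hk
      have h1 := typE_union (PV ν (Tor d L)) (univ : Finset (List.Vector (St d) (k + 1)))
        (fun v => E k v.1) (S := {ξ | ∃ u : List (St d), u.length = k + 1 ∧ ξ ∈ E k u})
        (fun ξ hξ => by
          obtain ⟨u, hu, hu2⟩ := hξ
          exact ⟨⟨u, hu⟩, mem_univ _, hu2⟩)
      have h2 := Finset.sum_le_card_nsmul (univ : Finset (List.Vector (St d) (k + 1))) _ _
        fun v _ => hE k (Finset.mem_range.1 hk) v.1 v.2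
      rw [nsmul_eq_mul, Finset.card_univ, card_vector] at h2
      have h3 : ((Fintype.card (St d) ^ (k + 1) : ℕ) : ℝ) = K ^ (k + 1) := by
        rw [H.hK]
        simp [Fintype.card_prod]
        ring
      rw [h3] at h2
      refine (h1.trans h2).trans (le_of_eq ?_)
      rw [mul_left_comm, ← mul_pow, mul_inv_cancel₀ hK.ne', one_pow, mul_one]
    have hall := typE_union (PV ν (Tor d L)) (Finset.range n)
      (fun k => {ξ | ∃ u : List (St d), u.length = k + 1 ∧ ξ ∈ E k u})
      (S := {ξ | ¬ PreC n σ z K W A Λ o γ ξ}) (fun ξ hξ => by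
        by_contra hcon
        apply hξ
        intro u hu hun hud k hk
        have hcon2 : ¬ ξ ∈ E k (u.take (k + 1)) := by
          intro h
          refine hcon ⟨k, Finset.mem_range.2 hk, u.take (k + 1), ?_, h⟩
          rw [List.length_take]
          omega
        have htt : (u.take (k + 1)).take k = u.take k := by
          rw [List.take_take]
          congr 1
          omega
        have hcon3 : ¬ ((∃ x ∈ full Λ (sites o γ),
          ¬ ‖sol (NN d L) (full (full Λ (sites o γ)) (sites o ((u.take (k + 1)).take k)))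
            (pot σ ξ) z (bx (NN d L) x) (ept o (u.take (k + 1)))‖ ≤ W * K⁻¹ ^ (hgt Λ o x)) ∨
          ∃ x ∈ (sites o γ).toFinset, ¬ ‖Qf (NN d L) (insert (ept o (u.take (k + 1)))
          (full (full Λ (sites o γ)) (sites o ((u.take (k + 1)).take k)))) (pot σ ξ) z x
            (ept o (u.take (k + 1)))‖ ≤ W * K * K⁻¹ ^ (hgt Λ o x)) := fun h =>
          hcon2 ⟨hu.take _, fun s hs => hud s (List.mem_of_mem_take hs), h⟩
        rw [htt] at hcon3
        constructor
        · intro x hx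
          by_contra h
          exact hcon3 (Or.inl ⟨x, hx, h⟩)
        · intro x hx
          by_contra h
          exact hcon3 (Or.inr ⟨x, List.mem_toFinset.2 hx, h⟩))
    have h1 := Finset.sum_le_card_nsmul _ _ _ hk
    rw [nsmul_eq_mul, Finset.card_range] at h1
    refine (hall.trans h1).trans ?_
    -- the constants
    have hn1 : (1 : ℝ) ≤ n := by exact_mod_cast H.hn
    have hρ1 : (1 : ℝ) ≤ ρ := by
      have := P.hρ o P.hΛ.1
      have h2 : 1 ≤ ρ := by omega
      exact_mod_cast h2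
    have h2 : Θ ^ (2 * n) ≤ Θ ^ (2 * n + 1) := pow_le_pow_right₀ H.hΘ (by omega)
    have h3 : c1 ≤ ρ * Ψ * Θ ^ (2 * n + 1) / W := by
      rw [hc1]
      gcongr
      nlinarith
    have h4 : n * Θ ^ (2 * n + 1) ≤ (4 * n * Θ) ^ (2 * n + 4) := by
      have h5 : (1 : ℝ) ≤ 4 * n := by linarith
      calc n * Θ ^ (2 * n + 1) ≤ (4 * n) * Θ ^ (2 * n + 4) := by
            gcongr
            · linarith
            · exact H.hΘ
            · omega
        _ ≤ (4 * n) ^ (2 * n + 4) * Θ ^ (2 * n + 4) := by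
            gcongr
            exact le_self_pow₀ h5 (by omega)
        _ = (4 * n * Θ) ^ (2 * n + 4) := (mul_pow _ _ _).symm
    calc n * (a * c1 + a * c2) ≤ n * (a * (ρ * Ψ * Θ ^ (2 * n + 1) / W) + a * c2) := by gcongr
      _ = 5 * (ρ * a * Ψ * (n * Θ ^ (2 * n + 1))) / W := by rw [hc2]; ring
      _ ≤ 10 * (ρ * a * Ψ * (4 * n * Θ) ^ (2 * n + 4)) / W := by gcongr; norm_num
      _ = 10 * Bn n a ρ Ψ Θ / W := by unfold Bn; ring

end Pool.Agent.H989.SB
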