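import Pool.Agent.H989.SB.TypH

/-!
Probability of the deep event.
-/

set_option linter.unusedSectionVars false
set_option linter.unusedVariables false

open MeasureTheory ProbabilityTheory Finset

namespace Pool.Agent.H989.SB

variable {d L : ℕ} [NeZero L] {ν : Measure ℝ} {G σ : ℝ} {z : ℂ} {K Θ Ψ θ W : ℝ} {n a ρ : ℕ}
  {A : Finset (Fin d)} {Λ : Finset (Tor d L)} {o : Tor d L} {γ : List (St d)}

/-- the number of sets with a given intersection -/
theorem TypF_count {m : ℕ} (B S : Finset (St d)) (F : Finset (Finset (St d)))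
    (hF : ∀ U ∈ F, U.card = m ∧ U ∩ S = B) : F.card ≤ (2 * d) ^ (m - B.card) := by
  have h1 : F.card ≤ (powersetCard (m - B.card) (univ : Finset (St d))).card := by
    refine Finset.card_le_card_of_injOn (fun U => U \ B) ?_ ?_
    · intro U hU
      obtain ⟨h1, h2⟩ := hF U hU
      have hB : B ⊆ U := by rw [← h2]; exact Finset.inter_subset_left
      have h3 : (U \ B).card = m - B.card := by
        rw [Finset.card_sdiff_of_subset hB, h1]
      simpa [Finset.mem_powersetCard] using h3
    · intro U hU U' hU' h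
      have hB : B ⊆ U := by rw [← (hF U hU).2]; exact Finset.inter_subset_left
      have hB' : B ⊆ U' := by rw [← (hF U' hU').2]; exact Finset.inter_subset_left
      simp only at h
      rw [← Finset.sdiff_union_of_subset hB, ← Finset.sdiff_union_of_subset hB', h]
  refine h1.trans ?_
  rw [Finset.card_powersetCard, Finset.card_univ, Fintype.card_prod, Fintype.card_fin,
    Fintype.card_bool, mul_comm d 2]
  exact Nat.choose_le_pow _ _

/-- the sum over the sets of signed directions -/
theorem TypF_sum (hd : 0 < d) (hK : K = 2 * d) (hΘ : 1 ≤ Θ) {m l : ℕ} (hl : l ≤ n)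
    (S : Finset (St d)) (hS : S.card = l) (F : Finset (Finset (St d)))
    (hF : ∀ U ∈ F, U.card = m) :
    ∑ U ∈ F, (Θ / K) ^ (n + m + l - 2 * (U ∩ S).card) ≤ 2 ^ n * (Θ ^ (m + 2 * n) / K ^ n) := by
  have hd1 : (1 : ℝ) ≤ d := by exact_mod_cast hd
  have hK1 : 1 ≤ K := by rw [hK]; linarith
  have hK0 : 0 < K := by linarith
  have hΘ0 : 0 < Θ := by linarith
  have hR0 : 0 ≤ Θ ^ (m + 2 * n) / K ^ n := by positivity
  have key : ∀ B ∈ S.powerset, ∑ U ∈ F with U ∩ S = B,
      (Θ / K) ^ (n + m + l - 2 * (U ∩ S).card) ≤ Θ ^ (m + 2 * n) / K ^ n := by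
    intro B hB
    rw [Finset.mem_powerset] at hB
    rcases Finset.eq_empty_or_nonempty (F.filter fun U => U ∩ S = B) with he | ⟨U₀, hU₀⟩
    · rw [he, Finset.sum_empty]; exact hR0
    · rw [Finset.mem_filter] at hU₀
      have hBm : B.card ≤ m := by
        rw [← hF U₀ hU₀.1, ← hU₀.2]
        exact Finset.card_le_card Finset.inter_subset_left
      have hBl : B.card ≤ l := by rw [← hS]; exact Finset.card_le_card hB
      have h1 : ∑ U ∈ F with U ∩ S = B, (Θ / K) ^ (n + m + l - 2 * (U ∩ S).card) =
          ((F.filter fun U => U ∩ S = B).card : ℝ) * (Θ / K) ^ (n + m + l - 2 * B.card) := by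
        rw [Finset.sum_congr rfl (g := fun _ => (Θ / K) ^ (n + m + l - 2 * B.card))]
        · rw [Finset.sum_const, nsmul_eq_mul]
        · intro U hU
          rw [Finset.mem_filter] at hU
          rw [hU.2]
      have h2 : ((F.filter fun U => U ∩ S = B).card : ℝ) ≤ K ^ (m - B.card) := by
        have := TypF_count (m := m) B S (F.filter fun U => U ∩ S = B) (by
          intro U hU
          rw [Finset.mem_filter] at hU
          exact ⟨hF U hU.1, hU.2⟩)
        rw [hK]
        exact_mod_cast this
      have e : n + m + l - 2 * B.card = (m - B.card) + (n + (l - B.card)) := by omega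
      rw [h1]
      calc ((F.filter fun U => U ∩ S = B).card : ℝ) * (Θ / K) ^ (n + m + l - 2 * B.card)
          ≤ K ^ (m - B.card) * (Θ / K) ^ (n + m + l - 2 * B.card) := by
            gcongr
        _ = Θ ^ (n + m + l - 2 * B.card) / K ^ (n + (l - B.card)) := by
            rw [div_pow, e, pow_add K]
            field_simp
        _ ≤ Θ ^ (m + 2 * n) / K ^ n := by
            refine div_le_div₀ (by positivity) ?_ (by positivity) ?_
            · exact pow_le_pow_right₀ hΘ (by omega)
            · exact pow_le_pow_right₀ hK1 (by omega)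
  rw [← Finset.sum_fiberwise_of_maps_to (s := F) (t := S.powerset) (g := fun U => U ∩ S)
    (fun U _ => Finset.mem_powerset.2 Finset.inter_subset_right)]
  refine (Finset.sum_le_sum key).trans ?_
  rw [Finset.sum_const, Finset.card_powerset, hS, nsmul_eq_mul]
  push_cast
  refine mul_le_mul_of_nonneg_right ?_ hR0
  exact pow_le_pow_right₀ (by norm_num) hl

/-- the distance of a site of `γ` to an end point of the second path -/
theorem TypF_wt (hL : 5 ≤ L) (hγ : Val A γ) (hlen' : γ.length = n) {γ' : List (St d)}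
    (hγ' : Val A γ') (hlen : γ'.length = n) (hd : ∀ s ∈ γ', s ∉ γ) {m k : ℕ} (hk : k < n)
    {U : Finset (St d)} (h1 : Cons U) (h2 : Off (A ∪ dirs γ') U) (h3 : U.card = m) :
    wt (ept o γ' + vec U - ept o (γ.take (k + 1))) =
      n + m + (k + 1) - 2 * (U ∩ (γ.take (k + 1)).toFinset).card := by
  set S : Finset (St d) := (γ.take (k + 1)).toFinset with hSdef
  have hvS : Val A (γ.take (k + 1)) := hγ.take (k + 1)
  have hScard : S.card = k + 1 := by
    rw [hSdef, hvS.card, List.length_take, hlen']
    omega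
  have hdisj : Disjoint γ'.toFinset U := by
    rw [Finset.disjoint_left]
    intro s hs hsU
    refine h2 s hsU ?_
    rw [Finset.mem_union]
    right
    unfold dirs
    rw [List.mem_toFinset]
    exact List.mem_map.2 ⟨s, List.mem_toFinset.1 hs, rfl⟩
  have hT : Cons (γ'.toFinset ∪ U) := by
    intro s hs t ht hst
    rw [Finset.mem_union] at hs ht
    have hmem : ∀ s' : St d, s' ∈ γ'.toFinset → ∀ t' ∈ U, s'.1 ≠ t'.1 := by
      intro s' hs' t' ht' he
      refine h2 t' ht' ?_
      rw [Finset.mem_union, ← he]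
      right
      unfold dirs
      rw [List.mem_toFinset]
      exact List.mem_map.2 ⟨s', List.mem_toFinset.1 hs', rfl⟩
    rcases hs with hs | hs <;> rcases ht with ht | ht
    · exact hγ'.cons s hs t ht hst
    · exact absurd hst (hmem s hs t ht)
    · exact absurd hst.symm (hmem t ht s hs)
    · exact h1 s hs t ht hst
  have hTcard : (γ'.toFinset ∪ U).card = n + m := by
    rw [Finset.card_union_of_disjoint hdisj, hγ'.card, hlen, h3]
  have hinter : (γ'.toFinset ∪ U) ∩ S = U ∩ S := by
    ext s
    simp only [Finset.mem_inter, Finset.mem_union]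
    constructor
    · rintro ⟨h | h, hs⟩
      · exfalso
        refine hd s (List.mem_toFinset.1 h) ?_
        rw [hSdef, List.mem_toFinset] at hs
        exact List.mem_of_mem_take hs
      · exact ⟨h, hs⟩
    · rintro ⟨h, hs⟩
      exact ⟨Or.inr h, hs⟩
  have hvec : (vec (γ'.toFinset ∪ U) : Tor d L) = vec γ'.toFinset + vec U := by
    unfold vec
    exact Finset.sum_union hdisj
  have e : ept o γ' + vec U - ept o (γ.take (k + 1)) =
      (0 : Tor d L) + vec (γ'.toFinset ∪ U) - vec S := by
    rw [ept_eq_vec hγ', ept_eq_vec hvS, hvec, ← hSdef]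
    abel
  have hw := wt_vec_sub (A := ∅) (a := (0 : Tor d L)) hL (fun _ _ => rfl) hT hvS.cons
    (fun _ _ => Finset.notMem_empty _) (fun _ _ => Finset.notMem_empty _)
  rw [← hSdef, wt_zero] at hw
  rw [e, hw]
  have g1 := Finset.card_sdiff_add_card_inter (γ'.toFinset ∪ U) S
  have g2 := Finset.card_sdiff_add_card_inter S (γ'.toFinset ∪ U)
  rw [hinter, hTcard] at g1
  rw [Finset.inter_comm, hinter, hScard] at g2
  omega

/-- the removed sites are around `o` -/
theorem TypF_around (hL : 5 ≤ L) (hΛ : Around A o Λ) (hγ : Val A γ) {γ' : List (St d)}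
    (hγ' : Val A γ') :
    Around (A ∪ dirs γ ∪ dirs γ') o (full (full Λ (sites o γ)) (sites o γ')) := by
  have h1 := around_full hL hΛ hγ
  have h2 := around_full hL hΛ hγ'
  refine ⟨subset_full _ _ h1.1, ?_⟩
  intro y hy i hi
  rw [Finset.mem_union, not_or] at hi
  rw [mem_full] at hy
  rcases hy with hy | hy
  · exact h1.2 y hy i hi.1
  · refine h2.2 y ?_ i ?_
    · rw [mem_full]; exact Or.inr hy
    · rw [Finset.mem_union, not_or]
      exact ⟨fun h => hi.1 (Finset.mem_union_left _ h), hi.2⟩

/-- Proof. Measurability: finitely many measurable conditions (`nice_sol`).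
Probability: let `x` be the `l`th site of `γ` (`1 ≤ l ≤ n`), `U` a consistent set of signed directions
off `A ∪ dirs γ'`, `#U = m = j n`, `y = ept o γ' + vec U`.  If `y = x` or `y` is removed then
`chi x y` is ... (`j = 0`: `y = ept o γ'` is removed and `≠ x`, so `chi x y = 0`; `j ≥ 1`:
`wt (y - o) = n + m > n`, so `y ≠ x`), otherwise `chi x y = - sol (bx x) y` (`chi_off`).
If `p` is the number of the first `l` steps of `γ` which belong to `U` then
`wt (y - x) = (n + m - p) + (l - p)` (`wt_vec_sub`: the steps of `γ'` are not in `γ`), and the number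
of the sets `U` with given `p` is at most `2^n * K^(m - p)` (choose the common steps, and then
`m - p` of the `K = 2 d` signed directions).  `Mom` for the removed sites
`full (full Λ (sites o γ)) (sites o γ')` (around `o`, coordinates `A ∪ dirs γ ∪ dirs γ'`) and Markov's
inequality give the sum over `p`, `U`, of `Ψ (Θ/K)^(n+m+l-2p) K`, at most
`(n+1) 2^n Ψ Θ^(2n+m) K^(1-n)` since `p ≤ l`. -/
theorem typ_deep [IsProbabilityMeasure ν] (H : TypH d L ν G σ z K Θ Ψ θ W n a ρ)
    (P : PathH n a ρ A Λ o γ) {γ' : List (St d)} (hγ' : Val A γ') (hlen : γ'.length = n)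
    (hd : ∀ s ∈ γ', s ∉ γ) (j : ℕ) (hj : (j + 2) * n + 2 ≤ ρ) :
    MeasurableSet {ξ : Tor d L → ℝ | Deep n σ z K j A Λ o γ γ' ξ} ∧
    (PV ν (Tor d L)).real {ξ | ¬ Deep n σ z K j A Λ o γ γ' ξ}
      ≤ (n + 1) ^ 2 * 2 ^ n * Ψ * Θ ^ ((j + 2) * n) * K / K ^ n := by
  classical
  have hN : Steps (NN d L) := steps_ND (by have := H.hL; omega) univ
  have hz := H.hz
  have hd1 : (1 : ℝ) ≤ d := by exact_mod_cast H.hd
  have hK1 : 1 ≤ K := by rw [H.hK]; linarith
  have hK0 : 0 < K := by linarith
  have hΨ0 : 0 ≤ Ψ := by linarith [H.hΨ]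
  have hΘ0 : 0 < Θ := by linarith [H.hΘ]
  constructor
  · -- measurability
    unfold Deep
    simp only [Set.ofPred_forall]
    refine MeasurableSet.iInter fun U => MeasurableSet.iInter fun _ => MeasurableSet.iInter fun _ =>
      MeasurableSet.iInter fun _ => MeasurableSet.iInter fun x => MeasurableSet.iInter fun _ => ?_
    refine measurableSet_le ?_ measurable_const
    refine Measurable.norm ?_
    unfold chi
    simp only [Pi.sub_apply]
    exact measurable_const.sub (nice_sol hN hz _ _).1
  · -- probability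
    set Λ' : Finset (Tor d L) := full (full Λ (sites o γ)) (sites o γ') with hΛ'
    set F : Finset (Finset (St d)) :=
      univ.filter (fun U => Cons U ∧ Off (A ∪ dirs γ') U ∧ U.card = j * n) with hF
    set E : ℕ → Finset (St d) → Set (Tor d L → ℝ) := fun k U =>
      {ξ | K⁻¹ ≤ ‖sol (NN d L) Λ' (pot σ ξ) z (bx (NN d L) (ept o (γ.take (k + 1))))
        (ept o γ' + vec U)‖} with hE
    have hAr : Around (A ∪ dirs γ ∪ dirs γ') o Λ' := TypF_around H.hL P.hΛ P.hγ hγ'
    have hcard : (A ∪ dirs γ ∪ dirs γ').card ≤ a := by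
      have h1 := Finset.card_union_le (A ∪ dirs γ) (dirs γ')
      have h2 := Finset.card_union_le A (dirs γ)
      rw [card_dirs hγ', hlen] at h1
      rw [card_dirs P.hγ, P.len] at h2
      have h3 := P.hA
      omega
    have hwt : ∀ k < n, ∀ U ∈ F, wt (ept o γ' + vec U - ept o (γ.take (k + 1))) =
        n + j * n + (k + 1) - 2 * (U ∩ (γ.take (k + 1)).toFinset).card := by
      intro k hk U hU
      rw [hF, Finset.mem_filter] at hU
      exact TypF_wt H.hL P.hγ P.len hγ' hlen hd hk hU.2.1 hU.2.2.1 hU.2.2.2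
    have hpk : ∀ k < n, ∀ U ∈ F, (U ∩ (γ.take (k + 1)).toFinset).card ≤ j * n ∧
        (U ∩ (γ.take (k + 1)).toFinset).card ≤ k + 1 := by
      intro k hk U hU
      rw [hF, Finset.mem_filter] at hU
      constructor
      · rw [← hU.2.2.2]
        exact Finset.card_le_card Finset.inter_subset_left
      · refine (Finset.card_le_card Finset.inter_subset_right).trans ?_
        rw [(P.hγ.take (k + 1)).card, List.length_take]
        exact min_le_left _ _
    have hsub : {ξ | ¬ Deep n σ z K j A Λ o γ γ' ξ} ⊆ ⋃ k ∈ Finset.range n, ⋃ U ∈ F, E k U := by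
      intro ξ hξ
      simp only [Set.mem_ofPred_eq] at hξ
      unfold Deep at hξ
      push Not at hξ
      obtain ⟨U, h1, h2, h3, x, hx, hlt⟩ := hξ
      obtain ⟨k, hk, rfl⟩ := mem_sites.1 hx
      rw [P.len] at hk
      have hUF : U ∈ F := by
        rw [hF, Finset.mem_filter]
        exact ⟨mem_univ _, h1, h2, h3⟩
      simp only [Set.mem_iUnion, Finset.mem_range]
      refine ⟨k, hk, U, hUF, ?_⟩
      rw [hE]
      simp only [Set.mem_ofPred_eq]
      have hne : ept o γ' + vec U ≠ ept o (γ.take (k + 1)) := by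
        intro h
        have hw := hwt k hk U hUF
        rw [h, sub_self, wt_zero] at hw
        have := hpk k hk U hUF
        omega
      rw [chi_off hne, norm_neg] at hlt
      exact hlt.le
    have hprob : ∀ k ∈ Finset.range n, ∀ U ∈ F, (PV ν (Tor d L)).real (E k U) ≤
        Ψ * K * (Θ / K) ^ (n + j * n + (k + 1) - 2 * (U ∩ (γ.take (k + 1)).toFinset).card) := by
      intro k hk U hU
      rw [Finset.mem_range] at hk
      have hx : ept o (γ.take (k + 1)) ∈ Λ' := by
        rw [hΛ', mem_full, mem_full]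
        exact Or.inl (Or.inr (mem_sites.2 ⟨k, by rw [P.len]; exact hk, rfl⟩))
      have hm := H.mom (A ∪ dirs γ ∪ dirs γ') o Λ' hcard hAr (ept o (γ.take (k + 1))) hx
        (ept o γ' + vec U) (by
          rw [hwt k hk U hU]
          have : n + j * n + (k + 1) ≤ (j + 2) * n := by
            have : (j + 2) * n = j * n + 2 * n := by ring
            omega
          omega)
      rw [hwt k hk U hU] at hm
      have hmk := markov ν (V := Tor d L)
        (f := fun ξ => ‖sol (NN d L) Λ' (pot σ ξ) z (bx (NN d L) (ept o (γ.take (k + 1))))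
          (ept o γ' + vec U)‖) (nice_norm_sol hN hz _ _) (fun _ => norm_nonneg _)
        (a := K⁻¹) (by positivity)
      refine hmk.trans ?_
      rw [div_inv_eq_mul]
      calc _ ≤ (Ψ * (Θ / K) ^ (n + j * n + (k + 1) -
            2 * (U ∩ (γ.take (k + 1)).toFinset).card)) * K :=
            mul_le_mul_of_nonneg_right hm hK0.le
        _ = _ := by ring
    have hinner : ∀ k ∈ Finset.range n, ∑ U ∈ F, (PV ν (Tor d L)).real (E k U) ≤
        Ψ * K * (2 ^ n * (Θ ^ (j * n + 2 * n) / K ^ n)) := by
      intro k hk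
      refine (Finset.sum_le_sum (hprob k hk)).trans ?_
      rw [← Finset.mul_sum]
      refine mul_le_mul_of_nonneg_left ?_ (by positivity)
      rw [Finset.mem_range] at hk
      refine TypF_sum H.hd H.hK H.hΘ (m := j * n) (l := k + 1) (by omega)
        (γ.take (k + 1)).toFinset ?_ F ?_
      · rw [(P.hγ.take (k + 1)).card, List.length_take, P.len]
        omega
      · intro U hU
        rw [hF, Finset.mem_filter] at hU
        exact hU.2.2.2
    have hunion : (PV ν (Tor d L)).real (⋃ k ∈ Finset.range n, ⋃ U ∈ F, E k U) ≤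
        ∑ k ∈ Finset.range n, ∑ U ∈ F, (PV ν (Tor d L)).real (E k U) := by
      refine (measureReal_biUnion_finset_le _ _).trans ?_
      refine Finset.sum_le_sum fun k _ => ?_
      exact measureReal_biUnion_finset_le _ _
    calc (PV ν (Tor d L)).real {ξ | ¬ Deep n σ z K j A Λ o γ γ' ξ}
        ≤ (PV ν (Tor d L)).real (⋃ k ∈ Finset.range n, ⋃ U ∈ F, E k U) :=
          measureReal_mono hsub (measure_ne_top _ _)
      _ ≤ ∑ k ∈ Finset.range n, ∑ U ∈ F, (PV ν (Tor d L)).real (E k U) := hunion
      _ ≤ ∑ k ∈ Finset.range n, Ψ * K * (2 ^ n * (Θ ^ (j * n + 2 * n) / K ^ n)) :=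
          Finset.sum_le_sum hinner
      _ = n * (Ψ * K * (2 ^ n * (Θ ^ ((j + 2) * n) / K ^ n))) := by
          rw [Finset.sum_const, Finset.card_range, nsmul_eq_mul]
          have : j * n + 2 * n = (j + 2) * n := by ring
          rw [this]
      _ ≤ ((n : ℝ) + 1) ^ 2 * (Ψ * K * (2 ^ n * (Θ ^ ((j + 2) * n) / K ^ n))) := by
          refine mul_le_mul_of_nonneg_right ?_ (by positivity)
          nlinarith [Nat.cast_nonneg (α := ℝ) n]
      _ = (n + 1) ^ 2 * 2 ^ n * Ψ * Θ ^ ((j + 2) * n) * K / K ^ n := by ring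

end Pool.Agent.H989.SB
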