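import Pool.Agent.H989.SB.Win
import Pool.Agent.H989.SB.TypA
import Pool.Agent.H989.SB.TypB
import Pool.Agent.H989.SB.TypC
import Pool.Agent.H989.SB.TypD
import Pool.Agent.H989.SB.TypE
import Pool.Agent.H989.SB.TypF

/-!
Measurability of the events, independence of the potential at the removed sites, probability of the
typical event.
-/

set_option linter.unusedSectionVars false
set_option linter.unusedVariables false

open MeasureTheory ProbabilityTheory Finset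

namespace Pool.Agent.H989.SB

section gen
variable {V : Type*} [AddCommGroup V] [Fintype V] [DecidableEq V]
variable {N Λ : Finset V} {σ : ℝ} {z : ℂ}

/-- the potential at the removed sites does not matter (uniqueness of the solution) -/
theorem sol_loc (hN : Steps N) (hz : 0 < z.im) {v₁ v₂ : V → ℝ} (h : ∀ x, x ∉ Λ → v₁ x = v₂ x)
    (b : V → ℂ) : sol N Λ v₁ z b = sol N Λ v₂ z b :=
  sol_congr hN hz b h

theorem Qf_loc (hN : Steps N) (hz : 0 < z.im) {v₁ v₂ : V → ℝ} (h : ∀ x, x ∉ Λ → v₁ x = v₂ x)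
    (x y : V) : Qf N Λ v₁ z x y = Qf N Λ v₂ z x y := by
  unfold Qf
  rw [sol_loc hN hz h]

theorem chi_loc (hN : Steps N) (hz : 0 < z.im) {v₁ v₂ : V → ℝ} (h : ∀ x, x ∉ Λ → v₁ x = v₂ x)
    (x : V) : chi N Λ v₁ z x = chi N Λ v₂ z x := by
  unfold chi
  rw [sol_loc hN hz h]

/-- `mix S ξ ξ'` agrees with `ξ` off `S` -/
theorem pot_mix {S : Finset V} (ξ ξ' : V → ℝ) {x : V} (hx : x ∉ S) :
    pot σ (mix S ξ ξ') x = pot σ ξ x := by
  unfold pot mix
  rw [if_neg hx]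

/-- the pivots of `xs` use the potential at the sites of `xs`, so it has to agree there, too -/
theorem InW_loc (hN : Steps N) (hz : 0 < z.im) {v₁ v₂ : V → ℝ} : ∀ (xs : List V) (Λ : Finset V)
    (ws : List (Set ℝ)), (∀ x, x ∉ Λ → v₁ x = v₂ x) → (∀ x ∈ xs, v₁ x = v₂ x) →
      (InW N v₁ z Λ xs ws ↔ InW N v₂ z Λ xs ws)
  | [], Λ, ws, _, _ => by simp only [InW]
  | x :: xs, Λ, [], _, _ => by simp only [InW]
  | x :: xs, Λ, w :: ws, h, hx => by
    have h' : ∀ y, y ∉ insert x Λ → v₁ y = v₂ y := fun y hy =>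
      h y fun hm => hy (Finset.mem_insert_of_mem hm)
    have h1 := InW_loc hN hz xs (insert x Λ) ws h' (fun y hy => hx y (List.mem_cons_of_mem _ hy))
    have h2 : pv N Λ v₁ z x = pv N Λ v₂ z x := by
      rw [pv_eq, pv_eq, Qf_loc hN hz h', hx x List.mem_cons_self]
    simp only [InW]
    rw [h1, h2]

/-- the value of a `nsq` is a measurable function of the potential -/
theorem measurable_nsq_chi (hN : Steps N) (hz : 0 < z.im) (x : V) :
    Measurable fun ξ : V → ℝ => nsq (chi N Λ (pot σ ξ) z x) := by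
  unfold nsq
  exact Finset.measurable_sum _ fun y _ => (measurable_chi hN hz x y).norm.pow_const 2

end gen

variable {d L : ℕ} [NeZero L] {ν : Measure ℝ} {G σ : ℝ} {z : ℂ} {K Θ Ψ θ W M Y : ℝ} {n a ρ : ℕ}
  {A : Finset (Fin d)} {Λ : Finset (Tor d L)} {o : Tor d L} {γ : List (St d)}

theorem Loc_steps (hL : 5 ≤ L) : Steps (NN d L) := steps_ND (by omega) _

theorem Loc_mem {S Λ : Finset (Tor d L)} (hS : S ⊆ Λ) (ξ ξ' : Tor d L → ℝ) :
    ∀ x, x ∉ Λ → pot σ (mix S ξ ξ') x = pot σ ξ x := fun x hx =>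
  pot_mix ξ ξ' fun h => hx (hS h)

theorem measurableSet_Sg (hL : 5 ≤ L) (hz : 0 < z.im) :
    MeasurableSet {ξ : Tor d L → ℝ | Sg σ z Y Λ o γ ξ} := by
  unfold Sg
  simp only [Set.ofPred_forall]
  refine MeasurableSet.iInter fun x => MeasurableSet.iInter fun _ => ?_
  exact measurableSet_lt (measurable_nsq_chi (Loc_steps hL) hz x) measurable_const

theorem measurableSet_Res (hL : 5 ≤ L) (hz : 0 < z.im) (j : ℕ) :
    MeasurableSet {ξ : Tor d L → ℝ | Res n σ z M j A Λ o ξ} := by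
  have hN := Loc_steps (d := d) hL
  have e : {ξ : Tor d L → ℝ | Res n σ z M j A Λ o ξ} =
      ⋃ (U : Finset (St d)) (_ : Cons U) (_ : Off A U) (_ : U.card = j * n),
        ({ξ : Tor d L → ℝ | M ^ j ≤ ‖chi (NN d L) Λ (pot σ ξ) z o (o + vec U)‖} ∩
          ⋂ (x : Tor d L) (_ : x ∈ Λ), {ξ : Tor d L → ℝ |
            ‖chi (NN d L) Λ (pot σ ξ) z x (o + vec U)‖
              ≤ ‖chi (NN d L) Λ (pot σ ξ) z o (o + vec U)‖}) := by
    ext ξ
    simp only [Res, Set.mem_ofPred_eq, Set.mem_iUnion, Set.mem_inter_iff, Set.mem_iInter,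
      exists_prop]
  rw [e]
  refine MeasurableSet.iUnion fun U => MeasurableSet.iUnion fun _ => MeasurableSet.iUnion fun _ =>
    MeasurableSet.iUnion fun _ => MeasurableSet.inter ?_ ?_
  · exact measurableSet_le measurable_const (measurable_chi hN hz _ _).norm
  · refine MeasurableSet.iInter fun x => MeasurableSet.iInter fun _ => ?_
    exact measurableSet_le (measurable_chi hN hz _ _).norm (measurable_chi hN hz _ _).norm

theorem measurableSet_Wj (hL : 5 ≤ L) (hz : 0 < z.im) (j : ℕ) :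
    MeasurableSet {ξ : Tor d L → ℝ | Wj n σ z M Y j A Λ o ξ} := by
  have h1 := measurableSet_Res (n := n) (σ := σ) (M := M) (A := A) (Λ := Λ) (o := o) hL hz j
  have h2 : MeasurableSet {ξ : Tor d L → ℝ | Y ≤ nsq (chi (NN d L) Λ (pot σ ξ) z o)} :=
    measurableSet_le measurable_const (measurable_nsq_chi (Loc_steps hL) hz o)
  exact h1.union h2

theorem measurableSet_Deep (hL : 5 ≤ L) (hz : 0 < z.im) (j : ℕ) (γ' : List (St d)) :
    MeasurableSet {ξ : Tor d L → ℝ | Deep n σ z K j A Λ o γ γ' ξ} := by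
  unfold Deep
  simp only [Set.ofPred_forall]
  refine MeasurableSet.iInter fun U => MeasurableSet.iInter fun _ => MeasurableSet.iInter fun _ =>
    MeasurableSet.iInter fun _ => MeasurableSet.iInter fun x => MeasurableSet.iInter fun _ => ?_
  exact measurableSet_le (measurable_chi (Loc_steps hL) hz _ _).norm measurable_const

/-- `Tp` is the conjunction of the events of TypA - TypE -/
theorem Tp_iff (ξ : Tor d L → ℝ) : Tp n σ z K W θ A Λ o γ ξ ↔
    TF (NN d L) (pot σ ξ) z (dsx Λ o) W K (full Λ (sites o γ)) (sites o γ) ∧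
    TaC n σ z K W A Λ o γ ξ ∧ TbC n σ z K W A Λ o γ ξ ∧ CubeC σ z K θ A Λ o γ ξ ∧
    PreC n σ z K W A Λ o γ ξ :=
  ⟨fun h => ⟨h.tf, h.ta, h.tb, h.cube, h.pre⟩,
    fun h => ⟨h.1, h.2.1, h.2.2.1, h.2.2.2.1, h.2.2.2.2⟩⟩

theorem measurableSet_Tp [IsProbabilityMeasure ν] (H : TypH d L ν G σ z K Θ Ψ θ W n a ρ)
    (P : PathH n a ρ A Λ o γ) : MeasurableSet {ξ : Tor d L → ℝ | Tp n σ z K W θ A Λ o γ ξ} := by
  simp only [Tp_iff, Set.ofPred_and]
  exact (typ_tf H P).1.inter ((typ_ta H P).1.inter ((typ_tb H P).1.inter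
    ((typ_cube H P).1.inter (typ_pre H P).1)))

theorem prob_Tp [IsProbabilityMeasure ν] (H : TypH d L ν G σ z K Θ Ψ θ W n a ρ)
    (P : PathH n a ρ A Λ o γ) :
    (PV ν (Tor d L)).real {ξ | ¬ Tp n σ z K W θ A Λ o γ ξ}
      ≤ 40 * Bn n a ρ Ψ Θ / W + 10 * G * (2 * n) ^ (n + 1) * θ := by
  have hsub : {ξ | ¬ Tp n σ z K W θ A Λ o γ ξ} ⊆
      {ξ | ¬ TF (NN d L) (pot σ ξ) z (dsx Λ o) W K (full Λ (sites o γ)) (sites o γ)} ∪
      ({ξ | ¬ TaC n σ z K W A Λ o γ ξ} ∪ ({ξ | ¬ TbC n σ z K W A Λ o γ ξ} ∪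
      ({ξ | ¬ CubeC σ z K θ A Λ o γ ξ} ∪ {ξ | ¬ PreC n σ z K W A Λ o γ ξ}))) := by
    intro ξ hξ
    simp only [Set.mem_union, Set.mem_ofPred_eq] at hξ ⊢
    rw [Tp_iff] at hξ
    tauto
  have h1 := (typ_tf H P).2
  have h2 := (typ_ta H P).2
  have h3 := (typ_tb H P).2
  have h4 := (typ_cube H P).2
  have h5 := (typ_pre H P).2
  refine (measureReal_mono hsub (measure_ne_top _ _)).trans ?_
  refine (measureReal_union_le _ _).trans ?_
  have g2 := measureReal_union_le (μ := PV ν (Tor d L)) {ξ | ¬ TaC n σ z K W A Λ o γ ξ}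
    ({ξ | ¬ TbC n σ z K W A Λ o γ ξ} ∪
      ({ξ | ¬ CubeC σ z K θ A Λ o γ ξ} ∪ {ξ | ¬ PreC n σ z K W A Λ o γ ξ}))
  have g3 := measureReal_union_le (μ := PV ν (Tor d L)) {ξ | ¬ TbC n σ z K W A Λ o γ ξ}
      ({ξ | ¬ CubeC σ z K θ A Λ o γ ξ} ∪ {ξ | ¬ PreC n σ z K W A Λ o γ ξ})
  have g4 := measureReal_union_le (μ := PV ν (Tor d L)) {ξ | ¬ CubeC σ z K θ A Λ o γ ξ}
      {ξ | ¬ PreC n σ z K W A Λ o γ ξ}
  have e : 40 * Bn n a ρ Ψ Θ / W = 10 * Bn n a ρ Ψ Θ / W + 10 * Bn n a ρ Ψ Θ / W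
      + 10 * Bn n a ρ Ψ Θ / W + 10 * Bn n a ρ Ψ Θ / W := by ring
  rw [e]
  linarith

theorem Sg_mix (hL : 5 ≤ L) (hz : 0 < z.im) (ξ ξ' : Tor d L → ℝ) :
    Sg σ z Y Λ o γ (mix (sites o γ).toFinset ξ ξ') ↔ Sg σ z Y Λ o γ ξ := by
  have hS : (sites o γ).toFinset ⊆ full Λ (sites o γ) := by
    rw [full_union]
    exact Finset.subset_union_right
  unfold Sg
  simp only [chi_loc (Loc_steps hL) hz (Loc_mem (σ := σ) hS ξ ξ')]

theorem Res_mix (hL : 5 ≤ L) (hz : 0 < z.im) (j : ℕ) {S : Finset (Tor d L)} (hS : S ⊆ Λ)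
    (ξ ξ' : Tor d L → ℝ) :
    Res n σ z M j A Λ o (mix S ξ ξ') ↔ Res n σ z M j A Λ o ξ := by
  unfold Res
  simp only [chi_loc (Loc_steps hL) hz (Loc_mem (σ := σ) hS ξ ξ')]

/-- all the solutions in `Tp` have the sites of `γ` removed, and the sites in `Tp.cube` are not in
the path -/
theorem Tp_mix (hL : 5 ≤ L) (hz : 0 < z.im) (ξ ξ' : Tor d L → ℝ) :
    Tp n σ z K W θ A Λ o γ (mix (sites o γ).toFinset ξ ξ') ↔ Tp n σ z K W θ A Λ o γ ξ := by
  have hN := Loc_steps (d := d) hL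
  have hS : (sites o γ).toFinset ⊆ full Λ (sites o γ) := by
    rw [full_union]
    exact Finset.subset_union_right
  have h1 := Loc_mem (σ := σ) hS ξ ξ'
  have hS2 : ∀ ys : List (Tor d L), (sites o γ).toFinset ⊆ full (full Λ (sites o γ)) ys :=
    fun ys => hS.trans (subset_full ys _)
  have h2 : ∀ ys : List (Tor d L), ∀ x, x ∉ full (full Λ (sites o γ)) ys →
      pot σ (mix (sites o γ).toFinset ξ ξ') x = pot σ ξ x := fun ys =>
    Loc_mem (σ := σ) (hS2 ys) ξ ξ'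
  have h3 : ∀ (ys : List (Tor d L)) (w : Tor d L), ∀ x,
      x ∉ insert w (full (full Λ (sites o γ)) ys) →
      pot σ (mix (sites o γ).toFinset ξ ξ') x = pot σ ξ x := fun ys w =>
    Loc_mem (σ := σ) ((hS2 ys).trans (Finset.subset_insert _ _)) ξ ξ'
  have q1 : ∀ x y, Qf (NN d L) (full Λ (sites o γ)) (pot σ (mix (sites o γ).toFinset ξ ξ')) z x y =
      Qf (NN d L) (full Λ (sites o γ)) (pot σ ξ) z x y := fun x y => Qf_loc hN hz h1 x y
  have s1 : ∀ b, sol (NN d L) (full Λ (sites o γ)) (pot σ (mix (sites o γ).toFinset ξ ξ')) z b =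
      sol (NN d L) (full Λ (sites o γ)) (pot σ ξ) z b := fun b => sol_loc hN hz h1 b
  have s2 : ∀ ys b, sol (NN d L) (full (full Λ (sites o γ)) ys)
      (pot σ (mix (sites o γ).toFinset ξ ξ')) z b =
      sol (NN d L) (full (full Λ (sites o γ)) ys) (pot σ ξ) z b :=
    fun ys b => sol_loc hN hz (h2 ys) b
  have q3 : ∀ ys w x y, Qf (NN d L) (insert w (full (full Λ (sites o γ)) ys))
      (pot σ (mix (sites o γ).toFinset ξ ξ')) z x y =
      Qf (NN d L) (insert w (full (full Λ (sites o γ)) ys)) (pot σ ξ) z x y :=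
    fun ys w x y => Qf_loc hN hz (h3 ys w) x y
  have t1 : TF (NN d L) (pot σ (mix (sites o γ).toFinset ξ ξ')) z (dsx Λ o) W K
      (full Λ (sites o γ)) (sites o γ) ↔
      TF (NN d L) (pot σ ξ) z (dsx Λ o) W K (full Λ (sites o γ)) (sites o γ) := by
    constructor
    · intro h
      exact ⟨fun x hx y hy hxy => by rw [← q1]; exact h.off x hx y hy hxy,
        fun y hy => by rw [← q1]; exact h.diag y hy⟩
    · intro h
      exact ⟨fun x hx y hy hxy => by rw [q1]; exact h.off x hx y hy hxy,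
        fun y hy => by rw [q1]; exact h.diag y hy⟩
  have t2 : TaC n σ z K W A Λ o γ (mix (sites o γ).toFinset ξ ξ') ↔ TaC n σ z K W A Λ o γ ξ := by
    unfold TaC
    simp only [s1]
  have t3 : TbC n σ z K W A Λ o γ (mix (sites o γ).toFinset ξ ξ') ↔ TbC n σ z K W A Λ o γ ξ := by
    unfold TbC
    simp only [s1]
  have t4 : CubeC σ z K θ A Λ o γ (mix (sites o γ).toFinset ξ ξ') ↔ CubeC σ z K θ A Λ o γ ξ := by
    unfold CubeC
    refine forall_congr' fun u => forall_congr' fun _ => forall_congr' fun _ =>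
      forall_congr' fun hm => ?_
    have h5 := h1 (ept o u) hm
    unfold pot at h5
    rw [h5]
  have t5 : PreC n σ z K W A Λ o γ (mix (sites o γ).toFinset ξ ξ') ↔
      PreC n σ z K W A Λ o γ ξ := by
    unfold PreC
    simp only [s2, q3]
  rw [Tp_iff, Tp_iff, t1, t2, t3, t4, t5]

theorem Deep_mix (hL : 5 ≤ L) (hz : 0 < z.im) (j : ℕ) (γ' : List (St d)) {S : Finset (Tor d L)}
    (hS : S ⊆ full (full Λ (sites o γ)) (sites o γ')) (ξ ξ' : Tor d L → ℝ) :
    Deep n σ z K j A Λ o γ γ' (mix S ξ ξ') ↔ Deep n σ z K j A Λ o γ γ' ξ := by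
  unfold Deep
  simp only [chi_loc (Loc_steps hL) hz (Loc_mem (σ := σ) hS ξ ξ')]

/-- functions invariant under resampling of the sites in `S` do not depend on them: with
`ξ' = update ξ x t`, `mix S ξ ξ' = ...` -/
theorem upd_of_mix {S : Finset (Tor d L)} {α : Sort*} {f : (Tor d L → ℝ) → α}
    (h : ∀ ξ ξ', f (mix S ξ ξ') = f ξ) {x : Tor d L} (hx : x ∈ S) (ξ : Tor d L → ℝ) (t : ℝ) :
    f (Function.update ξ x t) = f ξ := by
  rw [← h (Function.update ξ x t) ξ, mix_update S hx, h]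

end Pool.Agent.H989.SB
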