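import Pool.Agent.H989.SB.Win

/-!
Large norms are not lost along a path (no cancellation).
-/

set_option linter.unusedSectionVars false
set_option linter.unusedVariables false

open MeasureTheory ProbabilityTheory Finset
open scoped ComplexConjugate

namespace Pool.Agent.H989.SB

variable {V : Type*} [AddCommGroup V] [Fintype V] [DecidableEq V]
variable {N Λ : Finset V} {v : V → ℝ} {σ : ℝ} {z : ℂ}

lemma met_sum_chi (hN : Steps N) (hz : 0 < z.im) {x y : V} (hx : x ∈ Λ) (hy : y ∈ Λ)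
    (hxy : x ≠ y) : ∑ w, conj (chi N Λ v z x w) * chi N Λ v z y w
      = ∑ w, conj (sol N Λ v z (bx N x) w) * sol N Λ v z (bx N y) w := by
  refine Finset.sum_congr rfl fun w _ => ?_
  by_cases hwx : w = x
  · subst hwx
    rw [chi_of_mem hN hz hx hxy, sol_zero_of_mem hN hz (bx N y) hx, mul_zero, mul_zero]
  by_cases hwy : w = y
  · subst hwy
    rw [chi_of_mem hN hz hy hwx, sol_zero_of_mem hN hz (bx N x) hy, map_zero, zero_mul, zero_mul]
  rw [chi_off hwx, chi_off hwy, map_neg, neg_mul_neg]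

/-- The inner product of two solutions.
Proof. For `f = sol Λ (bx x)`, `g = sol Λ (bx y)` (`bx` real valued): multiply the equation of `g` by
`conj f` and the conjugate of the equation of `f` by `g`, sum and subtract (compare
`IsSol.dot_comm`, `IsSol.energy`): `2 i (Im z) ∑ conj f g = Qf x y - conj (Qf x y)`, using `Qf_comm`.
Finally `chi x`, `chi y` agree with `- f`, `- g` off `x`, `y`, and `f`, `g` vanish on `Λ`. -/
theorem chi_inner (hN : Steps N) (hz : 0 < z.im) {x y : V} (hx : x ∈ Λ) (hy : y ∈ Λ)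
    (hxy : x ≠ y) : (z.im : ℂ) * ∑ w, conj (chi N Λ v z x w) * chi N Λ v z y w
      = ((Qf N Λ v z x y).im : ℂ) := by
  rw [met_sum_chi hN hz hx hy hxy]
  obtain ⟨f, hf⟩ : ∃ f, f = sol N Λ v z (bx N x) := ⟨_, rfl⟩
  obtain ⟨g, hg⟩ : ∃ g, g = sol N Λ v z (bx N y) := ⟨_, rfl⟩
  have sf : IsSol N Λ v z (bx N x) f := by rw [hf]; exact isSol_sol hN hz _
  have sg : IsSol N Λ v z (bx N y) g := by rw [hg]; exact isSol_sol hN hz _
  have hQ1 : Qf N Λ v z x y = dot (bx N x) g := by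
    unfold Qf; rw [nb_eq_dot _ _ hN, ← hg]
  have hQ2 : Qf N Λ v z x y = dot (bx N y) f := by
    rw [Qf_comm hN hz]; unfold Qf; rw [nb_eq_dot _ _ hN, ← hf]
  have hbr : ∀ (a w : V), conj (bx N a w) = bx N a w := by
    intro a w; unfold bx; split_ifs <;> simp
  have hQ3 : conj (Qf N Λ v z x y) = dot (fun w => conj (f w)) (bx N y) := by
    rw [hQ2]
    unfold dot
    rw [map_sum]
    refine Finset.sum_congr rfl fun w _ => ?_
    rw [map_mul, hbr, mul_comm]
  have e1 : dot (fun w => conj (f w)) (bx N y)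
      = ∑ w, ((v w : ℂ) - z) * (conj (f w) * g w) + dot (fun w => conj (f w)) (nb N g) := by
    unfold dot
    rw [← Finset.sum_add_distrib]
    refine Finset.sum_congr rfl fun w _ => ?_
    by_cases hw : w ∈ Λ
    · simp [sf.1 w hw]
    · rw [← sg.2 w hw]; ring
  have e2 : dot (bx N x) g
      = ∑ w, ((v w : ℂ) - conj z) * (conj (f w) * g w) + dot (nb N fun w => conj (f w)) g := by
    unfold dot
    rw [← Finset.sum_add_distrib]
    refine Finset.sum_congr rfl fun w _ => ?_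
    by_cases hw : w ∈ Λ
    · simp [sg.1 w hw]
    · have h1 := congrArg conj (sf.2 w hw)
      rw [hbr] at h1
      have h2 : conj (nb N f w) = nb N (fun w => conj (f w)) w := by
        unfold nb; rw [map_sum]
      rw [map_add, map_mul, map_sub, Complex.conj_ofReal, h2] at h1
      rw [← h1]; ring
  rw [dot_nb hN] at e1
  have e3 : conj (Qf N Λ v z x y) - Qf N Λ v z x y
      = (conj z - z) * ∑ w, conj (f w) * g w := by
    rw [hQ3, hQ1, e1, e2, Finset.mul_sum]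
    rw [add_sub_add_right_eq_sub, ← Finset.sum_sub_distrib]
    exact Finset.sum_congr rfl fun w _ => by ring
  have e4 : conj z - z = -(2 * (z.im : ℂ) * Complex.I) := by
    have := Complex.sub_conj z
    rw [← neg_sub, this]
    push_cast
    ring
  have e5 : conj (Qf N Λ v z x y) - Qf N Λ v z x y
      = -(2 * ((Qf N Λ v z x y).im : ℂ) * Complex.I) := by
    have := Complex.sub_conj (Qf N Λ v z x y)
    rw [← neg_sub, this]
    push_cast
    ring
  rw [e5, e4] at e3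
  have h2I : (2 * Complex.I : ℂ) ≠ 0 := by simp
  rw [← hf, ← hg]
  apply mul_left_cancel₀ h2I
  linear_combination e3

/-- One step.  `c = cc N Λ v z o x`, `b = pv N Λ v z x`, `β = - Im b = Im z * nsq (chi (insert x Λ) x)`.
Claim: `nsq (chi Λ o) ≥ (c_i b_r + c_r β)² / (Im z * β * |b|²)`.
Proof. With `u = chi (insert x Λ) o`, `χ = chi (insert x Λ) x`: `chi Λ o = u - (c/b) χ` (`chi_step`),
`Im z ⟨χ, u⟩ = - c_i` (`chi_inner`, `bx` is real), `Im z ‖χ‖² = β`, and by Cauchy-Schwarz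
`‖u - λχ‖² ≥ |⟨χ, u - λχ⟩|² / ‖χ‖²` with `λ = c / b`:
`⟨χ, u⟩ - λ ‖χ‖² = - (c_i + c β / b) / Im z = - (c_i b_r + c_r β) / (b Im z)`. -/
theorem chi_onestep (hN : Steps N) (hz : 0 < z.im) {o x : V} (ho : o ∈ Λ) (hx : x ∉ Λ) :
    ((cc N Λ v z o x).im * (pv N Λ v z x).re - (cc N Λ v z o x).re * (pv N Λ v z x).im) ^ 2
      ≤ z.im * (-(pv N Λ v z x).im) * ‖pv N Λ v z x‖ ^ 2 * nsq (chi N Λ v z o) := by
  have hxo : x ≠ o := fun e => hx (by rw [e]; exact ho)
  obtain ⟨c, hc⟩ : ∃ c, c = cc N Λ v z o x := ⟨_, rfl⟩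
  obtain ⟨b, hb⟩ : ∃ b, b = pv N Λ v z x := ⟨_, rfl⟩
  obtain ⟨X, hX⟩ : ∃ X, X = chi N (insert x Λ) v z x := ⟨_, rfl⟩
  obtain ⟨u, hu⟩ : ∃ u, u = chi N (insert x Λ) v z o := ⟨_, rfl⟩
  have hb0 : b ≠ 0 := by rw [hb]; exact pv_ne hN hz x
  have hs : chi N Λ v z o = u - (c / b) • X := by
    rw [hu, hc, hb, hX]; exact chi_step hN hz o hx
  have hbi : b.im = -(z.im * nsq X) := by rw [hb, hX]; exact pv_im hN hz x
  have hin : (z.im : ℂ) * ∑ w, conj (X w) * u w = ((-c.im : ℝ) : ℂ) := by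
    rw [hX, hu, chi_inner hN hz (Finset.mem_insert_self x Λ) (Finset.mem_insert_of_mem ho) hxo,
      Qf_comm hN hz, hc]
    unfold cc
    have : (bx N o x).im = 0 := by unfold bx; split_ifs <;> simp
    rw [Complex.sub_im, this, zero_sub, neg_neg]
  have hXX : ∑ w, conj (X w) * X w = ((nsq X : ℝ) : ℂ) := by
    unfold nsq
    push_cast
    exact Finset.sum_congr rfl fun w _ => Complex.conj_mul' _
  have hS : (z.im : ℂ) * b * ∑ w, conj (X w) * (chi N Λ v z o w)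
      = -(((c.im * b.re - c.re * b.im : ℝ)) : ℂ) := by
    rw [hs]
    have h1 : ∑ w, conj (X w) * ((u - (c / b) • X) w)
        = ∑ w, conj (X w) * u w - (c / b) * ∑ w, conj (X w) * X w := by
      rw [Finset.mul_sum, ← Finset.sum_sub_distrib]
      refine Finset.sum_congr rfl fun w _ => ?_
      rw [Pi.sub_apply, Pi.smul_apply, smul_eq_mul]; ring
    rw [h1, hXX]
    have h2 : (z.im : ℂ) * b * (∑ w, conj (X w) * u w - c / b * ((nsq X : ℝ) : ℂ))
        = b * ((z.im : ℂ) * ∑ w, conj (X w) * u w) - c * ((z.im * nsq X : ℝ) : ℂ) := by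
      push_cast
      field_simp
    rw [h2, hin]
    have h3 : z.im * nsq X = -b.im := by rw [hbi]; ring
    rw [h3]
    apply Complex.ext
    · simp; ring
    · simp; ring
  have hn : ‖∑ w, conj (X w) * (chi N Λ v z o w)‖ ^ 2 ≤ nsq X * nsq (chi N Λ v z o) := by
    have h1 : ‖∑ w, conj (X w) * (chi N Λ v z o w)‖ ≤ ∑ w, ‖X w‖ * ‖chi N Λ v z o w‖ := by
      refine (norm_sum_le _ _).trans (Finset.sum_le_sum fun w _ => ?_)
      rw [norm_mul, Complex.norm_conj]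
    calc ‖∑ w, conj (X w) * (chi N Λ v z o w)‖ ^ 2
        ≤ (∑ w, ‖X w‖ * ‖chi N Λ v z o w‖) ^ 2 := pow_le_pow_left₀ (norm_nonneg _) h1 2
      _ ≤ _ := Finset.sum_mul_sq_le_sq_mul_sq _ _ _
  have h1 := congrArg (fun t : ℂ => ‖t‖ ^ 2) hS
  simp only [norm_mul, norm_neg, Complex.norm_real, mul_pow, Real.norm_eq_abs, sq_abs] at h1
  rw [← hc, ← hb, ← h1]
  have h3 : -b.im = z.im * nsq X := by rw [hbi]; ring
  rw [h3]
  calc z.im ^ 2 * ‖b‖ ^ 2 * ‖∑ w, conj (X w) * (chi N Λ v z o w)‖ ^ 2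
      ≤ z.im ^ 2 * ‖b‖ ^ 2 * (nsq X * nsq (chi N Λ v z o)) := by gcongr
    _ = _ := by ring

/-- One-site probability.  The set is contained in an interval of length `4 ρb wm / σ`.
Proof. `s = σ t - c`; if `ci = 0` the set is empty.  Otherwise `|s - s₀| < ρb β / |ci|` with
`s₀ = - cr β / ci`, and `ρb β / |ci| ≤ (4/3) ρb |s₀| ≤ |s₀| / 3`; as `|s| ≤ wm` one gets `|s₀| ≤ 3 wm / 2`
and the radius is at most `2 ρb wm`. -/
theorem nc_site {ν : Measure ℝ} {G : ℝ} (hν : Law ν G) (hσ : 0 < σ) {c cr ci β ρb wm : ℝ}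
    (hcr : 3 / 4 ≤ cr) (hβ : 0 < β) (hρ0 : 0 ≤ ρb) (hρ : ρb ≤ 1 / 4) (hwm : 0 ≤ wm) :
    ν.real {t | |σ * t - c| ≤ wm ∧ |ci * (σ * t - c) + cr * β| < ρb * β} ≤ 4 * G * ρb * wm / σ := by
  have hP := hν.prob
  obtain ⟨s0, hs0⟩ : ∃ s0 : ℝ, s0 = -(cr * β) / ci := ⟨_, rfl⟩
  have hsub : {t | |σ * t - c| ≤ wm ∧ |ci * (σ * t - c) + cr * β| < ρb * β}
      ⊆ Set.Icc ((c + s0 - 2 * ρb * wm) / σ) ((c + s0 + 2 * ρb * wm) / σ) := by
    rintro t ⟨h1, h2⟩
    obtain ⟨s, hs⟩ : ∃ s : ℝ, s = σ * t - c := ⟨_, rfl⟩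
    rw [← hs] at h1 h2
    have hci : ci ≠ 0 := by
      intro h0
      rw [h0, zero_mul, zero_add, abs_of_pos (by positivity)] at h2
      have : cr < ρb := lt_of_mul_lt_mul_right h2 hβ.le
      linarith
    have hci' : 0 < |ci| := abs_pos.2 hci
    have h3 : |s - s0| * |ci| < ρb * β := by
      rw [← abs_mul]
      have : (s - s0) * ci = ci * s + cr * β := by
        rw [hs0]; field_simp; ring
      rw [this]; exact h2
    have h4 : |s0| * |ci| = cr * β := by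
      rw [← abs_mul, hs0, div_mul_cancel₀ _ hci, abs_neg, abs_of_pos (by positivity)]
    have h5 : 3 * |s - s0| ≤ 4 * ρb * |s0| := by
      have : 3 * |s - s0| * |ci| ≤ 4 * ρb * |s0| * |ci| := by
        have e1 : 4 * ρb * |s0| * |ci| = 4 * ρb * (cr * β) := by rw [← h4]; ring
        rw [e1]
        have : 3 * (ρb * β) ≤ 4 * ρb * (cr * β) := by
          have := mul_nonneg hρ0 hβ.le
          nlinarith
        linarith
      exact le_of_mul_le_mul_right this hci'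
    have h6 : |s0| ≤ |s| + |s - s0| := by
      have := abs_sub_abs_le_abs_sub s0 s
      rw [abs_sub_comm] at this
      linarith
    have h7 : |s0| ≤ 3 / 2 * wm := by
      have : 4 * ρb * |s0| ≤ |s0| := by
        have := abs_nonneg s0
        nlinarith
      linarith
    have h8 : |s - s0| ≤ 2 * ρb * wm := by
      have : ρb * |s0| ≤ ρb * (3 / 2 * wm) := mul_le_mul_of_nonneg_left h7 hρ0
      linarith
    rw [abs_le] at h8
    rw [Set.mem_Icc, div_le_iff₀ hσ, le_div_iff₀ hσ]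
    constructor <;> linarith [h8.1, h8.2]
  have hle : (c + s0 - 2 * ρb * wm) / σ ≤ (c + s0 + 2 * ρb * wm) / σ := by
    have : 0 ≤ ρb * wm := mul_nonneg hρ0 hwm
    gcongr
    linarith
  calc ν.real {t | |σ * t - c| ≤ wm ∧ |ci * (σ * t - c) + cr * β| < ρb * β}
      ≤ ν.real (Set.Icc ((c + s0 - 2 * ρb * wm) / σ) ((c + s0 + 2 * ρb * wm) / σ)) :=
        measureReal_mono hsub
    _ ≤ G * ((c + s0 + 2 * ρb * wm) / σ - (c + s0 - 2 * ρb * wm) / σ) := hν.Icc_le hle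
    _ = 4 * G * ρb * wm / σ := by ring

/-- no cancellation along the path -/
def NC (N : Finset V) (v : V → ℝ) (z : ℂ) (ρb : ℝ) : Finset V → V → List V → Prop
  | _, _, [] => True
  | Λ, o, x :: xs => ρb ^ 2 * nsq (chi N (insert x Λ) v z x)
        ≤ ‖pv N Λ v z x‖ ^ 2 * nsq (chi N Λ v z o)
      ∧ NC N v z ρb (insert x Λ) x xs

lemma met_meas_nsq (hN : Steps N) (hz : 0 < z.im) (x : V) :
    Measurable fun ξ : V → ℝ => nsq (chi N Λ (pot σ ξ) z x) := by
  unfold nsq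
  refine Finset.measurable_sum _ fun y _ => ?_
  exact ((measurable_chi hN hz x y).norm).pow_const 2

lemma met_meas_head (hN : Steps N) (hz : 0 < z.im) (ρb : ℝ) (Λ : Finset V) (o x : V) :
    MeasurableSet {ξ : V → ℝ | ρb ^ 2 * nsq (chi N (insert x Λ) (pot σ ξ) z x)
        ≤ ‖pv N Λ (pot σ ξ) z x‖ ^ 2 * nsq (chi N Λ (pot σ ξ) z o)} := by
  refine measurableSet_le ((met_meas_nsq hN hz x).const_mul _) ?_
  exact ((measurable_pv hN hz x).norm.pow_const 2).mul (met_meas_nsq hN hz o)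

theorem measurableSet_NC (hN : Steps N) (hz : 0 < z.im) (ρb : ℝ) :
    ∀ (xs : List V) (Λ : Finset V) (o : V),
      MeasurableSet {ξ : V → ℝ | NC N (pot σ ξ) z ρb Λ o xs} := by
  intro xs
  induction xs with
  | nil =>
    intro Λ o
    exact MeasurableSet.univ
  | cons x xs ih =>
    intro Λ o
    exact (met_meas_head hN hz ρb Λ o x).inter (ih (insert x Λ) x)

/-- the coordinates of removed sites do not matter for `NC` -/
lemma met_NC_upd (hN : Steps N) (hz : 0 < z.im) (ρb : ℝ) {x : V} (ξ : V → ℝ) (t : ℝ) :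
    ∀ (xs : List V) (Λ : Finset V) (o : V), x ∈ Λ → x ∉ xs →
      (NC N (pot σ (Function.update ξ x t)) z ρb Λ o xs ↔ NC N (pot σ ξ) z ρb Λ o xs) := by
  intro xs
  induction xs with
  | nil => intro Λ o _ _; exact Iff.rfl
  | cons y ys ih =>
    intro Λ o hx hxs
    rw [List.mem_cons, not_or] at hxs
    unfold NC
    rw [ih (insert y Λ) y (Finset.mem_insert_of_mem hx) hxs.2,
      chi_upd hN hz (Finset.mem_insert_of_mem hx), chi_upd hN hz hx, pv_upd hN hz hx (Ne.symm hxs.1)]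

/-- pivots are large if their real parts are in windows off zero -/
lemma met_pivGe {K θ : ℝ} : ∀ (xs : List V) (Λ : Finset V) (ws : List (Set ℝ)),
    ws.length = xs.length → (∀ w ∈ ws, ∀ t ∈ w, (K * θ)⁻¹ ≤ |t|) → InW N v z Λ xs ws →
      PivGe N v z (K * θ)⁻¹ Λ xs := by
  intro xs
  induction xs with
  | nil => intro Λ ws _ _ _; exact trivial
  | cons x xs ih =>
    intro Λ ws hl hw hI
    cases ws with
    | nil => simp at hl
    | cons w ws =>
      refine ⟨?_, ih (insert x Λ) ws (by simpa using hl)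
        (fun w' hw' => hw w' (List.mem_cons_of_mem _ hw')) hI.2⟩
      exact (hw w (by simp) _ hI.1).trans (Complex.abs_re_le_norm _)

/-- the couplings and the self energy at the first site of a path -/
lemma met_first (hN : Steps N) (hz : 0 < z.im) {ds : V → V → ℕ} (hds : Dst ds) {K θ W : ℝ}
    (hc : Cst K θ W) {o x : V} {xs : List V} {ws : List (Set ℝ)} (hl : ws.length = xs.length)
    (hp : IsPath N ds Λ o (x :: xs)) (ho : o ∈ Λ)
    (hT : TF N v z ds W K (full Λ (x :: xs)) (x :: xs))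
    (hw : ∀ w ∈ ws, ∀ t ∈ w, (K * θ)⁻¹ ≤ |t|) (hI : InW N v z (insert x Λ) xs ws) :
    (∀ y ∈ Λ, ‖cc N Λ v z y x‖ ≤ 2 * W * K⁻¹ ^ (ds y o)) ∧
    ‖cc N Λ v z o x - 1‖ ≤ W / K + 8 * W ^ 2 * θ ∧
    ‖Qf N (insert x Λ) v z x x‖ ≤ W + 8 * W ^ 2 * (K * θ) := by
  have hP := met_pivGe (N := N) (v := v) (z := z) xs (insert x Λ) ws hl hw hI
  have IH := C1 hN hz hds hc xs (insert x Λ) x hp.2.2.2.2.2 (Finset.mem_insert_self _ _)
    hT.tail hP
  exact cc_bd hN hz hds hc (subset_full xs _) hp ho hT IH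


/-- the sites of a path are not removed before -/
lemma met_notMem {ds : V → V → ℕ} : ∀ (xs : List V) (Λ : Finset V) (o : V),
    IsPath N ds Λ o xs → ∀ x ∈ xs, x ∉ Λ := by
  intro xs
  induction xs with
  | nil => intro Λ o _ x hx; simp at hx
  | cons y ys ih =>
    intro Λ o hp x hx
    rcases List.mem_cons.1 hx with rfl | hx
    · exact hp.1
    · exact fun h => ih (insert y Λ) y hp.2.2.2.2.2 x hx (Finset.mem_insert_of_mem h)

/-- the probability of a cancellation at the first site -/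
lemma met_peel {ν : Measure ℝ} [IsProbabilityMeasure ν] {G : ℝ} (hν : Law ν G) (hN : Steps N)
    (hz : 0 < z.im) (hσ : 0 < σ) {ds : V → V → ℕ} (hds : Dst ds) {K θ W : ℝ} (hc : Cst K θ W)
    {ρb κ : ℝ} (hρ0 : 0 ≤ ρb) (hρ : ρb ≤ 1 / 4) (hκ : 0 ≤ κ)
    {o x : V} {xs : List V} {ws : List (Set ℝ)} (hl : ws.length = xs.length)
    (hp : IsPath N ds Λ o (x :: xs)) (ho : o ∈ Λ) (ξ : V → ℝ)
    (hT : TF N (pot σ ξ) z ds W K (full Λ (x :: xs)) (x :: xs))
    (hw : ∀ w ∈ ws, ∀ t ∈ w, (K * θ)⁻¹ ≤ |t|) (hI : InW N (pot σ ξ) z (insert x Λ) xs ws)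
    {w : Set ℝ} {pw wmw : ℝ} (hp0 : 0 ≤ pw) (hwm : ∀ t ∈ w, |t| ≤ wmw)
    (hκw : 4 * G * ρb * wmw / σ ≤ κ * pw) :
    ν.real {t | (pv N Λ (pot σ (Function.update ξ x t)) z x).re ∈ w ∧
      ¬ ρb ^ 2 * nsq (chi N (insert x Λ) (pot σ (Function.update ξ x t)) z x)
        ≤ ‖pv N Λ (pot σ (Function.update ξ x t)) z x‖ ^ 2
          * nsq (chi N Λ (pot σ (Function.update ξ x t)) z o)} ≤ κ * pw := by
  have hxΛ : x ∉ Λ := hp.1
  obtain ⟨-, h2, -⟩ := met_first hN hz hds hc hl hp ho hT hw hI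
  have hW := hc.W1
  have hθ := hc.θ0
  have hK0 : 0 < K := by linarith [hc.K1]
  have hdel : W / K + 8 * W ^ 2 * θ ≤ 1 / 4 := by
    have := hc.h1
    nlinarith [mul_pos (pow_pos (by linarith : 0 < W) 2) hθ]
  have hre : 3 / 4 ≤ (cc N Λ (pot σ ξ) z o x).re := by
    have h3 : |(cc N Λ (pot σ ξ) z o x - 1).re| ≤ 1 / 4 :=
      (Complex.abs_re_le_norm _).trans (h2.trans hdel)
    rw [Complex.sub_re, Complex.one_re, abs_le] at h3
    linarith [h3.1]
  obtain ⟨c, hcd⟩ : ∃ c : ℝ, c = (z + SE N Λ (pot σ ξ) z x).re := ⟨_, rfl⟩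
  obtain ⟨β, hβd⟩ : ∃ β : ℝ, β = z.im * nsq (chi N (insert x Λ) (pot σ ξ) z x) := ⟨_, rfl⟩
  have hX1 : 1 ≤ nsq (chi N (insert x Λ) (pot σ ξ) z x) :=
    one_le_nsq_chi hN hz (Finset.mem_insert_self _ _)
  have hβ : 0 < β := by rw [hβd]; positivity
  have hsub : {t | (pv N Λ (pot σ (Function.update ξ x t)) z x).re ∈ w ∧
      ¬ ρb ^ 2 * nsq (chi N (insert x Λ) (pot σ (Function.update ξ x t)) z x)
        ≤ ‖pv N Λ (pot σ (Function.update ξ x t)) z x‖ ^ 2
          * nsq (chi N Λ (pot σ (Function.update ξ x t)) z o)}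
      ⊆ {t | |σ * t - c| ≤ wmw ∧ |(cc N Λ (pot σ ξ) z o x).im * (σ * t - c)
          + (cc N Λ (pot σ ξ) z o x).re * β| < ρb * β} := by
    rintro t ⟨ht1, ht2⟩
    have hre2 : (pv N Λ (pot σ (Function.update ξ x t)) z x).re = σ * t - c := by
      rw [pv_upd_self hN hz, hcd, Complex.sub_re, Complex.ofReal_re]
    have hcc : cc N Λ (pot σ (Function.update ξ x t)) z o x = cc N Λ (pot σ ξ) z o x := by
      unfold cc
      rw [Qf_upd hN hz (Finset.mem_insert_self _ _)]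
    have hch : chi N (insert x Λ) (pot σ (Function.update ξ x t)) z x
        = chi N (insert x Λ) (pot σ ξ) z x := chi_upd hN hz (Finset.mem_insert_self _ _) ξ t x
    have him : -(pv N Λ (pot σ (Function.update ξ x t)) z x).im = β := by
      rw [pv_im hN hz, hch, hβd, neg_neg]
    have h1s := chi_onestep (v := pot σ (Function.update ξ x t)) hN hz ho hxΛ
    rw [hcc, hre2, him] at h1s
    have him2 : (pv N Λ (pot σ (Function.update ξ x t)) z x).im = -β := by rw [← him, neg_neg]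
    rw [him2] at h1s
    rw [hch, not_le] at ht2
    refine ⟨by rw [← hre2]; exact hwm _ ht1, ?_⟩
    have hlt : ((cc N Λ (pot σ ξ) z o x).im * (σ * t - c)
        + (cc N Λ (pot σ ξ) z o x).re * β) ^ 2 < (ρb * β) ^ 2 := by
      calc ((cc N Λ (pot σ ξ) z o x).im * (σ * t - c)
            + (cc N Λ (pot σ ξ) z o x).re * β) ^ 2
          = ((cc N Λ (pot σ ξ) z o x).im * (σ * t - c)
            - (cc N Λ (pot σ ξ) z o x).re * -β) ^ 2 := by ring
        _ ≤ z.im * β * (‖pv N Λ (pot σ (Function.update ξ x t)) z x‖ ^ 2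
          * nsq (chi N Λ (pot σ (Function.update ξ x t)) z o)) := by
            rw [← mul_assoc]; exact h1s
        _ < z.im * β * (ρb ^ 2 * nsq (chi N (insert x Λ) (pot σ ξ) z x)) :=
            mul_lt_mul_of_pos_left ht2 (mul_pos hz hβ)
        _ = (ρb * β) * (ρb * (z.im * nsq (chi N (insert x Λ) (pot σ ξ) z x))) := by ring
        _ = (ρb * β) ^ 2 := by rw [← hβd]; ring
    exact abs_lt_of_sq_lt_sq hlt (by positivity)
  refine (measureReal_mono hsub).trans ?_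
  by_cases h0 : 0 ≤ wmw
  · exact (nc_site hν hσ hre hβ hρ0 hρ h0).trans hκw
  · have : {t | |σ * t - c| ≤ wmw ∧ |(cc N Λ (pot σ ξ) z o x).im * (σ * t - c)
          + (cc N Λ (pot σ ξ) z o x).re * β| < ρb * β} = ∅ := by
      rw [Set.eq_empty_iff_forall_notMem]
      rintro t ⟨h3, -⟩
      exact h0 ((abs_nonneg _).trans h3)
    rw [this, measureReal_empty]
    positivity

/-- Probability of a cancellation, with windows.
Proof by induction on the list, as for `inW_ge`.  If `NC` fails in the tail: integrate over `ξ x`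
with `p w` (`peel_le`) and use the induction hypothesis.  If it fails at the head: for fixed other
coordinates, `TF`, windows for the tail (which give `|pivot| ≥ (Kθ)⁻¹`), `C1` and `cc_bd` give
`|cc o x - 1| ≤ 1/4`; `c = cc`, `β = Im z * nsq (chi (insert x Λ) x)` do not depend on `ξ x`
(`Qf_upd`, `chi_upd`); by `chi_onestep` failure implies `|c_i b_r + c_r β| < ρb β`, where
`b_r = σ t - c'`; so `nc_site` bounds the probability by `4 G ρb (wm w) / σ ≤ κ p w`. -/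
theorem nc_prob {ν : Measure ℝ} [IsProbabilityMeasure ν] {G : ℝ} (hν : Law ν G) (hN : Steps N)
    (hz : 0 < z.im) (hσ : 0 < σ) {ds : V → V → ℕ} (hds : Dst ds) {K θ W : ℝ} (hc : Cst K θ W)
    {ρb κ : ℝ} (hρ0 : 0 ≤ ρb) (hρ : ρb ≤ 1 / 4) (hκ : 0 ≤ κ)
    {Φ : (V → ℝ) → ℝ} (hΦ : Nice Φ) (h0 : ∀ ξ, 0 ≤ Φ ξ) (p wm : Set ℝ → ℝ) :
    ∀ (xs : List V) (Λ : Finset V) (o : V) (ws : List (Set ℝ)), ws.length = xs.length →
      IsPath N ds Λ o xs → o ∈ Λ → xs.Nodup →
      (∀ x ∈ xs, ∀ ξ t, Φ (Function.update ξ x t) = Φ ξ) →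
      (∀ ξ, 0 < Φ ξ → TF N (pot σ ξ) z ds W K (full Λ xs) xs) →
      (∀ w ∈ ws, MeasurableSet w ∧ 0 ≤ p w ∧ (∀ t ∈ w, (K * θ)⁻¹ ≤ |t| ∧ |t| ≤ wm w) ∧
        (∀ c : ℝ, ν.real {t | σ * t - c ∈ w} ≤ p w) ∧ 4 * G * ρb * wm w / σ ≤ κ * p w) →
      ∫ ξ, ind {ξ | InW N (pot σ ξ) z Λ xs ws ∧ ¬ NC N (pot σ ξ) z ρb Λ o xs} ξ * Φ ξ ∂(PV ν V)
        ≤ xs.length * κ * (ws.map p).prod * ∫ ξ, Φ ξ ∂(PV ν V) := by
  intro xs
  induction xs with
  | nil =>
    intro Λ o ws _ _ _ _ _ _ _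
    have h1 : ∀ ξ : V → ℝ, ind {ξ : V → ℝ | InW N (pot σ ξ) z Λ [] ws ∧
        ¬ NC N (pot σ ξ) z ρb Λ o []} ξ * Φ ξ = 0 := by
      intro ξ
      rw [ind_of_notMem, zero_mul]
      rintro ⟨-, h⟩
      exact h trivial
    simp only [h1, integral_zero, List.length_nil, Nat.cast_zero, zero_mul, le_refl]
  | cons x xs ih =>
    intro Λ o ws hl hp ho hnd hΦx hΦT hws
    cases ws with
    | nil => simp at hl
    | cons w ws =>
    have hl' : ws.length = xs.length := by simpa using hl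
    have hxΛ : x ∉ Λ := hp.1
    have hxxs : x ∉ xs := (List.nodup_cons.1 hnd).1
    have hxI : x ∈ insert x Λ := Finset.mem_insert_self _ _
    obtain ⟨hwm, hpw, hwt, hwp, hwκ⟩ := hws w (by simp)
    have hws' : ∀ w ∈ ws, MeasurableSet w ∧ 0 ≤ p w ∧
        (∀ t ∈ w, (K * θ)⁻¹ ≤ |t| ∧ |t| ≤ wm w) ∧
        (∀ c : ℝ, ν.real {t | σ * t - c ∈ w} ≤ p w) ∧ 4 * G * ρb * wm w / σ ≤ κ * p w :=
      fun w' hw' => hws w' (List.mem_cons_of_mem _ hw')
    have hIH := ih (insert x Λ) x ws hl' hp.2.2.2.2.2 hxI (List.nodup_cons.1 hnd).2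
      (fun y hy => hΦx y (List.mem_cons_of_mem _ hy)) (fun ξ hξ => (hΦT ξ hξ).tail) hws'
    -- the events
    obtain ⟨E, hE⟩ : ∃ E : Set (V → ℝ), E = {ξ | (pv N Λ (pot σ ξ) z x).re ∈ w} := ⟨_, rfl⟩
    obtain ⟨F, hF⟩ : ∃ F : Set (V → ℝ), F = {ξ | InW N (pot σ ξ) z (insert x Λ) xs ws ∧
      ¬ NC N (pot σ ξ) z ρb (insert x Λ) x xs} := ⟨_, rfl⟩
    obtain ⟨I, hI⟩ : ∃ I : Set (V → ℝ), I = {ξ | InW N (pot σ ξ) z (insert x Λ) xs ws} := ⟨_, rfl⟩
    obtain ⟨H, hH⟩ : ∃ H : Set (V → ℝ), H = {ξ | (pv N Λ (pot σ ξ) z x).re ∈ w ∧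
      ¬ ρb ^ 2 * nsq (chi N (insert x Λ) (pot σ ξ) z x)
        ≤ ‖pv N Λ (pot σ ξ) z x‖ ^ 2 * nsq (chi N Λ (pot σ ξ) z o)} := ⟨_, rfl⟩
    have mE : MeasurableSet E := by
      rw [hE]; exact (Complex.measurable_re.comp (measurable_pv hN hz x)) hwm
    have mI : MeasurableSet I := by
      rw [hI]; exact measurableSet_InW hN hz xs _ ws fun w' hw' => (hws' w' hw').1
    have mF : MeasurableSet F := by
      rw [hF]
      rw [hI] at mI
      exact mI.inter (measurableSet_NC hN hz ρb xs _ x).compl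
    have mH : MeasurableSet H := by
      rw [hE] at mE
      rw [hH]
      exact mE.inter (met_meas_head hN hz ρb Λ o x).compl
    have nF : Nice fun ξ => ind F ξ * Φ ξ := (nice_ind1 mF).mul hΦ
    have nI : Nice fun ξ => ind I ξ * Φ ξ := (nice_ind1 mI).mul hΦ
    have hpt : ∀ ξ : V → ℝ, ind {ξ : V → ℝ | InW N (pot σ ξ) z Λ (x :: xs) (w :: ws) ∧
        ¬ NC N (pot σ ξ) z ρb Λ o (x :: xs)} ξ * Φ ξ
        ≤ ind E ξ * (ind F ξ * Φ ξ) + ind H ξ * (ind I ξ * Φ ξ) := by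
      intro ξ
      have k1 : 0 ≤ ind E ξ * (ind F ξ * Φ ξ) :=
        mul_nonneg (ind_nonneg _ _) (mul_nonneg (ind_nonneg _ _) (h0 ξ))
      have k2 : 0 ≤ ind H ξ * (ind I ξ * Φ ξ) :=
        mul_nonneg (ind_nonneg _ _) (mul_nonneg (ind_nonneg _ _) (h0 ξ))
      by_cases hm : ξ ∈ {ξ : V → ℝ | InW N (pot σ ξ) z Λ (x :: xs) (w :: ws) ∧
        ¬ NC N (pot σ ξ) z ρb Λ o (x :: xs)}
      · rw [ind_of_mem hm, one_mul]
        obtain ⟨⟨m1, m2⟩, m3⟩ := hm
        have m3' : ¬ (ρb ^ 2 * nsq (chi N (insert x Λ) (pot σ ξ) z x)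
            ≤ ‖pv N Λ (pot σ ξ) z x‖ ^ 2 * nsq (chi N Λ (pot σ ξ) z o)
          ∧ NC N (pot σ ξ) z ρb (insert x Λ) x xs) := m3
        by_cases hh : ρb ^ 2 * nsq (chi N (insert x Λ) (pot σ ξ) z x)
            ≤ ‖pv N Λ (pot σ ξ) z x‖ ^ 2 * nsq (chi N Λ (pot σ ξ) z o)
        · have hE' : ξ ∈ E := by rw [hE]; exact m1
          have hF' : ξ ∈ F := by
            rw [hF]; exact ⟨m2, fun h => m3' ⟨hh, h⟩⟩
          rw [ind_of_mem hE', ind_of_mem hF', one_mul, one_mul]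
          linarith
        · have hH' : ξ ∈ H := by rw [hH]; exact ⟨m1, hh⟩
          have hI' : ξ ∈ I := by rw [hI]; exact m2
          rw [ind_of_mem hH', ind_of_mem hI', one_mul, one_mul]
          linarith
      · rw [ind_of_notMem hm, zero_mul]; linarith
    have mAll : MeasurableSet {ξ : V → ℝ | InW N (pot σ ξ) z Λ (x :: xs) (w :: ws) ∧
        ¬ NC N (pot σ ξ) z ρb Λ o (x :: xs)} :=
      (measurableSet_InW hN hz (x :: xs) Λ (w :: ws) fun w' hw' => (hws w' hw').1).inter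
        (measurableSet_NC hN hz ρb (x :: xs) Λ o).compl
    have n1 : Nice fun ξ => ind E ξ * (ind F ξ * Φ ξ) := (nice_ind1 mE).mul nF
    have n2 : Nice fun ξ => ind H ξ * (ind I ξ * Φ ξ) := (nice_ind1 mH).mul nI
    have s1 : ∫ ξ, ind {ξ : V → ℝ | InW N (pot σ ξ) z Λ (x :: xs) (w :: ws) ∧
        ¬ NC N (pot σ ξ) z ρb Λ o (x :: xs)} ξ * Φ ξ ∂(PV ν V)
        ≤ ∫ ξ, ind E ξ * (ind F ξ * Φ ξ) ∂(PV ν V) + ∫ ξ, ind H ξ * (ind I ξ * Φ ξ) ∂(PV ν V) := by
      rw [← integral_add n1.integrable n2.integrable]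
      exact integral_mono ((nice_ind1 mAll).mul hΦ).integrable (n1.add n2).integrable hpt
    have updF : ∀ ξ t, ind F (Function.update ξ x t) * Φ (Function.update ξ x t)
        = ind F ξ * Φ ξ := by
      intro ξ t
      rw [hΦx x (by simp)]
      congr 1
      have : Function.update ξ x t ∈ F ↔ ξ ∈ F := by
        rw [hF]
        exact and_congr (InW_upd hN hz ξ t xs _ ws hxI hxxs)
          (not_congr (met_NC_upd hN hz ρb ξ t xs _ x hxI hxxs))
      by_cases hh : ξ ∈ F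
      · rw [ind_of_mem hh, ind_of_mem (this.2 hh)]
      · rw [ind_of_notMem hh, ind_of_notMem fun h => hh (this.1 h)]
    have updI : ∀ ξ t, ind I (Function.update ξ x t) * Φ (Function.update ξ x t)
        = ind I ξ * Φ ξ := by
      intro ξ t
      rw [hΦx x (by simp)]
      congr 1
      have : Function.update ξ x t ∈ I ↔ ξ ∈ I := by
        rw [hI]
        exact InW_upd hN hz ξ t xs _ ws hxI hxxs
      by_cases hh : ξ ∈ I
      · rw [ind_of_mem hh, ind_of_mem (this.2 hh)]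
      · rw [ind_of_notMem hh, ind_of_notMem fun h => hh (this.1 h)]
    have s2 : ∫ ξ, ind E ξ * (ind F ξ * Φ ξ) ∂(PV ν V)
        ≤ p w * ∫ ξ, ind F ξ * Φ ξ ∂(PV ν V) := by
      refine peel_le ν x mE nF (fun ξ => mul_nonneg (ind_nonneg _ _) (h0 ξ)) updF fun ξ _ => ?_
      have : {t | Function.update ξ x t ∈ E}
          = {t | σ * t - (z + SE N Λ (pot σ ξ) z x).re ∈ w} := by
        ext t
        rw [hE]
        change (pv N Λ (pot σ (Function.update ξ x t)) z x).re ∈ w ↔ _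
        rw [pv_upd_self hN hz, Complex.sub_re, Complex.ofReal_re]
        rfl
      rw [this]
      exact hwp _
    have s3 : ∫ ξ, ind H ξ * (ind I ξ * Φ ξ) ∂(PV ν V)
        ≤ (κ * p w) * ∫ ξ, ind I ξ * Φ ξ ∂(PV ν V) := by
      refine peel_le ν x mH nI (fun ξ => mul_nonneg (ind_nonneg _ _) (h0 ξ)) updI fun ξ hξ => ?_
      have hIξ : ξ ∈ I := by
        by_contra hh
        rw [ind_of_notMem hh, zero_mul] at hξ
        exact lt_irrefl _ hξ
      have hΦξ : 0 < Φ ξ := by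
        rw [ind_of_mem hIξ, one_mul] at hξ
        exact hξ
      rw [hI] at hIξ
      rw [hH]
      exact met_peel hν hN hz hσ hds hc hρ0 hρ hκ hl' hp ho ξ (hΦT ξ hΦξ)
        (fun w' hw' t ht => ((hws' w' hw').2.2.1 t ht).1) hIξ hpw (fun t ht => (hwt t ht).2) hwκ
    have s4 : ∫ ξ, ind I ξ * Φ ξ ∂(PV ν V) ≤ (ws.map p).prod * ∫ ξ, Φ ξ ∂(PV ν V) := by
      rw [hI]
      refine inW_le ν hN hz hΦ h0 p xs (insert x Λ) ws hl' (List.nodup_cons.1 hnd).2 ?_
        (fun y hy => hΦx y (List.mem_cons_of_mem _ hy))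
        (fun w' hw' => ⟨(hws' w' hw').1, (hws' w' hw').2.1, (hws' w' hw').2.2.2.1⟩)
      exact met_notMem xs (insert x Λ) x hp.2.2.2.2.2
    rw [← hF] at hIH
    have hΦ0 : 0 ≤ ∫ ξ, Φ ξ ∂(PV ν V) := integral_nonneg h0
    rw [List.map_cons, List.prod_cons, List.length_cons]
    push_cast
    calc _ ≤ _ := s1
      _ ≤ p w * ∫ ξ, ind F ξ * Φ ξ ∂(PV ν V) + (κ * p w) * ∫ ξ, ind I ξ * Φ ξ ∂(PV ν V) :=
          add_le_add s2 s3
      _ ≤ p w * (xs.length * κ * (ws.map p).prod * ∫ ξ, Φ ξ ∂(PV ν V))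
          + (κ * p w) * ((ws.map p).prod * ∫ ξ, Φ ξ ∂(PV ν V)) :=
          add_le_add (mul_le_mul_of_nonneg_left hIH hpw)
            (mul_le_mul_of_nonneg_left s4 (mul_nonneg hκ hpw))
      _ = _ := by ring

lemma met_pv_le (hN : Steps N) (hz : 0 < z.im) {K θ W bm : ℝ} {x : V}
    (hQ : ‖Qf N (insert x Λ) v z x x‖ ≤ W + 8 * W ^ 2 * (K * θ))
    (hbm : z.im + W + 8 * W ^ 2 * (K * θ) ≤ bm) (hre : |(pv N Λ v z x).re| ≤ bm) :
    ‖pv N Λ v z x‖ ≤ 2 * bm := by
  have h1 : |(pv N Λ v z x).im| ≤ bm := by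
    rw [pv_eq, Complex.sub_im, Complex.sub_im, Complex.ofReal_im, zero_sub]
    have h2 := (Complex.abs_im_le_norm (Qf N (insert x Λ) v z x x)).trans hQ
    have h3 := abs_add_le (-z.im) (-(Qf N (insert x Λ) v z x x).im)
    rw [abs_neg, abs_neg, abs_of_pos hz, ← sub_eq_add_neg] at h3
    linarith
  calc ‖pv N Λ v z x‖ ≤ |(pv N Λ v z x).re| + |(pv N Λ v z x).im| := Complex.norm_le_abs_re_add_abs_im _
    _ ≤ 2 * bm := by linarith

/-- the sources -/
lemma met_src (hN : Steps N) (hz : 0 < z.im) {ds : V → V → ℕ} (hds : Dst ds) {K θ W : ℝ}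
    (hc : Cst K θ W) {ρb bm : ℝ} (hρ0 : 0 < ρb) (hρ : ρb ≤ 1 / 4)
    (hbm : z.im + W + 8 * W ^ 2 * (K * θ) ≤ bm) (hbm1 : 1 ≤ bm) :
    ∀ (xs : List V) (Λ : Finset V) (o : V) (ws : List (Set ℝ)), ws.length = xs.length →
      IsPath N ds Λ o xs → o ∈ Λ → TF N v z ds W K (full Λ xs) xs →
      (∀ w ∈ ws, ∀ t ∈ w, (K * θ)⁻¹ ≤ |t| ∧ |t| ≤ bm) → InW N v z Λ xs ws →
      NC N v z ρb Λ o xs →
      (∀ y ∈ Λ, nrm (chi N (full Λ xs) v z y) * (ρb / (2 * bm)) ^ xs.length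
        ≤ nrm (chi N Λ v z y) + xs.length * K * nrm (chi N Λ v z o)) ∧
      (∀ y ∈ o :: xs, nrm (chi N (full Λ xs) v z y) * (ρb / (2 * bm)) ^ xs.length
        ≤ (1 + xs.length * K) * nrm (chi N Λ v z o)) := by
  have hW := hc.W1
  have hθ := hc.θ0
  have hK0 : 0 < K := by linarith [hc.K1]
  obtain ⟨r, hr⟩ : ∃ r : ℝ, r = ρb / (2 * bm) := ⟨_, rfl⟩
  have hr0 : 0 < r := by rw [hr]; positivity
  have hr1 : r ≤ 1 := by
    rw [hr, div_le_one (by positivity)]; linarith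
  rw [← hr]
  intro xs
  induction xs with
  | nil =>
    intro Λ o ws _ _ _ _ _ _ _
    refine ⟨fun y _ => ?_, fun y hy => ?_⟩
    · simp [full]
    · have : y = o := by simpa using hy
      subst this
      simp [full]
  | cons x xs ih =>
    intro Λ o ws hl hp ho hT hws hI hNC
    cases ws with
    | nil => simp at hl
    | cons w ws =>
    have hl' : ws.length = xs.length := by simpa using hl
    have hws' : ∀ w ∈ ws, ∀ t ∈ w, (K * θ)⁻¹ ≤ |t| ∧ |t| ≤ bm :=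
      fun w' hw' => hws w' (List.mem_cons_of_mem _ hw')
    obtain ⟨ih1, ih2⟩ := ih (insert x Λ) x ws hl' hp.2.2.2.2.2 (Finset.mem_insert_self _ _)
      hT.tail hws' hI.2 hNC.2
    obtain ⟨hcc, -, hQ⟩ := met_first hN hz hds hc hl' hp ho hT
      (fun w' hw' t ht => (hws' w' hw' t ht).1) hI.2
    have hxΛ : x ∉ Λ := hp.1
    have hpv2 : ‖pv N Λ v z x‖ ≤ 2 * bm :=
      met_pv_le hN hz hQ hbm (hws w (by simp) _ hI.1).2
    have hpv1 : (K * θ)⁻¹ ≤ ‖pv N Λ v z x‖ :=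
      ((hws w (by simp) _ hI.1).1).trans (Complex.abs_re_le_norm _)
    -- the norm at `x`
    have hx : r * nrm (chi N (insert x Λ) v z x) ≤ nrm (chi N Λ v z o) := by
      have h1 : (ρb * nrm (chi N (insert x Λ) v z x)) ^ 2
          ≤ (2 * bm * nrm (chi N Λ v z o)) ^ 2 := by
        rw [mul_pow, mul_pow, nrm_sq, nrm_sq]
        refine hNC.1.trans (mul_le_mul_of_nonneg_right ?_ (nsq_nonneg _))
        exact pow_le_pow_left₀ (norm_nonneg _) hpv2 2
      have h2 : ρb * nrm (chi N (insert x Λ) v z x) ≤ 2 * bm * nrm (chi N Λ v z o) :=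
        (pow_le_pow_iff_left₀ (mul_nonneg hρ0.le (nrm_nonneg _))
          (mul_nonneg (by positivity) (nrm_nonneg _)) two_ne_zero).1 h1
      rw [hr, div_mul_eq_mul_div, div_le_iff₀ (by positivity)]
      linarith
    -- the norm at `y ∈ Λ`
    have hy : ∀ y ∈ Λ, nrm (chi N (insert x Λ) v z y)
        ≤ nrm (chi N Λ v z y) + K * nrm (chi N (insert x Λ) v z x) := by
      intro y hy
      have h1 : chi N (insert x Λ) v z y = chi N Λ v z y
          + (cc N Λ v z y x / pv N Λ v z x) • chi N (insert x Λ) v z x := by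
        rw [chi_step hN hz y hxΛ]; abel
      rw [h1]
      refine (nrm_add_le _ _).trans ?_
      rw [nrm_smul]
      refine add_le_add_right ?_ _ |> fun h => h
      refine mul_le_mul_of_nonneg_right ?_ (nrm_nonneg _)
      rw [norm_div]
      have hpos : 0 < ‖pv N Λ v z x‖ := norm_pos_iff.2 (pv_ne hN hz x)
      rw [div_le_iff₀ hpos]
      have h2 : ‖cc N Λ v z y x‖ ≤ 2 * W := by
        refine (hcc y hy).trans ?_
        have : K⁻¹ ^ (ds y o) ≤ 1 := pow_le_one₀ (by positivity) (inv_le_one_of_one_le₀ (by linarith [hc.K1]))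
        nlinarith
      have h3 : 2 * W ≤ K * (K * θ)⁻¹ := by
        have h4 : K * (K * θ)⁻¹ = θ⁻¹ := by field_simp
        rw [h4, ← one_div, le_div_iff₀ hθ]
        have := hc.h1
        have h5 : 0 < W / K := by positivity
        nlinarith [mul_pos (by linarith : 0 < W) hθ]
      exact h2.trans (h3.trans (mul_le_mul_of_nonneg_left hpv1 hK0.le))
    have hn : 0 ≤ (xs.length : ℝ) * K := by positivity
    have hn0 := nrm_nonneg (chi N Λ v z o)
    have key : ∀ y ∈ Λ, nrm (chi N (full Λ (x :: xs)) v z y) * r ^ (x :: xs).length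
        ≤ nrm (chi N Λ v z y) + (x :: xs).length * K * nrm (chi N Λ v z o) := by
      intro y hyΛ
      have h1 := ih1 y (Finset.mem_insert_of_mem hyΛ)
      have h2 := hy y hyΛ
      rw [List.length_cons, pow_succ, ← mul_assoc]
      push_cast
      calc nrm (chi N (full Λ (x :: xs)) v z y) * r ^ xs.length * r
          ≤ (nrm (chi N (insert x Λ) v z y)
            + xs.length * K * nrm (chi N (insert x Λ) v z x)) * r :=
            mul_le_mul_of_nonneg_right h1 hr0.le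
        _ ≤ ((nrm (chi N Λ v z y) + K * nrm (chi N (insert x Λ) v z x))
            + xs.length * K * nrm (chi N (insert x Λ) v z x)) * r :=
            mul_le_mul_of_nonneg_right (by linarith) hr0.le
        _ = nrm (chi N Λ v z y) * r
            + ((xs.length + 1) * K) * (r * nrm (chi N (insert x Λ) v z x)) := by ring
        _ ≤ nrm (chi N Λ v z y) * 1 + ((xs.length + 1) * K) * nrm (chi N Λ v z o) := by
            refine add_le_add (mul_le_mul_of_nonneg_left hr1 (nrm_nonneg _)) ?_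
            exact mul_le_mul_of_nonneg_left hx (by positivity)
        _ = _ := by ring
    refine ⟨key, fun y hyo => ?_⟩
    rcases List.mem_cons.1 hyo with rfl | hyo
    · refine (key y ho).trans (le_of_eq ?_)
      ring
    · have h1 := ih2 y hyo
      rw [List.length_cons, pow_succ, ← mul_assoc]
      push_cast
      calc nrm (chi N (full Λ (x :: xs)) v z y) * r ^ xs.length * r
          ≤ ((1 + xs.length * K) * nrm (chi N (insert x Λ) v z x)) * r :=
            mul_le_mul_of_nonneg_right h1 hr0.le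
        _ = (1 + xs.length * K) * (r * nrm (chi N (insert x Λ) v z x)) := by ring
        _ ≤ (1 + xs.length * K) * nrm (chi N Λ v z o) :=
            mul_le_mul_of_nonneg_left hx (by positivity)
        _ ≤ (1 + (xs.length + 1) * K) * nrm (chi N Λ v z o) :=
            mul_le_mul_of_nonneg_right (by nlinarith) hn0

/-- The norms along the path.
Proof. Write `m_k = nrm` of `chi` at the `k`th site of the path with the first `k` sites removed
(`m_0` for `o`), `y_x = nrm (chi (full Λ xs) x)`.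
(1) `|pv| ≤ 2 bm` at each step: `|Re pv| ≤ bm` from the window, `|Im pv| = Im z + Im SE ≤ Im z +
W + 8 W² K θ ≤ bm` (`C1`, `cc_bd`).  So `NC` gives `m_0 ≥ (ρb / (2 bm))^k m_k`.
(2) by `chi_step`, for `x ∈ Λ`: `nrm (chi (full Λ xs) x) ≤ nrm (chi Λ x) + ∑_{l} |c_l/b_l| m_l`, with
`|c_l / b_l| ≤ 2 W K θ ≤ K` (`cc_bd`, pivots at least `(Kθ)⁻¹`), applied at the level where `x` has just
been removed; so `y_{x_k} ≤ m_k + K ∑_{l > k} m_l ≤ (1 + length K) max_l m_l`.
Together: `√Y ≤ (1 + length K) (ρb / (2 bm))^(- length) m_0`.  (`ρb ≤ 2 bm`.)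
It is convenient to prove first by induction on the list: for all `x ∈ o :: xs`,
`nrm (chi (full Λ xs) x) * (ρb / (2 bm))^length ≤ (1 + length K) * nrm (chi Λ o)`. -/
theorem met_chain (hN : Steps N) (hz : 0 < z.im) {ds : V → V → ℕ} (hds : Dst ds) {K θ W : ℝ}
    (hc : Cst K θ W) {ρb bm Y : ℝ} (hρ0 : 0 < ρb) (hρ : ρb ≤ 1 / 4)
    (hbm : z.im + W + 8 * W ^ 2 * (K * θ) ≤ bm) (hbm1 : 1 ≤ bm) :
    ∀ (xs : List V) (Λ : Finset V) (o : V) (ws : List (Set ℝ)), ws.length = xs.length →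
      IsPath N ds Λ o xs → o ∈ Λ → TF N v z ds W K (full Λ xs) xs →
      (∀ w ∈ ws, ∀ t ∈ w, (K * θ)⁻¹ ≤ |t| ∧ |t| ≤ bm) → InW N v z Λ xs ws →
      NC N v z ρb Λ o xs → (∃ x ∈ o :: xs, Y ≤ nsq (chi N (full Λ xs) v z x)) →
      Y * ((ρb / (2 * bm)) ^ xs.length / (1 + xs.length * K)) ^ 2 ≤ nsq (chi N Λ v z o) := by
  intro xs Λ o ws hl hp ho hT hws hI hNC hY
  obtain ⟨x, hx, hYx⟩ := hY
  have hK0 : 0 < K := by linarith [hc.K1]
  have h1 := (met_src hN hz hds hc hρ0 hρ hbm hbm1 xs Λ o ws hl hp ho hT hws hI hNC).2 x hx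
  have hD : 0 < 1 + (xs.length : ℝ) * K := by positivity
  obtain ⟨q, hq⟩ : ∃ q : ℝ, q = (ρb / (2 * bm)) ^ xs.length := ⟨_, rfl⟩
  have hq0 : 0 < q := by rw [hq]; positivity
  rw [← hq] at h1 ⊢
  have h2 : nrm (chi N (full Λ xs) v z x) * (q / (1 + xs.length * K)) ≤ nrm (chi N Λ v z o) := by
    rw [← mul_div_assoc, div_le_iff₀ hD]
    linarith
  calc Y * (q / (1 + xs.length * K)) ^ 2
      ≤ nsq (chi N (full Λ xs) v z x) * (q / (1 + xs.length * K)) ^ 2 :=
        mul_le_mul_of_nonneg_right hYx (by positivity)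
    _ = (nrm (chi N (full Λ xs) v z x) * (q / (1 + xs.length * K))) ^ 2 := by
        rw [mul_pow, nrm_sq]
    _ ≤ nrm (chi N Λ v z o) ^ 2 :=
        pow_le_pow_left₀ (mul_nonneg (nrm_nonneg _) (by positivity)) h2 2
    _ = _ := nrm_sq _

/-- the tail of the law -/
lemma met_tail {ν : Measure ℝ} {G : ℝ} (hν : Law ν G) {a : ℝ} (ha : 0 < a) :
    ν.real {t | a < |t|} ≤ 2 * G / a := by
  have hP := hν.prob
  obtain ⟨g, hg, hg0, hgG, hgG2, hd⟩ := hν.dens
  have hG : 0 ≤ G := (hg0 0).trans (hgG 0)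
  have hmf : Measurable fun t : ℝ => ENNReal.ofReal (G * (t ^ 2)⁻¹) := by fun_prop
  have hle : ∀ t : ℝ, t ≠ 0 → ENNReal.ofReal (g t) ≤ ENNReal.ofReal (G * (t ^ 2)⁻¹) := by
    intro t ht
    apply ENNReal.ofReal_le_ofReal
    have h2 : 0 < t ^ 2 := by positivity
    rw [← div_eq_mul_inv, le_div_iff₀ h2, mul_comm]
    exact hgG2 t
  have hint : ∫⁻ t in Set.Ioi a, ENNReal.ofReal (G * (t ^ 2)⁻¹) = ENNReal.ofReal (G / a) := by
    have h1 : IntegrableOn (fun t : ℝ => G * t ^ (-2 : ℝ)) (Set.Ioi a) :=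
      (integrableOn_Ioi_rpow_of_lt (by norm_num) ha).const_mul G
    have h2 : ∫ t in Set.Ioi a, G * t ^ (-2 : ℝ) = G / a := by
      rw [integral_const_mul, integral_Ioi_rpow_of_lt (by norm_num) ha]
      have : (-2 : ℝ) + 1 = -1 := by norm_num
      rw [this, Real.rpow_neg_one]
      ring
    rw [← h2, ofReal_integral_eq_lintegral_ofReal h1]
    · refine setLIntegral_congr_fun measurableSet_Ioi fun t ht => ?_
      have ht0 : 0 < t := ha.trans ht
      have : t ^ (-2 : ℝ) = (t ^ 2)⁻¹ := by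
        rw [Real.rpow_neg ht0.le, ← Real.rpow_natCast]
        norm_num
      simp only [this]
    · refine (ae_restrict_iff' measurableSet_Ioi).2 (Filter.Eventually.of_forall fun t ht => ?_)
      have ht0 : 0 < t := ha.trans ht
      exact mul_nonneg hG (Real.rpow_nonneg ht0.le _)
  have hint2 : ∫⁻ t in Set.Iio (-a), ENNReal.ofReal (G * (t ^ 2)⁻¹) = ENNReal.ofReal (G / a) := by
    rw [← hint, ← (Measure.measurePreserving_neg (volume : Measure ℝ)).setLIntegral_comp_preimage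
      measurableSet_Ioi hmf]
    have : (Neg.neg ⁻¹' Set.Ioi a : Set ℝ) = Set.Iio (-a) := by
      ext t; simp only [Set.mem_preimage, Set.mem_Ioi, Set.mem_Iio]; constructor <;> intro h <;> linarith
    rw [this]
    refine lintegral_congr fun t => ?_
    rw [neg_sq]
  have h1 : ν (Set.Ioi a) ≤ ENNReal.ofReal (G / a) := by
    rw [hd, withDensity_apply _ measurableSet_Ioi, ← hint]
    exact setLIntegral_mono hmf fun t ht => hle t (ha.trans ht).ne'
  have h2 : ν (Set.Iio (-a)) ≤ ENNReal.ofReal (G / a) := by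
    rw [hd, withDensity_apply _ measurableSet_Iio, ← hint2]
    refine setLIntegral_mono hmf fun t ht => hle t ?_
    have : t < -a := ht
    exact (show t < 0 by linarith).ne
  have hGa : 0 ≤ G / a := by positivity
  have h1' : ν.real (Set.Ioi a) ≤ G / a := ENNReal.toReal_le_of_le_ofReal hGa h1
  have h2' : ν.real (Set.Iio (-a)) ≤ G / a := ENNReal.toReal_le_of_le_ofReal hGa h2
  have hsub : {t : ℝ | a < |t|} ⊆ Set.Ioi a ∪ Set.Iio (-a) := by
    intro t ht
    have ht' : a < |t| := ht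
    rcases lt_abs.1 ht' with h | h
    · exact Or.inl h
    · exact Or.inr (by rw [Set.mem_Iio]; linarith)
  calc ν.real {t | a < |t|} ≤ ν.real (Set.Ioi a ∪ Set.Iio (-a)) := measureReal_mono hsub
    _ ≤ ν.real (Set.Ioi a) + ν.real (Set.Iio (-a)) := measureReal_union_le _ _
    _ ≤ G / a + G / a := add_le_add h1' h2'
    _ = 2 * G / a := by ring

/-- the large window -/
def metw (a bm : ℝ) : Set ℝ := {t | a ≤ |t| ∧ |t| ≤ bm}

lemma measurableSet_metw (a bm : ℝ) : MeasurableSet (metw a bm) :=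
  (measurableSet_le measurable_const measurable_id.abs).inter
    (measurableSet_le measurable_id.abs measurable_const)

/-- probability to be outside the large window -/
lemma met_out {ν : Measure ℝ} {G : ℝ} (hν : Law ν G) (hσ : 0 < σ) {a bm c : ℝ} (ha : 0 < a)
    (hbm : 1 ≤ bm) (hc : |c| ≤ bm / 2) :
    ν.real {t | σ * t - c ∉ metw a bm} ≤ 2 * G * a / σ + 4 * G * σ / bm := by
  have hP := hν.prob
  have hsub : {t | σ * t - c ∉ metw a bm} ⊆ Set.Icc ((c - a) / σ) ((c + a) / σ)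
      ∪ {t | bm / (2 * σ) < |t|} := by
    intro t ht
    have ht' : ¬ (a ≤ |σ * t - c| ∧ |σ * t - c| ≤ bm) := ht
    by_cases h : a ≤ |σ * t - c|
    · right
      have h2 : bm < |σ * t - c| := not_le.1 fun h3 => ht' ⟨h, h3⟩
      have h3 : |σ * t - c| ≤ |σ * t| + |c| := abs_sub _ _
      rw [abs_mul, abs_of_pos hσ] at h3
      change bm / (2 * σ) < |t|
      rw [div_lt_iff₀ (by positivity)]
      nlinarith
    · left
      rw [not_le, abs_lt] at h
      rw [Set.mem_Icc, div_le_iff₀ hσ, le_div_iff₀ hσ]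
      constructor <;> linarith [h.1, h.2]
  have hle : (c - a) / σ ≤ (c + a) / σ := by
    gcongr
    linarith
  calc ν.real {t | σ * t - c ∉ metw a bm}
      ≤ ν.real (Set.Icc ((c - a) / σ) ((c + a) / σ) ∪ {t | bm / (2 * σ) < |t|}) :=
        measureReal_mono hsub
    _ ≤ ν.real (Set.Icc ((c - a) / σ) ((c + a) / σ)) + ν.real {t | bm / (2 * σ) < |t|} :=
        measureReal_union_le _ _
    _ ≤ G * ((c + a) / σ - (c - a) / σ) + 2 * G / (bm / (2 * σ)) :=
        add_le_add (hν.Icc_le hle) (met_tail hν (by positivity))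
    _ = 2 * G * a / σ + 4 * G * σ / bm := by
        field_simp
        ring

/-- the probability that the pivots are not in the large window -/
lemma met_notInW {ν : Measure ℝ} [IsProbabilityMeasure ν] {G : ℝ} (hν : Law ν G) (hN : Steps N)
    (hz : 0 < z.im) (hσ : 0 < σ) {ds : V → V → ℕ} (hds : Dst ds) {K θ W : ℝ} (hc : Cst K θ W)
    {bm : ℝ} (hbm : 2 * (|z.re| + z.im + W + 8 * W ^ 2 * (K * θ)) ≤ bm) (hbm1 : 1 ≤ bm)
    {Φ : (V → ℝ) → ℝ} (hΦ : Nice Φ) (h0 : ∀ ξ, 0 ≤ Φ ξ) :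
    ∀ (xs : List V) (Λ : Finset V) (o : V) (ws : List (Set ℝ)), ws.length = xs.length →
      IsPath N ds Λ o xs → o ∈ Λ → xs.Nodup →
      (∀ x ∈ xs, ∀ ξ t, Φ (Function.update ξ x t) = Φ ξ) →
      (∀ ξ, 0 < Φ ξ → TF N (pot σ ξ) z ds W K (full Λ xs) xs) →
      (∀ w ∈ ws, w = metw (K * θ)⁻¹ bm) →
      ∫ ξ, ind {ξ | ¬ InW N (pot σ ξ) z Λ xs ws} ξ * Φ ξ ∂(PV ν V)
        ≤ xs.length * (2 * G * (K * θ)⁻¹ / σ + 4 * G * σ / bm) * ∫ ξ, Φ ξ ∂(PV ν V) := by
  have hG : 0 ≤ G := by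
    obtain ⟨g, _, h0, h1, _, _⟩ := hν.dens
    exact (h0 0).trans (h1 0)
  have hθ := hc.θ0
  have hK0 : 0 < K := by linarith [hc.K1]
  have hKθ : 0 < (K * θ)⁻¹ := by positivity
  obtain ⟨q, hq⟩ : ∃ q : ℝ, q = 2 * G * (K * θ)⁻¹ / σ + 4 * G * σ / bm := ⟨_, rfl⟩
  have hq0 : 0 ≤ q := by rw [hq]; positivity
  rw [← hq]
  have hΦ0 : 0 ≤ ∫ ξ, Φ ξ ∂(PV ν V) := integral_nonneg h0
  intro xs
  induction xs with
  | nil =>
    intro Λ o ws _ _ _ _ _ _ _
    have h1 : ∀ ξ : V → ℝ, ind {ξ : V → ℝ | ¬ InW N (pot σ ξ) z Λ [] ws} ξ * Φ ξ = 0 := by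
      intro ξ
      rw [ind_of_notMem, zero_mul]
      intro h
      exact h trivial
    simp only [h1, integral_zero, List.length_nil, Nat.cast_zero, zero_mul, le_refl]
  | cons x xs ih =>
    intro Λ o ws hl hp ho hnd hΦx hΦT hws
    cases ws with
    | nil => simp at hl
    | cons w ws =>
    have hl' : ws.length = xs.length := by simpa using hl
    have hxxs : x ∉ xs := (List.nodup_cons.1 hnd).1
    have hxI : x ∈ insert x Λ := Finset.mem_insert_self _ _
    have hw0 : w = metw (K * θ)⁻¹ bm := hws w (by simp)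
    have hws' : ∀ w ∈ ws, w = metw (K * θ)⁻¹ bm :=
      fun w' hw' => hws w' (List.mem_cons_of_mem _ hw')
    have hwm : MeasurableSet w := by rw [hw0]; exact measurableSet_metw _ _
    have hwsm : ∀ w ∈ ws, MeasurableSet w := fun w' hw' => by
      rw [hws' w' hw']; exact measurableSet_metw _ _
    have hIH := ih (insert x Λ) x ws hl' hp.2.2.2.2.2 hxI (List.nodup_cons.1 hnd).2
      (fun y hy => hΦx y (List.mem_cons_of_mem _ hy)) (fun ξ hξ => (hΦT ξ hξ).tail) hws'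
    obtain ⟨E, hE⟩ : ∃ E : Set (V → ℝ), E = {ξ | (pv N Λ (pot σ ξ) z x).re ∉ w} := ⟨_, rfl⟩
    obtain ⟨I, hI⟩ : ∃ I : Set (V → ℝ), I = {ξ | InW N (pot σ ξ) z (insert x Λ) xs ws} := ⟨_, rfl⟩
    obtain ⟨F, hF⟩ : ∃ F : Set (V → ℝ), F = {ξ | ¬ InW N (pot σ ξ) z (insert x Λ) xs ws} :=
      ⟨_, rfl⟩
    have mE : MeasurableSet E := by
      rw [hE]; exact ((Complex.measurable_re.comp (measurable_pv hN hz x)) hwm).compl
    have mI : MeasurableSet I := by
      rw [hI]; exact measurableSet_InW hN hz xs _ ws hwsm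
    have mF : MeasurableSet F := by
      rw [hF]; rw [hI] at mI; exact mI.compl
    have nF : Nice fun ξ => ind F ξ * Φ ξ := (nice_ind1 mF).mul hΦ
    have nI : Nice fun ξ => ind I ξ * Φ ξ := (nice_ind1 mI).mul hΦ
    have hpt : ∀ ξ : V → ℝ, ind {ξ : V → ℝ | ¬ InW N (pot σ ξ) z Λ (x :: xs) (w :: ws)} ξ * Φ ξ
        ≤ ind F ξ * Φ ξ + ind E ξ * (ind I ξ * Φ ξ) := by
      intro ξ
      have k1 : 0 ≤ ind F ξ * Φ ξ := mul_nonneg (ind_nonneg _ _) (h0 ξ)
      have k2 : 0 ≤ ind E ξ * (ind I ξ * Φ ξ) :=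
        mul_nonneg (ind_nonneg _ _) (mul_nonneg (ind_nonneg _ _) (h0 ξ))
      by_cases hm : ξ ∈ {ξ : V → ℝ | ¬ InW N (pot σ ξ) z Λ (x :: xs) (w :: ws)}
      · rw [ind_of_mem hm, one_mul]
        have m3 : ¬ ((pv N Λ (pot σ ξ) z x).re ∈ w ∧ InW N (pot σ ξ) z (insert x Λ) xs ws) := hm
        by_cases hh : InW N (pot σ ξ) z (insert x Λ) xs ws
        · have hI' : ξ ∈ I := by rw [hI]; exact hh
          have hE' : ξ ∈ E := by rw [hE]; exact fun h => m3 ⟨h, hh⟩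
          rw [ind_of_mem hE', ind_of_mem hI', one_mul, one_mul]
          linarith
        · have hF' : ξ ∈ F := by rw [hF]; exact hh
          rw [ind_of_mem hF', one_mul]
          linarith
      · rw [ind_of_notMem hm, zero_mul]; linarith
    have mAll : MeasurableSet {ξ : V → ℝ | ¬ InW N (pot σ ξ) z Λ (x :: xs) (w :: ws)} := by
      refine (measurableSet_InW hN hz (x :: xs) Λ (w :: ws) fun w' hw' => ?_).compl
      rw [hws w' hw']; exact measurableSet_metw _ _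
    have n2 : Nice fun ξ => ind E ξ * (ind I ξ * Φ ξ) := (nice_ind1 mE).mul nI
    have s1 : ∫ ξ, ind {ξ : V → ℝ | ¬ InW N (pot σ ξ) z Λ (x :: xs) (w :: ws)} ξ * Φ ξ ∂(PV ν V)
        ≤ ∫ ξ, ind F ξ * Φ ξ ∂(PV ν V) + ∫ ξ, ind E ξ * (ind I ξ * Φ ξ) ∂(PV ν V) := by
      rw [← integral_add nF.integrable n2.integrable]
      exact integral_mono ((nice_ind1 mAll).mul hΦ).integrable (nF.add n2).integrable hpt
    have updI : ∀ ξ t, ind I (Function.update ξ x t) * Φ (Function.update ξ x t)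
        = ind I ξ * Φ ξ := by
      intro ξ t
      rw [hΦx x (by simp)]
      congr 1
      have : Function.update ξ x t ∈ I ↔ ξ ∈ I := by
        rw [hI]
        exact InW_upd hN hz ξ t xs _ ws hxI hxxs
      by_cases hh : ξ ∈ I
      · rw [ind_of_mem hh, ind_of_mem (this.2 hh)]
      · rw [ind_of_notMem hh, ind_of_notMem fun h => hh (this.1 h)]
    have s3 : ∫ ξ, ind E ξ * (ind I ξ * Φ ξ) ∂(PV ν V)
        ≤ q * ∫ ξ, ind I ξ * Φ ξ ∂(PV ν V) := by
      refine peel_le ν x mE nI (fun ξ => mul_nonneg (ind_nonneg _ _) (h0 ξ)) updI fun ξ hξ => ?_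
      have hIξ : ξ ∈ I := by
        by_contra hh
        rw [ind_of_notMem hh, zero_mul] at hξ
        exact lt_irrefl _ hξ
      have hΦξ : 0 < Φ ξ := by
        rw [ind_of_mem hIξ, one_mul] at hξ
        exact hξ
      rw [hI] at hIξ
      obtain ⟨-, -, hQ⟩ := met_first hN hz hds hc hl' hp ho (hΦT ξ hΦξ)
        (fun w' hw' t ht => by rw [hws' w' hw'] at ht; exact ht.1) hIξ
      have : {t | Function.update ξ x t ∈ E}
          = {t | σ * t - (z + SE N Λ (pot σ ξ) z x).re ∉ metw (K * θ)⁻¹ bm} := by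
        ext t
        rw [hE, hw0]
        change (pv N Λ (pot σ (Function.update ξ x t)) z x).re ∉ metw (K * θ)⁻¹ bm ↔ _
        rw [pv_upd_self hN hz, Complex.sub_re, Complex.ofReal_re]
        rfl
      rw [this, hq]
      refine met_out hν hσ hKθ hbm1 ?_
      have h2 := (Complex.abs_re_le_norm (Qf N (insert x Λ) (pot σ ξ) z x x)).trans hQ
      rw [SE_eq, Complex.add_re]
      have h3 := abs_add_le z.re (Qf N (insert x Λ) (pot σ ξ) z x x).re
      linarith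
    have s4 : ∫ ξ, ind I ξ * Φ ξ ∂(PV ν V) ≤ ∫ ξ, Φ ξ ∂(PV ν V) := by
      refine integral_mono nI.integrable hΦ.integrable fun ξ => ?_
      exact mul_le_of_le_one_left (h0 ξ) (ind_le_one _ _)
    rw [← hF] at hIH
    rw [List.length_cons]
    push_cast
    calc _ ≤ _ := s1
      _ ≤ xs.length * q * ∫ ξ, Φ ξ ∂(PV ν V) + q * ∫ ξ, ind I ξ * Φ ξ ∂(PV ν V) :=
          add_le_add hIH s3
      _ ≤ xs.length * q * ∫ ξ, Φ ξ ∂(PV ν V) + q * ∫ ξ, Φ ξ ∂(PV ν V) :=
          add_le_add le_rfl (mul_le_mul_of_nonneg_left s4 hq0)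
      _ = _ := by ring

lemma met_meas_TF (hN : Steps N) (hz : 0 < z.im) (ds : V → V → ℕ) (K W : ℝ) (Λf : Finset V)
    (xs : List V) : MeasurableSet {ξ : V → ℝ | TF N (pot σ ξ) z ds W K Λf xs} := by
  have h1 : {ξ : V → ℝ | TF N (pot σ ξ) z ds W K Λf xs}
      = (⋂ x : V, ⋂ y : V, {ξ : V → ℝ | x ∈ Λf ∧ y ∈ xs ∧ x ≠ y →
          ‖Qf N Λf (pot σ ξ) z x y‖ ≤ W * K⁻¹ ^ (max 1 (ds x y - 1))})
        ∩ ⋂ y : V, {ξ : V → ℝ | y ∈ xs → ‖Qf N Λf (pot σ ξ) z y y‖ ≤ W} := by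
    refine Set.ext fun ξ => ⟨fun h => ⟨?_, ?_⟩, fun h => ⟨?_, ?_⟩⟩
    · refine Set.mem_iInter.2 fun x => Set.mem_iInter.2 fun y hxy => ?_
      exact TF.off h x hxy.1 y hxy.2.1 hxy.2.2
    · exact Set.mem_iInter.2 fun y hy => TF.diag h y hy
    · intro x hx y hy hxy
      exact Set.mem_iInter.1 (Set.mem_iInter.1 h.1 x) y ⟨hx, hy, hxy⟩
    · intro y hy
      exact Set.mem_iInter.1 h.2 y hy
  rw [h1]
  refine MeasurableSet.inter ?_ ?_
  · refine MeasurableSet.iInter fun x => MeasurableSet.iInter fun y => ?_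
    by_cases h : x ∈ Λf ∧ y ∈ xs ∧ x ≠ y
    · have e : {ξ : V → ℝ | x ∈ Λf ∧ y ∈ xs ∧ x ≠ y →
          ‖Qf N Λf (pot σ ξ) z x y‖ ≤ W * K⁻¹ ^ (max 1 (ds x y - 1))}
          = {ξ : V → ℝ | ‖Qf N Λf (pot σ ξ) z x y‖ ≤ W * K⁻¹ ^ (max 1 (ds x y - 1))} :=
        Set.ext fun ξ => ⟨fun h' => h' h, fun h' _ => h'⟩
      rw [e]
      exact measurableSet_le (measurable_Qf hN hz x y).norm measurable_const
    · have e : {ξ : V → ℝ | x ∈ Λf ∧ y ∈ xs ∧ x ≠ y →
          ‖Qf N Λf (pot σ ξ) z x y‖ ≤ W * K⁻¹ ^ (max 1 (ds x y - 1))} = Set.univ :=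
        Set.eq_univ_of_forall fun ξ h' => absurd h' h
      rw [e]
      exact MeasurableSet.univ
  · refine MeasurableSet.iInter fun y => ?_
    by_cases h : y ∈ xs
    · have e : {ξ : V → ℝ | y ∈ xs → ‖Qf N Λf (pot σ ξ) z y y‖ ≤ W}
          = {ξ : V → ℝ | ‖Qf N Λf (pot σ ξ) z y y‖ ≤ W} :=
        Set.ext fun ξ => ⟨fun h' => h' h, fun h' _ => h'⟩
      rw [e]
      exact measurableSet_le (measurable_Qf hN hz y y).norm measurable_const
    · have e : {ξ : V → ℝ | y ∈ xs → ‖Qf N Λf (pot σ ξ) z y y‖ ≤ W} = Set.univ :=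
        Set.eq_univ_of_forall fun ξ h' => absurd h' h
      rw [e]
      exact MeasurableSet.univ

lemma met_TF_upd (hN : Steps N) (hz : 0 < z.im) (ds : V → V → ℕ) (K W : ℝ) {Λf : Finset V}
    (xs : List V) {x : V} (hx : x ∈ Λf) (ξ : V → ℝ) (t : ℝ) :
    TF N (pot σ (Function.update ξ x t)) z ds W K Λf xs ↔ TF N (pot σ ξ) z ds W K Λf xs := by
  constructor
  · intro h
    refine ⟨fun a ha b hb hab => ?_, fun b hb => ?_⟩
    · have := h.off a ha b hb hab
      rwa [Qf_upd hN hz hx] at this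
    · have := h.diag b hb
      rwa [Qf_upd hN hz hx] at this
  · intro h
    refine ⟨fun a ha b hb hab => ?_, fun b hb => ?_⟩
    · rw [Qf_upd hN hz hx]; exact h.off a ha b hb hab
    · rw [Qf_upd hN hz hx]; exact h.diag b hb

/-- Without windows.
Proof. Let `w = {t | (Kθ)⁻¹ ≤ |t| ≤ bm}`, `ws` the constant list.
(1) The probability of `TF` and not `InW ws` is at most `length * (2 G / (K θ σ) + 4 G σ / bm)`: the first
failure from the end of the path; given the windows of the tail, `|SE| ≤ W + 8 W² K θ`, the real part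
of the pivot is `σ t - c` with `|c| ≤ |Re z| + W + 8 W² K θ ≤ bm / 2`;
`ν {|σ t - c| < (Kθ)⁻¹} ≤ 2 G / (K θ σ)` and `ν {|σ t - c| > bm} ≤ ν {|t| > bm / (2 σ)} ≤ 4 G σ / bm`
(`g t ≤ G / t²`).
(2) `nc_prob` with `p = 1`, `wm = bm`, `κ = 4 G ρb bm / σ`, `Φ` the indicator of `TF` (which does not
depend on the coordinates of the path; measurable).
(3) otherwise `met_chain`. -/
theorem met_unplanted {ν : Measure ℝ} [IsProbabilityMeasure ν] {G : ℝ} (hν : Law ν G) (hG : 0 < G)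
    (hN : Steps N) (hz : 0 < z.im) (hσ : 0 < σ) {ds : V → V → ℕ} (hds : Dst ds) {K θ W : ℝ}
    (hc : Cst K θ W) {ρb bm Y : ℝ} (hρ0 : 0 < ρb) (hρ : ρb ≤ 1 / 4)
    (hbm : 2 * (|z.re| + z.im + W + 8 * W ^ 2 * (K * θ)) ≤ bm) (hbm1 : 1 ≤ bm)
    {xs : List V} {Λ : Finset V} {o : V} (hp : IsPath N ds Λ o xs) (ho : o ∈ Λ) (hnd : xs.Nodup) :
    (PV ν V).real {ξ | TF N (pot σ ξ) z ds W K (full Λ xs) xs ∧
        (∃ x ∈ o :: xs, Y ≤ nsq (chi N (full Λ xs) (pot σ ξ) z x)) ∧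
        nsq (chi N Λ (pot σ ξ) z o)
          < Y * ((ρb / (2 * bm)) ^ xs.length / (1 + xs.length * K)) ^ 2}
      ≤ xs.length * (4 * G * ρb * bm / σ + 2 * G / (K * θ * σ) + 4 * G * σ / bm) := by
  have hθ := hc.θ0
  have hW := hc.W1
  have hK0 : 0 < K := by linarith [hc.K1]
  have hKθ : 0 < (K * θ)⁻¹ := by positivity
  obtain ⟨ws, hws⟩ : ∃ ws : List (Set ℝ), ws = List.replicate xs.length (metw (K * θ)⁻¹ bm) :=
    ⟨_, rfl⟩
  have hl : ws.length = xs.length := by rw [hws, List.length_replicate]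
  have hwe : ∀ w ∈ ws, w = metw (K * θ)⁻¹ bm := fun w hw => by
    rw [hws] at hw; exact List.eq_of_mem_replicate hw
  obtain ⟨T, hT⟩ : ∃ T : Set (V → ℝ), T = {ξ | TF N (pot σ ξ) z ds W K (full Λ xs) xs} := ⟨_, rfl⟩
  have mT : MeasurableSet T := by rw [hT]; exact met_meas_TF hN hz ds K W _ xs
  have nT : Nice (ind T) := nice_ind1 mT
  have hTx : ∀ x ∈ xs, ∀ (ξ : V → ℝ) (t : ℝ), ind T (Function.update ξ x t) = ind T ξ := by
    intro x hx ξ t
    have : Function.update ξ x t ∈ T ↔ ξ ∈ T := by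
      rw [hT]
      exact met_TF_upd hN hz ds K W xs ((mem_full xs Λ x).2 (Or.inr hx)) ξ t
    by_cases hh : ξ ∈ T
    · rw [ind_of_mem hh, ind_of_mem (this.2 hh)]
    · rw [ind_of_notMem hh, ind_of_notMem fun h => hh (this.1 h)]
  have hTT : ∀ ξ, 0 < ind T ξ → TF N (pot σ ξ) z ds W K (full Λ xs) xs := by
    intro ξ hξ
    have : ξ ∈ T := by
      by_contra hh
      rw [ind_of_notMem hh] at hξ
      exact lt_irrefl _ hξ
    rw [hT] at this
    exact this
  have hTle : ∫ ξ, ind T ξ ∂(PV ν V) ≤ 1 := by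
    rw [integral_ind _ mT]; exact measureReal_le_one
  have hT0 : 0 ≤ ∫ ξ, ind T ξ ∂(PV ν V) := integral_nonneg fun ξ => ind_nonneg _ _
  have hwsm : ∀ w ∈ ws, MeasurableSet w := fun w' hw' => by
    rw [hwe w' hw']; exact measurableSet_metw _ _
  have A1 := met_notInW hν hN hz hσ hds hc hbm hbm1 nT (fun ξ => ind_nonneg _ _) xs Λ o ws hl hp ho
    hnd hTx hTT hwe
  have hκ : 0 ≤ 4 * G * ρb * bm / σ := by positivity
  have A2 := nc_prob hν hN hz hσ hds hc hρ0.le hρ hκ nT (fun ξ => ind_nonneg _ _) (fun _ => 1)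
    (fun _ => bm) xs Λ o ws hl hp ho hnd hTx hTT (fun w hw => by
      rw [hwe w hw]
      refine ⟨measurableSet_metw _ _, zero_le_one, fun t ht => ht, fun c => measureReal_le_one, ?_⟩
      rw [mul_one])
  have hprod : (ws.map fun _ : Set ℝ => (1 : ℝ)).prod = 1 := by
    rw [List.map_const', List.prod_replicate, one_pow]
  rw [hprod, mul_one] at A2
  have mI : MeasurableSet {ξ : V → ℝ | InW N (pot σ ξ) z Λ xs ws} :=
    measurableSet_InW hN hz xs Λ ws hwsm
  have mA : MeasurableSet {ξ : V → ℝ | ¬ InW N (pot σ ξ) z Λ xs ws} := mI.compl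
  have mB : MeasurableSet {ξ : V → ℝ | InW N (pot σ ξ) z Λ xs ws ∧
      ¬ NC N (pot σ ξ) z ρb Λ o xs} := mI.inter (measurableSet_NC hN hz ρb xs Λ o).compl
  have hAB : ∀ S : Set (V → ℝ), MeasurableSet S →
      (PV ν V).real (S ∩ T) = ∫ ξ, ind S ξ * ind T ξ ∂(PV ν V) := by
    intro S hS
    rw [← integral_ind _ (hS.inter mT)]
    congr 1
    funext ξ
    by_cases h1 : ξ ∈ S
    · by_cases h2 : ξ ∈ T
      · rw [ind_of_mem h1, ind_of_mem h2, ind_of_mem (S := S ∩ T) ⟨h1, h2⟩, one_mul]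
      · rw [ind_of_mem h1, ind_of_notMem h2, ind_of_notMem (S := S ∩ T) fun h => h2 h.2, mul_zero]
    · rw [ind_of_notMem h1, ind_of_notMem (S := S ∩ T) fun h => h1 h.1, zero_mul]
  have hsub : {ξ : V → ℝ | TF N (pot σ ξ) z ds W K (full Λ xs) xs ∧
        (∃ x ∈ o :: xs, Y ≤ nsq (chi N (full Λ xs) (pot σ ξ) z x)) ∧
        nsq (chi N Λ (pot σ ξ) z o)
          < Y * ((ρb / (2 * bm)) ^ xs.length / (1 + xs.length * K)) ^ 2}
      ⊆ ({ξ : V → ℝ | ¬ InW N (pot σ ξ) z Λ xs ws} ∩ T)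
        ∪ ({ξ : V → ℝ | InW N (pot σ ξ) z Λ xs ws ∧ ¬ NC N (pot σ ξ) z ρb Λ o xs} ∩ T) := by
    rintro ξ ⟨h1, h2, h3⟩
    have hξT : ξ ∈ T := by rw [hT]; exact h1
    by_cases hI : InW N (pot σ ξ) z Λ xs ws
    · right
      refine ⟨⟨hI, fun hNC => ?_⟩, hξT⟩
      have hbm' : z.im + W + 8 * W ^ 2 * (K * θ) ≤ bm := by
        have := abs_nonneg z.re
        have h8 : 0 ≤ 8 * W ^ 2 * (K * θ) := by positivity
        linarith
      have := met_chain hN hz hds hc hρ0 hρ hbm' hbm1 xs Λ o ws hl hp ho h1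
        (fun w hw t ht => by rw [hwe w hw] at ht; exact ht) hI hNC h2
      exact absurd h3 (not_lt.2 this)
    · left
      exact ⟨hI, hξT⟩
  calc _ ≤ _ := measureReal_mono hsub
    _ ≤ _ := measureReal_union_le _ _
    _ ≤ xs.length * (2 * G * (K * θ)⁻¹ / σ + 4 * G * σ / bm) * 1
        + xs.length * (4 * G * ρb * bm / σ) * 1 := by
        rw [hAB _ mA, hAB _ mB]
        refine add_le_add (A1.trans ?_) (A2.trans ?_)
        · exact mul_le_mul_of_nonneg_left hTle (by positivity)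
        · exact mul_le_mul_of_nonneg_left hTle (by positivity)
    _ = _ := by
        field_simp
        ring

end Pool.Agent.H989.SB
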