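import Pool.Agent.H989.SB.Core
import Pool.Agent.H989.SB.Dec

/-!
First moments of the solutions and of the matrix elements.
-/

set_option linter.unusedSectionVars false
set_option linter.unusedVariables false

open MeasureTheory ProbabilityTheory Finset

namespace Pool.Agent.H989.SB

variable {d L : ℕ} [NeZero L]

/-- `bx` is the sum of the point masses at the neighbours -/
theorem Mom_bx_eq {V : Type*} [AddCommGroup V] [Fintype V] [DecidableEq V] {N : Finset V}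
    (hN : Steps N) (x : V) : bx N x = ∑ s ∈ N, (Pi.single (x + s) (1 : ℂ) : V → ℂ) := by
  funext w
  rw [Finset.sum_apply]
  have h1 : ∀ s ∈ N, (Pi.single (x + s) (1 : ℂ) : V → ℂ) w = if s = w - x then 1 else 0 := by
    intro s _
    rw [Pi.single_apply]
    by_cases h : w = x + s
    · rw [if_pos h, if_pos (by rw [h]; abel)]
    · rw [if_neg h, if_neg (fun h' => h (by rw [h']; abel))]
  rw [Finset.sum_congr rfl h1, Finset.sum_ite_eq']
  unfold bx
  by_cases h : x - w ∈ N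
  · have h2 : w - x ∈ N := by
      have h3 := hN.neg _ h
      rwa [neg_sub] at h3
    rw [if_pos h, if_pos h2]
  · have h2 : w - x ∉ N := fun h3 => h (by
      have h4 := hN.neg _ h3
      rwa [neg_sub] at h4)
    rw [if_neg h, if_neg h2]

/-- the solutions are additive in the right hand side -/
theorem Mom_sol_sum {V : Type*} [AddCommGroup V] [Fintype V] [DecidableEq V] {N Λ : Finset V}
    {v : V → ℝ} {z : ℂ} (hN : Steps N) (hz : 0 < z.im) {ι : Type*} (S : Finset ι)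
    (b : ι → V → ℂ) : sol N Λ v z (∑ i ∈ S, b i) = ∑ i ∈ S, sol N Λ v z (b i) := by
  classical
  induction S using Finset.induction_on with
  | empty =>
    rw [Finset.sum_empty, Finset.sum_empty]
    have h := sol_smul (v := v) (Λ := Λ) hN hz 0 (0 : V → ℂ)
    rwa [zero_smul, zero_smul] at h
  | insert i S hi ih => rw [Finset.sum_insert hi, Finset.sum_insert hi, sol_add hN hz, ih]

/-- the first moment is at most the sum over the neighbours -/
theorem Mom_bx_le {V : Type*} [AddCommGroup V] [Fintype V] [DecidableEq V] {N Λ : Finset V}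
    (ν : Measure ℝ) [IsProbabilityMeasure ν] {σ : ℝ} {z : ℂ} (hN : Steps N) (hz : 0 < z.im)
    (x w : V) :
    ∫ ξ, ‖sol N Λ (pot σ ξ) z (bx N x) w‖ ∂(PV ν V)
      ≤ ∑ s ∈ N, ∫ ξ, ‖sol N Λ (pot σ ξ) z (Pi.single (x + s) 1) w‖ ∂(PV ν V) := by
  rw [← integral_finsetSum _ fun s _ =>
    (nice_norm_sol (N := N) (Λ := Λ) (σ := σ) hN hz (Pi.single (x + s) 1) w).integrable]
  refine integral_mono (nice_norm_sol hN hz _ _).integrable
    (Nice.sum N fun s _ =>
      nice_norm_sol (N := N) (Λ := Λ) (σ := σ) hN hz (Pi.single (x + s) 1) w).integrable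
    fun ξ => ?_
  simp only
  rw [Mom_bx_eq hN x, Mom_sol_sum hN hz, Finset.sum_apply]
  exact norm_sum_le _ _

/-- the same for the matrix elements -/
theorem Mom_Qf_le {V : Type*} [AddCommGroup V] [Fintype V] [DecidableEq V] {N Λ : Finset V}
    (ν : Measure ℝ) [IsProbabilityMeasure ν] {σ : ℝ} {z : ℂ} (hN : Steps N) (hz : 0 < z.im)
    (x y : V) :
    ∫ ξ, ‖Qf N Λ (pot σ ξ) z y x‖ ∂(PV ν V)
      ≤ ∑ s ∈ N, ∫ ξ, ‖sol N Λ (pot σ ξ) z (bx N x) (y + s)‖ ∂(PV ν V) := by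
  rw [← integral_finsetSum _ fun s _ =>
    (nice_norm_sol (N := N) (Λ := Λ) (σ := σ) hN hz (bx N x) (y + s)).integrable]
  refine integral_mono (nice_nb hN hz N _ _).norm.integrable
    (Nice.sum N fun s _ =>
      nice_norm_sol (N := N) (Λ := Λ) (σ := σ) hN hz (bx N x) (y + s)).integrable
    fun ξ => ?_
  simp only
  unfold Qf nb
  exact norm_sum_le _ _

theorem Mom_card_spt_le (x : Tor d L) : (spt x).card ≤ wt x := by
  rw [geo_wt_eq, Finset.card_eq_sum_ones]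
  calc ∑ i ∈ spt x, 1 ≤ ∑ i ∈ spt x, geo_gv (x i) := by
        refine Finset.sum_le_sum fun i hi => ?_
        rw [geo_mem_spt] at hi
        exact Nat.one_le_iff_ne_zero.2 fun h => hi (geo_gv_eq_zero.1 h)
    _ ≤ ∑ i, geo_gv (x i) :=
        Finset.sum_le_sum_of_subset_of_nonneg (Finset.subset_univ _) fun _ _ _ => Nat.zero_le _

/-- the sum of the weights over the neighbours -/
theorem Mom_sum_le (hL : 5 ≤ L) (x : Tor d L) {ω : ℝ} (h0 : 0 < ω) (h1 : ω ≤ 1) {ρ : ℕ}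
    (hρ : wt x ≤ ρ) :
    ∑ s ∈ ND L (univ : Finset (Fin d)), ω ^ (wt (x + s))
      ≤ ω ^ (wt x) * (2 * ρ * ω⁻¹ + 2 * d * ω) := by
  refine (sum_wt_le hL x h0 h1).trans ?_
  have h2 : ((spt x).card : ℝ) ≤ ρ := by exact_mod_cast (Mom_card_spt_le x).trans hρ
  have h3 : 0 < ω⁻¹ := inv_pos.2 h0
  gcongr

theorem Mom_spt_step (hL : 5 ≤ L) {s : Tor d L} (hs : s ∈ ND L (univ : Finset (Fin d))) :
    (spt s).card ≤ 1 :=
  (Mom_card_spt_le s).trans ((wt_eq_one hL).2 hs).le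

/-- The hypothesis `Mom` from `decay`.
Proof. `bx x = ∑_s Pi.single (x + s)` over the steps `s` (`Steps.neg`), so that
`E |sol Λ (bx x) w| ≤ ∑_s E |G(x + s, w)|`.  Apply `decay` with the coordinates
`A' = A ∪ spt (w - o) ∪ spt s` (at most `a + ρ + 1`, since `w - o` and `w - x` have the same coordinates
outside `A` and `wt (w - x) ≤ ρ`), for which `nA A' (w - o) = 0`, and the monotonicity of
`(d - #A').choose R`; `ω = Θ / K`.  Then `∑_s ω^(wt (w - (x + s))) ≤ ω^(wt (w-x)) (2 ρ ω⁻¹ + 2 d ω)` by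
`sum_wt_le` (`#spt (w - x) ≤ wt (w - x) ≤ ρ`), and the second terms add up to at most
`ω^ρ ≤ ω^(wt (w - x))` by `h4`.  (The conditions `hω`, `hβ` of `decay` for `A'` follow from those for
`a + ρ + 1` by monotonicity.) -/
theorem mom_of (hL : 5 ≤ L) (ν : Measure ℝ) [IsProbabilityMeasure ν] {σ m D Ψ Θ K β : ℝ} {z : ℂ}
    (hz : 0 < z.im) (h1 : OneSite ν σ z m D) (hm : 0 < m) (hD : 0 < D) (hK : K = 2 * d)
    {a ρ R : ℕ} (hd : R + (a + ρ + 1) ≤ d) (hω0 : 0 < Θ / K) (hω1 : Θ / K ≤ 1) (hβ1 : 1 ≤ β)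
    (h2 : D * (2 * ((a + ρ + 1 : ℕ) + R) * (Θ / K)⁻¹ + 2 * d * (Θ / K)) ≤ 1 / 2)
    (h3 : D * (2 * R * β + 2 * ((a + ρ + 1 : ℕ) + R) + 2 * d * β⁻¹) ≤ 1 / 2)
    (h4 : 2 * d * ((z.im)⁻¹ * (√((d - (a + ρ + 1)).choose R))⁻¹ * β ^ R) ≤ (Θ / K) ^ ρ)
    (h5 : m * (2 * ρ * (Θ / K)⁻¹ + 2 * d * (Θ / K)) + 1 ≤ Ψ) :
    Mom d L ν σ z Ψ Θ K a ρ := by
  intro A o Λ hA hAr x hx w hw
  have hL3 : 3 ≤ L := by omega
  have hN : Steps (NN d L) := steps_ND hL3 _
  set ω : ℝ := Θ / K with hω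
  have hωi : 0 < ω⁻¹ := inv_pos.2 hω0
  have hβ0 : 0 < β := by linarith
  set ε : ℝ := (z.im)⁻¹ * (√((d - (a + ρ + 1)).choose R))⁻¹ * β ^ R with hε
  have hxA : SupA A (x - o) := hAr.2 x hx
  -- one neighbour
  have hone : ∀ s ∈ NN d L, ∫ ξ, ‖sol (NN d L) Λ (pot σ ξ) z (Pi.single (x + s) 1) w‖
      ∂(PV ν (Tor d L)) ≤ m * ω ^ (wt (w - (x + s))) + ε := by
    intro s hs
    set A' : Finset (Fin d) := A ∪ (spt (w - o) \ A) ∪ spt s with hA'
    have hsub : A ⊆ A' := Finset.subset_union_left.trans Finset.subset_union_left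
    have hcard : A'.card ≤ a + ρ + 1 := by
      have e1 : (spt (w - o) \ A).card ≤ ρ := by
        refine le_trans (Finset.card_le_card ?_) ((Mom_card_spt_le (w - x)).trans hw)
        intro i hi
        rw [Finset.mem_sdiff, geo_mem_spt] at hi
        rw [geo_mem_spt]
        intro h6
        refine hi.1 ?_
        have h7 : (w - o) i = (w - x) i + (x - o) i := by
          simp only [Pi.sub_apply]
          ring
        rw [h7, h6, hxA i hi.2, add_zero]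
      have e2 := Mom_spt_step hL hs
      have e3 : A'.card ≤ (A ∪ (spt (w - o) \ A)).card + (spt s).card := Finset.card_union_le _ _
      have e4 : (A ∪ (spt (w - o) \ A)).card ≤ A.card + (spt (w - o) \ A).card :=
        Finset.card_union_le _ _
      omega
    have hcardR : (A'.card : ℝ) ≤ (a + ρ + 1 : ℕ) := by exact_mod_cast hcard
    have hΛ' : ∀ y ∈ Λ, SupA A' (y - o) := fun y hy i hi => hAr.2 y hy i fun h => hi (hsub h)
    have hx' : SupA A' (x + s - o) := by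
      intro i hi
      have e1 : (x - o) i = 0 := hxA i fun h => hi (hsub h)
      have e2 : s i = 0 := by
        by_contra hc
        exact hi (Finset.mem_union_right _ ((geo_mem_spt s i).2 hc))
      have e3 : (x + s - o) i = (x - o) i + s i := by
        simp only [Pi.sub_apply, Pi.add_apply]
        ring
      rw [e3, e1, e2, add_zero]
    have hnA : nA A' (w - o) = 0 := by
      unfold nA
      rw [Finset.card_eq_zero, Finset.sdiff_eq_empty_iff_subset]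
      intro i hi
      by_cases hiA : i ∈ A
      · exact hsub hiA
      · exact Finset.mem_union_left _ (Finset.mem_union_right _ (Finset.mem_sdiff.2 ⟨hi, hiA⟩))
    have hdec := decay hL ν hz h1 hm hD A' o (x + s) hΛ' hx' (R := R) (by omega) hω0 hω1 hβ1
      (by
        refine le_trans (mul_le_mul_of_nonneg_left ?_ hD.le) h2
        gcongr)
      (by
        refine le_trans (mul_le_mul_of_nonneg_left ?_ hD.le) h3
        gcongr)
      (w := w) (by rw [hnA]; exact Nat.zero_le _)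
    refine hdec.trans ?_
    rw [hnA, Nat.sub_zero]
    have hch : ((d - (a + ρ + 1)).choose R : ℝ) ≤ ((d - A'.card).choose R : ℝ) := by
      exact_mod_cast Nat.choose_le_choose R (by omega)
    have hpos : (0 : ℝ) < ((d - (a + ρ + 1)).choose R : ℝ) := by
      have : 0 < (d - (a + ρ + 1)).choose R := Nat.choose_pos (by omega)
      exact_mod_cast this
    have hsq : (√((d - A'.card).choose R : ℝ))⁻¹ ≤ (√((d - (a + ρ + 1)).choose R : ℝ))⁻¹ :=
      inv_anti₀ (Real.sqrt_pos.2 hpos) (Real.sqrt_le_sqrt hch)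
    have hzi : 0 < (z.im)⁻¹ := inv_pos.2 hz
    have : (z.im)⁻¹ * (√((d - A'.card).choose R : ℝ))⁻¹ * β ^ R ≤ ε := by
      rw [hε]
      gcongr
    linarith
  -- the sum over the neighbours
  have hsum1 : ∑ s ∈ NN d L, ω ^ (wt (w - (x + s))) ≤
      ω ^ (wt (w - x)) * (2 * ρ * ω⁻¹ + 2 * d * ω) := by
    have e1 : ∑ s ∈ NN d L, ω ^ (wt (w - (x + s))) = ∑ s ∈ NN d L, ω ^ (wt (w - x + s)) := by
      rw [← sum_neg_steps hN (fun s => ω ^ (wt (w - x + s)))]
      refine Finset.sum_congr rfl fun s _ => ?_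
      have : w - (x + s) = w - x + -s := by abel
      rw [this]
    rw [e1]
    exact Mom_sum_le hL (w - x) hω0 hω1 hw
  have hcardN : ((NN d L).card : ℝ) ≤ 2 * d := card_ND_le hL3 _
  have hε0 : 0 ≤ ε := by
    rw [hε]
    have hzi : 0 < (z.im)⁻¹ := inv_pos.2 hz
    positivity
  have hpw : ω ^ ρ ≤ ω ^ (wt (w - x)) := pow_le_pow_of_le_one hω0.le hω1 hw
  calc ∫ ξ, ‖sol (NN d L) Λ (pot σ ξ) z (bx (NN d L) x) w‖ ∂(PV ν (Tor d L))
      ≤ ∑ s ∈ NN d L, ∫ ξ, ‖sol (NN d L) Λ (pot σ ξ) z (Pi.single (x + s) 1) w‖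
          ∂(PV ν (Tor d L)) := Mom_bx_le ν hN hz x w
    _ ≤ ∑ s ∈ NN d L, (m * ω ^ (wt (w - (x + s))) + ε) := Finset.sum_le_sum hone
    _ = m * ∑ s ∈ NN d L, ω ^ (wt (w - (x + s))) + (NN d L).card * ε := by
        rw [Finset.sum_add_distrib, ← Finset.mul_sum, Finset.sum_const, nsmul_eq_mul]
    _ ≤ m * (ω ^ (wt (w - x)) * (2 * ρ * ω⁻¹ + 2 * d * ω)) + 2 * d * ε := by gcongr
    _ ≤ m * (ω ^ (wt (w - x)) * (2 * ρ * ω⁻¹ + 2 * d * ω)) + ω ^ (wt (w - x)) := by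
        have := h4.trans hpw
        linarith
    _ = (m * (2 * ρ * ω⁻¹ + 2 * d * ω) + 1) * ω ^ (wt (w - x)) := by ring
    _ ≤ Ψ * ω ^ (wt (w - x)) := mul_le_mul_of_nonneg_right h5 (by positivity)

/-- the sum of two unit vectors is zero or has norm two -/
theorem Mom_wt_two (hL : 5 ≤ L) {t s : Tor d L} (ht : t ∈ ND L (univ : Finset (Fin d)))
    (hs : s ∈ ND L (univ : Finset (Fin d))) (hne : t + s ≠ 0) : wt (t + s) = 2 := by
  have g1 := geo_gv_one (L := L) hL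
  have g2 := geo_gv_two (L := L) hL
  have g3 : geo_gv (-1 : ZMod L) = 1 := by rw [geo_gv_neg]; exact g1
  have g4 : geo_gv (-1 + -1 : ZMod L) = 2 := by
    rw [show (-1 + -1 : ZMod L) = -(1 + 1) by ring, geo_gv_neg]; exact g2
  have ht1 : wt t = 1 := (wt_eq_one hL).2 ht
  have hne0 : wt (t + s) ≠ 0 := fun h => hne (wt_eq_zero.1 h)
  rw [mem_ND] at ht hs
  obtain ⟨i, -, hti⟩ := ht
  obtain ⟨j, -, hsj⟩ := hs
  have hsoff : ∀ k, k ≠ j → s k = 0 := by
    intro k hk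
    rcases hsj with rfl | rfl
    · exact geo_ei_off hk
    · exact geo_nei_off hk
  have hson : s j = 1 ∨ s j = -1 := by
    rcases hsj with rfl | rfl
    · exact Or.inl (geo_ei_on j)
    · exact Or.inr (geo_nei_on j)
  have hstep := geo_wt_add_step t s j hsoff
  by_cases hij : i = j
  · have hton : t j = 1 ∨ t j = -1 := by
      rw [← hij]
      rcases hti with rfl | rfl
      · exact Or.inl (geo_ei_on i)
      · exact Or.inr (geo_nei_on i)
    have hz1 : (1 : ZMod L) + -1 = 0 := by ring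
    have hz2 : (-1 : ZMod L) + 1 = 0 := by ring
    rcases hton with h1 | h1 <;> rcases hson with h2 | h2 <;> rw [h1, h2] at hstep
    · rw [g1, g2] at hstep
      omega
    · rw [hz1, geo_gv_zero, g1] at hstep
      omega
    · rw [hz2, geo_gv_zero, g3] at hstep
      omega
    · rw [g4, g3] at hstep
      omega
  · have htoff : t j = 0 := by
      rcases hti with rfl | rfl
      · exact geo_ei_off (Ne.symm hij)
      · exact geo_nei_off (Ne.symm hij)
    rw [htoff, geo_gv_zero, zero_add] at hstep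
    rcases hson with h2 | h2 <;> rw [h2] at hstep
    · rw [g1] at hstep
      omega
    · rw [g3] at hstep
      omega

/-- First moment of an off-diagonal matrix element.
Proof. `Qf Λ y x = ∑_s (sol Λ (bx x)) (y + s)`, and the terms with `y + s ∈ Λ` vanish.
If `wt (x - y) ≥ 2`: `Mom` for `w = y + s` and `sum_wt_le` give
`Ψ (Θ/K)^(wt (y - x)) (2 ρ K / Θ + 2 d Θ / K)`, and `2 ρ K / Θ + Θ ≤ 4 ρ K`.
If `wt (x - y) = 1`: the term with `y + s = x` vanishes, for the others `wt (y + s - x) ≥ 2`,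
because `y - x = t` is a unit vector, and `t + s` is `0` or has norm `2` (`5 ≤ L`).
because `y - x = t` is a unit vector, and `t + s` is `0` or has norm `2` (`5 ≤ L`).
So `E |Qf| ≤ 2 d Ψ (Θ/K)² = Ψ Θ² / K`. -/
theorem mom_Q_off (hL : 5 ≤ L) {ν : Measure ℝ} [IsProbabilityMeasure ν] {σ Ψ Θ K : ℝ} {z : ℂ}
    (hz : 0 < z.im) (hK : K = 2 * d) (hΨ : 0 ≤ Ψ) (hΘ : 1 ≤ Θ) (hΘK : Θ ≤ K) {a ρ : ℕ} (hρ : 2 ≤ ρ)
    (hM : Mom d L ν σ z Ψ Θ K a ρ) {A : Finset (Fin d)} {o : Tor d L} {Λ : Finset (Tor d L)}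
    (hA : A.card ≤ a) (hΛ : Around A o Λ) {x y : Tor d L} (hx : x ∈ Λ) (hy : y ∈ Λ) (hxy : x ≠ y)
    (hw : wt (y - x) + 1 ≤ ρ) :
    ∫ ξ, ‖Qf (NN d L) Λ (pot σ ξ) z y x‖ ∂(PV ν (Tor d L))
      ≤ 4 * ρ * Ψ * Θ ^ (wt (y - x) + 1) * K⁻¹ ^ (max 1 (wt (y - x) - 1)) := by
  have hL3 : 3 ≤ L := by omega
  have hN : Steps (NN d L) := steps_ND hL3 _
  have hΘ0 : 0 < Θ := by linarith
  have hK0 : 0 < K := by linarith
  have hKi : 0 < K⁻¹ := inv_pos.2 hK0
  have hρR : (2 : ℝ) ≤ ρ := by exact_mod_cast hρ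
  have hω0 : 0 < Θ / K := by positivity
  have hω1 : Θ / K ≤ 1 := by rwa [div_le_one hK0]
  have hw0 : wt (y - x) ≠ 0 := fun h => hxy (sub_eq_zero.1 (wt_eq_zero.1 h)).symm
  refine (Mom_Qf_le ν hN hz x y).trans ?_
  have hstep : ∀ s ∈ NN d L, wt (y - x + s) ≤ ρ := by
    intro s hs
    have h1 := wt_add_le (y - x) s
    have h2 : wt s = 1 := (wt_eq_one hL).2 hs
    omega
  have hone : ∀ s ∈ NN d L, ∫ ξ, ‖sol (NN d L) Λ (pot σ ξ) z (bx (NN d L) x) (y + s)‖
      ∂(PV ν (Tor d L)) ≤ Ψ * (Θ / K) ^ (wt (y - x + s)) := by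
    intro s hs
    have e : y + s - x = y - x + s := by abel
    have h := hM A o Λ hA hΛ x hx (y + s) (by rw [e]; exact hstep s hs)
    rwa [e] at h
  rcases Nat.lt_or_ge (wt (y - x)) 2 with h2 | h2
  · have hw1 : wt (y - x) = 1 := by omega
    have hmem : y - x ∈ ND L (univ : Finset (Fin d)) := (wt_eq_one hL).1 hw1
    have hbd : ∀ s ∈ NN d L, ∫ ξ, ‖sol (NN d L) Λ (pot σ ξ) z (bx (NN d L) x) (y + s)‖
        ∂(PV ν (Tor d L)) ≤ Ψ * (Θ / K) ^ 2 := by
      intro s hs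
      by_cases h0 : y - x + s = 0
      · have e : y + s = x := by
          have e1 : y + s = (y - x + s) + x := by abel
          rw [e1, h0, zero_add]
        have h3 : ∀ ξ : Tor d L → ℝ,
            ‖sol (NN d L) Λ (pot σ ξ) z (bx (NN d L) x) (y + s)‖ = 0 := fun ξ => by
          rw [e, (isSol_sol (v := pot σ ξ) (Λ := Λ) hN hz (bx (NN d L) x)).1 x hx, norm_zero]
        simp only [h3]
        rw [integral_zero]
        positivity
      · have h3 := hone s hs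
        rwa [Mom_wt_two hL hmem hs h0] at h3
    have hcardN : ((NN d L).card : ℝ) ≤ 2 * d := card_ND_le hL3 _
    have hmax : max 1 (1 - 1) = 1 := by norm_num
    rw [hw1, hmax]
    calc ∑ s ∈ NN d L, ∫ ξ, ‖sol (NN d L) Λ (pot σ ξ) z (bx (NN d L) x) (y + s)‖
          ∂(PV ν (Tor d L)) ≤ ∑ _s ∈ NN d L, Ψ * (Θ / K) ^ 2 := Finset.sum_le_sum hbd
      _ = (NN d L).card * (Ψ * (Θ / K) ^ 2) := by rw [Finset.sum_const, nsmul_eq_mul]
      _ ≤ K * (Ψ * (Θ / K) ^ 2) := by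
          rw [hK] at *
          gcongr
      _ = 1 * (Ψ * Θ ^ 2 * K⁻¹) := by
          field_simp
      _ ≤ 4 * ρ * (Ψ * Θ ^ 2 * K⁻¹) := by
          have : 0 ≤ Ψ * Θ ^ 2 * K⁻¹ := by positivity
          gcongr
          linarith
      _ = 4 * ρ * Ψ * Θ ^ (1 + 1) * K⁻¹ ^ 1 := by ring
  · have hmax : max 1 (wt (y - x) - 1) = wt (y - x) - 1 := by omega
    rw [hmax]
    obtain ⟨W, hW⟩ : ∃ W, wt (y - x) = W + 1 := ⟨wt (y - x) - 1, by omega⟩
    have hsum := Mom_sum_le hL (y - x) hω0 hω1 (ρ := ρ) (by omega)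
    rw [hW, Nat.add_sub_cancel]
    rw [hW] at hsum
    have hdK : 2 * (d : ℝ) * (Θ / K) = Θ := by
      rw [← hK]
      field_simp
    calc ∑ s ∈ NN d L, ∫ ξ, ‖sol (NN d L) Λ (pot σ ξ) z (bx (NN d L) x) (y + s)‖
          ∂(PV ν (Tor d L)) ≤ ∑ s ∈ NN d L, Ψ * (Θ / K) ^ (wt (y - x + s)) :=
            Finset.sum_le_sum hone
      _ = Ψ * ∑ s ∈ NN d L, (Θ / K) ^ (wt (y - x + s)) := by rw [Finset.mul_sum]
      _ ≤ Ψ * ((Θ / K) ^ (W + 1) * (2 * ρ * (Θ / K)⁻¹ + 2 * d * (Θ / K))) := by gcongr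
      _ ≤ Ψ * ((Θ / K) ^ (W + 1) * (4 * ρ * K)) := by
          have e1 : 2 * (ρ : ℝ) * (Θ / K)⁻¹ ≤ 2 * ρ * K := by
            rw [inv_div]
            have : K / Θ ≤ K := div_le_self hK0.le hΘ
            gcongr
          have e2 : Θ ≤ 2 * ρ * K := by nlinarith
          have e3 : 2 * (ρ : ℝ) * (Θ / K)⁻¹ + 2 * d * (Θ / K) ≤ 4 * ρ * K := by
            rw [hdK]
            linarith
          gcongr
      _ = 4 * ρ * Ψ * Θ ^ (W + 1) * K⁻¹ ^ W := by
          rw [div_eq_mul_inv, mul_pow, pow_succ K⁻¹ W]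
          field_simp
      _ ≤ 4 * ρ * Ψ * Θ ^ (W + 1 + 1) * K⁻¹ ^ W := by
          have e1 : Θ ^ (W + 1) ≤ Θ ^ (W + 1 + 1) := pow_le_pow_right₀ hΘ (Nat.le_succ _)
          gcongr

/-- First moment of a diagonal matrix element: `∑_s E |(sol Λ (bx x)) (x + s)| ≤ 2 d Ψ Θ / K`. -/
theorem mom_Q_diag (hL : 5 ≤ L) {ν : Measure ℝ} [IsProbabilityMeasure ν] {σ Ψ Θ K : ℝ} {z : ℂ}
    (hz : 0 < z.im) (hK : K = 2 * d) (hd : 0 < d) (hΨ : 0 ≤ Ψ) {a ρ : ℕ} (hρ : 2 ≤ ρ)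
    (hM : Mom d L ν σ z Ψ Θ K a ρ) {A : Finset (Fin d)} {o : Tor d L} {Λ : Finset (Tor d L)}
    (hA : A.card ≤ a) (hΛ : Around A o Λ) {x : Tor d L} (hx : x ∈ Λ) :
    ∫ ξ, ‖Qf (NN d L) Λ (pot σ ξ) z x x‖ ∂(PV ν (Tor d L)) ≤ Ψ * Θ := by
  have hL3 : 3 ≤ L := by omega
  have hN : Steps (NN d L) := steps_ND hL3 _
  refine (Mom_Qf_le ν hN hz x x).trans ?_
  have hone : ∀ s ∈ NN d L, ∫ ξ, ‖sol (NN d L) Λ (pot σ ξ) z (bx (NN d L) x) (x + s)‖
      ∂(PV ν (Tor d L)) ≤ Ψ * (Θ / K) := by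
    intro s hs
    have h2 : wt s = 1 := (wt_eq_one hL).2 hs
    have e : x + s - x = s := by abel
    have h := hM A o Λ hA hΛ x hx (x + s) (by rw [e]; omega)
    rwa [e, h2, pow_one] at h
  have hdR : (0 : ℝ) < d := by exact_mod_cast hd
  have hcard : ((NN d L).card : ℝ) = 2 * d := by
    have h := card_ND (d := d) hL3 (univ : Finset (Fin d))
    rw [Finset.card_univ, Fintype.card_fin] at h
    rw [h]
    push_cast
    ring
  calc ∑ s ∈ NN d L, ∫ ξ, ‖sol (NN d L) Λ (pot σ ξ) z (bx (NN d L) x) (x + s)‖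
        ∂(PV ν (Tor d L)) ≤ ∑ _s ∈ NN d L, Ψ * (Θ / K) := Finset.sum_le_sum hone
    _ = (NN d L).card * (Ψ * (Θ / K)) := by rw [Finset.sum_const, nsmul_eq_mul]
    _ = Ψ * Θ := by
        rw [hcard, hK]
        field_simp

end Pool.Agent.H989.SB
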