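import Pool.Agent.H989.SB.Alg

/-!
Stability of the pivots of a path under a small change of the environment.
-/

set_option linter.unusedSectionVars false
set_option linter.unusedVariables false

open Finset Complex

namespace Pool.Agent.H989.SB

variable {V : Type*} [AddCommGroup V] [Fintype V] [DecidableEq V]
variable {N : Finset V} {v₁ v₂ : V → ℝ} {z : ℂ}

/-- the pivots of two systems are close -/
def PivClose (N : Finset V) (v₁ v₂ : V → ℝ) (z : ℂ) (τ : ℝ) : Finset V → Finset V → List V → Prop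
  | _, _, [] => True
  | Λ₁, Λ₂, x :: xs => ‖pv N Λ₁ v₁ z x - pv N Λ₂ v₂ z x‖ ≤ τ
      ∧ PivClose N v₁ v₂ z τ (insert x Λ₁) (insert x Λ₂) xs

/-- the compound error at one step, `1 + ρ` -/
lemma Prt_pow_le {ρ : ℝ} (hρ : 0 ≤ ρ) {n : ℕ} (hn : 2 * (n : ℝ) * ρ ≤ 1) : (1 + ρ) ^ n ≤ 2 := by
  have h1 : 1 + ρ ≤ Real.exp ρ := by linarith [Real.add_one_le_exp ρ]
  have h2 : (1 + ρ) ^ n ≤ Real.exp (n * ρ) := by
    rw [Real.exp_nat_mul]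
    exact pow_le_pow_left₀ (by linarith) h1 n
  have h3 : Real.exp (n * ρ) ≤ Real.exp (1 / 2) := Real.exp_le_exp.2 (by linarith)
  have h4 : Real.exp (1 / 2) * Real.exp (1 / 2) = Real.exp 1 := by
    rw [← Real.exp_add]; norm_num
  have h5 := Real.exp_one_lt_d9
  have h6 := Real.exp_pos (1 / 2)
  nlinarith

/-- the estimate of the change of the rank-one term -/
lemma Prt_key {K θ W e' : ℝ} (hc : Cst K θ W) (he' : 0 ≤ e') (heW : e' ≤ 2 * K * W ^ 2)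
    {c₁ c₁' c₂ c₂' b₁ b₂ : ℂ} {hy hy' ho dy dy' : ℕ} (h1 : hy ≤ ho + dy) (h1' : hy' ≤ ho + dy')
    (hc1 : ‖c₁‖ ≤ 2 * W * K⁻¹ ^ dy) (hc1' : ‖c₁'‖ ≤ 2 * W * K⁻¹ ^ dy')
    (hd : ‖c₂ - c₁‖ ≤ e' * K⁻¹ ^ (hy + (ho + 1))) (hd' : ‖c₂' - c₁'‖ ≤ e' * K⁻¹ ^ (hy' + (ho + 1)))
    (hb1 : (K * θ)⁻¹ ≤ ‖b₁‖) (hb : ‖b₁ - b₂‖ ≤ e' * K⁻¹ ^ ((ho + 1) + (ho + 1))) :
    ‖c₁ * c₁' / b₁ - c₂ * c₂' / b₂‖ ≤ 24 * W ^ 2 * θ * e' * K⁻¹ ^ (hy + hy') := by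
  have hK := hc.K1
  have hθ := hc.θ0
  have hW := hc.W1
  have hK0 : 0 < K := by linarith
  have hh1 := hc.h1
  have hWK : 0 < W / K := by positivity
  have hρ : 24 * W ^ 2 * θ ≤ 1 / 4 := by linarith
  have hW2 : 1 ≤ W ^ 2 := by nlinarith
  have hθ1 : θ ≤ 1 / 96 := by nlinarith
  obtain ⟨r, hr⟩ : ∃ r, r = K⁻¹ := ⟨_, rfl⟩
  rw [← hr] at hc1 hc1' hd hd' hb ⊢
  have hr0 : 0 < r := by rw [hr]; positivity
  have hKr : K * r = 1 := by rw [hr]; exact mul_inv_cancel₀ hK0.ne'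
  have hr4 : r ≤ 1 / 4 := by rw [hr, one_div]; exact inv_anti₀ (by norm_num) hK
  have hr1 : r ≤ 1 := by linarith
  have hKθ : 0 < K * θ := by positivity
  have hb10 : 0 < ‖b₁‖ := lt_of_lt_of_le (by positivity) hb1
  have hbr : ‖b₁ - b₂‖ ≤ e' * r ^ 2 := by
    refine hb.trans ?_
    gcongr ?_ * ?_
    exact pow_le_pow_of_le_one hr0.le hr1 (by omega)
  have hbh : ‖b₁ - b₂‖ ≤ (K * θ)⁻¹ / 2 := by
    refine hbr.trans ?_
    rw [le_div_iff₀ (by norm_num), ← one_div, le_div_iff₀ hKθ]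
    have e1 : e' * r ^ 2 * 2 * (K * θ) = e' * 2 * r * θ * (K * r) := by ring
    rw [e1, hKr, mul_one]
    calc e' * 2 * r * θ ≤ (2 * K * W ^ 2) * 2 * r * θ := by gcongr
      _ = 4 * W ^ 2 * θ * (K * r) := by ring
      _ ≤ 1 := by rw [hKr]; nlinarith
  have hb2 : (K * θ)⁻¹ / 2 ≤ ‖b₂‖ := by
    have : ‖b₁‖ ≤ ‖b₁ - b₂‖ + ‖b₂‖ := by
      calc ‖b₁‖ = ‖(b₁ - b₂) + b₂‖ := by congr 1; ring
        _ ≤ _ := norm_add_le _ _
    linarith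
  have hb20 : 0 < ‖b₂‖ := lt_of_lt_of_le (by positivity) hb2
  have hi1 : ‖b₁‖⁻¹ ≤ K * θ := by
    rw [inv_le_comm₀ hb10 hKθ]; exact hb1
  have hi2 : ‖b₂‖⁻¹ ≤ 2 * (K * θ) := by
    rw [inv_le_comm₀ hb20 (by positivity)]
    refine le_trans (le_of_eq ?_) hb2
    rw [mul_inv]; ring
  have n1 : b₁ ≠ 0 := norm_pos_iff.1 hb10
  have n2 : b₂ ≠ 0 := norm_pos_iff.1 hb20
  have hid : c₁ * c₁' / b₁ - c₂ * c₂' / b₂ = c₁ * c₁' * (b₂ - b₁) * b₁⁻¹ * b₂⁻¹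
      - ((c₂ - c₁) * c₁' + c₁ * (c₂' - c₁') + (c₂ - c₁) * (c₂' - c₁')) * b₂⁻¹ := by
    field_simp
    ring
  obtain ⟨X, hX⟩ : ∃ X, X = r ^ (hy + hy') := ⟨_, rfl⟩
  have hX0 : 0 < X := by rw [hX]; positivity
  have p1 : r ^ (hy + (ho + 1)) * r ^ dy' ≤ r * X := by
    rw [hX, ← pow_add, ← pow_succ']
    exact pow_le_pow_of_le_one hr0.le hr1 (by omega)
  have p2 : r ^ dy * r ^ (hy' + (ho + 1)) ≤ r * X := by
    rw [hX, ← pow_add, ← pow_succ']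
    exact pow_le_pow_of_le_one hr0.le hr1 (by omega)
  have p3 : r ^ (hy + (ho + 1)) * r ^ (hy' + (ho + 1)) ≤ r ^ 2 * X := by
    rw [hX, ← pow_add, ← pow_add]
    exact pow_le_pow_of_le_one hr0.le hr1 (by omega)
  have p4 : r ^ dy * r ^ dy' * r ^ ((ho + 1) + (ho + 1)) ≤ r ^ 2 * X := by
    rw [hX, ← pow_add, ← pow_add, ← pow_add]
    exact pow_le_pow_of_le_one hr0.le hr1 (by omega)
  have t1 : ‖(c₂ - c₁) * c₁'‖ ≤ 2 * W * e' * (r * X) := by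
    rw [norm_mul]
    calc ‖c₂ - c₁‖ * ‖c₁'‖ ≤ (e' * r ^ (hy + (ho + 1))) * (2 * W * r ^ dy') := by gcongr
      _ = 2 * W * e' * (r ^ (hy + (ho + 1)) * r ^ dy') := by ring
      _ ≤ _ := by gcongr
  have t2 : ‖c₁ * (c₂' - c₁')‖ ≤ 2 * W * e' * (r * X) := by
    rw [norm_mul]
    calc ‖c₁‖ * ‖c₂' - c₁'‖ ≤ (2 * W * r ^ dy) * (e' * r ^ (hy' + (ho + 1))) := by gcongr
      _ = 2 * W * e' * (r ^ dy * r ^ (hy' + (ho + 1))) := by ring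
      _ ≤ _ := by gcongr
  have t3 : ‖(c₂ - c₁) * (c₂' - c₁')‖ ≤ 2 * W ^ 2 * e' * (r * X) := by
    rw [norm_mul]
    calc ‖c₂ - c₁‖ * ‖c₂' - c₁'‖
        ≤ (e' * r ^ (hy + (ho + 1))) * (e' * r ^ (hy' + (ho + 1))) := by gcongr
      _ = e' * e' * (r ^ (hy + (ho + 1)) * r ^ (hy' + (ho + 1))) := by ring
      _ ≤ (2 * K * W ^ 2) * e' * (r ^ 2 * X) := by gcongr
      _ = 2 * W ^ 2 * e' * (r * X) * (K * r) := by ring
      _ = _ := by rw [hKr, mul_one]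
  have t4 : ‖c₁ * c₁' * (b₂ - b₁) * b₁⁻¹ * b₂⁻¹‖ ≤ 8 * W ^ 2 * θ ^ 2 * e' * X := by
    rw [norm_mul, norm_mul, norm_mul, norm_mul, norm_inv, norm_inv, norm_sub_rev b₂ b₁]
    calc ‖c₁‖ * ‖c₁'‖ * ‖b₁ - b₂‖ * ‖b₁‖⁻¹ * ‖b₂‖⁻¹
        ≤ (2 * W * r ^ dy) * (2 * W * r ^ dy') * (e' * r ^ ((ho + 1) + (ho + 1))) * (K * θ)
          * (2 * (K * θ)) := by gcongr
      _ = 8 * W ^ 2 * (K * θ) ^ 2 * e' * (r ^ dy * r ^ dy' * r ^ ((ho + 1) + (ho + 1))) := by ring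
      _ ≤ 8 * W ^ 2 * (K * θ) ^ 2 * e' * (r ^ 2 * X) := by gcongr
      _ = 8 * W ^ 2 * θ ^ 2 * e' * X * (K * r) ^ 2 := by ring
      _ = _ := by rw [hKr]; ring
  have t5 : ‖((c₂ - c₁) * c₁' + c₁ * (c₂' - c₁') + (c₂ - c₁) * (c₂' - c₁')) * b₂⁻¹‖
      ≤ 12 * W ^ 2 * θ * e' * X := by
    rw [norm_mul, norm_inv]
    have hWW : W ≤ W ^ 2 := by nlinarith
    calc ‖(c₂ - c₁) * c₁' + c₁ * (c₂' - c₁') + (c₂ - c₁) * (c₂' - c₁')‖ * ‖b₂‖⁻¹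
        ≤ (2 * W * e' * (r * X) + 2 * W * e' * (r * X) + 2 * W ^ 2 * e' * (r * X))
          * (2 * (K * θ)) := by
          gcongr
          exact (norm_add₃_le).trans (by gcongr)
      _ = (8 * W + 4 * W ^ 2) * θ * e' * X * (K * r) := by ring
      _ ≤ (8 * W ^ 2 + 4 * W ^ 2) * θ * e' * X * (K * r) := by
          rw [hKr]; gcongr
      _ = _ := by rw [hKr]; ring
  rw [hid, ← hX]
  refine (norm_sub_le _ _).trans ((add_le_add t4 t5).trans ?_)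
  have h8 : 8 * W ^ 2 * θ ^ 2 * e' * X ≤ W ^ 2 * θ * e' * X := by
    have : 8 * W ^ 2 * θ ^ 2 * e' * X = (W ^ 2 * θ * e' * X) * (8 * θ) := by ring
    rw [this]
    have h9 : 0 ≤ W ^ 2 * θ * e' * X := by positivity
    nlinarith
  have h9 : 0 ≤ W ^ 2 * θ * e' * X := by positivity
  nlinarith

lemma Prt_path {ds : V → V → ℕ} : ∀ (xs : List V) (Λ : Finset V) (o : V), IsPath N ds Λ o xs →
    ∀ x ∈ xs, x ∉ Λ
  | [], _, _, _, x, hx => by simp at hx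
  | a :: xs, Λ, o, h, x, hx => by
    rcases List.mem_cons.1 hx with rfl | hx
    · exact h.1
    · exact fun hm => Prt_path xs _ _ h.2.2.2.2.2 x hx (Finset.mem_insert_of_mem hm)

/-- Two systems: removed sites `Λ₁ ⊆ Λ₂`, potentials `v₁`, `v₂` which agree on the path `xs` (which is
disjoint from `Λ₂`), and matrix elements (with the whole path removed) which are close:
`|Q₁(y,y') - Q₂(y,y')| ≤ e r^(h y + h y')` for `y ∈ full Λ₁ xs`, `y'` in the path or in `P`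
(`P ⊆ Λ₁` the sites of the path removed before; `r = K⁻¹`; `h` is a height function which increases by
one along the path).  Then the same holds, with `e (1 + ρ)^(length)`, `ρ = 24 W² θ`, after the sites of
the path are put back, and the pivots differ by at most `2 e r²`.

Proof by induction on the list.  Head `x₁`, `Λ₁' = insert x₁ Λ₁`, `Λ₂' = insert x₁ Λ₂`, `P' = insert x₁ P`,
`e' = e (1+ρ)^(length of the tail) ≤ 2e`.  `c_i(y) = cc N Λ_i v_i z y x₁`, `b_i = pv N Λ_i v_i z x₁`.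
By `C1`, `cc_bd` for the first system: `|c₁(y)| ≤ 2 W r^(ds y o)`, and `|b₁| ≥ (Kθ)⁻¹`.
By the induction hypothesis `|c₂(y) - c₁(y)| ≤ e' r^(h y + h x₁)` and
`|b₂ - b₁| ≤ e' r^(2 h x₁) ≤ 2 e r²` (here `v₁ x₁ = v₂ x₁`), in particular `|b₂| ≥ |b₁|/2 ≥ (2Kθ)⁻¹`.
By `Qf_step`: `Q_i(y,y') = Q_i'(y,y') + c_i(y) c_i(y') / b_i`, and
`c₂c₂'/b₂ - c₁c₁'/b₁ = (c₂c₂' - c₁c₁')/b₂ + c₁c₁' (b₁ - b₂)/(b₁b₂)`, where
`|c₂c₂' - c₁c₁'| ≤ |δc||c₁'| + |c₁||δc'| + |δc||δc'|`.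
(i) `|δc(y)||c₁(y')|/|b₂| ≤ 4 e' W θ K r^(h y + h x₁ + ds y' o) ≤ 4 e' W θ r^(h y + h y')` because
`h x₁ = h o + 1` and `h y' ≤ h o + ds y' o`; the same for the other term;
(ii) `|δc||δc'|/|b₂| ≤ 2 e'² K θ r^(2 h x₁) r^(h y + h y') ≤ 4 e' W² θ r^(h y + h y')`, because
`e' ≤ 2 K W²` and `h x₁ ≥ 1`;
(iii) `|c₁c₁'||δb|/(|b₁||b₂|) ≤ 8 W² θ² e' r^(h y + h y')`.
The sum is at most `(8 W θ + 4 W² θ + 8 W² θ²) e' r^(h y + h y') ≤ ρ e' r^(h y + h y')` (`θ ≤ 1`).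
`|b₂| ≥ |b₁|/2` because `e' r² ≤ 2 W² / K ≤ (2 K θ)⁻¹` (`hc.h1`). -/
theorem pert (hN : Steps N) (hz : 0 < z.im) {ds : V → V → ℕ} (hds : Dst ds) {K θ W e : ℝ}
    (hc : Cst K θ W) (he : 0 ≤ e) (heW : e ≤ K * W ^ 2) (h : V → ℕ) :
    ∀ (xs : List V) (Λ₁ Λ₂ P : Finset V) (o : V), Λ₁ ⊆ Λ₂ → P ⊆ Λ₁ → IsPath N ds Λ₁ o xs → o ∈ Λ₁ →
      (∀ x ∈ xs, x ∉ Λ₂) → (∀ x ∈ xs, v₁ x = v₂ x) →
      (∀ y ∈ full Λ₁ xs, ∀ x ∈ full Λ₁ xs, h y ≤ h x + ds y x) →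
      (∀ (k : ℕ) (y : V), xs[k]? = some y → h y = h o + (k + 1)) →
      TF N v₁ z ds W K (full Λ₁ xs) xs → PivGe N v₁ z (K * θ)⁻¹ Λ₁ xs →
      2 * xs.length * (24 * W ^ 2 * θ) ≤ 1 →
      (∀ y ∈ full Λ₁ xs, ∀ y', (y' ∈ xs ∨ y' ∈ P) →
        ‖Qf N (full Λ₁ xs) v₁ z y y' - Qf N (full Λ₂ xs) v₂ z y y'‖ ≤ e * K⁻¹ ^ (h y + h y')) →
      (∀ y ∈ Λ₁, ∀ y' ∈ P, ‖Qf N Λ₁ v₁ z y y' - Qf N Λ₂ v₂ z y y'‖
        ≤ e * (1 + 24 * W ^ 2 * θ) ^ xs.length * K⁻¹ ^ (h y + h y')) ∧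
      PivClose N v₁ v₂ z (2 * e * K⁻¹ ^ 2) Λ₁ Λ₂ xs := by
  have hK := hc.K1
  have hθ := hc.θ0
  have hW := hc.W1
  have hK0 : 0 < K := by linarith
  have hr0 : 0 < K⁻¹ := inv_pos.2 hK0
  have hr1 : K⁻¹ ≤ 1 := inv_le_one_of_one_le₀ (by linarith)
  intro xs
  induction xs with
  | nil =>
    intro Λ₁ Λ₂ P o hΛ hP hp ho hx hv hh hk hT hG hl hQ
    refine ⟨fun y hy y' hy' => ?_, trivial⟩
    have h1 := hQ y hy y' (Or.inr hy')
    simpa [full] using h1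
  | cons x xs ih =>
    intro Λ₁ Λ₂ P o hΛ hP hp ho hx hv hh hk hT hG hl hQ
    have hxΛ : x ∉ Λ₁ := hp.1
    have hxΛ2 : x ∉ Λ₂ := hx x (by simp)
    have hp' := hp.2.2.2.2.2
    have hhx : h x = h o + 1 := hk 0 x (by simp)
    have hρ0 : 0 ≤ 24 * W ^ 2 * θ := by positivity
    have hl' : 2 * (xs.length : ℝ) * (24 * W ^ 2 * θ) ≤ 1 := by
      refine le_trans ?_ hl
      rw [List.length_cons]
      push_cast
      nlinarith
    obtain ⟨IH1, IH2⟩ := ih (insert x Λ₁) (insert x Λ₂) (insert x P) x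
      (Finset.insert_subset_insert _ hΛ) (Finset.insert_subset_insert _ hP) hp'
      (Finset.mem_insert_self _ _)
      (fun x' hx' hm => by
        rcases Finset.mem_insert.1 hm with rfl | hm
        · exact Prt_path xs _ _ hp' _ hx' (Finset.mem_insert_self _ _)
        · exact hx x' (List.mem_cons_of_mem _ hx') hm)
      (fun x' hx' => hv x' (List.mem_cons_of_mem _ hx'))
      hh
      (fun k y hy => by
        have := hk (k + 1) y (by simpa using hy)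
        rw [this, hhx]; ring)
      hT.tail hG.2 hl'
      (fun y hy y' hy' => by
        refine hQ y hy y' ?_
        rcases hy' with hy' | hy'
        · exact Or.inl (List.mem_cons_of_mem _ hy')
        · rcases Finset.mem_insert.1 hy' with rfl | hy'
          · exact Or.inl (by simp)
          · exact Or.inr hy')
    obtain ⟨e', hee⟩ : ∃ e', e' = e * (1 + 24 * W ^ 2 * θ) ^ xs.length := ⟨_, rfl⟩
    rw [← hee] at IH1
    have he'0 : 0 ≤ e' := by rw [hee]; positivity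
    have he'2 : e' ≤ 2 * e := by
      rw [hee]
      have := Prt_pow_le hρ0 hl'
      nlinarith
    have he'W : e' ≤ 2 * K * W ^ 2 := by linarith
    have hC1 := C1 hN hz hds hc xs (insert x Λ₁) x hp' (Finset.mem_insert_self _ _) hT.tail hG.2
    obtain ⟨hcc, -, -⟩ := cc_bd hN hz hds hc (subset_full xs _) hp ho hT hC1
    have hvx : v₁ x = v₂ x := hv x (by simp)
    have hbb : ‖pv N Λ₁ v₁ z x - pv N Λ₂ v₂ z x‖ ≤ e' * K⁻¹ ^ ((h o + 1) + (h o + 1)) := by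
      have h1 := IH1 x (Finset.mem_insert_self _ _) x (Finset.mem_insert_self _ _)
      have h2 : pv N Λ₁ v₁ z x - pv N Λ₂ v₂ z x
          = -(Qf N (insert x Λ₁) v₁ z x x - Qf N (insert x Λ₂) v₂ z x x) := by
        rw [pv_eq, pv_eq, hvx]; ring
      rw [h2, norm_neg, ← hhx]
      exact h1
    have hdd : ∀ y ∈ Λ₁, ‖cc N Λ₂ v₂ z y x - cc N Λ₁ v₁ z y x‖ ≤ e' * K⁻¹ ^ (h y + (h o + 1)) := by
      intro y hy
      have h1 := IH1 y (Finset.mem_insert_of_mem hy) x (Finset.mem_insert_self _ _)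
      have h2 : cc N Λ₂ v₂ z y x - cc N Λ₁ v₁ z y x
          = Qf N (insert x Λ₁) v₁ z y x - Qf N (insert x Λ₂) v₂ z y x := by
        unfold cc; ring
      rw [h2, ← hhx]
      exact h1
    have hfo : ∀ y ∈ Λ₁, y ∈ full Λ₁ (x :: xs) := fun y hy => subset_full _ _ hy
    refine ⟨fun y hy y' hy' => ?_, ?_, IH2⟩
    · have hy1 := hP hy'
      have hkey := Prt_key hc he'0 he'W (hh y (hfo y hy) o (hfo o ho))
        (hh y' (hfo y' hy1) o (hfo o ho)) (hcc y hy) (hcc y' hy1) (hdd y hy) (hdd y' hy1) hG.1 hbb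
      have h1 := IH1 y (Finset.mem_insert_of_mem hy) y' (Finset.mem_insert_of_mem hy')
      rw [Qf_step hN hz y y' hxΛ, Qf_step hN hz y y' hxΛ2]
      have h2 : Qf N (insert x Λ₁) v₁ z y y' + cc N Λ₁ v₁ z y x * cc N Λ₁ v₁ z y' x / pv N Λ₁ v₁ z x
          - (Qf N (insert x Λ₂) v₂ z y y' + cc N Λ₂ v₂ z y x * cc N Λ₂ v₂ z y' x / pv N Λ₂ v₂ z x)
          = (Qf N (insert x Λ₁) v₁ z y y' - Qf N (insert x Λ₂) v₂ z y y')
          + (cc N Λ₁ v₁ z y x * cc N Λ₁ v₁ z y' x / pv N Λ₁ v₁ z x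
            - cc N Λ₂ v₂ z y x * cc N Λ₂ v₂ z y' x / pv N Λ₂ v₂ z x) := by ring
      rw [h2]
      refine (norm_add_le _ _).trans ((add_le_add h1 hkey).trans (le_of_eq ?_))
      rw [List.length_cons, pow_succ, hee]
      ring
    · refine hbb.trans ?_
      have h3 : K⁻¹ ^ ((h o + 1) + (h o + 1)) ≤ K⁻¹ ^ 2 :=
        pow_le_pow_of_le_one hr0.le hr1 (by omega)
      calc e' * K⁻¹ ^ ((h o + 1) + (h o + 1)) ≤ (2 * e) * K⁻¹ ^ 2 := by gcongr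
        _ = _ := by ring

end Pool.Agent.H989.SB
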