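import Pool.Agent.H989.SB.Det
import Pool.Agent.H989.SB.Prt
import Pool.Agent.H989.SB.Loc

/-!
Two good paths: the second one is still good after a change of the potential on the first one.
-/

set_option linter.unusedSectionVars false
set_option linter.unusedVariables false

open MeasureTheory ProbabilityTheory Finset

namespace Pool.Agent.H989.SB

variable {d L : ℕ} [NeZero L] {σ : ℝ} {z : ℂ} {K θ W q M Y : ℝ} {n : ℕ} {J h₀ s : ℤ}
  {A : Finset (Fin d)} {Λ : Finset (Tor d L)} {o : Tor d L} {γ γ' : List (St d)} {τ τ' : List ℤ}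
  {ξ ξ'' : Tor d L → ℝ}

lemma Pair_steps (hL : 5 ≤ L) : Steps (NN d L) := steps_ND (by omega) _

/-- one more site -/
lemma Pair_insert {V : Type*} [DecidableEq V] (F : Finset V) (xs : List V) (k : ℕ) (w : V)
    (hw : xs[k]? = some w) : full F (xs.take (k + 1)) = insert w (full F (xs.take k)) := by
  ext y
  rw [Finset.mem_insert, path_mem_full, path_mem_full, List.take_add_one, hw, List.mem_append,
    Option.toList_some, List.mem_singleton]
  tauto

lemma Pair_notMem (hL : 5 ≤ L) (hΛ : Around A o Λ) (hγ : Val A γ) (hγ' : Val A γ')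
    (hd : ∀ t ∈ γ, t ∉ γ') {k : ℕ} (hk : k < γ.length) :
    ept o (γ.take (k + 1)) ∉ full (full Λ (sites o γ')) (sites o (γ.take k)) := by
  have hw : ept o (γ.take (k + 1)) ∈ sites o γ := mem_sites.2 ⟨k, hk, rfl⟩
  rw [path_mem_full, path_mem_full, not_or, not_or]
  refine ⟨⟨sites_notMem hL hΛ hγ hw, fun h => ?_⟩, fun h => ?_⟩
  · exact (sites_disjoint hL hγ' hγ hd h hw).1 rfl
  · obtain ⟨i, hi, he⟩ := mem_sites.1 h
    have h1 : wt (ept o (γ.take (k + 1)) - o) = k + 1 := by
      rw [wt_ept hL (hγ.take _), List.length_take]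
      omega
    have h2 : wt (ept o ((γ.take k).take (i + 1)) - o : Tor d L) = i + 1 := by
      rw [wt_ept hL ((hγ.take _).take _), List.length_take]
      omega
    rw [he, h2] at h1
    rw [List.length_take] at hi
    omega

/-- Removal of the sites of `γ` after those of `γ'` changes the matrix elements a little.
Proof. One site after the other: `Λ_k = full (full Λ (sites o γ')) (sites o (γ.take k))`,
`w = ept o (γ.take (k+1)) ∉ Λ_k`. By `Qf_step`, `sol_at`
`Qf Λ_k y x - Qf Λ_{k+1} y x = sol Λ_k (bx y) w * cc Λ_k x w`, where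
`cc Λ_k x w = bx x w - Qf (insert w Λ_k) x w` and `bx x w = 0` (`sites_disjoint`); the two factors are
bounded by `Tp.pre` (for the path `γ'`, `u = γ`): `W K⁻¹^(hgt y)` and `W K K⁻¹^(hgt x)`. -/
theorem qf_close (hL : 5 ≤ L) (hz : 0 < z.im) (hK : 0 < K) (hW : 0 ≤ W) (hΛ : Around A o Λ)
    (hγ : Val A γ) (hγ' : Val A γ') (hl : γ.length = n) (hl' : γ'.length = n)
    (hd : ∀ t ∈ γ, t ∉ γ') (T' : Tp n σ z K W θ A Λ o γ' ξ) :
    ∀ y ∈ full Λ (sites o γ'), ∀ x ∈ sites o γ',
      ‖Qf (NN d L) (full Λ (sites o γ')) (pot σ ξ) z y x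
          - Qf (NN d L) (full (full Λ (sites o γ')) (sites o γ)) (pot σ ξ) z y x‖
        ≤ n * W ^ 2 * K * K⁻¹ ^ (hgt Λ o y + hgt Λ o x) := by
  have hN := Pair_steps (d := d) hL
  intro y hy x hx
  have key : ∀ k : ℕ, k ≤ n →
      ‖Qf (NN d L) (full Λ (sites o γ')) (pot σ ξ) z y x
          - Qf (NN d L) (full (full Λ (sites o γ')) (sites o (γ.take k))) (pot σ ξ) z y x‖
        ≤ k * W ^ 2 * K * K⁻¹ ^ (hgt Λ o y + hgt Λ o x) := by
    intro k
    induction k with
    | zero =>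
      intro _
      rw [List.take_zero]
      show ‖Qf (NN d L) (full Λ (sites o γ')) (pot σ ξ) z y x
          - Qf (NN d L) (full Λ (sites o γ')) (pot σ ξ) z y x‖ ≤ _
      rw [sub_self, norm_zero]
      simp
    | succ k ih =>
      intro hk
      have h0 := ih (by omega)
      have hw : ept o (γ.take (k + 1)) ∈ sites o γ := mem_sites.2 ⟨k, by omega, rfl⟩
      have hnot := Pair_notMem (o := o) hL hΛ hγ hγ' hd (k := k) (by omega)
      have hins : full (full Λ (sites o γ')) (sites o (γ.take (k + 1)))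
          = insert (ept o (γ.take (k + 1))) (full (full Λ (sites o γ')) (sites o (γ.take k))) := by
        rw [sites_take, sites_take]
        exact Pair_insert _ _ _ _ (sites_get o γ k (by omega))
      have hstep := Qf_step (v := pot σ ξ) hN hz y x hnot
      have hbx : bx (NN d L) x (ept o (γ.take (k + 1))) = 0 :=
        (sites_disjoint hL hγ' hγ hd hx hw).2
      obtain ⟨p1, p2⟩ := T'.pre γ hγ hl hd k (by omega)
      have hdiff : Qf (NN d L) (full (full Λ (sites o γ')) (sites o (γ.take k))) (pot σ ξ) z y x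
          - Qf (NN d L) (full (full Λ (sites o γ')) (sites o (γ.take (k + 1)))) (pot σ ξ) z y x
          = sol (NN d L) (full (full Λ (sites o γ')) (sites o (γ.take k))) (pot σ ξ) z
              (bx (NN d L) y) (ept o (γ.take (k + 1)))
            * cc (NN d L) (full (full Λ (sites o γ')) (sites o (γ.take k))) (pot σ ξ) z x
              (ept o (γ.take (k + 1))) := by
        rw [hstep, hins, sol_at hN hz y hnot]
        ring
      have hcc : ‖cc (NN d L) (full (full Λ (sites o γ')) (sites o (γ.take k))) (pot σ ξ) z x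
          (ept o (γ.take (k + 1)))‖ ≤ W * K * K⁻¹ ^ (hgt Λ o x) := by
        unfold cc
        rw [hbx, zero_sub, norm_neg]
        exact p2 x hx
      have hterm : ‖Qf (NN d L) (full (full Λ (sites o γ')) (sites o (γ.take k))) (pot σ ξ) z y x
          - Qf (NN d L) (full (full Λ (sites o γ')) (sites o (γ.take (k + 1)))) (pot σ ξ) z y x‖
          ≤ W ^ 2 * K * K⁻¹ ^ (hgt Λ o y + hgt Λ o x) := by
        rw [hdiff, norm_mul]
        calc _ ≤ (W * K⁻¹ ^ (hgt Λ o y)) * (W * K * K⁻¹ ^ (hgt Λ o x)) :=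
              mul_le_mul (p1 y hy) hcc (norm_nonneg _) (by positivity)
          _ = W ^ 2 * K * K⁻¹ ^ (hgt Λ o y + hgt Λ o x) := by
              rw [pow_add]
              ring
      have htri := norm_sub_le_norm_sub_add_norm_sub
        (Qf (NN d L) (full Λ (sites o γ')) (pot σ ξ) z y x)
        (Qf (NN d L) (full (full Λ (sites o γ')) (sites o (γ.take k))) (pot σ ξ) z y x)
        (Qf (NN d L) (full (full Λ (sites o γ')) (sites o (γ.take (k + 1)))) (pot σ ξ) z y x)
      push_cast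
      linarith
  have h1 := key n le_rfl
  rw [List.take_of_length_le (by omega)] at h1
  exact h1

/-- Closeness of the pivots and windows: if `v₁`, `v₂` have pivots with a small difference and the
pivots of the first are in the windows, those of the second are in the enlarged windows.
(`q^j - (q-1) q^(-J-1) ≥ q^(j-1)` and `q^(j+1) + (q-1) q^(-J-1) ≤ q^(j+2)` for `|j| ≤ J`.) -/
theorem inW_close {V : Type*} [AddCommGroup V] [Fintype V] [DecidableEq V] {N : Finset V}
    {v₁ v₂ : V → ℝ} {t : ℝ} (hq : 1 < q) (ht : t ≤ (q - 1) * q ^ (-J - 1)) :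
    ∀ (xs : List V) (Λ₁ Λ₂ : Finset V) (τ : List ℤ), (∀ j ∈ τ, |j| ≤ J) → τ.length = xs.length →
      PivClose N v₁ v₂ z t Λ₁ Λ₂ xs → InW N v₁ z Λ₁ xs (τ.map (win q)) →
      InW N v₂ z Λ₂ xs (τ.map (winp q)) := by
  have hq0 : 0 < q := by linarith
  intro xs
  induction xs with
  | nil => intro Λ₁ Λ₂ τ _ _ _ _; trivial
  | cons x xs ih =>
    intro Λ₁ Λ₂ τ hJ hl hc hw
    cases τ with
    | nil => simp at hl
    | cons j τ =>
      rw [List.map_cons] at hw ⊢
      obtain ⟨⟨h1, h2⟩, h3⟩ := hw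
      obtain ⟨c1, c2⟩ := hc
      have hj := (abs_le.1 (hJ j (by simp))).1
      refine ⟨?_, ih (insert x Λ₁) (insert x Λ₂) τ
        (fun i hi => hJ i (List.mem_cons_of_mem _ hi)) (by simpa using hl) c2 h3⟩
      have h4 : |(pv N Λ₁ v₁ z x).re - (pv N Λ₂ v₂ z x).re| ≤ (q - 1) * q ^ (-J - 1) := by
        rw [← Complex.sub_re]
        exact (Complex.abs_re_le_norm _).trans (c1.trans ht)
      have h5 : |(pv N Λ₁ v₁ z x).re| - |(pv N Λ₂ v₂ z x).re|
          ≤ |(pv N Λ₁ v₁ z x).re - (pv N Λ₂ v₂ z x).re| := abs_sub_abs_le_abs_sub _ _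
      have h6 : |(pv N Λ₂ v₂ z x).re| - |(pv N Λ₁ v₁ z x).re|
          ≤ |(pv N Λ₁ v₁ z x).re - (pv N Λ₂ v₂ z x).re| := by
        rw [abs_sub_comm]
        exact abs_sub_abs_le_abs_sub _ _
      have h7 : q ^ (-J - 1) ≤ q ^ (j - 1) := zpow_le_zpow_right₀ hq.le (by omega)
      have h8 : q ^ (-J - 1) ≤ q ^ (j + 1) := zpow_le_zpow_right₀ hq.le (by omega)
      have e1 : q ^ j = q * q ^ (j - 1) := by
        rw [← zpow_one_add₀ hq0.ne']
        congr 1
        ring
      have e2 : q ^ (j + 2) = q * q ^ (j + 1) := by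
        rw [← zpow_one_add₀ hq0.ne']
        congr 1
        ring
      have h9 : (q - 1) * q ^ (-J - 1) ≤ (q - 1) * q ^ (j - 1) :=
        mul_le_mul_of_nonneg_left h7 (by linarith)
      have h10 : (q - 1) * q ^ (-J - 1) ≤ (q - 1) * q ^ (j + 1) :=
        mul_le_mul_of_nonneg_left h8 (by linarith)
      constructor
      · have h1' : q * q ^ (j - 1) ≤ |(pv N Λ₁ v₁ z x).re| := by rw [← e1]; exact h1
        linarith
      · rw [e2]
        linarith

/-- the common part of `pair_off` and `pair_in` -/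
lemma Pair_core (hL : 5 ≤ L) (hz : 0 < z.im) (H : WinP z K θ W q M Y n J h₀ s)
    (hΛ : Around A o Λ) (hγ' : Val A γ') (hl' : γ'.length = n) (hτ' : TW n J h₀ s τ')
    (T' : Tp n σ z K W θ A Λ o γ' ξ) {Λ₂ : Finset (Tor d L)} (hΛ₂ : Λ ⊆ Λ₂)
    (hx : ∀ x ∈ sites o γ', x ∉ Λ₂) (hv : ∀ x ∈ sites o γ', ξ x = ξ'' x)
    (hQ : ∀ y ∈ full Λ (sites o γ'), ∀ x ∈ sites o γ',
      ‖Qf (NN d L) (full Λ (sites o γ')) (pot σ ξ) z y x
          - Qf (NN d L) (full Λ₂ (sites o γ')) (pot σ ξ'') z y x‖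
        ≤ 2 * n * W ^ 2 * K * K⁻¹ ^ (hgt Λ o y + hgt Λ o x))
    (hw' : InW (NN d L) (pot σ ξ) z Λ (sites o γ') (τ'.map (win q))) :
    InW (NN d L) (pot σ ξ'') z Λ₂ (sites o γ') (τ'.map (winp q)) := by
  have hN := Pair_steps (d := d) hL
  have hK4 := H.cst.K1
  have hK0 : 0 < K := by linarith
  have hW := H.cst.W1
  have hn1 : (1 : ℝ) ≤ n := by exact_mod_cast H.n1
  have hW2 : W ≤ 2 * n * W := by nlinarith
  have hlen : (sites o γ').length = n := by rw [length_sites, hl']
  have hTF : TF (NN d L) (pot σ ξ) z (dsx Λ o) (2 * n * W) K (full Λ (sites o γ'))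
      (sites o γ') := by
    refine ⟨fun x hx y hy hxy => ?_, fun y hy => (T'.tf.diag y hy).trans hW2⟩
    refine (T'.tf.off x hx y hy hxy).trans ?_
    gcongr
  have hG : PivGe (NN d L) (pot σ ξ) z (K * θ)⁻¹ Λ (sites o γ') :=
    pivGe_of H.q1 H.lo _ _ τ' (by rw [hlen, hτ'.len]) hτ'.le
      (inW_win_winp H.q1 _ _ _ hw')
  have hp := pert (v₁ := pot σ ξ) (v₂ := pot σ ξ'') hN hz (dst_dsx Λ o) H.cst2
    (e := 2 * n * W ^ 2 * K) (by positivity)
    (by
      have h1 : 0 ≤ K * W ^ 2 := by positivity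
      have h2 : (2 : ℝ) * n ≤ 4 * n ^ 2 := by nlinarith
      calc 2 * n * W ^ 2 * K = (2 * n) * (K * W ^ 2) := by ring
        _ ≤ (4 * n ^ 2) * (K * W ^ 2) := mul_le_mul_of_nonneg_right h2 h1
        _ = K * (2 * n * W) ^ 2 := by ring)
    (hgt Λ o) (sites o γ') Λ Λ₂ ∅ o hΛ₂ (Finset.empty_subset _) (isPath_sites hL hΛ hγ') hΛ.1 hx
    (fun x hxs => by
      unfold pot
      rw [hv x hxs])
    (fun y _ x _ => hgt_le Λ o x y)
    (fun k y hy => by
      rw [hgt_site hL hΛ hγ' hy]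
      have h0 : hgt Λ o o = 0 := by
        unfold hgt
        rw [if_pos rfl]
      rw [h0, zero_add])
    hTF hG (by rw [hlen]; exact H.h48)
    (fun y hy y' hy' => by
      rcases hy' with hy' | hy'
      · exact hQ y hy y' hy'
      · exact absurd hy' (Finset.notMem_empty _))
  refine inW_close H.q1 ?_ (sites o γ') Λ Λ₂ τ' hτ'.le (by rw [hlen, hτ'.len]) hp.2 hw'
  refine le_trans (le_of_eq ?_) H.hp
  field_simp
  ring

/-- The pivots of `γ'` with the sites of `γ` removed.
Proof. `pert` with `v₁ = v₂ = pot σ ξ`, `Λ₁ = Λ`, `Λ₂ = full Λ (sites o γ)`, `P = ∅`, the constant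
`2 n W` instead of `W` (`WinP.cst2`, `WinP.h48`; `TF` is monotone in `W`), `h = hgt Λ o` (`hgt_le`,
`hgt_site`), `e = 2 n W² K` (`qf_close`, `full_comm`), `pivGe_of`; then `inW_close` with `WinP.hp`. -/
theorem pair_off (hL : 5 ≤ L) (hz : 0 < z.im) (H : WinP z K θ W q M Y n J h₀ s)
    (hΛ : Around A o Λ) (hγ : Val A γ) (hγ' : Val A γ') (hl : γ.length = n) (hl' : γ'.length = n)
    (hd : ∀ t ∈ γ, t ∉ γ') (hτ' : TW n J h₀ s τ') (T' : Tp n σ z K W θ A Λ o γ' ξ)
    (hw' : InW (NN d L) (pot σ ξ) z Λ (sites o γ') (τ'.map (win q))) :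
    InW (NN d L) (pot σ ξ) z (full Λ (sites o γ)) (sites o γ') (τ'.map (winp q)) := by
  have hK4 := H.cst.K1
  have hK0 : 0 < K := by linarith
  have hW := H.cst.W1
  refine Pair_core hL hz H hΛ hγ' hl' hτ' T' (subset_full _ _) ?_ (fun _ _ => rfl) ?_ hw'
  · intro x hx hm
    rcases (path_mem_full _ _ _).1 hm with h | h
    · exact sites_notMem hL hΛ hγ' hx h
    · exact (sites_disjoint hL hγ' hγ hd hx h).1 rfl
  · intro y hy x hx
    have h1 := qf_close hL hz hK0 (by linarith) hΛ hγ hγ' hl hl' hd T' y hy x hx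
    rw [full_comm Λ (sites o γ) (sites o γ')]
    refine h1.trans ?_
    have h2 : 0 ≤ (n : ℝ) * W ^ 2 * K * K⁻¹ ^ (hgt Λ o y + hgt Λ o x) := by positivity
    linarith

/-- The pivots of `γ'` for the changed potential.
Proof. `pert` with `v₁ = pot σ ξ`, `v₂ = pot σ ξ''`, `Λ₁ = Λ₂ = Λ`, `P = ∅`, constants as in `pair_off`:
both `Qf (full Λ (sites o γ'))` are `n W² K K⁻¹^..`-close to the ones with `sites o γ` removed, which
are equal (`Qf_loc`).  (`ξ = ξ''` on `sites o γ'` by `sites_disjoint`.) -/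
theorem pair_in (hL : 5 ≤ L) (hz : 0 < z.im) (H : WinP z K θ W q M Y n J h₀ s)
    (hΛ : Around A o Λ) (hγ : Val A γ) (hγ' : Val A γ') (hl : γ.length = n) (hl' : γ'.length = n)
    (hd : ∀ t ∈ γ, t ∉ γ') (hτ' : TW n J h₀ s τ') (hag : ∀ x, x ∉ sites o γ → ξ x = ξ'' x)
    (T' : Tp n σ z K W θ A Λ o γ' ξ) (T'' : Tp n σ z K W θ A Λ o γ' ξ'')
    (hw' : InW (NN d L) (pot σ ξ) z Λ (sites o γ') (τ'.map (win q))) :
    InW (NN d L) (pot σ ξ'') z Λ (sites o γ') (τ'.map (winp q)) := by
  have hN := Pair_steps (d := d) hL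
  have hK4 := H.cst.K1
  have hK0 : 0 < K := by linarith
  have hW := H.cst.W1
  refine Pair_core hL hz H hΛ hγ' hl' hτ' T' (Finset.Subset.refl _)
    (fun x hx => sites_notMem hL hΛ hγ' hx)
    (fun x hx => hag x (fun h => (sites_disjoint hL hγ' hγ hd hx h).1 rfl)) ?_ hw'
  intro y hy x hx
  have h1 := qf_close hL hz hK0 (by linarith) hΛ hγ hγ' hl hl' hd T' y hy x hx
  have h2 := qf_close hL hz hK0 (by linarith) hΛ hγ hγ' hl hl' hd T'' y hy x hx
  have h3 : Qf (NN d L) (full (full Λ (sites o γ')) (sites o γ)) (pot σ ξ) z y x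
      = Qf (NN d L) (full (full Λ (sites o γ')) (sites o γ)) (pot σ ξ'') z y x := by
    apply Qf_loc hN hz
    intro u hu
    unfold pot
    rw [hag u (fun h => hu ((path_mem_full _ _ _).2 (Or.inr h)))]
  have h4 : Qf (NN d L) (full Λ (sites o γ')) (pot σ ξ) z y x
      - Qf (NN d L) (full Λ (sites o γ')) (pot σ ξ'') z y x
      = (Qf (NN d L) (full Λ (sites o γ')) (pot σ ξ) z y x
          - Qf (NN d L) (full (full Λ (sites o γ')) (sites o γ)) (pot σ ξ) z y x)
        - (Qf (NN d L) (full Λ (sites o γ')) (pot σ ξ'') z y x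
          - Qf (NN d L) (full (full Λ (sites o γ')) (sites o γ)) (pot σ ξ'') z y x) := by
    rw [h3]
    ring
  rw [h4]
  refine (norm_sub_le _ _).trans ((add_le_add h1 h2).trans (le_of_eq ?_))
  ring

/-- Deep sites feel little of the change.
Proof. `chi_multi` (with `Γ = (sites o γ).toFinset`, `full_union`): the difference is at most
`∑_{g ∈ sites o γ} ‖sol (full Λ (sites o γ')) (bx x) g‖ * ‖chi .. g y‖ ≤ n * W * K⁻¹`: `Tp.ta` for `γ'`
with `u = γ.take (k+1)` (`K⁻¹^(hgt x) ≤ 1`), and `Deep`. -/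
theorem chi_close (hL : 5 ≤ L) (hz : 0 < z.im) (hK : 1 ≤ K) (hW : 0 ≤ W) (hΛ : Around A o Λ)
    (hγ : Val A γ) (hγ' : Val A γ') (hl : γ.length = n) (hl' : γ'.length = n)
    (hd : ∀ t ∈ γ, t ∉ γ') {j : ℕ} (T' : Tp n σ z K W θ A Λ o γ' ξ)
    (D : Deep n σ z K j A Λ o γ γ' ξ) {U : Finset (St d)} (hU : Cons U)
    (hUA : Off (A ∪ dirs γ') U) (hUc : U.card = j * n) :
    ∀ x ∈ full Λ (sites o γ'),
      ‖chi (NN d L) (full Λ (sites o γ')) (pot σ ξ) z x (ept o γ' + vec U)
          - chi (NN d L) (full (full Λ (sites o γ')) (sites o γ)) (pot σ ξ) z x (ept o γ' + vec U)‖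
        ≤ n * W * K⁻¹ := by
  have hN := Pair_steps (d := d) hL
  have hK0 : 0 < K := by linarith
  intro x hx
  have hdis : Disjoint (full Λ (sites o γ')) (sites o γ).toFinset := by
    rw [Finset.disjoint_right]
    intro y hy hm
    rw [List.mem_toFinset] at hy
    rcases (path_mem_full _ _ _).1 hm with h | h
    · exact sites_notMem hL hΛ hγ hy h
    · exact (sites_disjoint hL hγ' hγ hd h hy).1 rfl
  have hfu : full (full Λ (sites o γ')) (sites o γ)
      = full Λ (sites o γ') ∪ (sites o γ).toFinset := full_union _ _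
  have h := chi_multi (v := pot σ ξ) hN hz x (sites o γ).toFinset hdis
  rw [← hfu] at h
  have hcard : ((sites o γ).toFinset.card : ℝ) ≤ n := by
    have h1 : (sites o γ).toFinset.card ≤ (sites o γ).length := List.toFinset_card_le _
    rw [length_sites, hl] at h1
    exact_mod_cast h1
  rw [h, Pi.sub_apply, Finset.sum_apply, sub_sub_cancel_left, norm_neg]
  calc ‖∑ g ∈ (sites o γ).toFinset, (sol (NN d L) (full Λ (sites o γ')) (pot σ ξ) z
          (bx (NN d L) x) g • chi (NN d L) (full (full Λ (sites o γ')) (sites o γ)) (pot σ ξ) z g)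
          (ept o γ' + vec U)‖
      ≤ ∑ g ∈ (sites o γ).toFinset, W * K⁻¹ := by
        refine (norm_sum_le _ _).trans (Finset.sum_le_sum fun g hg => ?_)
        rw [List.mem_toFinset] at hg
        rw [Pi.smul_apply, smul_eq_mul, norm_mul]
        have h2 : ‖chi (NN d L) (full (full Λ (sites o γ')) (sites o γ)) (pot σ ξ) z g
            (ept o γ' + vec U)‖ ≤ K⁻¹ := by
          rw [full_comm Λ (sites o γ') (sites o γ)]
          exact D U hU hUA hUc g hg
        have h3 : ‖sol (NN d L) (full Λ (sites o γ')) (pot σ ξ) z (bx (NN d L) x) g‖ ≤ W := by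
          obtain ⟨k, hk, rfl⟩ := mem_sites.1 hg
          have hne : γ.take (k + 1) ≠ [] := by
            intro he
            have h4 := congrArg List.length he
            rw [List.length_take, List.length_nil] at h4
            omega
          refine (T'.ta (γ.take (k + 1)) (hγ.take _) hne (by rw [List.length_take]; omega)
            (fun t ht => hd t (List.mem_of_mem_take ht)) x hx).trans ?_
          have h5 : K⁻¹ ^ (hgt Λ o x) ≤ 1 :=
            pow_le_one₀ (by positivity) (inv_le_one_of_one_le₀ hK)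
          nlinarith
        gcongr
    _ = ((sites o γ).toFinset.card : ℝ) * (W * K⁻¹) := by
        rw [Finset.sum_const, nsmul_eq_mul]
    _ ≤ n * (W * K⁻¹) := by gcongr
    _ = n * W * K⁻¹ := by ring

/-- Growth of a resonance, for the changed potential.
Proof. Let `U` be as in `Res`, `y = ept o γ' + vec U`, `D x` the value of `‖chi (full Λ (sites o γ')) x y‖`
for `ξ`, `D'' x` for `ξ''`.  By `chi_close` for both and `chi_loc`, `full_comm`,
`|D'' x - D x| ≤ 2 n W / K ≤ 1/48` (`WinP.hM`, `hs`, `M2`: `96 n W ≤ 6 n W q^(n-s) ≤ K`); `D x ≤ D xl`,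
`1 ≤ M^j ≤ D xl` (`xl = ept o γ'`), hence `D'' x ≤ 2 D'' xl`, `2 D'' xl ≥ D xl ≥ M^j`; `step_up` for `ξ''`
(its windows are `winp`, `pair_in`) gives `M^(j+1) ≤ ‖chi Λ o y‖`.  The set for `Res (j+1)` is
`γ'.toFinset ∪ U`: `o + vec (γ'.toFinset ∪ U) = ept o γ' + vec U` (`ept_eq_vec`, disjoint). -/
theorem pair_res (hL : 5 ≤ L) (hz : 0 < z.im) (H : WinP z K θ W q M Y n J h₀ s)
    (hΛ : Around A o Λ) (hγ : Val A γ) (hγ' : Val A γ') (hl : γ.length = n) (hl' : γ'.length = n)
    (hd : ∀ t ∈ γ, t ∉ γ') (hτ' : TW n J h₀ s τ') (hag : ∀ x, x ∉ sites o γ → ξ x = ξ'' x)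
    (T' : Tp n σ z K W θ A Λ o γ' ξ) (T'' : Tp n σ z K W θ A Λ o γ' ξ'')
    (hw' : InW (NN d L) (pot σ ξ) z Λ (sites o γ') (τ'.map (win q))) {j : ℕ}
    (D : Deep n σ z K j A Λ o γ γ' ξ'')
    (R : Res n σ z M j (A ∪ dirs γ') (full Λ (sites o γ')) (ept o γ') ξ)
    (S : Sg σ z Y Λ o γ' ξ'') : Res n σ z M (j + 1) A Λ o ξ'' := by
  have hN := Pair_steps (d := d) hL
  have hK4 := H.cst.K1
  have hK0 : 0 < K := by linarith
  have hW := H.cst.W1
  have hq1 := H.q1
  have hM := H.M2
  have hn1 : (1 : ℝ) ≤ n := by exact_mod_cast H.n1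
  obtain ⟨U, hU, hUA, hUc, hR1, hR2⟩ := R
  have hlen : (sites o γ').length = n := by rw [length_sites, hl']
  have hpot : ∀ u, u ∉ full (full Λ (sites o γ')) (sites o γ) → pot σ ξ u = pot σ ξ'' u := by
    intro u hu
    unfold pot
    rw [hag u (fun h => hu ((path_mem_full _ _ _).2 (Or.inr h)))]
  have hD : Deep n σ z K j A Λ o γ γ' ξ := by
    intro U' h1 h2 h3 x hx
    have h4 := D U' h1 h2 h3 x hx
    have h5 : chi (NN d L) (full (full Λ (sites o γ)) (sites o γ')) (pot σ ξ) z x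
        = chi (NN d L) (full (full Λ (sites o γ)) (sites o γ')) (pot σ ξ'') z x := by
      apply chi_loc hN hz
      intro u hu
      apply hpot
      rw [full_comm Λ (sites o γ') (sites o γ)]
      exact hu
    rw [h5]
    exact h4
  -- the small quantity
  have hKb : 96 * n * W ≤ K := by
    have h1 := H.hM
    have h2 := H.hs
    have h3 : q ^ (-s - 3 * (n : ℤ)) ≤ q ^ ((n : ℤ) - s) := by
      apply zpow_le_zpow_right₀ hq1.le
      omega
    have h4 : 16 ≤ q ^ ((n : ℤ) - s) := by linarith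
    have h5 : 0 ≤ 6 * (n : ℝ) * W := by positivity
    nlinarith
  have hε : 2 * (n * W * K⁻¹) ≤ 1 / 48 := by
    have h1 : n * W ≤ K * (1 / 96) := by linarith
    have h2 : n * W * K⁻¹ ≤ 1 / 96 := by
      rw [← div_eq_mul_inv, div_le_iff₀ hK0]
      linarith
    linarith
  have hclose : ∀ x ∈ full Λ (sites o γ'),
      ‖chi (NN d L) (full Λ (sites o γ')) (pot σ ξ) z x (ept o γ' + vec U)
        - chi (NN d L) (full Λ (sites o γ')) (pot σ ξ'') z x (ept o γ' + vec U)‖ ≤ 1 / 48 := by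
    intro x hx
    have h1 := chi_close hL hz (by linarith) (by linarith) hΛ hγ hγ' hl hl' hd T' hD hU hUA hUc x hx
    have h2 := chi_close hL hz (by linarith) (by linarith) hΛ hγ hγ' hl hl' hd T'' D hU hUA hUc x hx
    have h3 : chi (NN d L) (full (full Λ (sites o γ')) (sites o γ)) (pot σ ξ) z x
        = chi (NN d L) (full (full Λ (sites o γ')) (sites o γ)) (pot σ ξ'') z x :=
      chi_loc hN hz hpot x
    rw [h3] at h1
    have h4 := norm_sub_le_norm_sub_add_norm_sub
      (chi (NN d L) (full Λ (sites o γ')) (pot σ ξ) z x (ept o γ' + vec U))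
      (chi (NN d L) (full (full Λ (sites o γ')) (sites o γ)) (pot σ ξ'') z x (ept o γ' + vec U))
      (chi (NN d L) (full Λ (sites o γ')) (pot σ ξ'') z x (ept o γ' + vec U))
    rw [norm_sub_rev] at h2
    linarith
  have hxlf : ept o γ' ∈ full Λ (sites o γ') := by
    rw [path_mem_full]
    right
    apply ept_mem_sites
    intro h0
    rw [h0, List.length_nil] at hl'
    have := H.n1
    omega
  have hc0 := hclose _ hxlf
  have hMj : 1 ≤ M ^ j := one_le_pow₀ (by linarith)
  have hD1 : ‖chi (NN d L) (full Λ (sites o γ')) (pot σ ξ) z (ept o γ') (ept o γ' + vec U)‖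
      - 1 / 48 ≤ ‖chi (NN d L) (full Λ (sites o γ')) (pot σ ξ'') z (ept o γ') (ept o γ' + vec U)‖ := by
    have h1 := norm_sub_norm_le
      (chi (NN d L) (full Λ (sites o γ')) (pot σ ξ) z (ept o γ') (ept o γ' + vec U))
      (chi (NN d L) (full Λ (sites o γ')) (pot σ ξ'') z (ept o γ') (ept o γ' + vec U))
    linarith
  have hD2 : ∀ x ∈ full Λ (sites o γ'),
      ‖chi (NN d L) (full Λ (sites o γ')) (pot σ ξ'') z x (ept o γ' + vec U)‖
        ≤ 2 * ‖chi (NN d L) (full Λ (sites o γ')) (pot σ ξ'') z (ept o γ') (ept o γ' + vec U)‖ := by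
    intro x hx
    have h1 := hclose x hx
    rw [norm_sub_rev] at h1
    have h2 := norm_sub_norm_le
      (chi (NN d L) (full Λ (sites o γ')) (pot σ ξ'') z x (ept o γ' + vec U))
      (chi (NN d L) (full Λ (sites o γ')) (pot σ ξ) z x (ept o γ' + vec U))
    have h3 := hR2 x hx
    linarith
  have hw'' := pair_in hL hz H hΛ hγ hγ' hl hl' hd hτ' hag T' T'' hw'
  have hlast : (sites o γ')[n - 1]? = some (ept o γ') := by
    have hn0 := H.n1
    rw [sites_get o γ' (n - 1) (by omega)]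
    congr 2
    rw [List.take_of_length_le (by omega)]
  obtain ⟨s1, s2⟩ := step_up (v := pot σ ξ'') hN hz (dst_dsx Λ o) H (isPath_sites hL hΛ hγ') hΛ.1
    T''.tf hlen hτ' hw'' S hlast hD2
  have hdisj : Disjoint γ'.toFinset U := by
    rw [Finset.disjoint_left]
    intro t ht htU
    rw [List.mem_toFinset] at ht
    apply hUA t htU
    apply Finset.mem_union_right
    unfold dirs
    rw [List.mem_toFinset]
    exact List.mem_map_of_mem ht
  have hvec : o + vec (γ'.toFinset ∪ U) = ept o γ' + vec U := by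
    rw [ept_eq_vec hγ']
    unfold vec
    rw [Finset.sum_union hdisj, add_assoc]
  refine ⟨γ'.toFinset ∪ U, ?_, ?_, ?_, ?_, ?_⟩
  · intro a ha b hb hab
    have hcross : ∀ a ∈ γ'.toFinset, ∀ b ∈ U, a.1 ≠ b.1 := by
      intro a ha b hb he
      rw [List.mem_toFinset] at ha
      apply hUA b hb
      apply Finset.mem_union_right
      unfold dirs
      rw [List.mem_toFinset, ← he]
      exact List.mem_map_of_mem ha
    rcases Finset.mem_union.1 ha with ha | ha
    · rcases Finset.mem_union.1 hb with hb | hb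
      · exact hγ'.cons a ha b hb hab
      · exact absurd hab (hcross a ha b hb)
    · rcases Finset.mem_union.1 hb with hb | hb
      · exact absurd hab.symm (hcross b hb a ha)
      · exact hU a ha b hb hab
  · intro a ha
    rcases Finset.mem_union.1 ha with ha | ha
    · exact hγ'.off a ha
    · exact fun h => hUA a ha (Finset.mem_union_left _ h)
  · rw [Finset.card_union_of_disjoint hdisj, hγ'.card, hl', hUc]
    ring
  · rw [hvec, pow_succ]
    have h1 : M ^ j ≤ 2 * ‖chi (NN d L) (full Λ (sites o γ')) (pot σ ξ'') z (ept o γ')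
        (ept o γ' + vec U)‖ := by linarith
    calc M ^ j * M ≤ (2 * ‖chi (NN d L) (full Λ (sites o γ')) (pot σ ξ'') z (ept o γ')
          (ept o γ' + vec U)‖) * M := by gcongr
      _ = 2 * M * ‖chi (NN d L) (full Λ (sites o γ')) (pot σ ξ'') z (ept o γ')
          (ept o γ' + vec U)‖ := by ring
      _ ≤ _ := s1
  · intro x hx
    rw [hvec]
    exact s2 x hx

end Pool.Agent.H989.SB
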