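import Pool.Agent.H989.SB.Asm

/-!
The parameters as functions of `x = log (2 d)`, and basic asymptotics.
-/

set_option linter.unusedSectionVars false
set_option linter.unusedVariables false

open Filter

namespace Pool.Agent.H989.SB

/-- ratio of the windows -/
noncomputable def pq (ε : ℝ) : ℝ := 1 + ε / 64

/-- growth per step -/
noncomputable def pmu (ε : ℝ) : ℝ := 1 + ε / 16

noncomputable def pC2 (ε : ℝ) (Rb : ℕ) : ℝ := (2 * Rb + 1) / (2 * Real.log (pmu ε))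

noncomputable def pC1 (ε : ℝ) (Rb : ℕ) : ℝ := 3 * pC2 ε Rb + 4 / Real.log (1 + ε / 8) + 4

/-- half of the length of the paths -/
noncomputable def pN (ε : ℝ) (Rb : ℕ) (x : ℝ) : ℕ := ⌈pC1 ε Rb * Real.log x⌉₊ + 1

/-- length of the paths -/
noncomputable def pn (ε : ℝ) (Rb : ℕ) (x : ℝ) : ℕ := 2 * pN ε Rb x + 2

/-- largest exponent of the windows -/
noncomputable def pJ (ε : ℝ) (x : ℝ) : ℕ := ⌊(1 - ε / 8) * x / Real.log (pq ε)⌋₊ - 3

/-- number of the stages -/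
noncomputable def pJ1 (ε : ℝ) (Rb : ℕ) (x : ℝ) : ℕ :=
  ⌈(2 * Rb + 1) * x / (2 * pn ε Rb x * Real.log (pmu ε))⌉₊

/-- number of the coordinates, range of the moments -/
noncomputable def pa (ε : ℝ) (Rb : ℕ) (x : ℝ) : ℕ := ⌈(pC2 ε Rb + 1) * x⌉₊

/-- far range -/
noncomputable def pR (x : ℝ) : ℕ := ⌈3 * x ^ 2⌉₊

/-- growth per stage -/
noncomputable def pM (ε : ℝ) (Rb : ℕ) (x : ℝ) : ℝ := pmu ε ^ pn ε Rb x

/-- first exponent -/
noncomputable def ph (ε : ℝ) (x : ℝ) : ℤ := ((pJ ε x / 2 : ℕ) : ℤ)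

/-- total exponent -/
noncomputable def ps (ε : ℝ) (Rb : ℕ) (x : ℝ) : ℤ :=
  -⌈3 * pn ε Rb x + Real.log (8 * pM ε Rb x) / Real.log (pq ε)⌉

noncomputable def pη (x : ℝ) : ℝ := Real.exp (-x ^ 3)
noncomputable def pθ (ε : ℝ) (x : ℝ) : ℝ := Real.exp (-(ε / 8 * x))
noncomputable def pW (ε : ℝ) (x : ℝ) : ℝ := Real.exp (ε / 64 * x)
noncomputable def pY (x : ℝ) : ℝ := Real.exp (x ^ 3 / 2)
noncomputable def pρ (x : ℝ) : ℝ := Real.exp (-x)
noncomputable def pbm (x : ℝ) : ℝ := Real.exp (3 / 2 * x)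
noncomputable def pX (Rb : ℕ) (x : ℝ) : ℝ := Real.exp ((2 * Rb + 1) * x)

variable {ε : ℝ} {Rb : ℕ}

theorem par_pq_log_pos (hε : 0 < ε) : 0 < Real.log (pq ε) := by
  apply Real.log_pos
  unfold pq
  linarith

theorem par_pmu_log_pos (hε : 0 < ε) : 0 < Real.log (pmu ε) := by
  apply Real.log_pos
  unfold pmu
  linarith

theorem par_pC2_pos (hε : 0 < ε) : 0 < pC2 ε Rb := by
  unfold pC2
  have h := par_pmu_log_pos hε
  positivity

theorem par_pC1_pos (hε : 0 < ε) : 0 < pC1 ε Rb := by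
  unfold pC1
  have h := par_pC2_pos (Rb := Rb) hε
  have h2 : 0 < Real.log (1 + ε / 8) := by
    apply Real.log_pos
    linarith
  positivity

theorem par_pn_eq (x : ℝ) : (pn ε Rb x : ℝ) = 2 * (⌈pC1 ε Rb * Real.log x⌉₊ : ℝ) + 4 := by
  unfold pn pN
  push_cast
  ring

theorem par_pn_pos (x : ℝ) : (0 : ℝ) < pn ε Rb x := by
  rw [par_pn_eq]
  positivity

theorem pn_ge (hε : 0 < ε) : ∀ᶠ x : ℝ in atTop, 2 * pC1 ε Rb * Real.log x ≤ pn ε Rb x := by
  refine Eventually.of_forall (fun x => ?_)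
  rw [par_pn_eq]
  have h := Nat.le_ceil (pC1 ε Rb * Real.log x)
  linarith

theorem pn_le (hε : 0 < ε) : ∀ᶠ x : ℝ in atTop,
    (pn ε Rb x : ℝ) ≤ 2 * pC1 ε Rb * Real.log x + 6 := by
  filter_upwards [eventually_ge_atTop (1 : ℝ)] with x hx
  rw [par_pn_eq]
  have h0 : 0 ≤ pC1 ε Rb * Real.log x :=
    mul_nonneg (par_pC1_pos hε).le (Real.log_nonneg hx)
  have h := Nat.ceil_lt_add_one h0
  linarith

/-- squares of logarithms are small -/
theorem par_log_sq {c : ℝ} (hc : 0 < c) : ∀ᶠ x : ℝ in atTop, Real.log x ^ 2 ≤ c * x := by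
  have h := (Real.isLittleO_pow_log_id_atTop (n := 2)).bound hc
  filter_upwards [h, eventually_ge_atTop (0 : ℝ)] with x hx hx0
  have h1 : ‖Real.log x ^ 2‖ = Real.log x ^ 2 := by
    rw [Real.norm_eq_abs, abs_of_nonneg (sq_nonneg _)]
  have h2 : ‖id x‖ = x := by
    rw [Real.norm_eq_abs, id, abs_of_nonneg hx0]
  rw [h1, h2] at hx
  exact hx

/-- `n log (A x) = O((log x)²) = o(x)` -/
theorem master (hε : 0 < ε) (A : ℝ) (hA : 0 < A) {c : ℝ} (hc : 0 < c) :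
    ∀ᶠ x : ℝ in atTop, (A * x) ^ (pn ε Rb x) ≤ Real.exp (c * x) := by
  have hC := par_pC1_pos (Rb := Rb) hε
  have hK : 0 < c / (2 * (2 * pC1 ε Rb + 6)) := by positivity
  have hlog : ∀ᶠ x : ℝ in atTop, max 1 |Real.log A| ≤ Real.log x :=
    Real.tendsto_log_atTop.eventually_ge_atTop _
  filter_upwards [pn_le (Rb := Rb) hε, par_log_sq hK, hlog, eventually_gt_atTop (0 : ℝ)]
    with x h1 h2 h3 h4
  have h5 : 1 ≤ Real.log x := le_trans (le_max_left _ _) h3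
  have h6 : |Real.log A| ≤ Real.log x := le_trans (le_max_right _ _) h3
  have h6' := abs_le.mp h6
  have h7 : 0 < A * x := mul_pos hA h4
  have h8 : Real.log (A * x) = Real.log A + Real.log x := Real.log_mul hA.ne' h4.ne'
  have h9 : 0 ≤ Real.log (A * x) := by rw [h8]; linarith
  have h10 : Real.log (A * x) ≤ 2 * Real.log x := by rw [h8]; linarith
  have h11 : (pn ε Rb x : ℝ) ≤ (2 * pC1 ε Rb + 6) * Real.log x := by nlinarith
  have h12 : (pn ε Rb x : ℝ) * Real.log (A * x) ≤ c * x := by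
    have h13 : (pn ε Rb x : ℝ) * Real.log (A * x) ≤
        ((2 * pC1 ε Rb + 6) * Real.log x) * (2 * Real.log x) :=
      mul_le_mul h11 h10 h9 (by positivity)
    have h14 : ((2 * pC1 ε Rb + 6) * Real.log x) * (2 * Real.log x) =
        (2 * (2 * pC1 ε Rb + 6)) * Real.log x ^ 2 := by ring
    have h15 : (2 * (2 * pC1 ε Rb + 6)) * Real.log x ^ 2 ≤
        (2 * (2 * pC1 ε Rb + 6)) * (c / (2 * (2 * pC1 ε Rb + 6)) * x) :=
      mul_le_mul_of_nonneg_left h2 (by positivity)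
    have h16 : (2 * (2 * pC1 ε Rb + 6)) * (c / (2 * (2 * pC1 ε Rb + 6)) * x) = c * x := by
      field_simp
    linarith
  have h17 : (A * x) ^ (pn ε Rb x) = Real.exp ((pn ε Rb x : ℝ) * Real.log (A * x)) := by
    rw [Real.exp_nat_mul, Real.exp_log h7]
  rw [h17]
  exact Real.exp_le_exp.mpr h12

theorem pn_small (hε : 0 < ε) {c : ℝ} (hc : 0 < c) :
    ∀ᶠ x : ℝ in atTop, (pn ε Rb x : ℝ) ≤ c * x := by
  have hC := par_pC1_pos (Rb := Rb) hε
  have hK : 0 < c / (2 * pC1 ε Rb + 6) := by positivity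
  have hlog : ∀ᶠ x : ℝ in atTop, 1 ≤ Real.log x :=
    Real.tendsto_log_atTop.eventually_ge_atTop _
  filter_upwards [pn_le (Rb := Rb) hε, par_log_sq hK, hlog, eventually_gt_atTop (0 : ℝ)]
    with x h1 h2 h3 h4
  have h11 : (pn ε Rb x : ℝ) ≤ (2 * pC1 ε Rb + 6) * Real.log x ^ 2 := by
    have h5 : Real.log x ≤ Real.log x ^ 2 := by nlinarith
    have h6 : 2 * pC1 ε Rb * Real.log x ≤ 2 * pC1 ε Rb * Real.log x ^ 2 :=
      mul_le_mul_of_nonneg_left h5 (by positivity)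
    nlinarith
  have h15 : (2 * pC1 ε Rb + 6) * Real.log x ^ 2 ≤
      (2 * pC1 ε Rb + 6) * (c / (2 * pC1 ε Rb + 6) * x) :=
    mul_le_mul_of_nonneg_left h2 (by positivity)
  have h16 : (2 * pC1 ε Rb + 6) * (c / (2 * pC1 ε Rb + 6) * x) = c * x := by
    field_simp
  linarith

theorem pJ_bd (hε : 0 < ε) (hε1 : ε < 1) : ∀ᶠ x : ℝ in atTop,
    ((pJ ε x : ℝ) + 3) * Real.log (pq ε) ≤ (1 - ε / 8) * x ∧
    (1 - ε / 8) * x ≤ ((pJ ε x : ℝ) + 4) * Real.log (pq ε) := by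
  have hL := par_pq_log_pos hε
  have he : 0 < 1 - ε / 8 := by linarith
  filter_upwards [eventually_ge_atTop (3 * Real.log (pq ε) / (1 - ε / 8))] with x hx
  have h1 : 3 ≤ (1 - ε / 8) * x / Real.log (pq ε) := by
    rw [le_div_iff₀ hL]
    rw [div_le_iff₀ he] at hx
    linarith
  have h0 : 0 ≤ (1 - ε / 8) * x / Real.log (pq ε) := by linarith
  have h2 : 3 ≤ ⌊(1 - ε / 8) * x / Real.log (pq ε)⌋₊ := Nat.le_floor (by exact_mod_cast h1)
  have h3 : (pJ ε x : ℝ) = (⌊(1 - ε / 8) * x / Real.log (pq ε)⌋₊ : ℝ) - 3 := by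
    unfold pJ
    rw [Nat.cast_sub h2]
    norm_num
  have h4 := Nat.floor_le h0
  have h5 := Nat.lt_floor_add_one ((1 - ε / 8) * x / Real.log (pq ε))
  rw [le_div_iff₀ hL] at h4
  rw [div_lt_iff₀ hL] at h5
  constructor
  · have : (pJ ε x : ℝ) + 3 = (⌊(1 - ε / 8) * x / Real.log (pq ε)⌋₊ : ℝ) := by
      rw [h3]; ring
    rw [this]
    exact h4
  · have : (pJ ε x : ℝ) + 4 = (⌊(1 - ε / 8) * x / Real.log (pq ε)⌋₊ : ℝ) + 1 := by
      rw [h3]; ring
    rw [this]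
    exact h5.le

theorem pJ1_bd (hε : 0 < ε) (x : ℝ) (hx : 0 < x) :
    (2 * Rb + 1) * x ≤ 2 * (pn ε Rb x * pJ1 ε Rb x) * Real.log (pmu ε) ∧
    (pn ε Rb x : ℝ) * pJ1 ε Rb x ≤ pC2 ε Rb * x + pn ε Rb x := by
  have hm := par_pmu_log_pos hε
  have hn := par_pn_pos (ε := ε) (Rb := Rb) x
  have h0 : 0 ≤ (2 * (Rb : ℝ) + 1) * x / (2 * pn ε Rb x * Real.log (pmu ε)) := by positivity
  have h1 := Nat.le_ceil ((2 * (Rb : ℝ) + 1) * x / (2 * pn ε Rb x * Real.log (pmu ε)))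
  have h2 := Nat.ceil_lt_add_one h0
  have hd : 0 < 2 * (pn ε Rb x : ℝ) * Real.log (pmu ε) := by positivity
  constructor
  · rw [div_le_iff₀ hd] at h1
    unfold pJ1
    calc (2 * (Rb : ℝ) + 1) * x ≤ _ := h1
      _ = _ := by ring
  · unfold pJ1 pC2
    have h3 : (pn ε Rb x : ℝ) * (⌈(2 * (Rb : ℝ) + 1) * x / (2 * pn ε Rb x * Real.log (pmu ε))⌉₊ : ℝ)
        ≤ (pn ε Rb x : ℝ) * ((2 * (Rb : ℝ) + 1) * x / (2 * pn ε Rb x * Real.log (pmu ε)) + 1) :=
      mul_le_mul_of_nonneg_left h2.le hn.le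
    refine le_trans h3 (le_of_eq ?_)
    field_simp

/-- `q ^ (-s - 3 n)` is between `8 M` and `8 M q` -/
theorem ps_bd (hε : 0 < ε) (x : ℝ) (hx : 0 < x) :
    8 * pM ε Rb x ≤ pq ε ^ (-ps ε Rb x - 3 * pn ε Rb x) ∧
    pq ε ^ (-ps ε Rb x - 3 * pn ε Rb x) ≤ 8 * pM ε Rb x * pq ε := by
  have hL := par_pq_log_pos hε
  have hq : 0 < pq ε := by unfold pq; linarith
  have hM : 0 < 8 * pM ε Rb x := by
    unfold pM pmu
    positivity
  have he : (-ps ε Rb x - 3 * pn ε Rb x : ℤ) = ⌈Real.log (8 * pM ε Rb x) / Real.log (pq ε)⌉ := by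
    unfold ps
    have h1 : (3 * (pn ε Rb x : ℝ) + Real.log (8 * pM ε Rb x) / Real.log (pq ε)) =
        Real.log (8 * pM ε Rb x) / Real.log (pq ε) + ((3 * pn ε Rb x : ℤ) : ℝ) := by
      push_cast
      ring
    rw [h1, Int.ceil_add_intCast]
    ring
  rw [he]
  have h1 := Int.le_ceil (Real.log (8 * pM ε Rb x) / Real.log (pq ε))
  have h2 := Int.ceil_lt_add_one (Real.log (8 * pM ε Rb x) / Real.log (pq ε))
  have h3 : pq ε ^ (⌈Real.log (8 * pM ε Rb x) / Real.log (pq ε)⌉) =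
      Real.exp ((⌈Real.log (8 * pM ε Rb x) / Real.log (pq ε)⌉ : ℝ) * Real.log (pq ε)) := by
    rw [mul_comm (_ : ℝ) (Real.log (pq ε)), Real.exp_mul, Real.exp_log hq, Real.rpow_intCast]
  rw [h3]
  rw [div_le_iff₀ hL] at h1
  constructor
  · calc 8 * pM ε Rb x = Real.exp (Real.log (8 * pM ε Rb x)) := (Real.exp_log hM).symm
      _ ≤ _ := Real.exp_le_exp.mpr h1
  · calc Real.exp ((⌈Real.log (8 * pM ε Rb x) / Real.log (pq ε)⌉ : ℝ) * Real.log (pq ε))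
        ≤ Real.exp (Real.log (8 * pM ε Rb x) + Real.log (pq ε)) := by
          apply Real.exp_le_exp.mpr
          have h4 : (⌈Real.log (8 * pM ε Rb x) / Real.log (pq ε)⌉ : ℝ) * Real.log (pq ε) ≤
              (Real.log (8 * pM ε Rb x) / Real.log (pq ε) + 1) * Real.log (pq ε) :=
            mul_le_mul_of_nonneg_right h2.le hL.le
          have h5 : (Real.log (8 * pM ε Rb x) / Real.log (pq ε) + 1) * Real.log (pq ε) =
              Real.log (8 * pM ε Rb x) + Real.log (pq ε) := by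
            field_simp
          linarith
      _ = 8 * pM ε Rb x * pq ε := by
          rw [Real.exp_add, Real.exp_log hM, Real.exp_log hq]

end Pool.Agent.H989.SB
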