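import Pool.Agent.H989.SB.Par

/-!
The conditions for the moments.
-/

set_option linter.unusedSectionVars false
set_option linter.unusedVariables false

open Filter

namespace Pool.Agent.H989.SB

variable {ε : ℝ} {Rb : ℕ}

theorem ParA_pC2 (hε : 0 < ε) : 0 ≤ pC2 ε Rb := by
  unfold pC2 pmu
  have h1 : 0 < Real.log (1 + ε / 16) := Real.log_pos (by linarith)
  have h2 : (0 : ℝ) ≤ Rb := Nat.cast_nonneg _
  exact div_nonneg (by linarith) (by linarith)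

theorem ParA_ev (A B : ℝ) :
    ∀ᶠ x : ℝ in atTop, A ≤ x ∧ Real.log x ≤ x / 80 ∧ B * x ^ 9 ≤ Real.exp x := by
  have h1 : ∀ᶠ x : ℝ in atTop, Real.log x ≤ x / 80 := by
    have h := Real.isLittleO_log_id_atTop.bound (c := 1 / 80) (by norm_num)
    filter_upwards [h, eventually_ge_atTop 1] with x hx h1x
    rw [Real.norm_eq_abs, Real.norm_eq_abs, id, abs_of_nonneg (by linarith : (0 : ℝ) ≤ x)] at hx
    have := le_abs_self (Real.log x)
    linarith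
  have h2 : ∀ᶠ x : ℝ in atTop, B * x ^ 9 ≤ Real.exp x := by
    have hB : 0 < |B| + 1 := by positivity
    have h := (Real.isLittleO_pow_exp_atTop (n := 9)).bound (c := 1 / (|B| + 1)) (by positivity)
    filter_upwards [h, eventually_ge_atTop 1] with x hx h1x
    rw [Real.norm_eq_abs, Real.norm_eq_abs, abs_of_nonneg (by positivity : (0 : ℝ) ≤ x ^ 9),
      abs_of_pos (Real.exp_pos x), div_mul_eq_mul_div, one_mul, le_div_iff₀ hB] at hx
    have h3 : B * x ^ 9 ≤ |B| * x ^ 9 := mul_le_mul_of_nonneg_right (le_abs_self B) (by positivity)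
    have h4 : (0 : ℝ) ≤ x ^ 9 := by positivity
    linarith
  filter_upwards [eventually_ge_atTop A, h1, h2] with x a1 a2 a3
  exact ⟨a1, a2, a3⟩

/-- bound of `mm` -/
theorem ParA_mm {C Cs x σ E : ℝ} (hC : 0 < C) (hCs : 0 < Cs) (h2 : 2 ≤ x)
    (h3 : |Real.log Cs| + 1 ≤ x) (hE : E = Real.exp x) (hσ : E ≤ σ) (hσ2 : σ ≤ Cs * E * x) :
    0 ≤ mm C σ (pη x) ∧ mm C σ (pη x) ≤ 2 * C * x ^ 3 / E := by
  have hE0 : 0 < E := by rw [hE]; exact Real.exp_pos x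
  have hσ0 : 0 < σ := hE0.trans_le hσ
  have hx0 : 0 < x := by linarith
  have e1 : Real.log (σ / pη x) = Real.log σ + x ^ 3 := by
    unfold pη
    rw [Real.log_div hσ0.ne' (Real.exp_pos _).ne', Real.log_exp]
    ring
  have e2 : Real.log σ ≤ Real.log Cs + x + Real.log x := by
    have e3 : Real.log (Cs * E * x) = Real.log Cs + x + Real.log x := by
      rw [Real.log_mul (by positivity) hx0.ne', Real.log_mul hCs.ne' hE0.ne', hE, Real.log_exp]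
    rw [← e3]
    exact Real.log_le_log hσ0 hσ2
  have e4 : Real.log x ≤ x := by
    have := Real.log_le_sub_one_of_pos hx0
    linarith
  have e5 : 0 ≤ Real.log σ := by
    have : Real.log E ≤ Real.log σ := Real.log_le_log hE0 hσ
    rw [hE, Real.log_exp] at this
    linarith
  have e6 : 1 + (Real.log σ + x ^ 3) ≤ 2 * x ^ 3 := by
    have h4 := le_abs_self (Real.log Cs)
    have h5 : 4 * x ≤ x ^ 3 := by nlinarith [mul_nonneg hx0.le (sub_nonneg.2 h2)]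
    linarith
  unfold mm
  rw [e1]
  have e7 : 0 ≤ C * (1 + (Real.log σ + x ^ 3)) := by positivity
  refine ⟨div_nonneg e7 hσ0.le, ?_⟩
  exact div_le_div₀ (by positivity) (by
    calc C * (1 + (Real.log σ + x ^ 3)) ≤ C * (2 * x ^ 3) := mul_le_mul_of_nonneg_left e6 hC.le
      _ = 2 * C * x ^ 3 := by ring) hE0 hσ

/-- the numbers of the coordinates -/
theorem ParA_num {c x : ℝ} (hc : 0 ≤ c) (h2 : 2 ≤ x) (h3 : 2 * c + 4 ≤ x) :
    (((⌈c * x⌉₊ + ⌈c * x⌉₊ + 1 : ℕ) : ℝ) + (pR x : ℝ)) ≤ 4 * x ^ 2 ∧ 3 * x ^ 2 ≤ (pR x : ℝ) ∧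
    (pR x : ℝ) ≤ 4 * x ^ 2 ∧ (⌈c * x⌉₊ : ℝ) ≤ c * x + 1 := by
  have hx0 : 0 < x := by linarith
  have h4 : (⌈c * x⌉₊ : ℝ) ≤ c * x + 1 := (Nat.ceil_lt_add_one (by positivity)).le
  have h5 : (pR x : ℝ) ≤ 3 * x ^ 2 + 1 := (Nat.ceil_lt_add_one (by positivity)).le
  have h6 : 3 * x ^ 2 ≤ (pR x : ℝ) := Nat.le_ceil _
  have h7 : (2 * c + 4) * x ≤ x * x := mul_le_mul_of_nonneg_right h3 hx0.le
  have h8 : (0 : ℝ) ≤ (⌈c * x⌉₊ : ℝ) := Nat.cast_nonneg _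
  refine ⟨?_, h6, ?_, h4⟩
  · push_cast
    nlinarith
  · nlinarith [mul_nonneg hc hx0.le]

/-- lower bound for the root of the binomial coefficient -/
theorem ParA_choose {x E : ℝ} {d m R : ℕ} (hx : 2 ≤ x) (hE : E = Real.exp x) (hd : 2 * (d : ℝ) = E)
    (hE2 : 16 * x ^ 2 ≤ E) (hmR : m + R ≤ d)
    (hR0 : 0 < R) (hR : (R : ℝ) ≤ 4 * x ^ 2) (hS2 : (m : ℝ) + R ≤ 4 * x ^ 2) :
    Real.exp ((R : ℝ) / 2 * (x - Real.log 16 - 2 * Real.log x)) ≤ √(((d - m).choose R : ℕ) : ℝ) := by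
  have hx0 : 0 < x := by linarith
  have hE0 : 0 < E := by rw [hE]; exact Real.exp_pos x
  have hRr : (0 : ℝ) < R := by exact_mod_cast hR0
  have e1 : Real.exp (x - Real.log 16 - 2 * Real.log x) = E / (16 * x ^ 2) := by
    rw [Real.exp_sub, Real.exp_sub, ← hE, Real.exp_log (by norm_num), two_mul, Real.exp_add,
      Real.exp_log hx0, div_div]
    ring_nf
  refine Real.le_sqrt_of_sq_le ?_
  have e2 : Real.exp ((R : ℝ) / 2 * (x - Real.log 16 - 2 * Real.log x)) ^ 2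
      = (E / (16 * x ^ 2)) ^ R := by
    rw [← e1, ← Real.exp_nat_mul, ← Real.exp_nat_mul]
    congr 1
    push_cast
    ring
  rw [e2]
  refine le_trans ?_ (Nat.pow_le_choose R (d - m))
  have e3 : (0 : ℝ) < (R.factorial : ℝ) := by exact_mod_cast Nat.factorial_pos R
  rw [le_div_iff₀ e3]
  have e4 : ((R.factorial : ℕ) : ℝ) ≤ (R : ℝ) ^ R := by exact_mod_cast Nat.factorial_le_pow R
  have e5 : E / 4 ≤ ((d - m + 1 - R : ℕ) : ℝ) := by
    have : ((d - m + 1 - R : ℕ) : ℝ) = (d : ℝ) - m + 1 - R := by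
      rw [Nat.cast_sub (by omega), Nat.cast_add, Nat.cast_sub (by omega), Nat.cast_one]
    rw [this]
    linarith
  calc (E / (16 * x ^ 2)) ^ R * (R.factorial : ℝ) ≤ (E / (16 * x ^ 2)) ^ R * (R : ℝ) ^ R :=
        mul_le_mul_of_nonneg_left e4 (by positivity)
    _ = (E / (16 * x ^ 2) * R) ^ R := by rw [mul_pow]
    _ ≤ (E / 4) ^ R := by
        refine pow_le_pow_left₀ (by positivity) ?_ R
        calc E / (16 * x ^ 2) * R ≤ E / (16 * x ^ 2) * (4 * x ^ 2) :=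
              mul_le_mul_of_nonneg_left hR (by positivity)
          _ = E / 4 := by field_simp; ring
    _ ≤ _ := pow_le_pow_left₀ (by positivity) e5 R

/-- condition r4 -/
theorem ParA_r4 {c x E : ℝ} {d m a R : ℕ} (hc : 0 ≤ c) (hx : 2 ≤ x) (hx2 : 4 * (c + 7) ≤ x)
    (hl : Real.log x ≤ x / 80) (hE : E = Real.exp x) (hd : 2 * (d : ℝ) = E)
    (hE2 : 16 * x ^ 2 ≤ E) (hmR : m + R ≤ d) (hR1 : 3 * x ^ 2 ≤ (R : ℝ))
    (hR : (R : ℝ) ≤ 4 * x ^ 2) (hS2 : (m : ℝ) + R ≤ 4 * x ^ 2) (ha : (a : ℝ) ≤ c * x + 1) :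
    E * ((pη x)⁻¹ * (√(((d - m).choose R : ℕ) : ℝ))⁻¹ * (x ^ 4) ^ R) ≤ (x ^ 6 / E) ^ a := by
  have hx0 : 0 < x := by linarith
  have hE0 : 0 < E := by rw [hE]; exact Real.exp_pos x
  have hR0 : 0 < R := by
    have : (0 : ℝ) < R := lt_of_lt_of_le (by positivity) hR1
    exact_mod_cast this
  have hlx : 0 ≤ Real.log x := Real.log_nonneg (by linarith)
  have h1 := ParA_choose hx hE hd hE2 hmR hR0 hR hS2
  have h2 : (√(((d - m).choose R : ℕ) : ℝ))⁻¹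
      ≤ Real.exp (-((R : ℝ) / 2 * (x - Real.log 16 - 2 * Real.log x))) := by
    rw [Real.exp_neg]
    exact inv_anti₀ (Real.exp_pos _) h1
  have h3 : (x ^ 4) ^ R = Real.exp (R * (4 * Real.log x)) := by
    rw [Real.exp_nat_mul]
    congr 1
    rw [show (4 : ℝ) * Real.log x = ((4 : ℕ) : ℝ) * Real.log x by norm_num, Real.exp_nat_mul,
      Real.exp_log hx0]
  have h4 : (pη x)⁻¹ = Real.exp (x ^ 3) := by
    unfold pη
    rw [← Real.exp_neg, neg_neg]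
  have h5 : Real.exp (-(a * x)) ≤ (x ^ 6 / E) ^ a := by
    rw [← mul_neg, Real.exp_nat_mul]
    refine pow_le_pow_left₀ (Real.exp_pos _).le ?_ a
    rw [Real.exp_neg, ← hE, div_eq_mul_inv]
    have : (1 : ℝ) ≤ x ^ 6 := one_le_pow₀ (by linarith)
    have hEi : 0 ≤ E⁻¹ := (inv_pos.2 hE0).le
    nlinarith
  have hlog16 : Real.log 16 ≤ 3 := by
    have h6 : Real.log 16 = 4 * Real.log 2 := by
      rw [show (16 : ℝ) = 2 ^ 4 by norm_num, Real.log_pow]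
      norm_num
    have := Real.log_two_lt_d9
    rw [h6]
    linarith
  rw [h4, h3]
  refine le_trans ?_ h5
  calc E * (Real.exp (x ^ 3) * (√(((d - m).choose R : ℕ) : ℝ))⁻¹ * Real.exp (R * (4 * Real.log x)))
      ≤ E * (Real.exp (x ^ 3) * Real.exp (-((R : ℝ) / 2 * (x - Real.log 16 - 2 * Real.log x)))
        * Real.exp (R * (4 * Real.log x))) := by
        gcongr
    _ = Real.exp (x + (x ^ 3 + -((R : ℝ) / 2 * (x - Real.log 16 - 2 * Real.log x))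
        + R * (4 * Real.log x))) := by
        rw [Real.exp_add, Real.exp_add, Real.exp_add, hE]
    _ ≤ Real.exp (-(a * x)) := by
        refine Real.exp_le_exp.2 ?_
        have q1 : (a : ℝ) * x ≤ (c * x + 1) * x := mul_le_mul_of_nonneg_right ha hx0.le
        have q2 : (R : ℝ) * Real.log x ≤ 4 * x ^ 2 * (x / 80) :=
          mul_le_mul hR hl hlx (by positivity)
        have q3 : (R : ℝ) * Real.log 16 ≤ 4 * x ^ 2 * 3 :=
          mul_le_mul hR hlog16 (Real.log_nonneg (by norm_num)) (by positivity)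
        have q4 : 3 * x ^ 2 * x ≤ R * x := mul_le_mul_of_nonneg_right hR1 hx0.le
        have q5 : 4 * (c + 7) * (x ^ 2) ≤ x * x ^ 2 := mul_le_mul_of_nonneg_right hx2 (by positivity)
        have q6 : 2 * x ≤ x ^ 2 := by nlinarith
        nlinarith

/-- Proof.  `log (σ/η) = log σ + x³ ≤ 2 x³ - 1`, so `mm ≤ 2 C x³ / σ ≤ 2 C x³ / (2 d)`, `2 d = exp x`.
r2: `mm * 2 ((a+ρ+1) + R) (2d) / Θ ≤ 2 C x³ * 2 * 4 x² / x⁶`, `mm * 2 d * Θ/(2d) ≤ 2 C x⁹ / exp x`;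
r3: `mm * 2 d / β ≤ 2 C x³ / x⁴`; r5 similarly (`Ψ = 2`).
r4, logarithms: `choose m R ≥ ((m + 1 - R) / R)^R` (`Nat.pow_le_choose`, `R! ≤ R^R`), with
`m = d - (a+ρ+1)`, `m + 1 - R ≥ exp x / 4`, `3 x² ≤ R ≤ 4 x²`: the left side is at most
`exp (x + x³ + 4 R log x - R/2 (x - log 16 - 2 log x))`, the right side is at least `exp (-ρ x)`, and
`x + x³ + ρ x + 4 R log x + (R/2) (log 16 + 2 log x) ≤ (3/2) x³`. -/
theorem parA (hε : 0 < ε) (hε1 : ε < 1) {C Cs : ℝ} (hC : 0 < C) (hCs : 0 < Cs) :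
    ∀ᶠ x : ℝ in atTop, ∀ d : ℕ, 2 * (d : ℝ) = Real.exp x → ∀ σ : ℝ, 2 * (d : ℝ) ≤ σ →
      σ ≤ Cs * (2 * d) * x →
      ParM C d σ (pη x) (x ^ 6) 2 (x ^ 4) (pa ε Rb x) (pa ε Rb x) (pR x) := by
  have hp2 := ParA_pC2 (Rb := Rb) hε
  obtain ⟨c, hc⟩ : ∃ c, c = pC2 ε Rb + 1 := ⟨_, rfl⟩
  have hc0 : 0 ≤ c := by linarith
  filter_upwards [ParA_ev (4 * (c + 7) + 2 + (|Real.log Cs| + 1) + 64 * C) (256 * C + 64)]
    with x hx d hd σ hσ hσ2
  obtain ⟨hx, hl, hE9⟩ := hx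
  have hCsl := abs_nonneg (Real.log Cs)
  have h2 : 2 ≤ x := by linarith
  have hx0 : 0 < x := by linarith
  have h64 : 64 * C ≤ x := by linarith
  obtain ⟨E, hE⟩ : ∃ E, E = Real.exp x := ⟨_, rfl⟩
  rw [← hE] at hd hE9
  have hE0 : 0 < E := by rw [hE]; exact Real.exp_pos x
  rw [hd] at hσ hσ2
  obtain ⟨m0, m1⟩ := ParA_mm hC hCs h2 (by linarith) hE hσ hσ2
  obtain ⟨n1, n2, n3, n4⟩ := ParA_num hc0 h2 (by linarith)
  have hpa : pa ε Rb x = ⌈c * x⌉₊ := by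
    unfold pa
    rw [hc]
  rw [hpa]
  obtain ⟨a, ha⟩ : ∃ a, a = ⌈c * x⌉₊ := ⟨_, rfl⟩
  rw [← ha] at n1 n4 ⊢
  obtain ⟨S, hS⟩ : ∃ S : ℝ, S = ((a + a + 1 : ℕ) : ℝ) + (pR x : ℝ) := ⟨_, rfl⟩
  have hx1 : 1 ≤ x := by linarith
  have px29 : x ^ 2 ≤ x ^ 9 := pow_le_pow_right₀ hx1 (by norm_num)
  have px69 : x ^ 6 ≤ x ^ 9 := pow_le_pow_right₀ hx1 (by norm_num)
  have px59 : x ^ 5 ≤ x ^ 9 := pow_le_pow_right₀ hx1 (by norm_num)
  have hx9 : 0 < x ^ 9 := by positivity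
  have hE64 : 64 * x ^ 9 ≤ E := by nlinarith
  have hEC : 256 * C * x ^ 9 ≤ E := by nlinarith
  have hS0 : 0 ≤ S := by rw [hS]; positivity
  have r1 : pR x + (a + a + 1) ≤ d := by
    have : (((pR x + (a + a + 1) : ℕ)) : ℝ) ≤ d := by
      rw [Nat.cast_add]
      linarith
    exact_mod_cast this
  have hmS : mm C σ (pη x) * (2 * S * (x ^ 6 / E)⁻¹ + E * (x ^ 6 / E)) ≤ 1 / 2 := by
    have e1 : 0 ≤ 2 * S * (x ^ 6 / E)⁻¹ + E * (x ^ 6 / E) := by positivity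
    refine (mul_le_mul_of_nonneg_right m1 e1).trans ?_
    have e2 : 2 * C * x ^ 3 / E * (2 * S * (x ^ 6 / E)⁻¹ + E * (x ^ 6 / E))
        = 4 * C * S / x ^ 3 + 2 * C * x ^ 9 / E := by
      field_simp
      ring
    rw [e2]
    have e3 : 4 * C * S / x ^ 3 ≤ 1 / 4 := by
      rw [div_le_iff₀ (by positivity)]
      have : 4 * C * S ≤ 4 * C * (4 * x ^ 2) :=
        mul_le_mul_of_nonneg_left (by rw [hS]; exact n1) (by positivity)
      have h6 : 64 * C * x ^ 2 ≤ x * x ^ 2 := mul_le_mul_of_nonneg_right h64 (by positivity)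
      nlinarith
    have e4 : 2 * C * x ^ 9 / E ≤ 1 / 4 := by
      rw [div_le_iff₀ hE0]
      nlinarith
    linarith
  have hdK : (2 : ℝ) * d = E := hd
  refine ⟨?_, Real.exp_pos _, ?_, by rw [hdK]; exact hσ, hC, r1, one_le_pow₀ hx1, ?_, by norm_num,
    one_le_pow₀ hx1, ?_, ?_, ?_, ?_⟩
  · have : (0 : ℝ) < d := by linarith
    exact_mod_cast this
  · unfold pη
    refine Real.exp_le_one_iff.2 ?_
    have : 0 ≤ x ^ 3 := by positivity
    linarith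
  · rw [hdK]
    linarith
  · rw [hdK, ← hS]
    exact hmS
  · rw [hdK]
    have e1 : 2 * (pR x : ℝ) * x ^ 4 + 2 * (((a + a + 1 : ℕ) : ℝ) + (pR x : ℝ)) + E * (x ^ 4)⁻¹
        ≤ 8 * x ^ 6 + 8 * x ^ 2 + E * (x ^ 4)⁻¹ := by
      have : 2 * (pR x : ℝ) * x ^ 4 ≤ 2 * (4 * x ^ 2) * x ^ 4 := by gcongr
      nlinarith
    have e0 : 0 ≤ 8 * x ^ 6 + 8 * x ^ 2 + E * (x ^ 4)⁻¹ := by positivity
    refine (mul_le_mul_of_nonneg_left e1 m0).trans ((mul_le_mul_of_nonneg_right m1 e0).trans ?_)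
    have e2 : 2 * C * x ^ 3 / E * (8 * x ^ 6 + 8 * x ^ 2 + E * (x ^ 4)⁻¹)
        = (16 * C * x ^ 9 + 16 * C * x ^ 5) / E + 2 * C / x := by
      field_simp
      ring
    rw [e2]
    have e3 : (16 * C * x ^ 9 + 16 * C * x ^ 5) / E ≤ 1 / 4 := by
      rw [div_le_iff₀ hE0]
      nlinarith
    have e4 : 2 * C / x ≤ 1 / 4 := by
      rw [div_le_iff₀ hx0]
      linarith
    linarith
  · rw [hdK]
    exact ParA_r4 hc0 h2 (by linarith) hl hE hdK (by linarith) (by omega) n2 n3 n1 n4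
  · rw [hdK]
    have e1 : 2 * (a : ℝ) * (x ^ 6 / E)⁻¹ + E * (x ^ 6 / E)
        ≤ 2 * S * (x ^ 6 / E)⁻¹ + E * (x ^ 6 / E) := by
      have h6 : (a : ℝ) ≤ S := by
        rw [hS]
        push_cast
        have h7 : (0 : ℝ) ≤ a := Nat.cast_nonneg _
        have h8 : (0 : ℝ) ≤ (pR x : ℝ) := Nat.cast_nonneg _
        linarith
      gcongr
    have := (mul_le_mul_of_nonneg_left e1 m0).trans hmS
    linarith

end Pool.Agent.H989.SB
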