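import Pool.Agent.H989.SB.Par

/-!
The conditions for the windows.
-/

set_option linter.unusedSectionVars false
set_option linter.unusedVariables false

open Filter

namespace Pool.Agent.H989.SB

variable {ε : ℝ} {Rb : ℕ}

/-- the conditions for fixed values -/
theorem ParB1_fin {x : ℝ} (hε : 0 < ε) (hε1 : ε < 1) {n J : ℕ} {s : ℤ} {M : ℝ} (hn : 4 ≤ n)
    (hL : (2 : ℝ) ^ (10 * n) ≤ Real.exp (ε / 64 * x)) (hx : 5 ≤ x) (hnx : (n : ℝ) ≤ x)
    (hM : M ≤ 2 ^ n) (hM2 : 2 ≤ M) (hw : 256 / ε ≤ Real.exp (ε / 64 * x))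
    (hlog : Real.exp (-x) ≤ ε / 64)
    (hJ1 : ((J : ℝ) + 3) * Real.log (pq ε) ≤ (1 - ε / 8) * x)
    (hJ2 : (1 - ε / 8) * x ≤ ((J : ℝ) + 4) * Real.log (pq ε))
    (hs1 : 8 * M ≤ pq ε ^ (-s - 3 * n)) (hs2 : pq ε ^ (-s - 3 * n) ≤ 8 * M * pq ε)
    (z : ℂ) (hz : z.im = pη x) :
    WinP z (Real.exp x) (pθ ε x) (pW ε x) (pq ε) M (pY x) n J ((J / 2 : ℕ) : ℤ) s := by
  obtain ⟨w, hwd⟩ : ∃ w, w = Real.exp (ε / 64 * x) := ⟨_, rfl⟩
  obtain ⟨K, hKd⟩ : ∃ K, K = Real.exp x := ⟨_, rfl⟩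
  obtain ⟨L, hLd⟩ : ∃ L : ℝ, L = 2 ^ n := ⟨_, rfl⟩
  obtain ⟨q, hqd⟩ : ∃ q, q = pq ε := ⟨_, rfl⟩
  have hW : pW ε x = w := by rw [hwd]; rfl
  have hw0 : 0 < w := by rw [hwd]; exact Real.exp_pos _
  have hK0 : 0 < K := by rw [hKd]; exact Real.exp_pos _
  have hθ : pθ ε x = (w ^ 8)⁻¹ := by
    rw [hwd, ← Real.exp_nat_mul, ← Real.exp_neg]
    unfold pθ
    congr 1
    push_cast
    ring
  have hKw : w ^ 64 ≤ K := by
    rw [hwd, hKd, ← Real.exp_nat_mul]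
    refine Real.exp_le_exp.2 ?_
    push_cast
    have h0 : ε * x ≤ 1 * x := mul_le_mul_of_nonneg_right hε1.le (by linarith)
    linarith
  have hL16 : 16 ≤ L := by
    rw [hLd]
    calc (16 : ℝ) = 2 ^ 4 := by norm_num
      _ ≤ 2 ^ n := pow_le_pow_right₀ (by norm_num) hn
  have hLw : L ^ 10 ≤ w := by
    rw [hLd, hwd, ← pow_mul, mul_comm n 10]
    exact hL
  have hL1 : 1 ≤ L := by linarith
  have hnL : (n : ℝ) ≤ L := by
    rw [hLd]
    exact_mod_cast Nat.lt_two_pow_self.le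
  have hn1 : (1 : ℝ) ≤ n := by
    have : 1 ≤ n := by omega
    exact_mod_cast this
  have hq1 : 1 < q := by rw [hqd]; unfold pq; linarith
  have hq2 : q ≤ 2 := by rw [hqd]; unfold pq; linarith
  have hq0 : 0 < q := by linarith
  have hqe : q - 1 = ε / 64 := by rw [hqd]; unfold pq; ring
  have hqn : q ^ n ≤ L := by
    rw [hLd]
    exact pow_le_pow_left₀ hq0.le hq2 n
  have hw16 : (16 : ℝ) ^ 10 ≤ w := (pow_le_pow_left₀ (by norm_num) hL16 10).trans hLw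
  have hw1 : 1 ≤ w := le_trans (by norm_num) hw16
  have hwbig : (1000000 : ℝ) ≤ w := le_trans (by norm_num) hw16
  have hLk : ∀ k : ℕ, k ≤ 10 → L ^ k ≤ w := fun k hk =>
    (pow_le_pow_right₀ hL1 hk).trans hLw
  have hnw : (n : ℝ) ≤ w := hnL.trans (by simpa using hLk 1 (by norm_num))
  have hn3w : (n : ℝ) ^ 3 ≤ w :=
    (pow_le_pow_left₀ (by positivity) hnL 3).trans (hLk 3 (by norm_num))
  have hwp : ∀ a b : ℕ, a ≤ b → w ^ a ≤ w ^ b := fun a b h => pow_le_pow_right₀ hw1 h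
  have hKt : K * (w ^ 8)⁻¹ = Real.exp ((1 - ε / 8) * x) := by
    rw [hKd, hwd, ← Real.exp_nat_mul, ← Real.exp_neg, ← Real.exp_add]
    congr 1
    push_cast
    ring
  have hKt0 : 0 < K * (w ^ 8)⁻¹ := by positivity
  have hlq : 0 < Real.log q := Real.log_pos hq1
  have hqpow : ∀ k : ℕ, q ^ k = Real.exp (k * Real.log q) := fun k => by
    rw [Real.exp_nat_mul, Real.exp_log hq0]
  rw [← hqd] at hJ1 hJ2 hs1 hs2
  have hJ3 : q ^ (J + 3) ≤ K * (w ^ 8)⁻¹ := by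
    rw [hqpow, hKt]
    refine Real.exp_le_exp.2 ?_
    push_cast
    exact hJ1
  have hJ2' : q ^ (J + 2) ≤ K * (w ^ 8)⁻¹ :=
    (pow_le_pow_right₀ hq1.le (by omega)).trans hJ3
  have hJ1' : q ^ (J + 1) ≤ K * (w ^ 8)⁻¹ :=
    (pow_le_pow_right₀ hq1.le (by omega)).trans hJ3
  have hzJ : q ^ (-(J : ℤ) - 1) = (q ^ (J + 1))⁻¹ := by
    have : (-(J : ℤ) - 1) = -((J + 1 : ℕ) : ℤ) := by push_cast; ring
    rw [this, zpow_neg, zpow_natCast]
  have hlo : (K * (w ^ 8)⁻¹)⁻¹ ≤ q ^ (-(J : ℤ) - 1) := by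
    rw [hzJ]
    exact inv_anti₀ (by positivity) hJ1'
  -- the basic smallness
  have hwK : w / K ≤ 1 / 1000 := by
    rw [div_le_iff₀ hK0]
    have h1 : w ^ 2 ≤ K := (hwp 2 64 (by norm_num)).trans hKw
    have h2 : 1000000 * w ≤ w ^ 2 := by
      rw [sq]
      exact mul_le_mul_of_nonneg_right hwbig hw0.le
    linarith
  have b1 : 2 * n * w / K ≤ 1 / 1000 := by
    rw [div_le_iff₀ hK0]
    have h1 : w ^ 3 ≤ K := (hwp 3 64 (by norm_num)).trans hKw
    have h2 : 2 * n * w ≤ 2 * w * w := by gcongr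
    have h3 : 1000000 * (w * w) ≤ w ^ 3 := by
      have : w ^ 3 = w * (w * w) := by ring
      rw [this]
      exact mul_le_mul_of_nonneg_right hwbig (by positivity)
    have h4 : 0 < w * w := by positivity
    linarith
  have b2 : 24 * (2 * n * w) ^ 2 * (w ^ 8)⁻¹ ≤ 1 / 1000 := by
    rw [← div_eq_mul_inv, div_le_iff₀ (by positivity)]
    have h1 : (2 * n * w) ^ 2 ≤ (2 * w * w) ^ 2 := by gcongr
    have h2 : 1000000 * w ^ 4 ≤ w ^ 5 := by
      have : w ^ 5 = w * w ^ 4 := by ring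
      rw [this]
      exact mul_le_mul_of_nonneg_right hwbig (by positivity)
    have h3 := hwp 5 8 (by norm_num)
    have h4 : (2 * w * w) ^ 2 = 4 * w ^ 4 := by ring
    have h5 : 0 < w ^ 4 := by positivity
    linarith
  have b3 : 2 * n * (24 * (2 * n * w) ^ 2 * (w ^ 8)⁻¹) ≤ 1 / 1000 := by
    have e : 2 * n * (24 * (2 * n * w) ^ 2 * (w ^ 8)⁻¹) = 192 * (n : ℝ) ^ 3 * w ^ 2 / w ^ 8 := by
      field_simp
      ring
    rw [e, div_le_iff₀ (by positivity)]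
    have h1 : 192 * (n : ℝ) ^ 3 * w ^ 2 ≤ 192 * w * w ^ 2 := by gcongr
    have h2 : 1000000 * w ^ 3 ≤ w ^ 4 := by
      have : w ^ 4 = w * w ^ 3 := by ring
      rw [this]
      exact mul_le_mul_of_nonneg_right hwbig (by positivity)
    have h3 := hwp 4 8 (by norm_num)
    have h4 : 192 * w * w ^ 2 = 192 * w ^ 3 := by ring
    have h5 : 0 < w ^ 3 := by positivity
    linarith
  have b4 : 24 * w ^ 2 * (w ^ 8)⁻¹ ≤ 24 * (2 * n * w) ^ 2 * (w ^ 8)⁻¹ := by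
    have h1 : w ≤ 2 * n * w := by
      calc w = 1 * w := (one_mul w).symm
        _ ≤ 2 * n * w := mul_le_mul_of_nonneg_right (by linarith) hw0.le
    have h2 : w ^ 2 ≤ (2 * n * w) ^ 2 := pow_le_pow_left₀ hw0.le h1 2
    have h3 : 0 < (w ^ 8)⁻¹ := by positivity
    gcongr
  have hK4 : 4 ≤ K := by
    have := hwp 1 64 (by norm_num)
    rw [pow_one] at this
    linarith
  rw [hW, hθ, ← hKd, ← hqd]
  refine ⟨⟨hK4, by positivity, hw1, by linarith⟩, ⟨hK4, by positivity, ?_, ?_⟩,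
    by linarith, by omega, hq1, hq2, hlo, ?_, ?_, hM2, hs1, ?_, ?_, ?_, ?_, ?_⟩
  · calc (1 : ℝ) = 1 * 1 := by norm_num
      _ ≤ 2 * n * w := mul_le_mul (by linarith) hw1 (by norm_num) (by linarith)
  · linarith
  · -- hi
    have : ((J : ℤ) + 2) = ((J + 2 : ℕ) : ℤ) := by push_cast; ring
    rw [this, zpow_natCast]
    exact hJ2'
  · -- dl
    unfold dl
    have e : (n : ℝ) * (w / K + 24 * w ^ 2 * (w ^ 8)⁻¹)
        = (2 * n * w / K) / 2 + (n * (24 * w ^ 2 * (w ^ 8)⁻¹)) := by ring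
    rw [e]
    have h1 : (n : ℝ) * (24 * w ^ 2 * (w ^ 8)⁻¹) ≤ n * (24 * (2 * n * w) ^ 2 * (w ^ 8)⁻¹) :=
      mul_le_mul_of_nonneg_left b4 (by positivity)
    linarith
  · -- hh
    have h1 : ((J : ℝ) - 1) / 2 ≤ ((J / 2 : ℕ) : ℝ) := by
      have h2 : J ≤ 2 * (J / 2) + 1 := by omega
      have h3 : (J : ℝ) ≤ 2 * ((J / 2 : ℕ) : ℝ) + 1 := by exact_mod_cast h2
      linarith
    have h4 : w ^ 28 ≤ q ^ (J / 2) * q ^ 3 := by
      rw [← pow_add, hqpow, hwd, ← Real.exp_nat_mul]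
      refine Real.exp_le_exp.2 ?_
      push_cast
      have h5 : ((J : ℝ) + 4) / 2 * Real.log q ≤ (((J / 2 : ℕ) : ℝ) + 3) * Real.log q := by
        refine mul_le_mul_of_nonneg_right ?_ hlq.le
        linarith
      have h6 : (28 : ℝ) * (ε / 64 * x) ≤ (1 - ε / 8) * x / 2 := by
        have h0 : ε * x ≤ 1 * x := mul_le_mul_of_nonneg_right hε1.le (by linarith)
        linarith
      linarith
    have h7 : q ^ 3 ≤ 8 := by
      calc q ^ 3 ≤ 2 ^ 3 := pow_le_pow_left₀ hq0.le hq2 3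
        _ = 8 := by norm_num
    have h8 : q ^ ((n : ℤ) - ((J / 2 : ℕ) : ℤ)) = q ^ n / q ^ (J / 2) := by
      rw [zpow_sub₀ hq0.ne', zpow_natCast, zpow_natCast]
    rw [h8]
    have hqJ : 0 < q ^ (J / 2) := by positivity
    have e : 6 * n * w * (q ^ n / q ^ (J / 2)) = 6 * n * w * q ^ n / q ^ (J / 2) := by ring
    rw [e, div_le_iff₀ hqJ, one_mul]
    have h9 : 6 * n * w * q ^ n ≤ 6 * w * w := by
      have : (n : ℝ) * q ^ n ≤ w := by
        calc (n : ℝ) * q ^ n ≤ L * L := by gcongr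
          _ = L ^ 2 := by ring
          _ ≤ w := hLk 2 (by norm_num)
      calc 6 * n * w * q ^ n = 6 * w * (n * q ^ n) := by ring
        _ ≤ 6 * w * w := by gcongr
    have h10 : 48 * w ^ 2 ≤ w ^ 28 := by
      have a1 := hwp 3 28 (by norm_num)
      have a2 : w ^ 3 = w * w ^ 2 := by ring
      have a3 : 1000000 * w ^ 2 ≤ w * w ^ 2 := mul_le_mul_of_nonneg_right hwbig (by positivity)
      have a4 : 0 < w ^ 2 := by positivity
      linarith
    have h11 : q ^ (J / 2) * q ^ 3 ≤ q ^ (J / 2) * 8 := mul_le_mul_of_nonneg_left h7 hqJ.le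
    have h12 : 6 * w * w = 6 * w ^ 2 := by ring
    linarith
  · -- hM
    have h1 : q ^ ((n : ℤ) - s) = q ^ n * (q ^ (-s - 3 * n) * q ^ (3 * n)) := by
      rw [← zpow_natCast, ← zpow_natCast, ← zpow_add₀ hq0.ne', ← zpow_add₀ hq0.ne']
      congr 1
      push_cast
      ring
    rw [h1]
    have h2 : q ^ (3 * n) ≤ L ^ 3 := by
      rw [mul_comm, pow_mul]
      exact pow_le_pow_left₀ (by positivity) hqn 3
    have hM0 : 0 < M := by linarith
    have h3 : q ^ n * (q ^ (-s - 3 * (n : ℤ)) * q ^ (3 * n)) ≤ L * (8 * L * 2 * L ^ 3) := by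
      have h4 : q ^ (-s - 3 * (n : ℤ)) ≤ 8 * L * 2 := by
        refine hs2.trans ?_
        have : M ≤ L := by rw [hLd]; exact hM
        gcongr
      gcongr
    calc 6 * n * w * (q ^ n * (q ^ (-s - 3 * (n : ℤ)) * q ^ (3 * n)))
        ≤ 6 * L * w * (L * (8 * L * 2 * L ^ 3)) := by gcongr
      _ = 96 * w * L ^ 6 := by ring
      _ ≤ w * w * w := by
          have := hLk 6 (by norm_num)
          have : 96 * w ≤ w * w := mul_le_mul_of_nonneg_right (by linarith) hw0.le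
          gcongr
      _ = w ^ 3 := by ring
      _ ≤ K := (hwp 3 64 (by norm_num)).trans hKw
  · -- hKW
    rw [← div_eq_mul_inv, le_div_iff₀ (by positivity)]
    calc w * w ^ 8 = w ^ 9 := by ring
      _ ≤ K := (hwp 9 64 (by norm_num)).trans hKw
  · -- him
    rw [hqe]
    refine le_trans ?_ (mul_le_mul_of_nonneg_left hlo (by positivity))
    rw [hKt, ← Real.exp_neg, hz, hKd, ← Real.exp_nat_mul]
    unfold pη pY
    rw [← Real.exp_add, ← Real.exp_add]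
    refine le_trans ?_ (mul_le_mul_of_nonneg_right hlog (Real.exp_pos _).le)
    rw [← Real.exp_add]
    refine Real.exp_le_exp.2 ?_
    push_cast
    have h1 : 2 * (n : ℝ) * x ≤ 2 * x * x := by gcongr
    have h2 : 2 * x * x + 2 * x ≤ x ^ 3 / 2 := by
      have a1 : 0 ≤ (x - 5) * x := mul_nonneg (by linarith) (by linarith)
      have a2 : 0 ≤ (x - 5) * x * x := mul_nonneg a1 (by linarith)
      have a3 : (x - 5) * x = x * x - 5 * x := by ring
      have a4 : (x - 5) * x * x = x ^ 3 - 5 * (x * x) := by ring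
      linarith
    have h3 : 0 ≤ ε / 8 * x := by positivity
    have h4 : (1 - ε / 8) * x = x - ε / 8 * x := by ring
    rw [h4]
    have h5 : (2 * (n : ℝ)) * x = 2 * (n : ℝ) * x := rfl
    linarith
  · -- hp
    rw [hqe]
    refine le_trans ?_ (mul_le_mul_of_nonneg_left hlo (by positivity))
    rw [mul_inv, inv_inv, div_le_iff₀ hK0]
    have e : ε / 64 * (K⁻¹ * w ^ 8) * K = ε / 64 * w ^ 8 := by
      field_simp
    rw [e]
    have h1 : 256 ≤ ε * w := by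
      rw [hwd]
      rwa [div_le_iff₀' hε] at hw
    have h2 : 4 * (n : ℝ) * w ^ 2 ≤ 4 * w * w ^ 2 := by gcongr
    have h3 : 256 * w ^ 3 ≤ ε * w * w ^ 7 := by
      have h4 := hwp 3 7 (by norm_num)
      have : 0 < w ^ 3 := by positivity
      calc 256 * w ^ 3 ≤ 256 * w ^ 7 := by linarith
        _ ≤ ε * w * w ^ 7 := by gcongr
    have h4 : ε * w * w ^ 7 = ε * w ^ 8 := by ring
    rw [h4] at h3
    have h5 : 4 * w * w ^ 2 = 4 * w ^ 3 := by ring
    linarith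

theorem ParB1_C2 (hε : 0 < ε) (Rb : ℕ) : 0 < pC2 ε Rb := by
  unfold pC2
  have h1 : 0 < Real.log (pmu ε) := Real.log_pos (by unfold pmu; linarith)
  positivity

theorem ParB1_C1 (hε : 0 < ε) (Rb : ℕ) : 0 < pC1 ε Rb := by
  unfold pC1
  have h1 := ParB1_C2 hε Rb
  have h2 : 0 < Real.log (1 + ε / 8) := Real.log_pos (by linarith)
  positivity

theorem ParB1_pn (ε : ℝ) (Rb : ℕ) (x : ℝ) : 4 ≤ pn ε Rb x := by
  unfold pn pN
  omega

/-- Proof. `K = exp x`, `K θ = exp ((1 - ε/8) x)`, `W = exp (ε/64 x)`; `q^n`, `M`, `n` are at most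
`exp (c x)` for every `c > 0` (`master`, `pn_small`; note `q ≤ 2`, `M ≤ 2^n`), `q^(-s) ≤ 8 M q^(3n+1)`
(`ps_bd`), `q^(J+2) ≤ K θ` and `q^(h₀) ≥ exp ((1-ε/8) x / 2) / q^4` (`pJ_bd`), `q^(-J-1) ≥ (K θ)⁻¹`.
him: `exp (-x³ + 2 n x + x³/2) ≤ (q - 1) exp (-(1-ε/8) x)`. -/
theorem parB1 (hε : 0 < ε) (hε1 : ε < 1) :
    ∀ᶠ x : ℝ in atTop, ∀ z : ℂ, z.im = pη x →
      WinP z (Real.exp x) (pθ ε x) (pW ε x) (pq ε) (pM ε Rb x) (pY x) (pn ε Rb x) (pJ ε x)
        (ph ε x) (ps ε Rb x) := by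
  have e1 := master (Rb := Rb) hε 1 one_pos (c := ε / 64) (by positivity)
  have e2 := pn_small (Rb := Rb) hε (c := 1) one_pos
  have e3 := pJ_bd hε hε1
  have e4 := pn_ge (Rb := Rb) hε
  have e5 : ∀ᶠ x : ℝ in atTop, 16 / ε ≤ 2 * pC1 ε Rb * Real.log x :=
    (Real.tendsto_log_atTop.const_mul_atTop
      (by have := ParB1_C1 hε Rb; positivity)).eventually_ge_atTop _
  have e6 : ∀ᶠ x : ℝ in atTop, 256 / ε ≤ Real.exp (ε / 64 * x) :=
    (Real.tendsto_exp_atTop.comp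
      (tendsto_id.const_mul_atTop (by positivity : 0 < ε / 64))).eventually_ge_atTop _
  have e7 : ∀ᶠ x : ℝ in atTop, Real.exp (-x) ≤ ε / 64 := by
    have h1 : Tendsto (fun x : ℝ => Real.exp (-x)) atTop (nhds 0) := Real.tendsto_exp_neg_atTop_nhds_zero
    exact (h1.eventually_lt_const (by positivity : 0 < ε / 64)).mono fun x hx => hx.le
  filter_upwards [e1, e2, e3, e4, e5, e6, e7, eventually_ge_atTop (1024 : ℝ)] with
    x h1 h2 h3 h4 h5 h6 h7 h8 z hz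
  have hx0 : 0 < x := by linarith
  have h9 := ps_bd (ε := ε) (Rb := Rb) hε x hx0
  have hmu : pmu ε ≤ 2 := by unfold pmu; linarith
  have hmu0 : 0 ≤ pmu ε := by unfold pmu; linarith
  refine ParB1_fin hε hε1 (ParB1_pn ε Rb x) ?_ (by linarith) (by linarith) ?_ ?_ h6 h7 h3.1 h3.2
    h9.1 h9.2 z hz
  · refine le_trans ?_ h1
    rw [pow_mul, one_mul]
    refine pow_le_pow_left₀ (by norm_num) ?_ _
    norm_num
    linarith
  · unfold pM
    exact pow_le_pow_left₀ hmu0 hmu _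
  · unfold pM pmu
    have h10 : 16 / ε ≤ (pn ε Rb x : ℝ) := h5.trans h4
    have h11 : 1 + (pn ε Rb x : ℝ) * (ε / 16) ≤ (1 + ε / 16) ^ (pn ε Rb x) :=
      one_add_mul_le_pow (by linarith) _
    have h12 : 1 ≤ (pn ε Rb x : ℝ) * (ε / 16) := by
      rw [div_le_iff₀ hε] at h10
      linarith
    linarith

end Pool.Agent.H989.SB
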