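import Pool.Agent.H989.SB.Par

/-!
The small errors.
-/

set_option linter.unusedSectionVars false
set_option linter.unusedVariables false

open Filter

namespace Pool.Agent.H989.SB

variable {ε : ℝ} {Rb : ℕ}

theorem ParC1_poly (A : ℝ) (k : ℕ) {c : ℝ} (hc : 0 < c) :
    ∀ᶠ x : ℝ in atTop, A * x ^ k ≤ Real.exp (c * x) := by
  have h := (isLittleO_pow_exp_pos_mul_atTop (k := k) hc).def (c := 1 / (|A| + 1)) (by positivity)
  filter_upwards [h, eventually_ge_atTop (1 : ℝ)] with x hx h1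
  have hA : 0 < |A| + 1 := by positivity
  rw [Real.norm_of_nonneg (by positivity), Real.norm_of_nonneg (by positivity),
    one_div, inv_mul_eq_div, le_div_iff₀ hA] at hx
  have h2 : 0 ≤ x ^ k := by positivity
  have h3 : A ≤ |A| + 1 := by linarith [le_abs_self A]
  nlinarith

theorem ParC1_C2 (hε : 0 < ε) : 0 < pC2 ε Rb := by
  unfold pC2 pmu
  have : 0 < Real.log (1 + ε / 16) := Real.log_pos (by linarith)
  positivity

theorem ParC1_C1 (hε : 0 < ε) : 3 * pC2 ε Rb + 4 ≤ pC1 ε Rb := by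
  unfold pC1
  have : 0 < Real.log (1 + ε / 8) := Real.log_pos (by linarith)
  have h2 : 0 < 4 / Real.log (1 + ε / 8) := by positivity
  linarith

theorem ParC1_n1 (x : ℝ) : 1 ≤ pn ε Rb x := by
  unfold pn
  omega

theorem ParC1_pa (hε : 0 < ε) : ∀ᶠ x : ℝ in atTop,
    (pa ε Rb x : ℝ) ≤ (pC2 ε Rb + 2) * x := by
  have hC := ParC1_C2 (Rb := Rb) hε
  filter_upwards [eventually_ge_atTop (1 : ℝ)] with x hx
  unfold pa
  have h0 : 0 ≤ (pC2 ε Rb + 1) * x := by positivity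
  have := (Nat.ceil_lt_add_one h0).le
  nlinarith

/-- Proof. `Bn = ρ a Ψ (4 n Θ)^(2n+4)` is at most `exp (c x)` for each `c > 0` (`master`:
`4 n x⁶ ≤ (A x)^7`), `W = exp (ε/64 x)`, `(2n)^(n+1)` similarly, `θ = exp (-ε/8 x)`. -/
theorem pT_small (hε : 0 < ε) (hε1 : ε < 1) {G : ℝ} (hG : 0 < G) :
    ∀ᶠ x : ℝ in atTop, pT G (Real.exp x) (x ^ 6) 2 (pθ ε x) (pW ε x) (pn ε Rb x) (pa ε Rb x)
      (pa ε Rb x) ≤ Real.exp (-(ε / 128 * x)) := by
  have hC := ParC1_C2 (Rb := Rb) hε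
  filter_upwards [eventually_ge_atTop (1 : ℝ), ParC1_pa (Rb := Rb) hε,
    pn_small (Rb := Rb) hε one_pos,
    master (Rb := Rb) hε 4 (by norm_num) (c := ε / 512 / 42) (by positivity),
    ParC1_poly (80 * (pC2 ε Rb + 2) ^ 2) 2 (c := ε / 512) (by positivity),
    master (Rb := Rb) hε 2 (by norm_num) (c := ε / 64) (by positivity),
    ParC1_poly (10 * G) 0 (c := ε / 64) (by positivity),
    ParC1_poly 2 0 (c := ε / 256) (by positivity)] with x hx ha hn hm h80 hm2 h10 h2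
  have hx0 : 0 < x := by linarith
  have hn1 : 1 ≤ pn ε Rb x := ParC1_n1 x
  have hn1' : (1 : ℝ) ≤ (pn ε Rb x : ℝ) := by exact_mod_cast hn1
  unfold pT Bn pθ pW
  have ha0 : (0 : ℝ) ≤ (pa ε Rb x : ℝ) := Nat.cast_nonneg _
  generalize pn ε Rb x = n at hn hm hm2 hn1 hn1' ⊢
  generalize (pa ε Rb x : ℝ) = a at ha ha0 ⊢
  rw [one_mul] at hn
  -- the big power
  have e1 : (4 * (n : ℝ) * x ^ 6) ^ (2 * n + 4) ≤ Real.exp (ε / 512 * x) := by
    have f1 : 4 * (n : ℝ) * x ^ 6 ≤ (4 * x) ^ 7 := by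
      have : 4 * (n : ℝ) * x ^ 6 ≤ 4 * x * x ^ 6 := by gcongr
      have h7 : (4 * x) ^ 7 = 16384 * (x * x ^ 6) := by ring
      have : 0 ≤ x * x ^ 6 := by positivity
      nlinarith
    calc (4 * (n : ℝ) * x ^ 6) ^ (2 * n + 4) ≤ ((4 * x) ^ 7) ^ (2 * n + 4) := by gcongr
      _ = (4 * x) ^ (7 * (2 * n + 4)) := by rw [← pow_mul]
      _ ≤ (4 * x) ^ (n * 42) := by
          apply pow_le_pow_right₀ (by linarith)
          omega
      _ = ((4 * x) ^ n) ^ 42 := by rw [pow_mul]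
      _ ≤ (Real.exp (ε / 512 / 42 * x)) ^ 42 := by gcongr
      _ = Real.exp (ε / 512 * x) := by
          rw [← Real.exp_nat_mul]
          congr 1
          push_cast
          ring
  have e2 : 40 * (a * a * 2 * (4 * (n : ℝ) * x ^ 6) ^ (2 * n + 4))
      ≤ Real.exp (ε / 512 * x) * Real.exp (ε / 512 * x) := by
    have g1 : 40 * (a * a * 2) ≤ Real.exp (ε / 512 * x) := by
      refine le_trans ?_ h80
      have : a * a ≤ ((pC2 ε Rb + 2) * x) * ((pC2 ε Rb + 2) * x) := by gcongr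
      nlinarith
    calc 40 * (a * a * 2 * (4 * (n : ℝ) * x ^ 6) ^ (2 * n + 4))
        = (40 * (a * a * 2)) * (4 * (n : ℝ) * x ^ 6) ^ (2 * n + 4) := by ring
      _ ≤ _ := by gcongr
  have e3 : 40 * (a * a * 2 * (4 * (n : ℝ) * x ^ 6) ^ (2 * n + 4)) / Real.exp (ε / 64 * x)
      ≤ Real.exp (-(ε / 128 * x)) / 2 := by
    rw [div_le_div_iff₀ (Real.exp_pos _) (by norm_num), ← Real.exp_add]
    rw [← Real.exp_add] at e2
    calc 40 * (a * a * 2 * (4 * (n : ℝ) * x ^ 6) ^ (2 * n + 4)) * 2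
        ≤ Real.exp (ε / 512 * x + ε / 512 * x) * Real.exp (ε / 256 * x) := by
          have : (2 : ℝ) ≤ Real.exp (ε / 256 * x) := by simpa using h2
          gcongr
      _ = Real.exp (ε / 512 * x + ε / 512 * x + ε / 256 * x) := by rw [← Real.exp_add]
      _ ≤ _ := by
          apply Real.exp_le_exp.2
          have : 0 < ε * x := by positivity
          nlinarith
  have e4 : 10 * G * (2 * (n : ℝ)) ^ (n + 1) * Real.exp (-(ε / 8 * x))
      ≤ Real.exp (-(ε / 128 * x)) / 2 := by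
    have f1 : (2 * (n : ℝ)) ^ (n + 1) ≤ Real.exp (ε / 32 * x) := by
      calc (2 * (n : ℝ)) ^ (n + 1) ≤ (2 * x) ^ (n + 1) := by gcongr
        _ ≤ (2 * x) ^ (n * 2) := by
            apply pow_le_pow_right₀ (by linarith)
            omega
        _ = ((2 * x) ^ n) ^ 2 := by rw [pow_mul]
        _ ≤ (Real.exp (ε / 64 * x)) ^ 2 := by gcongr
        _ = Real.exp (ε / 32 * x) := by
            rw [← Real.exp_nat_mul]
            congr 1
            push_cast
            ring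
    have h10' : 10 * G ≤ Real.exp (ε / 64 * x) := by simpa using h10
    have h2' : (2 : ℝ) ≤ Real.exp (ε / 256 * x) := by simpa using h2
    rw [le_div_iff₀ (by norm_num : (0 : ℝ) < 2)]
    calc 10 * G * (2 * (n : ℝ)) ^ (n + 1) * Real.exp (-(ε / 8 * x)) * 2
        ≤ Real.exp (ε / 64 * x) * Real.exp (ε / 32 * x) * Real.exp (-(ε / 8 * x))
          * Real.exp (ε / 256 * x) := by gcongr
      _ = Real.exp (ε / 64 * x + ε / 32 * x + -(ε / 8 * x) + ε / 256 * x) := by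
          simp only [Real.exp_add]
      _ ≤ _ := by
          apply Real.exp_le_exp.2
          have : 0 < ε * x := by positivity
          nlinarith
  linarith

/-- Proof. `4 G ρb bm / σ ≤ 4 G exp (-x + 3/2 x - x)`, `2 G / (K θ σ) ≤ 2 G exp (-x)` (`K θ ≥ 1`),
`4 G σ / bm ≤ 4 G Cs x exp (x - 3/2 x)`. -/
theorem pm_small (hε : 0 < ε) (hε1 : ε < 1) {G Cs : ℝ} (hG : 0 < G) (hCs : 0 < Cs) :
    ∀ᶠ x : ℝ in atTop, ∀ σ : ℝ, Real.exp x ≤ σ → σ ≤ Cs * Real.exp x * x →
      pm G σ (Real.exp x) (pθ ε x) (pρ x) (pbm x) (pn ε Rb x) ≤ Real.exp (-(1 / 4 * x)) := by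
  filter_upwards [eventually_ge_atTop (1 : ℝ), pn_small (Rb := Rb) hε one_pos,
    ParC1_poly (6 * G + 4 * G * Cs) 2 (c := 1 / 4) (by norm_num)] with x hx hn hp σ h1 h2
  have hx0 : 0 < x := by linarith
  rw [one_mul] at hn
  have hσ : 0 < σ := lt_of_lt_of_le (Real.exp_pos _) h1
  unfold pm pθ pρ pbm
  have e1 : 4 * G * Real.exp (-x) * Real.exp (3 / 2 * x) / σ
      ≤ 4 * G * Real.exp (-(1 / 2 * x)) := by
    rw [div_le_iff₀ hσ]
    calc 4 * G * Real.exp (-x) * Real.exp (3 / 2 * x)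
        = 4 * G * Real.exp (-(1 / 2 * x)) * Real.exp x := by
          rw [mul_assoc, mul_assoc (4 * G), ← Real.exp_add, ← Real.exp_add]
          congr 2
          ring
      _ ≤ _ := by gcongr
  have e2 : 2 * G / (Real.exp x * Real.exp (-(ε / 8 * x)) * σ)
      ≤ 2 * G * Real.exp (-(1 / 2 * x)) := by
    rw [div_le_iff₀ (by positivity)]
    have : (1 : ℝ) ≤ Real.exp (-(1 / 2 * x)) * (Real.exp x * Real.exp (-(ε / 8 * x)) * σ) := by
      calc (1 : ℝ) ≤ Real.exp (-(1 / 2 * x)) * (Real.exp x * Real.exp (-(ε / 8 * x))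
            * Real.exp x) := by
            rw [← Real.exp_add, ← Real.exp_add, ← Real.exp_add]
            apply Real.one_le_exp
            nlinarith
        _ ≤ _ := by gcongr
    nlinarith
  have e3 : 4 * G * σ / Real.exp (3 / 2 * x) ≤ 4 * G * Cs * x * Real.exp (-(1 / 2 * x)) := by
    rw [div_le_iff₀ (Real.exp_pos _)]
    calc 4 * G * σ ≤ 4 * G * (Cs * Real.exp x * x) := by gcongr
      _ = 4 * G * Cs * x * (Real.exp (-(1 / 2 * x)) * Real.exp (3 / 2 * x)) := by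
          rw [← Real.exp_add]
          have : -(1 / 2 * x) + 3 / 2 * x = x := by ring
          rw [this]
          ring
      _ = _ := by ring
  have e4 : Real.exp (-(1 / 2 * x)) = Real.exp (-(1 / 4 * x)) * Real.exp (-(1 / 4 * x)) := by
    rw [← Real.exp_add]
    congr 1
    ring
  have hE : 0 < Real.exp (-(1 / 2 * x)) := Real.exp_pos _
  calc (pn ε Rb x : ℝ) * (4 * G * Real.exp (-x) * Real.exp (3 / 2 * x) / σ
        + 2 * G / (Real.exp x * Real.exp (-(ε / 8 * x)) * σ) + 4 * G * σ / Real.exp (3 / 2 * x))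
      ≤ x * (4 * G * Real.exp (-(1 / 2 * x)) + 2 * G * Real.exp (-(1 / 2 * x))
        + 4 * G * Cs * x * Real.exp (-(1 / 2 * x))) :=
        mul_le_mul hn (by linarith) (by positivity) hx0.le
    _ = (6 * G + 4 * G * Cs * x) * x * Real.exp (-(1 / 2 * x)) := by ring
    _ ≤ ((6 * G + 4 * G * Cs) * x ^ 2) * Real.exp (-(1 / 2 * x)) := by
        have q1 : G * 1 ≤ G * x := by gcongr
        have q2 : (6 * G + 4 * G * Cs * x) ≤ (6 * G + 4 * G * Cs) * x := by nlinarith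
        have q3 : (6 * G + 4 * G * Cs * x) * x ≤ (6 * G + 4 * G * Cs) * x ^ 2 := by
          calc (6 * G + 4 * G * Cs * x) * x ≤ ((6 * G + 4 * G * Cs) * x) * x := by gcongr
            _ = _ := by ring
        exact mul_le_mul_of_nonneg_right q3 hE.le
    _ ≤ Real.exp (1 / 4 * x) * Real.exp (-(1 / 2 * x)) := by gcongr
    _ = Real.exp (-(1 / 4 * x)) := by
        rw [← Real.exp_add]
        congr 1
        ring

/-- Proof. Logarithm: `2 log (n+1) + n log 2 + log 2 + 6 (J₁ + 2) n log x + x - n x`, where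
`(J₁+2) n ≤ pC2 x + 3 n` (`pJ1_bd`) and `n ≥ 2 pC1 log x ≥ 6 pC2 log x + 8 log x` (`pn_ge`), `n ≥ 4`. -/
theorem pD_small (hε : 0 < ε) (hε1 : ε < 1) :
    ∀ᶠ x : ℝ in atTop, pD (Real.exp x) (x ^ 6) 2 (pn ε Rb x) (pJ1 ε Rb x)
      ≤ Real.exp (-(1 / 4 * x)) := by
  have hC := ParC1_C2 (Rb := Rb) hε
  have hC1 := ParC1_C1 (Rb := Rb) hε
  filter_upwards [eventually_ge_atTop (Real.exp 1), pn_small (Rb := Rb) hε one_pos,
    pn_ge (Rb := Rb) hε, master (Rb := Rb) hε 1 one_pos (c := 1 / 18) (by norm_num),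
    ParC1_poly 8 2 (c := 1) one_pos] with x hxe hn hge hm h8
  have hx : 1 ≤ x := le_trans (Real.one_le_exp (by norm_num)) hxe
  have hx0 : 0 < x := by linarith
  have hl : 1 ≤ Real.log x := (Real.le_log_iff_exp_le hx0).2 hxe
  have hJ := (pJ1_bd (Rb := Rb) hε x hx0).2
  have hn1 : (1 : ℝ) ≤ (pn ε Rb x : ℝ) := by exact_mod_cast ParC1_n1 x
  unfold pD
  generalize pn ε Rb x = n at hn hge hm hJ hn1 ⊢
  generalize pJ1 ε Rb x = J at hJ ⊢
  rw [one_mul] at hn hm h8
  have hmn : (n : ℝ) * Real.log x ≤ 1 / 18 * x := by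
    have := Real.log_le_log (by positivity) hm
    rwa [Real.log_pow, Real.log_exp] at this
  have t1 : ((n : ℝ) + 1) ^ 2 * 2 ≤ Real.exp x := by
    refine le_trans ?_ h8
    have : (n : ℝ) + 1 ≤ 2 * x := by linarith
    have : ((n : ℝ) + 1) ^ 2 ≤ (2 * x) ^ 2 := by gcongr
    nlinarith
  have t2 : (2 : ℝ) ^ n ≤ Real.exp x := by
    calc (2 : ℝ) ^ n ≤ (Real.exp 1) ^ n := by
          have : (2 : ℝ) ≤ Real.exp 1 := by
            have := Real.add_one_le_exp (1 : ℝ)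
            linarith
          gcongr
      _ = Real.exp (n * 1) := by rw [← Real.exp_nat_mul]
      _ ≤ Real.exp x := Real.exp_le_exp.2 (by linarith)
  have t3 : (x ^ 6) ^ ((J + 2) * n) ≤ Real.exp (6 * (pC2 ε Rb * x + 3 * n) * Real.log x) := by
    have : (x ^ 6) ^ ((J + 2) * n) = Real.exp (((6 * ((J + 2) * n) : ℕ) : ℝ) * Real.log x) := by
      rw [Real.exp_nat_mul, Real.exp_log hx0, ← pow_mul]
    rw [this]
    apply Real.exp_le_exp.2
    push_cast
    have : ((J : ℝ) + 2) * n ≤ pC2 ε Rb * x + 3 * n := by nlinarith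
    gcongr
  have t4 : Real.exp x ^ n = Real.exp (n * x) := by rw [← Real.exp_nat_mul]
  rw [t4, div_le_iff₀ (Real.exp_pos _)]
  calc ((n : ℝ) + 1) ^ 2 * 2 ^ n * 2 * (x ^ 6) ^ ((J + 2) * n) * Real.exp x
      = (((n : ℝ) + 1) ^ 2 * 2) * 2 ^ n * (x ^ 6) ^ ((J + 2) * n) * Real.exp x := by ring
    _ ≤ Real.exp x * Real.exp x * Real.exp (6 * (pC2 ε Rb * x + 3 * n) * Real.log x)
        * Real.exp x := by gcongr
    _ = Real.exp (x + x + 6 * (pC2 ε Rb * x + 3 * n) * Real.log x + x) := by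
        simp only [Real.exp_add]
    _ ≤ Real.exp (-(1 / 4 * x) + n * x) := by
        apply Real.exp_le_exp.2
        have k1 : (6 * pC2 ε Rb * Real.log x + 8 * Real.log x) * x ≤ n * x := by
          have : 6 * pC2 ε Rb * Real.log x + 8 * Real.log x ≤ 2 * pC1 ε Rb * Real.log x := by
            nlinarith
          have := this.trans hge
          gcongr
        have k2 : x ≤ Real.log x * x := by nlinarith
        nlinarith
    _ = Real.exp (-(1 / 4 * x)) * Real.exp (n * x) := by rw [Real.exp_add]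

end Pool.Agent.H989.SB
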