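import Pool.Agent.H989.SB.Par

/-!
The parameters, uniformly in the radius `Rb ≤ c₀ x / (log x)²`.
-/

set_option linter.unusedSectionVars false
set_option linter.unusedVariables false

open Filter

namespace Pool.Agent.H989.SB

/-- for `x` large, uniformly in the radius `Rb ≤ c₀ x / (log x)²` -/
def UE (P : ℕ → ℝ → Prop) : Prop :=
  ∃ c₀ : ℝ, 0 < c₀ ∧ ∀ᶠ x : ℝ in atTop, ∀ Rb : ℕ, (Rb : ℝ) * Real.log x ^ 2 ≤ c₀ * x → P Rb x

theorem UE.and {P Q : ℕ → ℝ → Prop} (h : UE P) (h' : UE Q) : UE fun R x => P R x ∧ Q R x := by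
  obtain ⟨c, hc, h1⟩ := h
  obtain ⟨c', hc', h2⟩ := h'
  refine ⟨min c c', lt_min hc hc', ?_⟩
  filter_upwards [h1, h2, eventually_ge_atTop (0 : ℝ)] with x a b hx R hR
  refine ⟨a R (hR.trans ?_), b R (hR.trans ?_)⟩
  · exact mul_le_mul_of_nonneg_right (min_le_left _ _) hx
  · exact mul_le_mul_of_nonneg_right (min_le_right _ _) hx

theorem UE.mono {P Q : ℕ → ℝ → Prop} (h : UE P) (hPQ : ∀ R x, P R x → Q R x) : UE Q := by
  obtain ⟨c, hc, h1⟩ := h
  refine ⟨c, hc, ?_⟩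
  filter_upwards [h1] with x a R hR
  exact hPQ _ _ (a R hR)

/-- facts which hold for `x` large and all radii -/
theorem UE.of_all {P : ℕ → ℝ → Prop} (h : ∀ᶠ x : ℝ in atTop, ∀ R : ℕ, P R x) : UE P := by
  refine ⟨1, one_pos, ?_⟩
  filter_upwards [h] with x a R _
  exact a R

/-- facts which do not depend on the radius -/
theorem UE.of_ev {P : ℝ → Prop} (h : ∀ᶠ x : ℝ in atTop, P x) : UE fun _ x => P x := by
  refine UE.of_all ?_
  filter_upwards [h] with x a R
  exact a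

variable {ε : ℝ}

theorem ue_R {c : ℝ} (hc : 0 < c) : UE fun Rb x => (Rb : ℝ) * Real.log x ^ 2 ≤ c * x :=
  ⟨c, hc, Eventually.of_forall fun _ _ h => h⟩

theorem ue_C2 (hε : 0 < ε) {c : ℝ} (hc : 0 < c) :
    UE fun Rb x => pC2 ε Rb * Real.log x ^ 2 ≤ c * x := by
  have hL := par_pmu_log_pos hε
  have h1 := ue_R (c := c * Real.log (pmu ε) / 2) (by positivity)
  have h2 := UE.of_ev (par_log_sq (c := c * Real.log (pmu ε)) (by positivity))
  refine (h1.and h2).mono ?_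
  rintro R x ⟨a, b⟩
  unfold pC2
  rw [div_mul_eq_mul_div, div_le_iff₀ (by positivity)]
  nlinarith

theorem ue_C1 (hε : 0 < ε) {c : ℝ} (hc : 0 < c) :
    UE fun Rb x => pC1 ε Rb * Real.log x ^ 2 ≤ c * x := by
  obtain ⟨D, hD⟩ : ∃ D, D = 4 / Real.log (1 + ε / 8) + 4 := ⟨_, rfl⟩
  have hD0 : 0 < D := by
    have : 0 < Real.log (1 + ε / 8) := Real.log_pos (by linarith)
    rw [hD]; positivity
  have h1 := ue_C2 hε (c := c / 6) (by positivity)
  have h2 := UE.of_ev (par_log_sq (c := c / (2 * D)) (by positivity))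
  refine (h1.and h2).mono ?_
  rintro R x ⟨a, b⟩
  have e : pC1 ε R = 3 * pC2 ε R + D := by rw [hD]; unfold pC1; ring
  have b' : D * Real.log x ^ 2 ≤ c / 2 * x := by
    calc D * Real.log x ^ 2 ≤ D * (c / (2 * D) * x) := mul_le_mul_of_nonneg_left b hD0.le
      _ = c / 2 * x := by field_simp
  rw [e]
  nlinarith

theorem ue_ge (A : ℝ) : UE fun _ x => A ≤ x := UE.of_ev (eventually_ge_atTop A)

theorem ue_log_ge (A : ℝ) : UE fun _ x => A ≤ Real.log x :=
  UE.of_ev (Real.tendsto_log_atTop.eventually_ge_atTop A)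

/-- upper bound of the length of the paths, for all radii -/
theorem ue_pn_le (hε : 0 < ε) : UE fun Rb x => (pn ε Rb x : ℝ) ≤ 2 * pC1 ε Rb * Real.log x + 6 := by
  refine (ue_ge 1).mono fun R x hx => ?_
  rw [par_pn_eq]
  have h0 : 0 ≤ pC1 ε R * Real.log x :=
    mul_nonneg (par_pC1_pos hε).le (Real.log_nonneg hx)
  have h := Nat.ceil_lt_add_one h0
  linarith

/-- lower bound of the length of the paths, for all radii -/
theorem ue_pn_ge (hε : 0 < ε) : UE fun Rb x => 2 * pC1 ε Rb * Real.log x ≤ (pn ε Rb x : ℝ) := by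
  refine (ue_ge 1).mono fun R x hx => ?_
  rw [par_pn_eq]
  have h := Nat.le_ceil (pC1 ε R * Real.log x)
  linarith

/-- `n log x` is small -/
theorem ue_pn_log (hε : 0 < ε) {c : ℝ} (hc : 0 < c) :
    UE fun Rb x => (pn ε Rb x : ℝ) * Real.log x ≤ c * x := by
  have h1 := ue_C1 hε (c := c / 4) (by positivity)
  have h2 := UE.of_ev (par_log_sq (c := c / 12) (by positivity))
  refine (((h1.and h2).and (ue_pn_le hε)).and (ue_log_ge 1)).mono ?_
  rintro R x ⟨⟨⟨a, b⟩, e⟩, f⟩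
  have h3 : Real.log x ≤ Real.log x ^ 2 := by nlinarith
  nlinarith

theorem ue_pn (hε : 0 < ε) {c : ℝ} (hc : 0 < c) : UE fun Rb x => (pn ε Rb x : ℝ) ≤ c * x := by
  refine ((ue_pn_log hε hc).and (ue_log_ge 1)).mono ?_
  rintro R x ⟨a, f⟩
  have : (0:ℝ) ≤ pn ε R x := Nat.cast_nonneg _
  nlinarith

/-- `(A x) ^ n ≤ exp (c x)` -/
theorem ue_master (hε : 0 < ε) (A : ℝ) (hA : 0 < A) {c : ℝ} (hc : 0 < c) :
    UE fun Rb x => (A * x) ^ (pn ε Rb x) ≤ Real.exp (c * x) := by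
  refine (((ue_pn_log hε (c := c / 2) (by positivity)).and (ue_log_ge (max 1 |Real.log A|))).and
    (ue_ge 1)).mono ?_
  rintro R x ⟨⟨a, f⟩, g⟩
  have h5 : 1 ≤ Real.log x := le_trans (le_max_left _ _) f
  have h6 := abs_le.mp (le_trans (le_max_right _ _) f : |Real.log A| ≤ Real.log x)
  have h4 : 0 < x := by linarith
  have h7 : 0 < A * x := mul_pos hA h4
  have h8 : Real.log (A * x) = Real.log A + Real.log x := Real.log_mul hA.ne' h4.ne'
  have h12 : (pn ε R x : ℝ) * Real.log (A * x) ≤ c * x := by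
    have h0 : (0:ℝ) ≤ pn ε R x := Nat.cast_nonneg _
    have h10 : Real.log (A * x) ≤ 2 * Real.log x := by rw [h8]; linarith
    calc (pn ε R x : ℝ) * Real.log (A * x) ≤ (pn ε R x : ℝ) * (2 * Real.log x) :=
          mul_le_mul_of_nonneg_left h10 h0
      _ = 2 * ((pn ε R x : ℝ) * Real.log x) := by ring
      _ ≤ c * x := by linarith
  calc (A * x) ^ (pn ε R x) = Real.exp ((pn ε R x : ℝ) * Real.log (A * x)) := by
        rw [Real.exp_nat_mul, Real.exp_log h7]
    _ ≤ _ := Real.exp_le_exp.mpr h12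

/-- `pC2` is small compared to `x` -/
theorem ue_C2_small (hε : 0 < ε) {c : ℝ} (hc : 0 < c) : UE fun Rb x => pC2 ε Rb ≤ c * x := by
  refine ((ue_C2 hε hc).and (ue_log_ge 1)).mono ?_
  rintro R x ⟨a, f⟩
  have := (par_pC2_pos (ε := ε) (Rb := R) hε).le
  have h2 : 1 ≤ Real.log x ^ 2 := by nlinarith
  nlinarith

/-- the radius is small compared to `x` -/
theorem ue_R_small {c : ℝ} (hc : 0 < c) : UE fun Rb x => (Rb : ℝ) ≤ c * x := by
  refine ((ue_R hc).and (ue_log_ge 1)).mono ?_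
  rintro R x ⟨a, f⟩
  have : (0:ℝ) ≤ R := Nat.cast_nonneg _
  have h2 : 1 ≤ Real.log x ^ 2 := by nlinarith
  nlinarith

/-- `pC2 x²` is small compared to `x³`, in the form used with `pY` -/
theorem ue_C2_cube (hε : 0 < ε) {c : ℝ} (hc : 0 < c) :
    UE fun Rb x => pC2 ε Rb * x ^ 2 ≤ c * x ^ 3 := by
  refine ((ue_C2_small hε hc).and (ue_ge 1)).mono ?_
  rintro R x ⟨a, f⟩
  have h2 : 0 ≤ x ^ 2 := by positivity
  calc pC2 ε R * x ^ 2 ≤ (c * x) * x ^ 2 := mul_le_mul_of_nonneg_right a h2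
    _ = c * x ^ 3 := by ring

theorem ue_eta (A : ℝ) {c : ℝ} (hc : 0 < c) :
    UE fun Rb x => (2 * Real.exp x) ^ Rb * (A * pη x) ≤ c := by
  have h1 : Tendsto (fun x : ℝ => Real.exp (-x)) atTop (nhds 0) :=
    Real.tendsto_exp_neg_atTop_nhds_zero
  have h2 : Tendsto (fun x : ℝ => |A| * Real.exp (-x)) atTop (nhds (|A| * 0)) :=
    h1.const_mul _
  rw [mul_zero] at h2
  have h3 := h2.eventually (ge_mem_nhds hc)
  refine (((UE.of_ev h3).and (ue_ge 4)).and (ue_R_small (c := 1) one_pos)).mono ?_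
  rintro R x ⟨⟨hx, hx4⟩, hR⟩
  refine le_trans ?_ hx
  have hR0 : (0:ℝ) ≤ R := Nat.cast_nonneg _
  have e0 : (2 : ℝ) ≤ Real.exp x := by linarith [Real.add_one_le_exp x]
  have e1 : (2 * Real.exp x) ^ R ≤ Real.exp (2 * x * R) := by
    calc (2 * Real.exp x) ^ R ≤ (Real.exp x * Real.exp x) ^ R := by gcongr
      _ = Real.exp (2 * x * R) := by
        rw [← Real.exp_add, ← Real.exp_nat_mul]
        congr 1
        ring
  have e2 : A * pη x ≤ |A| * pη x := by
    have : 0 < pη x := Real.exp_pos _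
    gcongr
    exact le_abs_self A
  have e3 : 0 ≤ |A| * pη x := mul_nonneg (abs_nonneg _) (Real.exp_pos _).le
  calc (2 * Real.exp x) ^ R * (A * pη x) ≤ (2 * Real.exp x) ^ R * (|A| * pη x) :=
        mul_le_mul_of_nonneg_left e2 (by positivity)
    _ ≤ Real.exp (2 * x * R) * (|A| * pη x) := mul_le_mul_of_nonneg_right e1 e3
    _ = |A| * Real.exp (2 * x * R + -x ^ 3) := by unfold pη; rw [Real.exp_add]; ring
    _ ≤ |A| * Real.exp (-x) := by
        gcongr
        have h5 : 2 * x * R ≤ 2 * x * x := by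
          have : (R : ℝ) ≤ x := by linarith
          nlinarith
        nlinarith [mul_nonneg (by linarith : (0:ℝ) ≤ x) (by linarith : (0:ℝ) ≤ x - 4)]

end Pool.Agent.H989.SB
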