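import Pool.Agent.H989.SB.ParR
import Pool.Agent.H989.SB.ParA

/-!
The conditions for the moments, uniformly in the radius.
-/

set_option linter.unusedSectionVars false
set_option linter.unusedVariables false

open Filter

namespace Pool.Agent.H989.SB

variable {ε : ℝ}

/-- Uniform version of `parA` (ParA.lean; the old file proves `∀ᶠ x, …` for a fixed `Rb`).
Proof. Copy the proof of `parA`.  The only place where the radius enters is `c = pC2 ε Rb + 1`, and what is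
used is `4 (c + 7) + const ≤ x` (`ParA_ev` with a threshold which depends on `c`): now this is
`ue_C2_small` (`pC2 ε Rb ≤ x / 64`, say) and `ue_ge const`; the rest of `ParA_ev` does not depend on `Rb`
(use `ParA_ev` with a constant threshold, `UE.of_ev`).  Combine with `UE.and`, `UE.mono`.
`ParA_mm`, `ParA_num`, `ParA_choose`, `ParA_r4` of ParA.lean can be used as they are. -/
theorem parRA (hε : 0 < ε) (hε1 : ε < 1) {C Cs : ℝ} (hC : 0 < C) (hCs : 0 < Cs) :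
    UE fun Rb x => ∀ d : ℕ, 2 * (d : ℝ) = Real.exp x → ∀ σ : ℝ, 2 * (d : ℝ) ≤ σ →
      σ ≤ Cs * (2 * d) * x →
      ParM C d σ (pη x) (x ^ 6) 2 (x ^ 4) (pa ε Rb x) (pa ε Rb x) (pR x) := by
  have hCsl0 := abs_nonneg (Real.log Cs)
  refine (((ue_C2_small hε (c := 1 / 64) (by norm_num)).and
    (ue_ge (2 * (34 + (|Real.log Cs| + 1) + 64 * C)))).and
    (UE.of_ev (ParA_ev 1 (256 * C + 64)))).mono ?_
  rintro Rb x ⟨⟨a1, a2⟩, -, hl, hE9⟩ d hd σ hσ hσ2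
  have hp2 := ParA_pC2 (Rb := Rb) hε
  obtain ⟨c, hc⟩ : ∃ c, c = pC2 ε Rb + 1 := ⟨_, rfl⟩
  have hc0 : 0 ≤ c := by linarith
  have hx : 4 * (c + 7) + 2 + (|Real.log Cs| + 1) + 64 * C ≤ x := by
    rw [hc]
    linarith
  have hCsl := abs_nonneg (Real.log Cs)
  have h2 : 2 ≤ x := by linarith
  have hx0 : 0 < x := by linarith
  have h64 : 64 * C ≤ x := by linarith
  obtain ⟨E, hE⟩ : ∃ E, E = Real.exp x := ⟨_, rfl⟩
  rw [← hE] at hd hE9
  have hE0 : 0 < E := by rw [hE]; exact Real.exp_pos x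
  rw [hd] at hσ hσ2
  obtain ⟨m0, m1⟩ := ParA_mm hC hCs h2 (by linarith) hE hσ hσ2
  obtain ⟨n1, n2, n3, n4⟩ := ParA_num hc0 h2 (by linarith)
  have hpa : pa ε Rb x = ⌈c * x⌉₊ := by
    unfold pa
    rw [hc]
  rw [hpa]
  obtain ⟨a, ha⟩ : ∃ a, a = ⌈c * x⌉₊ := ⟨_, rfl⟩
  rw [← ha] at n1 n4 ⊢
  obtain ⟨S, hS⟩ : ∃ S : ℝ, S = ((a + a + 1 : ℕ) : ℝ) + (pR x : ℝ) := ⟨_, rfl⟩
  have hx1 : 1 ≤ x := by linarith
  have px29 : x ^ 2 ≤ x ^ 9 := pow_le_pow_right₀ hx1 (by norm_num)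
  have px69 : x ^ 6 ≤ x ^ 9 := pow_le_pow_right₀ hx1 (by norm_num)
  have px59 : x ^ 5 ≤ x ^ 9 := pow_le_pow_right₀ hx1 (by norm_num)
  have hx9 : 0 < x ^ 9 := by positivity
  have hE64 : 64 * x ^ 9 ≤ E := by nlinarith
  have hEC : 256 * C * x ^ 9 ≤ E := by nlinarith
  have hS0 : 0 ≤ S := by rw [hS]; positivity
  have r1 : pR x + (a + a + 1) ≤ d := by
    have : (((pR x + (a + a + 1) : ℕ)) : ℝ) ≤ d := by
      rw [Nat.cast_add]
      linarith
    exact_mod_cast this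
  have hmS : mm C σ (pη x) * (2 * S * (x ^ 6 / E)⁻¹ + E * (x ^ 6 / E)) ≤ 1 / 2 := by
    have e1 : 0 ≤ 2 * S * (x ^ 6 / E)⁻¹ + E * (x ^ 6 / E) := by positivity
    refine (mul_le_mul_of_nonneg_right m1 e1).trans ?_
    have e2 : 2 * C * x ^ 3 / E * (2 * S * (x ^ 6 / E)⁻¹ + E * (x ^ 6 / E))
        = 4 * C * S / x ^ 3 + 2 * C * x ^ 9 / E := by
      field_simp
      ring
    rw [e2]
    have e3 : 4 * C * S / x ^ 3 ≤ 1 / 4 := by
      rw [div_le_iff₀ (by positivity)]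
      have : 4 * C * S ≤ 4 * C * (4 * x ^ 2) :=
        mul_le_mul_of_nonneg_left (by rw [hS]; exact n1) (by positivity)
      have h6 : 64 * C * x ^ 2 ≤ x * x ^ 2 := mul_le_mul_of_nonneg_right h64 (by positivity)
      nlinarith
    have e4 : 2 * C * x ^ 9 / E ≤ 1 / 4 := by
      rw [div_le_iff₀ hE0]
      nlinarith
    linarith
  have hdK : (2 : ℝ) * d = E := hd
  refine ⟨?_, Real.exp_pos _, ?_, by rw [hdK]; exact hσ, hC, r1, one_le_pow₀ hx1, ?_, by norm_num,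
    one_le_pow₀ hx1, ?_, ?_, ?_, ?_⟩
  · have : (0 : ℝ) < d := by linarith
    exact_mod_cast this
  · unfold pη
    refine Real.exp_le_one_iff.2 ?_
    have : 0 ≤ x ^ 3 := by positivity
    linarith
  · rw [hdK]
    linarith
  · rw [hdK, ← hS]
    exact hmS
  · rw [hdK]
    have e1 : 2 * (pR x : ℝ) * x ^ 4 + 2 * (((a + a + 1 : ℕ) : ℝ) + (pR x : ℝ)) + E * (x ^ 4)⁻¹
        ≤ 8 * x ^ 6 + 8 * x ^ 2 + E * (x ^ 4)⁻¹ := by
      have : 2 * (pR x : ℝ) * x ^ 4 ≤ 2 * (4 * x ^ 2) * x ^ 4 := by gcongr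
      nlinarith
    have e0 : 0 ≤ 8 * x ^ 6 + 8 * x ^ 2 + E * (x ^ 4)⁻¹ := by positivity
    refine (mul_le_mul_of_nonneg_left e1 m0).trans ((mul_le_mul_of_nonneg_right m1 e0).trans ?_)
    have e2 : 2 * C * x ^ 3 / E * (8 * x ^ 6 + 8 * x ^ 2 + E * (x ^ 4)⁻¹)
        = (16 * C * x ^ 9 + 16 * C * x ^ 5) / E + 2 * C / x := by
      field_simp
      ring
    rw [e2]
    have e3 : (16 * C * x ^ 9 + 16 * C * x ^ 5) / E ≤ 1 / 4 := by
      rw [div_le_iff₀ hE0]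
      nlinarith
    have e4 : 2 * C / x ≤ 1 / 4 := by
      rw [div_le_iff₀ hx0]
      linarith
    linarith
  · rw [hdK]
    exact ParA_r4 hc0 h2 (by linarith) hl hE hdK (by linarith) (by omega) n2 n3 n1 n4
  · rw [hdK]
    have e1 : 2 * (a : ℝ) * (x ^ 6 / E)⁻¹ + E * (x ^ 6 / E)
        ≤ 2 * S * (x ^ 6 / E)⁻¹ + E * (x ^ 6 / E) := by
      have h6 : (a : ℝ) ≤ S := by
        rw [hS]
        push_cast
        have h7 : (0 : ℝ) ≤ a := Nat.cast_nonneg _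
        have h8 : (0 : ℝ) ≤ (pR x : ℝ) := Nat.cast_nonneg _
        linarith
      gcongr
    have := (mul_le_mul_of_nonneg_left e1 m0).trans hmS
    linarith

end Pool.Agent.H989.SB
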