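import Pool.Agent.H989.SB.ParR
import Pool.Agent.H989.SB.ParB1

/-!
The conditions for the windows, uniformly in the radius.
-/

set_option linter.unusedSectionVars false
set_option linter.unusedVariables false

open Filter

namespace Pool.Agent.H989.SB

variable {ε : ℝ}

theorem ParRB1_C1 (hε : 0 < ε) (Rb : ℕ) : 4 ≤ pC1 ε Rb := by
  have h1 := par_pC2_pos (ε := ε) (Rb := Rb) hε
  have h2 : 0 < Real.log (1 + ε / 8) := Real.log_pos (by linarith)
  have h3 : 0 < 4 / Real.log (1 + ε / 8) := by positivity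
  unfold pC1
  linarith

/-- Uniform version of `parB1` (ParB1.lean).
Proof. Copy the proof of `parB1`; `ParB1_fin` can be used as it is.  Replace `master` by `ue_master`,
`pn_small` by `ue_pn`, `pn_ge` by `ue_pn_ge`; facts without `Rb` by `UE.of_ev`; facts with `pC1 ε Rb`
(such as `16 / ε ≤ 2 * pC1 ε Rb * log x`) follow from `4 ≤ pC1 ε Rb` and `ue_log_ge`.
Combine with `UE.and`, `UE.mono`. -/
theorem parRB1 (hε : 0 < ε) (hε1 : ε < 1) :
    UE fun Rb x => ∀ z : ℂ, z.im = pη x →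
      WinP z (Real.exp x) (pθ ε x) (pW ε x) (pq ε) (pM ε Rb x) (pY x) (pn ε Rb x) (pJ ε x)
        (ph ε x) (ps ε Rb x) := by
  have e1 := ue_master hε 1 one_pos (c := ε / 64) (by positivity)
  have e2 := ue_pn hε (c := 1) one_pos
  have e3 := UE.of_ev (pJ_bd hε hε1)
  have e4 := ue_pn_ge hε
  have e5 := ue_log_ge (2 / ε)
  have e6 : ∀ᶠ x : ℝ in atTop, 256 / ε ≤ Real.exp (ε / 64 * x) :=
    (Real.tendsto_exp_atTop.comp
      (tendsto_id.const_mul_atTop (by positivity : 0 < ε / 64))).eventually_ge_atTop _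
  have e7 : ∀ᶠ x : ℝ in atTop, Real.exp (-x) ≤ ε / 64 := by
    have h1 : Tendsto (fun x : ℝ => Real.exp (-x)) atTop (nhds 0) := Real.tendsto_exp_neg_atTop_nhds_zero
    exact (h1.eventually_lt_const (by positivity : 0 < ε / 64)).mono fun x hx => hx.le
  refine (((((((e1.and e2).and e3).and e4).and e5).and (UE.of_ev e6)).and
    (UE.of_ev e7)).and (ue_ge 1024)).mono ?_
  rintro Rb x ⟨⟨⟨⟨⟨⟨⟨h1, h2⟩, h3⟩, h4⟩, h5⟩, h6⟩, h7⟩, h8⟩ z hz
  have hx0 : 0 < x := by linarith
  have h9 := ps_bd (ε := ε) (Rb := Rb) hε x hx0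
  have hmu : pmu ε ≤ 2 := by unfold pmu; linarith
  have hmu0 : 0 ≤ pmu ε := by unfold pmu; linarith
  refine ParB1_fin hε hε1 (ParB1_pn ε Rb x) ?_ (by linarith) (by linarith) ?_ ?_ h6 h7 h3.1 h3.2
    h9.1 h9.2 z hz
  · refine le_trans ?_ h1
    rw [pow_mul, one_mul]
    refine pow_le_pow_left₀ (by norm_num) ?_ _
    norm_num
    linarith
  · unfold pM
    exact pow_le_pow_left₀ hmu0 hmu _
  · unfold pM pmu
    have h5' : 16 / ε ≤ 2 * pC1 ε Rb * Real.log x := by
      have hC := ParRB1_C1 hε Rb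
      have hl : 0 ≤ 2 / ε := by positivity
      calc 16 / ε = 2 * 4 * (2 / ε) := by ring
        _ ≤ 2 * pC1 ε Rb * Real.log x :=
          mul_le_mul (by linarith) h5 hl (by linarith)
    have h10 : 16 / ε ≤ (pn ε Rb x : ℝ) := h5'.trans h4
    have h11 : 1 + (pn ε Rb x : ℝ) * (ε / 16) ≤ (1 + ε / 16) ^ (pn ε Rb x) :=
      one_add_mul_le_pow (by linarith) _
    have h12 : 1 ≤ (pn ε Rb x : ℝ) * (ε / 16) := by
      rw [div_le_iff₀ hε] at h10
      linarith
    linarith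

end Pool.Agent.H989.SB
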