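import Pool.Agent.H989.SB.ParR
import Pool.Agent.H989.SB.ParC1

/-!
The small errors, uniformly in the radius.
-/

set_option linter.unusedSectionVars false
set_option linter.unusedVariables false

open Filter

namespace Pool.Agent.H989.SB

variable {ε : ℝ}

theorem ParRC1_pa (hε : 0 < ε) : UE fun Rb x =>
    (pa ε Rb x : ℝ) ≤ (pC2 ε Rb + 2) * x := by
  refine (ue_ge 1).mono fun R x hx => ?_
  have hC := ParC1_C2 (Rb := R) hε
  unfold pa
  have h0 : 0 ≤ (pC2 ε R + 1) * x := by positivity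
  have := (Nat.ceil_lt_add_one h0).le
  nlinarith

theorem ParRC1_80 (hε : 0 < ε) {c : ℝ} (hc : 0 < c) : UE fun Rb x =>
    80 * (pC2 ε Rb + 2) ^ 2 * x ^ 2 ≤ Real.exp (c * x) := by
  refine (((ue_ge 1).and (ue_C2_small hε (c := 1) one_pos)).and
    (UE.of_ev (ParC1_poly 720 4 (c := c) hc))).mono ?_
  rintro R x ⟨⟨hx, h1⟩, h2⟩
  have hC := ParC1_C2 (Rb := R) hε
  refine le_trans ?_ h2
  have h3 : pC2 ε R + 2 ≤ 3 * x := by linarith
  have h4 : (pC2 ε R + 2) ^ 2 ≤ (3 * x) ^ 2 := by gcongr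
  calc 80 * (pC2 ε R + 2) ^ 2 * x ^ 2 ≤ 80 * (3 * x) ^ 2 * x ^ 2 := by gcongr
    _ = 720 * x ^ 4 := by ring

/-- Uniform version of `pT_small` (ParC1.lean).
Proof. Copy the proof of `pT_small`; `master` -> `ue_master`, `pn_small` -> `ue_pn`, `ParC1_pa` holds for
all `x ≥ 1` and all `Rb` (its proof), `ParC1_poly (… (pC2 ε Rb + 2) ^ 2) 2` -> `ue_C2_small` (`pC2 ≤ x`)
and `ParC1_poly` with a power of `x` and a constant; facts without `Rb` by `UE.of_ev`. -/
theorem pRT_small (hε : 0 < ε) (hε1 : ε < 1) {G : ℝ} (hG : 0 < G) :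
    UE fun Rb x => pT G (Real.exp x) (x ^ 6) 2 (pθ ε x) (pW ε x) (pn ε Rb x) (pa ε Rb x)
      (pa ε Rb x) ≤ Real.exp (-(ε / 128 * x)) := by
  refine ((((((((ue_ge 1).and (ParRC1_pa hε)).and (ue_pn hε one_pos)).and
    (ue_master hε 4 (by norm_num) (c := ε / 512 / 42) (by positivity))).and
    (ParRC1_80 hε (c := ε / 512) (by positivity))).and
    (ue_master hε 2 (by norm_num) (c := ε / 64) (by positivity))).and
    (UE.of_ev (ParC1_poly (10 * G) 0 (c := ε / 64) (by positivity)))).and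
    (UE.of_ev (ParC1_poly 2 0 (c := ε / 256) (by positivity)))).mono ?_
  rintro R x ⟨⟨⟨⟨⟨⟨⟨hx, ha⟩, hn⟩, hm⟩, h80⟩, hm2⟩, h10⟩, h2⟩
  have hC := ParC1_C2 (Rb := R) hε
  have hx0 : 0 < x := by linarith
  have hn1 : 1 ≤ pn ε R x := ParC1_n1 x
  have hn1' : (1 : ℝ) ≤ (pn ε R x : ℝ) := by exact_mod_cast hn1
  unfold pT Bn pθ pW
  have ha0 : (0 : ℝ) ≤ (pa ε R x : ℝ) := Nat.cast_nonneg _
  generalize pn ε R x = n at hn hm hm2 hn1 hn1' ⊢
  generalize (pa ε R x : ℝ) = a at ha ha0 ⊢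
  rw [one_mul] at hn
  -- the big power
  have e1 : (4 * (n : ℝ) * x ^ 6) ^ (2 * n + 4) ≤ Real.exp (ε / 512 * x) := by
    have f1 : 4 * (n : ℝ) * x ^ 6 ≤ (4 * x) ^ 7 := by
      have : 4 * (n : ℝ) * x ^ 6 ≤ 4 * x * x ^ 6 := by gcongr
      have h7 : (4 * x) ^ 7 = 16384 * (x * x ^ 6) := by ring
      have : 0 ≤ x * x ^ 6 := by positivity
      nlinarith
    calc (4 * (n : ℝ) * x ^ 6) ^ (2 * n + 4) ≤ ((4 * x) ^ 7) ^ (2 * n + 4) := by gcongr
      _ = (4 * x) ^ (7 * (2 * n + 4)) := by rw [← pow_mul]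
      _ ≤ (4 * x) ^ (n * 42) := by
          apply pow_le_pow_right₀ (by linarith)
          omega
      _ = ((4 * x) ^ n) ^ 42 := by rw [pow_mul]
      _ ≤ (Real.exp (ε / 512 / 42 * x)) ^ 42 := by gcongr
      _ = Real.exp (ε / 512 * x) := by
          rw [← Real.exp_nat_mul]
          congr 1
          push_cast
          ring
  have e2 : 40 * (a * a * 2 * (4 * (n : ℝ) * x ^ 6) ^ (2 * n + 4))
      ≤ Real.exp (ε / 512 * x) * Real.exp (ε / 512 * x) := by
    have g1 : 40 * (a * a * 2) ≤ Real.exp (ε / 512 * x) := by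
      refine le_trans ?_ h80
      have : a * a ≤ ((pC2 ε R + 2) * x) * ((pC2 ε R + 2) * x) := by gcongr
      nlinarith
    calc 40 * (a * a * 2 * (4 * (n : ℝ) * x ^ 6) ^ (2 * n + 4))
        = (40 * (a * a * 2)) * (4 * (n : ℝ) * x ^ 6) ^ (2 * n + 4) := by ring
      _ ≤ _ := by gcongr
  have e3 : 40 * (a * a * 2 * (4 * (n : ℝ) * x ^ 6) ^ (2 * n + 4)) / Real.exp (ε / 64 * x)
      ≤ Real.exp (-(ε / 128 * x)) / 2 := by
    rw [div_le_div_iff₀ (Real.exp_pos _) (by norm_num), ← Real.exp_add]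
    rw [← Real.exp_add] at e2
    calc 40 * (a * a * 2 * (4 * (n : ℝ) * x ^ 6) ^ (2 * n + 4)) * 2
        ≤ Real.exp (ε / 512 * x + ε / 512 * x) * Real.exp (ε / 256 * x) := by
          have : (2 : ℝ) ≤ Real.exp (ε / 256 * x) := by simpa using h2
          gcongr
      _ = Real.exp (ε / 512 * x + ε / 512 * x + ε / 256 * x) := by rw [← Real.exp_add]
      _ ≤ _ := by
          apply Real.exp_le_exp.2
          have : 0 < ε * x := by positivity
          nlinarith
  have e4 : 10 * G * (2 * (n : ℝ)) ^ (n + 1) * Real.exp (-(ε / 8 * x))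
      ≤ Real.exp (-(ε / 128 * x)) / 2 := by
    have f1 : (2 * (n : ℝ)) ^ (n + 1) ≤ Real.exp (ε / 32 * x) := by
      calc (2 * (n : ℝ)) ^ (n + 1) ≤ (2 * x) ^ (n + 1) := by gcongr
        _ ≤ (2 * x) ^ (n * 2) := by
            apply pow_le_pow_right₀ (by linarith)
            omega
        _ = ((2 * x) ^ n) ^ 2 := by rw [pow_mul]
        _ ≤ (Real.exp (ε / 64 * x)) ^ 2 := by gcongr
        _ = Real.exp (ε / 32 * x) := by
            rw [← Real.exp_nat_mul]
            congr 1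
            push_cast
            ring
    have h10' : 10 * G ≤ Real.exp (ε / 64 * x) := by simpa using h10
    have h2' : (2 : ℝ) ≤ Real.exp (ε / 256 * x) := by simpa using h2
    rw [le_div_iff₀ (by norm_num : (0 : ℝ) < 2)]
    calc 10 * G * (2 * (n : ℝ)) ^ (n + 1) * Real.exp (-(ε / 8 * x)) * 2
        ≤ Real.exp (ε / 64 * x) * Real.exp (ε / 32 * x) * Real.exp (-(ε / 8 * x))
          * Real.exp (ε / 256 * x) := by gcongr
      _ = Real.exp (ε / 64 * x + ε / 32 * x + -(ε / 8 * x) + ε / 256 * x) := by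
          simp only [Real.exp_add]
      _ ≤ _ := by
          apply Real.exp_le_exp.2
          have : 0 < ε * x := by positivity
          nlinarith
  linarith

/-- Uniform version of `pm_small` (ParC1.lean). -/
theorem pRm_small (hε : 0 < ε) (hε1 : ε < 1) {G Cs : ℝ} (hG : 0 < G) (hCs : 0 < Cs) :
    UE fun Rb x => ∀ σ : ℝ, Real.exp x ≤ σ → σ ≤ Cs * Real.exp x * x →
      pm G σ (Real.exp x) (pθ ε x) (pρ x) (pbm x) (pn ε Rb x) ≤ Real.exp (-(1 / 4 * x)) := by
  refine (((ue_ge 1).and (ue_pn hε one_pos)).and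
    (UE.of_ev (ParC1_poly (6 * G + 4 * G * Cs) 2 (c := 1 / 4) (by norm_num)))).mono ?_
  rintro R x ⟨⟨hx, hn⟩, hp⟩ σ h1 h2
  have hx0 : 0 < x := by linarith
  rw [one_mul] at hn
  have hσ : 0 < σ := lt_of_lt_of_le (Real.exp_pos _) h1
  unfold pm pθ pρ pbm
  have e1 : 4 * G * Real.exp (-x) * Real.exp (3 / 2 * x) / σ
      ≤ 4 * G * Real.exp (-(1 / 2 * x)) := by
    rw [div_le_iff₀ hσ]
    calc 4 * G * Real.exp (-x) * Real.exp (3 / 2 * x)
        = 4 * G * Real.exp (-(1 / 2 * x)) * Real.exp x := by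
          rw [mul_assoc, mul_assoc (4 * G), ← Real.exp_add, ← Real.exp_add]
          congr 2
          ring
      _ ≤ _ := by gcongr
  have e2 : 2 * G / (Real.exp x * Real.exp (-(ε / 8 * x)) * σ)
      ≤ 2 * G * Real.exp (-(1 / 2 * x)) := by
    rw [div_le_iff₀ (by positivity)]
    have : (1 : ℝ) ≤ Real.exp (-(1 / 2 * x)) * (Real.exp x * Real.exp (-(ε / 8 * x)) * σ) := by
      calc (1 : ℝ) ≤ Real.exp (-(1 / 2 * x)) * (Real.exp x * Real.exp (-(ε / 8 * x))
            * Real.exp x) := by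
            rw [← Real.exp_add, ← Real.exp_add, ← Real.exp_add]
            apply Real.one_le_exp
            nlinarith
        _ ≤ _ := by gcongr
    nlinarith
  have e3 : 4 * G * σ / Real.exp (3 / 2 * x) ≤ 4 * G * Cs * x * Real.exp (-(1 / 2 * x)) := by
    rw [div_le_iff₀ (Real.exp_pos _)]
    calc 4 * G * σ ≤ 4 * G * (Cs * Real.exp x * x) := by gcongr
      _ = 4 * G * Cs * x * (Real.exp (-(1 / 2 * x)) * Real.exp (3 / 2 * x)) := by
          rw [← Real.exp_add]
          have : -(1 / 2 * x) + 3 / 2 * x = x := by ring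
          rw [this]
          ring
      _ = _ := by ring
  have e4 : Real.exp (-(1 / 2 * x)) = Real.exp (-(1 / 4 * x)) * Real.exp (-(1 / 4 * x)) := by
    rw [← Real.exp_add]
    congr 1
    ring
  have hE : 0 < Real.exp (-(1 / 2 * x)) := Real.exp_pos _
  calc (pn ε R x : ℝ) * (4 * G * Real.exp (-x) * Real.exp (3 / 2 * x) / σ
        + 2 * G / (Real.exp x * Real.exp (-(ε / 8 * x)) * σ) + 4 * G * σ / Real.exp (3 / 2 * x))
      ≤ x * (4 * G * Real.exp (-(1 / 2 * x)) + 2 * G * Real.exp (-(1 / 2 * x))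
        + 4 * G * Cs * x * Real.exp (-(1 / 2 * x))) :=
        mul_le_mul hn (by linarith) (by positivity) hx0.le
    _ = (6 * G + 4 * G * Cs * x) * x * Real.exp (-(1 / 2 * x)) := by ring
    _ ≤ ((6 * G + 4 * G * Cs) * x ^ 2) * Real.exp (-(1 / 2 * x)) := by
        have q1 : G * 1 ≤ G * x := by gcongr
        have q2 : (6 * G + 4 * G * Cs * x) ≤ (6 * G + 4 * G * Cs) * x := by nlinarith
        have q3 : (6 * G + 4 * G * Cs * x) * x ≤ (6 * G + 4 * G * Cs) * x ^ 2 := by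
          calc (6 * G + 4 * G * Cs * x) * x ≤ ((6 * G + 4 * G * Cs) * x) * x := by gcongr
            _ = _ := by ring
        exact mul_le_mul_of_nonneg_right q3 hE.le
    _ ≤ Real.exp (1 / 4 * x) * Real.exp (-(1 / 2 * x)) := by gcongr
    _ = Real.exp (-(1 / 4 * x)) := by
        rw [← Real.exp_add]
        congr 1
        ring

/-- Uniform version of `pD_small` (ParC1.lean). -/
theorem pRD_small (hε : 0 < ε) (hε1 : ε < 1) :
    UE fun Rb x => pD (Real.exp x) (x ^ 6) 2 (pn ε Rb x) (pJ1 ε Rb x)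
      ≤ Real.exp (-(1 / 4 * x)) := by
  refine (((((ue_ge (Real.exp 1)).and (ue_pn hε one_pos)).and (ue_pn_ge hε)).and
    (ue_master hε 1 one_pos (c := 1 / 18) (by norm_num))).and
    (UE.of_ev (ParC1_poly 8 2 (c := 1) one_pos))).mono ?_
  rintro R x ⟨⟨⟨⟨hxe, hn⟩, hge⟩, hm⟩, h8⟩
  have hC := ParC1_C2 (Rb := R) hε
  have hC1 := ParC1_C1 (Rb := R) hε
  have hx : 1 ≤ x := le_trans (Real.one_le_exp (by norm_num)) hxe
  have hx0 : 0 < x := by linarith
  have hl : 1 ≤ Real.log x := (Real.le_log_iff_exp_le hx0).2 hxe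
  have hJ := (pJ1_bd (Rb := R) hε x hx0).2
  have hn1 : (1 : ℝ) ≤ (pn ε R x : ℝ) := by exact_mod_cast ParC1_n1 x
  unfold pD
  generalize pn ε R x = n at hn hge hm hJ hn1 ⊢
  generalize pJ1 ε R x = J at hJ ⊢
  rw [one_mul] at hn hm h8
  have hmn : (n : ℝ) * Real.log x ≤ 1 / 18 * x := by
    have := Real.log_le_log (by positivity) hm
    rwa [Real.log_pow, Real.log_exp] at this
  have t1 : ((n : ℝ) + 1) ^ 2 * 2 ≤ Real.exp x := by
    refine le_trans ?_ h8
    have : (n : ℝ) + 1 ≤ 2 * x := by linarith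
    have : ((n : ℝ) + 1) ^ 2 ≤ (2 * x) ^ 2 := by gcongr
    nlinarith
  have t2 : (2 : ℝ) ^ n ≤ Real.exp x := by
    calc (2 : ℝ) ^ n ≤ (Real.exp 1) ^ n := by
          have : (2 : ℝ) ≤ Real.exp 1 := by
            have := Real.add_one_le_exp (1 : ℝ)
            linarith
          gcongr
      _ = Real.exp (n * 1) := by rw [← Real.exp_nat_mul]
      _ ≤ Real.exp x := Real.exp_le_exp.2 (by linarith)
  have t3 : (x ^ 6) ^ ((J + 2) * n) ≤ Real.exp (6 * (pC2 ε R * x + 3 * n) * Real.log x) := by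
    have : (x ^ 6) ^ ((J + 2) * n) = Real.exp (((6 * ((J + 2) * n) : ℕ) : ℝ) * Real.log x) := by
      rw [Real.exp_nat_mul, Real.exp_log hx0, ← pow_mul]
    rw [this]
    apply Real.exp_le_exp.2
    push_cast
    have : ((J : ℝ) + 2) * n ≤ pC2 ε R * x + 3 * n := by nlinarith
    gcongr
  have t4 : Real.exp x ^ n = Real.exp (n * x) := by rw [← Real.exp_nat_mul]
  rw [t4, div_le_iff₀ (Real.exp_pos _)]
  calc ((n : ℝ) + 1) ^ 2 * 2 ^ n * 2 * (x ^ 6) ^ ((J + 2) * n) * Real.exp x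
      = (((n : ℝ) + 1) ^ 2 * 2) * 2 ^ n * (x ^ 6) ^ ((J + 2) * n) * Real.exp x := by ring
    _ ≤ Real.exp x * Real.exp x * Real.exp (6 * (pC2 ε R * x + 3 * n) * Real.log x)
        * Real.exp x := by gcongr
    _ = Real.exp (x + x + 6 * (pC2 ε R * x + 3 * n) * Real.log x + x) := by
        simp only [Real.exp_add]
    _ ≤ Real.exp (-(1 / 4 * x) + n * x) := by
        apply Real.exp_le_exp.2
        have k1 : (6 * pC2 ε R * Real.log x + 8 * Real.log x) * x ≤ n * x := by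
          have : 6 * pC2 ε R * Real.log x + 8 * Real.log x ≤ 2 * pC1 ε R * Real.log x := by
            nlinarith
          have := this.trans hge
          gcongr
        have k2 : x ≤ Real.log x * x := by nlinarith
        nlinarith
    _ = Real.exp (-(1 / 4 * x)) * Real.exp (n * x) := by rw [Real.exp_add]

end Pool.Agent.H989.SB
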