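import Pool.Agent.H989.SB.StgD

/-!
One stage: lower bound for one path.
-/

set_option linter.unusedSectionVars false
set_option linter.unusedVariables false

open MeasureTheory ProbabilityTheory Finset

namespace Pool.Agent.H989.SB

variable {d L : ℕ} [NeZero L] {ν : Measure ℝ} {G σ : ℝ} {z : ℂ} {K Θ Ψ θ W : ℝ} {n a ρ : ℕ}
  {e δ ρ₀ ρb bm q M Y Y₁ : ℝ} {J h₀ s : ℤ}
  {A : Finset (Fin d)} {Λ : Finset (Tor d L)} {o : Tor d L} {γ γ' : List (St d)} {τ τ' : List ℤ}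

/-- membership in `Fg` does not depend on the potential at the sites of the path -/
theorem StgA_Fg_mix (hL : 5 ≤ L) (hz : 0 < z.im) (j : ℕ) (ξ ξ' : Tor d L → ℝ) :
    mix (sites o γ).toFinset ξ ξ' ∈ Fg σ z K θ W M Y n j A Λ o γ ↔
      ξ ∈ Fg σ z K θ W M Y n j A Λ o γ := by
  have hS : (sites o γ).toFinset ⊆ full Λ (sites o γ) := by
    rw [full_union]
    exact Finset.subset_union_right
  unfold Fg
  simp only [Set.mem_ofPred_eq]
  rw [Tp_mix hL hz, Sg_mix hL hz, Res_mix hL hz j hS]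

theorem StgA_ind_mix (hL : 5 ≤ L) (hz : 0 < z.im) (j : ℕ) (ξ ξ' : Tor d L → ℝ) :
    ind (Fg σ z K θ W M Y n j A Λ o γ) (mix (sites o γ).toFinset ξ ξ') =
      ind (Fg σ z K θ W M Y n j A Λ o γ) ξ := by
  by_cases h : ξ ∈ Fg σ z K θ W M Y n j A Λ o γ
  · rw [ind_of_mem h, ind_of_mem ((StgA_Fg_mix hL hz j ξ ξ').2 h)]
  · rw [ind_of_notMem h, ind_of_notMem fun h' => h ((StgA_Fg_mix hL hz j ξ ξ').1 h')]

theorem StgA_ind_inter {α : Type*} [MeasurableSpace α] (S T : Set α) (x : α) : ind (S ∩ T) x = ind S x * ind T x := by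
  by_cases h : x ∈ S
  · by_cases h' : x ∈ T
    · rw [ind_of_mem h, ind_of_mem h', ind_of_mem (S := S ∩ T) ⟨h, h'⟩, one_mul]
    · rw [ind_of_mem h, ind_of_notMem h', ind_of_notMem (S := S ∩ T) fun h'' => h' h''.2, one_mul]
  · rw [ind_of_notMem h, ind_of_notMem (S := S ∩ T) fun h'' => h h''.1, zero_mul]

theorem StgA_cover (S : StH d L ν G σ z K Θ Ψ θ W n a ρ e δ ρ₀ ρb bm q M Y Y₁ J h₀ s)
    (P : PathH n a ρ A Λ o γ) (j : ℕ) :
    Bd σ z M Y₁ n (j + 1) A Λ o ⊆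
      (Fg σ z K θ W M Y n j A Λ o γ ∩ Bd σ z M Y₁ n (j + 1) A Λ o) ∪
      ({ξ | ¬ Tp n σ z K W θ A Λ o γ ξ} ∪
      ({ξ | ¬ Wj n σ z M Y j (A ∪ dirs γ) (full Λ (sites o γ)) (ept o γ) ξ} ∪
      {ξ | TF (NN d L) (pot σ ξ) z (dsx Λ o) W K (full Λ (sites o γ)) (sites o γ) ∧
        (∃ x ∈ o :: sites o γ, Y ≤ nsq (chi (NN d L) (full Λ (sites o γ)) (pot σ ξ) z x)) ∧
        nsq (chi (NN d L) Λ (pot σ ξ) z o)
          < Y * ((ρb / (2 * bm)) ^ (sites o γ).length / (1 + (sites o γ).length * K)) ^ 2})) := by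
  intro ξ hξ
  by_cases hT : Tp n σ z K W θ A Λ o γ ξ
  swap
  · exact Or.inr (Or.inl hT)
  by_cases hW : Wj n σ z M Y j (A ∪ dirs γ) (full Λ (sites o γ)) (ept o γ) ξ
  swap
  · exact Or.inr (Or.inr (Or.inl hW))
  have hne : γ ≠ [] := by
    intro h0
    have h1 := P.len
    rw [h0, List.length_nil] at h1
    have h2 := S.H.hn
    omega
  by_cases hS : Sg σ z Y Λ o γ ξ
  · refine Or.inl ⟨⟨hT, hS, ?_⟩, hξ⟩
    rcases hW with h | h
    · exact h
    · exact absurd h (not_le.2 (hS _ (List.mem_cons_of_mem _ (ept_mem_sites hne))))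
  · refine Or.inr (Or.inr (Or.inr ⟨hT.tf, ?_, ?_⟩))
    · unfold Sg at hS
      push Not at hS
      exact hS
    · rw [length_sites, P.len]
      refine lt_of_lt_of_le ?_ S.hY
      have h1 : ¬ Wj n σ z M Y₁ (j + 1) A Λ o ξ := hξ
      unfold Wj at h1
      push Not at h1
      exact h1.2

/-- Lower bound for one path and one list of windows.
Proof. With `S = (sites o γ).toFinset`, `f = ind (Bd ..)`, `Φ = ind (Fg ..) * Rs ν S f`: `Φ` is nice,
nonnegative and independent of the potential at the sites of `γ` (`Tp_mix`, `Sg_mix`, `Res_mix`,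
`Rs_update`, `upd_of_mix`); `win_lower` gives `pw * ∫ Φ ≤ ∫ ind (Xs ..) * Rs f` (`isPath_sites`,
`dst_dsx`, `sites_nodup`), `integral_mul_Rs` gives `∫ Φ = ∫ ind Fg * f = P (Fg ∩ Bd)`, and
`Bd ⊆ (Fg ∩ Bd) ∪ {¬ Tp} ∪ {¬ Wj j .. (ept o γ)} ∪ {TF ∧ (∃ x ∈ o :: sites o γ, Y ≤ nsq ..) ∧
nsq (chi Λ o) < Y₁}`: if `Tp` and `Wj j` hold and `Fg` fails then `Sg` fails (if `Sg` holds, the second
alternative of `Wj` is impossible, `ept o γ ∈ sites o γ`); on `Bd`, `nsq (chi Λ o) < Y₁` (`Wj`).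
`prob_Tp`, `met_unplanted`, `StH.hY`. -/
theorem stage_low [IsProbabilityMeasure ν]
    (S : StH d L ν G σ z K Θ Ψ θ W n a ρ e δ ρ₀ ρb bm q M Y Y₁ J h₀ s)
    (P : PathH n a ρ A Λ o γ) (hτ : TW n J h₀ s τ) (j : ℕ) {u : ℝ}
    (hu : (PV ν (Tor d L)).real
      {ξ | ¬ Wj n σ z M Y j (A ∪ dirs γ) (full Λ (sites o γ)) (ept o γ) ξ} ≤ u) :
    pw ρ₀ q σ n s * ((PV ν (Tor d L)).real (Bd σ z M Y₁ n (j + 1) A Λ o) - u
        - pT G K Θ Ψ θ W n a ρ - pm G σ K θ ρb bm n)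
      ≤ ∫ ξ, ind (Xs σ z K θ W q M Y n j A Λ o γ τ) ξ
          * Rs ν (sites o γ).toFinset (ind (Bd σ z M Y₁ n (j + 1) A Λ o)) ξ ∂(PV ν (Tor d L)) := by
  have hL := S.H.hL
  have hz := S.H.hz
  have hN := Loc_steps (d := d) hL
  have hK0 : 0 < K := by
    rw [S.H.hK]
    have := S.H.hd
    positivity
  have hσ : 0 < σ := lt_of_lt_of_le hK0 S.H.hσ
  have mFg : MeasurableSet (Fg σ z K θ W M Y n j A Λ o γ) := measurableSet_Fg S.H P j
  have mBd : MeasurableSet (Bd σ z M Y₁ n (j + 1) A Λ o) := measurableSet_Bd hL hz (j + 1)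
  have hlen : (sites o γ).length = n := by rw [length_sites, P.len]
  obtain ⟨f, hf⟩ : ∃ f, f = ind (Bd σ z M Y₁ n (j + 1) A Λ o) := ⟨_, rfl⟩
  have nf : Nice f := by rw [hf]; exact nice_ind1 mBd
  have f0 : ∀ ξ, 0 ≤ f ξ := fun ξ => by rw [hf]; exact ind_nonneg _ _
  have nR : Nice (Rs ν (sites o γ).toFinset f) := nice_Rs ν _ nf
  have nΦ : Nice fun ξ => ind (Fg σ z K θ W M Y n j A Λ o γ) ξ * Rs ν (sites o γ).toFinset f ξ :=
    (nice_ind1 mFg).mul nR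
  have key := win_lower (ν := ν) S.lowd S.ρ₀0.le hN hz hσ (dst_dsx Λ o) S.HW S.hwin nΦ
    (fun ξ => mul_nonneg (ind_nonneg _ _) (Rs_nonneg ν _ f0 ξ))
    (isPath_sites hL P.hΛ P.hγ) P.hΛ.1 hlen (sites_nodup hL P.hγ)
    (fun x hx ξ t => by
      have h1 : ind (Fg σ z K θ W M Y n j A Λ o γ) (Function.update ξ x t) =
          ind (Fg σ z K θ W M Y n j A Λ o γ) ξ :=
        upd_of_mix (S := (sites o γ).toFinset)
          (fun ξ ξ' => StgA_ind_mix hL hz j ξ ξ') (List.mem_toFinset.2 hx) ξ t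
      have h2 := Rs_update ν (sites o γ).toFinset (List.mem_toFinset.2 hx) f ξ t
      simp only [h1, h2])
    (fun ξ hξ => by
      by_contra hT
      have h1 : ξ ∉ Fg σ z K θ W M Y n j A Λ o γ := fun h => hT h.1.tf
      rw [ind_of_notMem h1, zero_mul] at hξ
      exact lt_irrefl _ hξ) hτ
  have e1 : ∫ ξ, ind (Xs σ z K θ W q M Y n j A Λ o γ τ) ξ * Rs ν (sites o γ).toFinset f ξ
        ∂(PV ν (Tor d L)) =
      ∫ ξ, ind {ξ | InW (NN d L) (pot σ ξ) z Λ (sites o γ) (τ.map (win q))} ξ *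
        (ind (Fg σ z K θ W M Y n j A Λ o γ) ξ * Rs ν (sites o γ).toFinset f ξ)
        ∂(PV ν (Tor d L)) := by
    refine integral_congr_ae (Filter.Eventually.of_forall fun ξ => ?_)
    simp only [Xs]
    rw [StgA_ind_inter, mul_assoc]
  have e2 : ∫ ξ, ind (Fg σ z K θ W M Y n j A Λ o γ) ξ * Rs ν (sites o γ).toFinset f ξ
        ∂(PV ν (Tor d L)) =
      (PV ν (Tor d L)).real (Fg σ z K θ W M Y n j A Λ o γ ∩ Bd σ z M Y₁ n (j + 1) A Λ o) := by
    rw [integral_mul_Rs ν _ nf (nice_ind1 mFg) (fun ξ ξ' => StgA_ind_mix hL hz j ξ ξ'),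
      ← integral_ind _ (mFg.inter mBd)]
    refine integral_congr_ae (Filter.Eventually.of_forall fun ξ => ?_)
    simp only [hf]
    rw [StgA_ind_inter]
  rw [← hf, e1]
  refine le_trans (mul_le_mul_of_nonneg_left ?_ ?_) key
  · rw [e2]
    have hmet := met_unplanted (ν := ν) (Y := Y) S.H.law S.H.hG hN hz hσ (dst_dsx Λ o) S.HW.cst
      S.ρb0 S.ρb1 S.bm3 S.bm1 (isPath_sites hL P.hΛ P.hγ) P.hΛ.1 (sites_nodup hL P.hγ)
    have hT := prob_Tp S.H P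
    have hcov := measureReal_mono (μ := PV ν (Tor d L)) (StgA_cover S P j) (measure_ne_top _ _)
    refine (sub_le_iff_le_add.2 (sub_le_iff_le_add.2 (sub_le_iff_le_add.2 ?_)))
    refine hcov.trans ((measureReal_union_le _ _).trans ?_)
    have g1 := measureReal_union_le (μ := PV ν (Tor d L)) {ξ | ¬ Tp n σ z K W θ A Λ o γ ξ}
      ({ξ | ¬ Wj n σ z M Y j (A ∪ dirs γ) (full Λ (sites o γ)) (ept o γ) ξ} ∪
      {ξ | TF (NN d L) (pot σ ξ) z (dsx Λ o) W K (full Λ (sites o γ)) (sites o γ) ∧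
        (∃ x ∈ o :: sites o γ, Y ≤ nsq (chi (NN d L) (full Λ (sites o γ)) (pot σ ξ) z x)) ∧
        nsq (chi (NN d L) Λ (pot σ ξ) z o)
          < Y * ((ρb / (2 * bm)) ^ (sites o γ).length / (1 + (sites o γ).length * K)) ^ 2})
    have g2 := measureReal_union_le (μ := PV ν (Tor d L))
      {ξ | ¬ Wj n σ z M Y j (A ∪ dirs γ) (full Λ (sites o γ)) (ept o γ) ξ}
      {ξ | TF (NN d L) (pot σ ξ) z (dsx Λ o) W K (full Λ (sites o γ)) (sites o γ) ∧
        (∃ x ∈ o :: sites o γ, Y ≤ nsq (chi (NN d L) (full Λ (sites o γ)) (pot σ ξ) z x)) ∧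
        nsq (chi (NN d L) Λ (pot σ ξ) z o)
          < Y * ((ρb / (2 * bm)) ^ (sites o γ).length / (1 + (sites o γ).length * K)) ^ 2}
    rw [hlen] at hmet g1 g2 ⊢
    unfold pT pm
    linarith
  · unfold pw
    have h1 := S.ρ₀0
    have h2 := S.HW.q1
    have h3 : 0 < q - 1 := by linarith
    have h4 : 0 < q := by linarith
    positivity

end Pool.Agent.H989.SB
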