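import Pool.Agent.H989.SB.StgD

/-!
One stage: upper bound for two paths.
-/

set_option linter.unusedSectionVars false
set_option linter.unusedVariables false

open MeasureTheory ProbabilityTheory Finset

namespace Pool.Agent.H989.SB

variable {d L : ℕ} [NeZero L] {ν : Measure ℝ} {G σ : ℝ} {z : ℂ} {K Θ Ψ θ W : ℝ} {n a ρ : ℕ}
  {e δ ρ₀ ρb bm q M Y Y₁ : ℝ} {J h₀ s : ℤ}
  {A : Finset (Fin d)} {Λ : Finset (Tor d L)} {o : Tor d L} {γ γ' : List (St d)} {τ τ' : List ℤ}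

/-- the event that the norm is lost along `γ'` -/
def StgB_E (n : ℕ) (σ : ℝ) (z : ℂ) (K W q Y Y₁ : ℝ) (Λ : Finset (Tor d L)) (o : Tor d L)
    (γ' : List (St d)) (τ' : List ℤ) : Set (Tor d L → ℝ) :=
  {ξ | TF (NN d L) (pot σ ξ) z (dsx Λ o) W K (full Λ (sites o γ')) (sites o γ') ∧
      InW (NN d L) (pot σ ξ) z Λ (sites o γ') (τ'.map (winp q)) ∧
      (∃ x ∈ o :: sites o γ', Y ≤ nsq (chi (NN d L) (full Λ (sites o γ')) (pot σ ξ) z x)) ∧
      nsq (chi (NN d L) Λ (pot σ ξ) z o) < Y₁}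

/-- the second factor of the main term -/
noncomputable def StgB_F (n j : ℕ) (σ : ℝ) (z : ℂ) (K W θ : ℝ) (A : Finset (Fin d))
    (Λ : Finset (Tor d L)) (o : Tor d L) (γ γ' : List (St d)) (η : Tor d L → ℝ) : ℝ :=
  ind {ξ : Tor d L → ℝ | ¬ Tp n σ z K W θ A Λ o γ' ξ} η
    + ind {ξ : Tor d L → ℝ | ¬ Deep n σ z K j A Λ o γ γ' ξ} η

/-- the bound for the event of the second path after the resampling -/
noncomputable def StgB_B (n j : ℕ) (σ : ℝ) (z : ℂ) (K W θ q Y Y₁ : ℝ) (A : Finset (Fin d))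
    (Λ : Finset (Tor d L)) (o : Tor d L) (γ γ' : List (St d)) (τ' : List ℤ)
    (η : Tor d L → ℝ) : ℝ :=
  ind {ξ : Tor d L → ℝ | InW (NN d L) (pot σ ξ) z (full Λ (sites o γ)) (sites o γ')
      (τ'.map (winp q))} η * StgB_F n j σ z K W θ A Λ o γ γ' η
    + ind (StgB_E n σ z K W q Y Y₁ Λ o γ' τ') η

theorem StgB_E_meas [IsProbabilityMeasure ν] (H : TypH d L ν G σ z K Θ Ψ θ W n a ρ)
    (P' : PathH n a ρ A Λ o γ') :
    MeasurableSet (StgB_E n σ z K W q Y Y₁ Λ o γ' τ') := by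
  have hN := Loc_steps (d := d) H.hL
  have hz := H.hz
  have m1 : MeasurableSet {ξ : Tor d L → ℝ |
      InW (NN d L) (pot σ ξ) z Λ (sites o γ') (τ'.map (winp q))} := by
    refine measurableSet_InW hN hz _ _ _ fun w hw => ?_
    obtain ⟨j, -, rfl⟩ := List.mem_map.1 hw
    exact measurableSet_winp q j
  have m2 : MeasurableSet {ξ : Tor d L → ℝ | ∃ x ∈ o :: sites o γ',
        Y ≤ nsq (chi (NN d L) (full Λ (sites o γ')) (pot σ ξ) z x)} := by
    have e1 : {ξ : Tor d L → ℝ | ∃ x ∈ o :: sites o γ',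
        Y ≤ nsq (chi (NN d L) (full Λ (sites o γ')) (pot σ ξ) z x)} =
        ⋃ (x : Tor d L) (_ : x ∈ o :: sites o γ'), {ξ : Tor d L → ℝ |
          Y ≤ nsq (chi (NN d L) (full Λ (sites o γ')) (pot σ ξ) z x)} := by
      ext ξ
      simp only [Set.mem_ofPred_eq, Set.mem_iUnion, exists_prop]
    rw [e1]
    refine MeasurableSet.iUnion fun x => MeasurableSet.iUnion fun _ => ?_
    exact measurableSet_le measurable_const (measurable_nsq_chi hN hz x)
  have m3 : MeasurableSet {ξ : Tor d L → ℝ | nsq (chi (NN d L) Λ (pot σ ξ) z o) < Y₁} :=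
    measurableSet_lt (measurable_nsq_chi hN hz o) measurable_const
  exact (typ_tf H P').1.inter (m1.inter (m2.inter m3))

theorem StgB_F_nonneg (n j : ℕ) (σ : ℝ) (z : ℂ) (K W θ : ℝ) (A : Finset (Fin d))
    (Λ : Finset (Tor d L)) (o : Tor d L) (γ γ' : List (St d)) (η : Tor d L → ℝ) :
    0 ≤ StgB_F n j σ z K W θ A Λ o γ γ' η :=
  add_nonneg (ind_nonneg _ _) (ind_nonneg _ _)

theorem StgB_F_nice [IsProbabilityMeasure ν] (H : TypH d L ν G σ z K Θ Ψ θ W n a ρ)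
    (P' : PathH n a ρ A Λ o γ') (j : ℕ) :
    Nice (StgB_F n j σ z K W θ A Λ o γ γ') :=
  (nice_ind1 (measurableSet_Tp H P').compl).add
    (nice_ind1 (measurableSet_Deep (γ' := γ') H.hL H.hz j).compl)

theorem StgB_winp_meas (hL : 5 ≤ L) (hz : 0 < z.im) (Λ' : Finset (Tor d L))
    (xs : List (Tor d L)) (τ' : List ℤ) :
    MeasurableSet {ξ : Tor d L → ℝ | InW (NN d L) (pot σ ξ) z Λ' xs (τ'.map (winp q))} := by
  refine measurableSet_InW (Loc_steps hL) hz _ _ _ fun w hw => ?_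
  obtain ⟨j, -, rfl⟩ := List.mem_map.1 hw
  exact measurableSet_winp q j

theorem StgB_B_nice [IsProbabilityMeasure ν] (H : TypH d L ν G σ z K Θ Ψ θ W n a ρ)
    (P' : PathH n a ρ A Λ o γ') (j : ℕ) :
    Nice (StgB_B n j σ z K W θ q Y Y₁ A Λ o γ γ' τ') :=
  ((nice_ind1 (StgB_winp_meas H.hL H.hz _ _ _)).mul (StgB_F_nice H P' j)).add
    (nice_ind1 (StgB_E_meas H P'))

theorem StgB_B_nonneg (n j : ℕ) (σ : ℝ) (z : ℂ) (K W θ q Y Y₁ : ℝ) (A : Finset (Fin d))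
    (Λ : Finset (Tor d L)) (o : Tor d L) (γ γ' : List (St d)) (τ' : List ℤ)
    (η : Tor d L → ℝ) : 0 ≤ StgB_B n j σ z K W θ q Y Y₁ A Λ o γ γ' τ' η :=
  add_nonneg (mul_nonneg (ind_nonneg _ _) (StgB_F_nonneg _ _ _ _ _ _ _ _ _ _ _ _ _))
    (ind_nonneg _ _)

/-- the pointwise bound -/
theorem StgB_point (hL : 5 ≤ L) (hz : 0 < z.im) (H : WinP z K θ W q M Y n J h₀ s)
    (hΛ : Around A o Λ) (hγ : Val A γ) (hγ' : Val A γ') (hl : γ.length = n) (hl' : γ'.length = n)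
    (hd : ∀ t ∈ γ, t ∉ γ') (hτ' : TW n J h₀ s τ') (j : ℕ) (ξ ξ' : Tor d L → ℝ) :
    ind (Xs σ z K θ W q M Y n j A Λ o γ τ) ξ * ind (Xs σ z K θ W q M Y n j A Λ o γ' τ') ξ
        * ind (Bd σ z M Y₁ n (j + 1) A Λ o) (mix (sites o γ).toFinset ξ ξ')
      ≤ ind {ξ : Tor d L → ℝ | InW (NN d L) (pot σ ξ) z Λ (sites o γ) (τ.map (win q))} ξ
        * StgB_B n j σ z K W θ q Y Y₁ A Λ o γ γ' τ' (mix (sites o γ).toFinset ξ ξ') := by
  have hR : 0 ≤ ind {ξ : Tor d L → ℝ | InW (NN d L) (pot σ ξ) z Λ (sites o γ) (τ.map (win q))} ξ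
        * StgB_B n j σ z K W θ q Y Y₁ A Λ o γ γ' τ' (mix (sites o γ).toFinset ξ ξ') :=
    mul_nonneg (ind_nonneg _ _) (StgB_B_nonneg _ _ _ _ _ _ _ _ _ _ _ _ _ _ _ _ _)
  by_cases h1 : ξ ∈ Xs σ z K θ W q M Y n j A Λ o γ τ
  swap
  · rw [ind_of_notMem h1, zero_mul, zero_mul]; exact hR
  by_cases h2 : ξ ∈ Xs σ z K θ W q M Y n j A Λ o γ' τ'
  swap
  · rw [ind_of_notMem h2, mul_zero, zero_mul]; exact hR
  by_cases h3 : mix (sites o γ).toFinset ξ ξ' ∈ Bd σ z M Y₁ n (j + 1) A Λ o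
  swap
  · rw [ind_of_notMem h3, mul_zero]; exact hR
  clear hR
  set η := mix (sites o γ).toFinset ξ ξ' with hη
  rw [ind_of_mem h1, ind_of_mem h2, ind_of_mem h3, one_mul, one_mul, ind_of_mem
    (S := {ξ : Tor d L → ℝ | InW (NN d L) (pot σ ξ) z Λ (sites o γ) (τ.map (win q))}) h1.1, one_mul]
  obtain ⟨hw', T', S', R'⟩ := h2
  have hN := Loc_steps (d := d) hL
  have hag : ∀ x, x ∉ sites o γ → ξ x = η x := by
    intro x hx
    rw [hη]
    unfold mix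
    rw [if_neg fun h => hx (List.mem_toFinset.1 h)]
  have hoff := pair_off hL hz H hΛ hγ hγ' hl hl' hd hτ' T' hw'
  have hoffη : InW (NN d L) (pot σ η) z (full Λ (sites o γ)) (sites o γ') (τ'.map (winp q)) := by
    refine (InW_loc hN hz _ _ _ (fun x hx => ?_) fun x hx => ?_).1 hoff
    · have h4 : x ∉ sites o γ := fun h => hx ((mem_full _ _ _).2 (Or.inr h))
      unfold pot
      rw [hag x h4]
    · have h4 : x ∉ sites o γ := fun h =>
        (sites_disjoint hL hγ' hγ hd (x := x) (y := x) hx h).1 rfl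
      unfold pot
      rw [hag x h4]
  unfold StgB_B
  rw [ind_of_mem (S := {ξ : Tor d L → ℝ | InW (NN d L) (pot σ ξ) z (full Λ (sites o γ))
    (sites o γ') (τ'.map (winp q))}) hoffη, one_mul]
  by_cases h4 : Tp n σ z K W θ A Λ o γ' η
  swap
  · have e1 : ind {ξ : Tor d L → ℝ | ¬ Tp n σ z K W θ A Λ o γ' ξ} η = 1 := ind_of_mem h4
    have e2 := ind_nonneg {ξ : Tor d L → ℝ | ¬ Deep n σ z K j A Λ o γ γ' ξ} η
    have e3 := ind_nonneg (StgB_E n σ z K W q Y Y₁ Λ o γ' τ') η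
    unfold StgB_F
    linarith
  by_cases h5 : Deep n σ z K j A Λ o γ γ' η
  swap
  · have e1 : ind {ξ : Tor d L → ℝ | ¬ Deep n σ z K j A Λ o γ γ' ξ} η = 1 := ind_of_mem h5
    have e2 := ind_nonneg {ξ : Tor d L → ℝ | ¬ Tp n σ z K W θ A Λ o γ' ξ} η
    have e3 := ind_nonneg (StgB_E n σ z K W q Y Y₁ Λ o γ' τ') η
    unfold StgB_F
    linarith
  have hin := pair_in hL hz H hΛ hγ hγ' hl hl' hd hτ' hag T' h4 hw'
  have h6 : η ∈ StgB_E n σ z K W q Y Y₁ Λ o γ' τ' := by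
    have h3' : ¬ (Res n σ z M (j + 1) A Λ o η ∨ Y₁ ≤ nsq (chi (NN d L) Λ (pot σ η) z o)) := h3
    rw [not_or] at h3'
    refine ⟨h4.tf, hin, ?_, lt_of_not_ge h3'.2⟩
    by_contra hcon
    push Not at hcon
    exact h3'.1 (pair_res hL hz H hΛ hγ hγ' hl hl' hd hτ' hag T' h4 hw' h5 R' hcon)
  rw [ind_of_mem h6]
  have := StgB_F_nonneg n j σ z K W θ A Λ o γ γ' η
  linarith

/-- the integral of the bound -/
theorem StgB_int [IsProbabilityMeasure ν]
    (S : StH d L ν G σ z K Θ Ψ θ W n a ρ e δ ρ₀ ρb bm q M Y Y₁ J h₀ s)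
    (P : PathH n a ρ A Λ o γ) (P' : PathH n a ρ A Λ o γ') (hd : ∀ t ∈ γ', t ∉ γ)
    (hτ' : TW n J h₀ s τ') (j : ℕ) (hj : (j + 2) * n + 2 ≤ ρ) :
    ∫ ξ, StgB_B n j σ z K W θ q Y Y₁ A Λ o γ γ' τ' ξ ∂(PV ν (Tor d L))
      ≤ pp G q σ n s * (pT G K Θ Ψ θ W n a ρ + pD K Θ Ψ n j + 2 * n * ρb) := by
  have hL := S.H.hL
  have hz := S.H.hz
  have hN := Loc_steps (d := d) hL
  have hG := S.H.hG
  have hd0 : (0 : ℝ) < d := by exact_mod_cast S.H.hd
  have hσ : 0 < σ := by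
    have h1 := S.H.hσ
    have h2 := S.H.hK
    linarith
  have hq0 : 0 < q := by linarith [S.HW.q1]
  have hpp0 : 0 ≤ pp G q σ n s := by
    unfold pp
    have := zpow_nonneg hq0.le s
    positivity
  have hFn := StgB_F_nice (γ := γ) S.H P' j
  have hWm := StgB_winp_meas (σ := σ) (q := q) hL hz (full Λ (sites o γ)) (sites o γ') τ'
  have hsplit : ∫ ξ, StgB_B n j σ z K W θ q Y Y₁ A Λ o γ γ' τ' ξ ∂(PV ν (Tor d L)) =
      ∫ ξ, ind {ξ : Tor d L → ℝ | InW (NN d L) (pot σ ξ) z (full Λ (sites o γ)) (sites o γ')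
      (τ'.map (winp q))} ξ * StgB_F n j σ z K W θ A Λ o γ γ' ξ ∂(PV ν (Tor d L))
      + ∫ ξ, ind (StgB_E n σ z K W q Y Y₁ Λ o γ' τ') ξ ∂(PV ν (Tor d L)) := by
    unfold StgB_B
    exact integral_add ((nice_ind1 hWm).mul hFn).integrable
      (nice_ind1 (StgB_E_meas S.H P')).integrable
  have h1 := winp_upper (V := Tor d L) (N := NN d L) (Λ := full Λ (sites o γ)) (σ := σ) (z := z)
    (n := n) (J := J) (h₀ := h₀) (s := s) (xs := sites o γ') (τ := τ')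
    (Φ := StgB_F n j σ z K W θ A Λ o γ γ') (q := q) S.H.law hG.le hN hz hσ S.HW.q1 hFn
    (StgB_F_nonneg _ _ _ _ _ _ _ _ _ _ _ _) (by rw [length_sites, P'.len])
    (sites_nodup hL P'.hγ) (by
      intro x hx hx'
      rcases (mem_full _ _ _).1 hx' with h | h
      · exact sites_notMem hL P'.hΛ P'.hγ hx h
      · exact (sites_disjoint hL P.hγ P'.hγ hd h hx).1 rfl) (by
      intro x hx ξ t
      have hx2 : x ∈ (sites o γ').toFinset := List.mem_toFinset.2 hx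
      have hsub : (sites o γ').toFinset ⊆ full (full Λ (sites o γ)) (sites o γ') := by
        rw [full_union]
        exact Finset.subset_union_right
      have g1 : ∀ ξ ξ' : Tor d L → ℝ, ind {ξ : Tor d L → ℝ | ¬ Tp n σ z K W θ A Λ o γ' ξ}
          (mix (sites o γ').toFinset ξ ξ') =
          ind {ξ : Tor d L → ℝ | ¬ Tp n σ z K W θ A Λ o γ' ξ} ξ := by
        intro ξ ξ'
        have g := Tp_mix (n := n) (σ := σ) (K := K) (W := W) (θ := θ) (A := A) (Λ := Λ) (o := o)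
          (γ := γ') hL hz ξ ξ'
        by_cases h : Tp n σ z K W θ A Λ o γ' ξ
        · rw [ind_of_notMem (S := {ξ : Tor d L → ℝ | ¬ Tp n σ z K W θ A Λ o γ' ξ})
            (fun hc => hc (g.2 h)), ind_of_notMem
            (S := {ξ : Tor d L → ℝ | ¬ Tp n σ z K W θ A Λ o γ' ξ}) (fun hc => hc h)]
        · rw [ind_of_mem (S := {ξ : Tor d L → ℝ | ¬ Tp n σ z K W θ A Λ o γ' ξ})
            (fun hc => h (g.1 hc)), ind_of_mem
            (S := {ξ : Tor d L → ℝ | ¬ Tp n σ z K W θ A Λ o γ' ξ}) h]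
      have g2 : ∀ ξ ξ' : Tor d L → ℝ, ind {ξ : Tor d L → ℝ | ¬ Deep n σ z K j A Λ o γ γ' ξ}
          (mix (sites o γ').toFinset ξ ξ') =
          ind {ξ : Tor d L → ℝ | ¬ Deep n σ z K j A Λ o γ γ' ξ} ξ := by
        intro ξ ξ'
        have g := Deep_mix (n := n) (σ := σ) (K := K) (A := A) (Λ := Λ) (o := o)
          (γ := γ) hL hz j γ' hsub ξ ξ'
        by_cases h : Deep n σ z K j A Λ o γ γ' ξ
        · rw [ind_of_notMem (S := {ξ : Tor d L → ℝ | ¬ Deep n σ z K j A Λ o γ γ' ξ})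
            (fun hc => hc (g.2 h)), ind_of_notMem
            (S := {ξ : Tor d L → ℝ | ¬ Deep n σ z K j A Λ o γ γ' ξ}) (fun hc => hc h)]
        · rw [ind_of_mem (S := {ξ : Tor d L → ℝ | ¬ Deep n σ z K j A Λ o γ γ' ξ})
            (fun hc => h (g.1 hc)), ind_of_mem
            (S := {ξ : Tor d L → ℝ | ¬ Deep n σ z K j A Λ o γ γ' ξ}) h]
      unfold StgB_F
      rw [upd_of_mix g1 hx2, upd_of_mix g2 hx2]) hτ'
  have h2 : ∫ ξ, StgB_F n j σ z K W θ A Λ o γ γ' ξ ∂(PV ν (Tor d L)) ≤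
      pT G K Θ Ψ θ W n a ρ + pD K Θ Ψ n j := by
    have e1 := nice_ind1 (measurableSet_Tp S.H P').compl
    have e2 := nice_ind1 (measurableSet_Deep (n := n) (σ := σ) (z := z) (K := K) (A := A) (Λ := Λ)
      (o := o) (γ := γ) (γ' := γ') hL hz j).compl
    have e3 : ∫ ξ, StgB_F n j σ z K W θ A Λ o γ γ' ξ ∂(PV ν (Tor d L)) =
        (PV ν (Tor d L)).real {ξ | ¬ Tp n σ z K W θ A Λ o γ' ξ}
        + (PV ν (Tor d L)).real {ξ | ¬ Deep n σ z K j A Λ o γ γ' ξ} := by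
      have q1 := integral_ind (PV ν (Tor d L)) (S := {ξ : Tor d L → ℝ |
        ¬ Tp n σ z K W θ A Λ o γ' ξ}) (measurableSet_Tp S.H P').compl
      have q2 := integral_ind (PV ν (Tor d L)) (S := {ξ : Tor d L → ℝ |
        ¬ Deep n σ z K j A Λ o γ γ' ξ}) (measurableSet_Deep (n := n) (σ := σ) (z := z) (K := K)
          (A := A) (Λ := Λ) (o := o) (γ := γ) (γ' := γ') hL hz j).compl
      rw [← q1, ← q2]
      exact integral_add e1.integrable e2.integrable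
    rw [e3]
    exact add_le_add (prob_Tp S.H P') (typ_deep S.H P P'.hγ P'.len hd j hj).2
  have h3 : ∫ ξ, ind (StgB_E n σ z K W q Y Y₁ Λ o γ' τ') ξ ∂(PV ν (Tor d L)) ≤
      2 * n * ρb * pp G q σ n s := by
    rw [integral_ind _ (StgB_E_meas S.H P')]
    have hbm : z.im + W + 8 * W ^ 2 * (K * θ) ≤ bm := by
      have g1 := S.bm3
      have g2 := abs_nonneg z.re
      have g3 : 0 ≤ W := by linarith [S.H.hW]
      have g4 : 0 ≤ 8 * W ^ 2 * (K * θ) := by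
        have g5 : 0 < K := by linarith [S.HW.cst.K1]
        have g6 := S.H.hθ
        positivity
      linarith
    exact nc_upper (V := Tor d L) (N := NN d L) (Λ := Λ) S.H.law hG.le hN hz hσ (dst_dsx Λ o) S.HW
      S.ρb0 S.ρb1 hbm S.bm1 S.bm2 S.hY (isPath_sites hL P'.hΛ P'.hγ) P'.hΛ.1
      (by rw [length_sites, P'.len]) (sites_nodup hL P'.hγ) hτ'
  rw [hsplit]
  have h4 := mul_le_mul_of_nonneg_left h2 hpp0
  calc _ ≤ pp G q σ n s * (pT G K Θ Ψ θ W n a ρ + pD K Θ Ψ n j) + 2 * n * ρb * pp G q σ n s :=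
        add_le_add (h1.trans h4) h3
    _ = _ := by ring

/-- Upper bound for two paths without common steps.
Proof. With `S = (sites o γ).toFinset`.  For all `ξ, ξ'`, `η = mix S ξ ξ'`:
`ind (Xs γ τ) ξ * ind (Xs γ' τ') ξ * ind Bd η ≤ ind {InW .. (sites o γ) (τ.map (win q))} ξ * B η`,
`B η = ind {InW (full Λ (sites o γ)) (sites o γ') (τ'.map (winp q))} η * (ind {¬ Tp γ'} η +
ind {¬ Deep γ γ'} η) + ind {TF γ' ∧ InW Λ (sites o γ') (winp) ∧ (∃ x ∈ o :: sites o γ', Y ≤ nsq ..) ∧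
nsq (chi Λ o) < Y₁} η`:
by `pair_off` and `InW_loc` the first indicator is one; if `Tp γ'` and `Deep` hold at `η` then `pair_in`
gives the windows, and `pair_res` with `η ∈ Bd` excludes `Sg γ'` at `η`.
So the integral is at most `∫ ind {InW ..} ξ * Rs ν S B ξ` (write `Rs` as the integral over `ξ'`; the
product of the first two factors does not depend on `ξ'`), `≤ pp * ∫ Rs ν S B = pp * ∫ B`
(`win_upper`, `integral_Rs`), and the three terms of `∫ B` are at most `pp * P(¬Tp γ')`,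
`pp * P(¬ Deep)` (`winp_upper` with the removed sites `full Λ (sites o γ)` and the path `γ'`; the
indicators do not depend on the potential on `γ'`: `Tp_mix`, `Deep_mix`, `upd_of_mix`) and
`2 n ρb pp` (`nc_upper`). -/
theorem stage_pair [IsProbabilityMeasure ν]
    (S : StH d L ν G σ z K Θ Ψ θ W n a ρ e δ ρ₀ ρb bm q M Y Y₁ J h₀ s)
    (P : PathH n a ρ A Λ o γ) (P' : PathH n a ρ A Λ o γ') (hd : ∀ t ∈ γ', t ∉ γ)
    (hτ : TW n J h₀ s τ) (hτ' : TW n J h₀ s τ') (j : ℕ) (hj : (j + 2) * n + 2 ≤ ρ) :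
    ∫ ξ, ind (Xs σ z K θ W q M Y n j A Λ o γ τ) ξ * ind (Xs σ z K θ W q M Y n j A Λ o γ' τ') ξ
          * Rs ν (sites o γ).toFinset (ind (Bd σ z M Y₁ n (j + 1) A Λ o)) ξ ∂(PV ν (Tor d L))
      ≤ pp G q σ n s * (pp G q σ n s
          * (pT G K Θ Ψ θ W n a ρ + pD K Θ Ψ n j + 2 * n * ρb)) := by
  have hL := S.H.hL
  have hz := S.H.hz
  have hN := Loc_steps (d := d) hL
  have hG := S.H.hG
  have hd0 : (0 : ℝ) < d := by exact_mod_cast S.H.hd
  have hσ : 0 < σ := by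
    have h1 := S.H.hσ
    have h2 := S.H.hK
    linarith
  have hq0 : 0 < q := by linarith [S.HW.q1]
  have hpp0 : 0 ≤ pp G q σ n s := by
    unfold pp
    have := zpow_nonneg hq0.le s
    positivity
  have hd' : ∀ t ∈ γ, t ∉ γ' := fun t ht ht' => hd t ht' ht
  set T : Finset (Tor d L) := (sites o γ).toFinset with hT
  set B : (Tor d L → ℝ) → ℝ := StgB_B n j σ z K W θ q Y Y₁ A Λ o γ γ' τ' with hB
  have hBn : Nice B := StgB_B_nice S.H P' j
  have hBdn : Nice (ind (Bd σ z M Y₁ n (j + 1) A Λ o)) := nice_ind1 (measurableSet_Bd hL hz (j + 1))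
  have hRn : Nice (Rs ν T B) := nice_Rs ν T hBn
  have hWm : MeasurableSet {ξ : Tor d L → ℝ |
      InW (NN d L) (pot σ ξ) z Λ (sites o γ) (τ.map (win q))} := by
    refine measurableSet_InW hN hz _ _ _ fun w hw => ?_
    obtain ⟨i, -, rfl⟩ := List.mem_map.1 hw
    exact measurableSet_win q i
  have hpt : ∀ ξ : Tor d L → ℝ, ind (Xs σ z K θ W q M Y n j A Λ o γ τ) ξ
        * ind (Xs σ z K θ W q M Y n j A Λ o γ' τ') ξ
        * Rs ν T (ind (Bd σ z M Y₁ n (j + 1) A Λ o)) ξ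
      ≤ ind {ξ : Tor d L → ℝ | InW (NN d L) (pot σ ξ) z Λ (sites o γ) (τ.map (win q))} ξ
        * Rs ν T B ξ := by
    intro ξ
    unfold Rs
    rw [← integral_const_mul, ← integral_const_mul]
    refine integral_mono ((nice_mix_left hBdn T ξ).const_mul _).integrable
      ((nice_mix_left hBn T ξ).const_mul _).integrable fun ξ' => ?_
    exact StgB_point hL hz S.HW P.hΛ P.hγ P'.hγ P.len P'.len hd' hτ' j ξ ξ'
  have h1 : ∫ ξ, ind (Xs σ z K θ W q M Y n j A Λ o γ τ) ξ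
        * ind (Xs σ z K θ W q M Y n j A Λ o γ' τ') ξ
        * Rs ν T (ind (Bd σ z M Y₁ n (j + 1) A Λ o)) ξ ∂(PV ν (Tor d L))
      ≤ ∫ ξ, ind {ξ : Tor d L → ℝ | InW (NN d L) (pot σ ξ) z Λ (sites o γ) (τ.map (win q))} ξ
        * Rs ν T B ξ ∂(PV ν (Tor d L)) :=
    integral_mono (((nice_ind1 (measurableSet_Xs S.H P j τ)).mul
      (nice_ind1 (measurableSet_Xs S.H P' j τ'))).mul (nice_Rs ν T hBdn)).integrable
      ((nice_ind1 hWm).mul hRn).integrable hpt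
  have h2 := win_upper (V := Tor d L) (N := NN d L) (Λ := Λ) (σ := σ) (z := z)
    (n := n) (J := J) (h₀ := h₀) (s := s) (xs := sites o γ) (τ := τ)
    (Φ := Rs ν T B) (q := q) S.H.law hG.le hN hz hσ S.HW.q1 hRn
    (Rs_nonneg ν T (StgB_B_nonneg _ _ _ _ _ _ _ _ _ _ _ _ _ _ _ _))
    (by rw [length_sites, P.len]) (sites_nodup hL P.hγ)
    (fun x hx => sites_notMem hL P.hΛ P.hγ hx)
    (fun x hx ξ t => Rs_update ν T (List.mem_toFinset.2 hx) B ξ t) hτ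
  rw [integral_Rs ν T hBn] at h2
  exact h1.trans (h2.trans (mul_le_mul_of_nonneg_left (StgB_int S P P' hd hτ' j hj) hpp0))

end Pool.Agent.H989.SB
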