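import Pool.Agent.H989.SB.StgA
import Pool.Agent.H989.SB.StgB

/-!
One stage: counting.
-/

set_option linter.unusedSectionVars false
set_option linter.unusedVariables false

open MeasureTheory ProbabilityTheory Finset

namespace Pool.Agent.H989.SB

variable {d L : ℕ} [NeZero L] {ν : Measure ℝ} {G σ : ℝ} {z : ℂ} {K Θ Ψ θ W : ℝ} {n a ρ : ℕ}
  {e δ ρ₀ ρb bm q M Y Y₁ : ℝ} {J h₀ s : ℤ}
  {A : Finset (Fin d)} {Λ : Finset (Tor d L)} {o : Tor d L} {γ γ' : List (St d)} {τ τ' : List ℤ}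

/-- Counting: if `x i ∈ {0, 1}`, `0 ≤ w i ≤ 1` then
`∑ x i w i ≤ 1 + ∑_{i ≠ j} x i x j w i`. -/
theorem count_le {ι : Type*} [DecidableEq ι] (I : Finset ι) (x w : ι → ℝ)
    (hx : ∀ i ∈ I, x i = 0 ∨ x i = 1) (h0 : ∀ i ∈ I, 0 ≤ w i) (h1 : ∀ i ∈ I, w i ≤ 1) :
    ∑ i ∈ I, x i * w i ≤ 1 + ∑ i ∈ I, ∑ j ∈ I.erase i, x i * x j * w i := by
  have hx0 : ∀ i ∈ I, 0 ≤ x i := fun i hi => by
    rcases hx i hi with h | h
    · rw [h]
    · rw [h]; exact zero_le_one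
  have hnn : ∀ i ∈ I, ∀ j ∈ I.erase i, 0 ≤ x i * x j * w i := fun i hi j hj =>
    mul_nonneg (mul_nonneg (hx0 i hi) (hx0 j (Finset.mem_of_mem_erase hj))) (h0 i hi)
  by_cases h : ∃ i ∈ I, ∃ j ∈ I, i ≠ j ∧ x i = 1 ∧ x j = 1
  · obtain ⟨i₀, hi₀, j₀, hj₀, hne, hxi, hxj⟩ := h
    have key : ∀ i ∈ I, x i * w i ≤ ∑ j ∈ I.erase i, x i * x j * w i := by
      intro i hi
      obtain ⟨j, hj, hj1⟩ : ∃ j ∈ I.erase i, x j = 1 := by
        by_cases hii : i = i₀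
        · exact ⟨j₀, Finset.mem_erase.2 ⟨fun e => hne (by rw [← hii, ← e]), hj₀⟩, hxj⟩
        · exact ⟨i₀, Finset.mem_erase.2 ⟨fun e => hii e.symm, hi₀⟩, hxi⟩
      calc x i * w i = x i * x j * w i := by rw [hj1, mul_one]
        _ ≤ _ := Finset.single_le_sum (f := fun j => x i * x j * w i)
            (fun k hk => hnn i hi k hk) hj
    have := Finset.sum_le_sum key
    linarith
  · push Not at h
    have h2 : 0 ≤ ∑ i ∈ I, ∑ j ∈ I.erase i, x i * x j * w i :=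
      Finset.sum_nonneg fun i hi => Finset.sum_nonneg fun j hj => hnn i hi j hj
    have h3 : ∑ i ∈ I, x i * w i ≤ 1 := by
      by_cases h4 : ∃ i ∈ I, x i = 1
      · obtain ⟨i₀, hi₀, hxi⟩ := h4
        rw [Finset.sum_eq_single i₀]
        · rw [hxi, one_mul]
          exact h1 i₀ hi₀
        · intro j hj hji
          rcases hx j hj with h5 | h5
          · rw [h5, zero_mul]
          · exact absurd h5 (h i₀ hi₀ j hj (fun e => hji e.symm) hxi)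
        · intro h5
          exact absurd hi₀ h5
      · push Not at h4
        rw [Finset.sum_eq_zero]
        · exact zero_le_one
        · intro i hi
          rcases hx i hi with h5 | h5
          · rw [h5, zero_mul]
          · exact absurd h5 (h4 i hi)
    linarith

/-- two good paths with a common step are equal, with the same windows -/
theorem stgC_uniq [IsProbabilityMeasure ν]
    (S : StH d L ν G σ z K Θ Ψ θ W n a ρ e δ ρ₀ ρb bm q M Y Y₁ J h₀ s) {j : ℕ}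
    (P : PathH n a ρ A Λ o γ) (P' : PathH n a ρ A Λ o γ') (hτ : TW n J h₀ s τ)
    (hτ' : TW n J h₀ s τ') (hc : ∃ t ∈ γ, t ∈ γ') {ξ : Tor d L → ℝ}
    (h : ξ ∈ Xs σ z K θ W q M Y n j A Λ o γ τ) (h' : ξ ∈ Xs σ z K θ W q M Y n j A Λ o γ' τ') :
    γ = γ' ∧ τ = τ' :=
  uniq S.H.hL S.H.hz S.HW P.hΛ P.hγ P'.hγ P.len P'.len hτ hτ' h.1 h'.1 h.2.1 h'.2.1 h.2.2.1
    h'.2.2.1 hc

theorem stgC_pp_nonneg [IsProbabilityMeasure ν]
    (S : StH d L ν G σ z K Θ Ψ θ W n a ρ e δ ρ₀ ρb bm q M Y Y₁ J h₀ s) : 0 ≤ pp G q σ n s := by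
  have h1 := S.H.hG
  have h2 := S.HW.q1
  have h3 : 0 < σ := by
    have h4 := S.H.hσ
    have h5 := S.HW.cst.K1
    linarith
  unfold pp
  positivity

theorem stgC_pw_pos [IsProbabilityMeasure ν]
    (S : StH d L ν G σ z K Θ Ψ θ W n a ρ e δ ρ₀ ρb bm q M Y Y₁ J h₀ s) : 0 < pw ρ₀ q σ n s := by
  have h1 := S.ρ₀0
  have h2 := S.HW.q1
  have h3 : 0 < σ := by
    have h4 := S.H.hσ
    have h5 := S.HW.cst.K1
    linarith
  have h6 : 0 < q - 1 := by linarith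
  unfold pw
  positivity

theorem stgC_sum_nonneg [IsProbabilityMeasure ν]
    (S : StH d L ν G σ z K Θ Ψ θ W n a ρ e δ ρ₀ ρb bm q M Y Y₁ J h₀ s) (j : ℕ) :
    0 ≤ pT G K Θ Ψ θ W n a ρ + pD K Θ Ψ n j + 2 * n * ρb := by
  have h1 := S.H.hG
  have h2 : 0 < K := by
    have h5 := S.HW.cst.K1
    linarith
  have h3 := S.H.hΨ
  have h4 := S.H.hΘ
  have h5 := S.H.hW
  have h6 := S.H.hθ
  have h7 := S.ρb0
  unfold pT pD Bn
  positivity

/-- One stage.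
Proof. `count_le` with `I = 𝒢 ×ˢ 𝒯`, `x i = ind (Xs ..) ξ`, `w i = Rs ..`, integrated; `stage_low` for
the left side; for `i ≠ j` the integral is zero if the two paths have a common step (`uniq`: `Xs` of
both is impossible), and otherwise at most `pp² (..)` by `stage_pair`.  With
`Z = #𝒢 #𝒯`: `Z pw (P(Bd) - u - pT - pm) ≤ 1 + Z² pp² (pT + pD + 2 n ρb)`. -/
theorem stage [IsProbabilityMeasure ν]
    (S : StH d L ν G σ z K Θ Ψ θ W n a ρ e δ ρ₀ ρb bm q M Y Y₁ J h₀ s)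
    (hA : A.card + 2 * n ≤ a) (hΛ : Around A o Λ) (hc : Λ.card + 2 * n ≤ a)
    (hρ : ∀ x ∈ Λ, wt (x - o) + 2 * n + 2 ≤ ρ) (j : ℕ) (hj : (j + 2) * n + 2 ≤ ρ)
    (𝒢 : Finset (List (St d))) (h𝒢 : ∀ γ ∈ 𝒢, Val A γ ∧ γ.length = n)
    (𝒯 : Finset (List ℤ)) (h𝒯 : ∀ τ ∈ 𝒯, TW n J h₀ s τ) {u : ℝ}
    (hu : ∀ γ ∈ 𝒢, (PV ν (Tor d L)).real
      {ξ | ¬ Wj n σ z M Y j (A ∪ dirs γ) (full Λ (sites o γ)) (ept o γ) ξ} ≤ u)
    (hZ : 0 < (𝒢.card : ℝ) * 𝒯.card) :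
    (PV ν (Tor d L)).real (Bd σ z M Y₁ n (j + 1) A Λ o)
      ≤ u + pT G K Θ Ψ θ W n a ρ + pm G σ K θ ρb bm n
        + (1 + ((𝒢.card : ℝ) * 𝒯.card * pp G q σ n s) ^ 2
            * (pT G K Θ Ψ θ W n a ρ + pD K Θ Ψ n j + 2 * n * ρb))
          / ((𝒢.card : ℝ) * 𝒯.card * pw ρ₀ q σ n s) := by
  classical
  have hpp := stgC_pp_nonneg S
  have hpw := stgC_pw_pos S
  have hE := stgC_sum_nonneg S j
  have hP : ∀ γ ∈ 𝒢, PathH n a ρ A Λ o γ := fun γ hγ =>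
    ⟨hA, hΛ, hc, hρ, (h𝒢 γ hγ).1, (h𝒢 γ hγ).2⟩
  obtain ⟨B, hB⟩ : ∃ B : Set (Tor d L → ℝ), B = Bd σ z M Y₁ n (j + 1) A Λ o := ⟨_, rfl⟩
  have hBm : MeasurableSet B := by
    rw [hB]
    exact measurableSet_Bd S.H.hL S.H.hz (j + 1)
  have hBn : Nice (ind B) := nice_ind1 hBm
  obtain ⟨I, hI⟩ : ∃ I : Finset (List (St d) × List ℤ), I = 𝒢 ×ˢ 𝒯 := ⟨_, rfl⟩
  obtain ⟨x, hx⟩ : ∃ x : List (St d) × List ℤ → (Tor d L → ℝ) → ℝ,
      x = fun p => ind (Xs σ z K θ W q M Y n j A Λ o p.1 p.2) := ⟨_, rfl⟩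
  obtain ⟨w, hw⟩ : ∃ w : List (St d) × List ℤ → (Tor d L → ℝ) → ℝ,
      w = fun p => Rs ν (sites o p.1).toFinset (ind B) := ⟨_, rfl⟩
  have hmem : ∀ p ∈ I, p.1 ∈ 𝒢 ∧ p.2 ∈ 𝒯 := fun p hp => by
    rw [hI] at hp
    exact Finset.mem_product.1 hp
  have hxn : ∀ p ∈ I, Nice (x p) := fun p hp => by
    rw [hx]
    exact nice_ind1 (measurableSet_Xs S.H (hP p.1 (hmem p hp).1) j p.2)
  have hwn : ∀ p, Nice (w p) := fun p => by
    rw [hw]
    exact nice_Rs ν _ hBn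
  have hw0 : ∀ p ξ, 0 ≤ w p ξ := fun p ξ => by
    rw [hw]
    exact Rs_nonneg ν _ (ind_nonneg B) ξ
  have hw1 : ∀ p ξ, w p ξ ≤ 1 := fun p ξ => by
    rw [hw]
    exact Rs_le_one ν _ (ind_nonneg B) (ind_le_one B) ξ
  have hx01 : ∀ p ξ, x p ξ = 0 ∨ x p ξ = 1 := fun p ξ => by
    rw [hx]
    by_cases h : ξ ∈ Xs σ z K θ W q M Y n j A Λ o p.1 p.2
    · exact Or.inr (ind_of_mem h)
    · exact Or.inl (ind_of_notMem h)
  -- the pointwise inequality, integrated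
  have hpt : ∀ ξ, ∑ p ∈ I, x p ξ * w p ξ ≤
      1 + ∑ p ∈ I, ∑ p' ∈ I.erase p, x p ξ * x p' ξ * w p ξ := fun ξ =>
    count_le I (fun p => x p ξ) (fun p => w p ξ) (fun p _ => hx01 p ξ) (fun p _ => hw0 p ξ)
      (fun p _ => hw1 p ξ)
  have hn1 : ∀ p ∈ I, Nice fun ξ => x p ξ * w p ξ := fun p hp => (hxn p hp).mul (hwn p)
  have hn2 : ∀ p ∈ I, ∀ p' ∈ I.erase p, Nice fun ξ => x p ξ * x p' ξ * w p ξ :=
    fun p hp p' hp' => ((hxn p hp).mul (hxn p' (Finset.mem_of_mem_erase hp'))).mul (hwn p)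
  have hint : ∑ p ∈ I, ∫ ξ, x p ξ * w p ξ ∂(PV ν (Tor d L)) ≤
      1 + ∑ p ∈ I, ∑ p' ∈ I.erase p, ∫ ξ, x p ξ * x p' ξ * w p ξ ∂(PV ν (Tor d L)) := by
    have h1 : ∫ ξ, ∑ p ∈ I, x p ξ * w p ξ ∂(PV ν (Tor d L)) ≤
        ∫ ξ, (1 + ∑ p ∈ I, ∑ p' ∈ I.erase p, x p ξ * x p' ξ * w p ξ) ∂(PV ν (Tor d L)) := by
      refine integral_mono (Nice.sum I hn1).integrable ?_ hpt
      exact ((Nice.const 1).add (Nice.sum I fun p hp => Nice.sum _ (hn2 p hp))).integrable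
    rw [integral_finsetSum _ fun p hp => (hn1 p hp).integrable, integral_add
      (Nice.const 1).integrable (Nice.sum I fun p hp => Nice.sum _ (hn2 p hp)).integrable,
      integral_finsetSum _ fun p hp => (Nice.sum _ (hn2 p hp)).integrable] at h1
    refine h1.trans (le_of_eq ?_)
    congr 1
    · simp
    · exact Finset.sum_congr rfl fun p hp =>
        integral_finsetSum _ fun p' hp' => (hn2 p hp p' hp').integrable
  -- the left side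
  obtain ⟨D, hD⟩ : ∃ D : ℝ, D = (PV ν (Tor d L)).real B - u - pT G K Θ Ψ θ W n a ρ -
      pm G σ K θ ρb bm n := ⟨_, rfl⟩
  obtain ⟨Z, hZd⟩ : ∃ Z : ℝ, Z = (𝒢.card : ℝ) * 𝒯.card := ⟨_, rfl⟩
  have hcard : (I.card : ℝ) = Z := by
    rw [hI, Finset.card_product, hZd]
    push_cast
    rfl
  have hlow : Z * (pw ρ₀ q σ n s * D) ≤ ∑ p ∈ I, ∫ ξ, x p ξ * w p ξ ∂(PV ν (Tor d L)) := by
    have h1 : ∀ p ∈ I, pw ρ₀ q σ n s * D ≤ ∫ ξ, x p ξ * w p ξ ∂(PV ν (Tor d L)) := by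
      intro p hp
      have h2 := stage_low S (hP p.1 (hmem p hp).1) (h𝒯 p.2 (hmem p hp).2) j
        (hu p.1 (hmem p hp).1)
      rw [hD, hx, hw, hB]
      exact h2
    calc Z * (pw ρ₀ q σ n s * D) = ∑ _p ∈ I, pw ρ₀ q σ n s * D := by
          rw [Finset.sum_const, nsmul_eq_mul, hcard]
      _ ≤ _ := Finset.sum_le_sum h1
  -- the right side
  obtain ⟨E, hEd⟩ : ∃ E : ℝ, E = pT G K Θ Ψ θ W n a ρ + pD K Θ Ψ n j + 2 * n * ρb := ⟨_, rfl⟩
  rw [← hEd] at hE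
  have hpe : 0 ≤ pp G q σ n s * (pp G q σ n s * E) := mul_nonneg hpp (mul_nonneg hpp hE)
  have hup : ∑ p ∈ I, ∑ p' ∈ I.erase p, ∫ ξ, x p ξ * x p' ξ * w p ξ ∂(PV ν (Tor d L)) ≤
      Z * (Z * (pp G q σ n s * (pp G q σ n s * E))) := by
    have h1 : ∀ p ∈ I, ∀ p' ∈ I.erase p, ∫ ξ, x p ξ * x p' ξ * w p ξ ∂(PV ν (Tor d L)) ≤
        pp G q σ n s * (pp G q σ n s * E) := by
      intro p hp p' hp'
      have hp'I := Finset.mem_of_mem_erase hp'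
      have hne := Finset.ne_of_mem_erase hp'
      by_cases hcom : ∃ t ∈ p.1, t ∈ p'.1
      · have h2 : ∀ ξ, x p ξ * x p' ξ * w p ξ = 0 := by
          intro ξ
          rw [hx]
          by_cases h3 : ξ ∈ Xs σ z K θ W q M Y n j A Λ o p.1 p.2
          · by_cases h4 : ξ ∈ Xs σ z K θ W q M Y n j A Λ o p'.1 p'.2
            · exfalso
              obtain ⟨h5, h6⟩ := stgC_uniq S (hP p.1 (hmem p hp).1) (hP p'.1 (hmem p' hp'I).1)
                (h𝒯 p.2 (hmem p hp).2) (h𝒯 p'.2 (hmem p' hp'I).2) hcom h3 h4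
              exact hne (Prod.ext h5.symm h6.symm)
            · simp only
              rw [ind_of_notMem h4, mul_zero, zero_mul]
          · simp only
            rw [ind_of_notMem h3, zero_mul, zero_mul]
        simp only [h2, integral_zero]
        exact hpe
      · have h2 := stage_pair S (hP p.1 (hmem p hp).1) (hP p'.1 (hmem p' hp'I).1)
          (fun t ht ht' => hcom ⟨t, ht', ht⟩) (h𝒯 p.2 (hmem p hp).2) (h𝒯 p'.2 (hmem p' hp'I).2)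
          j hj
        rw [hx, hw, hB, hEd]
        exact h2
    calc ∑ p ∈ I, ∑ p' ∈ I.erase p, ∫ ξ, x p ξ * x p' ξ * w p ξ ∂(PV ν (Tor d L))
        ≤ ∑ _p ∈ I, Z * (pp G q σ n s * (pp G q σ n s * E)) := by
          refine Finset.sum_le_sum fun p hp => ?_
          calc ∑ p' ∈ I.erase p, ∫ ξ, x p ξ * x p' ξ * w p ξ ∂(PV ν (Tor d L))
              ≤ ∑ _p' ∈ I.erase p, pp G q σ n s * (pp G q σ n s * E) :=
                Finset.sum_le_sum (h1 p hp)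
            _ ≤ ∑ _p' ∈ I, pp G q σ n s * (pp G q σ n s * E) :=
                Finset.sum_le_sum_of_subset_of_nonneg (Finset.erase_subset _ _)
                  fun _ _ _ => hpe
            _ = Z * (pp G q σ n s * (pp G q σ n s * E)) := by
                rw [Finset.sum_const, nsmul_eq_mul, hcard]
      _ = _ := by rw [Finset.sum_const, nsmul_eq_mul, hcard]
  have hmain : Z * (pw ρ₀ q σ n s * D) ≤ 1 + Z * (Z * (pp G q σ n s * (pp G q σ n s * E))) := by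
    linarith
  rw [← hB, ← hZd, ← hEd]
  rw [← hZd] at hZ
  have hZpw : 0 < Z * pw ρ₀ q σ n s := mul_pos hZ hpw
  have hdiv : D ≤ (1 + (Z * pp G q σ n s) ^ 2 * E) / (Z * pw ρ₀ q σ n s) := by
    rw [le_div_iff₀ hZpw]
    calc D * (Z * pw ρ₀ q σ n s) = Z * (pw ρ₀ q σ n s * D) := by ring
      _ ≤ _ := hmain
      _ = _ := by ring
  rw [hD] at hdiv
  linarith

end Pool.Agent.H989.SB
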