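import Pool.Agent.H989.SB.Met
import Pool.Agent.H989.SB.Det

/-!
Probabilities of the windows with the explicit constants.
-/

set_option linter.unusedSectionVars false
set_option linter.unusedVariables false

open MeasureTheory ProbabilityTheory Finset

namespace Pool.Agent.H989.SB

/-- size of a window -/
noncomputable def szw (w : Set ℝ) : ℝ := sSup (abs '' w)

theorem Wpr_szw {a b : ℝ} (ha : 0 < a) (hab : a < b) :
    szw {t | a ≤ |t| ∧ |t| < b} = b := by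
  unfold szw
  have h : abs '' {t : ℝ | a ≤ |t| ∧ |t| < b} = Set.Ico a b := by
    ext y
    constructor
    · rintro ⟨t, ht, rfl⟩
      exact ht
    · rintro ⟨h1, h2⟩
      have h3 : |y| = y := abs_of_pos (ha.trans_le h1)
      exact ⟨y, ⟨by rw [h3]; exact h1, by rw [h3]; exact h2⟩, h3⟩
  rw [h, csSup_Ico hab]

theorem szw_win {q : ℝ} (hq : 1 < q) (j : ℤ) : szw (win q j) = q ^ (j + 1) :=
  Wpr_szw (zpow_pos (by linarith) _) (zpow_lt_zpow_right₀ hq (by omega))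

theorem szw_winp {q : ℝ} (hq : 1 < q) (j : ℤ) : szw (winp q j) = q ^ (j + 2) :=
  Wpr_szw (zpow_pos (by linarith) _) (zpow_lt_zpow_right₀ hq (by omega))

theorem prod_win {q : ℝ} (hq : 1 < q) (c : ℝ) (τ : List ℤ) :
    ((τ.map (win q)).map fun w => c * szw w).prod = (c * q) ^ τ.length * q ^ τ.sum := by
  have hq0 : q ≠ 0 := by linarith
  induction τ with
  | nil => simp
  | cons j τ ih =>
    rw [List.map_cons, List.map_cons, List.prod_cons, ih, szw_win hq, List.length_cons,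
      List.sum_cons, zpow_add₀ hq0, zpow_add₀ hq0, zpow_one, pow_succ]
    ring

theorem prod_winp {q : ℝ} (hq : 1 < q) (c : ℝ) (τ : List ℤ) :
    ((τ.map (winp q)).map fun w => c * szw w).prod = (c * q ^ 2) ^ τ.length * q ^ τ.sum := by
  have hq0 : q ≠ 0 := by linarith
  induction τ with
  | nil => simp
  | cons j τ ih =>
    have h2 : q ^ (2 : ℤ) = q ^ 2 := by
      rw [← zpow_natCast]
      rfl
    rw [List.map_cons, List.map_cons, List.prod_cons, ih, szw_winp hq, List.length_cons,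
      List.sum_cons, zpow_add₀ hq0, zpow_add₀ hq0, h2, pow_succ]
    ring

/-- lower bound for the probability of the windows of a path -/
noncomputable def pw (ρ₀ q σ : ℝ) (n : ℕ) (s : ℤ) : ℝ := (2 * ρ₀ * (q - 1) / σ) ^ n * q ^ s

/-- upper bound for the probability of the windows of a path -/
noncomputable def pp (G q σ : ℝ) (n : ℕ) (s : ℤ) : ℝ := (2 * G * q ^ 2 / σ) ^ n * q ^ s

variable {V : Type*} [AddCommGroup V] [Fintype V] [DecidableEq V]
variable {N Λ : Finset V} {σ G e δ ρ₀ : ℝ} {z : ℂ} {K θ W q M Y : ℝ} {n : ℕ} {J h₀ s : ℤ}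
variable {ν : Measure ℝ} {xs : List V} {τ : List ℤ} {Φ : (V → ℝ) → ℝ}

/-- `inW_le`, `win_le` with `p w = 2 G q szw w / σ` -/
theorem win_upper [IsProbabilityMeasure ν] (hν : Law ν G) (hG : 0 ≤ G) (hN : Steps N)
    (hz : 0 < z.im) (hσ : 0 < σ) (hq : 1 < q) (hΦ : Nice Φ) (h0 : ∀ ξ, 0 ≤ Φ ξ)
    (hn : xs.length = n) (hnd : xs.Nodup) (hx : ∀ x ∈ xs, x ∉ Λ)
    (hi : ∀ x ∈ xs, ∀ ξ t, Φ (Function.update ξ x t) = Φ ξ) (hτ : TW n J h₀ s τ) :
    ∫ ξ, ind {ξ | InW N (pot σ ξ) z Λ xs (τ.map (win q))} ξ * Φ ξ ∂(PV ν V)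
      ≤ pp G q σ n s * ∫ ξ, Φ ξ ∂(PV ν V) := by
  have hq0 : 0 < q := by linarith
  have h1 := inW_le (σ := σ) ν hN hz hΦ h0 (fun w => (2 * G * q / σ) * szw w) xs Λ
    (τ.map (win q)) (by rw [List.length_map, hτ.len, hn]) hnd hx hi (by
      intro w hw
      obtain ⟨j, -, rfl⟩ := List.mem_map.1 hw
      refine ⟨measurableSet_win q j, ?_, fun c => ?_⟩
      · show 0 ≤ 2 * G * q / σ * szw (win q j)
        rw [szw_win hq]
        positivity
      · refine (win_le hν hσ hq j c).trans (le_of_eq ?_)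
        show 2 * G * q ^ (j + 2) / σ = 2 * G * q / σ * szw (win q j)
        rw [szw_win hq]
        have h2 : q ^ (j + 2) = q ^ (j + 1) * q := by
          rw [← zpow_add_one₀ hq0.ne']
          congr 1
          ring
        rw [h2]
        ring)
  refine h1.trans (le_of_eq ?_)
  rw [prod_win hq, hτ.len, hτ.tot, pp]
  have h3 : 2 * G * q / σ * q = 2 * G * q ^ 2 / σ := by ring
  rw [h3]

/-- `inW_le`, `winp_le` with `p w = 2 G szw w / σ` -/
theorem winp_upper [IsProbabilityMeasure ν] (hν : Law ν G) (hG : 0 ≤ G) (hN : Steps N)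
    (hz : 0 < z.im) (hσ : 0 < σ) (hq : 1 < q) (hΦ : Nice Φ) (h0 : ∀ ξ, 0 ≤ Φ ξ)
    (hn : xs.length = n) (hnd : xs.Nodup) (hx : ∀ x ∈ xs, x ∉ Λ)
    (hi : ∀ x ∈ xs, ∀ ξ t, Φ (Function.update ξ x t) = Φ ξ) (hτ : TW n J h₀ s τ) :
    ∫ ξ, ind {ξ | InW N (pot σ ξ) z Λ xs (τ.map (winp q))} ξ * Φ ξ ∂(PV ν V)
      ≤ pp G q σ n s * ∫ ξ, Φ ξ ∂(PV ν V) := by
  have hq0 : 0 < q := by linarith
  have h1 := inW_le (σ := σ) ν hN hz hΦ h0 (fun w => (2 * G / σ) * szw w) xs Λ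
    (τ.map (winp q)) (by rw [List.length_map, hτ.len, hn]) hnd hx hi (by
      intro w hw
      obtain ⟨j, -, rfl⟩ := List.mem_map.1 hw
      refine ⟨measurableSet_winp q j, ?_, fun c => ?_⟩
      · show 0 ≤ 2 * G / σ * szw (winp q j)
        rw [szw_winp hq]
        positivity
      · refine (winp_le hν hσ hq j c).trans (le_of_eq ?_)
        show 2 * G * q ^ (j + 2) / σ = 2 * G / σ * szw (winp q j)
        rw [szw_winp hq]
        ring)
  refine h1.trans (le_of_eq ?_)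
  rw [prod_winp hq, hτ.len, hτ.tot, pp]
  have h3 : 2 * G / σ * q ^ 2 = 2 * G * q ^ 2 / σ := by ring
  rw [h3]

/-- `inW_ge`, `win_ge` with `p w = 2 ρ₀ (q-1) szw w / (q σ)`; for `|j| ≤ J` the windows are in
`{t | (K θ)⁻¹ ≤ |t|}` (`WinP.lo`), and `|c - σ e| + q^(j+1) ≤ σ δ` by `hwin` -/
theorem win_lower [IsProbabilityMeasure ν] (hν : LowD ν e δ ρ₀) (hρ₀ : 0 ≤ ρ₀) (hN : Steps N)
    (hz : 0 < z.im) (hσ : 0 < σ) {ds : V → V → ℕ} (hds : Dst ds)
    (H : WinP z K θ W q M Y n J h₀ s)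
    (hwin : |z.re - σ * e| + (W + 8 * W ^ 2 * (K * θ)) + q ^ (J + 1) ≤ σ * δ)
    (hΦ : Nice Φ) (h0 : ∀ ξ, 0 ≤ Φ ξ) {o : V} (hp : IsPath N ds Λ o xs) (ho : o ∈ Λ)
    (hn : xs.length = n) (hnd : xs.Nodup)
    (hi : ∀ x ∈ xs, ∀ ξ t, Φ (Function.update ξ x t) = Φ ξ)
    (hT : ∀ ξ, 0 < Φ ξ → TF N (pot σ ξ) z ds W K (full Λ xs) xs) (hτ : TW n J h₀ s τ) :
    pw ρ₀ q σ n s * ∫ ξ, Φ ξ ∂(PV ν V)
      ≤ ∫ ξ, ind {ξ | InW N (pot σ ξ) z Λ xs (τ.map (win q))} ξ * Φ ξ ∂(PV ν V) := by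
  have hq := H.q1
  have hq0 : 0 < q := by linarith
  have h1 := inW_ge (σ := σ) ν hN hz hds H.cst hΦ h0
    (fun w => (2 * ρ₀ * (q - 1) / (q * σ)) * szw w) xs Λ o
    (τ.map (win q)) (by rw [List.length_map, hτ.len, hn]) hp ho hnd hi hT (by
      intro w hw
      obtain ⟨j, hj, rfl⟩ := List.mem_map.1 hw
      have hjJ := abs_le.1 (hτ.le j hj)
      have e1 : (2 * ρ₀ * (q - 1) / (q * σ)) * szw (win q j) =
          2 * ρ₀ * (q - 1) * q ^ j / σ := by
        rw [szw_win hq, zpow_add_one₀ hq0.ne']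
        field_simp
      refine ⟨measurableSet_win q j, ?_, fun t ht => ?_, fun c hc => ?_⟩
      · show 0 ≤ (2 * ρ₀ * (q - 1) / (q * σ)) * szw (win q j)
        rw [e1]
        have h2 : 0 ≤ q - 1 := by linarith
        positivity
      · refine H.lo.trans (le_trans ?_ ht.1)
        exact zpow_le_zpow_right₀ hq.le (by omega)
      · show (2 * ρ₀ * (q - 1) / (q * σ)) * szw (win q j) ≤ _
        rw [e1]
        refine win_ge hν hσ hq j ?_
        have h3 : |c - σ * e| ≤ |c - z.re| + |z.re - σ * e| := by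
          have h4 := abs_add_le (c - z.re) (z.re - σ * e)
          rwa [sub_add_sub_cancel] at h4
        have h5 : q ^ (j + 1) ≤ q ^ (J + 1) := zpow_le_zpow_right₀ hq.le (by omega)
        linarith)
  refine le_trans (le_of_eq ?_) h1
  rw [prod_win hq, hτ.len, hτ.tot, pw]
  have h3 : 2 * ρ₀ * (q - 1) / (q * σ) * q = 2 * ρ₀ * (q - 1) / σ := by
    field_simp
  rw [h3]

theorem Wpr_meas (hN : Steps N) (hz : 0 < z.im) (ds : V → V → ℕ) (W K : ℝ) (Λf : Finset V)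
    (xs : List V) : MeasurableSet {ξ : V → ℝ | TF N (pot σ ξ) z ds W K Λf xs} := by
  have e : {ξ : V → ℝ | TF N (pot σ ξ) z ds W K Λf xs} =
      (⋂ (x : V) (_ : x ∈ Λf) (y : V) (_ : y ∈ xs) (_ : x ≠ y),
        {ξ : V → ℝ | ‖Qf N Λf (pot σ ξ) z x y‖ ≤ W * K⁻¹ ^ (max 1 (ds x y - 1))}) ∩
      ⋂ (y : V) (_ : y ∈ xs), {ξ : V → ℝ | ‖Qf N Λf (pot σ ξ) z y y‖ ≤ W} := by
    ext ξ
    simp only [Set.mem_inter_iff, Set.mem_iInter, Set.mem_ofPred_eq]
    exact ⟨fun h => ⟨h.off, h.diag⟩, fun h => ⟨h.1, h.2⟩⟩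
  rw [e]
  refine MeasurableSet.inter ?_ ?_
  · refine MeasurableSet.iInter fun x => MeasurableSet.iInter fun _ => MeasurableSet.iInter fun y =>
      MeasurableSet.iInter fun _ => MeasurableSet.iInter fun _ => ?_
    exact measurableSet_le (measurable_Qf hN hz x y).norm measurable_const
  · refine MeasurableSet.iInter fun y => MeasurableSet.iInter fun _ => ?_
    exact measurableSet_le (measurable_Qf hN hz y y).norm measurable_const

theorem Wpr_upd (hN : Steps N) (hz : 0 < z.im) (ds : V → V → ℕ) (W K : ℝ) {Λf : Finset V}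
    (xs : List V) {x : V} (hx : x ∈ Λf) (ξ : V → ℝ) (t : ℝ) :
    TF N (pot σ (Function.update ξ x t)) z ds W K Λf xs ↔ TF N (pot σ ξ) z ds W K Λf xs := by
  constructor
  · intro h
    exact ⟨fun a ha y hy hay => by rw [← Qf_upd hN hz hx ξ t]; exact h.off a ha y hy hay,
      fun y hy => by rw [← Qf_upd hN hz hx ξ t]; exact h.diag y hy⟩
  · intro h
    exact ⟨fun a ha y hy hay => by rw [Qf_upd hN hz hx ξ t]; exact h.off a ha y hy hay,
      fun y hy => by rw [Qf_upd hN hz hx ξ t]; exact h.diag y hy⟩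

/-- `nc_prob` and `met_chain` with the windows `winp q`, `p w = 2 G szw w / σ`, `wm = szw`,
`κ = 2 ρb`, `Φ` the indicator of `TF` (measurable, and independent of the potential at `xs`: `Qf_upd`):
probability that the large norm at one of the sites is lost -/
theorem nc_upper [IsProbabilityMeasure ν] (hν : Law ν G) (hG : 0 ≤ G) (hN : Steps N)
    (hz : 0 < z.im) (hσ : 0 < σ) {ds : V → V → ℕ} (hds : Dst ds)
    (H : WinP z K θ W q M Y n J h₀ s) {ρb bm Y₁ : ℝ} (hρ0 : 0 < ρb) (hρ : ρb ≤ 1 / 4)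
    (hbm : z.im + W + 8 * W ^ 2 * (K * θ) ≤ bm) (hbm1 : 1 ≤ bm) (hbm2 : K * θ ≤ bm)
    (hY : Y₁ ≤ Y * ((ρb / (2 * bm)) ^ n / (1 + n * K)) ^ 2)
    {o : V} (hp : IsPath N ds Λ o xs) (ho : o ∈ Λ) (hn : xs.length = n) (hnd : xs.Nodup)
    (hτ : TW n J h₀ s τ) :
    (PV ν V).real {ξ | TF N (pot σ ξ) z ds W K (full Λ xs) xs ∧
        InW N (pot σ ξ) z Λ xs (τ.map (winp q)) ∧
        (∃ x ∈ o :: xs, Y ≤ nsq (chi N (full Λ xs) (pot σ ξ) z x)) ∧
        nsq (chi N Λ (pot σ ξ) z o) < Y₁}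
      ≤ 2 * n * ρb * pp G q σ n s := by
  have hq := H.q1
  have hq0 : 0 < q := by linarith
  have hlen : (τ.map (winp q)).length = xs.length := by rw [List.length_map, hτ.len, hn]
  have hmT := Wpr_meas (σ := σ) hN hz ds W K (full Λ xs) xs
  have hwm : ∀ w ∈ τ.map (winp q), MeasurableSet w := by
    intro w hw
    obtain ⟨j, -, rfl⟩ := List.mem_map.1 hw
    exact measurableSet_winp q j
  have hmS : MeasurableSet {ξ : V → ℝ | InW N (pot σ ξ) z Λ xs (τ.map (winp q)) ∧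
      ¬ NC N (pot σ ξ) z ρb Λ o xs} :=
    (measurableSet_InW hN hz xs Λ _ hwm).inter (measurableSet_NC hN hz ρb xs Λ o).compl
  -- the windows
  have hwin : ∀ w ∈ τ.map (winp q), ∀ t ∈ w, (K * θ)⁻¹ ≤ |t| ∧ |t| ≤ szw w ∧ |t| ≤ bm := by
    intro w hw t ht
    obtain ⟨j, hj, rfl⟩ := List.mem_map.1 hw
    have hjJ := abs_le.1 (hτ.le j hj)
    refine ⟨H.lo.trans (le_trans ?_ ht.1), ?_, ?_⟩
    · exact zpow_le_zpow_right₀ hq.le (by omega)
    · rw [szw_winp hq]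
      exact ht.2.le
    · refine ht.2.le.trans (le_trans ?_ (H.hi.trans hbm2))
      exact zpow_le_zpow_right₀ hq.le (by omega)
  have hsub : {ξ : V → ℝ | TF N (pot σ ξ) z ds W K (full Λ xs) xs ∧
        InW N (pot σ ξ) z Λ xs (τ.map (winp q)) ∧
        (∃ x ∈ o :: xs, Y ≤ nsq (chi N (full Λ xs) (pot σ ξ) z x)) ∧
        nsq (chi N Λ (pot σ ξ) z o) < Y₁} ⊆
      {ξ : V → ℝ | InW N (pot σ ξ) z Λ xs (τ.map (winp q)) ∧ ¬ NC N (pot σ ξ) z ρb Λ o xs} ∩
      {ξ : V → ℝ | TF N (pot σ ξ) z ds W K (full Λ xs) xs} := by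
    rintro ξ ⟨h1, h2, h3, h4⟩
    refine ⟨⟨h2, fun h5 => ?_⟩, h1⟩
    have h6 := met_chain hN hz hds H.cst hρ0 hρ hbm hbm1 xs Λ o (τ.map (winp q)) hlen hp ho h1
      (fun w hw t ht => ⟨(hwin w hw t ht).1, (hwin w hw t ht).2.2⟩) h2 h5 h3
    rw [hn] at h6
    exact absurd (hY.trans h6) (not_le.2 h4)
  have hΦ : Nice (ind {ξ : V → ℝ | TF N (pot σ ξ) z ds W K (full Λ xs) xs}) := nice_ind1 hmT
  have h1 := nc_prob (G := G) (κ := 2 * ρb) hν hN hz hσ hds H.cst hρ0.le hρ (by positivity)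
    hΦ (ind_nonneg _) (fun w => (2 * G / σ) * szw w) szw xs Λ o (τ.map (winp q)) hlen hp ho hnd
    (by
      intro x hx ξ t
      have h2 := Wpr_upd (σ := σ) hN hz ds W K xs ((mem_full xs Λ x).2 (Or.inr hx)) ξ t
      by_cases h3 : TF N (pot σ ξ) z ds W K (full Λ xs) xs
      · rw [ind_of_mem (S := {ξ : V → ℝ | TF N (pot σ ξ) z ds W K (full Λ xs) xs}) h3]
        exact ind_of_mem (h2.2 h3)
      · rw [ind_of_notMem (S := {ξ : V → ℝ | TF N (pot σ ξ) z ds W K (full Λ xs) xs}) h3]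
        exact ind_of_notMem fun h => h3 (h2.1 h))
    (by
      intro ξ hξ
      by_contra h3
      rw [ind_of_notMem (S := {ξ : V → ℝ | TF N (pot σ ξ) z ds W K (full Λ xs) xs}) h3] at hξ
      exact lt_irrefl _ hξ)
    (by
      intro w hw
      have h5 := hwin w hw
      obtain ⟨j, hj, rfl⟩ := List.mem_map.1 hw
      refine ⟨measurableSet_winp q j, ?_, fun t ht => ⟨(h5 t ht).1, (h5 t ht).2.1⟩,
        fun c => ?_, ?_⟩
      · show 0 ≤ 2 * G / σ * szw (winp q j)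
        rw [szw_winp hq]
        positivity
      · refine (winp_le hν hσ hq j c).trans (le_of_eq ?_)
        show 2 * G * q ^ (j + 2) / σ = 2 * G / σ * szw (winp q j)
        rw [szw_winp hq]
        ring
      · apply le_of_eq
        show 4 * G * ρb * szw (winp q j) / σ = 2 * ρb * (2 * G / σ * szw (winp q j))
        ring)
  have h2 : (PV ν V).real ({ξ : V → ℝ | InW N (pot σ ξ) z Λ xs (τ.map (winp q)) ∧
        ¬ NC N (pot σ ξ) z ρb Λ o xs} ∩
      {ξ : V → ℝ | TF N (pot σ ξ) z ds W K (full Λ xs) xs}) =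
      ∫ ξ, ind {ξ : V → ℝ | InW N (pot σ ξ) z Λ xs (τ.map (winp q)) ∧
        ¬ NC N (pot σ ξ) z ρb Λ o xs} ξ *
        ind {ξ : V → ℝ | TF N (pot σ ξ) z ds W K (full Λ xs) xs} ξ ∂(PV ν V) := by
    rw [← integral_ind _ (hmS.inter hmT)]
    refine integral_congr_ae (Filter.Eventually.of_forall fun ξ => ?_)
    show ind _ ξ = ind _ ξ * ind _ ξ
    unfold ind
    by_cases ha : ξ ∈ {ξ : V → ℝ | InW N (pot σ ξ) z Λ xs (τ.map (winp q)) ∧
        ¬ NC N (pot σ ξ) z ρb Λ o xs}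
    · by_cases hb : ξ ∈ {ξ : V → ℝ | TF N (pot σ ξ) z ds W K (full Λ xs) xs}
      · rw [Set.indicator_of_mem ha, Set.indicator_of_mem hb, one_mul]
        exact Set.indicator_of_mem (show ξ ∈ _ ∩ _ from ⟨ha, hb⟩) _
      · rw [Set.indicator_of_notMem hb, mul_zero]
        exact Set.indicator_of_notMem (fun h => hb h.2) _
    · rw [Set.indicator_of_notMem ha, zero_mul]
      exact Set.indicator_of_notMem (fun h => ha h.1) _
  have h3 : ∫ ξ, ind {ξ : V → ℝ | TF N (pot σ ξ) z ds W K (full Λ xs) xs} ξ ∂(PV ν V) ≤ 1 := by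
    rw [integral_ind _ hmT]
    exact measureReal_le_one
  have h4 : ((τ.map (winp q)).map fun w => (2 * G / σ) * szw w).prod = pp G q σ n s := by
    rw [prod_winp hq, hτ.len, hτ.tot, pp]
    have h5 : 2 * G / σ * q ^ 2 = 2 * G * q ^ 2 / σ := by ring
    rw [h5]
  have hpp : 0 ≤ pp G q σ n s := by
    rw [pp]
    positivity
  refine (measureReal_mono hsub (measure_ne_top _ _)).trans ?_
  rw [h2]
  refine h1.trans ?_
  rw [h4, hn]
  have h6 : 0 ≤ (n : ℝ) * (2 * ρb) * pp G q σ n s := by positivity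
  calc (n : ℝ) * (2 * ρb) * pp G q σ n s *
        ∫ ξ, ind {ξ : V → ℝ | TF N (pot σ ξ) z ds W K (full Λ xs) xs} ξ ∂(PV ν V)
      ≤ (n : ℝ) * (2 * ρb) * pp G q σ n s * 1 := mul_le_mul_of_nonneg_left h3 h6
    _ = 2 * n * ρb * pp G q σ n s := by ring

end Pool.Agent.H989.SB
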