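import Pool.Agent.H989.SB.Uniq
import Pool.Agent.H989.SB.Pair
import Pool.Agent.H989.SB.Wpr

/-!
One stage of the argument.
-/

set_option linter.unusedSectionVars false
set_option linter.unusedVariables false

open MeasureTheory ProbabilityTheory Finset

namespace Pool.Agent.H989.SB

/-- the hypotheses for one stage -/
structure StH (d L : ℕ) [NeZero L] (ν : Measure ℝ) (G σ : ℝ) (z : ℂ) (K Θ Ψ θ W : ℝ)
    (n a ρ : ℕ) (e δ ρ₀ ρb bm q M Y Y₁ : ℝ) (J h₀ s : ℤ) : Prop where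
  H : TypH d L ν G σ z K Θ Ψ θ W n a ρ
  HW : WinP z K θ W q M Y n J h₀ s
  lowd : LowD ν e δ ρ₀
  ρ₀0 : 0 < ρ₀
  hwin : |z.re - σ * e| + (W + 8 * W ^ 2 * (K * θ)) + q ^ (J + 1) ≤ σ * δ
  ρb0 : 0 < ρb
  ρb1 : ρb ≤ 1 / 4
  bm1 : 1 ≤ bm
  bm2 : K * θ ≤ bm
  bm3 : 2 * (|z.re| + z.im + W + 8 * W ^ 2 * (K * θ)) ≤ bm
  hY : Y₁ ≤ Y * ((ρb / (2 * bm)) ^ n / (1 + n * K)) ^ 2

/-- probability of the failure of the typical event -/
noncomputable def pT (G K Θ Ψ θ W : ℝ) (n a ρ : ℕ) : ℝ :=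
  40 * Bn n a ρ Ψ Θ / W + 10 * G * (2 * n) ^ (n + 1) * θ

/-- probability of the loss of a large norm -/
noncomputable def pm (G σ K θ ρb bm : ℝ) (n : ℕ) : ℝ :=
  n * (4 * G * ρb * bm / σ + 2 * G / (K * θ * σ) + 4 * G * σ / bm)

/-- probability of the failure of the deep event -/
noncomputable def pD (K Θ Ψ : ℝ) (n j : ℕ) : ℝ :=
  (n + 1) ^ 2 * 2 ^ n * Ψ * Θ ^ ((j + 2) * n) * K / K ^ n

/-- the set of the potentials for which the typical event of `γ` holds, there is no large norm, and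
there is a resonance of stage `j` seen from the end point -/
def Fg {d L : ℕ} [NeZero L] (σ : ℝ) (z : ℂ) (K θ W M Y : ℝ) (n j : ℕ) (A : Finset (Fin d))
    (Λ : Finset (Tor d L)) (o : Tor d L) (γ : List (St d)) : Set (Tor d L → ℝ) :=
  {ξ | Tp n σ z K W θ A Λ o γ ξ ∧ Sg σ z Y Λ o γ ξ ∧
    Res n σ z M j (A ∪ dirs γ) (full Λ (sites o γ)) (ept o γ) ξ}

/-- the set of the potentials for which the path `γ` is good, with the windows `τ` -/
def Xs {d L : ℕ} [NeZero L] (σ : ℝ) (z : ℂ) (K θ W q M Y : ℝ) (n j : ℕ) (A : Finset (Fin d))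
    (Λ : Finset (Tor d L)) (o : Tor d L) (γ : List (St d)) (τ : List ℤ) : Set (Tor d L → ℝ) :=
  {ξ | InW (NN d L) (pot σ ξ) z Λ (sites o γ) (τ.map (win q))} ∩ Fg σ z K θ W M Y n j A Λ o γ

/-- the set of the potentials for which stage `j + 1` fails -/
def Bd {d L : ℕ} [NeZero L] (σ : ℝ) (z : ℂ) (M Y₁ : ℝ) (n j : ℕ) (A : Finset (Fin d))
    (Λ : Finset (Tor d L)) (o : Tor d L) : Set (Tor d L → ℝ) :=
  {ξ | ¬ Wj n σ z M Y₁ j A Λ o ξ}

variable {d L : ℕ} [NeZero L] {ν : Measure ℝ} {G σ : ℝ} {z : ℂ} {K Θ Ψ θ W : ℝ} {n a ρ : ℕ}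
  {e δ ρ₀ ρb bm q M Y Y₁ : ℝ} {J h₀ s : ℤ}
  {A : Finset (Fin d)} {Λ : Finset (Tor d L)} {o : Tor d L} {γ γ' : List (St d)} {τ τ' : List ℤ}

theorem measurableSet_Fg [IsProbabilityMeasure ν] (H : TypH d L ν G σ z K Θ Ψ θ W n a ρ)
    (P : PathH n a ρ A Λ o γ) (j : ℕ) :
    MeasurableSet (Fg σ z K θ W M Y n j A Λ o γ) := by
  unfold Fg
  simp only [Set.ofPred_and]
  exact (measurableSet_Tp H P).inter ((measurableSet_Sg H.hL H.hz).inter
    (measurableSet_Res H.hL H.hz j))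

theorem measurableSet_Xs [IsProbabilityMeasure ν] (H : TypH d L ν G σ z K Θ Ψ θ W n a ρ)
    (P : PathH n a ρ A Λ o γ) (j : ℕ) (τ : List ℤ) :
    MeasurableSet (Xs σ z K θ W q M Y n j A Λ o γ τ) := by
  unfold Xs
  refine (measurableSet_InW (Loc_steps H.hL) H.hz (sites o γ) Λ (τ.map (win q)) ?_).inter
    (measurableSet_Fg H P j)
  intro w hw
  obtain ⟨k, -, rfl⟩ := List.mem_map.1 hw
  exact measurableSet_win q k

theorem measurableSet_Bd (hL : 5 ≤ L) (hz : 0 < z.im) (j : ℕ) :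
    MeasurableSet (Bd σ z M Y₁ n j A Λ o) := by
  unfold Bd
  exact (measurableSet_Wj hL hz j).compl

end Pool.Agent.H989.SB
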