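import Pool.Agent.H989.SB.Path
import Pool.Agent.H989.SB.Mom

/-!
Common hypotheses for the probabilities of the typical events.
-/

set_option linter.unusedSectionVars false
set_option linter.unusedVariables false

open MeasureTheory ProbabilityTheory Finset

namespace Pool.Agent.H989.SB

/-- hypotheses on the model -/
structure TypH (d L : ℕ) [NeZero L] (ν : Measure ℝ) (G σ : ℝ) (z : ℂ) (K Θ Ψ θ W : ℝ)
    (n a ρ : ℕ) : Prop where
  hL : 5 ≤ L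
  law : Law ν G
  hG : 0 < G
  hz : 0 < z.im
  hK : K = 2 * d
  hd : 0 < d
  hΨ : 1 ≤ Ψ
  hΘ : 1 ≤ Θ
  hΘK : Θ ≤ K
  hW : 1 ≤ W
  hθ : 0 < θ
  hσ : K ≤ σ
  hn : 1 ≤ n
  mom : Mom d L ν σ z Ψ Θ K a ρ

/-- hypotheses on the removed sites and the path -/
structure PathH {d L : ℕ} [NeZero L] (n a ρ : ℕ) (A : Finset (Fin d)) (Λ : Finset (Tor d L))
    (o : Tor d L) (γ : List (St d)) : Prop where
  hA : A.card + 2 * n ≤ a
  hΛ : Around A o Λ
  hc : Λ.card + 2 * n ≤ a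
  hρ : ∀ x ∈ Λ, wt (x - o) + 2 * n + 2 ≤ ρ
  hγ : Val A γ
  len : γ.length = n

/-- the constant -/
noncomputable def Bn (n a ρ : ℕ) (Ψ Θ : ℝ) : ℝ := ρ * a * Ψ * (4 * n * Θ) ^ (2 * n + 4)

end Pool.Agent.H989.SB
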