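import Pool.Agent.H989.SB.Det

/-!
Two good paths have no common step.
-/

set_option linter.unusedSectionVars false
set_option linter.unusedVariables false

open MeasureTheory ProbabilityTheory Finset

namespace Pool.Agent.H989.SB

variable {d L : ℕ} [NeZero L] {σ : ℝ} {z : ℂ} {K θ W q M Y : ℝ} {n : ℕ} {J h₀ s : ℤ}
  {A : Finset (Fin d)} {Λ : Finset (Tor d L)} {o : Tor d L} {γ γ' : List (St d)} {τ τ' : List ℤ}
  {ξ : Tor d L → ℝ}

theorem uniq_win {q : ℝ} (hq : 1 < q) {t : ℝ} {j j' : ℤ} (h : t ∈ win q j) (h' : t ∈ win q j') :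
    j = j' := by
  have h1 : q ^ j < q ^ (j' + 1) := lt_of_le_of_lt h.1 h'.2
  have h2 : q ^ j' < q ^ (j + 1) := lt_of_le_of_lt h'.1 h.2
  rw [zpow_lt_zpow_iff_right₀ hq] at h1 h2
  omega

/-- the windows of a path determine the exponents -/
theorem inW_unique {V : Type*} [AddCommGroup V] [Fintype V] [DecidableEq V] {N : Finset V}
    {v : V → ℝ} {q : ℝ} (hq : 1 < q) : ∀ (xs : List V) (Λ : Finset V) (τ τ' : List ℤ),
    τ.length = xs.length → τ'.length = xs.length → InW N v z Λ xs (τ.map (win q)) →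
      InW N v z Λ xs (τ'.map (win q)) → τ = τ' := by
  intro xs
  induction xs with
  | nil =>
    intro Λ τ τ' h h' _ _
    rw [List.length_nil, List.length_eq_zero_iff] at h h'
    rw [h, h']
  | cons x xs ih =>
    intro Λ τ τ' h h' hw hw'
    cases τ with
    | nil => simp at h
    | cons j τ =>
      cases τ' with
      | nil => simp at h'
      | cons j' τ' =>
        rw [List.map_cons] at hw hw'
        have h1 : (pv N Λ v z x).re ∈ win q j := hw.1
        have h1' : (pv N Λ v z x).re ∈ win q j' := hw'.1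
        have h2 : j = j' := uniq_win hq h1 h1'
        have h3 : τ = τ' := ih (insert x Λ) τ τ' (by simpa using h) (by simpa using h') hw.2 hw'.2
        rw [h2, h3]

theorem uniq_take (hL : 5 ≤ L) (hΛ : Around A o Λ) (hγ : Val A γ) (hγ' : Val A γ') {k : ℕ}
    (hk : k < γ'.length) (h : ept o (γ'.take (k + 1)) ∈ full Λ (sites o γ)) :
    (γ'.take (k + 1)).toFinset = (γ.take (k + 1)).toFinset := by
  have h0 : ept o (γ'.take (k + 1)) ∉ Λ := by
    apply ept_notMem hL hΛ (hγ'.take (k + 1))
    intro he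
    have h1 := congrArg List.length he
    rw [List.length_take, List.length_nil] at h1
    omega
  have h1 : ept o (γ'.take (k + 1)) ∈ sites o γ := by
    rcases (mem_full _ _ _).1 h with h | h
    · exact absurd h h0
    · exact h
  obtain ⟨j, hj, he⟩ := mem_sites.1 h1
  have h2 : wt (ept o (γ'.take (k + 1)) - o : Tor d L) = wt (ept o (γ.take (j + 1)) - o : Tor d L) := by
    rw [he]
  rw [wt_ept hL (hγ'.take _), wt_ept hL (hγ.take _), List.length_take, List.length_take] at h2
  have h3 : j = k := by omega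
  subst h3
  rw [ept_eq_vec (hγ'.take _), ept_eq_vec (hγ.take _)] at he
  exact vec_inj hL (hγ'.take _).cons (hγ.take _).cons (add_left_cancel he)

/-- different paths with the same end point: a site of the second one is in the cube of the first,
but not on it.
Proof. `γ.toFinset = γ'.toFinset` (`ept_eq_vec`, `vec_inj`). Let `k` be the first index with
`γ[k] ≠ γ'[k]`, `u = γ'.take (k+1)`. Then `ept o u` has `wt (ept o u - o) = k + 1`, so it could only be
the site `ept o (γ.take (k+1))` of `γ` (`wt_site`), and it is not (`st` is injective for `5 ≤ L`, or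
`vec_inj` for the sets `(γ.take (k+1)).toFinset`, `u.toFinset`). -/
theorem cube_site (hL : 5 ≤ L) (hΛ : Around A o Λ) (hγ : Val A γ) (hγ' : Val A γ') (hne : γ ≠ γ')
    (he : (ept o γ : Tor d L) = ept o γ') :
    ∃ k, k < γ'.length ∧ (∀ t ∈ γ'.take (k + 1), t ∈ γ) ∧
      ept o (γ'.take (k + 1)) ∉ full Λ (sites o γ) := by
  have hS : γ.toFinset = γ'.toFinset := by
    rw [ept_eq_vec hγ, ept_eq_vec hγ'] at he
    exact vec_inj hL hγ.cons hγ'.cons (add_left_cancel he)
  have hlen : γ.length = γ'.length := by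
    rw [← hγ.card, ← hγ'.card, hS]
  by_contra hcon
  push Not at hcon
  apply hne
  have hall : ∀ k, k < γ'.length → (γ'.take (k + 1)).toFinset = (γ.take (k + 1)).toFinset := by
    intro k hk
    apply uniq_take hL hΛ hγ hγ' hk
    apply hcon k hk
    intro t ht
    have h1 : t ∈ γ'.toFinset := List.mem_toFinset.2 (List.mem_of_mem_take ht)
    rw [← hS] at h1
    exact List.mem_toFinset.1 h1
  have hall' : ∀ k, k ≤ γ'.length → (γ'.take k).toFinset = (γ.take k).toFinset := by
    intro k hk
    cases k with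
    | zero => rw [List.take_zero, List.take_zero]
    | succ k => exact hall k hk
  have hnd : γ'.Nodup := List.Nodup.of_map _ hγ'.1
  apply List.ext_getElem hlen
  intro k hk hk'
  have h1 : γ'[k] ∈ (γ'.take (k + 1)).toFinset := by
    rw [List.mem_toFinset, List.take_succ_eq_append_getElem hk']
    exact List.mem_append_right _ (List.mem_singleton.2 rfl)
  rw [hall k hk', List.mem_toFinset, List.take_succ_eq_append_getElem hk, List.mem_append,
    List.mem_singleton] at h1
  rcases h1 with h1 | h1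
  · exfalso
    have h2 : γ'[k] ∈ (γ.take k).toFinset := List.mem_toFinset.2 h1
    rw [← hall' k hk'.le, List.mem_toFinset, List.mem_take_iff_getElem] at h2
    obtain ⟨i, hi, he2⟩ := h2
    have h3 := (List.Nodup.getElem_inj_iff hnd).1 he2
    omega
  · exact h1.symm

/-- Two good paths with a common step are equal.
Proof. Windows `win` are inside `winp` (`inW_win_winp`), so `good_amp` and `site_small` apply to both
paths (`isPath_sites`, `dst_dsx`).  Suppose `γ ≠ γ'`.
(1) `ept o γ = ept o γ'`: `cube_site`, `Tp.cube` for `γ` gives `5 K θ < |σ ξ x - Re z|` at a site `x` of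
`γ'`, `site_small` for `γ'` gives `≤ 4 K θ`.
(2) `w = ept o γ' ≠ ept o γ`: by `good_amp` for `γ'` (the last site is `w`) `4 M ≤ ‖sol Λ (bx o) w‖`, so
`8 ≤`.  On the other hand `w` is not a site of `γ` (`wt (w - o) = n`; the only site of `γ` with this
is `ept o γ`), and by `multi` with `Γ = (sites o γ).toFinset`
`‖sol Λ (bx o) w‖ ≤ ‖sol Λf (bx o) w‖ + ∑_{g ∈ sites o γ} ‖sol Λ (bx o) g‖ ‖sol Λf (bx g) w‖`
`≤ W/K + n * (3/2) q^(n-h₀) * W + (3/2) q^(n-s) * W / K < 8` (`Tp.tb` for `u = γ'`, `good_amp` for `γ`,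
`WinP.hh`, `WinP.hM`; `chi_off`).
Finally `γ = γ'` and `inW_unique` give `τ = τ'`. -/
theorem uniq (hL : 5 ≤ L) (hz : 0 < z.im) (H : WinP z K θ W q M Y n J h₀ s) (hΛ : Around A o Λ)
    (hγ : Val A γ) (hγ' : Val A γ') (hl : γ.length = n) (hl' : γ'.length = n)
    (hτ : TW n J h₀ s τ) (hτ' : TW n J h₀ s τ')
    (hw : InW (NN d L) (pot σ ξ) z Λ (sites o γ) (τ.map (win q)))
    (hw' : InW (NN d L) (pot σ ξ) z Λ (sites o γ') (τ'.map (win q)))
    (T : Tp n σ z K W θ A Λ o γ ξ) (T' : Tp n σ z K W θ A Λ o γ' ξ)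
    (S : Sg σ z Y Λ o γ ξ) (S' : Sg σ z Y Λ o γ' ξ) (hc : ∃ t ∈ γ, t ∈ γ') :
    γ = γ' ∧ τ = τ' := by
  have hL3 : 3 ≤ L := by omega
  have hN : Steps (NN d L) := steps_ND hL3 _
  have hK4 : 4 ≤ K := H.cst.K1
  have hK0 : 0 < K := by linarith
  have hθ0 : 0 < θ := H.cst.θ0
  have hW1 : 1 ≤ W := H.cst.W1
  have hKθ : 0 < K * θ := mul_pos hK0 hθ0
  have hlen : (sites o γ).length = n := by rw [length_sites, hl]
  have hlen' : (sites o γ').length = n := by rw [length_sites, hl']
  have hn1 : 1 ≤ n := H.n1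
  have hwp := inW_win_winp H.q1 _ _ _ hw
  have hwp' := inW_win_winp H.q1 _ _ _ hw'
  have hmain : γ = γ' := by
    by_contra hne
    by_cases he : (ept o γ : Tor d L) = ept o γ'
    · obtain ⟨k, hk, hsub, hnot⟩ := cube_site hL hΛ hγ hγ' hne he
      have h1 := T.cube (γ'.take (k + 1)) (hγ'.take _) hsub hnot
      have h2 := site_small hN hz (dst_dsx Λ o) H.cst H.hKW H.q1 H.lo H.hi (sites o γ') Λ o τ'
        (isPath_sites hL hΛ hγ') hΛ.1 T'.tf (by rw [hlen', hτ'.len]) hτ'.le hwp'
        (ept o (γ'.take (k + 1))) (mem_sites.2 ⟨k, hk, rfl⟩)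
      have h3 : |σ * ξ (ept o (γ'.take (k + 1))) - z.re| ≤ 4 * (K * θ) := h2
      linarith
    · obtain ⟨-, hlast', -⟩ := good_amp hN hz (dst_dsx Λ o) H (isPath_sites hL hΛ hγ') hΛ.1 T'.tf
        hlen' hτ' hwp' S'
      obtain ⟨hint, hlast, -⟩ := good_amp hN hz (dst_dsx Λ o) H (isPath_sites hL hΛ hγ) hΛ.1 T.tf
        hlen hτ hwp S
      obtain ⟨hb1, hb2, hb3⟩ := T.tb γ' hγ' hl' (by
        obtain ⟨t, ht, ht'⟩ := hc
        exact ⟨t, ht', ht⟩) (fun h => he h.symm)
      have hge : sites o γ' ≠ [] := by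
        intro h
        rw [h, List.length_nil] at hlen'
        omega
      have hidx' : (sites o γ')[n - 1]? = some (ept o γ') := by
        rw [sites_get o γ' (n - 1) (by omega), List.take_of_length_le (by omega)]
      have hidx : (sites o γ)[n - 1]? = some (ept o γ) := by
        rw [sites_get o γ (n - 1) (by omega), List.take_of_length_le (by omega)]
      have hlow := (hlast' _ hidx').1
      have hup := (hlast _ hidx).2
      have hM2 := H.M2
      have hwnot : (ept o γ' : Tor d L) ∉ sites o γ := by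
        intro hm
        obtain ⟨j, hj, hej⟩ := mem_sites.1 hm
        have h2 : wt (ept o γ' - o : Tor d L) = wt (ept o (γ.take (j + 1)) - o : Tor d L) := by
          rw [hej]
        rw [wt_ept hL hγ', wt_ept hL (hγ.take _), List.length_take] at h2
        apply he
        rw [hej, List.take_of_length_le (by omega)]
      have hdis : Disjoint Λ (sites o γ).toFinset := by
        rw [Finset.disjoint_left]
        intro y hy hy'
        rw [List.mem_toFinset] at hy'
        exact sites_notMem hL hΛ hγ hy' hy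
      have hm := congrFun (multi (v := pot σ ξ) hN hz (bx (NN d L) o) (sites o γ).toFinset hdis)
        (ept o γ')
      rw [← full_union, Pi.add_apply, Finset.sum_apply] at hm
      have hq0 : 0 < q := by linarith [H.q1]
      have hA0 : 0 < q ^ ((n : ℤ) - h₀) := zpow_pos hq0 _
      have hB0 : 0 < q ^ ((n : ℤ) - s) := zpow_pos hq0 _
      have hterm : ∀ g ∈ (sites o γ).toFinset,
          ‖(sol (NN d L) Λ (pot σ ξ) z (bx (NN d L) o) g •
            chi (NN d L) (full Λ (sites o γ)) (pot σ ξ) z g) (ept o γ')‖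
          ≤ 3 / 2 * q ^ ((n : ℤ) - h₀) * W +
            (if g = ept o γ then 3 / 2 * q ^ ((n : ℤ) - s) * (W * K⁻¹) else 0) := by
        intro g hg
        rw [List.mem_toFinset] at hg
        have hgw : (ept o γ' : Tor d L) ≠ g := fun h => hwnot (h ▸ hg)
        rw [Pi.smul_apply, smul_eq_mul, norm_mul, chi_off hgw, norm_neg]
        by_cases hge : g = ept o γ
        · rw [if_pos hge, hge]
          have h1 : ‖sol (NN d L) Λ (pot σ ξ) z (bx (NN d L) o) (ept o γ)‖ *
              ‖sol (NN d L) (full Λ (sites o γ)) (pot σ ξ) z (bx (NN d L) (ept o γ)) (ept o γ')‖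
              ≤ 3 / 2 * q ^ ((n : ℤ) - s) * (W * K⁻¹) :=
            mul_le_mul hup hb2 (norm_nonneg _) (by positivity)
          have h2 : 0 ≤ 3 / 2 * q ^ ((n : ℤ) - h₀) * W := by positivity
          linarith
        · rw [if_neg hge, add_zero]
          obtain ⟨k, hk⟩ := List.mem_iff_getElem?.1 hg
          have hklt : k < γ.length := by
            obtain ⟨h, _⟩ := List.getElem?_eq_some_iff.1 hk
            rw [length_sites] at h
            exact h
          have hk1 : k + 1 < n := by
            by_contra hcon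
            have hkn : k = n - 1 := by omega
            rw [hkn, hidx] at hk
            exact hge (Option.some.inj hk).symm
          exact mul_le_mul (hint k g hk hk1) (hb3 g hg) (norm_nonneg _) (by positivity)
      have hsum := norm_sum_le_of_le _ hterm
      rw [Finset.sum_add_distrib, Finset.sum_const, nsmul_eq_mul, Finset.sum_ite_eq',
        List.toFinset_card_of_nodup (sites_nodup hL hγ), hlen] at hsum
      have hbig : ‖sol (NN d L) Λ (pot σ ξ) z (bx (NN d L) o) (ept o γ')‖ ≤
          W * K⁻¹ + (n * (3 / 2 * q ^ ((n : ℤ) - h₀) * W) + 3 / 2 * q ^ ((n : ℤ) - s) * (W * K⁻¹)) := by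
        rw [hm]
        refine (norm_add_le _ _).trans (add_le_add hb1 (hsum.trans ?_))
        refine add_le_add le_rfl ?_
        split_ifs
        · exact le_rfl
        · positivity
      -- numerical bounds
      have hn1' : (1 : ℝ) ≤ n := by exact_mod_cast hn1
      have e1 : W * K⁻¹ ≤ 1 / 4 := by
        have h1 := H.cst.h1
        have h2 : 0 ≤ 24 * W ^ 2 * θ := by positivity
        rw [div_eq_mul_inv] at h1
        linarith
      have e2 : n * (3 / 2 * q ^ ((n : ℤ) - h₀) * W) ≤ 1 / 4 := by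
        have h1 := H.hh
        have h2 : n * (3 / 2 * q ^ ((n : ℤ) - h₀) * W) = (6 * n * W * q ^ ((n : ℤ) - h₀)) / 4 := by
          ring
        rw [h2]
        linarith
      have e3 : 3 / 2 * q ^ ((n : ℤ) - s) * (W * K⁻¹) ≤ 1 / 4 := by
        have h1 := H.hM
        have h2 : W * q ^ ((n : ℤ) - s) ≤ n * (W * q ^ ((n : ℤ) - s)) :=
          le_mul_of_one_le_left (by positivity) hn1'
        have h3 : 6 * (W * q ^ ((n : ℤ) - s)) ≤ K := by
          have h4 : 6 * n * W * q ^ ((n : ℤ) - s) = 6 * (n * (W * q ^ ((n : ℤ) - s))) := by ring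
          rw [h4] at h1
          linarith
        have h5 : 3 / 2 * q ^ ((n : ℤ) - s) * (W * K⁻¹) = (6 * (W * q ^ ((n : ℤ) - s))) * K⁻¹ / 4 := by
          ring
        rw [h5]
        have h6 : 6 * (W * q ^ ((n : ℤ) - s)) * K⁻¹ ≤ K * K⁻¹ :=
          mul_le_mul_of_nonneg_right h3 (by positivity)
        rw [mul_inv_cancel₀ hK0.ne'] at h6
        linarith
      linarith
  refine ⟨hmain, ?_⟩
  subst hmain
  exact inW_unique H.q1 (sites o γ) Λ τ τ' (by rw [hlen, hτ.len]) (by rw [hlen, hτ'.len]) hw hw'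

end Pool.Agent.H989.SB
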