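import Pool.Agent.H989.SB.Core

/-!
Probabilities of windows for the pivots of a path (one coordinate after the other).
-/

set_option linter.unusedSectionVars false
set_option linter.unusedVariables false

open MeasureTheory ProbabilityTheory Finset

namespace Pool.Agent.H989.SB

variable {V : Type*} [AddCommGroup V] [Fintype V] [DecidableEq V]
variable {N Λ : Finset V} {σ : ℝ} {z : ℂ}

theorem measurable_Qf (hN : Steps N) (hz : 0 < z.im) (x y : V) :
    Measurable fun ξ : V → ℝ => Qf N Λ (pot σ ξ) z x y := by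
  unfold Qf nb
  exact Finset.measurable_sum _ fun n _ => (nice_sol hN hz (bx N y) (x + n)).1

theorem measurable_chi (hN : Steps N) (hz : 0 < z.im) (x y : V) :
    Measurable fun ξ : V → ℝ => chi N Λ (pot σ ξ) z x y := by
  unfold chi
  simp only [Pi.sub_apply]
  exact measurable_const.sub (nice_sol hN hz (bx N x) y).1

theorem measurable_pv (hN : Steps N) (hz : 0 < z.im) (x : V) :
    Measurable fun ξ : V → ℝ => pv N Λ (pot σ ξ) z x := by
  unfold pv
  refine Measurable.sub (Measurable.sub ?_ measurable_const) ?_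
  · unfold pot
    exact Complex.measurable_ofReal.comp (measurable_const.mul (measurable_pi_apply x))
  · exact measurable_Qf (Λ := insert x Λ) hN hz x x

theorem measurableSet_InW (hN : Steps N) (hz : 0 < z.im) : ∀ (xs : List V) (Λ : Finset V)
    (ws : List (Set ℝ)), (∀ w ∈ ws, MeasurableSet w) →
      MeasurableSet {ξ : V → ℝ | InW N (pot σ ξ) z Λ xs ws}
  | [], Λ, ws, _ => by
    simp only [InW]
    exact MeasurableSet.univ
  | x :: xs, Λ, [], _ => by
    simp only [InW]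
    exact MeasurableSet.univ
  | x :: xs, Λ, w :: ws, h => by
    have h1 : MeasurableSet {ξ : V → ℝ | (pv N Λ (pot σ ξ) z x).re ∈ w} :=
      (Complex.measurable_re.comp (measurable_pv (σ := σ) (Λ := Λ) hN hz x)) (h w (by simp))
    exact h1.inter (measurableSet_InW hN hz xs (insert x Λ) ws
      fun w' hw' => h w' (List.mem_cons_of_mem _ hw'))

theorem Win_sol (hN : Steps N) (hz : 0 < z.im) {x : V} (hx : x ∈ Λ) (ξ : V → ℝ) (t : ℝ)
    (b : V → ℂ) : sol N Λ (pot σ (Function.update ξ x t)) z b = sol N Λ (pot σ ξ) z b := by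
  refine sol_congr hN hz b fun y hy => ?_
  have : y ≠ x := fun e => hy (by rw [e]; exact hx)
  unfold pot
  rw [Function.update_of_ne this]

/-- the coordinates of the removed sites do not matter -/
theorem Qf_upd (hN : Steps N) (hz : 0 < z.im) {x : V} (hx : x ∈ Λ) (ξ : V → ℝ) (t : ℝ) (y y' : V) :
    Qf N Λ (pot σ (Function.update ξ x t)) z y y' = Qf N Λ (pot σ ξ) z y y' := by
  unfold Qf
  rw [Win_sol hN hz hx]

theorem chi_upd (hN : Steps N) (hz : 0 < z.im) {x : V} (hx : x ∈ Λ) (ξ : V → ℝ) (t : ℝ) (y : V) :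
    chi N Λ (pot σ (Function.update ξ x t)) z y = chi N Λ (pot σ ξ) z y := by
  unfold chi
  rw [Win_sol hN hz hx]

/-- the pivot at `x` is an affine function of the potential at `x` -/
theorem pv_upd_self (hN : Steps N) (hz : 0 < z.im) (x : V) (ξ : V → ℝ) (t : ℝ) :
    pv N Λ (pot σ (Function.update ξ x t)) z x
      = ((σ * t : ℝ) : ℂ) - (z + SE N Λ (pot σ ξ) z x) := by
  unfold pv SE
  rw [Win_sol hN hz (Finset.mem_insert_self x Λ)]
  have : pot σ (Function.update ξ x t) x = σ * t := by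
    unfold pot
    rw [Function.update_self]
  rw [this, sub_sub]

theorem pv_upd (hN : Steps N) (hz : 0 < z.im) {x y : V} (hx : x ∈ Λ) (hyx : y ≠ x) (ξ : V → ℝ)
    (t : ℝ) : pv N Λ (pot σ (Function.update ξ x t)) z y = pv N Λ (pot σ ξ) z y := by
  unfold pv SE
  rw [Win_sol hN hz (Finset.mem_insert_of_mem hx)]
  have : pot σ (Function.update ξ x t) y = pot σ ξ y := by
    unfold pot
    rw [Function.update_of_ne hyx]
  rw [this]

theorem InW_upd (hN : Steps N) (hz : 0 < z.im) {x : V} (ξ : V → ℝ) (t : ℝ) :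
    ∀ (xs : List V) (Λ : Finset V) (ws : List (Set ℝ)), x ∈ Λ → x ∉ xs →
      (InW N (pot σ (Function.update ξ x t)) z Λ xs ws ↔ InW N (pot σ ξ) z Λ xs ws)
  | [], Λ, ws, _, _ => by simp only [InW]
  | y :: xs, Λ, [], _, _ => by simp only [InW]
  | y :: xs, Λ, w :: ws, hx, hxs => by
    have hyx : y ≠ x := fun e => hxs (by rw [e]; exact List.mem_cons_self)
    have h1 := InW_upd hN hz ξ t xs (insert y Λ) ws (Finset.mem_insert_of_mem hx)
      (fun h => hxs (List.mem_cons_of_mem _ h))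
    simp only [InW]
    rw [h1, pv_upd hN hz hx hyx]

theorem Win_split (x : V) (w : Set ℝ) (xs : List V) (ws : List (Set ℝ)) (Λ : Finset V)
    (ξ : V → ℝ) : ind {ξ : V → ℝ | InW N (pot σ ξ) z Λ (x :: xs) (w :: ws)} ξ =
      ind {ξ : V → ℝ | (pv N Λ (pot σ ξ) z x).re ∈ w} ξ *
        ind {ξ : V → ℝ | InW N (pot σ ξ) z (insert x Λ) xs ws} ξ := by
  by_cases h1 : (pv N Λ (pot σ ξ) z x).re ∈ w
  · by_cases h2 : InW N (pot σ ξ) z (insert x Λ) xs ws
    · rw [ind_of_mem (S := {ξ : V → ℝ | (pv N Λ (pot σ ξ) z x).re ∈ w}) h1,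
        ind_of_mem (S := {ξ : V → ℝ | InW N (pot σ ξ) z (insert x Λ) xs ws}) h2, one_mul]
      exact ind_of_mem ⟨h1, h2⟩
    · rw [ind_of_notMem (S := {ξ : V → ℝ | InW N (pot σ ξ) z (insert x Λ) xs ws}) h2, mul_zero]
      exact ind_of_notMem fun h => h2 h.2
  · rw [ind_of_notMem (S := {ξ : V → ℝ | (pv N Λ (pot σ ξ) z x).re ∈ w}) h1, zero_mul]
    exact ind_of_notMem fun h => h1 h.1

theorem Win_phi (hN : Steps N) (hz : 0 < z.im) {x : V} {xs : List V} {ws : List (Set ℝ)}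
    (hxn : x ∉ xs) {Φ : (V → ℝ) → ℝ} (hΦx : ∀ ξ t, Φ (Function.update ξ x t) = Φ ξ)
    (ξ : V → ℝ) (t : ℝ) :
    ind {ξ : V → ℝ | InW N (pot σ ξ) z (insert x Λ) xs ws} (Function.update ξ x t) *
        Φ (Function.update ξ x t) =
      ind {ξ : V → ℝ | InW N (pot σ ξ) z (insert x Λ) xs ws} ξ * Φ ξ := by
  rw [hΦx]
  congr 1
  have h1 := InW_upd (σ := σ) hN hz ξ t xs (insert x Λ) ws (Finset.mem_insert_self _ _) hxn
  by_cases h2 : InW N (pot σ ξ) z (insert x Λ) xs ws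
  · rw [ind_of_mem (S := {ξ : V → ℝ | InW N (pot σ ξ) z (insert x Λ) xs ws}) h2]
    exact ind_of_mem (h1.2 h2)
  · rw [ind_of_notMem (S := {ξ : V → ℝ | InW N (pot σ ξ) z (insert x Λ) xs ws}) h2]
    exact ind_of_notMem fun h => h2 (h1.1 h)

/-- Upper bound for the probability of the windows.
Proof by induction on the list: the event for the tail (with `insert x Λ`) and `Φ` do not depend on
`ξ x`; integrate over `ξ x` first (`peel_le` of SB/Prb, `pv_upd_self`). -/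
theorem inW_le (ν : Measure ℝ) [IsProbabilityMeasure ν] (hN : Steps N) (hz : 0 < z.im)
    {Φ : (V → ℝ) → ℝ} (hΦ : Nice Φ) (h0 : ∀ ξ, 0 ≤ Φ ξ) (p : Set ℝ → ℝ) :
    ∀ (xs : List V) (Λ : Finset V) (ws : List (Set ℝ)), ws.length = xs.length → xs.Nodup →
      (∀ x ∈ xs, x ∉ Λ) → (∀ x ∈ xs, ∀ ξ t, Φ (Function.update ξ x t) = Φ ξ) →
      (∀ w ∈ ws, MeasurableSet w ∧ 0 ≤ p w ∧ ∀ c : ℝ, ν.real {t | σ * t - c ∈ w} ≤ p w) →
      ∫ ξ, ind {ξ | InW N (pot σ ξ) z Λ xs ws} ξ * Φ ξ ∂(PV ν V)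
        ≤ (ws.map p).prod * ∫ ξ, Φ ξ ∂(PV ν V)
  | [], Λ, ws, hlen, _, _, _, _ => by
    have hws : ws = [] := List.length_eq_zero_iff.1 hlen
    subst hws
    have h1 : ∀ ξ : V → ℝ, ind {ξ : V → ℝ | InW N (pot σ ξ) z Λ [] []} ξ = 1 := fun ξ =>
      ind_of_mem (by simp only [InW, Set.mem_ofPred_eq])
    simp only [h1, one_mul, List.map_nil, List.prod_nil]
    exact le_rfl
  | x :: xs, Λ, [], hlen, _, _, _, _ => absurd hlen (by simp)
  | x :: xs, Λ, w :: ws, hlen, hnd, hΛ, hΦx, hw => by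
    have hxn : x ∉ xs := (List.nodup_cons.1 hnd).1
    have hwm : ∀ w' ∈ ws, MeasurableSet w' := fun w' h' => (hw w' (List.mem_cons_of_mem _ h')).1
    have IH := inW_le ν hN hz hΦ h0 p xs (insert x Λ) ws (by simpa using hlen)
      (List.nodup_cons.1 hnd).2
      (fun y hy h => by
        rcases Finset.mem_insert.1 h with e | h
        · exact hxn (by rw [← e]; exact hy)
        · exact hΛ y (List.mem_cons_of_mem _ hy) h)
      (fun y hy => hΦx y (List.mem_cons_of_mem _ hy))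
      (fun w' h' => hw w' (List.mem_cons_of_mem _ h'))
    obtain ⟨hw1, hw2, hw3⟩ := hw w List.mem_cons_self
    have hT := measurableSet_InW (σ := σ) hN hz xs (insert x Λ) ws hwm
    have hD : MeasurableSet {ξ : V → ℝ | (pv N Λ (pot σ ξ) z x).re ∈ w} :=
      (Complex.measurable_re.comp (measurable_pv (σ := σ) (Λ := Λ) hN hz x)) hw1
    set Φ' : (V → ℝ) → ℝ := fun ξ =>
      ind {ξ : V → ℝ | InW N (pot σ ξ) z (insert x Λ) xs ws} ξ * Φ ξ with hΦ'
    have hΦ'n : Nice Φ' := (nice_ind1 hT).mul hΦ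
    have hΦ'0 : ∀ ξ, 0 ≤ Φ' ξ := fun ξ => mul_nonneg (ind_nonneg _ _) (h0 ξ)
    have hΦ'x : ∀ ξ t, Φ' (Function.update ξ x t) = Φ' ξ := fun ξ t =>
      Win_phi hN hz hxn (hΦx x List.mem_cons_self) ξ t
    have hsplit : ∀ ξ, ind {ξ : V → ℝ | InW N (pot σ ξ) z Λ (x :: xs) (w :: ws)} ξ * Φ ξ =
        ind {ξ : V → ℝ | (pv N Λ (pot σ ξ) z x).re ∈ w} ξ * Φ' ξ := fun ξ => by
      rw [hΦ', ← mul_assoc, Win_split]
    simp only [hsplit]
    have h1 := peel_le ν x (c := p w) hD hΦ'n hΦ'0 hΦ'x fun ξ _ => by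
      have h2 := hw3 (z + SE N Λ (pot σ ξ) z x).re
      refine le_trans (le_of_eq ?_) h2
      congr 1
      ext t
      simp only [Set.mem_ofPred_eq]
      rw [pv_upd_self hN hz, Complex.sub_re, Complex.ofReal_re]
    refine h1.trans ?_
    rw [List.map_cons, List.prod_cons, mul_assoc]
    exact mul_le_mul_of_nonneg_left IH hw2

theorem Win_piv {v : V → ℝ} {a : ℝ} : ∀ (xs : List V) (Λ : Finset V) (ws : List (Set ℝ)),
    ws.length = xs.length → (∀ w ∈ ws, ∀ t ∈ w, a ≤ |t|) → InW N v z Λ xs ws →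
      PivGe N v z a Λ xs
  | [], Λ, ws, _, _, _ => trivial
  | x :: xs, Λ, [], hlen, _, _ => absurd hlen (by simp)
  | x :: xs, Λ, w :: ws, hlen, hw, hin => by
    refine ⟨(hw w List.mem_cons_self _ hin.1).trans (Complex.abs_re_le_norm _), ?_⟩
    exact Win_piv xs (insert x Λ) ws (by simpa using hlen)
      (fun w' h' => hw w' (List.mem_cons_of_mem _ h')) hin.2

/-- Lower bound for the probability of the windows.
Proof by induction on the list as for `inW_le`, with `peel_ge`.  For `ξ` with `Φ ξ > 0` and in the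
event of the tail: `TF` holds, the pivots of the tail are at least `(Kθ)⁻¹` in absolute value (since
their real parts are), so by `C1` for the tail and `cc_bd` (SB/Alg)
`|SE N Λ (pot σ ξ) z x| ≤ W + 8 W² (K θ)`, and the real part of the pivot at `x` is `σ t - c` with
`|c - Re z| ≤ W + 8 W² (K θ)`. -/
theorem inW_ge (ν : Measure ℝ) [IsProbabilityMeasure ν] (hN : Steps N) (hz : 0 < z.im)
    {ds : V → V → ℕ} (hds : Dst ds) {K θ W : ℝ} (hc : Cst K θ W)
    {Φ : (V → ℝ) → ℝ} (hΦ : Nice Φ) (h0 : ∀ ξ, 0 ≤ Φ ξ) (p : Set ℝ → ℝ) :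
    ∀ (xs : List V) (Λ : Finset V) (o : V) (ws : List (Set ℝ)), ws.length = xs.length →
      IsPath N ds Λ o xs → o ∈ Λ → xs.Nodup →
      (∀ x ∈ xs, ∀ ξ t, Φ (Function.update ξ x t) = Φ ξ) →
      (∀ ξ, 0 < Φ ξ → TF N (pot σ ξ) z ds W K (full Λ xs) xs) →
      (∀ w ∈ ws, MeasurableSet w ∧ 0 ≤ p w ∧ (∀ t ∈ w, (K * θ)⁻¹ ≤ |t|) ∧
        ∀ c : ℝ, |c - z.re| ≤ W + 8 * W ^ 2 * (K * θ) → p w ≤ ν.real {t | σ * t - c ∈ w}) →
      (ws.map p).prod * ∫ ξ, Φ ξ ∂(PV ν V)
        ≤ ∫ ξ, ind {ξ | InW N (pot σ ξ) z Λ xs ws} ξ * Φ ξ ∂(PV ν V)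
  | [], Λ, o, ws, hlen, _, _, _, _, _, _ => by
    have hws : ws = [] := List.length_eq_zero_iff.1 hlen
    subst hws
    have h1 : ∀ ξ : V → ℝ, ind {ξ : V → ℝ | InW N (pot σ ξ) z Λ [] []} ξ = 1 := fun ξ =>
      ind_of_mem (by simp only [InW, Set.mem_ofPred_eq])
    simp only [h1, one_mul, List.map_nil, List.prod_nil]
    exact le_rfl
  | x :: xs, Λ, o, [], hlen, _, _, _, _, _, _ => absurd hlen (by simp)
  | x :: xs, Λ, o, w :: ws, hlen, hp, ho, hnd, hΦx, hTF, hw => by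
    have hxn : x ∉ xs := (List.nodup_cons.1 hnd).1
    have hwm : ∀ w' ∈ ws, MeasurableSet w' := fun w' h' => (hw w' (List.mem_cons_of_mem _ h')).1
    have hlen' : ws.length = xs.length := by simpa using hlen
    have IH := inW_ge ν hN hz hds hc hΦ h0 p xs (insert x Λ) x ws hlen'
      hp.2.2.2.2.2 (Finset.mem_insert_self _ _) (List.nodup_cons.1 hnd).2
      (fun y hy => hΦx y (List.mem_cons_of_mem _ hy))
      (fun ξ hξ => (hTF ξ hξ).tail)
      (fun w' h' => hw w' (List.mem_cons_of_mem _ h'))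
    obtain ⟨hw1, hw2, hw3, hw4⟩ := hw w List.mem_cons_self
    have hT := measurableSet_InW (σ := σ) hN hz xs (insert x Λ) ws hwm
    have hD : MeasurableSet {ξ : V → ℝ | (pv N Λ (pot σ ξ) z x).re ∈ w} :=
      (Complex.measurable_re.comp (measurable_pv (σ := σ) (Λ := Λ) hN hz x)) hw1
    set Φ' : (V → ℝ) → ℝ := fun ξ =>
      ind {ξ : V → ℝ | InW N (pot σ ξ) z (insert x Λ) xs ws} ξ * Φ ξ with hΦ'
    have hΦ'n : Nice Φ' := (nice_ind1 hT).mul hΦ
    have hΦ'0 : ∀ ξ, 0 ≤ Φ' ξ := fun ξ => mul_nonneg (ind_nonneg _ _) (h0 ξ)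
    have hΦ'x : ∀ ξ t, Φ' (Function.update ξ x t) = Φ' ξ := fun ξ t =>
      Win_phi hN hz hxn (hΦx x List.mem_cons_self) ξ t
    have hsplit : ∀ ξ, ind {ξ : V → ℝ | InW N (pot σ ξ) z Λ (x :: xs) (w :: ws)} ξ * Φ ξ =
        ind {ξ : V → ℝ | (pv N Λ (pot σ ξ) z x).re ∈ w} ξ * Φ' ξ := fun ξ => by
      rw [hΦ', ← mul_assoc, Win_split]
    simp only [hsplit]
    have h1 := peel_ge ν x (c := p w) hD hΦ'n hΦ'0 hΦ'x fun ξ hξ => by
      have hin : InW N (pot σ ξ) z (insert x Λ) xs ws := by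
        by_contra hn
        rw [hΦ'] at hξ
        simp only at hξ
        rw [ind_of_notMem (S := {ξ : V → ℝ | InW N (pot σ ξ) z (insert x Λ) xs ws}) hn,
          zero_mul] at hξ
        exact lt_irrefl _ hξ
      have hΦpos : 0 < Φ ξ := by
        rcases (h0 ξ).eq_or_lt with e | e
        · rw [hΦ'] at hξ
          simp only at hξ
          rw [← e, mul_zero] at hξ
          exact absurd hξ (lt_irrefl _)
        · exact e
      have hTx := hTF ξ hΦpos
      have hpiv : PivGe N (pot σ ξ) z (K * θ)⁻¹ (insert x Λ) xs :=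
        Win_piv xs (insert x Λ) ws hlen' (fun w' h' => (hw w' (List.mem_cons_of_mem _ h')).2.2.1)
          hin
      have hC1 := C1 hN hz hds hc xs (insert x Λ) x hp.2.2.2.2.2 (Finset.mem_insert_self _ _)
        hTx.tail hpiv
      obtain ⟨-, -, hSE⟩ := cc_bd hN hz hds hc (subset_full xs _) hp ho hTx hC1
      have h2 := hw4 (z + SE N Λ (pot σ ξ) z x).re (by
        rw [Complex.add_re, add_sub_cancel_left]
        exact (Complex.abs_re_le_norm _).trans hSE)
      refine h2.trans (le_of_eq ?_)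
      congr 1
      ext t
      simp only [Set.mem_ofPred_eq]
      rw [pv_upd_self hN hz, Complex.sub_re, Complex.ofReal_re]
    refine le_trans ?_ h1
    rw [List.map_cons, List.prod_cons, mul_assoc]
    exact mul_le_mul_of_nonneg_left IH hw2

/-- lower bound for the density near `e` -/
def LowD (ν : Measure ℝ) (e δ ρ₀ : ℝ) : Prop :=
  ∀ a b : ℝ, e - δ ≤ a → a ≤ b → b ≤ e + δ → ρ₀ * (b - a) ≤ ν.real (Set.Ioo a b)

theorem measurableSet_win (q : ℝ) (j : ℤ) : MeasurableSet (win q j) :=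
  (measurableSet_le measurable_const continuous_abs.measurable).inter
    (measurableSet_lt continuous_abs.measurable measurable_const)

theorem measurableSet_winp (q : ℝ) (j : ℤ) : MeasurableSet (winp q j) :=
  (measurableSet_le measurable_const continuous_abs.measurable).inter
    (measurableSet_lt continuous_abs.measurable measurable_const)

theorem win_subset {q : ℝ} (hq : 1 < q) (j : ℤ) : win q j ⊆ winp q j := by
  rintro t ⟨h1, h2⟩
  exact ⟨(zpow_le_zpow_right₀ hq.le (by omega)).trans h1,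
    h2.trans_le (zpow_le_zpow_right₀ hq.le (by omega))⟩

theorem win_disjoint {q : ℝ} (hq : 1 < q) {j j' : ℤ} (h : j ≠ j') :
    Disjoint (win q j) (win q j') := by
  rw [Set.disjoint_left]
  rintro t ⟨h1, h2⟩ ⟨h3, h4⟩
  rcases lt_or_gt_of_ne h with h5 | h5
  · have : q ^ (j + 1) ≤ q ^ j' := zpow_le_zpow_right₀ hq.le (by omega)
    linarith
  · have : q ^ (j' + 1) ≤ q ^ j := zpow_le_zpow_right₀ hq.le (by omega)
    linarith

theorem Win_abs_le {ν : Measure ℝ} {G : ℝ} (hν : Law ν G) (hσ : 0 < σ) {r : ℝ} (hr : 0 ≤ r)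
    (c : ℝ) {S : Set ℝ} (hS : ∀ t ∈ S, |t| ≤ r) : ν.real {t | σ * t - c ∈ S} ≤ 2 * G * r / σ := by
  have hp := hν.prob
  have h1 := hν.Icc_le (a := (c - r) / σ) (b := (c + r) / σ) (by gcongr; linarith)
  have h2 : {t | σ * t - c ∈ S} ⊆ Set.Icc ((c - r) / σ) ((c + r) / σ) := by
    intro t ht
    have h3 := abs_le.1 (hS _ ht)
    constructor
    · rw [div_le_iff₀ hσ]; linarith [h3.1]
    · rw [le_div_iff₀ hσ]; linarith [h3.2]
  refine (measureReal_mono h2).trans (h1.trans (le_of_eq ?_))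
  field_simp
  ring

theorem win_le {ν : Measure ℝ} {G : ℝ} (hν : Law ν G) (hσ : 0 < σ) {q : ℝ} (hq : 1 < q) (j : ℤ)
    (c : ℝ) : ν.real {t | σ * t - c ∈ win q j} ≤ 2 * G * q ^ (j + 2) / σ :=
  Win_abs_le hν hσ (zpow_nonneg (by linarith) _) c fun t ht => (win_subset hq j ht).2.le

theorem winp_le {ν : Measure ℝ} {G : ℝ} (hν : Law ν G) (hσ : 0 < σ) {q : ℝ} (hq : 1 < q) (j : ℤ)
    (c : ℝ) : ν.real {t | σ * t - c ∈ winp q j} ≤ 2 * G * q ^ (j + 2) / σ :=
  Win_abs_le hν hσ (zpow_nonneg (by linarith) _) c fun t ht => ht.2.le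

/-- two disjoint intervals of length `(q - 1) q^j / σ` each, inside `[e - δ, e + δ]` -/
theorem win_ge {ν : Measure ℝ} [IsProbabilityMeasure ν] {e δ ρ₀ : ℝ} (hν : LowD ν e δ ρ₀)
    (hσ : 0 < σ) {q : ℝ} (hq : 1 < q) (j : ℤ) {c : ℝ} (hc : |c - σ * e| + q ^ (j + 1) ≤ σ * δ) :
    2 * ρ₀ * (q - 1) * q ^ j / σ ≤ ν.real {t | σ * t - c ∈ win q j} := by
  have hq0 : 0 < q := by linarith
  have hqj : 0 < q ^ j := zpow_pos hq0 j
  have hq1 : q ^ (j + 1) = q ^ j * q := zpow_add_one₀ hq0.ne' j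
  have hlt : q ^ j < q ^ (j + 1) := by rw [hq1]; nlinarith
  have hc1 := (abs_le.1 (le_sub_iff_add_le.2 hc)).1
  have hc2 := (abs_le.1 (le_sub_iff_add_le.2 hc)).2
  have e1 : (e - δ) = (σ * e - σ * δ) / σ := by field_simp
  have e2 : (e + δ) = (σ * e + σ * δ) / σ := by field_simp
  have h1 := hν ((c + q ^ j) / σ) ((c + q ^ (j + 1)) / σ)
    (by rw [e1, div_le_div_iff_of_pos_right hσ]; linarith)
    (by rw [div_le_div_iff_of_pos_right hσ]; linarith)
    (by rw [e2, div_le_div_iff_of_pos_right hσ]; linarith)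
  have h2 := hν ((c - q ^ (j + 1)) / σ) ((c - q ^ j) / σ)
    (by rw [e1, div_le_div_iff_of_pos_right hσ]; linarith)
    (by rw [div_le_div_iff_of_pos_right hσ]; linarith)
    (by rw [e2, div_le_div_iff_of_pos_right hσ]; linarith)
  have hdisj : Disjoint (Set.Ioo ((c + q ^ j) / σ) ((c + q ^ (j + 1)) / σ))
      (Set.Ioo ((c - q ^ (j + 1)) / σ) ((c - q ^ j) / σ)) := by
    rw [Set.disjoint_left]
    rintro t ⟨h3, -⟩ ⟨-, h4⟩
    have h5 : (c - q ^ j) / σ ≤ (c + q ^ j) / σ := by gcongr; linarith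
    linarith
  have hsub : Set.Ioo ((c + q ^ j) / σ) ((c + q ^ (j + 1)) / σ) ∪
      Set.Ioo ((c - q ^ (j + 1)) / σ) ((c - q ^ j) / σ) ⊆ {t | σ * t - c ∈ win q j} := by
    rintro t (⟨h3, h4⟩ | ⟨h3, h4⟩)
    · rw [div_lt_iff₀ hσ] at h3
      rw [lt_div_iff₀ hσ] at h4
      have h5 : |σ * t - c| = σ * t - c := abs_of_pos (by linarith)
      show q ^ j ≤ |σ * t - c| ∧ |σ * t - c| < q ^ (j + 1)
      rw [h5]
      constructor <;> linarith
    · rw [div_lt_iff₀ hσ] at h3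
      rw [lt_div_iff₀ hσ] at h4
      have h5 : |σ * t - c| = -(σ * t - c) := abs_of_neg (by linarith)
      show q ^ j ≤ |σ * t - c| ∧ |σ * t - c| < q ^ (j + 1)
      rw [h5]
      constructor <;> linarith
  have h3 := measureReal_union (μ := ν) hdisj measurableSet_Ioo
  have h4 := measureReal_mono (μ := ν) hsub
  have e3 : 2 * ρ₀ * (q - 1) * q ^ j / σ =
      ρ₀ * ((c + q ^ (j + 1)) / σ - (c + q ^ j) / σ) +
        ρ₀ * ((c - q ^ j) / σ - (c - q ^ (j + 1)) / σ) := by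
    rw [hq1]
    field_simp
    ring
  rw [e3]
  linarith

end Pool.Agent.H989.SB
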